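import Pool.Agent.Lib.MP_1a4724_pr.Defs

/-!
# D01 (60 min) : calculus of active paths

All by induction on `Relation.ReflTransGen` (deterministic, no probability).
`split` : a wait step over `[a, b]` with `a ≤ u ≤ b` splits into two wait steps; if the splitting
time is the time of a jump, split at either end.
`mem` : all vertices reached inside `adjOn B` from `x ∈ B` are in `B`.
`congr_marks` : the path uses only marks of types in `B × B` at times in `[s, t]` (the times along
the path lie between `s` and `t`).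
`map_pull`, `shift`, `rev` : transport step by step (for `rev` the path is reversed; the closed
intervals of the wait steps are symmetric).
`finite_support` : the vertices visited by the path.
`conn_nat_int` : paths on `ℕ` for the pulled back marks are the paths inside `[0, ∞)` on `ℤ`.
-/

open Set

namespace CPM

variable {V W : Type*} {adj adj' : V → V → Prop} {m m' : V × V → Set ℝ} {B B' : Set V}
  {p q r : V × ℝ} {x y : V} {s t u : ℝ}

theorem Conn.refl (p : V × ℝ) : Conn adj m p p := Relation.ReflTransGen.refl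

theorem Conn.trans (h1 : Conn adj m p q) (h2 : Conn adj m q r) : Conn adj m p r :=
  Relation.ReflTransGen.trans h1 h2

theorem d01_step_le (h : Step adj m p q) : p.2 ≤ q.2 := by
  cases h with
  | wait x a b hab hr => exact hab
  | jump x y t hadj hne ht => exact le_rfl

theorem Conn.time_le (h : Conn adj m p q) : p.2 ≤ q.2 := by
  unfold Conn at h
  induction h with
  | refl => exact le_rfl
  | tail _ hs ih => exact ih.trans (d01_step_le hs)

theorem Conn.stay (hst : s ≤ t) (hr : ∀ v ∈ Icc s t, v ∉ m (x, x)) :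
    Conn adj m (x, s) (x, t) :=
  Relation.ReflTransGen.single (Step.wait x s t hst hr)

theorem Conn.arrow (hadj : adj x y) (hne : x ≠ y) (ht : t ∈ m (x, y)) :
    Conn adj m (x, t) (y, t) :=
  Relation.ReflTransGen.single (Step.jump x y t hadj hne ht)

theorem d01_split (h : Conn adj m p q) (hs : p.2 ≤ u) (ht : u ≤ q.2) :
    ∃ z, Conn adj m p (z, u) ∧ Conn adj m (z, u) q := by
  unfold Conn at h
  induction h with
  | refl =>
    have hu : u = p.2 := le_antisymm ht hs
    subst hu
    exact ⟨p.1, Conn.refl _, Conn.refl _⟩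
  | tail hb hs' ih =>
    rename_i b c
    by_cases hub : u ≤ b.2
    · obtain ⟨z, h1, h2⟩ := ih hub
      exact ⟨z, h1, Relation.ReflTransGen.tail h2 hs'⟩
    · push Not at hub
      cases hs' with
      | wait x a b hab hr =>
        refine ⟨x, Relation.ReflTransGen.tail hb (Step.wait x a u hub.le ?_),
          Relation.ReflTransGen.single (Step.wait x u b ht ?_)⟩
        · exact fun v hv => hr v ⟨hv.1, hv.2.trans ht⟩
        · exact fun v hv => hr v ⟨hub.le.trans hv.1, hv.2⟩
      | jump x y t hadj hne ht' => exact absurd ht (not_le.2 hub)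

theorem Conn.split (h : Conn adj m (x, s) (y, t)) (hs : s ≤ u) (ht : u ≤ t) :
    ∃ z, Conn adj m (x, s) (z, u) ∧ Conn adj m (z, u) (y, t) :=
  d01_split h hs ht

theorem Conn.mono (hadj : ∀ a b, adj a b → adj' a b) (h : Conn adj m p q) :
    Conn adj' m p q := by
  refine Relation.ReflTransGen.mono ?_ _ _ h
  intro a b hab
  cases hab with
  | wait x a b hab hr => exact Step.wait x a b hab hr
  | jump x y t h hne ht => exact Step.jump x y t (hadj _ _ h) hne ht

theorem Conn.mono_on (hB : B ⊆ B') (h : Conn (adjOn B adj) m p q) :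
    Conn (adjOn B' adj) m p q :=
  h.mono (fun _ _ hab => ⟨hab.1, hB hab.2.1, hB hab.2.2⟩)

theorem Conn.of_on (h : Conn (adjOn B adj) m p q) : Conn adj m p q :=
  h.mono (fun _ _ hab => hab.1)

theorem conn_univ : Conn (adjOn univ adj) m p q ↔ Conn adj m p q :=
  ⟨fun h => h.of_on, fun h => h.mono (fun _ _ hab => ⟨hab, mem_univ _, mem_univ _⟩)⟩

theorem d01_mem (h : Conn (adjOn B adj) m p q) (hx : p.1 ∈ B) : q.1 ∈ B := by
  unfold Conn at h
  induction h with
  | refl => exact hx
  | tail _ hs ih =>
    cases hs with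
    | wait x a b hab hr => exact ih
    | jump x y t h hne ht => exact h.2.2

theorem Conn.mem (h : Conn (adjOn B adj) m (x, s) (y, t)) (hx : x ∈ B) : y ∈ B :=
  d01_mem h hx

theorem d01_congr (h : Conn (adjOn B adj) m p q) (hx : p.1 ∈ B) (hqt : q.2 ≤ t)
    (hm : ∀ a ∈ B, ∀ b ∈ B, ∀ v ∈ Icc p.2 t, (v ∈ m (a, b) ↔ v ∈ m' (a, b))) :
    Conn (adjOn B adj) m' p q := by
  unfold Conn at h
  induction h with
  | refl => exact Conn.refl _
  | tail hb hs ih =>
    have hle := d01_step_le hs
    have hp := Conn.time_le hb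
    have hmem := d01_mem hb hx
    refine Relation.ReflTransGen.tail (ih (hle.trans hqt)) ?_
    cases hs with
    | wait x a b hab hr =>
      refine Step.wait x a b hab (fun v hv hv' => hr v hv ?_)
      exact (hm x hmem x hmem v ⟨hp.trans hv.1, hv.2.trans hqt⟩).2 hv'
    | jump x y t' h hne ht =>
      exact Step.jump x y t' h hne ((hm x h.2.1 y h.2.2 t' ⟨hp, hqt⟩).1 ht)

theorem Conn.congr_marks (hx : x ∈ B)
    (hm : ∀ a ∈ B, ∀ b ∈ B, ∀ v ∈ Icc s t, (v ∈ m (a, b) ↔ v ∈ m' (a, b))) :
    Conn (adjOn B adj) m (x, s) (y, t) ↔ Conn (adjOn B adj) m' (x, s) (y, t) :=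
  ⟨fun h => d01_congr h hx le_rfl hm,
    fun h => d01_congr h hx le_rfl (fun a ha b hb v hv => (hm a ha b hb v hv).symm)⟩

theorem Conn.map_pull {adjW : W → W → Prop} {γ : W → V} (hγ : Function.Injective γ)
    (hadj : ∀ i j, adjW i j → adj (γ i) (γ j)) {i j : W}
    (h : Conn adjW (pull γ m) (i, s) (j, t)) : Conn adj m (γ i, s) (γ j, t) := by
  refine Relation.ReflTransGen.lift (p := Step adj m) (fun p : W × ℝ => (γ p.1, p.2)) ?_ _ _ h
  intro a b hab
  cases hab with
  | wait x a b hab hr => exact Step.wait (γ x) a b hab hr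
  | jump x y t h hne ht => exact Step.jump (γ x) (γ y) t (hadj _ _ h) (fun e => hne (hγ e)) ht

theorem d01_shift1 (τ : ℝ) (h : Conn adj (shiftT τ m) p q) :
    Conn adj m (p.1, τ + p.2) (q.1, τ + q.2) := by
  refine Relation.ReflTransGen.lift (p := Step adj m) (fun p : V × ℝ => (p.1, τ + p.2)) ?_ _ _ h
  intro a b hab
  cases hab with
  | wait x a b hab hr =>
    refine Step.wait x (τ + a) (τ + b) (by linarith) (fun v hv hv' => ?_)
    refine hr (v - τ) ⟨by linarith [hv.1], by linarith [hv.2]⟩ ?_
    change τ + (v - τ) ∈ m (x, x)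
    rwa [add_sub_cancel]
  | jump x y t h hne ht => exact Step.jump x y (τ + t) h hne ht

theorem d01_shift2 (τ : ℝ) (h : Conn adj m p q) :
    Conn adj (shiftT τ m) (p.1, p.2 - τ) (q.1, q.2 - τ) := by
  refine Relation.ReflTransGen.lift (p := Step adj (shiftT τ m)) (fun p : V × ℝ => (p.1, p.2 - τ)) ?_ _ _ h
  intro a b hab
  cases hab with
  | wait x a b hab hr =>
    refine Step.wait x (a - τ) (b - τ) (by linarith) (fun v hv hv' => ?_)
    exact hr (τ + v) ⟨by linarith [hv.1], by linarith [hv.2]⟩ hv'
  | jump x y t h hne ht =>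
    refine Step.jump x y (t - τ) h hne ?_
    change τ + (t - τ) ∈ m (x, y)
    rwa [add_sub_cancel]

theorem Conn.shift (τ : ℝ) :
    Conn adj (shiftT τ m) (x, s) (y, t) ↔ Conn adj m (x, τ + s) (y, τ + t) := by
  refine ⟨fun h => d01_shift1 τ h, fun h => ?_⟩
  have := d01_shift2 τ h
  simpa using this

theorem d01_rev (hsymm : ∀ a b, adj a b → adj b a) (τ : ℝ) (h : Conn adj m p q) :
    Conn adj (revT τ m) (q.1, τ - q.2) (p.1, τ - p.2) := by
  unfold Conn at h
  induction h with
  | refl => exact Conn.refl _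
  | tail _ hs ih =>
    refine Relation.ReflTransGen.head ?_ ih
    cases hs with
    | wait x a b hab hr =>
      refine Step.wait x (τ - b) (τ - a) (by linarith) (fun v hv hv' => ?_)
      exact hr (τ - v) ⟨by linarith [hv.2], by linarith [hv.1]⟩ hv'
    | jump x y t h hne ht =>
      refine Step.jump y x (τ - t) (hsymm _ _ h) hne.symm ?_
      change τ - (τ - t) ∈ m (x, y)
      rwa [sub_sub_cancel]

theorem d01_revrev (τ : ℝ) (m : V × V → Set ℝ) : revT τ (revT τ m) = m := by
  funext e
  ext t
  change τ - (τ - t) ∈ m (e.1, e.2) ↔ t ∈ m e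
  rw [sub_sub_cancel]

theorem Conn.rev (hsymm : ∀ a b, adj a b → adj b a) (τ : ℝ) :
    Conn adj (revT τ m) (y, τ - t) (x, τ - s) ↔ Conn adj m (x, s) (y, t) := by
  refine ⟨fun h => ?_, fun h => d01_rev hsymm τ h⟩
  have := d01_rev hsymm τ h
  rw [d01_revrev] at this
  simpa using this

theorem d01_finite (h : Conn adj m p q) :
    ∃ Λ : Finset V, p.1 ∈ Λ ∧ Conn (adjOn (Λ : Set V) adj) m p q := by
  classical
  unfold Conn at h
  induction h with
  | refl => exact ⟨{p.1}, by simp, Conn.refl _⟩
  | tail hb hs ih =>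
    rename_i b c
    obtain ⟨Λ, hp, hΛ⟩ := ih
    refine ⟨insert b.1 (insert c.1 Λ), by simp [hp], ?_⟩
    refine Relation.ReflTransGen.tail (hΛ.mono_on (B' := ((insert b.1 (insert c.1 Λ) : Finset V) : Set V)) ?_) ?_
    · intro a ha
      have : a ∈ Λ := ha
      simp [this]
    · cases hs with
      | wait x a b hab hr => exact Step.wait x a b hab hr
      | jump x y t h hne ht => exact Step.jump x y t ⟨h, by simp, by simp⟩ hne ht

theorem Conn.finite_support (h : Conn adj m (x, s) (y, t)) :
    ∃ Λ : Finset V, x ∈ Λ ∧ Conn (adjOn (Λ : Set V) adj) m (x, s) (y, t) :=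
  d01_finite h

theorem natAdj_symm (i j : ℕ) (h : natAdj i j) : natAdj j i := by
  unfold natAdj at *; tauto

theorem intAdj_symm (i j : ℤ) (h : intAdj i j) : intAdj j i := by
  unfold intAdj at *; tauto

theorem conn_nat_int {m : ℤ × ℤ → Set ℝ} {B : Set ℕ} {i j : ℕ} (hi : i ∈ B) :
    Conn (adjOn B natAdj) (pull (fun n : ℕ => (n : ℤ)) m) (i, s) (j, t) ↔
      Conn (adjOn {z : ℤ | 0 ≤ z ∧ z.toNat ∈ B} intAdj) m ((i : ℤ), s) ((j : ℤ), t) := by
  constructor
  · intro h
    refine Conn.map_pull (γ := fun n : ℕ => (n : ℤ)) Nat.cast_injective ?_ h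
    rintro a b ⟨hab, ha, hb⟩
    refine ⟨?_, ⟨Int.natCast_nonneg a, by simpa using ha⟩, ⟨Int.natCast_nonneg b, by simpa using hb⟩⟩
    unfold natAdj at hab
    unfold intAdj
    omega
  · intro h
    have key : ∀ q : ℤ × ℝ, Conn (adjOn {z : ℤ | 0 ≤ z ∧ z.toNat ∈ B} intAdj) m ((i : ℤ), s) q →
        Conn (adjOn B natAdj) (pull (fun n : ℕ => (n : ℤ)) m) (i, s) (q.1.toNat, q.2) := by
      intro q hq
      unfold Conn at hq
      induction hq with
      | refl => exact Conn.refl _
      | tail hb hs ih =>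
        have hmem := d01_mem hb (B := {z : ℤ | 0 ≤ z ∧ z.toNat ∈ B})
          ⟨Int.natCast_nonneg i, by simpa using hi⟩
        refine Relation.ReflTransGen.tail ih ?_
        cases hs with
        | wait x a b hab hr =>
          refine Step.wait x.toNat a b hab ?_
          have hx : ((x.toNat : ℕ) : ℤ) = x := Int.toNat_of_nonneg hmem.1
          intro v hv hv'
          change v ∈ m (((x.toNat : ℕ) : ℤ), ((x.toNat : ℕ) : ℤ)) at hv'
          rw [hx] at hv'
          exact hr v hv hv'
        | jump x y t h hne ht =>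
          obtain ⟨hxy, ⟨hx0, hxB⟩, ⟨hy0, hyB⟩⟩ := h
          have hx : ((x.toNat : ℕ) : ℤ) = x := Int.toNat_of_nonneg hx0
          have hy : ((y.toNat : ℕ) : ℤ) = y := Int.toNat_of_nonneg hy0
          refine Step.jump x.toNat y.toNat t ⟨?_, hxB, hyB⟩ ?_ ?_
          · unfold intAdj at hxy
            unfold natAdj
            omega
          · intro e
            apply hne
            rw [← hx, ← hy, e]
          · change t ∈ m (((x.toNat : ℕ) : ℤ), ((y.toNat : ℕ) : ℤ))
            rw [hx, hy]
            exact ht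
    have := key _ h
    simpa using this

/-- the graph translated by `k` -/
theorem conn_translate {m : ℤ × ℤ → Set ℝ} (B : Set ℤ) (k i j : ℤ) :
    Conn (adjOn B intAdj) (pull (fun z : ℤ => z + k) m) (i, s) (j, t) ↔
      Conn (adjOn {z : ℤ | z - k ∈ B} intAdj) m (i + k, s) (j + k, t) := by
  constructor
  · intro h
    refine Conn.map_pull (γ := fun z : ℤ => z + k) (fun a b hab => by simpa using hab) ?_ h
    rintro a b ⟨hab, ha, hb⟩
    refine ⟨?_, by simpa using ha, by simpa using hb⟩
    unfold intAdj at *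
    omega
  · intro h
    have e : m = pull (fun z : ℤ => z - k) (pull (fun z : ℤ => z + k) m) := by
      funext p
      simp [pull]
    rw [e] at h
    have := Conn.map_pull (adj := adjOn B intAdj) (γ := fun z : ℤ => z - k)
      (fun a b hab => by simpa using hab) ?_ h
    · simpa using this
    · rintro a b ⟨hab, ha, hb⟩
      refine ⟨?_, ha, hb⟩
      unfold intAdj at *
      omega

/-- the graph reflected -/
theorem conn_reflect {m : ℤ × ℤ → Set ℝ} (B : Set ℤ) (i j : ℤ) :
    Conn (adjOn B intAdj) (pull (fun z : ℤ => -z) m) (i, s) (j, t) ↔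
      Conn (adjOn {z : ℤ | -z ∈ B} intAdj) m (-i, s) (-j, t) := by
  constructor
  · intro h
    refine Conn.map_pull (γ := fun z : ℤ => -z) neg_injective ?_ h
    rintro a b ⟨hab, ha, hb⟩
    refine ⟨?_, by simpa using ha, by simpa using hb⟩
    unfold intAdj at *
    omega
  · intro h
    have e : m = pull (fun z : ℤ => -z) (pull (fun z : ℤ => -z) m) := by
      funext p
      simp [pull]
    rw [e] at h
    have := Conn.map_pull (adj := adjOn B intAdj) (γ := fun z : ℤ => -z) neg_injective ?_ h
    · simpa using this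
    · rintro a b ⟨hab, ha, hb⟩
      refine ⟨?_, ha, hb⟩
      unfold intAdj at *
      omega

end CPM
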