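import Pool.Agent.Lib.MP_1a4724_pr.D01

/-!
# D03 (90 min) : planarity

Paths on a linear order with nearest neighbour jumps (no element strictly between the ends of a
jump).

`meet` : if path 1 starts at or to the left of path 2 and ends at or to the right of it, the two
paths have a common space-time point.
Proof by strong induction on the total number of jumps of the two paths (put the paths in the
form: list of jumps).  Let `a` be the time of the last jump of path 1 (`a = s` if there is none),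
`b` the time of the last jump of path 2, `c = max a b`.  At time `c` path 1 is at `y`, path 2 is at
`y'` (`y' ≤ y`) (`(y, c)`, `(y', c)` are points of the paths).  If `y' = y` : common point `(y, c)`.
If `y' < y` and `c = b` is the time of a jump `y'' → y'` of path 2 : `y'' ≤ y` (no element strictly
between `y'` and `y''`), so path 1 up to time `c` (end `y`) and path 2 up to `(y'', c)` (one jump
less) satisfy the hypothesis.  If `c = a` is the time of a jump `y'' → y` of path 1 : `y' ≤ y''`,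
the same.  If there is no jump at all : `x = y`, `x' = y'`, `x ≤ x' = y' ≤ y = x`, common point
`(x, s)`.
`rightmost` : `B` upper set, path 1 inside `B`, path 2 anywhere, path 2 starts at or to the left
of path 1 and ends at or to the right of it : then there is a path inside `B` from the start of
path 1 to the end of path 2.  Same induction: `y = y'` : path 1 itself.  `y < y'`, last jump of
path 2 at `b ≥ a`, `y'' → y'` : `y ≤ y''`; by induction there is a path in `B` from `(x, s)` to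
`(y'', b)`, then jump to `y'` (`y', y'' ≥ y ∈ B`) and wait at `y'` until `t`.  If `a > b` and path 1
jumps `y'' → y` at time `a` : `y'' ≤ y'`, by induction there is a path in `B` from `(x, s)` to
`(y', a)`; wait at `y'` until `t`.  No jumps : `x = y ≤ y' = x' ≤ x`.
-/

open Set

namespace CPM

/-- jumps of `adj` do not cross an element -/
def NoCross {ι : Type*} [LinearOrder ι] (adj : ι → ι → Prop) : Prop :=
  ∀ i j, adj i j → ∀ k, ¬ (i < k ∧ k < j) ∧ ¬ (j < k ∧ k < i)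

theorem noCross_nat : NoCross natAdj := by
  intro i j h k; unfold natAdj at h; omega

theorem noCross_int : NoCross intAdj := by
  intro i j h k; unfold intAdj at h; omega

theorem NoCross.on {ι : Type*} [LinearOrder ι] {adj : ι → ι → Prop} (h : NoCross adj)
    (B : Set ι) : NoCross (adjOn B adj) := fun i j hij => h i j hij.1

variable {ι : Type*} [LinearOrder ι] {m : ι × ι → Set ℝ} {x x' y y' : ι} {s t : ℝ}

/-- paths with a number of steps -/
inductive d03_CN (adj : ι → ι → Prop) (m : ι × ι → Set ℝ) : ℕ → ι × ℝ → ι × ℝ → Prop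
  | refl (p : ι × ℝ) : d03_CN adj m 0 p p
  | tail {n : ℕ} {p q r : ι × ℝ} (h : d03_CN adj m n p q) (hs : Step adj m q r) :
      d03_CN adj m (n + 1) p r

theorem d03_of_conn {adj : ι → ι → Prop} {p q : ι × ℝ} (h : Conn adj m p q) :
    ∃ n, d03_CN adj m n p q := by
  unfold Conn at h
  induction h with
  | refl => exact ⟨0, d03_CN.refl _⟩
  | tail hb hs ih =>
    obtain ⟨n, hn⟩ := ih
    exact ⟨n + 1, d03_CN.tail hn hs⟩

theorem d03_conn {adj : ι → ι → Prop} {n : ℕ} {p q : ι × ℝ} (h : d03_CN adj m n p q) :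
    Conn adj m p q := by
  induction h with
  | refl => exact Conn.refl _
  | tail hb hs ih => exact Relation.ReflTransGen.tail ih hs

theorem d03_last {adj : ι → ι → Prop} {n : ℕ} {p : ι × ℝ} {y : ι} {t : ℝ}
    (h : d03_CN adj m n p (y, t)) :
    (∃ k z, n = k + 1 ∧ d03_CN adj m k p (z, t) ∧ adj z y ∧ z ≠ y ∧ t ∈ m (z, y)) ∨
    (∃ a, p.2 ≤ a ∧ a ≤ t ∧
      (∀ u, a ≤ u → u ≤ t → d03_CN adj m n p (y, u) ∧ ∀ adj' : ι → ι → Prop, Conn adj' m (y, u) (y, t)) ∧
      ((n = 0 ∧ a = t ∧ p = (y, t)) ∨ ∃ k, n = k + 1 ∧ d03_CN adj m k p (y, a))) := by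
  generalize hq : (y, t) = q at h
  cases h with
  | refl =>
    subst hq
    refine Or.inr ⟨t, le_rfl, le_rfl, ?_, Or.inl ⟨rfl, rfl, rfl⟩⟩
    intro u h1 h2
    have : u = t := le_antisymm h2 h1
    subst this
    exact ⟨d03_CN.refl _, fun _ => Conn.refl _⟩
  | tail hb hs =>
    rename_i k b
    cases hs with
    | wait x a t' hab hr =>
      obtain ⟨rfl, rfl⟩ := Prod.mk.inj hq
      refine Or.inr ⟨a, (d03_conn hb).time_le, hab, ?_, Or.inr ⟨k, rfl, hb⟩⟩
      intro u h1 h2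
      exact ⟨d03_CN.tail hb (Step.wait y a u h1 (fun v hv => hr v ⟨hv.1, hv.2.trans h2⟩)),
        fun adj' => Conn.stay h2 (fun v hv => hr v ⟨h1.trans hv.1, hv.2⟩)⟩
    | jump x y' t' hadj hne ht =>
      obtain ⟨rfl, rfl⟩ := Prod.mk.inj hq
      exact Or.inl ⟨k, x, rfl, hb, hadj, hne, ht⟩

theorem d03_meet {adj₁ adj₂ : ι → ι → Prop} (n1 : NoCross adj₁) (n2 : NoCross adj₂)
    (hx : x ≤ x') (N : ℕ) : ∀ (k₁ k₂ : ℕ), k₁ + k₂ ≤ N → ∀ (y y' : ι) (t : ℝ),
    d03_CN adj₁ m k₁ (x, s) (y, t) → d03_CN adj₂ m k₂ (x', s) (y', t) → y' ≤ y →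
    ∃ z u, s ≤ u ∧ u ≤ t ∧ Conn adj₁ m (x, s) (z, u) ∧ Conn adj₁ m (z, u) (y, t) ∧
      Conn adj₂ m (x', s) (z, u) ∧ Conn adj₂ m (z, u) (y', t) := by
  induction N with
  | zero =>
    intro k₁ k₂ hk y y' t h1 h2 hy
    obtain rfl : k₁ = 0 := by omega
    obtain rfl : k₂ = 0 := by omega
    cases h1
    cases h2
    obtain rfl : x = x' := le_antisymm hx hy
    exact ⟨x, s, le_rfl, le_rfl, Conn.refl _, Conn.refl _, Conn.refl _, Conn.refl _⟩
  | succ N ih =>
    intro k₁ k₂ hk y y' t h1 h2 hy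
    have hst : s ≤ t := (d03_conn h1).time_le
    rcases eq_or_lt_of_le hy with rfl | hlt
    · exact ⟨y', t, hst, le_rfl, d03_conn h1, Conn.refl _, d03_conn h2, Conn.refl _⟩
    rcases d03_last h2 with ⟨k, z, rfl, hk2, hadj, hne, ht⟩ | ⟨b, hsb, hbt, hcb, hb⟩
    · -- path 2 ends with a jump
      have hz : z ≤ y := by
        by_contra hzy
        push Not at hzy
        exact (n2 z y' hadj y).2 ⟨hlt, hzy⟩
      obtain ⟨w, u, c1, c2, c3, c4, c5, c6⟩ := ih k₁ k (by omega) y z t h1 hk2 hz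
      exact ⟨w, u, c1, c2, c3, c4, c5, c6.trans (Conn.arrow hadj hne ht)⟩
    rcases d03_last h1 with ⟨k, z, rfl, hk1, hadj, hne, ht⟩ | ⟨a, hsa, hat, hca, ha⟩
    · -- path 1 ends with a jump
      have hz : y' ≤ z := by
        by_contra hzy
        push Not at hzy
        exact (n1 z y hadj y').1 ⟨hzy, hlt⟩
      obtain ⟨w, u, c1, c2, c3, c4, c5, c6⟩ := ih k k₂ (by omega) z y' t hk1 h2 hz
      exact ⟨w, u, c1, c2, c3, c4.trans (Conn.arrow hadj hne ht), c5, c6⟩
    -- both wait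
    have step2 : a ≤ b → (∃ k, k₂ = k + 1 ∧ d03_CN adj₂ m k (x', s) (y', b)) →
        ∃ z u, s ≤ u ∧ u ≤ t ∧ Conn adj₁ m (x, s) (z, u) ∧ Conn adj₁ m (z, u) (y, t) ∧
      Conn adj₂ m (x', s) (z, u) ∧ Conn adj₂ m (z, u) (y', t) := by
      rintro hab ⟨k, rfl, hk2⟩
      obtain ⟨w, u, c1, c2, c3, c4, c5, c6⟩ := ih k₁ k (by omega) y y' b (hca b hab hbt).1 hk2 hy
      exact ⟨w, u, c1, c2.trans hbt, c3, c4.trans ((hca b hab hbt).2 _), c5,
        c6.trans ((hcb b le_rfl hbt).2 _)⟩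
    have step1 : b ≤ a → (∃ k, k₁ = k + 1 ∧ d03_CN adj₁ m k (x, s) (y, a)) →
        ∃ z u, s ≤ u ∧ u ≤ t ∧ Conn adj₁ m (x, s) (z, u) ∧ Conn adj₁ m (z, u) (y, t) ∧
      Conn adj₂ m (x', s) (z, u) ∧ Conn adj₂ m (z, u) (y', t) := by
      rintro hba ⟨k, rfl, hk1⟩
      obtain ⟨w, u, c1, c2, c3, c4, c5, c6⟩ := ih k k₂ (by omega) y y' a hk1 (hcb a hba hat).1 hy
      exact ⟨w, u, c1, c2.trans hat, c3, c4.trans ((hca a le_rfl hat).2 _), c5,
        c6.trans ((hcb a hba hat).2 _)⟩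
    rcases ha with ⟨ha0, hat', hax⟩ | ha
    · rcases hb with ⟨hb0, hbt', hbx⟩ | hb
      · exfalso
        obtain ⟨hxy, -⟩ := Prod.mk.inj hax
        obtain ⟨hxy', -⟩ := Prod.mk.inj hbx
        rw [hxy, hxy'] at hx
        exact absurd hlt (not_lt.2 hx)
      · obtain ⟨-, hs'⟩ := Prod.mk.inj hax
        have h7 : s ≤ b := hsb
        exact step2 (by linarith) hb
    · rcases hb with ⟨hb0, hbt', hbx⟩ | hb
      · obtain ⟨-, hs'⟩ := Prod.mk.inj hbx
        have h7 : s ≤ a := hsa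
        exact step1 (by linarith) ha
      · rcases le_total a b with hab | hba
        · exact step2 hab hb
        · exact step1 hba ha

theorem meet {adj₁ adj₂ : ι → ι → Prop} (n1 : NoCross adj₁) (n2 : NoCross adj₂)
    (h1 : Conn adj₁ m (x, s) (y, t)) (h2 : Conn adj₂ m (x', s) (y', t))
    (hx : x ≤ x') (hy : y' ≤ y) :
    ∃ z u, s ≤ u ∧ u ≤ t ∧ Conn adj₁ m (x, s) (z, u) ∧ Conn adj₁ m (z, u) (y, t) ∧
      Conn adj₂ m (x', s) (z, u) ∧ Conn adj₂ m (z, u) (y', t) := by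
  obtain ⟨k₁, hk₁⟩ := d03_of_conn h1
  obtain ⟨k₂, hk₂⟩ := d03_of_conn h2
  exact d03_meet n1 n2 hx (k₁ + k₂) k₁ k₂ le_rfl y y' t hk₁ hk₂ hy

theorem switch {adj : ι → ι → Prop} {B₁ B₂ B : Set ι} (n : NoCross adj)
    (hB₁ : B₁ ⊆ B) (hB₂ : B₂ ⊆ B)
    (h1 : Conn (adjOn B₁ adj) m (x, s) (y, t)) (h2 : Conn (adjOn B₂ adj) m (x', s) (y', t))
    (hx : x ≤ x') (hy : y' ≤ y) :
    Conn (adjOn B adj) m (x, s) (y', t) ∧ Conn (adjOn B adj) m (x', s) (y, t) := by
  obtain ⟨z, u, -, -, c1, c2, c3, c4⟩ := meet (n.on B₁) (n.on B₂) h1 h2 hx hy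
  exact ⟨(c1.mono_on hB₁).trans (c4.mono_on hB₂), (c3.mono_on hB₂).trans (c2.mono_on hB₁)⟩

theorem d03_right {adj : ι → ι → Prop} {B : Set ι} (n : NoCross adj) (hB : IsUpperSet B)
    (hxB : x ∈ B) (hx : x' ≤ x) (N : ℕ) : ∀ (k₁ k₂ : ℕ), k₁ + k₂ ≤ N → ∀ (y y' : ι) (t : ℝ),
    d03_CN (adjOn B adj) m k₁ (x, s) (y, t) → d03_CN adj m k₂ (x', s) (y', t) → y ≤ y' →
    Conn (adjOn B adj) m (x, s) (y', t) := by
  induction N with
  | zero =>
    intro k₁ k₂ hk y y' t h1 h2 hy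
    obtain rfl : k₁ = 0 := by omega
    obtain rfl : k₂ = 0 := by omega
    cases h1
    cases h2
    obtain rfl : x = x' := le_antisymm hy hx
    exact Conn.refl _
  | succ N ih =>
    intro k₁ k₂ hk y y' t h1 h2 hy
    have hyB : y ∈ B := (d03_conn h1).mem hxB
    rcases eq_or_lt_of_le hy with rfl | hlt
    · exact d03_conn h1
    rcases d03_last h2 with ⟨k, z, rfl, hk2, hadj, hne, ht⟩ | ⟨b, hsb, hbt, hcb, hb⟩
    · have hz : y ≤ z := by
        by_contra hzy
        push Not at hzy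
        exact (n z y' hadj y).1 ⟨hzy, hlt⟩
      have c := ih k₁ k (by omega) y z t h1 hk2 hz
      exact c.trans (Conn.arrow ⟨hadj, hB hz hyB, hB hy hyB⟩ hne ht)
    rcases d03_last h1 with ⟨k, z, rfl, hk1, hadj, hne, ht⟩ | ⟨a, hsa, hat, hca, ha⟩
    · have hz : z ≤ y' := by
        by_contra hzy
        push Not at hzy
        exact (n z y hadj.1 y').2 ⟨hlt, hzy⟩
      exact ih k k₂ (by omega) z y' t hk1 h2 hz
    have step2 : a ≤ b → (∃ k, k₂ = k + 1 ∧ d03_CN adj m k (x', s) (y', b)) →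
        Conn (adjOn B adj) m (x, s) (y', t) := by
      rintro hab ⟨k, rfl, hk2⟩
      have c := ih k₁ k (by omega) y y' b (hca b hab hbt).1 hk2 hy
      exact c.trans ((hcb b le_rfl hbt).2 _)
    have step1 : b ≤ a → (∃ k, k₁ = k + 1 ∧ d03_CN (adjOn B adj) m k (x, s) (y, a)) →
        Conn (adjOn B adj) m (x, s) (y', t) := by
      rintro hba ⟨k, rfl, hk1⟩
      have c := ih k k₂ (by omega) y y' a hk1 (hcb a hba hat).1 hy
      exact c.trans ((hcb a hba hat).2 _)
    rcases ha with ⟨ha0, hat', hax⟩ | ha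
    · rcases hb with ⟨hb0, hbt', hbx⟩ | hb
      · exfalso
        obtain ⟨hxy, -⟩ := Prod.mk.inj hax
        obtain ⟨hxy', -⟩ := Prod.mk.inj hbx
        rw [hxy, hxy'] at hx
        exact absurd hlt (not_lt.2 hx)
      · obtain ⟨-, hs'⟩ := Prod.mk.inj hax
        have h7 : s ≤ b := hsb
        exact step2 (by linarith) hb
    · rcases hb with ⟨hb0, hbt', hbx⟩ | hb
      · obtain ⟨-, hs'⟩ := Prod.mk.inj hbx
        have h7 : s ≤ a := hsa
        exact step1 (by linarith) ha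
      · rcases le_total a b with hab | hba
        · exact step2 hab hb
        · exact step1 hba ha

theorem rightmost {adj : ι → ι → Prop} {B : Set ι} (n : NoCross adj) (hB : IsUpperSet B)
    (hxB : x ∈ B)
    (h1 : Conn (adjOn B adj) m (x, s) (y, t)) (h2 : Conn adj m (x', s) (y', t))
    (hx : x' ≤ x) (hy : y ≤ y') :
    Conn (adjOn B adj) m (x, s) (y', t) := by
  obtain ⟨k₁, hk₁⟩ := d03_of_conn h1
  obtain ⟨k₂, hk₂⟩ := d03_of_conn h2
  exact d03_right n hB hxB hx (k₁ + k₂) k₁ k₂ le_rfl y y' t hk₁ hk₂ hy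

end CPM
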