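import Pool.Agent.Lib.MP_1a4724_pr.D01

/-!
# D04 (60 min) : slots with at most one type of marks; meshes

`slot_conn`.  (⇐) clear (a recovery mark at `x` or `y` would be a second type).  (⇒) by induction
along the path : every point `(z, u)` of the path from `(x, a)` satisfies `z = x`, or
`adj x z`, `x ≠ z`, `z ∈ B` and `(x, z)` has a mark in `[a, b]` : a jump `z → w` from the second
case would give the types `(x, z)` and `(z, w)` with marks in `[a, b]`, equal only if `z = x`.
If `y = x` and there were a recovery mark `τ` at `x` in `[a, b]`, there would be no arrow at all,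
so the path consists of wait steps at `x`, whose closed intervals cover `[a, b]` (at least one
step since `a < b`), contradiction.
`exists_mesh`.  The times of the marks of the finitely many types in `B × B` in `[s, t]` are
finitely many and different types have different times; let `δ` be the minimal distance of two
different such times; take `N₀ > (t - s) / δ`, so that a closed slot contains at most one time.
-/

open Set

namespace CPM

variable {V : Type*}

/-- at most one type in `B × B` has marks in `[a, b]` -/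
def OneType (B : Set V) (m : V × V → Set ℝ) (a b : ℝ) : Prop :=
  ∀ e e' : V × V, e.1 ∈ B → e.2 ∈ B → e'.1 ∈ B → e'.2 ∈ B →
    (m e ∩ Icc a b).Nonempty → (m e' ∩ Icc a b).Nonempty → e = e'

theorem slot_conn {adj : V → V → Prop} {B : Set V} {m : V × V → Set ℝ} {a b : ℝ} {x y : V}
    (hab : a < b) (h1 : OneType B m a b) (hx : x ∈ B) :
    Conn (adjOn B adj) m (x, a) (y, b) ↔
      (y = x ∧ ∀ t ∈ Icc a b, t ∉ m (x, x)) ∨
      (adj x y ∧ x ≠ y ∧ y ∈ B ∧ (m (x, y) ∩ Icc a b).Nonempty) := by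
  constructor
  · intro h
    have key : ∀ q : V × ℝ, Relation.ReflTransGen (Step (adjOn B adj) m) (x, a) q → q.2 ≤ b →
        a ≤ q.2 ∧ ((q.1 = x ∧ (q.2 = a ∨ ∀ t ∈ Icc a q.2, t ∉ m (x, x))) ∨
          (adj x q.1 ∧ x ≠ q.1 ∧ q.1 ∈ B ∧ (m (x, q.1) ∩ Icc a b).Nonempty)) := by
      intro q hq
      induction hq with
      | refl => intro _; exact ⟨le_refl _, Or.inl ⟨rfl, Or.inl rfl⟩⟩
      | tail _ hst ih =>
        cases hst with
        | wait z u v huv hr =>
          intro hv
          obtain ⟨i1, i2⟩ := ih (huv.trans hv)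
          refine ⟨i1.trans huv, ?_⟩
          rcases i2 with ⟨e1, e2⟩ | i2
          · refine Or.inl ⟨e1, Or.inr ?_⟩
            simp only at e1 e2 i1
            subst e1
            intro t ht
            rcases e2 with e2 | e2
            · exact hr t ⟨by rw [e2]; exact ht.1, ht.2⟩
            · rcases le_total t u with h3 | h3
              · exact e2 t ⟨ht.1, h3⟩
              · exact hr t ⟨h3, ht.2⟩
          · exact Or.inr i2
        | jump z w u hadj hne ht =>
          intro hu
          obtain ⟨i1, i2⟩ := ih hu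
          refine ⟨i1, Or.inr ?_⟩
          simp only at i1 i2 hu ⊢
          rcases i2 with ⟨e1, e2⟩ | ⟨j1, j2, j3, j4⟩
          · subst e1
            exact ⟨hadj.1, hne, hadj.2.2, u, ht, i1, hu⟩
          · exfalso
            have h5 := h1 (x, z) (z, w) hx j3 hadj.2.1 hadj.2.2 j4 ⟨u, ht, i1, hu⟩
            exact j2 (congrArg Prod.fst h5)
    obtain ⟨_, h2⟩ := key _ h le_rfl
    rcases h2 with ⟨e1, e2⟩ | h2
    · refine Or.inl ⟨e1, ?_⟩
      rcases e2 with e2 | e2
      · exact absurd e2.symm hab.ne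
      · exact e2
    · exact Or.inr h2
  · rintro (⟨rfl, h2⟩ | ⟨h2, h3, h4, τ, h5, h6⟩)
    · exact Relation.ReflTransGen.single (Step.wait _ _ _ hab.le h2)
    · have nx : ∀ t ∈ Icc a b, t ∉ m (x, x) := by
        intro t ht hm
        have h7 := h1 (x, x) (x, y) hx hx hx h4 ⟨t, hm, ht⟩ ⟨τ, h5, h6⟩
        exact h3 (congrArg Prod.snd h7)
      have ny : ∀ t ∈ Icc a b, t ∉ m (y, y) := by
        intro t ht hm
        have h7 := h1 (y, y) (x, y) h4 h4 hx h4 ⟨t, hm, ht⟩ ⟨τ, h5, h6⟩
        exact h3 (congrArg Prod.fst h7).symm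
      refine Relation.ReflTransGen.trans (b := (x, τ)) (Relation.ReflTransGen.single
        (Step.wait _ _ _ h6.1 fun t ht => nx t ⟨ht.1, ht.2.trans h6.2⟩)) ?_
      refine Relation.ReflTransGen.trans (b := (y, τ)) (Relation.ReflTransGen.single
        (Step.jump _ _ _ ⟨h2, hx, h4⟩ h3 h5)) ?_
      exact Relation.ReflTransGen.single
        (Step.wait _ _ _ h6.2 fun t ht => ny t ⟨h6.1.trans ht.1, ht.2⟩)

theorem d04_min (S : Finset ℝ) (hS : ∀ x ∈ S, 0 < x) : ∃ δ : ℝ, 0 < δ ∧ ∀ x ∈ S, δ ≤ x := by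
  classical
  induction S using Finset.induction_on with
  | empty => exact ⟨1, one_pos, by simp⟩
  | insert a S ha ih =>
    obtain ⟨δ, h1, h2⟩ := ih fun x hx => hS x (Finset.mem_insert_of_mem hx)
    refine ⟨min δ a, lt_min h1 (hS a (Finset.mem_insert_self _ _)), fun x hx => ?_⟩
    rcases Finset.mem_insert.1 hx with rfl | hx
    · exact min_le_right _ _
    · exact (min_le_left _ _).trans (h2 x hx)

theorem exists_mesh {m : V × V → Set ℝ} (hm : Good m) (B : Finset V) {s t : ℝ} (hst : s < t) :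
    ∃ N₀ : ℕ, ∀ N : ℕ, N₀ ≤ N → 0 < N → ∀ k : ℕ, k < N →
      OneType (B : Set V) m (s + k * ((t - s) / N)) (s + (k + 1) * ((t - s) / N)) := by
  classical
  have hfin : (⋃ e ∈ (B ×ˢ B : Finset (V × V)), (m e ∩ Icc s t)).Finite :=
    Set.Finite.biUnion (Finset.finite_toSet _) fun e _ => hm.1 e s t
  set T := hfin.toFinset with hT
  have memT : ∀ e : V × V, e.1 ∈ B → e.2 ∈ B → ∀ u ∈ m e, u ∈ Icc s t → u ∈ T := by
    intro e h1 h2 u h3 h4
    rw [hT, Set.Finite.mem_toFinset, mem_iUnion₂]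
    exact ⟨e, Finset.mem_product.2 ⟨h1, h2⟩, h3, h4⟩
  obtain ⟨δ, hδ, hδ2⟩ := d04_min (T.offDiag.image fun p => |p.1 - p.2|) (by
    intro x hx
    obtain ⟨p, hp, rfl⟩ := Finset.mem_image.1 hx
    exact abs_pos.2 (sub_ne_zero.2 (Finset.mem_offDiag.1 hp).2.2))
  obtain ⟨N₀, hN₀⟩ := exists_nat_gt ((t - s) / δ)
  refine ⟨N₀, fun N hN hN0 k hk => ?_⟩
  have hNpos : (0 : ℝ) < N := by exact_mod_cast hN0
  have hlen : (t - s) / N < δ := by
    rw [div_lt_iff₀ hNpos]
    have h2 : (t - s) / δ < N := hN₀.trans_le (by exact_mod_cast hN)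
    rw [div_lt_iff₀ hδ] at h2
    linarith
  set h := (t - s) / N with hh
  have hh0 : 0 < h := div_pos (sub_pos.2 hst) hNpos
  have hNh : (N : ℝ) * h = t - s := by rw [hh]; field_simp
  have hkN : ((k : ℝ) + 1) ≤ N := by exact_mod_cast hk
  have hk0 : (0 : ℝ) ≤ k := Nat.cast_nonneg k
  have hsub : Icc (s + k * h) (s + (k + 1) * h) ⊆ Icc s t := by
    intro u hu
    constructor
    · have := mul_nonneg hk0 hh0.le
      linarith [hu.1]
    · have := mul_le_mul_of_nonneg_right hkN hh0.le
      linarith [hu.2]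
  rintro e e' h1 h2 h3 h4 ⟨u, hu, hu1⟩ ⟨v, hv, hv1⟩
  have huT := memT e (Finset.mem_coe.1 h1) (Finset.mem_coe.1 h2) u hu (hsub hu1)
  have hvT := memT e' (Finset.mem_coe.1 h3) (Finset.mem_coe.1 h4) v hv (hsub hv1)
  by_contra hne
  have huv : u ≠ v := by
    rintro rfl
    exact hne (hm.2 _ _ _ hu hv)
  have h5 := hδ2 |u - v| (Finset.mem_image.2 ⟨(u, v), Finset.mem_offDiag.2 ⟨huT, hvT, huv⟩, rfl⟩)
  have h6 : |u - v| ≤ h := by
    rw [abs_le]
    constructor <;> linarith [hu1.1, hu1.2, hv1.1, hv1.2]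
  linarith

end CPM
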