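import Pool.Agent.Lib.MP_1a4724_pr.P02
import Pool.Agent.Lib.MP_1a4724_pr.D04

/-!
# D05 : measurability of connections

For finite `B` and `s < t` the connection from `(x, s)` to `(y, t)` inside `B` is described by the
meshes of `[s, t]`: for a fine enough mesh every closed slot contains the marks of at most one
type, and inside such a slot a connection is either no recovery mark at the present vertex or one
arrow (without recovery marks).  For `s = t` at most one jump is possible.  General `B` by a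
countable union over the finite subsets.
-/

open Set

namespace CPM

variable {V : Type*}

/-- one slot of the mesh -/
def d05_St (adj : V → V → Prop) (m : V × V → Set ℝ) (a b : ℝ) (w z : V) : Prop :=
  (z = w ∧ ∀ τ ∈ Icc a b, τ ∉ m (w, w)) ∨
    ((adj w z ∧ w ≠ z) ∧ ((∀ τ ∈ Icc a b, τ ∉ m (w, w)) ∧ (∀ τ ∈ Icc a b, τ ∉ m (z, z))) ∧
      ¬ (∀ τ ∈ Icc a b, τ ∉ m (w, z)))

/-- the points reached after `k` slots of the mesh with end points `u` -/
def d05_D (adj : V → V → Prop) (B : Finset V) (x : V) (u : ℕ → ℝ) (m : V × V → Set ℝ) :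
    ℕ → {z // z ∈ B} → Prop
  | 0, z => (z : V) = x
  | k + 1, z => ∃ w : {z // z ∈ B}, d05_D adj B x u m k w ∧ d05_St adj m (u k) (u (k + 1)) w z

theorem d05_conn_of_St {adj : V → V → Prop} {B : Finset V} {m : V × V → Set ℝ} {a b : ℝ} {w z : V}
    (hab : a ≤ b) (hw : w ∈ B) (hz : z ∈ B) (h : d05_St adj m a b w z) :
    Conn (adjOn (B : Set V) adj) m (w, a) (z, b) := by
  rcases h with ⟨rfl, h⟩ | ⟨⟨h1, h2⟩, ⟨h3, h4⟩, h5⟩
  · exact Conn.stay hab h
  · push Not at h5
    obtain ⟨τ, hτ, hm⟩ := h5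
    refine Conn.trans (Conn.stay hτ.1 fun v hv => h3 v ⟨hv.1, hv.2.trans hτ.2⟩) ?_
    refine Conn.trans (Conn.arrow ⟨h1, hw, hz⟩ h2 hm) ?_
    exact Conn.stay hτ.2 fun v hv => h4 v ⟨hτ.1.trans hv.1, hv.2⟩

theorem d05_conn_of_D {adj : V → V → Prop} {B : Finset V} {x : V} {u : ℕ → ℝ}
    {m : V × V → Set ℝ} (hu : Monotone u) (k : ℕ) (z : {z // z ∈ B})
    (h : d05_D adj B x u m k z) :
    Conn (adjOn (B : Set V) adj) m (x, u 0) (z, u k) := by
  induction k generalizing z with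
  | zero =>
    have h' : (z : V) = x := h
    rw [h']
    exact Conn.refl _
  | succ k ih =>
    obtain ⟨w, hw, hst⟩ := h
    exact (ih w hw).trans (d05_conn_of_St (hu (Nat.le_succ k)) w.2 z.2 hst)

theorem d05_St_vmeas {adj : V → V → Prop} {B : Finset V} {s t a b : ℝ} (ha : s ≤ a) (hb : b ≤ t)
    {w z : V} (hw : w ∈ B) (hz : z ∈ B) :
    VMeas {p : (V × V) × ℝ | p.1.1 ∈ B ∧ p.1.2 ∈ B ∧ p.2 ∈ Icc s t}
      (fun m => d05_St adj m a b w z) := by
  have key : ∀ e : V × V, e.1 ∈ B → e.2 ∈ B →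
      VMeas {p : (V × V) × ℝ | p.1.1 ∈ B ∧ p.1.2 ∈ B ∧ p.2 ∈ Icc s t}
        (fun m => ∀ τ ∈ Icc a b, τ ∉ m e) := by
    intro e h1 h2
    refine vmeas_void e a b ?_
    rintro ⟨e', τ⟩ ⟨he, hτ⟩
    have he' : e' = e := he
    subst he'
    exact ⟨h1, h2, ha.trans hτ.1, hτ.2.trans hb⟩
  exact ((VMeas.const _).and (key _ hw hw)).or
    ((VMeas.const _).and (((key _ hw hw).and (key _ hz hz)).and (key (w, z) hw hz).not))

theorem d05_D_vmeas {adj : V → V → Prop} {B : Finset V} {x : V} {u : ℕ → ℝ} {s t : ℝ}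
    (N : ℕ) (hu : ∀ k, k ≤ N → u k ∈ Icc s t) (k : ℕ) (hk : k ≤ N) (z : {z // z ∈ B}) :
    VMeas {p : (V × V) × ℝ | p.1.1 ∈ B ∧ p.1.2 ∈ B ∧ p.2 ∈ Icc s t}
      (fun m => d05_D adj B x u m k z) := by
  induction k generalizing z with
  | zero => exact VMeas.const _
  | succ k ih =>
    have h1 : k ≤ N := (Nat.le_succ k).trans hk
    exact VMeas.exists fun w => (ih h1 w).and
      (d05_St_vmeas (hu k h1).1 (hu (k + 1) hk).2 w.2 z.2)

theorem d05_same {adj : V → V → Prop} {B : Set V} {m : V × V → Set ℝ} (hm : Good m) {x : V}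
    {s : ℝ} {q : V × ℝ} (h : Conn (adjOn B adj) m (x, s) q) :
    q.2 = s → (q.1 = x ∨ ((adj x q.1 ∧ x ≠ q.1 ∧ q.1 ∈ B ∧ x ∈ B) ∧ s ∈ m (x, q.1))) := by
  induction h with
  | refl => exact fun _ => Or.inl rfl
  | tail h1 h2 ih =>
    intro hs
    have h3 := Conn.time_le h1
    cases h2 with
    | wait z a b hab hr =>
      have : a = s := le_antisymm (hab.trans (le_of_eq hs)) h3
      exact ih this
    | jump z w t hadj hne ht =>
      have hs' : t = s := hs
      subst hs'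
      rcases ih rfl with h4 | ⟨-, h4⟩
      · have h4' : z = x := h4
        subst h4'
        exact Or.inr ⟨⟨hadj.1, hne, hadj.2.2, hadj.2.1⟩, ht⟩
      · exfalso
        have h5 := hm.2 _ _ _ h4 ht
        have h6 : x = z := congrArg Prod.fst h5
        have h7 : z = w := congrArg Prod.snd h5
        exact hne h7

theorem conn_vmeas_fin (adj : V → V → Prop) (B : Finset V) {x : V} (hx : x ∈ B) (y : V)
    (s t : ℝ) :
    VMeas {p : (V × V) × ℝ | p.1.1 ∈ B ∧ p.1.2 ∈ B ∧ p.2 ∈ Icc s t}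
      (fun m => Conn (adjOn (B : Set V) adj) m (x, s) (y, t)) := by
  by_cases hy : y ∈ B
  swap
  · refine VMeas.congr (Q := fun _ => False) (fun m _ => ⟨False.elim, fun h => ?_⟩)
      (VMeas.const _)
    exact hy (Conn.mem h hx)
  rcases lt_trichotomy s t with hst | rfl | hst
  · -- the main case
    let u : ℕ → ℕ → ℝ := fun N k => s + k * ((t - s) / N)
    have hu0 : ∀ N, u N 0 = s := fun N => by simp [u]
    have hmono : ∀ N, Monotone (u N) := by
      intro N a b hab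
      have : (a : ℝ) ≤ b := by exact_mod_cast hab
      have h2 : 0 ≤ (t - s) / N := div_nonneg (by linarith) (Nat.cast_nonneg N)
      have := mul_le_mul_of_nonneg_right this h2
      simp only [u]
      linarith
    have huN : ∀ N, 0 < N → u N N = t := by
      intro N hN
      have : (N : ℝ) ≠ 0 := by exact_mod_cast hN.ne'
      simp only [u]
      field_simp
      ring
    have hmem : ∀ N, 0 < N → ∀ k, k ≤ N → u N k ∈ Icc s t := fun N hN k hk =>
      ⟨by rw [← hu0 N]; exact hmono N (Nat.zero_le k), by rw [← huN N hN]; exact hmono N hk⟩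
    refine VMeas.congr (Q := fun m => ∃ n : ℕ, d05_D adj B x (u (n + 1)) m (n + 1) ⟨y, hy⟩)
      (fun m hm => ⟨?_, fun h => ?_⟩) (VMeas.exists fun n =>
        d05_D_vmeas (n + 1) (hmem (n + 1) n.succ_pos) (n + 1) le_rfl _)
    · rintro ⟨n, hn⟩
      have := d05_conn_of_D (hmono (n + 1)) _ _ hn
      rw [hu0, huN _ n.succ_pos] at this
      exact this
    · obtain ⟨N₀, hN⟩ := exists_mesh hm B hst
      have hN' := hN (N₀ + 1) (Nat.le_succ _) N₀.succ_pos
      have hlt : ∀ k, u (N₀ + 1) k < u (N₀ + 1) (k + 1) := by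
        intro k
        have h2 : 0 < (t - s) / ((N₀ + 1 : ℕ) : ℝ) :=
          div_pos (by linarith) (by exact_mod_cast N₀.succ_pos)
        simp only [u]
        push_cast at h2 ⊢
        nlinarith
      have hone : ∀ k, k < N₀ + 1 →
          OneType (B : Set V) m (u (N₀ + 1) k) (u (N₀ + 1) (k + 1)) := by
        intro k hk
        have := hN' k hk
        simp only [u]
        push_cast at this ⊢
        exact this
      have hslot : ∀ k, k < N₀ + 1 → ∀ w z : V, w ∈ B →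
          Conn (adjOn (B : Set V) adj) m (w, u (N₀ + 1) k) (z, u (N₀ + 1) (k + 1)) →
          d05_St adj m (u (N₀ + 1) k) (u (N₀ + 1) (k + 1)) w z := by
        intro k hk w z hw hc
        have hz : z ∈ B := Conn.mem hc hw
        rcases (slot_conn (hlt k) (hone k hk) (Finset.mem_coe.2 hw)).1 hc with h1 | h1
        · exact Or.inl h1
        · obtain ⟨h2, h3, h4, h5⟩ := h1
          refine Or.inr ⟨⟨h2, h3⟩, ⟨?_, ?_⟩, ?_⟩
          · intro τ hτ hτ'
            have := hone k hk (w, w) (w, z) hw hw hw hz ⟨τ, hτ', hτ⟩ h5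
            exact h3 (congrArg Prod.snd this)
          · intro τ hτ hτ'
            have := hone k hk (z, z) (w, z) hz hz hw hz ⟨τ, hτ', hτ⟩ h5
            exact h3 (congrArg Prod.fst this).symm
          · intro h6
            obtain ⟨τ, h7, h8⟩ := h5
            exact h6 τ h8 h7
      have hind : ∀ k, k ≤ N₀ → ∃ z : {z // z ∈ B}, d05_D adj B x (u (N₀ + 1)) m k z ∧
          Conn (adjOn (B : Set V) adj) m (z, u (N₀ + 1) k) (y, t) := by
        intro k
        induction k with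
        | zero =>
          intro _
          refine ⟨⟨x, hx⟩, rfl, ?_⟩
          rw [hu0]
          exact h
        | succ k ih =>
          intro hk
          obtain ⟨z, hz, hc⟩ := ih (by omega)
          obtain ⟨z', h1, h2⟩ := Conn.split hc (hlt k).le (hmem _ N₀.succ_pos (k + 1) (by omega)).2
          refine ⟨⟨z', Conn.mem h1 z.2⟩, ⟨z, hz, hslot k (by omega) _ _ z.2 h1⟩, h2⟩
      obtain ⟨z, hz, hc⟩ := hind N₀ le_rfl
      refine ⟨N₀, z, hz, hslot N₀ (Nat.lt_succ_self _) _ _ z.2 ?_⟩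
      rw [huN _ N₀.succ_pos]
      exact hc
  · -- equal times
    refine VMeas.congr (Q := fun m => y = x ∨ ((adj x y ∧ x ≠ y) ∧
      ¬ (∀ τ ∈ Icc s s, τ ∉ m (x, y)))) (fun m hm => ⟨?_, fun h => ?_⟩)
      ((VMeas.const _).or ((VMeas.const _).and (VMeas.not (vmeas_void (x, y) s s ?_))))
    · rintro (rfl | ⟨⟨h1, h2⟩, h3⟩)
      · exact Conn.refl _
      · push Not at h3
        obtain ⟨τ, hτ, hm'⟩ := h3
        have : τ = s := le_antisymm hτ.2 hτ.1
        subst this
        exact Conn.arrow ⟨h1, hx, hy⟩ h2 hm'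
    · rcases d05_same hm h rfl with h1 | ⟨⟨h1, h2, -, -⟩, h3⟩
      · exact Or.inl h1
      · exact Or.inr ⟨⟨h1, h2⟩, fun h4 => h4 s ⟨le_rfl, le_rfl⟩ h3⟩
    · rintro ⟨e', τ⟩ ⟨he, hτ⟩
      have he' : e' = (x, y) := he
      subst he'
      exact ⟨hx, hy, hτ⟩
  · refine VMeas.congr (Q := fun _ => False) (fun m _ => ⟨False.elim, fun h => ?_⟩)
      (VMeas.const _)
    exact absurd (Conn.time_le h) (not_le.2 hst)

theorem conn_vmeas [Countable V] (adj : V → V → Prop) (B : Set V) {x : V} (hx : x ∈ B) (y : V)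
    (s t : ℝ) :
    VMeas {p : (V × V) × ℝ | p.1.1 ∈ B ∧ p.1.2 ∈ B ∧ p.2 ∈ Icc s t}
      (fun m => Conn (adjOn B adj) m (x, s) (y, t)) := by
  classical
  refine VMeas.congr (Q := fun m => ∃ Λ : Finset V, (x ∈ Λ ∧ (Λ : Set V) ⊆ B) ∧
    Conn (adjOn (Λ : Set V) adj) m (x, s) (y, t)) (fun m _ => ⟨?_, fun h => ?_⟩)
    (VMeas.exists fun Λ => ?_)
  · rintro ⟨Λ, ⟨-, h2⟩, h3⟩
    exact Conn.mono_on h2 h3
  · obtain ⟨Λ, h1, h2⟩ := Conn.finite_support h
    refine ⟨Λ.filter (· ∈ B), ⟨Finset.mem_filter.2 ⟨h1, hx⟩, fun a ha =>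
      (Finset.mem_filter.1 (Finset.mem_coe.1 ha)).2⟩, Conn.mono ?_ h2⟩
    rintro a b ⟨⟨h3, h4, h5⟩, h6, h7⟩
    exact ⟨h3, Finset.mem_coe.2 (Finset.mem_filter.2 ⟨h6, h4⟩),
      Finset.mem_coe.2 (Finset.mem_filter.2 ⟨h7, h5⟩)⟩
  · by_cases h : x ∈ Λ ∧ (Λ : Set V) ⊆ B
    · refine (VMeas.const _).and (VMeas.mono ?_ (conn_vmeas_fin adj Λ h.1 y s t))
      rintro p ⟨h1, h2, h3⟩
      exact ⟨h.2 h1, h.2 h2, h3⟩
    · exact VMeas.congr (Q := fun _ => False) (fun m _ => ⟨False.elim, fun h' => h h'.1⟩)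
        (VMeas.const _)

theorem conn_vmeas_univ [Countable V] (adj : V → V → Prop) (x y : V) (s t : ℝ) :
    VMeas {p : (V × V) × ℝ | p.2 ∈ Icc s t} (fun m => Conn adj m (x, s) (y, t)) := by
  refine VMeas.congr (fun m _ => conn_univ) (VMeas.mono ?_ (conn_vmeas adj univ (mem_univ x) y s t))
  rintro p ⟨-, -, h⟩
  exact h

theorem aliveAt_vmeas [Countable V] (adj : V → V → Prop) (o : V) (t : ℝ) :
    VMeas {p : (V × V) × ℝ | p.2 ∈ Icc 0 t} (fun m => aliveAt adj m o t) :=
  VMeas.exists fun y => conn_vmeas_univ adj o y 0 t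

theorem etaOne_vmeas [Countable V] (adj : V → V → Prop) (s t : ℝ) (x : V) :
    VMeas {p : (V × V) × ℝ | p.2 ∈ Icc s t} (fun m => etaOne adj m s t x) :=
  VMeas.exists fun y => conn_vmeas_univ adj y x s t

/-- `etaBar` is the intersection over the integer starting times -/
theorem etaBar_iff {adj : V → V → Prop} {m : V × V → Set ℝ} {t : ℝ} {x : V} :
    etaBar adj m t x ↔ ∀ n : ℕ, etaOne adj m (t - (n + 1)) t x := by
  constructor
  · intro h n
    exact h _ (by linarith [(Nat.cast_nonneg n : (0 : ℝ) ≤ n)])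
  · intro h s hs
    obtain ⟨n, hn⟩ := exists_nat_ge (t - s)
    obtain ⟨y, hy⟩ := h n
    obtain ⟨z, -, hz⟩ := Conn.split hy (u := s) (by linarith) hs.le
    exact ⟨z, hz⟩

theorem etaBar_vmeas [Countable V] (adj : V → V → Prop) (t : ℝ) (x : V) :
    VMeas {p : (V × V) × ℝ | p.2 ≤ t} (fun m => etaBar adj m t x) :=
  VMeas.congr (fun _ _ => etaBar_iff.symm) (VMeas.forall fun n =>
    VMeas.mono (fun _ h => h.2) (etaOne_vmeas adj (t - (n + 1)) t x))

theorem etaOne_of_etaBar {adj : V → V → Prop} {m : V × V → Set ℝ} {s t : ℝ} {x : V} (hst : s < t)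
    (h : etaBar adj m t x) : etaOne adj m s t x := h s hst

/-- infection is transmitted along active paths -/
theorem etaBar_of_conn {adj : V → V → Prop} {m : V × V → Set ℝ} {s t : ℝ} {x y : V}
    (h : etaBar adj m s x) (hc : Conn adj m (x, s) (y, t)) : etaBar adj m t y := by
  intro s' hs'
  rcases lt_or_ge s' s with h1 | h1
  · obtain ⟨z, hz⟩ := h s' h1
    exact ⟨z, hz.trans hc⟩
  · obtain ⟨z, -, hz⟩ := Conn.split hc h1 hs'.le
    exact ⟨z, hz⟩

/-- survival can be checked at integer times -/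
theorem alive_iff_nat {adj : V → V → Prop} {m : V × V → Set ℝ} {o : V} :
    (∀ t : ℝ, 0 ≤ t → aliveAt adj m o t) ↔ ∀ n : ℕ, aliveAt adj m o n := by
  constructor
  · exact fun h n => h n (Nat.cast_nonneg n)
  · intro h t ht
    obtain ⟨n, hn⟩ := exists_nat_ge t
    obtain ⟨y, hy⟩ := h n
    obtain ⟨z, hz, -⟩ := Conn.split hy ht hn
    exact ⟨z, hz⟩

end CPM
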