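import Mathlib

/-!
# MP_1a4724_pr : definitions (graphical representation of the contact process)

A mark configuration is a function `m : J → Set ℝ` (`m e` = set of the times of the marks of
type `e`).  For the contact process on a vertex set `V` the types are the pairs `(x, y)`:
a mark of type `(x, x)` is a recovery mark at `x`, a mark of type `(x, y)`, `x ≠ y`, is an
infection arrow from `x` to `y` (used only when `x` and `y` are adjacent).
-/

noncomputable section

open MeasureTheory Set
open scoped ENNReal

namespace CPM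

/-! ## Poisson marks -/

section Poisson

variable {Ω J : Type*}

/-- no mark of type `e` in the closed interval `[a, b]` -/
def voidEv (M : Ω → J → Set ℝ) (e : J) (a b : ℝ) : Set Ω :=
  {ω | ∀ t ∈ Icc a b, t ∉ M ω e}

/-- no mark in the finite union of boxes `A` (a box `(e, a, b)` is `{e} × [a, b]`) -/
def voidFam (M : Ω → J → Set ℝ) (A : Finset (J × ℝ × ℝ)) : Set Ω :=
  {ω | ∀ b ∈ A, ∀ t ∈ Icc b.2.1 b.2.2, t ∉ M ω b.1}

/-- the slice at `e` of the union of the boxes of `A` -/
def slice (A : Finset (J × ℝ × ℝ)) (e : J) : Set ℝ :=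
  {t | ∃ b ∈ A, b.1 = e ∧ t ∈ Icc b.2.1 b.2.2}

/-- `M` is a family of independent Poisson processes on the line, the one with index `e` having
rate `rate e` : the marks are locally finite, marks of different types occur at different times,
and the probability of having no mark in a finite union of boxes is
`exp (- sum over e of rate e * length of the slice at e)` (by Renyi's theorem this characterises
the family of independent Poisson processes). -/
structure IsPoisson [MeasurableSpace Ω] (P : Measure Ω) (M : Ω → J → Set ℝ) (rate : J → ℝ) :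
    Prop where
  prob : IsProbabilityMeasure P
  locFin : ∀ ω e a b, (M ω e ∩ Icc a b).Finite
  distinct : ∀ ω e e' t, t ∈ M ω e → t ∈ M ω e' → e = e'
  meas : ∀ e a b, MeasurableSet (voidEv M e a b)
  void : ∀ A : Finset (J × ℝ × ℝ), P.real (voidFam M A) =
    Real.exp (-∑ᶠ e, rate e * volume.real (slice A e))

/-- the box `{e} × [a, b]` attached to `b = (e, a, b)` -/
def boxOf (b : J × ℝ × ℝ) : Set (J × ℝ) := ({b.1} : Set J) ×ˢ Icc b.2.1 b.2.2

/-- the sigma-algebra generated by the marks in the region `R` -/
@[reducible] def VA (M : Ω → J → Set ℝ) (R : Set (J × ℝ)) : MeasurableSpace Ω :=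
  MeasurableSpace.generateFrom {s | ∃ b : J × ℝ × ℝ, boxOf b ⊆ R ∧ s = voidEv M b.1 b.2.1 b.2.2}

/-- good mark configurations -/
def Good (m : J → Set ℝ) : Prop :=
  (∀ e a b, (m e ∩ Icc a b).Finite) ∧ ∀ e e' t, t ∈ m e → t ∈ m e' → e = e'

/-- the void indicators of the boxes contained in the region `R` -/
def vcfg (R : Set (J × ℝ)) (m : J → Set ℝ) : {b : J × ℝ × ℝ // boxOf b ⊆ R} → Prop :=
  fun b => ∀ t ∈ Icc b.1.2.1 b.1.2.2, t ∉ m b.1.1

/-- the property `Q` of (good) mark configurations is a measurable function of the void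
indicators of the boxes contained in `R` -/
def VMeas (R : Set (J × ℝ)) (Q : (J → Set ℝ) → Prop) : Prop :=
  ∃ E : Set ({b : J × ℝ × ℝ // boxOf b ⊆ R} → Prop), MeasurableSet E ∧
    ∀ m, Good m → (Q m ↔ vcfg R m ∈ E)

end Poisson

/-! ## Active paths -/

section Paths

variable {V : Type*}

/-- elementary steps of an active path : wait at `x` during `[a, b]` (no recovery mark at `x` in
`[a, b]`), or use an arrow from `x` to an adjacent vertex `y` at time `t` -/
inductive Step (adj : V → V → Prop) (m : V × V → Set ℝ) : V × ℝ → V × ℝ → Prop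
  | wait (x : V) (a b : ℝ) (hab : a ≤ b) (hr : ∀ t ∈ Icc a b, t ∉ m (x, x)) :
      Step adj m (x, a) (x, b)
  | jump (x y : V) (t : ℝ) (hadj : adj x y) (hne : x ≠ y) (ht : t ∈ m (x, y)) :
      Step adj m (x, t) (y, t)

/-- there is an active path from the space-time point `p` to the space-time point `q` -/
def Conn (adj : V → V → Prop) (m : V × V → Set ℝ) (p q : V × ℝ) : Prop :=
  Relation.ReflTransGen (Step adj m) p q

/-- the adjacency relation restricted to a set of vertices -/
def adjOn (B : Set V) (adj : V → V → Prop) : V → V → Prop :=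
  fun x y => adj x y ∧ x ∈ B ∧ y ∈ B

open Classical in
/-- the rates of the contact process : recovery marks at rate one, arrows at rate `lam` -/
def cRate (lam : ℝ) : V × V → ℝ := fun e => if e.1 = e.2 then 1 else lam

/-- the stationary upper contact process : `x` is infected at time `t` iff for every earlier time
`s` it is infected when all vertices are infected at time `s` -/
def etaBar (adj : V → V → Prop) (m : V × V → Set ℝ) (t : ℝ) (x : V) : Prop :=
  ∀ s < t, ∃ y, Conn adj m (y, s) (x, t)

/-- the process started at time `s` with all vertices infected -/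
def etaOne (adj : V → V → Prop) (m : V × V → Set ℝ) (s t : ℝ) (x : V) : Prop :=
  ∃ y, Conn adj m (y, s) (x, t)

/-- the infection started from the vertex `o` at time `0` is alive at time `t` -/
def aliveAt (adj : V → V → Prop) (m : V × V → Set ℝ) (o : V) (t : ℝ) : Prop :=
  ∃ y, Conn adj m (o, 0) (y, t)

/-- marks pulled back along a map of the vertices -/
def pull {W : Type*} (γ : W → V) (m : V × V → Set ℝ) : W × W → Set ℝ :=
  fun e => m (γ e.1, γ e.2)

/-- marks shifted in time : time `0` of the new configuration is time `τ` of the old one -/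
def shiftT {J : Type*} (τ : ℝ) (m : J → Set ℝ) : J → Set ℝ := fun e => {t | τ + t ∈ m e}

/-- time reversal about `τ` (time `t` becomes `τ - t` and arrows are reversed) -/
def revT (τ : ℝ) (m : V × V → Set ℝ) : V × V → Set ℝ := fun e => {t | τ - t ∈ m (e.2, e.1)}

end Paths

/-! ## Half line and line -/

/-- nearest neighbour adjacency on `ℕ` -/
def natAdj (i j : ℕ) : Prop := j = i + 1 ∨ i = j + 1

/-- nearest neighbour adjacency on `ℤ` -/
def intAdj (i j : ℤ) : Prop := j = i + 1 ∨ i = j + 1

/-- the contact process with infection rate `lam` on the graph with adjacency relation `adj`,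
started with the single infected vertex `o`, survives with positive probability -/
def Survives {V : Type} (adj : V → V → Prop) (o : V) (lam : ℝ) : Prop :=
  ∃ (Ω : Type) (_ : MeasurableSpace Ω) (P : Measure Ω) (M : Ω → V × V → Set ℝ),
    IsPoisson P M (cRate lam) ∧ 0 < P {ω | ∀ t : ℝ, 0 ≤ t → aliveAt adj (M ω) o t}

/-- the critical value of the contact process on the half line `{0, 1, 2, ...}` -/
def lambdaC : ℝ≥0∞ :=
  sInf {l | ∃ lam : ℝ, 0 < lam ∧ l = ENNReal.ofReal lam ∧ Survives natAdj 0 lam}

/-! ## The mixing coefficient -/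

section Mixing

variable {Ω V : Type*}

/-- the sigma-algebra generated by `etaBar` on `Δ × T` -/
@[reducible] def projAlg (adj : V → V → Prop) (M : Ω → V × V → Set ℝ) (Δ : Set V) (T : Set ℝ) :
    MeasurableSpace Ω :=
  MeasurableSpace.comap (fun ω (p : Δ × T) => etaBar adj (M ω) (p.2 : ℝ) (p.1 : V))
    MeasurableSpace.pi

/-- the mixing coefficient `d_Δ(t)` -/
def mixCoeff [MeasurableSpace Ω] (P : Measure Ω) (adj : V → V → Prop) (M : Ω → V × V → Set ℝ)
    (Δ : Set V) (t : ℝ) : ℝ :=
  sSup {r | ∃ A B : Set Ω, MeasurableSet[projAlg adj M Δ (Iio 0)] A ∧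
    MeasurableSet[projAlg adj M Δ (Ici t)] B ∧ 0 < P.real A ∧
    r = |P.real (A ∩ B) / P.real A - P.real B|}

/-- the diameter of a finite set of vertices -/
def fdiam (G : SimpleGraph V) (Δ : Finset V) : ℕ :=
  Δ.sup fun x => Δ.sup fun y => G.dist x y

end Mixing

/-- the answer to Q1 -/
def MainStatement : Prop :=
  ∀ (V : Type) (G : SimpleGraph V), Countable V → Infinite V → G.Connected →
    (∃ D : ℕ, ∀ x, (G.neighborSet x).Finite ∧ (G.neighborSet x).ncard ≤ D) →
    ∀ lam : ℝ, lambdaC < ENNReal.ofReal lam → ∀ ε : ℝ, 0 < ε →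
    ∃ α C c : ℝ, 0 < α ∧ 0 < C ∧ 0 < c ∧
      ∀ (Ω : Type) [MeasurableSpace Ω] (P : Measure Ω) (M : Ω → V × V → Set ℝ),
        IsPoisson P M (cRate lam) → ∀ (Δ : Finset V) (t : ℝ), 0 ≤ t →
          α * (fdiam G Δ : ℝ) * (1 + ε) ≤ t →
          mixCoeff P G.Adj M (Δ : Set V) t ≤ C * (Δ.card : ℝ) * Real.exp (-c * t)

end CPM
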