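import Pool.Agent.Lib.MP_1a4724_pr.P02

/-!
# P04 (50 min) : reindexed Poisson marks are Poisson marks

`reindex` : the family `A` of boxes of `J'` is mapped to the family of the images (the box
`(e, a, b)` goes to `(φ e, c + a, c + b)` if `σ = 1`, to `(φ e, c - b, c - a)` if `σ = -1`); the
void events correspond, the slice of the image family at `φ e` is the image of the slice at `e`
under `t ↦ c + σ t` (same length), and the slices at the points outside the range of `φ` are
empty; `φ` injective, so the finsum over `J` is the finsum over `J'`.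
`pull`, `shiftT`, `revT` are instances (unfold; `{t | 0 + 1 * t ∈ ...}`, `{t | τ + 1 * t ∈ ..}`,
`{t | τ + (-1) * t ∈ ..}` have to be simplified), the rates `cRate lam` are preserved since the
vertex map is injective, respectively by the symmetry of `cRate`.
-/

noncomputable section

open MeasureTheory Set
open scoped ENNReal

namespace CPM

variable {Ω J J' V W : Type*} [MeasurableSpace Ω] {P : Measure Ω}

theorem p04_g {σ : ℝ} (hσ : σ = 1 ∨ σ = -1) (c : ℝ) : ∃ g : ℝ × ℝ → ℝ × ℝ, ∀ a b t,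
    t ∈ Icc a b ↔ c + σ * t ∈ Icc (g (a, b)).1 (g (a, b)).2 := by
  rcases hσ with rfl | rfl
  · refine ⟨fun p => (c + p.1, c + p.2), fun a b t => ?_⟩
    simp only [mem_Icc]
    constructor
    · rintro ⟨h1, h2⟩
      constructor <;> linarith
    · rintro ⟨h1, h2⟩
      constructor <;> linarith
  · refine ⟨fun p => (c - p.2, c - p.1), fun a b t => ?_⟩
    simp only [mem_Icc]
    constructor
    · rintro ⟨h1, h2⟩
      constructor <;> linarith
    · rintro ⟨h1, h2⟩
      constructor <;> linarith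

theorem p04_surj {σ : ℝ} (hσ : σ = 1 ∨ σ = -1) (c s : ℝ) : c + σ * (σ * (s - c)) = s := by
  rcases hσ with rfl | rfl <;> ring

theorem p04_vol {σ : ℝ} (hσ : σ = 1 ∨ σ = -1) (c : ℝ) (s : Set ℝ) :
    volume.real {t | c + σ * t ∈ s} = volume.real s := by
  have h1 : {t | c + σ * t ∈ s} = (fun t => σ * t) ⁻¹' ((fun x => c + x) ⁻¹' s) := rfl
  have hσ0 : σ ≠ 0 := by
    rcases hσ with rfl | rfl <;> norm_num
  have h2 : |σ⁻¹| = 1 := by
    rcases hσ with rfl | rfl <;> norm_num
  unfold Measure.real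
  rw [h1, Real.volume_preimage_mul_left hσ0, h2, ENNReal.ofReal_one, one_mul,
    measure_preimage_add]

theorem IsPoisson.reindex {M : Ω → J → Set ℝ} {rate : J → ℝ} (h : IsPoisson P M rate)
    {φ : J' → J} (hφ : Function.Injective φ) {σ : ℝ} (hσ : σ = 1 ∨ σ = -1) (c : ℝ) :
    IsPoisson P (fun ω => reindex φ σ c (M ω)) (fun e => rate (φ e)) := by
  classical
  have hg : ∀ ω, Good (CPM.reindex φ σ c (M ω)) := fun ω =>
    Good.reindex hφ hσ c ⟨fun e a b => h.locFin ω e a b, fun e e' t => h.distinct ω e e' t⟩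
  obtain ⟨g, hgg⟩ := p04_g hσ c
  refine ⟨h.prob, fun ω => (hg ω).1, fun ω => (hg ω).2, ?_, ?_⟩
  · intro e a b
    have : voidEv (fun ω => CPM.reindex φ σ c (M ω)) e a b =
        voidEv M (φ e) (g (a, b)).1 (g (a, b)).2 := by
      ext ω
      constructor
      · intro h1 s hs hm
        have h2 := p04_surj hσ c s
        refine h1 (σ * (s - c)) ((hgg a b _).2 (by rw [h2]; exact hs)) ?_
        change c + σ * (σ * (s - c)) ∈ M ω (φ e)
        rw [h2]
        exact hm
      · intro h1 t ht hm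
        exact h1 (c + σ * t) ((hgg a b t).1 ht) hm
    rw [this]
    exact h.meas _ _ _
  · intro A
    set f : J' × ℝ × ℝ → J × ℝ × ℝ := fun b =>
      (φ b.1, (g (b.2.1, b.2.2)).1, (g (b.2.1, b.2.2)).2) with hf
    have h1 : voidFam (fun ω => CPM.reindex φ σ c (M ω)) A = voidFam M (A.image f) := by
      ext ω
      constructor
      · intro h1 b hb s hs hm
        obtain ⟨b', hb', rfl⟩ := Finset.mem_image.1 hb
        have h2 := p04_surj hσ c s
        refine h1 b' hb' (σ * (s - c)) ((hgg _ _ _).2 (by rw [h2]; exact hs)) ?_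
        change c + σ * (σ * (s - c)) ∈ M ω (φ b'.1)
        rw [h2]
        exact hm
      · intro h1 b hb t ht hm
        exact h1 (f b) (Finset.mem_image_of_mem f hb) (c + σ * t) ((hgg _ _ t).1 ht) hm
    have h2 : ∀ e, slice A e = {t | c + σ * t ∈ slice (A.image f) (φ e)} := by
      intro e
      ext t
      constructor
      · rintro ⟨b, hb, rfl, ht⟩
        exact ⟨f b, Finset.mem_image_of_mem f hb, rfl, (hgg _ _ t).1 ht⟩
      · rintro ⟨b, hb, hbe, ht⟩
        obtain ⟨b', hb', rfl⟩ := Finset.mem_image.1 hb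
        exact ⟨b', hb', hφ hbe, (hgg _ _ t).2 ht⟩
    rw [h1, h.void]
    congr 2
    set F : J → ℝ := fun e => rate e * volume.real (slice (A.image f) e) with hF
    have h3 : ∀ e, e ∉ range φ → F e = 0 := by
      intro e he
      have : slice (A.image f) e = ∅ := by
        rw [eq_empty_iff_forall_notMem]
        rintro t ⟨b, hb, hbe, _⟩
        obtain ⟨b', hb', rfl⟩ := Finset.mem_image.1 hb
        exact he ⟨b'.1, hbe⟩
      rw [hF]
      simp [this]
    have h4 : ∑ᶠ e, F e = ∑ᶠ e ∈ range φ, F e := by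
      rw [← finsum_mem_univ]
      apply finsum_mem_inter_support_eq'
      intro e he
      refine ⟨fun _ => ?_, fun _ => mem_univ e⟩
      by_contra hne
      exact he (h3 e hne)
    rw [h4, finsum_mem_range hφ]
    apply finsum_congr
    intro e
    rw [hF, h2 e, p04_vol hσ]

theorem p04_shiftT {J : Type*} (τ : ℝ) (m : J → Set ℝ) :
    CPM.reindex (fun e : J => e) 1 τ m = CPM.shiftT τ m := by
  funext e
  unfold CPM.reindex CPM.shiftT
  simp only [one_mul]

theorem p04_pull {V W : Type*} (γ : W → V) (m : V × V → Set ℝ) :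
    CPM.reindex (fun e : W × W => (γ e.1, γ e.2)) 1 0 m = CPM.pull γ m := by
  funext e
  unfold CPM.reindex CPM.pull
  simp only [one_mul, zero_add]
  rfl

theorem p04_revT {V : Type*} (τ : ℝ) (m : V × V → Set ℝ) :
    CPM.reindex (fun e : V × V => (e.2, e.1)) (-1) τ m = CPM.revT τ m := by
  funext e
  unfold CPM.reindex CPM.revT
  ext t
  have : τ + -1 * t = τ - t := by ring
  change τ + -1 * t ∈ m (e.2, e.1) ↔ τ - t ∈ m (e.2, e.1)
  rw [this]

theorem p04_pullInj {V W : Type*} {γ : W → V} (hγ : Function.Injective γ) :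
    Function.Injective (fun e : W × W => (γ e.1, γ e.2)) := by
  rintro ⟨a, b⟩ ⟨a', b'⟩ h
  obtain ⟨h1, h2⟩ := Prod.mk.inj h
  exact Prod.ext (hγ h1) (hγ h2)

theorem p04_swapInj {V : Type*} : Function.Injective (fun e : V × V => (e.2, e.1)) := by
  rintro ⟨a, b⟩ ⟨a', b'⟩ h
  obtain ⟨h1, h2⟩ := Prod.mk.inj h
  exact Prod.ext h2 h1

theorem IsPoisson.shiftT {M : Ω → J → Set ℝ} {rate : J → ℝ} (h : IsPoisson P M rate) (τ : ℝ) :
    IsPoisson P (fun ω => shiftT τ (M ω)) rate := by
  have h1 := h.reindex (φ := fun e : J => e) (fun _ _ h => h) (Or.inl rfl) τ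
  simp only [p04_shiftT] at h1
  exact h1

theorem IsPoisson.pull {M : Ω → V × V → Set ℝ} {lam : ℝ} (h : IsPoisson P M (cRate lam))
    {γ : W → V} (hγ : Function.Injective γ) :
    IsPoisson P (fun ω => pull γ (M ω)) (cRate lam) := by
  have h1 := h.reindex (p04_pullInj hγ) (Or.inl rfl) 0
  simp only [p04_pull] at h1
  have h2 : (fun e : W × W => cRate lam (γ e.1, γ e.2)) = cRate lam := by
    funext e
    unfold cRate
    by_cases he : e.1 = e.2
    · rw [if_pos he, if_pos (congrArg γ he)]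
    · rw [if_neg he, if_neg (fun h => he (hγ h))]
  rw [h2] at h1
  exact h1

theorem IsPoisson.revT {M : Ω → V × V → Set ℝ} {lam : ℝ} (h : IsPoisson P M (cRate lam))
    (τ : ℝ) : IsPoisson P (fun ω => revT τ (M ω)) (cRate lam) := by
  have h1 := h.reindex p04_swapInj (Or.inr rfl) τ
  simp only [p04_revT] at h1
  have h2 : (fun e : V × V => cRate lam (e.2, e.1)) = cRate lam := by
    funext e
    unfold cRate
    by_cases he : e.1 = e.2
    · rw [if_pos he, if_pos he.symm]
    · rw [if_neg he, if_neg (fun h => he h.symm)]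
  rw [h2] at h1
  exact h1

theorem VMeas.shiftT {R R' : Set (J × ℝ)} {Q : (J → Set ℝ) → Prop} (τ : ℝ) (hQ : VMeas R' Q)
    (hR : ∀ e t, (e, t) ∈ R' → (e, τ + t) ∈ R) : VMeas R (fun m => Q (shiftT τ m)) := by
  have h1 := VMeas.reindex (φ := fun e : J => e) (fun _ _ h => h) (Or.inl rfl) τ hQ (R := R)
    (fun e t ht => by rw [one_mul]; exact hR e t ht)
  simp only [p04_shiftT] at h1
  exact h1

theorem VMeas.pull {R : Set ((V × V) × ℝ)} {R' : Set ((W × W) × ℝ)}
    {Q : (W × W → Set ℝ) → Prop} {γ : W → V} (hγ : Function.Injective γ) (hQ : VMeas R' Q)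
    (hR : ∀ x y t, ((x, y), t) ∈ R' → ((γ x, γ y), t) ∈ R) :
    VMeas R (fun m => Q (pull γ m)) := by
  have h1 := VMeas.reindex (p04_pullInj hγ) (Or.inl rfl) 0 hQ (R := R)
    (fun e t ht => by rw [one_mul, zero_add]; exact hR e.1 e.2 t ht)
  simp only [p04_pull] at h1
  exact h1

theorem VMeas.revT {R R' : Set ((V × V) × ℝ)} {Q : (V × V → Set ℝ) → Prop} (τ : ℝ)
    (hQ : VMeas R' Q) (hR : ∀ x y t, ((x, y), t) ∈ R' → ((y, x), τ - t) ∈ R) :
    VMeas R (fun m => Q (revT τ m)) := by
  have h1 := VMeas.reindex p04_swapInj (Or.inr rfl) τ hQ (R := R)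
    (fun e t ht => by
      have : τ + -1 * t = τ - t := by ring
      rw [this]
      exact hR e.1 e.2 t ht)
  simp only [p04_revT] at h1
  exact h1

omit [MeasurableSpace Ω] in
theorem VA_shiftT_le {M : Ω → J → Set ℝ} {R R' : Set (J × ℝ)} (τ : ℝ)
    (hR : ∀ e t, (e, t) ∈ R' → (e, τ + t) ∈ R) :
    VA (fun ω => CPM.shiftT τ (M ω)) R' ≤ VA M R := by
  have h1 := VA_reindex_le (M := M) (φ := fun e : J => e) (Or.inl rfl) τ (R' := R') (R := R)
    (fun e t ht => by rw [one_mul]; exact hR e t ht)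
  simp only [p04_shiftT] at h1
  exact h1

end CPM
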