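import Pool.Agent.Lib.MP_1a4724_pr.P01

/-!
# P05 : superposition

From Poisson marks indexed by `J × Bool` : the marks of type `(e, false)` and `(e, true)` together
are Poisson marks indexed by `J` with the sum of the rates.
`void` : the void event of the family `A` of boxes of `J` is the void event of the family
`A × {false, true}`; the slices at `(e, i)` are the slice of `A` at `e`.
-/

noncomputable section

open MeasureTheory Set
open scoped ENNReal

namespace CPM

open Classical in
/-- the family of boxes with both signs -/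
def p05_fam {J : Type*} (A : Finset (J × ℝ × ℝ)) : Finset ((J × Bool) × ℝ × ℝ) :=
  A.image (fun b => ((b.1, false), b.2)) ∪ A.image (fun b => ((b.1, true), b.2))

theorem p05_mem {J : Type*} (A : Finset (J × ℝ × ℝ)) (b : (J × Bool) × ℝ × ℝ) :
    b ∈ p05_fam A ↔ (b.1.1, b.2) ∈ A := by
  rcases b with ⟨⟨e, i⟩, a, c⟩
  simp only [p05_fam, Finset.mem_union, Finset.mem_image, Prod.mk.injEq]
  constructor
  · rintro (⟨b, hb, ⟨rfl, -⟩, h⟩ | ⟨b, hb, ⟨rfl, -⟩, h⟩) <;>
    · rw [← h]; exact hb
  · intro h
    cases i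
    · exact Or.inl ⟨_, h, ⟨rfl, rfl⟩, rfl⟩
    · exact Or.inr ⟨_, h, ⟨rfl, rfl⟩, rfl⟩

theorem p05_slice {J : Type*} (A : Finset (J × ℝ × ℝ)) (e : J) (i : Bool) :
    slice (p05_fam A) (e, i) = slice A e := by
  ext t
  simp only [slice, mem_setOf_eq]
  constructor
  · rintro ⟨b, hb, h1, h2⟩
    refine ⟨_, (p05_mem A b).1 hb, ?_, h2⟩
    exact congrArg Prod.fst h1
  · rintro ⟨b, hb, h1, h2⟩
    refine ⟨((b.1, i), b.2), (p05_mem A _).2 hb, ?_, h2⟩
    exact Prod.ext h1 rfl

theorem p05_slice_empty {J : Type*} (A : Finset (J × ℝ × ℝ)) (e : J)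
    (h : ∀ b ∈ A, b.1 ≠ e) : slice A e = ∅ := by
  ext t
  simp only [slice, mem_setOf_eq, mem_empty_iff_false, iff_false]
  rintro ⟨b, hb, h1, -⟩
  exact h b hb h1

theorem p05_sum {J : Type*} (A : Finset (J × ℝ × ℝ)) (rate : J × Bool → ℝ) :
    ∑ᶠ e, (rate (e, false) + rate (e, true)) * volume.real (slice A e) =
      ∑ᶠ p : J × Bool, rate p * volume.real (slice (p05_fam A) p) := by
  classical
  let S : Finset J := A.image (fun b => b.1)
  have hS : ∀ e, e ∉ S → volume.real (slice A e) = 0 := by
    intro e he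
    rw [p05_slice_empty A e, measureReal_empty]
    rintro b hb rfl
    exact he (Finset.mem_image_of_mem _ hb)
  rw [finsum_eq_sum_of_support_subset (s := S), finsum_eq_sum_of_support_subset
    (s := S ×ˢ (Finset.univ : Finset Bool)), Finset.sum_product]
  · refine Finset.sum_congr rfl fun e _ => ?_
    rw [Fintype.sum_bool, p05_slice, p05_slice]
    ring
  · rintro ⟨e, i⟩ he
    rw [Function.mem_support] at he
    rw [Finset.mem_coe, Finset.mem_product]
    refine ⟨?_, Finset.mem_univ _⟩
    by_contra h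
    rw [p05_slice, hS e h, mul_zero] at he
    exact he rfl
  · intro e he
    rw [Function.mem_support] at he
    by_contra h
    rw [hS e h, mul_zero] at he
    exact he rfl

theorem p05_voidEv {Ω J : Type*} (M : Ω → J × Bool → Set ℝ) (e : J) (a b : ℝ) :
    voidEv (fun ω e => M ω (e, false) ∪ M ω (e, true)) e a b =
      voidEv M (e, false) a b ∩ voidEv M (e, true) a b := by
  ext ω
  simp only [voidEv, mem_setOf_eq, mem_inter_iff, mem_union, not_or]
  exact ⟨fun h => ⟨fun t ht => (h t ht).1, fun t ht => (h t ht).2⟩,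
    fun h t ht => ⟨h.1 t ht, h.2 t ht⟩⟩

theorem p05_voidFam {Ω J : Type*} (M : Ω → J × Bool → Set ℝ) (A : Finset (J × ℝ × ℝ)) :
    voidFam (fun ω e => M ω (e, false) ∪ M ω (e, true)) A = voidFam M (p05_fam A) := by
  ext ω
  simp only [voidFam, mem_setOf_eq]
  constructor
  · rintro h ⟨⟨e, i⟩, a, c⟩ hb t ht hm
    refine h _ ((p05_mem A _).1 hb) t ht ?_
    cases i
    · exact Or.inl hm
    · exact Or.inr hm
  · rintro h ⟨e, a, c⟩ hb t ht (hm | hm)
    · exact h ((e, false), a, c) ((p05_mem A _).2 hb) t ht hm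
    · exact h ((e, true), a, c) ((p05_mem A _).2 hb) t ht hm

theorem IsPoisson.union {Ω J : Type*} [MeasurableSpace Ω] {P : Measure Ω}
    {M : Ω → J × Bool → Set ℝ} {rate : J × Bool → ℝ} (h : IsPoisson P M rate) :
    IsPoisson P (fun ω e => M ω (e, false) ∪ M ω (e, true))
      (fun e => rate (e, false) + rate (e, true)) where
  prob := h.prob
  locFin := by
    intro ω e a b
    rw [Set.union_inter_distrib_right]
    exact (h.locFin ω _ a b).union (h.locFin ω _ a b)
  distinct := by
    rintro ω e e' t (h1 | h1) (h2 | h2) <;>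
    exact congrArg Prod.fst (h.distinct ω _ _ t h1 h2)
  meas := by
    intro e a b
    rw [p05_voidEv]
    exact (h.meas _ a b).inter (h.meas _ a b)
  void := by
    intro A
    rw [p05_voidFam, h.void, p05_sum]

end CPM
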