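import Pool.Agent.Lib.MP_1a4724_pr.P01

/-!
# P06 : existence of Poisson marks
-/

noncomputable section

open MeasureTheory Set
open scoped ENNReal NNReal

namespace CPM

/-! ## One cell -/

abbrev P06Cell : Type := ℕ × (ℕ → unitInterval)

def p06U : Measure (ℕ → unitInterval) :=
  Measure.infinitePi (fun _ : ℕ => (volume : Measure unitInterval))

instance : IsProbabilityMeasure p06U := by unfold p06U; infer_instance

def p06Cell (r : ℝ≥0) : Measure P06Cell := (ProbabilityTheory.poissonMeasure r).prod p06U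

instance (r : ℝ≥0) : IsProbabilityMeasure (p06Cell r) := by unfold p06Cell; infer_instance

def p06Void (B : Set ℝ) : Set P06Cell := {c | ∀ i < c.1, (c.2 i : ℝ) ∉ B}

theorem p06_void_meas {B : Set ℝ} (hB : MeasurableSet B) : MeasurableSet (p06Void B) := by
  have h1 : p06Void B = ⋂ i : ℕ, ({c : P06Cell | c.1 ≤ i} ∪ {c : P06Cell | (c.2 i : ℝ) ∉ B}) := by
    ext c
    simp only [p06Void, Set.mem_iInter, Set.mem_union]
    constructor
    · intro h i
      by_cases hi : i < c.1
      · exact Or.inr (h i hi)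
      · exact Or.inl (not_lt.1 hi)
    · intro h i hi
      rcases h i with h | h
      · exact absurd hi (not_lt.2 h)
      · exact h
  rw [h1]
  refine MeasurableSet.iInter fun i => ?_
  refine MeasurableSet.union ?_ ?_
  · exact measurable_fst (measurableSet_Iic (a := i))
  · have h2 : Measurable (fun c : P06Cell => (c.2 i : ℝ)) := by fun_prop
    exact h2 hB.compl

theorem p06_U_prod {B : Set ℝ} (hB : MeasurableSet B) (k : ℕ) :
    p06U {u | ∀ i < k, (u i : ℝ) ∉ B} =
      ENNReal.ofReal ((1 - volume.real (B ∩ Icc 0 1)) ^ k) := by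
  have h0 : MeasurableSet {x : unitInterval | (x : ℝ) ∉ B} :=
    measurable_subtype_coe hB.compl
  have h1 : {u : ℕ → unitInterval | ∀ i < k, (u i : ℝ) ∉ B} =
      Set.pi (Finset.range k) (fun _ => {x : unitInterval | (x : ℝ) ∉ B}) := by
    ext u; simp [Set.mem_pi]
  have h2 : (volume : Measure unitInterval) {x : unitInterval | (x : ℝ) ∉ B} =
      ENNReal.ofReal (1 - volume.real (B ∩ Icc 0 1)) := by
    rw [unitInterval.volume_apply]
    have h3 : Subtype.val '' {x : unitInterval | (x : ℝ) ∉ B} = Icc (0:ℝ) 1 \ (B ∩ Icc 0 1) := by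
      ext x
      constructor
      · rintro ⟨y, hy, rfl⟩
        exact ⟨y.2, fun h => hy h.1⟩
      · rintro ⟨h1, h2⟩
        exact ⟨⟨x, h1⟩, fun h => h2 ⟨h, h1⟩, rfl⟩
    rw [h3, measure_sdiff inter_subset_right ((hB.inter measurableSet_Icc).nullMeasurableSet)]
    · rw [Real.volume_Icc, sub_zero, Measure.real, ENNReal.ofReal_sub _ ENNReal.toReal_nonneg,
        ENNReal.ofReal_toReal]
      exact ne_top_of_le_ne_top (by simp) (measure_mono (inter_subset_right (s := B)))
    · exact ne_top_of_le_ne_top (by simp) (measure_mono (inter_subset_right (s := B)))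
  rw [h1, p06U, Measure.infinitePi_pi _ (fun i _ => h0), Finset.prod_const, h2,
    Finset.card_range, ENNReal.ofReal_pow]
  have : volume.real (B ∩ Icc (0:ℝ) 1) ≤ volume.real (Icc (0:ℝ) 1) :=
    measureReal_mono inter_subset_right (by simp)
  simp at this
  linarith

theorem p06_cell_void (r : ℝ≥0) {B : Set ℝ} (hB : MeasurableSet B) :
    p06Cell r (p06Void B) = ENNReal.ofReal (Real.exp (-(r * volume.real (B ∩ Icc 0 1)))) := by
  set β := volume.real (B ∩ Icc (0:ℝ) 1) with hβ
  have hβ1 : β ≤ 1 := by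
    have : volume.real (B ∩ Icc (0:ℝ) 1) ≤ volume.real (Icc (0:ℝ) 1) :=
      measureReal_mono inter_subset_right (by simp)
    simpa using this
  rw [p06Cell, Measure.prod_apply (p06_void_meas hB), lintegral_countable']
  have h1 : ∀ k : ℕ, p06U (Prod.mk k ⁻¹' p06Void B) *
      ProbabilityTheory.poissonMeasure r {k} =
      ENNReal.ofReal ((1 - β) ^ k * (Real.exp (-r) * r ^ k / (k.factorial))) := by
    intro k
    have h2 : Prod.mk k ⁻¹' p06Void B = {u | ∀ i < k, (u i : ℝ) ∉ B} := rfl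
    rw [h2, p06_U_prod hB, ProbabilityTheory.poissonMeasure_singleton, ENNReal.ofReal_mul]
    exact pow_nonneg (by linarith) _
  simp_rw [h1]
  have h3 : HasSum (fun k : ℕ => (1 - β) ^ k * (Real.exp (-r) * (r:ℝ) ^ k / (k.factorial)))
      (Real.exp (-(r * β))) := by
    have h4 := (NormedSpace.expSeries_div_hasSum_exp (((r:ℝ) * (1 - β)))).mul_left
      (Real.exp (-r))
    rw [← Real.exp_eq_exp_ℝ, ← Real.exp_add] at h4
    have h5 : -(r:ℝ) + r * (1 - β) = -(r * β) := by ring
    rw [h5] at h4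
    have h6 : (fun k : ℕ => (1 - β) ^ k * (Real.exp (-r) * (r:ℝ) ^ k / (k.factorial))) =
        fun i : ℕ => Real.exp (-r) * (((r:ℝ) * (1 - β)) ^ i / (i.factorial)) := by
      funext k
      rw [mul_pow]; ring
    rw [h6]
    exact h4
  rw [← ENNReal.ofReal_tsum_of_nonneg _ h3.summable, h3.tsum_eq]
  intro k
  have := pow_nonneg (sub_nonneg.2 hβ1) k
  positivity

/-! ## The lengths of the slices -/

theorem p06_length_unit (B : Set ℝ) (n : ℤ) :
    volume ({u : ℝ | (n : ℝ) + u ∈ B} ∩ Icc 0 1) = volume (B ∩ Ico (n : ℝ) (n + 1)) := by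
  have h1 : volume ({u : ℝ | (n : ℝ) + u ∈ B} ∩ Icc 0 1) =
      volume ({u : ℝ | (n : ℝ) + u ∈ B} ∩ Ico 0 1) := by
    apply measure_congr
    exact (Filter.EventuallyEq.refl _ _).inter Ico_ae_eq_Icc.symm
  rw [h1]
  have h2 : {u : ℝ | (n : ℝ) + u ∈ B} ∩ Ico 0 1 =
      (fun u => (n : ℝ) + u) ⁻¹' (B ∩ Ico (n : ℝ) (n + 1)) := by
    ext u
    simp only [Set.mem_inter_iff, Set.mem_preimage, Set.mem_Ico]
    constructor
    · rintro ⟨h1, h2, h3⟩
      exact ⟨h1, by linarith, by linarith⟩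
    · rintro ⟨h1, h2, h3⟩
      exact ⟨h1, by linarith, by linarith⟩
  rw [h2, measure_preimage_add]

theorem p06_length (B : Set ℝ) (hB : MeasurableSet B) (N : ℕ)
    (hN : B ⊆ Ico (-(N : ℝ)) (N : ℝ)) :
    ∑ n ∈ Finset.Ico (-(N : ℤ)) N, volume ({u : ℝ | (n : ℝ) + u ∈ B} ∩ Icc 0 1) = volume B := by
  have h1 : B = ⋃ n ∈ Finset.Ico (-(N : ℤ)) N, (B ∩ Ico (n : ℝ) (n + 1)) := by
    ext t
    simp only [Set.mem_iUnion, exists_prop, Finset.mem_Ico]
    constructor
    · intro ht
      have h2 := hN ht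
      refine ⟨⌊t⌋, ⟨?_, ?_⟩, ht, Int.floor_le t, Int.lt_floor_add_one t⟩
      · rw [Int.le_floor]; push_cast; exact h2.1
      · rw [Int.floor_lt]; exact_mod_cast h2.2
    · rintro ⟨n, _, ht, _⟩
      exact ht
  conv_rhs => rw [h1]
  rw [measure_biUnion_finset]
  · apply Finset.sum_congr rfl
    intro n _
    exact p06_length_unit B n
  · intro i _ j _ hij
    apply Set.disjoint_left.2
    rintro t ⟨_, h1, h2⟩ ⟨_, h3, h4⟩
    apply hij
    have h5 : i < j + 1 := by
      have : (i : ℝ) < j + 1 := by linarith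
      exact_mod_cast this
    have h6 : j < i + 1 := by
      have : (j : ℝ) < i + 1 := by linarith
      exact_mod_cast this
    omega
  · intro n _
    exact hB.inter measurableSet_Ico

theorem p06_slice_bound {J : Type*} (A : Finset (J × ℝ × ℝ)) :
    ∃ N : ℕ, ∀ e, slice A e ⊆ Ico (-(N : ℝ)) (N : ℝ) := by
  classical
  induction A using Finset.induction_on with
  | empty => exact ⟨0, fun e t ht => by obtain ⟨b, hb, _⟩ := ht; simp at hb⟩
  | insert b A hb ih =>
    obtain ⟨N, hN⟩ := ih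
    obtain ⟨N1, h1⟩ := exists_nat_gt (|b.2.1|)
    obtain ⟨N2, h2⟩ := exists_nat_gt (|b.2.2|)
    refine ⟨N + N1 + N2, ?_⟩
    rintro e t ⟨c, hc, h3, h4⟩
    have e0 : (0:ℝ) ≤ N := Nat.cast_nonneg _
    have e1 : (0:ℝ) ≤ N1 := Nat.cast_nonneg _
    have e2 : (0:ℝ) ≤ N2 := Nat.cast_nonneg _
    rcases Finset.mem_insert.1 hc with rfl | hc
    · have h5 := neg_abs_le c.2.1
      have h6 := le_abs_self c.2.2
      constructor
      · push_cast; linarith [h4.1]
      · push_cast; linarith [h4.2]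
    · have h5 := hN e ⟨c, hc, h3, h4⟩
      constructor
      · push_cast; linarith [h5.1]
      · push_cast; linarith [h5.2]

/-! ## The full space -/

section Full

variable {J : Type} (rate : J → ℝ)

abbrev P06Omega (J : Type) : Type := J × ℤ → P06Cell

def p06P : Measure (P06Omega J) :=
  Measure.infinitePi (fun c : J × ℤ => p06Cell (rate c.1).toNNReal)

instance : IsProbabilityMeasure (p06P rate) := by unfold p06P; infer_instance

/-- the marks before the modification -/
def p06M (ω : P06Omega J) (e : J) : Set ℝ :=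
  {t | ∃ n : ℤ, ∃ i < (ω (e, n)).1, t = (n : ℝ) + ((ω (e, n)).2 i : ℝ)}

theorem p06_voidFam (A : Finset (J × ℝ × ℝ)) (N : ℕ)
    (hN : ∀ e, slice A e ⊆ Ico (-(N : ℝ)) (N : ℝ)) [DecidableEq J] :
    voidFam (p06M (J := J)) A =
      Set.pi ((A.image Prod.fst) ×ˢ Finset.Ico (-((N + 1 : ℕ) : ℤ)) ((N + 1 : ℕ) : ℤ) :
        Finset (J × ℤ)) (fun c => p06Void {u : ℝ | (c.2 : ℝ) + u ∈ slice A c.1}) := by
  ext ω
  simp only [voidFam, Set.mem_pi, Finset.mem_coe, Finset.mem_product, p06Void]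
  constructor
  · intro h c hc i hi hs
    obtain ⟨b, hb, h1, h2⟩ := hs
    refine h b hb _ h2 ?_
    rw [h1]
    exact ⟨c.2, i, hi, rfl⟩
  · intro h b hb t ht hM
    obtain ⟨n, i, hi, rfl⟩ := hM
    have hs : (n : ℝ) + ((ω (b.1, n)).2 i : ℝ) ∈ slice A b.1 := ⟨b, hb, rfl, ht⟩
    refine h (b.1, n) ⟨Finset.mem_image_of_mem _ hb, ?_⟩ i hi hs
    have h1 := hN _ hs
    have h2 := ((ω (b.1, n)).2 i).2
    rw [Finset.mem_Ico]
    constructor
    · have : (-(N:ℝ)) ≤ n + 1 := by linarith [h1.1, h2.2]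
      have h3 : -(N:ℤ) ≤ n + 1 := by exact_mod_cast this
      push_cast
      linarith
    · have : (n:ℝ) ≤ N := by linarith [h1.2, h2.1]
      have h3 : n ≤ (N:ℤ) := by exact_mod_cast this
      push_cast
      linarith

theorem p06_shift_meas {B : Set ℝ} (hB : MeasurableSet B) (n : ℤ) :
    MeasurableSet {u : ℝ | (n : ℝ) + u ∈ B} := by
  have h1 : Measurable (fun u : ℝ => (n : ℝ) + u) := by fun_prop
  exact h1 hB

theorem p06_voidFam_meas (A : Finset (J × ℝ × ℝ)) :
    MeasurableSet (voidFam (p06M (J := J)) A) := by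
  classical
  obtain ⟨N, hN⟩ := p06_slice_bound A
  rw [p06_voidFam A N hN]
  apply MeasurableSet.pi (Finset.countable_toSet _)
  intro c _
  exact p06_void_meas (p06_shift_meas (p01_slice_meas A c.1) c.2)

theorem p06_void (hr : ∀ e, 0 ≤ rate e) (A : Finset (J × ℝ × ℝ)) :
    p06P rate (voidFam p06M A) =
      ENNReal.ofReal (Real.exp (-∑ᶠ e, rate e * volume.real (slice A e))) := by
  classical
  obtain ⟨N, hN⟩ := p06_slice_bound A
  rw [p06_voidFam A N hN, p06P, Measure.infinitePi_pi _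
    (fun c _ => p06_void_meas (p06_shift_meas (p01_slice_meas A c.1) c.2))]
  simp_rw [p06_cell_void _ (p06_shift_meas (p01_slice_meas A _) _)]
  rw [← ENNReal.ofReal_prod_of_nonneg (fun _ _ => (Real.exp_pos _).le), ← Real.exp_sum,
    Finset.sum_neg_distrib]
  congr 3
  rw [Finset.sum_product, finsum_eq_sum_of_support_subset _ (s := A.image Prod.fst)]
  · apply Finset.sum_congr rfl
    intro e _
    simp only
    rw [← Finset.mul_sum, Real.coe_toNNReal _ (hr e)]
    congr 1
    have h1 := p06_length (slice A e) (p01_slice_meas A e) (N + 1) (by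
      intro t ht
      have := hN e ht
      constructor
      · push_cast; linarith [this.1]
      · push_cast; linarith [this.2])
    simp only [Measure.real]
    rw [← h1, ENNReal.toReal_sum]
    intro n _
    exact ne_top_of_le_ne_top (by simp) (measure_mono (inter_subset_right))
  · intro e he
    by_contra hne
    apply he
    have : slice A e = ∅ := by
      apply p01_slice_empty
      intro b hb hbe
      exact hne (by simpa using ⟨b.2.1, b.2.2, by rw [← hbe]; exact hb⟩)
    simp [this]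

/-- the exceptional set -/
def p06N (J : Type) : Set (P06Omega J) :=
  {ω | ∃ c c' : J × ℤ, ∃ i j : ℕ, c.1 ≠ c'.1 ∧
    (c.2 : ℝ) + ((ω c).2 i : ℝ) = (c'.2 : ℝ) + ((ω c').2 j : ℝ)}

theorem p06_cell_atom (r : ℝ≥0) (j : ℕ) (y : ℝ) :
    p06Cell r {x : P06Cell | (x.2 j : ℝ) = y} = 0 := by
  have h0 : MeasurableSet {v : unitInterval | (v : ℝ) = y} :=
    measurable_subtype_coe (measurableSet_singleton y)
  have h1 : {x : P06Cell | (x.2 j : ℝ) = y} =
      (univ : Set ℕ) ×ˢ (Function.eval j ⁻¹' {v : unitInterval | (v : ℝ) = y}) := by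
    ext x; simp
  rw [h1, p06Cell, Measure.prod_prod]
  have h2 := (measurePreserving_eval_infinitePi
    (fun _ : ℕ => (volume : Measure unitInterval)) j).measure_preimage h0.nullMeasurableSet
  have h3 : (volume : Measure unitInterval) {v : unitInterval | (v : ℝ) = y} = 0 := by
    rw [unitInterval.volume_apply]
    apply measure_mono_null (t := {y})
    · rintro _ ⟨v, hv, rfl⟩
      exact hv
    · simp
  rw [h3] at h2
  rw [p06U, h2, mul_zero]

theorem p06_null_one {c c' : J × ℤ} (hc : c ≠ c') (i j : ℕ) :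
    p06P rate {ω | (c.2 : ℝ) + ((ω c).2 i : ℝ) = (c'.2 : ℝ) + ((ω c').2 j : ℝ)} = 0 := by
  have hind : ProbabilityTheory.IndepFun (fun ω : P06Omega J => ω c)
      (fun ω : P06Omega J => ω c') (p06P rate) :=
    (ProbabilityTheory.iIndepFun_infinitePi (Ω := fun _ : J × ℤ => P06Cell)
      (P := fun c : J × ℤ => p06Cell (rate c.1).toNNReal)
      (X := fun _ x => x) (fun _ => measurable_id)).indepFun hc
  have hf : ∀ k : ℕ, Measurable (fun x : P06Cell => (x.2 k : ℝ)) := by
    intro k; fun_prop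
  have hX : Measurable (fun ω : P06Omega J => ((ω c).2 i : ℝ)) := by fun_prop
  have hY : Measurable (fun ω : P06Omega J => ((ω c').2 j : ℝ)) := by fun_prop
  have hXY : ProbabilityTheory.IndepFun (fun ω : P06Omega J => ((ω c).2 i : ℝ))
      (fun ω : P06Omega J => ((ω c').2 j : ℝ)) (p06P rate) := hind.comp (hf i) (hf j)
  rw [ProbabilityTheory.indepFun_iff_map_prod_eq_prod_map_map hX.aemeasurable
    hY.aemeasurable] at hXY
  have hs : MeasurableSet {p : ℝ × ℝ | (c.2 : ℝ) + p.1 = (c'.2 : ℝ) + p.2} := by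
    apply measurableSet_eq_fun <;> fun_prop
  have h1 : {ω : P06Omega J | (c.2 : ℝ) + ((ω c).2 i : ℝ) = (c'.2 : ℝ) + ((ω c').2 j : ℝ)} =
      (fun ω => (((ω c).2 i : ℝ), ((ω c').2 j : ℝ))) ⁻¹'
        {p : ℝ × ℝ | (c.2 : ℝ) + p.1 = (c'.2 : ℝ) + p.2} := rfl
  rw [h1, ← Measure.map_apply (hX.prodMk hY) hs, hXY, Measure.measure_prod_null hs]
  apply Filter.Eventually.of_forall
  intro x
  have h2 : Prod.mk x ⁻¹' {p : ℝ × ℝ | (c.2 : ℝ) + p.1 = (c'.2 : ℝ) + p.2} ⊆
      {(c.2 : ℝ) + x - c'.2} := by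
    intro y hy
    have : (c.2 : ℝ) + x = (c'.2 : ℝ) + y := hy
    show y = _
    linarith
  apply measure_mono_null h2
  rw [Measure.map_apply hY (measurableSet_singleton _)]
  have h3 := (measurePreserving_eval_infinitePi
    (fun c : J × ℤ => p06Cell (rate c.1).toNNReal) c').measure_preimage
    ((hf j) (measurableSet_singleton ((c.2 : ℝ) + x - c'.2))).nullMeasurableSet
  have h4 := p06_cell_atom (rate c'.1).toNNReal j ((c.2 : ℝ) + x - c'.2)
  exact h3.trans h4

theorem p06_null [Countable J] : p06P rate (p06N J) = 0 := by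
  have h1 : p06N J ⊆ ⋃ c : J × ℤ, ⋃ c' : J × ℤ, ⋃ (_ : c ≠ c'), ⋃ i : ℕ, ⋃ j : ℕ,
      {ω | (c.2 : ℝ) + ((ω c).2 i : ℝ) = (c'.2 : ℝ) + ((ω c').2 j : ℝ)} := by
    rintro ω ⟨c, c', i, j, h1, h2⟩
    simp only [Set.mem_iUnion]
    exact ⟨c, c', fun h => h1 (by rw [h]), i, j, h2⟩
  apply measure_mono_null h1
  simp only [measure_iUnion_null_iff]
  intro c c' hc i j
  exact p06_null_one rate hc i j

theorem p06N_meas [Countable J] : MeasurableSet (p06N J) := by
  have h1 : p06N J = ⋃ c : J × ℤ, ⋃ c' : J × ℤ, ⋃ (_ : c.1 ≠ c'.1), ⋃ i : ℕ, ⋃ j : ℕ,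
      {ω | (c.2 : ℝ) + ((ω c).2 i : ℝ) = (c'.2 : ℝ) + ((ω c').2 j : ℝ)} := by
    ext ω
    simp only [p06N, Set.mem_iUnion]
    constructor
    · rintro ⟨c, c', i, j, h1, h2⟩
      exact ⟨c, c', h1, i, j, h2⟩
    · rintro ⟨c, c', h1, i, j, h2⟩
      exact ⟨c, c', i, j, h1, h2⟩
  rw [h1]
  refine MeasurableSet.iUnion fun c => MeasurableSet.iUnion fun c' => MeasurableSet.iUnion
    fun _ => MeasurableSet.iUnion fun i => MeasurableSet.iUnion fun j => ?_
  apply measurableSet_eq_fun
  · fun_prop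
  · fun_prop

open Classical in
/-- the marks -/
def p06Marks (ω : P06Omega J) (e : J) : Set ℝ := if ω ∈ p06N J then ∅ else p06M ω e

end Full

theorem exists_poisson (J : Type) [Countable J] (rate : J → ℝ) (hr : ∀ e, 0 ≤ rate e) :
    ∃ (Ω : Type) (_ : MeasurableSpace Ω) (P : Measure Ω) (M : Ω → J → Set ℝ),
      IsPoisson P M rate := by
  refine ⟨P06Omega J, inferInstance, p06P rate, p06Marks, ?_⟩
  have hfam : ∀ A : Finset (J × ℝ × ℝ), voidFam (p06Marks (J := J)) A =
      p06N J ∪ voidFam p06M A := by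
    intro A
    ext ω
    by_cases hω : ω ∈ p06N J
    · simp [voidFam, p06Marks, hω]
    · simp [voidFam, p06Marks, hω]
  refine ⟨inferInstance, ?_, ?_, ?_, ?_⟩
  · intro ω e a b
    by_cases hω : ω ∈ p06N J
    · simp [p06Marks, hω]
    · have h1 : p06Marks ω e ∩ Icc a b ⊆ ⋃ n ∈ Set.Icc (⌊a⌋ - 1) ⌈b⌉,
          (fun i : ℕ => (n : ℝ) + ((ω (e, n)).2 i : ℝ)) '' Set.Iio (ω (e, n)).1 := by
        rintro t ⟨ht, h2, h3⟩
        simp only [p06Marks, hω, if_false] at ht
        obtain ⟨n, i, hi, rfl⟩ := ht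
        simp only [Set.mem_iUnion]
        refine ⟨n, ⟨?_, ?_⟩, i, hi, rfl⟩
        · have h4 := ((ω (e, n)).2 i).2.2
          have h5 : (⌊a⌋ : ℝ) ≤ n + 1 := (Int.floor_le a).trans (by linarith)
          have h6 : ⌊a⌋ ≤ n + 1 := by exact_mod_cast h5
          linarith
        · have h4 := ((ω (e, n)).2 i).2.1
          have h5 : (n : ℝ) ≤ ⌈b⌉ := le_trans (by linarith) (Int.le_ceil b)
          exact_mod_cast h5
      apply Set.Finite.subset _ h1
      apply Set.Finite.biUnion (Set.finite_Icc _ _)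
      intro n _
      exact (Set.finite_Iio _).image _
  · intro ω e e' t h1 h2
    by_cases hω : ω ∈ p06N J
    · simp [p06Marks, hω] at h1
    · simp only [p06Marks, hω, if_false] at h1 h2
      obtain ⟨n, i, _, h3⟩ := h1
      obtain ⟨n', i', _, h4⟩ := h2
      by_contra hne
      exact hω ⟨(e, n), (e', n'), i, i', hne, h3.symm.trans h4⟩
  · intro e a b
    have h1 := hfam {(e, a, b)}
    rw [p01_voidFam_singleton] at h1
    simp only at h1
    rw [h1]
    exact p06N_meas.union (p06_voidFam_meas _)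
  · intro A
    rw [hfam, Measure.real]
    have h1 : p06P rate (p06N J ∪ voidFam p06M A) = p06P rate (voidFam p06M A) := by
      apply le_antisymm
      · refine (measure_union_le _ _).trans ?_
        rw [p06_null, zero_add]
      · exact measure_mono subset_union_right
    rw [h1, p06_void rate hr, ENNReal.toReal_ofReal (Real.exp_pos _).le]

end CPM
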