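import Pool.Agent.Lib.MP_1a4724_pr.P03
import Pool.Agent.Lib.MP_1a4724_pr.P04
import Pool.Agent.Lib.MP_1a4724_pr.P05
import Pool.Agent.Lib.MP_1a4724_pr.P06
import Pool.Agent.Lib.MP_1a4724_pr.D05

/-!
# E00 : monotone coupling in the infection rate

`mono_exists` : for `0 ≤ lam' ≤ lam` take Poisson marks on `(V × V) × Bool` (`exists_poisson`)
with the rates `r ((x, y), false) = cRate lam' (x, y)`, `r ((x, y), true) = 0` if `x = y` and
`lam - lam'` if `x ≠ y`.  `Mb ω e = M ω (e, false)` is Poisson with rates `cRate lam'`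
(`IsPoisson.reindex`, `σ = 1`, `c = 0`), `Mf ω e = M ω (e, false) ∪ M ω (e, true)` is Poisson with
rates `cRate lam` (`IsPoisson.union`).  To have no extra recovery marks at all (not only almost
surely) replace `M ω ((x, x), true)` by the empty set for all `ω` : this is again a Poisson family
(void probabilities: rate zero, all void events of these types have probability one).
`survive_pos` : by `lambdaC < ofReal lam` there is `lam' < lam`, `0 < lam'`, with `Survives natAdj 0
lam'`.  By `transfer` the survival event has the same positive probability for all families with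
rates `cRate lam'`; in the coupling the base process survives on this event and then the full one
does (`base ⊆ full` and equal recovery marks : a path of the base marks is a path of the full
marks).  `p₀` is the probability for the coupling; `transfer` again for all families with rates
`cRate lam`.  (Survival event : `alive_iff_nat`, countable intersection, `aliveAt_vmeas`.)
-/

noncomputable section

open MeasureTheory Set
open scoped ENNReal

namespace CPM

/-- base marks `Mb` of infection rate `lam'`, full marks `Mf` of infection rate `lam`; the extra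
marks `Mx` (arrows only) are Poisson of rate `lam - lam'` jointly with the base marks -/
structure Coupling (V : Type*) (lam' lam : ℝ) {Ω : Type*} [MeasurableSpace Ω] (P : Measure Ω)
    (M : Ω → (V × V) × Bool → Set ℝ) : Prop where
  joint : IsPoisson P M (fun e => if e.2 then (open Classical in if e.1.1 = e.1.2 then 0 else
    lam - lam') else cRate lam' e.1)
  norec : ∀ ω x, M ω ((x, x), true) = ∅

/-- the base marks -/
def baseM {Ω V : Type*} (M : Ω → (V × V) × Bool → Set ℝ) (ω : Ω) : V × V → Set ℝ :=
  fun e => M ω (e, false)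

/-- the full marks -/
def fullM {Ω V : Type*} (M : Ω → (V × V) × Bool → Set ℝ) (ω : Ω) : V × V → Set ℝ :=
  fun e => M ω (e, false) ∪ M ω (e, true)

open Classical in
/-- marks of the types in `S` removed -/
def e00_cut {Ω J : Type*} (S : Set J) (M : Ω → J → Set ℝ) (ω : Ω) (e : J) : Set ℝ :=
  if e ∈ S then ∅ else M ω e

/-- types of rate zero may be removed -/
theorem e00_cut_poisson {Ω J : Type*} [MeasurableSpace Ω] {P : Measure Ω} {M : Ω → J → Set ℝ}
    {rate : J → ℝ} (h : IsPoisson P M rate) (S : Set J) (hS : ∀ e ∈ S, rate e = 0) :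
    IsPoisson P (e00_cut S M) rate where
  prob := h.prob
  locFin := by
    intro ω e a b
    unfold e00_cut
    split_ifs
    · simp
    · exact h.locFin ω e a b
  distinct := by
    intro ω e e' t h1 h2
    unfold e00_cut at h1 h2
    split_ifs at h1 h2
    · exact absurd h1 (by simp)
    · exact absurd h1 (by simp)
    · exact absurd h2 (by simp)
    · exact h.distinct ω e e' t h1 h2
  meas := by
    intro e a b
    by_cases he : e ∈ S
    · have : voidEv (e00_cut S M) e a b = univ := by
        ext ω
        simp [voidEv, e00_cut, he]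
      rw [this]; exact MeasurableSet.univ
    · have : voidEv (e00_cut S M) e a b = voidEv M e a b := by
        ext ω
        simp [voidEv, e00_cut, he]
      rw [this]; exact h.meas e a b
  void := by
    classical
    intro A
    have h1 : voidFam (e00_cut S M) A = voidFam M (A.filter fun b => b.1 ∉ S) := by
      ext ω
      simp only [voidFam, Set.mem_ofPred_eq, Finset.mem_filter]
      constructor
      · rintro h2 b ⟨hb, hbS⟩ t ht
        have h3 := h2 b hb t ht
        simpa [e00_cut, hbS] using h3
      · intro h2 b hb t ht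
        by_cases hbS : b.1 ∈ S
        · simp [e00_cut, hbS]
        · have h3 := h2 b ⟨hb, hbS⟩ t ht
          simpa [e00_cut, hbS] using h3
    rw [h1, h.void]
    congr 2
    refine finsum_congr fun e => ?_
    by_cases he : e ∈ S
    · rw [hS e he, zero_mul, zero_mul]
    · have : slice (A.filter fun b => b.1 ∉ S) e = slice A e := by
        ext t
        simp only [slice, Set.mem_ofPred_eq, Finset.mem_filter]
        constructor
        · rintro ⟨b, ⟨hb, -⟩, h2, h3⟩
          exact ⟨b, hb, h2, h3⟩
        · rintro ⟨b, hb, h2, h3⟩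
          exact ⟨b, ⟨hb, by rw [h2]; exact he⟩, h2, h3⟩
      rw [this]

theorem exists_coupling (V : Type) [Countable V] {lam' lam : ℝ} (h0 : 0 ≤ lam')
    (h1 : lam' ≤ lam) :
    ∃ (Ω : Type) (_ : MeasurableSpace Ω) (P : Measure Ω) (M : Ω → (V × V) × Bool → Set ℝ),
      Coupling V lam' lam P M := by
  classical
  obtain ⟨Ω, mΩ, P, M, hM⟩ := exists_poisson ((V × V) × Bool)
    (fun e => if e.2 then (if e.1.1 = e.1.2 then 0 else lam - lam') else cRate lam' e.1) (by
      rintro ⟨e, b⟩
      cases b with
      | false =>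
        simp only [Bool.false_eq_true, if_false]
        unfold cRate
        split_ifs
        · exact zero_le_one
        · exact h0
      | true =>
        simp only [if_true]
        split_ifs
        · exact le_rfl
        · linarith)
  refine ⟨Ω, mΩ, P, e00_cut {e | e.2 = true ∧ e.1.1 = e.1.2} M, ?_, ?_⟩
  · convert e00_cut_poisson hM {e | e.2 = true ∧ e.1.1 = e.1.2} ?_
    rintro ⟨⟨x, y⟩, b⟩ ⟨hb, hxy⟩
    dsimp only at hb hxy
    simp [hb, hxy]
  · intro ω x
    simp [e00_cut]

theorem Coupling.base {V Ω : Type*} {lam' lam : ℝ} [MeasurableSpace Ω] {P : Measure Ω}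
    {M : Ω → (V × V) × Bool → Set ℝ} (h : Coupling V lam' lam P M) :
    IsPoisson P (baseM M) (cRate lam') := by
  have h1 := h.joint.reindex (φ := fun e : V × V => (e, false))
    (fun a b hab => (Prod.mk.inj hab).1) (σ := 1) (Or.inl rfl) 0
  have h2 : (fun ω => reindex (fun e : V × V => (e, false)) 1 0 (M ω)) = baseM M := by
    funext ω e
    simp [reindex, baseM]
  rw [h2] at h1
  exact h1

theorem Coupling.full {V Ω : Type*} {lam' lam : ℝ} [MeasurableSpace Ω] {P : Measure Ω}
    {M : Ω → (V × V) × Bool → Set ℝ} (h : Coupling V lam' lam P M) :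
    IsPoisson P (fullM M) (cRate lam) := by
  have h1 := h.joint.union
  have h2 : (fun e : V × V => (if (e, false).2 = true then (open Classical in
      if (e, false).1.1 = (e, false).1.2 then 0 else lam - lam') else cRate lam' (e, false).1) +
      (if (e, true).2 = true then (open Classical in
      if (e, true).1.1 = (e, true).1.2 then 0 else lam - lam') else cRate lam' (e, true).1)) =
      cRate lam := by
    funext e
    by_cases he : e.1 = e.2
    · simp [cRate, he]
    · simp [cRate, he]
  rw [h2] at h1
  exact h1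

theorem conn_base_full {V Ω : Type*} {M : Ω → (V × V) × Bool → Set ℝ}
    (h : ∀ ω x, M ω ((x, x), true) = ∅) {adj : V → V → Prop} {ω : Ω} {p q : V × ℝ}
    (hc : Conn adj (baseM M ω) p q) : Conn adj (fullM M ω) p q := by
  unfold Conn at hc ⊢
  refine Relation.ReflTransGen.mono ?_ _ _ hc
  intro a b hab
  cases hab with
  | wait x a b hab hr =>
    refine Step.wait x a b hab fun t ht hm => ?_
    rcases hm with hm | hm
    · exact hr t ht hm
    · rw [h ω x] at hm
      exact hm
  | jump x y t hadj hne ht => exact Step.jump x y t hadj hne (Or.inl ht)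

/-- the critical value : there is a smaller rate with survival -/
theorem exists_lower {lam : ℝ} (h : lambdaC < ENNReal.ofReal lam) :
    ∃ lam', 0 < lam' ∧ lam' < lam ∧ Survives natAdj 0 lam' := by
  unfold lambdaC at h
  obtain ⟨l, ⟨lam', h0, rfl, hs⟩, hl⟩ := sInf_lt_iff.1 h
  exact ⟨lam', h0, (ENNReal.ofReal_lt_ofReal_iff_of_nonneg h0.le).1 hl, hs⟩

theorem e00_alive_vmeas :
    VMeas (univ : Set ((ℕ × ℕ) × ℝ)) (fun m => ∀ n : ℕ, aliveAt natAdj m 0 n) :=
  VMeas.forall fun n => (aliveAt_vmeas natAdj 0 (n : ℝ)).mono (subset_univ _)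

/-- survival for one realisation gives a common positive bound for all realisations -/
theorem survive_all {lam : ℝ} (h : Survives natAdj 0 lam) :
    ∃ p₀ : ℝ, 0 < p₀ ∧ p₀ ≤ 1 ∧ ∀ (Ω : Type) [MeasurableSpace Ω] (P : Measure Ω)
      (M : Ω → ℕ × ℕ → Set ℝ), IsPoisson P M (cRate lam) →
      P.real {ω | ∀ n : ℕ, aliveAt natAdj (M ω) 0 n} = p₀ := by
  obtain ⟨Ω₀, mΩ₀, P₀, M₀, hP₀, hpos⟩ := h
  have hpr : IsProbabilityMeasure P₀ := hP₀.prob
  have hset : {ω | ∀ t : ℝ, 0 ≤ t → aliveAt natAdj (M₀ ω) 0 t} =
      {ω | ∀ n : ℕ, aliveAt natAdj (M₀ ω) 0 n} := by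
    ext ω
    exact alive_iff_nat
  rw [hset] at hpos
  refine ⟨P₀.real {ω | ∀ n : ℕ, aliveAt natAdj (M₀ ω) 0 n}, ?_, measureReal_le_one, ?_⟩
  · exact ENNReal.toReal_pos hpos.ne' (measure_ne_top _ _)
  · intro Ω _ P M hP
    exact transfer_real hP hP₀ e00_alive_vmeas

theorem survive_mono {lam' lam : ℝ} (h0 : 0 < lam') (h1 : lam' ≤ lam)
    (h : Survives natAdj 0 lam') : Survives natAdj 0 lam := by
  obtain ⟨Ω, mΩ, P, M, hM⟩ := exists_coupling ℕ h0.le h1
  obtain ⟨p₀, hp0, -, hp⟩ := survive_all h
  have hpr : IsProbabilityMeasure P := hM.joint.prob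
  refine ⟨Ω, mΩ, P, fullM M, hM.full, ?_⟩
  have h2 := hp Ω P (baseM M) hM.base
  have h3 : 0 < P {ω | ∀ n : ℕ, aliveAt natAdj (baseM M ω) 0 n} := by
    by_contra hcon
    have h4 : P {ω | ∀ n : ℕ, aliveAt natAdj (baseM M ω) 0 n} = 0 := by
      simpa using hcon
    rw [Measure.real, h4] at h2
    simp at h2
    linarith
  refine h3.trans_le (measure_mono ?_)
  intro ω hω
  have hω' : ∀ n : ℕ, aliveAt natAdj (baseM M ω) 0 n := hω
  show ∀ t : ℝ, 0 ≤ t → aliveAt natAdj (fullM M ω) 0 t
  refine alive_iff_nat.2 fun n => ?_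
  obtain ⟨y, hy⟩ := hω' n
  exact ⟨y, conn_base_full hM.norec hy⟩

end CPM
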