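import Pool.Agent.Lib.MP_1a4724_pr.P02

/-!
# P03 (40 min) : uniqueness in law

Let `E` be the measurable set of `VMeas univ Q`.  The events are the preimages of `E` under
`vcfg univ (M ω)` and `vcfg univ (M' ω)`.  The laws of these two random elements of
`{b // boxOf b ⊆ univ} → Prop` agree : the sets `{c | ∀ b ∈ A, c b}` (`A` finite) form a
pi-system which generates the product sigma-algebra, and their probabilities are
`P (voidFam M A)`, `P' (voidFam M' A)`, equal by the field `void`.
(`MeasureTheory.ext_of_generate_finite`; the maps are measurable by the field `meas`.)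
-/

noncomputable section

open MeasureTheory Set
open scoped ENNReal

namespace CPM

theorem p03_good {Ω J : Type*} [MeasurableSpace Ω] {P : Measure Ω} {M : Ω → J → Set ℝ}
    {rate : J → ℝ} (h : IsPoisson P M rate) (ω : Ω) : Good (M ω) :=
  ⟨fun e a b => h.locFin ω e a b, fun e e' t => h.distinct ω e e' t⟩

theorem p03_meas {Ω J : Type*} [MeasurableSpace Ω] {P : Measure Ω} {M : Ω → J → Set ℝ}
    {rate : J → ℝ} (h : IsPoisson P M rate) :
    Measurable (fun ω => vcfg univ (M ω)) := by
  rw [measurable_pi_iff]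
  intro b
  exact measurableSet_setOfPred.1 (h.meas b.1.1 b.1.2.1 b.1.2.2)

theorem p03_gen {I : Type*} : (MeasurableSpace.pi : MeasurableSpace (I → Prop)) =
    MeasurableSpace.generateFrom {s | ∃ A : Finset I, s = {c : I → Prop | ∀ b ∈ A, c b}} := by
  apply le_antisymm
  · refine iSup_le fun b => ?_
    rw [← measurable_iff_comap_le]
    refine (@measurableSet_setOfPred _ (MeasurableSpace.generateFrom
      {s | ∃ A : Finset I, s = {c : I → Prop | ∀ b ∈ A, c b}}) _).1 ?_
    apply MeasurableSpace.measurableSet_generateFrom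
    exact ⟨{b}, by ext c; simp⟩
  · apply MeasurableSpace.generateFrom_le
    rintro s ⟨A, rfl⟩
    have h : {c : I → Prop | ∀ b ∈ A, c b} = ⋂ b ∈ A, {c : I → Prop | c b} := by
      ext c
      simp
    rw [h]
    apply Finset.measurableSet_biInter
    intro b _
    exact measurableSet_setOfPred.2 (measurable_pi_apply b)

theorem p03_pi {I : Type*} :
    IsPiSystem {s | ∃ A : Finset I, s = {c : I → Prop | ∀ b ∈ A, c b}} := by
  classical
  rintro s ⟨A, rfl⟩ t ⟨B, rfl⟩ _
  refine ⟨A ∪ B, ?_⟩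
  ext c
  simp only [mem_inter_iff, mem_ofPred_eq, Finset.mem_union]
  constructor
  · rintro ⟨h1, h2⟩ b (hb | hb)
    · exact h1 b hb
    · exact h2 b hb
  · intro h
    exact ⟨fun b hb => h b (Or.inl hb), fun b hb => h b (Or.inr hb)⟩

theorem p03_cyl {Ω J : Type*} [MeasurableSpace Ω] {P : Measure Ω} {M : Ω → J → Set ℝ}
    {rate : J → ℝ} (h : IsPoisson P M rate)
    (A : Finset {b : J × ℝ × ℝ // boxOf b ⊆ univ}) :
    P.real ((fun ω => vcfg univ (M ω)) ⁻¹' {c | ∀ b ∈ A, c b}) =
      Real.exp (-∑ᶠ e, rate e * volume.real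
        (slice (A.map (Function.Embedding.subtype _)) e)) := by
  rw [← h.void]
  congr 1
  ext ω
  simp only [mem_preimage, mem_ofPred_eq, voidFam, vcfg, Finset.mem_map,
    Function.Embedding.coe_subtype]
  constructor
  · rintro h1 b ⟨b', hb', rfl⟩
    exact h1 b' hb'
  · intro h1 b hb
    exact h1 b.1 ⟨b, hb, rfl⟩

theorem p03_law {Ω Ω' J : Type*} [MeasurableSpace Ω] [MeasurableSpace Ω'] {P : Measure Ω}
    {P' : Measure Ω'} {M : Ω → J → Set ℝ} {M' : Ω' → J → Set ℝ} {rate : J → ℝ}
    (h : IsPoisson P M rate) (h' : IsPoisson P' M' rate) :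
    P.map (fun ω => vcfg univ (M ω)) = P'.map (fun ω => vcfg univ (M' ω)) := by
  have := h.prob
  have := h'.prob
  have hm := p03_meas h
  have hm' := p03_meas h'
  have hp : IsProbabilityMeasure (P.map (fun ω => vcfg univ (M ω))) :=
    Measure.isProbabilityMeasure_map hm.aemeasurable
  have hp' : IsProbabilityMeasure (P'.map (fun ω => vcfg univ (M' ω))) :=
    Measure.isProbabilityMeasure_map hm'.aemeasurable
  refine ext_of_generate_finite _ p03_gen p03_pi ?_ ?_
  · rintro s ⟨A, rfl⟩
    have hs : MeasurableSet {c : {b : J × ℝ × ℝ // boxOf b ⊆ univ} → Prop | ∀ b ∈ A, c b} := by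
      rw [p03_gen]
      exact MeasurableSpace.measurableSet_generateFrom ⟨A, rfl⟩
    rw [Measure.map_apply hm hs, Measure.map_apply hm' hs]
    have h1 := p03_cyl h A
    rw [← p03_cyl h' A] at h1
    exact (ENNReal.toReal_eq_toReal_iff' (measure_ne_top _ _) (measure_ne_top _ _)).1 h1
  · rw [measure_univ, measure_univ]

theorem transfer {Ω Ω' J : Type*} [MeasurableSpace Ω] [MeasurableSpace Ω'] {P : Measure Ω}
    {P' : Measure Ω'} {M : Ω → J → Set ℝ} {M' : Ω' → J → Set ℝ} {rate : J → ℝ}
    (h : IsPoisson P M rate) (h' : IsPoisson P' M' rate) {Q : (J → Set ℝ) → Prop}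
    (hQ : VMeas univ Q) : P {ω | Q (M ω)} = P' {ω | Q (M' ω)} := by
  obtain ⟨E, hE, hQE⟩ := hQ
  have h1 : {ω | Q (M ω)} = (fun ω => vcfg univ (M ω)) ⁻¹' E := by
    ext ω
    exact hQE (M ω) (p03_good h ω)
  have h2 : {ω | Q (M' ω)} = (fun ω => vcfg univ (M' ω)) ⁻¹' E := by
    ext ω
    exact hQE (M' ω) (p03_good h' ω)
  rw [h1, h2, ← Measure.map_apply (p03_meas h) hE, ← Measure.map_apply (p03_meas h') hE,
    p03_law h h']

theorem transfer_real {Ω Ω' J : Type*} [MeasurableSpace Ω] [MeasurableSpace Ω'] {P : Measure Ω}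
    {P' : Measure Ω'} {M : Ω → J → Set ℝ} {M' : Ω' → J → Set ℝ} {rate : J → ℝ}
    (h : IsPoisson P M rate) (h' : IsPoisson P' M' rate) {Q : (J → Set ℝ) → Prop}
    (hQ : VMeas univ Q) : P.real {ω | Q (M ω)} = P'.real {ω | Q (M' ω)} := by
  unfold Measure.real
  rw [transfer h h' hQ]

end CPM
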