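import Pool.Agent.Lib.MP_1a4724_pr.P01
import Pool.Agent.Lib.MP_1a4724_pr.P03
import Pool.Agent.Lib.MP_1a4724_pr.P04
import Pool.Agent.Lib.MP_1a4724_pr.D05

/-!
# E01 (90 min) : the right edge

`rset m x s t` = set of the sites infected at time `t` when all sites `≤ x` are infected at time
`s` (all of `ℤ`), `redge` its supremum.
Upper barrier : if `y ≥ x` and there is no arrow `(y, y + 1)` in `[s, t]` then `rset ⊆ (-∞, y]`
(a path from a site `≤ y` to a site `> y` uses an arrow `(y, y + 1)` at a time in `[s, t]`).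
The events for `y = x, ..., x + k - 1` are independent with probability `exp (-lam (t - s))`, and
`x + k ≤ y' ∈ rset` excludes all of them : `upper`.
Lower : if `y ≤ x` has no recovery mark in `[s, t]` then `y ∈ rset` : `lower`.
Both : almost surely `rset` is nonempty and bounded above for every `x` (countably many `x`).
`redge_vmeas` : `redge m x s t = y` is a countable boolean combination of connections (`sSup` of a
set of integers: greatest element if the set is nonempty and bounded above, `0` otherwise).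
-/

noncomputable section

open MeasureTheory Set

namespace CPM

def rset (m : ℤ × ℤ → Set ℝ) (x : ℤ) (s t : ℝ) : Set ℤ :=
  {y | ∃ z ≤ x, Conn intAdj m (z, s) (y, t)}

def redge (m : ℤ × ℤ → Set ℝ) (x : ℤ) (s t : ℝ) : ℤ := sSup (rset m x s t)

/-- regular mark configurations for the times `s`, `t` -/
def Reg (m : ℤ × ℤ → Set ℝ) (s t : ℝ) : Prop :=
  ∀ x, (rset m x s t).Nonempty ∧ BddAbove (rset m x s t)

theorem Reg.mem {m : ℤ × ℤ → Set ℝ} {s t : ℝ} (h : Reg m s t) (x : ℤ) :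
    redge m x s t ∈ rset m x s t :=
  Int.csSup_mem (h x).1 (h x).2

theorem Reg.le {m : ℤ × ℤ → Set ℝ} {s t : ℝ} (h : Reg m s t) {x y : ℤ}
    (hy : y ∈ rset m x s t) : y ≤ redge m x s t :=
  le_csSup (h x).2 hy

theorem Reg.mono {m : ℤ × ℤ → Set ℝ} {s t : ℝ} (h : Reg m s t) {x x' : ℤ} (hx : x ≤ x') :
    redge m x s t ≤ redge m x' s t := by
  refine h.le ?_
  obtain ⟨z, hz, hc⟩ := h.mem x
  exact ⟨z, hz.trans hx, hc⟩

/-- subadditivity -/
theorem Reg.sub {m : ℤ × ℤ → Set ℝ} {s t u : ℝ} (hst : s ≤ t) (htu : t ≤ u) (h1 : Reg m s t)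
    (h2 : Reg m t u) (h3 : Reg m s u) (x : ℤ) :
    redge m x s u ≤ redge m (redge m x s t) t u := by
  obtain ⟨z, hz, hc⟩ := h3.mem x
  obtain ⟨w, hw1, hw2⟩ := hc.split hst htu
  exact h2.le ⟨w, h1.le ⟨z, hz, hw1⟩, hw2⟩

variable {Ω : Type*} [MeasurableSpace Ω] {P : Measure Ω} {M : Ω → ℤ × ℤ → Set ℝ} {lam : ℝ}

theorem e01_sSup (S : Set ℤ) (y : ℤ) : sSup S = y ↔
    (((∃ z, z ∈ S) ∧ ∃ b, ∀ z, z ∈ S → z ≤ b) ∧ (y ∈ S ∧ ∀ z, z ∈ S → z ≤ y)) ∨
      (¬ ((∃ z, z ∈ S) ∧ ∃ b, ∀ z, z ∈ S → z ≤ b) ∧ y = 0) := by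
  by_cases h : (∃ z, z ∈ S) ∧ ∃ b, ∀ z, z ∈ S → z ≤ b
  · have h1 : S.Nonempty := h.1
    obtain ⟨b, hb⟩ := h.2
    have h2 : BddAbove S := ⟨b, fun z hz => hb z hz⟩
    have h3 := Int.csSup_mem h1 h2
    constructor
    · rintro rfl
      exact Or.inl ⟨h, h3, fun z hz => le_csSup h2 hz⟩
    · rintro (⟨-, h4, h5⟩ | ⟨h4, -⟩)
      · exact le_antisymm (h5 _ h3) (le_csSup h2 h4)
      · exact absurd h h4
  · have h0 : sSup S = 0 := by
      by_cases h1 : S.Nonempty
      · refine Int.csSup_of_not_bddAbove (fun h2 => h ⟨h1, ?_⟩)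
        obtain ⟨b, hb⟩ := h2
        exact ⟨b, fun z hz => hb hz⟩
      · rw [Set.not_nonempty_iff_eq_empty.1 h1]
        exact Int.csSup_empty
    rw [h0]
    constructor
    · rintro rfl
      exact Or.inr ⟨h, rfl⟩
    · rintro (⟨h4, -⟩ | ⟨-, h4⟩)
      · exact absurd h4 h
      · exact h4.symm

theorem redge_vmeas (x y : ℤ) (s t : ℝ) :
    VMeas {p : (ℤ × ℤ) × ℝ | p.2 ∈ Icc s t} (fun m => redge m x s t = y) := by
  have hmem : ∀ z : ℤ, VMeas {p : (ℤ × ℤ) × ℝ | p.2 ∈ Icc s t} (fun m => z ∈ rset m x s t) := by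
    intro z
    exact VMeas.exists (fun w => (VMeas.const (w ≤ x)).and (conn_vmeas_univ intAdj w z s t))
  have hall : ∀ b : ℤ, VMeas {p : (ℤ × ℤ) × ℝ | p.2 ∈ Icc s t}
      (fun m => ∀ z, z ∈ rset m x s t → z ≤ b) := by
    intro b
    exact VMeas.forall (fun z => (hmem z).imp (VMeas.const (z ≤ b)))
  have hN : VMeas {p : (ℤ × ℤ) × ℝ | p.2 ∈ Icc s t}
      (fun m => (∃ z, z ∈ rset m x s t) ∧ ∃ b, ∀ z, z ∈ rset m x s t → z ≤ b) :=
    (VMeas.exists hmem).and (VMeas.exists hall)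
  refine VMeas.congr (fun m _ => (e01_sSup (rset m x s t) y).symm) ?_
  exact (hN.and ((hmem y).and (hall y))).or (hN.not.and (VMeas.const (y = 0)))

theorem redge_measurable (hP : IsPoisson P M (cRate lam)) (x : ℤ) (s t : ℝ) :
    Measurable fun ω => redge (M ω) x s t := by
  refine measurable_to_countable' (fun y => ?_)
  exact hP.VA_le _ _ ((redge_vmeas x y s t).measurableSet (M := M) hP.good)

theorem e01_barrier {m : ℤ × ℤ → Set ℝ} {s t : ℝ} {y : ℤ} {p q : ℤ × ℝ}
    (h : Conn intAdj m p q) (hp : p.1 ≤ y) (hs : s ≤ p.2) (ht : q.2 ≤ t)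
    (hno : ∀ u ∈ Icc s t, u ∉ m (y, y + 1)) : q.1 ≤ y := by
  unfold Conn at h
  induction h with
  | refl => exact hp
  | tail hb hs' ih =>
    have h1 := Conn.time_le hb
    have h2 := d01_step_le hs'
    have h3 := ih (h2.trans ht)
    cases hs' with
    | wait x a b hab hr => exact h3
    | jump x z u hadj hne hu =>
      have h4 : x ≤ y := h3
      change z ≤ y
      by_contra hzy
      push Not at hzy
      unfold intAdj at hadj
      have hx : x = y := by omega
      have hz : z = y + 1 := by omega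
      subst hx
      subst hz
      exact hno u ⟨hs.trans h1, ht⟩ hu

theorem e01_rset_le {m : ℤ × ℤ → Set ℝ} {s t : ℝ} {x y : ℤ} (hxy : x ≤ y)
    (hno : ∀ u ∈ Icc s t, u ∉ m (y, y + 1)) {z : ℤ} (hz : z ∈ rset m x s t) : z ≤ y := by
  obtain ⟨w, hw, hc⟩ := hz
  exact e01_barrier hc (hw.trans hxy) le_rfl le_rfl hno

theorem e01_mem_rset {m : ℤ × ℤ → Set ℝ} {s t : ℝ} {x y : ℤ} (hst : s ≤ t) (hxy : y ≤ x)
    (hno : ∀ u ∈ Icc s t, u ∉ m (y, y)) : y ∈ rset m x s t :=
  ⟨y, hxy, Conn.stay hst hno⟩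

/-- `k` different types all have a mark -/
theorem e01_prod (hP : IsPoisson P M (cRate lam)) {s t : ℝ} (hst : s ≤ t) (e : ℕ → ℤ × ℤ)
    (he : Function.Injective e) {r : ℝ} (hr : ∀ j, cRate lam (e j) = r) (k : ℕ) :
    P.real {ω | ∀ j < k, ¬ ∀ u ∈ Icc s t, u ∉ M ω (e j)} = (1 - Real.exp (-(r * (t - s)))) ^ k := by
  have := hP.prob
  have hi := hP.iIndep_void (ι := Fin k) (fun j => (e j, s, t)) (fun i j hij h => by
    exfalso
    apply hij
    have : (i : ℕ) = (j : ℕ) := he h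
    exact Fin.ext this)
  have h1 : {ω | ∀ j < k, ¬ ∀ u ∈ Icc s t, u ∉ M ω (e j)} = ⋂ j : Fin k, (voidEv M (e j) s t)ᶜ := by
    ext ω
    simp only [mem_iInter, mem_compl_iff]
    constructor
    · intro h j
      exact h j j.2
    · intro h j hj
      exact h ⟨j, hj⟩
  have h2 : P (⋂ j : Fin k, (voidEv M (e j) s t)ᶜ) = ∏ j : Fin k, P (voidEv M (e j) s t)ᶜ := by
    refine ProbabilityTheory.iIndep.meas_iInter (m := fun j : Fin k =>
      MeasurableSpace.generateFrom {voidEv M (e j) s t}) hi (fun j => ?_)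
    exact MeasurableSet.compl (MeasurableSpace.measurableSet_generateFrom rfl)
  have h3 : ∀ j : Fin k, P.real (voidEv M (e j) s t)ᶜ = 1 - Real.exp (-(r * (t - s))) := by
    intro j
    rw [probReal_compl_eq_one_sub (hP.meas _ _ _), hP.void1 _ _ _ hst, hr]
  rw [h1]
  unfold Measure.real at h3 ⊢
  rw [h2, ENNReal.toReal_prod]
  simp only [h3, Finset.prod_const, Finset.card_univ, Fintype.card_fin]

theorem e01_q {r : ℝ} (hr : 0 ≤ r) : 0 ≤ 1 - Real.exp (-r) ∧ 1 - Real.exp (-r) < 1 := by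
  have h1 : Real.exp (-r) ≤ 1 := Real.exp_le_one_iff.2 (by linarith)
  have h2 := Real.exp_pos (-r)
  constructor <;> linarith

theorem e01_null [IsProbabilityMeasure P] {A : Set Ω} {q : ℝ} (hq0 : 0 ≤ q) (hq1 : q < 1)
    (h : ∀ k : ℕ, P.real A ≤ q ^ k) : P A = 0 := by
  have h1 : P.real A ≤ 0 :=
    ge_of_tendsto' (tendsto_pow_atTop_nhds_zero_of_lt_one hq0 hq1) h
  have h2 : P.real A = 0 := le_antisymm h1 measureReal_nonneg
  rwa [measureReal_eq_zero_iff] at h2

theorem e01_up (hP : IsPoisson P M (cRate lam)) {s t : ℝ} (hst : s ≤ t) (x : ℤ) (k : ℕ) :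
    P.real {ω | ∀ j < k, ¬ ∀ u ∈ Icc s t, u ∉ M ω (x + (j : ℤ), x + (j : ℤ) + 1)} =
      (1 - Real.exp (-(lam * (t - s)))) ^ k := by
  refine e01_prod hP hst (fun j : ℕ => (x + (j : ℤ), x + (j : ℤ) + 1)) ?_ ?_ k
  · intro i j hij
    have := (Prod.mk.inj hij).1
    omega
  · intro j
    unfold cRate
    rw [if_neg]
    simp

theorem e01_down (hP : IsPoisson P M (cRate lam)) {s t : ℝ} (hst : s ≤ t) (x : ℤ) (k : ℕ) :
    P.real {ω | ∀ j < k, ¬ ∀ u ∈ Icc s t, u ∉ M ω (x - (j : ℤ), x - (j : ℤ))} =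
      (1 - Real.exp (-(t - s))) ^ k := by
  have h := e01_prod hP hst (fun j : ℕ => (x - (j : ℤ), x - (j : ℤ))) (r := 1) ?_ ?_ k
  · rw [one_mul] at h
    exact h
  · intro i j hij
    have := (Prod.mk.inj hij).1
    omega
  · intro j
    unfold cRate
    rw [if_pos rfl]

theorem ae_reg (hlam : 0 < lam) (hP : IsPoisson P M (cRate lam)) {s t : ℝ} (hst : s ≤ t) :
    ∀ᵐ ω ∂P, Reg (M ω) s t := by
  have := hP.prob
  unfold Reg
  rw [ae_all_iff]
  intro x
  have hq1 := e01_q (r := lam * (t - s)) (mul_nonneg hlam.le (by linarith))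
  have hq2 := e01_q (r := t - s) (by linarith)
  have hA : P {ω | ¬ BddAbove (rset (M ω) x s t)} = 0 := by
    refine e01_null hq1.1 hq1.2 (fun k => ?_)
    rw [← e01_up hP hst x k]
    refine measureReal_mono (fun ω hω j _ hno => ?_)
    exact hω ⟨x + j, fun z hz => e01_rset_le (by omega) hno hz⟩
  have hB : P {ω | ¬ (rset (M ω) x s t).Nonempty} = 0 := by
    refine e01_null hq2.1 hq2.2 (fun k => ?_)
    rw [← e01_down hP hst x k]
    refine measureReal_mono (fun ω hω j _ hno => ?_)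
    exact hω ⟨x - j, e01_mem_rset hst (by omega) hno⟩
  have hA' : ∀ᵐ ω ∂P, BddAbove (rset (M ω) x s t) := hA
  have hB' : ∀ᵐ ω ∂P, (rset (M ω) x s t).Nonempty := hB
  filter_upwards [hA', hB'] with ω h1 h2
  exact ⟨h2, h1⟩

theorem redge_upper (hlam : 0 < lam) (hP : IsPoisson P M (cRate lam)) {s t : ℝ} (hst : s ≤ t)
    (x : ℤ) (k : ℕ) :
    P.real {ω | x + k ≤ redge (M ω) x s t} ≤ (1 - Real.exp (-(lam * (t - s)))) ^ k := by
  have := hP.prob
  rw [← e01_up hP hst x k]
  unfold Measure.real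
  refine ENNReal.toReal_mono (measure_ne_top _ _) (measure_mono_ae ?_)
  filter_upwards [ae_reg hlam hP hst] with ω hω
  intro h1 j hj hno
  have h2 := e01_rset_le (by omega) hno (hω.mem x)
  have h3 : x + (k : ℤ) ≤ redge (M ω) x s t := h1
  omega

theorem redge_lower (hlam : 0 < lam) (hP : IsPoisson P M (cRate lam)) {s t : ℝ} (hst : s ≤ t)
    (x : ℤ) (k : ℕ) :
    P.real {ω | redge (M ω) x s t ≤ x - k} ≤ (1 - Real.exp (-(t - s))) ^ k := by
  have := hP.prob
  rw [← e01_down hP hst x k]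
  unfold Measure.real
  refine ENNReal.toReal_mono (measure_ne_top _ _) (measure_mono_ae ?_)
  filter_upwards [ae_reg hlam hP hst] with ω hω
  intro h1 j hj hno
  have h2 := hω.le (e01_mem_rset (x := x) (y := x - j) hst (by omega) hno)
  have h3 : redge (M ω) x s t ≤ x - (k : ℤ) := h1
  omega

/-- translation invariance in space and time -/
theorem redge_law (hlam : 0 < lam) (hP : IsPoisson P M (cRate lam)) (x y : ℤ) {s t : ℝ}
    (hst : s ≤ t) (τ : ℝ) :
    P.real {ω | redge (M ω) x s t - x = y} =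
      P.real {ω | redge (M ω) 0 (s + τ) (t + τ) = y} := by
  have := hP.prob
  have hv : VMeas univ (fun m : ℤ × ℤ → Set ℝ => redge m 0 s t = y) :=
    (redge_vmeas 0 y s t).mono (subset_univ _)
  have hinj : Function.Injective (fun z : ℤ => z + x) := fun a b hab => by simpa using hab
  -- the shifted marks
  have h1 : ∀ ω, redge (shiftT τ (M ω)) 0 s t = redge (M ω) 0 (s + τ) (t + τ) := by
    intro ω
    unfold redge
    congr 1
    ext z
    unfold rset
    constructor
    · rintro ⟨w, hw, hc⟩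
      refine ⟨w, hw, ?_⟩
      have := (Conn.shift τ).1 hc
      rwa [add_comm τ s, add_comm τ t] at this
    · rintro ⟨w, hw, hc⟩
      refine ⟨w, hw, (Conn.shift τ).2 ?_⟩
      rwa [add_comm τ s, add_comm τ t]
  -- the translated marks
  have h2 : ∀ᵐ ω ∂P, redge (pull (fun z : ℤ => z + x) (M ω)) 0 s t = redge (M ω) x s t - x := by
    filter_upwards [ae_reg hlam hP hst, ae_reg hlam (hP.pull hinj) hst] with ω hω hω'
    have key : ∀ z, z ∈ rset (pull (fun z : ℤ => z + x) (M ω)) 0 s t ↔ z + x ∈ rset (M ω) x s t := by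
      intro z
      unfold rset
      constructor
      · rintro ⟨w, hw, hc⟩
        refine ⟨w + x, by omega, ?_⟩
        rw [← conn_univ] at hc
        have := (conn_translate univ x w z).1 hc
        exact this.of_on
      · rintro ⟨w, hw, hc⟩
        refine ⟨w - x, by omega, ?_⟩
        rw [← conn_univ]
        refine (conn_translate univ x (w - x) z).2 ?_
        rw [sub_add_cancel]
        exact hc.mono (fun a b hab => ⟨hab, mem_univ _, mem_univ _⟩)
    apply le_antisymm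
    · have := hω.le ((key _).1 (hω'.mem 0))
      omega
    · refine hω'.le ((key _).2 ?_)
      rw [sub_add_cancel]
      exact hω.mem x
  have h3 : P.real {ω | redge (M ω) x s t - x = y} =
      P.real {ω | redge (pull (fun z : ℤ => z + x) (M ω)) 0 s t = y} := by
    refine measureReal_congr ?_
    filter_upwards [h2] with ω hω
    apply propext
    change redge (M ω) x s t - x = y ↔ redge (pull (fun z : ℤ => z + x) (M ω)) 0 s t = y
    rw [hω]
  have h4 : {ω | redge (M ω) 0 (s + τ) (t + τ) = y} = {ω | redge (shiftT τ (M ω)) 0 s t = y} := by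
    ext ω
    change redge (M ω) 0 (s + τ) (t + τ) = y ↔ redge (shiftT τ (M ω)) 0 s t = y
    rw [h1]
  rw [h3, h4]
  exact transfer_real (hP.pull hinj) (hP.shiftT τ) hv

/-- the law of the edge is the same for all families of marks of the same rate -/
theorem redge_transfer {Ω' : Type*} [MeasurableSpace Ω'] {P' : Measure Ω'}
    {M' : Ω' → ℤ × ℤ → Set ℝ} (hP : IsPoisson P M (cRate lam)) (hP' : IsPoisson P' M' (cRate lam))
    (x y : ℤ) (s t : ℝ) :
    P.real {ω | redge (M ω) x s t = y} = P'.real {ω | redge (M' ω) x s t = y} :=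
  transfer_real hP hP' ((redge_vmeas x y s t).mono (subset_univ _))

end CPM
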