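import Pool.Agent.Lib.MP_1a4724_pr.E01

/-!
# E02 (90 min) : moments of the right edge, subadditivity in the mean

`rn ω n = redge (M ω) 0 0 n`.
`integrable` : from the geometric tails `redge_upper`, `redge_lower`.
`exp_one` : `E exp (θ r_1) < ∞` for `0 ≤ θ < th1 lam = - log (1 - exp (-lam))`, by `redge_upper`.
`exp_mul` (in `ENNReal`) : for `θ ≥ 0`,
`E exp (θ r_{m+n}) ≤ Σ_x P (r_m = x) exp (θ x) E exp (θ (redge x m (m+n) - x))
 = E exp (θ r_m) E exp (θ r_n)` : `Reg.sub`, independence of the marks before and after time `m`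
(`IsPoisson.mul`, `redge_vmeas`) and `redge_law`.
`mean_sub` : in the same way `E r_{m+n} ≤ E r_m + E r_n`.
`mean_translate` : `E (redge x s t) = x + E r_{t-s}` for integers `s ≤ t`.
-/

noncomputable section

open MeasureTheory Set
open scoped ENNReal

namespace CPM

variable {Ω : Type*} [MeasurableSpace Ω] {P : Measure Ω} {M : Ω → ℤ × ℤ → Set ℝ} {lam : ℝ}

/-- the right edge at time `n` started from `(-∞, 0]` at time `0` -/
def rn (M : Ω → ℤ × ℤ → Set ℝ) (n : ℕ) (ω : Ω) : ℤ := redge (M ω) 0 0 n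

def th1 (lam : ℝ) : ℝ := - Real.log (1 - Real.exp (-lam))

theorem th1_pos (hlam : 0 < lam) : 0 < th1 lam := by
  unfold th1
  have h1 : Real.exp (-lam) < 1 := by
    rw [Real.exp_lt_one_iff]; linarith
  have h2 : 0 < Real.exp (-lam) := Real.exp_pos _
  have := Real.log_neg (x := 1 - Real.exp (-lam)) (by linarith) (by linarith)
  linarith

/-- geometric upper tails give exponential moments -/
theorem e02_exp (hP : IsProbabilityMeasure P) {X : Ω → ℤ} (hX : Measurable X) {q θ : ℝ}
    (hq0 : 0 ≤ q) (hθ : 0 ≤ θ) (hq : ∀ k : ℕ, P.real {ω | (k : ℤ) ≤ X ω} ≤ q ^ k)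
    (h1 : Real.exp θ * q < 1) :
    ∫⁻ ω, ENNReal.ofReal (Real.exp (θ * X ω)) ∂P < ∞ := by
  have hmeas : ∀ k : ℕ, MeasurableSet {ω | (k : ℤ) ≤ X ω} := fun k =>
    hX measurableSet_Ici
  have hpt : ∀ ω, ENNReal.ofReal (Real.exp (θ * X ω)) ≤
      1 + ∑' k : ℕ, ({ω | (k : ℤ) ≤ X ω}.indicator
        (fun _ => ENNReal.ofReal (Real.exp (θ * k)))) ω := by
    intro ω
    by_cases h : X ω < 0
    · refine le_trans ?_ le_self_add
      rw [← ENNReal.ofReal_one]
      apply ENNReal.ofReal_le_ofReal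
      rw [Real.exp_le_one_iff]
      have : (X ω : ℝ) < 0 := by exact_mod_cast h
      nlinarith
    · push Not at h
      obtain ⟨k, hk⟩ := Int.eq_ofNat_of_zero_le h
      refine le_trans ?_ le_add_self
      refine le_trans ?_ (ENNReal.le_tsum k)
      rw [indicator_of_mem (by simp [hk])]
      rw [hk]; simp
  calc ∫⁻ ω, ENNReal.ofReal (Real.exp (θ * X ω)) ∂P
      ≤ ∫⁻ ω, (1 + ∑' k : ℕ, ({ω | (k : ℤ) ≤ X ω}.indicator
        (fun _ => ENNReal.ofReal (Real.exp (θ * k)))) ω) ∂P := lintegral_mono hpt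
    _ = 1 + ∑' k : ℕ, ENNReal.ofReal (Real.exp (θ * k)) * P {ω | (k : ℤ) ≤ X ω} := by
      rw [lintegral_add_left measurable_const, lintegral_tsum]
      · simp only [lintegral_const, measure_univ, one_mul]
        congr 1
        apply tsum_congr
        intro k
        rw [lintegral_indicator (hmeas k)]
        simp
      · intro k
        exact (measurable_const.indicator (hmeas k)).aemeasurable
    _ ≤ 1 + ∑' k : ℕ, ENNReal.ofReal ((Real.exp θ * q) ^ k) := by
      gcongr with k
      rw [← ofReal_measureReal, ← ENNReal.ofReal_mul (Real.exp_pos _).le]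
      apply ENNReal.ofReal_le_ofReal
      rw [mul_pow, ← Real.exp_nat_mul, mul_comm (k : ℝ) θ]
      exact mul_le_mul_of_nonneg_left (hq k) (Real.exp_pos _).le
    _ < ∞ := by
      have h0 : 0 ≤ Real.exp θ * q := mul_nonneg (Real.exp_pos _).le hq0
      rw [← ENNReal.ofReal_tsum_of_nonneg (fun n => pow_nonneg h0 n)
        (summable_geometric_of_lt_one h0 h1)]
      exact ENNReal.add_lt_top.2 ⟨ENNReal.one_lt_top, ENNReal.ofReal_lt_top⟩

theorem e02_integrable_exp {X : Ω → ℤ} (hX : Measurable X) {θ : ℝ}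
    (h : ∫⁻ ω, ENNReal.ofReal (Real.exp (θ * X ω)) ∂P < ∞) :
    Integrable (fun ω => Real.exp (θ * X ω)) P := by
  have hm : Measurable (fun ω => Real.exp (θ * X ω)) := by
    have : Measurable (fun ω => (X ω : ℝ)) := (measurable_of_countable (fun z : ℤ => (z : ℝ))).comp hX
    exact (this.const_mul θ).exp
  refine ⟨hm.aestronglyMeasurable, ?_⟩
  rw [hasFiniteIntegral_iff_ofReal (Filter.Eventually.of_forall fun ω => (Real.exp_pos _).le)]
  exact h

theorem redge_integrable (hlam : 0 < lam) (hP : IsPoisson P M (cRate lam)) (x : ℤ) {s t : ℝ}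
    (hst : s ≤ t) : Integrable (fun ω => (redge (M ω) x s t : ℝ)) P := by
  have hprob := hP.prob
  have hm := redge_measurable hP x s t
  -- common ratio
  set q : ℝ := max (1 - Real.exp (-(lam * (t - s)))) (1 - Real.exp (-(t - s))) with hq
  have hq0 : 0 ≤ q := by
    refine le_trans ?_ (le_max_right _ _)
    have : Real.exp (-(t - s)) ≤ 1 := by rw [Real.exp_le_one_iff]; linarith
    linarith
  have hq1 : q < 1 := by
    apply max_lt
    · have := Real.exp_pos (-(lam * (t - s))); linarith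
    · have := Real.exp_pos (-(t - s)); linarith
  obtain ⟨θ, hθ, hθq⟩ : ∃ θ : ℝ, 0 < θ ∧ Real.exp θ * q < 1 := by
    rcases hq0.eq_or_lt with h | h
    · exact ⟨1, one_pos, by rw [← h]; simp⟩
    · refine ⟨-Real.log q / 2, ?_, ?_⟩
      · have := Real.log_neg h hq1; linarith
      · have h3 : Real.exp (-Real.log q / 2) < Real.exp (-Real.log q) := by
          rw [Real.exp_lt_exp]
          have := Real.log_neg h hq1; linarith
        calc Real.exp (-Real.log q / 2) * q < Real.exp (-Real.log q) * q :=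
              mul_lt_mul_of_pos_right h3 h
          _ = 1 := by rw [Real.exp_neg, Real.exp_log h]; field_simp
  have hup : ∫⁻ ω, ENNReal.ofReal (Real.exp (θ * ((redge (M ω) x s t - x : ℤ) : ℝ))) ∂P < ∞ := by
    apply e02_exp hprob (X := fun ω => redge (M ω) x s t - x) (q := q)
      (hm.sub measurable_const) hq0 hθ.le _ hθq
    intro k
    have h2 := redge_upper hlam hP hst x k
    have h3 : {ω | (k : ℤ) ≤ redge (M ω) x s t - x} = {ω | x + k ≤ redge (M ω) x s t} := by
      ext ω; simp only [mem_ofPred_eq]; omega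
    rw [h3]
    refine h2.trans (pow_le_pow_left₀ ?_ (le_max_left _ _) k)
    have : Real.exp (-(lam * (t - s))) ≤ 1 := by
      rw [Real.exp_le_one_iff]
      have := mul_nonneg hlam.le (sub_nonneg.2 hst); linarith
    linarith
  have hlow : ∫⁻ ω, ENNReal.ofReal (Real.exp (θ * ((x - redge (M ω) x s t : ℤ) : ℝ))) ∂P < ∞ := by
    apply e02_exp hprob (X := fun ω => x - redge (M ω) x s t) (q := q)
      (measurable_const.sub hm) hq0 hθ.le _ hθq
    intro k
    have h2 := redge_lower hlam hP hst x k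
    have h3 : {ω | (k : ℤ) ≤ x - redge (M ω) x s t} = {ω | redge (M ω) x s t ≤ x - k} := by
      ext ω; simp only [mem_ofPred_eq]; omega
    rw [h3]
    refine h2.trans (pow_le_pow_left₀ ?_ (le_max_right _ _) k)
    have : Real.exp (-(t - s)) ≤ 1 := by rw [Real.exp_le_one_iff]; linarith
    linarith
  have hI1 := e02_integrable_exp (hm.sub measurable_const) hup
  have hI2 := e02_integrable_exp (measurable_const.sub hm) hlow
  have hI : Integrable (fun ω => |(x : ℝ)| + θ⁻¹ * (Real.exp (θ * ((redge (M ω) x s t - x : ℤ) : ℝ)) +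
      Real.exp (θ * ((x - redge (M ω) x s t : ℤ) : ℝ)))) P :=
    (integrable_const _).add ((hI1.add hI2).const_mul _)
  refine hI.mono' ((measurable_of_countable (fun z : ℤ => (z : ℝ))).comp hm).aestronglyMeasurable ?_
  refine Filter.Eventually.of_forall fun ω => ?_
  rw [Real.norm_eq_abs]
  set y : ℝ := (redge (M ω) x s t : ℝ) with hy
  have h4 : |y| ≤ |(x : ℝ)| + |y - x| := by
    have := abs_add_le (x : ℝ) (y - x)
    rwa [add_sub_cancel] at this
  have h5 : θ * |y - x| ≤ Real.exp (θ * (y - x)) + Real.exp (θ * (x - y)) := by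
    rcases le_total 0 (y - x) with h | h
    · rw [abs_of_nonneg h]
      have := Real.add_one_le_exp (θ * (y - x))
      have := Real.exp_pos (θ * (x - y))
      linarith
    · rw [abs_of_nonpos h]
      have := Real.add_one_le_exp (θ * (x - y))
      have := Real.exp_pos (θ * (y - x))
      have h6 : θ * -(y - x) = θ * (x - y) := by ring
      rw [h6]
      linarith
  have h6 : |y - x| ≤ θ⁻¹ * (Real.exp (θ * (y - x)) + Real.exp (θ * (x - y))) := by
    rw [inv_mul_eq_div, le_div_iff₀ hθ]; linarith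
  push_cast
  linarith

theorem exp_one (hlam : 0 < lam) (hP : IsPoisson P M (cRate lam)) {θ : ℝ} (h0 : 0 ≤ θ)
    (h1 : θ < th1 lam) : ∫⁻ ω, ENNReal.ofReal (Real.exp (θ * rn M 1 ω)) ∂P < ∞ := by
  have he : Real.exp (-lam) < 1 := by
    rw [Real.exp_lt_one_iff]; linarith
  have hq0 : 0 < 1 - Real.exp (-lam) := by linarith
  apply e02_exp hP.prob (X := rn M 1) (q := 1 - Real.exp (-lam)) (redge_measurable hP 0 0 _)
    hq0.le h0
  · intro k
    have h2 := redge_upper hlam hP (s := 0) (t := ((1 : ℕ) : ℝ)) (by simp) 0 k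
    simp only [zero_add, Nat.cast_one, sub_zero, mul_one] at h2
    simpa [rn] using h2
  · unfold th1 at h1
    calc Real.exp θ * (1 - Real.exp (-lam))
        < Real.exp (- Real.log (1 - Real.exp (-lam))) * (1 - Real.exp (-lam)) :=
          mul_lt_mul_of_pos_right (Real.exp_lt_exp.2 h1) hq0
      _ = 1 := by rw [Real.exp_neg, Real.exp_log hq0]; field_simp

/-- the increment after time `m` -/
def e02_D (M : Ω → ℤ × ℤ → Set ℝ) (m n : ℕ) (ω : Ω) : ℤ :=
  redge (M ω) (rn M m ω) m (m + n) - rn M m ω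

theorem e02_rn_meas (hP : IsPoisson P M (cRate lam)) (n : ℕ) : Measurable (rn M n) :=
  redge_measurable hP 0 0 _

theorem e02_D_meas (hP : IsPoisson P M (cRate lam)) (m n : ℕ) : Measurable (e02_D M m n) := by
  have h : Measurable (fun ω => redge (M ω) (rn M m ω) m (m + n)) := by
    apply measurable_to_countable'
    intro y
    have : (fun ω => redge (M ω) (rn M m ω) m (m + n)) ⁻¹' {y} =
        ⋃ x : ℤ, ({ω | rn M m ω = x} ∩ {ω | redge (M ω) x m (m + n) = y}) := by
      ext ω
      simp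
    rw [this]
    refine MeasurableSet.iUnion fun x => ?_
    exact (e02_rn_meas hP m (measurableSet_singleton x)).inter
      (redge_measurable hP x _ _ (measurableSet_singleton y))
  exact h.sub (e02_rn_meas hP m)

/-- translation invariance in the form needed here -/
theorem e02_law (hlam : 0 < lam) (hP : IsPoisson P M (cRate lam)) (x y : ℤ) (k n : ℕ) :
    P.real {ω | redge (M ω) x k (k + n) - x = y} = P.real {ω | rn M n ω = y} := by
  have hkn : (k : ℝ) ≤ k + n := by
    have : (0 : ℝ) ≤ n := Nat.cast_nonneg n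
    linarith
  rw [redge_law hlam hP x y hkn (-k)]
  simp [rn]

/-- the increments before and after time `m` are independent -/
theorem e02_joint (hlam : 0 < lam) (hP : IsPoisson P M (cRate lam)) (m n : ℕ) :
    Measure.map (fun ω => (rn M m ω, e02_D M m n ω)) P =
      (Measure.map (rn M m) P).prod (Measure.map (rn M n) P) := by
  have hprob := hP.prob
  have hm1 := e02_rn_meas hP m
  have hm2 := e02_D_meas hP m n
  have hm3 := e02_rn_meas hP n
  have : IsProbabilityMeasure (Measure.map (rn M m) P) := Measure.isProbabilityMeasure_map hm1.aemeasurable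
  have : IsProbabilityMeasure (Measure.map (rn M n) P) := Measure.isProbabilityMeasure_map hm3.aemeasurable
  apply Measure.ext_of_singleton
  rintro ⟨x, y⟩
  rw [Measure.map_apply (hm1.prodMk hm2) (measurableSet_singleton _)]
  rw [← singleton_prod_singleton, Measure.prod_prod,
    Measure.map_apply hm1 (measurableSet_singleton _),
    Measure.map_apply hm3 (measurableSet_singleton _)]
  have h1 : (fun ω => (rn M m ω, e02_D M m n ω)) ⁻¹' ({x} ×ˢ {y}) =
      {ω | redge (M ω) 0 0 m = x} ∩ {ω | redge (M ω) x m (m + n) = x + y} := by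
    ext ω
    simp only [mem_preimage, mem_prod, mem_singleton_iff, mem_inter_iff, mem_ofPred_eq, rn, e02_D]
    constructor
    · rintro ⟨h1, h2⟩
      rw [h1] at h2
      exact ⟨h1, by omega⟩
    · rintro ⟨h1, h2⟩
      rw [h1, h2]
      exact ⟨rfl, by omega⟩
  rw [h1]
  have h2 := hP.mul {p : (ℤ × ℤ) × ℝ | p.2 ∈ Icc (0 : ℝ) m}
    {p : (ℤ × ℤ) × ℝ | p.2 ∈ Icc (m : ℝ) (m + n)} ?_
    ((redge_vmeas 0 x 0 m).measurableSet hP.good)
    ((redge_vmeas x (x + y) m (m + n)).measurableSet hP.good)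
  · have h3 : P.real {ω | redge (M ω) x m (m + n) = x + y} = P.real {ω | rn M n ω = y} := by
      rw [← e02_law hlam hP x y m n]
      congr 1
      ext ω
      simp only [mem_ofPred_eq]
      omega
    rw [h3] at h2
    have h4 : ∀ s : Set Ω, P s = ENNReal.ofReal (P.real s) := fun s => (ofReal_measureReal).symm
    rw [h4, h2, ENNReal.ofReal_mul measureReal_nonneg, ← h4, ← h4]
    rfl
  · intro e
    have : {t : ℝ | (e, t) ∈ {p : (ℤ × ℤ) × ℝ | p.2 ∈ Icc (0 : ℝ) m} ∧
        (e, t) ∈ {p : (ℤ × ℤ) × ℝ | p.2 ∈ Icc (m : ℝ) (m + n)}} ⊆ {(m : ℝ)} := by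
      rintro t ⟨h1, h2⟩
      simp only [mem_ofPred_eq, mem_Icc] at h1 h2
      exact le_antisymm h1.2 h2.1
    exact measure_mono_null this Real.volume_singleton

theorem e02_sub (hlam : 0 < lam) (hP : IsPoisson P M (cRate lam)) (m n : ℕ) :
    ∀ᵐ ω ∂P, rn M (m + n) ω ≤ rn M m ω + e02_D M m n ω := by
  have hm0 : (0 : ℝ) ≤ m := Nat.cast_nonneg m
  have hn0 : (0 : ℝ) ≤ n := Nat.cast_nonneg n
  filter_upwards [ae_reg hlam hP hm0, ae_reg hlam hP (s := m) (t := m + n) (by linarith),
    ae_reg hlam hP (s := 0) (t := m + n) (by linarith)] with ω h1 h2 h3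
  have := Reg.sub hm0 (by linarith) h1 h2 h3 0
  simp only [rn, e02_D, Nat.cast_add]
  linarith

theorem exp_mul (hlam : 0 < lam) (hP : IsPoisson P M (cRate lam)) {θ : ℝ} (h0 : 0 ≤ θ)
    (m n : ℕ) : ∫⁻ ω, ENNReal.ofReal (Real.exp (θ * rn M (m + n) ω)) ∂P ≤
      (∫⁻ ω, ENNReal.ofReal (Real.exp (θ * rn M m ω)) ∂P) *
        ∫⁻ ω, ENNReal.ofReal (Real.exp (θ * rn M n ω)) ∂P := by
  have hprob := hP.prob
  have hm1 := e02_rn_meas hP m
  have hm2 := e02_D_meas hP m n
  have hm3 := e02_rn_meas hP n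
  have : IsProbabilityMeasure (Measure.map (rn M m) P) := Measure.isProbabilityMeasure_map hm1.aemeasurable
  have : IsProbabilityMeasure (Measure.map (rn M n) P) := Measure.isProbabilityMeasure_map hm3.aemeasurable
  have hf : Measurable (fun z : ℤ => ENNReal.ofReal (Real.exp (θ * z))) := measurable_of_countable _
  calc ∫⁻ ω, ENNReal.ofReal (Real.exp (θ * rn M (m + n) ω)) ∂P
      ≤ ∫⁻ ω, ENNReal.ofReal (Real.exp (θ * rn M m ω)) *
          ENNReal.ofReal (Real.exp (θ * e02_D M m n ω)) ∂P := by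
        apply lintegral_mono_ae
        filter_upwards [e02_sub hlam hP m n] with ω h
        rw [← ENNReal.ofReal_mul (Real.exp_pos _).le, ← Real.exp_add, ← mul_add]
        apply ENNReal.ofReal_le_ofReal
        rw [Real.exp_le_exp]
        apply mul_le_mul_of_nonneg_left _ h0
        exact_mod_cast h
    _ = ∫⁻ z : ℤ × ℤ, ENNReal.ofReal (Real.exp (θ * z.1)) * ENNReal.ofReal (Real.exp (θ * z.2))
          ∂(Measure.map (fun ω => (rn M m ω, e02_D M m n ω)) P) := by
        exact (lintegral_map (f := fun z : ℤ × ℤ => ENNReal.ofReal (Real.exp (θ * z.1)) *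
          ENNReal.ofReal (Real.exp (θ * z.2)))
          ((hf.comp measurable_fst).mul (hf.comp measurable_snd)) (hm1.prodMk hm2)).symm
    _ = (∫⁻ ω, ENNReal.ofReal (Real.exp (θ * rn M m ω)) ∂P) *
        ∫⁻ ω, ENNReal.ofReal (Real.exp (θ * rn M n ω)) ∂P := by
        rw [e02_joint hlam hP, lintegral_prod_mul hf.aemeasurable hf.aemeasurable,
          lintegral_map hf hm1, lintegral_map hf hm3]

theorem exp_lt_top (hlam : 0 < lam) (hP : IsPoisson P M (cRate lam)) {θ : ℝ} (h0 : 0 ≤ θ)
    (h1 : θ < th1 lam) (n : ℕ) :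
    ∫⁻ ω, ENNReal.ofReal (Real.exp (θ * rn M n ω)) ∂P < ∞ := by
  have hprob := hP.prob
  induction n with
  | zero =>
    -- `r_0 ≤ 0` almost surely
    have h2 : ∀ᵐ ω ∂P, rn M 0 ω ≤ 0 := by
      have h3 := redge_upper hlam hP (s := 0) (t := 0) le_rfl 0 1
      simp only [sub_zero, mul_zero, neg_zero, Real.exp_zero, sub_self, pow_one] at h3
      have h4 : P {ω | (0 : ℤ) + (1 : ℕ) ≤ redge (M ω) 0 0 0} = 0 := by
        have h5 : P.real {ω | (0 : ℤ) + (1 : ℕ) ≤ redge (M ω) 0 0 0} = 0 :=
          le_antisymm h3 measureReal_nonneg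
        rwa [measureReal_eq_zero_iff] at h5
      rw [ae_iff]
      refine measure_mono_null ?_ h4
      intro ω hω
      simp only [mem_ofPred_eq, rn, Nat.cast_zero, not_le] at hω ⊢
      push_cast
      omega
    calc ∫⁻ ω, ENNReal.ofReal (Real.exp (θ * rn M 0 ω)) ∂P ≤ ∫⁻ _, 1 ∂P := by
          apply lintegral_mono_ae
          filter_upwards [h2] with ω h
          rw [← ENNReal.ofReal_one]
          apply ENNReal.ofReal_le_ofReal
          rw [Real.exp_le_one_iff]
          have : (rn M 0 ω : ℝ) ≤ 0 := by exact_mod_cast h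
          exact mul_nonpos_of_nonneg_of_nonpos h0 this
      _ < ∞ := by simp
  | succ n ih =>
    exact (exp_mul hlam hP h0 n 1).trans_lt (ENNReal.mul_lt_top ih (exp_one hlam hP h0 h1))

theorem e02_rn_int (hlam : 0 < lam) (hP : IsPoisson P M (cRate lam)) (n : ℕ) :
    Integrable (fun ω => (rn M n ω : ℝ)) P :=
  redge_integrable hlam hP 0 (Nat.cast_nonneg n)

theorem e02_map_D (hlam : 0 < lam) (hP : IsPoisson P M (cRate lam)) (m n : ℕ) :
    Measure.map (e02_D M m n) P = Measure.map (rn M n) P := by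
  have hprob := hP.prob
  have hm1 := e02_rn_meas hP m
  have hm2 := e02_D_meas hP m n
  have hm3 := e02_rn_meas hP n
  have : IsProbabilityMeasure (Measure.map (rn M m) P) := Measure.isProbabilityMeasure_map hm1.aemeasurable
  have : IsProbabilityMeasure (Measure.map (rn M n) P) := Measure.isProbabilityMeasure_map hm3.aemeasurable
  have h1 := congrArg (Measure.map Prod.snd) (e02_joint hlam hP m n)
  rw [Measure.map_map measurable_snd (hm1.prodMk hm2), Measure.map_snd_prod] at h1
  simpa [Function.comp_def] using h1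

theorem mean_sub (hlam : 0 < lam) (hP : IsPoisson P M (cRate lam)) (m n : ℕ) :
    ∫ ω, (rn M (m + n) ω : ℝ) ∂P ≤ (∫ ω, (rn M m ω : ℝ) ∂P) + ∫ ω, (rn M n ω : ℝ) ∂P := by
  have hprob := hP.prob
  have hm2 := e02_D_meas hP m n
  have hm3 := e02_rn_meas hP n
  have hc : Measurable (fun z : ℤ => (z : ℝ)) := measurable_of_countable _
  have hD : Integrable (fun ω => (e02_D M m n ω : ℝ)) P := by
    have h1 : Integrable (fun z : ℤ => (z : ℝ)) (Measure.map (rn M n) P) := by
      rw [integrable_map_measure hc.aestronglyMeasurable hm3.aemeasurable]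
      exact e02_rn_int hlam hP n
    rw [← e02_map_D hlam hP m n, integrable_map_measure hc.aestronglyMeasurable hm2.aemeasurable]
      at h1
    exact h1
  have hDeq : ∫ ω, (e02_D M m n ω : ℝ) ∂P = ∫ ω, (rn M n ω : ℝ) ∂P := by
    rw [← integral_map (f := fun z : ℤ => (z : ℝ)) hm2.aemeasurable hc.aestronglyMeasurable,
      e02_map_D hlam hP m n,
      integral_map (f := fun z : ℤ => (z : ℝ)) hm3.aemeasurable hc.aestronglyMeasurable]
  rw [← hDeq, ← integral_add (e02_rn_int hlam hP m) hD]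
  apply integral_mono_ae (e02_rn_int hlam hP (m + n)) ((e02_rn_int hlam hP m).add hD)
  filter_upwards [e02_sub hlam hP m n] with ω h
  simp only [Pi.add_apply]
  exact_mod_cast h

theorem e02_map_eq {Ω' : Type*} [MeasurableSpace Ω'] {P' : Measure Ω'}
    (hP : IsProbabilityMeasure P) (hP' : IsProbabilityMeasure P') {X : Ω → ℤ} {Y : Ω' → ℤ}
    (hX : Measurable X) (hY : Measurable Y)
    (h : ∀ y, P.real {ω | X ω = y} = P'.real {ω | Y ω = y}) :
    ∫ ω, (X ω : ℝ) ∂P = ∫ ω, (Y ω : ℝ) ∂P' := by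
  have hc : Measurable (fun z : ℤ => (z : ℝ)) := measurable_of_countable _
  have h1 : Measure.map X P = Measure.map Y P' := by
    apply Measure.ext_of_singleton
    intro y
    rw [Measure.map_apply hX (measurableSet_singleton _),
      Measure.map_apply hY (measurableSet_singleton _)]
    have h2 := h y
    have h3 : X ⁻¹' {y} = {ω | X ω = y} := rfl
    have h4 : Y ⁻¹' {y} = {ω | Y ω = y} := rfl
    rw [h3, h4, ← ofReal_measureReal (μ := P), h2, ofReal_measureReal]
  rw [← integral_map (f := fun z : ℤ => (z : ℝ)) hX.aemeasurable hc.aestronglyMeasurable, h1,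
    integral_map (f := fun z : ℤ => (z : ℝ)) hY.aemeasurable hc.aestronglyMeasurable]

theorem mean_translate (hlam : 0 < lam) (hP : IsPoisson P M (cRate lam)) (x : ℤ) (k n : ℕ) :
    ∫ ω, (redge (M ω) x k (k + n) : ℝ) ∂P = x + ∫ ω, (rn M n ω : ℝ) ∂P := by
  have hprob := hP.prob
  have h1 := e02_map_eq hprob hprob (X := fun ω => redge (M ω) x k (k + n) - x) (Y := rn M n)
    ((redge_measurable hP x _ _).sub measurable_const) (e02_rn_meas hP n)
    (fun y => e02_law hlam hP x y k n)
  rw [← h1]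
  have h2 : Integrable (fun ω => (redge (M ω) x k (k + n) : ℝ)) P :=
    redge_integrable hlam hP x (by have : (0 : ℝ) ≤ n := Nat.cast_nonneg n; linarith)
  push_cast
  rw [integral_sub h2 (integrable_const _)]
  simp

theorem mean_transfer {Ω' : Type*} [MeasurableSpace Ω'] {P' : Measure Ω'}
    {M' : Ω' → ℤ × ℤ → Set ℝ} (hlam : 0 < lam) (hP : IsPoisson P M (cRate lam))
    (hP' : IsPoisson P' M' (cRate lam)) (n : ℕ) :
    ∫ ω, (rn M n ω : ℝ) ∂P = ∫ ω, (rn M' n ω : ℝ) ∂P' := by
  exact e02_map_eq hP.prob hP'.prob (e02_rn_meas hP n) (e02_rn_meas hP' n)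
    (fun y => redge_transfer hP hP' 0 y 0 n)

end CPM
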