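import Pool.Agent.Lib.MP_1a4724_pr.E02

/-!
# E03 (75 min) : exponential upper bound

`chernoff` : pure probability.  `X` integrable with `E X < 0` and `E exp (θ₁ X) < ∞`, `θ₁ > 0`.
Then there is `θ ∈ (0, θ₁)` with `E exp (θ X) < 1`.  Proof : for `0 < θ ≤ θ₁ / 2`,
`(exp (θ X) - 1) / θ → X` pointwise as `θ → 0+`, and `|(exp (θ x) - 1) / θ| ≤ |x|` for `x ≤ 0`,
`≤ C exp (θ₁ x)` for `x ≥ 0` (convexity: `(exp (θ x) - 1) / θ` is nondecreasing in `θ > 0`, so it
is between `x` and `(exp (θ₁ x / 2) - 1) / (θ₁ / 2)`).  Dominated convergence :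
`(E exp (θ X) - 1) / θ → E X < 0`.
`upper_exp` : `k ≥ 1`, `E r_k < β k` : apply `chernoff` to `X = r_k - β k` : `E exp (θ (r_k - β k)) =
ρ₀ < 1`; write `n = q k + j`, `j < k` : by `exp_mul`, `E exp (θ (r_n - β n)) ≤ ρ₀^q * max_j E exp (θ
(r_j - β j)) ≤ C ρ^n` with `ρ = ρ₀^(1/k)`.
-/

noncomputable section

open MeasureTheory Set
open scoped ENNReal

namespace CPM

theorem e03_mono {θ θ₂ x : ℝ} (h0 : 0 < θ) (h1 : θ ≤ θ₂) :
    (Real.exp (θ * x) - 1) / θ ≤ (Real.exp (θ₂ * x) - 1) / θ₂ := by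
  have h2 : 0 < θ₂ := h0.trans_le h1
  have hc := convexOn_exp.2 (mem_univ (θ₂ * x)) (mem_univ (0 : ℝ))
    (show (0 : ℝ) ≤ θ / θ₂ by positivity)
    (show (0 : ℝ) ≤ 1 - θ / θ₂ by rw [sub_nonneg, div_le_one h2]; exact h1) (by ring)
  simp only [smul_eq_mul, mul_zero, add_zero, Real.exp_zero, mul_one] at hc
  have h3 : θ / θ₂ * (θ₂ * x) = θ * x := by field_simp
  rw [h3] at hc
  rw [div_le_div_iff₀ h0 h2]
  have h4 : θ / θ₂ * θ₂ = θ := by field_simp
  have h5 := mul_le_mul_of_nonneg_right hc h2.le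
  have h6 : (θ / θ₂ * Real.exp (θ₂ * x) + (1 - θ / θ₂)) * θ₂ =
      (θ / θ₂ * θ₂) * Real.exp (θ₂ * x) + (θ₂ - θ / θ₂ * θ₂) := by ring
  rw [h6, h4] at h5
  linarith

theorem e03_low {θ x : ℝ} (h0 : 0 < θ) : x ≤ (Real.exp (θ * x) - 1) / θ := by
  rw [le_div_iff₀ h0]
  have := Real.add_one_le_exp (θ * x)
  linarith

theorem chernoff {Ω : Type*} [MeasurableSpace Ω] {P : Measure Ω} [IsProbabilityMeasure P]
    {X : Ω → ℝ} (hX : Integrable X P) (hneg : ∫ ω, X ω ∂P < 0) {θ₁ : ℝ} (hθ₁ : 0 < θ₁)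
    (hexp : Integrable (fun ω => Real.exp (θ₁ * X ω)) P) :
    ∃ θ, 0 < θ ∧ θ < θ₁ ∧ Integrable (fun ω => Real.exp (θ * X ω)) P ∧
      ∫ ω, Real.exp (θ * X ω) ∂P < 1 := by
  have hint : ∀ θ, 0 < θ → θ < θ₁ → Integrable (fun ω => Real.exp (θ * X ω)) P := by
    intro θ h0 h1
    refine ((integrable_const (1 : ℝ)).add hexp).mono' ?_ (Filter.Eventually.of_forall fun ω => ?_)
    · exact Real.continuous_exp.comp_aestronglyMeasurable (hX.aestronglyMeasurable.const_mul θ)
    · rw [Real.norm_of_nonneg (Real.exp_pos _).le]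
      simp only [Pi.add_apply]
      rcases le_total (X ω) 0 with h | h
      · have h2 : Real.exp (θ * X ω) ≤ 1 :=
          Real.exp_le_one_iff.2 (mul_nonpos_of_nonneg_of_nonpos h0.le h)
        have h3 := Real.exp_pos (θ₁ * X ω)
        linarith
      · have h2 : Real.exp (θ * X ω) ≤ Real.exp (θ₁ * X ω) :=
          Real.exp_le_exp.2 (mul_le_mul_of_nonneg_right h1.le h)
        linarith
  set θ₂ := θ₁ / 2 with hθ₂
  have h20 : 0 < θ₂ := by positivity
  have h21 : θ₂ < θ₁ := by rw [hθ₂]; linarith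
  let t : ℕ → ℝ := fun n => θ₂ / (n + 1)
  have t0 : ∀ n, 0 < t n := fun n => by positivity
  have t1 : ∀ n, t n ≤ θ₂ := fun n => by
    refine div_le_self h20.le ?_
    have : (0 : ℝ) ≤ n := Nat.cast_nonneg n
    linarith
  have tt : Filter.Tendsto t Filter.atTop (nhds 0) := by
    have h3 := tendsto_one_div_add_atTop_nhds_zero_nat (𝕜 := ℝ)
    have h4 := h3.const_mul θ₂
    rw [mul_zero] at h4
    refine h4.congr fun n => ?_
    simp only [t]
    ring
  have hlim : Filter.Tendsto (fun n => ∫ ω, (Real.exp (t n * X ω) - 1) / t n ∂P) Filter.atTop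
      (nhds (∫ ω, X ω ∂P)) := by
    refine tendsto_integral_of_dominated_convergence
      (fun ω => |X ω| + |(Real.exp (θ₂ * X ω) - 1) / θ₂|) ?_ ?_ ?_ ?_
    · intro n
      have h1 : AEStronglyMeasurable (fun ω => (Real.exp (t n * X ω) - 1) * (t n)⁻¹) P :=
        ((Real.continuous_exp.comp_aestronglyMeasurable
          (hX.aestronglyMeasurable.const_mul (t n))).sub aestronglyMeasurable_const).mul_const _
      simpa only [div_eq_mul_inv] using h1
    · exact hX.abs.add (((hint θ₂ h20 h21).sub (integrable_const 1)).div_const θ₂).abs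
    · intro n
      refine Filter.Eventually.of_forall fun ω => ?_
      have h1 := e03_low (x := X ω) (t0 n)
      have h2 := e03_mono (x := X ω) (t0 n) (t1 n)
      rw [Real.norm_eq_abs, abs_le]
      constructor
      · have := neg_abs_le (X ω)
        have := abs_nonneg ((Real.exp (θ₂ * X ω) - 1) / θ₂)
        linarith
      · have := le_abs_self ((Real.exp (θ₂ * X ω) - 1) / θ₂)
        have := abs_nonneg (X ω)
        linarith
    · refine Filter.Eventually.of_forall fun ω => ?_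
      have h1 : HasDerivAt (fun θ : ℝ => Real.exp (θ * X ω)) (X ω) 0 := by
        have h2 : HasDerivAt (fun θ : ℝ => θ * X ω) (X ω) 0 := by
          simpa using (hasDerivAt_id (0 : ℝ)).mul_const (X ω)
        have h3 := h2.exp
        simpa using h3
      have h4 := h1.tendsto_slope_zero
      have h5 : Filter.Tendsto t Filter.atTop (nhdsWithin 0 {0}ᶜ) := by
        refine tendsto_nhdsWithin_iff.2 ⟨tt, Filter.Eventually.of_forall fun n => (t0 n).ne'⟩
      have h6 := h4.comp h5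
      refine h6.congr fun n => ?_
      simp only [Function.comp, zero_add, zero_mul, Real.exp_zero, smul_eq_mul]
      rw [div_eq_inv_mul]
  obtain ⟨n, hn⟩ := (hlim.eventually (gt_mem_nhds hneg)).exists
  have hlt : t n < θ₁ := (t1 n).trans_lt h21
  refine ⟨t n, t0 n, hlt, hint _ (t0 n) hlt, ?_⟩
  rw [integral_div, integral_sub (hint _ (t0 n) hlt) (integrable_const 1)] at hn
  simp only [integral_const, probReal_univ, smul_eq_mul, mul_one] at hn
  have := (div_neg_iff.1 hn).resolve_left (fun h => absurd h.2 (not_lt.2 (t0 n).le))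
  linarith [this.1]

theorem e03_real {a : ℕ → ℝ} (ha : ∀ n, 0 ≤ a n) (hsub : ∀ m n, a (m + n) ≤ a m * a n) {k : ℕ}
    (hk : 1 ≤ k) (hk0 : 0 < a k) (hk1 : a k < 1) :
    ∃ C ρ : ℝ, 0 < C ∧ 0 < ρ ∧ ρ < 1 ∧ ∀ n : ℕ, a n ≤ C * ρ ^ n := by
  have hkpos : (0 : ℝ) < k := by exact_mod_cast hk
  set ρ : ℝ := a k ^ ((1 : ℝ) / k) with hρ
  have hρ0 : 0 < ρ := Real.rpow_pos_of_pos hk0 _
  have hρ1 : ρ < 1 := Real.rpow_lt_one hk0.le hk1 (by positivity)
  have hρk : ρ ^ k = a k := by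
    rw [hρ, ← Real.rpow_natCast, ← Real.rpow_mul hk0.le]
    rw [one_div, inv_mul_cancel₀ hkpos.ne', Real.rpow_one]
  set C0 : ℝ := (∑ j ∈ Finset.range k, a j) + 1 with hC0
  have hC0pos : 0 < C0 := by
    have := Finset.sum_nonneg (s := Finset.range k) (f := a) fun j _ => ha j
    linarith
  have hpow : ∀ q j : ℕ, a (k * q + j) ≤ a k ^ q * a j := by
    intro q j
    induction q with
    | zero => simp
    | succ q ih =>
      have h1 : k * (q + 1) + j = k + (k * q + j) := by ring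
      rw [h1]
      refine (hsub _ _).trans ?_
      rw [pow_succ, mul_comm (a k ^ q), mul_assoc]
      exact mul_le_mul_of_nonneg_left ih hk0.le
  refine ⟨C0 / a k, ρ, by positivity, hρ0, hρ1, fun n => ?_⟩
  have hn : n = k * (n / k) + n % k := (Nat.div_add_mod n k).symm
  have hj : n % k < k := Nat.mod_lt _ hk
  have h1 := hpow (n / k) (n % k)
  rw [← hn] at h1
  have h2 : a (n % k) ≤ C0 := by
    have := Finset.single_le_sum (f := a) (fun j _ => ha j) (Finset.mem_range.2 hj)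
    linarith
  have h3 : ρ ^ k ≤ ρ ^ (n % k) := pow_le_pow_of_le_one hρ0.le hρ1.le hj.le
  have h4 : a k ^ (n / k) * ρ ^ (n % k) = ρ ^ n := by
    rw [← hρk, ← pow_mul, ← pow_add, ← hn]
  have h5 : a k ^ (n / k) * a k ≤ ρ ^ n := by
    rw [← h4]
    rw [hρk] at h3
    exact mul_le_mul_of_nonneg_left h3 (pow_nonneg hk0.le _)
  calc a n ≤ a k ^ (n / k) * a (n % k) := h1
    _ ≤ a k ^ (n / k) * C0 := mul_le_mul_of_nonneg_left h2 (pow_nonneg hk0.le _)
    _ = C0 / a k * (a k ^ (n / k) * a k) := by field_simp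
    _ ≤ C0 / a k * ρ ^ n := mul_le_mul_of_nonneg_left h5 (by positivity)

theorem upper_exp {Ω : Type*} [MeasurableSpace Ω] {P : Measure Ω} {M : Ω → ℤ × ℤ → Set ℝ}
    {lam : ℝ} (hlam : 0 < lam) (hP : IsPoisson P M (cRate lam)) {k : ℕ} (hk : 1 ≤ k) {β : ℝ}
    (hβ : ∫ ω, (rn M k ω : ℝ) ∂P < β * k) :
    ∃ θ C ρ : ℝ, 0 < θ ∧ θ < th1 lam ∧ 0 < C ∧ 0 < ρ ∧ ρ < 1 ∧ ∀ n : ℕ,
      Integrable (fun ω => Real.exp (θ * (rn M n ω - β * n))) P ∧
      ∫ ω, Real.exp (θ * (rn M n ω - β * n)) ∂P ≤ C * ρ ^ n := by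
  have := hP.prob
  have hm : ∀ n, Measurable (fun ω => (rn M n ω : ℝ)) := fun n =>
    (measurable_of_countable (fun z : ℤ => (z : ℝ))).comp (redge_measurable hP 0 0 n)
  have hmi : ∀ n, Integrable (fun ω => (rn M n ω : ℝ)) P := fun n =>
    redge_integrable hlam hP 0 (Nat.cast_nonneg n)
  have hI : ∀ θ, 0 ≤ θ → θ < th1 lam → ∀ n,
      Integrable (fun ω => Real.exp (θ * rn M n ω)) P := by
    intro θ h0 h1 n
    refine ⟨(Real.measurable_exp.comp ((hm n).const_mul θ)).aestronglyMeasurable, ?_⟩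
    rw [hasFiniteIntegral_iff_ofReal (Filter.Eventually.of_forall fun ω => (Real.exp_pos _).le)]
    exact exp_lt_top hlam hP h0 h1 n
  have hshift : ∀ θ (n : ℕ) ω, Real.exp (θ * (rn M n ω - β * n)) =
      Real.exp (-(θ * β * n)) * Real.exp (θ * rn M n ω) := by
    intro θ n ω
    rw [← Real.exp_add]
    congr 1
    ring
  have hI2 : ∀ θ, 0 ≤ θ → θ < th1 lam → ∀ n : ℕ,
      Integrable (fun ω => Real.exp (θ * (rn M n ω - β * n))) P := by
    intro θ h0 h1 n
    simp_rw [hshift]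
    exact (hI θ h0 h1 n).const_mul _
  have ht := th1_pos hlam
  obtain ⟨θ, h0, h1, h2, h3⟩ := chernoff (P := P) (X := fun ω => (rn M k ω : ℝ) - β * k)
    ((hmi k).sub (integrable_const _)) (by
      rw [integral_sub (hmi k) (integrable_const _)]
      simp only [integral_const, probReal_univ, smul_eq_mul, one_mul]
      linarith) (θ₁ := th1 lam / 2) (by positivity) (hI2 _ (by positivity) (by linarith) k)
  have h1' : θ < th1 lam := by linarith
  set a : ℕ → ℝ := fun n => ∫ ω, Real.exp (θ * (rn M n ω - β * n)) ∂P with hadef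
  have ha : ∀ n, 0 < a n := fun n =>
    integral_exp_pos (hI2 θ h0.le h1' n)
  have hb : ∀ n, a n = Real.exp (-(θ * β * n)) *
      (∫⁻ ω, ENNReal.ofReal (Real.exp (θ * rn M n ω)) ∂P).toReal := by
    intro n
    simp only [hadef]
    simp_rw [hshift]
    rw [integral_const_mul]
    congr 1
    rw [integral_eq_lintegral_of_nonneg_ae
      (Filter.Eventually.of_forall fun ω => (Real.exp_pos _).le)
      (hI θ h0.le h1' n).aestronglyMeasurable]
  have hsub : ∀ m n, a (m + n) ≤ a m * a n := by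
    intro m n
    rw [hb, hb, hb]
    have h4 := exp_mul hlam hP h0.le m n
    have h5 := ENNReal.toReal_mono (ENNReal.mul_ne_top (exp_lt_top hlam hP h0.le h1' m).ne
      (exp_lt_top hlam hP h0.le h1' n).ne) h4
    rw [ENNReal.toReal_mul] at h5
    have h6 : Real.exp (-(θ * β * (m + n : ℕ))) =
        Real.exp (-(θ * β * m)) * Real.exp (-(θ * β * n)) := by
      rw [← Real.exp_add]
      congr 1
      push_cast
      ring
    rw [h6]
    calc _ ≤ Real.exp (-(θ * β * m)) * Real.exp (-(θ * β * n)) * _ :=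
          mul_le_mul_of_nonneg_left h5 (by positivity)
      _ = _ := by ring
  obtain ⟨C, ρ, hC, hρ0, hρ1, hall⟩ := e03_real (fun n => (ha n).le) hsub hk (ha k) h3
  exact ⟨θ, C, ρ, h0, h1', hC, hρ0, hρ1, fun n => ⟨hI2 θ h0.le h1' n, hall n⟩⟩

end CPM
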