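import Pool.Agent.Lib.MP_1a4724_pr.E00
import Pool.Agent.Lib.MP_1a4724_pr.E03

/-!
# E04 : survival on the half line gives nonnegative mean speed

If `E r_k < 0` for some `k ≥ 1`, `upper_exp` with `β = 0` gives `E exp (θ r_n) ≤ C ρ^n`, so
`P (r_n ≥ 0) ≤ C ρ^n → 0`.  But if the infection started at `(0, 0)` and restricted to `[0, ∞)` is
alive at time `n` then `r_n ≥ 0` (on `Reg`): its probability is at least the survival probability
on `ℕ` of the marks pulled back along `ℕ → ℤ` (`IsPoisson.pull`, `Conn.map_pull`),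
which is `p₀ > 0` by `survive_all`.  Contradiction.  (`k = 0` :
`mean_sub` : `E r_0 ≤ 2 E r_0`.)
-/

noncomputable section

open MeasureTheory Set

namespace CPM

/-- an infection of the half line alive at time `n` forces the right edge to be nonnegative -/
theorem e04_edge_nonneg {m : ℤ × ℤ → Set ℝ} {n : ℕ} (hr : Reg m 0 n)
    (ha : aliveAt natAdj (pull (fun j : ℕ => (j : ℤ)) m) 0 n) : 0 ≤ redge m 0 0 n := by
  obtain ⟨y, hy⟩ := ha
  have h1 : Conn intAdj m (((0 : ℕ) : ℤ), (0 : ℝ)) (((y : ℕ) : ℤ), (n : ℝ)) := by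
    refine Conn.map_pull (γ := fun j : ℕ => (j : ℤ)) Nat.cast_injective ?_ hy
    intro i j hij
    rcases hij with h | h
    · left; simp [h]
    · right; simp [h]
  have h2 : ((y : ℕ) : ℤ) ∈ rset m 0 0 n := ⟨0, le_refl _, by simpa using h1⟩
  exact (Int.natCast_nonneg y).trans (hr.le h2)

theorem mean_nonneg {Ω : Type} [MeasurableSpace Ω] {P : Measure Ω} {M : Ω → ℤ × ℤ → Set ℝ}
    {lam : ℝ} (hlam : 0 < lam) (hs : Survives natAdj 0 lam) (hP : IsPoisson P M (cRate lam))
    (k : ℕ) : 0 ≤ ∫ ω, (rn M k ω : ℝ) ∂P := by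
  have hpr : IsProbabilityMeasure P := hP.prob
  rcases Nat.eq_zero_or_pos k with rfl | hk
  · have h := mean_sub hlam hP 0 0
    simp only [add_zero] at h
    linarith
  by_contra hneg
  push Not at hneg
  obtain ⟨θ, C, ρ, hθ, -, hC, hρ0, hρ1, hexp⟩ :=
    upper_exp hlam hP hk (β := 0) (by simpa using hneg)
  obtain ⟨p₀, hp0, -, hp⟩ := survive_all hs
  have hpull : IsPoisson P (fun ω => pull (fun j : ℕ => (j : ℤ)) (M ω)) (cRate lam) :=
    hP.pull Nat.cast_injective
  have hp1 := hp Ω P _ hpull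
  have key : ∀ n : ℕ, p₀ ≤ C * ρ ^ n := by
    intro n
    obtain ⟨hint, hle⟩ := hexp n
    have h1 : P.real {ω | ∀ n : ℕ, aliveAt natAdj (pull (fun j : ℕ => (j : ℤ)) (M ω)) 0 n} ≤
        P.real {ω | 1 ≤ Real.exp (θ * (rn M n ω - 0 * n))} := by
      refine ENNReal.toReal_mono (measure_ne_top _ _) (measure_mono_ae ?_)
      have hreg := ae_reg (P := P) (M := M) hlam hP (s := 0) (t := n) (Nat.cast_nonneg n)
      filter_upwards [hreg] with ω hω hall
      have h2 : 0 ≤ redge (M ω) 0 0 n := e04_edge_nonneg hω (hall n)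
      have h3 : (0 : ℝ) ≤ (rn M n ω : ℝ) := by exact_mod_cast h2
      show 1 ≤ Real.exp (θ * (rn M n ω - 0 * n))
      apply Real.one_le_exp
      have : (rn M n ω : ℝ) - 0 * n = rn M n ω := by ring
      rw [this]
      positivity
    have h2 : P.real {ω | 1 ≤ Real.exp (θ * (rn M n ω - 0 * n))} ≤
        ∫ ω, Real.exp (θ * (rn M n ω - 0 * n)) ∂P := by
      have h3 := mul_meas_ge_le_integral_of_nonneg (μ := P)
        (Filter.Eventually.of_forall fun ω => (Real.exp_pos (θ * (rn M n ω - 0 * n))).le) hint 1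
      simpa using h3
    calc p₀ = P.real {ω | ∀ n : ℕ, aliveAt natAdj (pull (fun j : ℕ => (j : ℤ)) (M ω)) 0 n} :=
          hp1.symm
      _ ≤ _ := h1
      _ ≤ _ := h2
      _ ≤ C * ρ ^ n := hle
  obtain ⟨n, hn⟩ := exists_pow_lt_of_lt_one (div_pos hp0 hC) hρ1
  have h4 := key n
  rw [lt_div_iff₀ hC] at hn
  linarith [mul_comm C (ρ ^ n)]

end CPM
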