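import Pool.Agent.Lib.MP_1a4724_pr.E04

/-!
# E05 : sprinkling : the mean speed is positive above a rate with survival

Work with a `Coupling ℤ lam' lam P M`, `lam' < lam`.  For `k ≤ n` let `H ω k n` be the right edge at
time `n` of the process started from `(-∞, 0]` at time `0` which uses the full marks during
`[0, k]` and the base marks during `[k, n]` :
`H = sSup {y | ∃ z ≤ 0, ∃ w, Conn intAdj (fullM M ω) (z, 0) (w, k) ∧ Conn intAdj (baseM M ω) (w, k) (y, n)}`.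
`H ω 0 n` is at least the edge of the base process, `H ω n n` at most the edge of the full process.
For `x : ℤ` let `S k x` be the event : no recovery mark at `x` nor at `x + 1` during `[k, k + 1]`, no
base arrow `(x, x + 1)` during `[k, k + 1]`, at least one extra arrow `(x, x + 1)` during
`[k, k + 1]`.  On `{full edge at time k = x} ∩ S k x` the quantity `H (k+1) n - H k n` is at least
`R (x+1) - R x` where `R x` is the base edge at time `n` started from `(-∞, x]` at time `k + 1`.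
-/

noncomputable section

open MeasureTheory Set
open scoped ENNReal

namespace CPM

theorem e05_VA_full {Ω V : Type*} {M : Ω → (V × V) × Bool → Set ℝ} (T : Set ℝ) :
    VA (fullM M) {p : (V × V) × ℝ | p.2 ∈ T} ≤ VA M {p : ((V × V) × Bool) × ℝ | p.2 ∈ T} := by
  refine MeasurableSpace.generateFrom_le ?_
  rintro s ⟨⟨e, a, b⟩, hb, rfl⟩
  have h1 : voidEv (fullM M) e a b = voidEv M (e, false) a b ∩ voidEv M (e, true) a b := by
    ext ω
    simp only [voidEv, fullM, Set.mem_inter_iff]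
    constructor
    · intro h
      exact ⟨fun t ht h' => h t ht (Or.inl h'), fun t ht h' => h t ht (Or.inr h')⟩
    · rintro ⟨h, h'⟩ t ht (h'' | h'')
      · exact h t ht h''
      · exact h' t ht h''
  have hmem : ∀ t ∈ Icc a b, t ∈ T := by
    intro t ht
    have : (e, t) ∈ boxOf (e, a, b) := ⟨rfl, ht⟩
    exact hb this
  change MeasurableSet[VA M {p : ((V × V) × Bool) × ℝ | p.2 ∈ T}] (voidEv (fullM M) e a b)
  rw [h1]
  refine MeasurableSet.inter ?_ ?_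
  · refine MeasurableSpace.measurableSet_generateFrom ⟨((e, false), a, b), ?_, rfl⟩
    rintro ⟨e', t⟩ ⟨_, ht⟩
    exact hmem t ht
  · refine MeasurableSpace.measurableSet_generateFrom ⟨((e, true), a, b), ?_, rfl⟩
    rintro ⟨e', t⟩ ⟨_, ht⟩
    exact hmem t ht

theorem e05_VA_base {Ω V : Type*} {M : Ω → (V × V) × Bool → Set ℝ} (T : Set ℝ) :
    VA (baseM M) {p : (V × V) × ℝ | p.2 ∈ T} ≤ VA M {p : ((V × V) × Bool) × ℝ | p.2 ∈ T} := by
  refine MeasurableSpace.generateFrom_le ?_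
  rintro s ⟨⟨e, a, b⟩, hb, rfl⟩
  refine MeasurableSpace.measurableSet_generateFrom ⟨((e, false), a, b), ?_, rfl⟩
  rintro ⟨e', t⟩ ⟨_, ht⟩
  have : (e, t) ∈ boxOf (e, a, b) := ⟨rfl, ht⟩
  exact hb this

/-- no arrow from `x` to `x + 1` : paths starting at or to the left of `x` stay there -/
theorem e05_barrier {m : ℤ × ℤ → Set ℝ} {x : ℤ} {s t : ℝ} (hno : ∀ v ∈ Icc s t, v ∉ m (x, x + 1))
    {p : ℤ × ℝ} {y : ℤ} (h : Conn intAdj m p (y, t)) (hs : s ≤ p.2) (hp : p.1 ≤ x) : y ≤ x := by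
  unfold Conn at h
  induction h using Relation.ReflTransGen.head_induction_on with
  | refl => exact hp
  | head hstep hrest ih =>
    cases hstep with
    | wait z a b hab hr => exact ih (le_trans hs hab) hp
    | jump z w u hadj hne hu =>
      refine ih hs ?_
      simp only at hs hp ⊢
      have hut : u ≤ t := Conn.time_le (adj := intAdj) (m := m) hrest
      rcases hadj with h1 | h1
      · by_contra hlt
        have hz : z = x := by omega
        have hw : w = x + 1 := by omega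
        subst hz; subst hw
        exact hno u ⟨hs, hut⟩ hu
      · omega

section det

variable {Ω : Type*} (M : Ω → (ℤ × ℤ) × Bool → Set ℝ) (ω : Ω)

/-- the sites infected at time `n`, full marks up to time `k`, base marks after -/
def e05_HS (k n : ℝ) : Set ℤ :=
  {y | ∃ z ≤ (0 : ℤ), ∃ w, Conn intAdj (fullM M ω) (z, 0) (w, k) ∧
    Conn intAdj (baseM M ω) (w, k) (y, n)}

/-- the event with a gain -/
def e05_S (k : ℝ) (x : ℤ) : Set Ω :=
  (voidEv M ((x, x), false) k (k + 1) ∩ (voidEv M ((x + 1, x + 1), false) k (k + 1) ∩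
    voidEv M ((x, x + 1), false) k (k + 1))) ∩ (voidEv M ((x, x + 1), true) k (k + 1))ᶜ

variable {M ω}

theorem e05_sub (hrec : ∀ ω x, M ω ((x, x), true) = ∅) {k n : ℝ} :
    e05_HS M ω k n ⊆ rset (fullM M ω) 0 0 n := by
  rintro y ⟨z, hz, w, h1, h2⟩
  exact ⟨z, hz, h1.trans (conn_base_full hrec h2)⟩

theorem e05_base_sub {n : ℝ} : rset (baseM M ω) 0 0 n ⊆ e05_HS M ω 0 n := by
  rintro y ⟨z, hz, h⟩
  exact ⟨z, hz, z, Conn.refl _, h⟩

theorem e05_mono (hrec : ∀ ω x, M ω ((x, x), true) = ∅) {k k' n : ℝ} (hk : k ≤ k')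
    (hn : k' ≤ n) : e05_HS M ω k n ⊆ e05_HS M ω k' n := by
  rintro y ⟨z, hz, w, h1, h2⟩
  obtain ⟨v, h3, h4⟩ := h2.split hk hn
  exact ⟨z, hz, v, h1.trans (conn_base_full hrec h3), h4⟩

theorem e05_le_R {k n : ℝ} {x : ℤ} (hk : k + 1 ≤ n)
    (hx : ∀ y ∈ rset (fullM M ω) 0 0 k, y ≤ x) (hS : ω ∈ e05_S M k x) :
    e05_HS M ω k n ⊆ rset (baseM M ω) x (k + 1) n := by
  rintro y ⟨z, hz, w, h1, h2⟩
  obtain ⟨v, h3, h4⟩ := h2.split (by linarith : k ≤ k + 1) hk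
  refine ⟨v, ?_, h4⟩
  refine e05_barrier (s := k) (t := k + 1) (m := baseM M ω) ?_ h3 (le_refl _) (hx w ⟨z, hz, h1⟩)
  intro u hu
  exact hS.1.2.2 u hu

theorem e05_next {k n : ℝ} {x : ℤ} (hrec : ∀ ω x, M ω ((x, x), true) = ∅)
    (hx : x ∈ rset (fullM M ω) 0 0 k) (hS : ω ∈ e05_S M k x) {y : ℤ}
    (hy : y ∈ rset (baseM M ω) (x + 1) (k + 1) n) :
    y ∈ rset (baseM M ω) x (k + 1) n ∨ y ∈ e05_HS M ω (k + 1) n := by
  obtain ⟨z, hz, h⟩ := hy
  by_cases hzx : z ≤ x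
  · exact Or.inl ⟨z, hzx, h⟩
  · right
    have hz' : z = x + 1 := by omega
    subst hz'
    obtain ⟨z0, hz0, h0⟩ := hx
    refine ⟨z0, hz0, x + 1, h0.trans ?_, h⟩
    obtain ⟨⟨hS1, hS2, _⟩, hS4⟩ := hS
    have : ∃ τ ∈ Icc k (k + 1), τ ∈ M ω ((x, x + 1), true) := by
      by_contra hcon
      exact hS4 fun t ht htm => hcon ⟨t, ht, htm⟩
    obtain ⟨τ, hτ, hτm⟩ := this
    have r1 : ∀ v ∈ Icc k τ, v ∉ fullM M ω (x, x) := by
      rintro v hv (h' | h')
      · exact hS1 v ⟨hv.1, hv.2.trans hτ.2⟩ h'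
      · rw [hrec] at h'; exact h'
    have r2 : ∀ v ∈ Icc τ (k + 1), v ∉ fullM M ω (x + 1, x + 1) := by
      rintro v hv (h' | h')
      · exact hS2 v ⟨hτ.1.trans hv.1, hv.2⟩ h'
      · rw [hrec] at h'; exact h'
    have r3 : Conn intAdj (fullM M ω) (x, τ) (x + 1, τ) :=
      Conn.arrow (Or.inl rfl) (by omega) (Or.inr hτm)
    exact ((Conn.stay hτ.1 r1).trans r3).trans (Conn.stay hτ.2 r2)

/-- regular outcomes -/
def e05_Reg (M : Ω → (ℤ × ℤ) × Bool → Set ℝ) (ω : Ω) : Prop :=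
  (∀ k : ℕ, Reg (fullM M ω) 0 k) ∧ ∀ k n : ℕ, k ≤ n → Reg (baseM M ω) k n

theorem e05_HS_nonempty (hrec : ∀ ω x, M ω ((x, x), true) = ∅) (hr : e05_Reg M ω) {k n : ℕ}
    (hk : k ≤ n) : (e05_HS M ω k n).Nonempty := by
  have h1 := (hr.2 0 n (Nat.zero_le _) 0).1
  simp only [Nat.cast_zero] at h1
  have hk0 : (0 : ℝ) ≤ k := Nat.cast_nonneg k
  exact h1.mono (e05_base_sub.trans (e05_mono hrec hk0 (by exact_mod_cast hk)))

theorem e05_HS_bdd (hrec : ∀ ω x, M ω ((x, x), true) = ∅) (hr : e05_Reg M ω) (k n : ℕ) :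
    BddAbove (e05_HS M ω k n) :=
  (hr.1 n 0).2.mono (e05_sub hrec)

theorem e05_H_mono (hrec : ∀ ω x, M ω ((x, x), true) = ∅) (hr : e05_Reg M ω) {k n : ℕ}
    (hk : k + 1 ≤ n) : sSup (e05_HS M ω k n) ≤ sSup (e05_HS M ω ((k + 1 : ℕ) : ℝ) n) := by
  refine csSup_le_csSup (e05_HS_bdd hrec hr _ _) (e05_HS_nonempty hrec hr (by omega)) ?_
  refine e05_mono hrec ?_ (by exact_mod_cast hk)
  push_cast; linarith

/-- the gain -/
theorem e05_gain (hrec : ∀ ω x, M ω ((x, x), true) = ∅) (hr : e05_Reg M ω) {k n : ℕ}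
    (hk : k + 1 ≤ n) {x : ℤ} (hx : redge (fullM M ω) 0 0 k = x) (hS : ω ∈ e05_S M k x) :
    redge (baseM M ω) (x + 1) ((k + 1 : ℕ) : ℝ) n - redge (baseM M ω) x ((k + 1 : ℕ) : ℝ) n ≤
      sSup (e05_HS M ω ((k + 1 : ℕ) : ℝ) n) - sSup (e05_HS M ω k n) := by
  have hkn : ((k + 1 : ℕ) : ℝ) ≤ n := by exact_mod_cast hk
  have hc : ((k + 1 : ℕ) : ℝ) = (k : ℝ) + 1 := by push_cast; rfl
  have hmem : x ∈ rset (fullM M ω) 0 0 k := by
    have := (hr.1 k).mem 0
    rwa [hx] at this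
  have hle : ∀ y ∈ rset (fullM M ω) 0 0 (k : ℝ), y ≤ x := by
    intro y hy
    have := (hr.1 k).le hy
    rwa [hx] at this
  have hRB := hr.2 (k + 1) n hk
  have hmono := e05_H_mono hrec hr hk
  set R0 := redge (baseM M ω) x ((k + 1 : ℕ) : ℝ) n with hR0
  set R1 := redge (baseM M ω) (x + 1) ((k + 1 : ℕ) : ℝ) n with hR1
  have h1 : sSup (e05_HS M ω k n) ≤ R0 := by
    rw [hR0, redge]
    refine csSup_le_csSup (hRB x).2 (e05_HS_nonempty hrec hr (by omega)) ?_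
    rw [hc]
    exact e05_le_R (by rw [← hc]; exact hkn) hle hS
  have h2 : R1 ∈ rset (baseM M ω) (x + 1) ((k + 1 : ℕ) : ℝ) n := hRB.mem (x + 1)
  have h3 : R1 ∈ rset (baseM M ω) x ((k + 1 : ℕ) : ℝ) n ∨
      R1 ∈ e05_HS M ω ((k + 1 : ℕ) : ℝ) n := by
    rw [hc] at h2 ⊢
    exact e05_next hrec hmem hS h2
  rcases h3 with h3 | h3
  · have h4 : R1 ≤ R0 := hRB.le h3
    omega
  · have h4 : R1 ≤ sSup (e05_HS M ω ((k + 1 : ℕ) : ℝ) n) :=
      le_csSup (e05_HS_bdd hrec hr _ _) h3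
    omega

theorem e05_first (hrec : ∀ ω x, M ω ((x, x), true) = ∅) (hr : e05_Reg M ω) (n : ℕ) :
    redge (baseM M ω) 0 0 n ≤ sSup (e05_HS M ω ((0 : ℕ) : ℝ) n) := by
  rw [redge]
  have h1 := (hr.2 0 n (Nat.zero_le _) 0).1
  simp only [Nat.cast_zero] at h1
  refine csSup_le_csSup (e05_HS_bdd hrec hr _ _) h1 ?_
  simp only [Nat.cast_zero]
  exact e05_base_sub

theorem e05_last (hrec : ∀ ω x, M ω ((x, x), true) = ∅) (hr : e05_Reg M ω) (n : ℕ) :
    sSup (e05_HS M ω (n : ℝ) n) ≤ redge (fullM M ω) 0 0 n := by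
  rw [redge]
  exact csSup_le_csSup (hr.1 n 0).2 (e05_HS_nonempty hrec hr (le_refl _)) (e05_sub hrec)

end det

section prob

variable {Ω : Type*} [MeasurableSpace Ω] {P : Measure Ω} {M : Ω → (ℤ × ℤ) × Bool → Set ℝ}
  {lam' lam : ℝ}

def e05_c (lam' lam : ℝ) : ℝ :=
  Real.exp (-1) * (Real.exp (-1) * Real.exp (-lam')) * (1 - Real.exp (-(lam - lam')))

theorem e05_c_pos (h1 : lam' < lam) : 0 < e05_c lam' lam := by
  have : Real.exp (-(lam - lam')) < 1 := by rw [Real.exp_lt_one_iff]; linarith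
  unfold e05_c
  have h2 : 0 < 1 - Real.exp (-(lam - lam')) := by linarith
  positivity

theorem e05_void_meas {Ω J : Type*} {M : Ω → J → Set ℝ} (e : J) (a b : ℝ) {R : Set (J × ℝ)}
    (hR : ∀ t ∈ Icc a b, (e, t) ∈ R) : MeasurableSet[VA M R] (voidEv M e a b) := by
  refine MeasurableSpace.measurableSet_generateFrom ⟨(e, a, b), ?_, rfl⟩
  rintro ⟨e', t⟩ ⟨he, ht⟩
  simp only [Set.mem_singleton_iff] at he
  subst he
  exact hR t ht

theorem e05_S_meas (k : ℝ) (x : ℤ) :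
    MeasurableSet[VA M {p : ((ℤ × ℤ) × Bool) × ℝ | p.2 ∈ Icc k (k + 1)}] (e05_S M k x) := by
  refine MeasurableSet.inter (MeasurableSet.inter ?_ (MeasurableSet.inter ?_ ?_))
    (MeasurableSet.compl ?_) <;> exact e05_void_meas _ _ _ fun t ht => ht

theorem e05_S_prob (hM : Coupling ℤ lam' lam P M) (k : ℝ) (x : ℤ) :
    P.real (e05_S M k x) = e05_c lam' lam := by
  haveI := hM.joint.prob
  have hJ := hM.joint
  have hkk : k ≤ k + 1 := by linarith
  -- the regions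
  have hvoid : ∀ e : (ℤ × ℤ) × Bool, MeasurableSet[VA M {p : ((ℤ × ℤ) × Bool) × ℝ | p.1 = e}]
      (voidEv M e k (k + 1)) := fun e => e05_void_meas _ _ _ fun t _ => rfl
  have hnull : ∀ (s t : Set ((ℤ × ℤ) × Bool)), Disjoint s t → ∀ e : (ℤ × ℤ) × Bool,
      volume {u : ℝ | (e, u) ∈ {p : ((ℤ × ℤ) × Bool) × ℝ | p.1 ∈ s} ∧
        (e, u) ∈ {p : ((ℤ × ℤ) × Bool) × ℝ | p.1 ∈ t}} = 0 := by
    intro s t hst e
    have : {u : ℝ | (e, u) ∈ {p : ((ℤ × ℤ) × Bool) × ℝ | p.1 ∈ s} ∧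
        (e, u) ∈ {p : ((ℤ × ℤ) × Bool) × ℝ | p.1 ∈ t}} = ∅ := by
      ext u
      simp only [Set.mem_setOf_eq, Set.mem_empty_iff_false, iff_false, not_and]
      intro h1 h2
      exact Set.disjoint_left.1 hst h1 h2
    rw [this]; simp
  have hv : ∀ (e : (ℤ × ℤ) × Bool) (s : Set ((ℤ × ℤ) × Bool)), e ∈ s →
      MeasurableSet[VA M {p : ((ℤ × ℤ) × Bool) × ℝ | p.1 ∈ s}] (voidEv M e k (k + 1)) :=
    fun e s he => e05_void_meas _ _ _ fun t _ => he
  set e1 : (ℤ × ℤ) × Bool := ((x, x), false) with he1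
  set e2 : (ℤ × ℤ) × Bool := ((x + 1, x + 1), false) with he2
  set e3 : (ℤ × ℤ) × Bool := ((x, x + 1), false) with he3
  set e4 : (ℤ × ℤ) × Bool := ((x, x + 1), true) with he4
  have n12 : e1 ≠ e2 := by simp [he1, he2]
  have n13 : e1 ≠ e3 := by simp [he1, he3]
  have n23 : e2 ≠ e3 := by simp [he2, he3]
  have n14 : e1 ≠ e4 := by simp [he1, he4]
  have n24 : e2 ≠ e4 := by simp [he2, he4]
  have n34 : e3 ≠ e4 := by simp [he3, he4]
  have p1 : P.real (voidEv M e1 k (k + 1)) = Real.exp (-1) := by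
    rw [hJ.void1 _ _ _ hkk]; congr 1; simp [he1, cRate]
  have p2 : P.real (voidEv M e2 k (k + 1)) = Real.exp (-1) := by
    rw [hJ.void1 _ _ _ hkk]; congr 1; simp [he2, cRate]
  have p3 : P.real (voidEv M e3 k (k + 1)) = Real.exp (-lam') := by
    rw [hJ.void1 _ _ _ hkk]; congr 1; simp [he3, cRate]
  have p4 : P.real (voidEv M e4 k (k + 1)) = Real.exp (-(lam - lam')) := by
    rw [hJ.void1 _ _ _ hkk]; congr 1; simp [he4]
  have s23 : MeasurableSet[VA M {p : ((ℤ × ℤ) × Bool) × ℝ | p.1 ∈ ({e2, e3} : Set _)}]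
      (voidEv M e2 k (k + 1) ∩ voidEv M e3 k (k + 1)) :=
    MeasurableSet.inter (hv e2 _ (by simp)) (hv e3 _ (by simp))
  have s123 : MeasurableSet[VA M {p : ((ℤ × ℤ) × Bool) × ℝ | p.1 ∈ ({e1, e2, e3} : Set _)}]
      (voidEv M e1 k (k + 1) ∩ (voidEv M e2 k (k + 1) ∩ voidEv M e3 k (k + 1))) :=
    MeasurableSet.inter (hv e1 _ (by simp)) (MeasurableSet.inter (hv e2 _ (by simp))
      (hv e3 _ (by simp)))
  have q23 : P.real (voidEv M e2 k (k + 1) ∩ voidEv M e3 k (k + 1)) =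
      Real.exp (-1) * Real.exp (-lam') := by
    rw [hJ.mul _ _ (hnull {e2} {e3} (by simpa using n23)) (hv e2 _ (by simp))
      (hv e3 _ (by simp)), p2, p3]
  have q123 : P.real (voidEv M e1 k (k + 1) ∩ (voidEv M e2 k (k + 1) ∩
      voidEv M e3 k (k + 1))) = Real.exp (-1) * (Real.exp (-1) * Real.exp (-lam')) := by
    rw [hJ.mul _ _ (hnull {e1} {e2, e3} ?_) (hv e1 _ (by simp)) s23, p1, q23]
    simp only [Set.disjoint_singleton_left, Set.mem_insert_iff, Set.mem_singleton_iff, not_or]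
    exact ⟨n12, n13⟩
  have hS : e05_S M k x = (voidEv M e1 k (k + 1) ∩ (voidEv M e2 k (k + 1) ∩
      voidEv M e3 k (k + 1))) ∩ (voidEv M e4 k (k + 1))ᶜ := rfl
  rw [hS, hJ.mul _ _ (hnull {e1, e2, e3} {e4} ?_) s123
    (MeasurableSet.compl (hv e4 {e4} (by simp))), q123,
    probReal_compl_eq_one_sub (hJ.meas _ _ _), p4]
  · rfl
  · simp only [Set.disjoint_singleton_right, Set.mem_insert_iff, Set.mem_singleton_iff, not_or]
    exact ⟨n14.symm, n24.symm, n34.symm⟩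

theorem e05_edge_meas (hM : Coupling ℤ lam' lam P M) (k : ℕ) (x : ℤ) :
    MeasurableSet[VA M {p : ((ℤ × ℤ) × Bool) × ℝ | p.2 ∈ Icc (0 : ℝ) k}]
      {ω | redge (fullM M ω) 0 0 k = x} :=
  e05_VA_full (M := M) (Icc (0 : ℝ) k) _
    ((redge_vmeas 0 x 0 k).measurableSet fun ω => hM.full.good ω)

theorem e05_base_meas (hM : Coupling ℤ lam' lam P M) (s t : ℝ) (x y : ℤ) :
    MeasurableSet[VA M {p : ((ℤ × ℤ) × Bool) × ℝ | p.2 ∈ Icc s t}]
      {ω | redge (baseM M ω) x s t = y} :=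
  e05_VA_base (M := M) (Icc s t) _
    ((redge_vmeas x y s t).measurableSet fun ω => hM.base.good ω)

theorem e05_null (s t u : ℝ) (e : (ℤ × ℤ) × Bool) :
    volume {v : ℝ | (e, v) ∈ {p : ((ℤ × ℤ) × Bool) × ℝ | p.2 ∈ Icc s t} ∧
      (e, v) ∈ {p : ((ℤ × ℤ) × Bool) × ℝ | p.2 ∈ Icc t u}} = 0 := by
  refine measure_mono_null (t := {t}) ?_ (by simp)
  rintro v ⟨h1, h2⟩
  exact le_antisymm h1.2 h2.1

/-- the event used at step `k` -/
def e05_A (M : Ω → (ℤ × ℤ) × Bool → Set ℝ) (k : ℕ) (x : ℤ) : Set Ω :=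
  {ω | redge (fullM M ω) 0 0 k = x} ∩ e05_S M k x

theorem e05_A_meas (hM : Coupling ℤ lam' lam P M) (k : ℕ) (x : ℤ) :
    MeasurableSet[VA M {p : ((ℤ × ℤ) × Bool) × ℝ | p.2 ∈ Icc (0 : ℝ) ((k : ℝ) + 1)}]
      (e05_A M k x) := by
  have hk : (0 : ℝ) ≤ k := Nat.cast_nonneg k
  refine MeasurableSet.inter ?_ ?_
  · refine VA_mono ?_ _ (e05_edge_meas hM k x)
    rintro p hp
    exact ⟨hp.1, hp.2.trans (by linarith)⟩
  · refine VA_mono ?_ _ (e05_S_meas (M := M) k x)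
    rintro p hp
    exact ⟨hk.trans hp.1, hp.2⟩

theorem e05_A_prob (hM : Coupling ℤ lam' lam P M) (k : ℕ) (x : ℤ) :
    P (e05_A M k x) = P {ω | redge (fullM M ω) 0 0 k = x} * ENNReal.ofReal (e05_c lam' lam) := by
  haveI := hM.joint.prob
  have h := hM.joint.mul _ _ (e05_null 0 k ((k : ℝ) + 1)) (e05_edge_meas hM k x)
    (e05_S_meas (M := M) k x)
  rw [e05_S_prob hM] at h
  have h2 : P (e05_A M k x) = ENNReal.ofReal (P.real (e05_A M k x)) := by
    rw [ofReal_measureReal (measure_ne_top _ _)]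
  rw [h2, e05_A, h, ENNReal.ofReal_mul measureReal_nonneg, ofReal_measureReal (measure_ne_top _ _)]

theorem e05_ae_reg (h0 : 0 < lam') (h1 : lam' < lam) (hM : Coupling ℤ lam' lam P M) :
    ∀ᵐ ω ∂P, e05_Reg M ω := by
  have a1 : ∀ᵐ ω ∂P, ∀ k : ℕ, Reg (fullM M ω) 0 k :=
    ae_all_iff.2 fun k => ae_reg (h0.trans h1) hM.full (Nat.cast_nonneg k)
  have a2 : ∀ᵐ ω ∂P, ∀ k n : ℕ, k ≤ n → Reg (baseM M ω) k n := by
    refine ae_all_iff.2 fun k => ae_all_iff.2 fun n => ?_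
    by_cases hkn : k ≤ n
    · filter_upwards [ae_reg h0 hM.base (show (k : ℝ) ≤ n by exact_mod_cast hkn)] with ω hω _
      exact hω
    · exact Filter.Eventually.of_forall fun ω h => absurd h hkn
  filter_upwards [a1, a2] with ω h2 h3
  exact ⟨h2, h3⟩

/-- the increment of the base edge in the starting point -/
def e05_D (M : Ω → (ℤ × ℤ) × Bool → Set ℝ) (k n : ℕ) (x : ℤ) (ω : Ω) : ℝ≥0∞ :=
  ENNReal.ofReal ((redge (baseM M ω) (x + 1) ((k + 1 : ℕ) : ℝ) n : ℝ) -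
    (redge (baseM M ω) x ((k + 1 : ℕ) : ℝ) n : ℝ))

theorem e05_D_meas (hM : Coupling ℤ lam' lam P M) (k n : ℕ) (x : ℤ) :
    Measurable[VA M {p : ((ℤ × ℤ) × Bool) × ℝ | p.2 ∈ Icc ((k : ℝ) + 1) n}]
      (e05_D M k n x) := by
  have hc : ((k + 1 : ℕ) : ℝ) = (k : ℝ) + 1 := by push_cast; rfl
  have hR : ∀ x' : ℤ, @Measurable Ω ℤ
      (VA M {p : ((ℤ × ℤ) × Bool) × ℝ | p.2 ∈ Icc ((k : ℝ) + 1) n}) _
      (fun ω => redge (baseM M ω) x' ((k + 1 : ℕ) : ℝ) n) := by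
    intro x'
    refine @measurable_to_countable' ℤ Ω _ _
      (VA M {p : ((ℤ × ℤ) × Bool) × ℝ | p.2 ∈ Icc ((k : ℝ) + 1) n}) _ ?_
    intro y
    rw [← hc]
    exact e05_base_meas hM _ _ x' y
  have hg : Measurable fun q : ℤ × ℤ => ENNReal.ofReal ((q.1 : ℝ) - (q.2 : ℝ)) :=
    measurable_of_countable _
  exact hg.comp ((hR (x + 1)).prodMk (hR x))

theorem e05_D_int (h0 : 0 < lam') (h1 : lam' < lam) (hM : Coupling ℤ lam' lam P M) {k n : ℕ}
    (hk : k + 1 ≤ n) (x : ℤ) : ∫⁻ ω, e05_D M k n x ω ∂P = 1 := by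
  haveI := hM.joint.prob
  have hkn : ((k + 1 : ℕ) : ℝ) ≤ n := by exact_mod_cast hk
  have i1 := redge_integrable h0 hM.base (x + 1) hkn
  have i0 := redge_integrable h0 hM.base x hkn
  have hnn : 0 ≤ᵐ[P] fun ω => (redge (baseM M ω) (x + 1) ((k + 1 : ℕ) : ℝ) n : ℝ) -
      (redge (baseM M ω) x ((k + 1 : ℕ) : ℝ) n : ℝ) := by
    filter_upwards [e05_ae_reg h0 h1 hM] with ω hω
    have := (hω.2 (k + 1) n hk).mono (show x ≤ x + 1 by omega)
    have h2 : ((redge (baseM M ω) x ((k + 1 : ℕ) : ℝ) n : ℤ) : ℝ) ≤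
      ((redge (baseM M ω) (x + 1) ((k + 1 : ℕ) : ℝ) n : ℤ) : ℝ) := by exact_mod_cast this
    simp only [Pi.zero_apply]
    linarith
  have e := ofReal_integral_eq_lintegral_ofReal (i1.sub i0) hnn
  have e2 : ∫⁻ ω, e05_D M k n x ω ∂P = ∫⁻ ω, ENNReal.ofReal
      (((fun ω => (redge (baseM M ω) (x + 1) ((k + 1 : ℕ) : ℝ) n : ℝ)) -
        fun ω => (redge (baseM M ω) x ((k + 1 : ℕ) : ℝ) n : ℝ)) ω) ∂P := rfl
  rw [e2, ← e]
  have hn : (n : ℝ) = ((k + 1 : ℕ) : ℝ) + ((n - (k + 1) : ℕ) : ℝ) := by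
    rw [← Nat.cast_add]; congr 1; omega
  have m1 := mean_translate h0 hM.base (x + 1) (k + 1) (n - (k + 1))
  have m0 := mean_translate h0 hM.base x (k + 1) (n - (k + 1))
  rw [← hn] at m1 m0
  have e3 : ∫ ω, ((fun ω => (redge (baseM M ω) (x + 1) ((k + 1 : ℕ) : ℝ) n : ℝ)) -
        fun ω => (redge (baseM M ω) x ((k + 1 : ℕ) : ℝ) n : ℝ)) ω ∂P = 1 := by
    rw [integral_sub' i1 i0, m1, m0]
    push_cast
    ring
  rw [e3, ENNReal.ofReal_one]

theorem e05_AD (h0 : 0 < lam') (h1 : lam' < lam) (hM : Coupling ℤ lam' lam P M) {k n : ℕ}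
    (hk : k + 1 ≤ n) (x : ℤ) :
    ∫⁻ ω, (e05_A M k x).indicator 1 ω * e05_D M k n x ω ∂P =
      P {ω | redge (fullM M ω) 0 0 k = x} * ENNReal.ofReal (e05_c lam' lam) := by
  haveI := hM.joint.prob
  have hind := hM.joint.indep _ _ (e05_null 0 ((k : ℝ) + 1) n)
  have hA := e05_A_meas hM k x
  have hmA : Measurable[VA M {p : ((ℤ × ℤ) × Bool) × ℝ | p.2 ∈ Icc (0 : ℝ) ((k : ℝ) + 1)}]
      ((e05_A M k x).indicator (1 : Ω → ℝ≥0∞)) :=
    Measurable.indicator (m := VA M {p : ((ℤ × ℤ) × Bool) × ℝ | p.2 ∈ Icc (0 : ℝ) ((k : ℝ) + 1)})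
      measurable_const hA
  rw [ProbabilityTheory.lintegral_mul_eq_lintegral_mul_lintegral_of_independent_measurableSpace
    (hM.joint.VA_le _) (hM.joint.VA_le _) hind hmA (e05_D_meas hM k n x), e05_D_int h0 h1 hM hk,
    mul_one, lintegral_indicator_one (hM.joint.VA_le _ _ hA), e05_A_prob hM]

theorem e05_sum (h0 : 0 < lam') (h1 : lam' < lam) (hM : Coupling ℤ lam' lam P M) {k n : ℕ}
    (hk : k + 1 ≤ n) :
    ∫⁻ ω, ∑' x : ℤ, (e05_A M k x).indicator 1 ω * e05_D M k n x ω ∂P =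
      ENNReal.ofReal (e05_c lam' lam) := by
  haveI := hM.joint.prob
  have hVle := fun R => hM.joint.VA_le R
  rw [lintegral_tsum]
  · simp_rw [e05_AD h0 h1 hM hk]
    rw [ENNReal.tsum_mul_right]
    have : ∑' x : ℤ, P {ω | redge (fullM M ω) 0 0 k = x} = 1 := by
      rw [← measure_iUnion]
      · have : (⋃ x : ℤ, {ω | redge (fullM M ω) 0 0 k = x}) = univ := by
          ext ω; simp
        rw [this]; exact measure_univ
      · intro x y hxy
        refine Set.disjoint_left.2 fun ω h2 h3 => hxy ?_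
        simp only [Set.mem_setOf_eq] at h2 h3
        rw [← h2, ← h3]
      · intro x
        exact hVle _ _ (e05_edge_meas hM k x)
    rw [this, one_mul]
  · intro x
    refine Measurable.aemeasurable (Measurable.mul ?_ ?_)
    · exact measurable_one.indicator (hVle _ _ (e05_A_meas hM k x))
    · exact (e05_D_meas hM k n x).mono (hVle _) (le_refl _)

theorem e05_pointwise (hM : Coupling ℤ lam' lam P M) {ω : Ω} (hr : e05_Reg M ω) {k n : ℕ}
    (hk : k + 1 ≤ n) :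
    ∑' x : ℤ, (e05_A M k x).indicator 1 ω * e05_D M k n x ω ≤
      ENNReal.ofReal (((sSup (e05_HS M ω ((k + 1 : ℕ) : ℝ) n) : ℤ) : ℝ) -
        ((sSup (e05_HS M ω ((k : ℕ) : ℝ) n) : ℤ) : ℝ)) := by
  rw [tsum_eq_single (redge (fullM M ω) 0 0 k)]
  · by_cases hA : ω ∈ e05_A M k (redge (fullM M ω) 0 0 k)
    · rw [Set.indicator_of_mem hA, Pi.one_apply, one_mul, e05_D]
      refine ENNReal.ofReal_le_ofReal ?_
      have := e05_gain hM.norec hr hk rfl hA.2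
      exact_mod_cast this
    · rw [Set.indicator_of_notMem hA, zero_mul]
      exact zero_le
  · intro x hx
    have : ω ∉ e05_A M k x := fun h => hx h.1.symm
    rw [Set.indicator_of_notMem this, zero_mul]

theorem e05_total (h0 : 0 < lam') (h1 : lam' < lam) (hM : Coupling ℤ lam' lam P M) (n : ℕ) :
    (∫ ω, (rn (baseM M) n ω : ℝ) ∂P) + e05_c lam' lam * n ≤ ∫ ω, (rn (fullM M) n ω : ℝ) ∂P := by
  haveI := hM.joint.prob
  have hn0 : (0 : ℝ) ≤ n := Nat.cast_nonneg n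
  have iF : Integrable (fun ω => (rn (fullM M) n ω : ℝ)) P :=
    redge_integrable (h0.trans h1) hM.full 0 hn0
  have iB : Integrable (fun ω => (rn (baseM M) n ω : ℝ)) P :=
    redge_integrable h0 hM.base 0 hn0
  have hpt : ∀ᵐ ω ∂P, ∑ k ∈ Finset.range n,
      ∑' x : ℤ, (e05_A M k x).indicator 1 ω * e05_D M k n x ω ≤
        ENNReal.ofReal ((rn (fullM M) n ω : ℝ) - (rn (baseM M) n ω : ℝ)) := by
    filter_upwards [e05_ae_reg h0 h1 hM] with ω hr
    have hstep : ∀ k ∈ Finset.range n, (0 : ℝ) ≤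
        ((sSup (e05_HS M ω ((k + 1 : ℕ) : ℝ) n) : ℤ) : ℝ) -
        ((sSup (e05_HS M ω ((k : ℕ) : ℝ) n) : ℤ) : ℝ) := by
      intro k hk
      have := e05_H_mono hM.norec hr (show k + 1 ≤ n from Finset.mem_range.1 hk)
      have h2 : ((sSup (e05_HS M ω ((k : ℕ) : ℝ) n) : ℤ) : ℝ) ≤
        ((sSup (e05_HS M ω ((k + 1 : ℕ) : ℝ) n) : ℤ) : ℝ) := by exact_mod_cast this
      linarith
    calc ∑ k ∈ Finset.range n, ∑' x : ℤ, (e05_A M k x).indicator 1 ω * e05_D M k n x ω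
        ≤ ∑ k ∈ Finset.range n,
          ENNReal.ofReal (((sSup (e05_HS M ω ((k + 1 : ℕ) : ℝ) n) : ℤ) : ℝ) -
            ((sSup (e05_HS M ω ((k : ℕ) : ℝ) n) : ℤ) : ℝ)) :=
          Finset.sum_le_sum fun k hk =>
            e05_pointwise hM hr (show k + 1 ≤ n from Finset.mem_range.1 hk)
      _ = ENNReal.ofReal (∑ k ∈ Finset.range n,
            (((sSup (e05_HS M ω ((k + 1 : ℕ) : ℝ) n) : ℤ) : ℝ) -
            ((sSup (e05_HS M ω ((k : ℕ) : ℝ) n) : ℤ) : ℝ))) :=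
          (ENNReal.ofReal_sum_of_nonneg hstep).symm
      _ ≤ ENNReal.ofReal ((rn (fullM M) n ω : ℝ) - (rn (baseM M) n ω : ℝ)) := by
          refine ENNReal.ofReal_le_ofReal ?_
          rw [Finset.sum_range_sub
            (f := fun k : ℕ => ((sSup (e05_HS M ω ((k : ℕ) : ℝ) n) : ℤ) : ℝ))]
          have h2 := e05_first hM.norec hr n
          have h3 := e05_last hM.norec hr n
          have h2' : ((redge (baseM M ω) 0 0 n : ℤ) : ℝ) ≤
            ((sSup (e05_HS M ω ((0 : ℕ) : ℝ) n) : ℤ) : ℝ) := by exact_mod_cast h2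
          have h3' : ((sSup (e05_HS M ω (n : ℝ) n) : ℤ) : ℝ) ≤
            ((redge (fullM M ω) 0 0 n : ℤ) : ℝ) := by exact_mod_cast h3
          simp only [rn]
          linarith
  have hnn : 0 ≤ᵐ[P] fun ω => (rn (fullM M) n ω : ℝ) - (rn (baseM M) n ω : ℝ) := by
    filter_upwards [e05_ae_reg h0 h1 hM] with ω hr
    have h2 := e05_first hM.norec hr n
    have h3 := e05_last hM.norec hr n
    have h4 : ∀ k, k ≤ n → sSup (e05_HS M ω ((0 : ℕ) : ℝ) n) ≤ sSup (e05_HS M ω (k : ℝ) n) := by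
      intro k
      induction k with
      | zero => intro _; exact le_refl _
      | succ k ih => intro hk; exact (ih (by omega)).trans (e05_H_mono hM.norec hr hk)
    have h5 : redge (baseM M ω) 0 0 n ≤ redge (fullM M ω) 0 0 n :=
      h2.trans ((h4 n (le_refl _)).trans h3)
    have h6 : ((redge (baseM M ω) 0 0 n : ℤ) : ℝ) ≤ ((redge (fullM M ω) 0 0 n : ℤ) : ℝ) := by
      exact_mod_cast h5
    simp only [rn, Pi.zero_apply]
    linarith
  have hint := lintegral_mono_ae hpt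
  rw [lintegral_finsetSum, Finset.sum_congr rfl (fun k hk =>
    e05_sum h0 h1 hM (show k + 1 ≤ n from Finset.mem_range.1 hk))] at hint
  · have e4 : ENNReal.ofReal (∫ ω, ((rn (fullM M) n ω : ℝ) - (rn (baseM M) n ω : ℝ)) ∂P) =
        ∫⁻ ω, ENNReal.ofReal ((rn (fullM M) n ω : ℝ) - (rn (baseM M) n ω : ℝ)) ∂P :=
      ofReal_integral_eq_lintegral_ofReal (iF.sub iB) hnn
    rw [Finset.sum_const, Finset.card_range, nsmul_eq_mul, ← e4, integral_sub iF iB] at hint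
    have hc := (e05_c_pos h1).le
    rw [← ENNReal.ofReal_natCast, ← ENNReal.ofReal_mul hn0] at hint
    have hI : 0 ≤ (∫ ω, (rn (fullM M) n ω : ℝ) ∂P) - ∫ ω, (rn (baseM M) n ω : ℝ) ∂P := by
      rw [← integral_sub iF iB]
      exact integral_nonneg_of_ae hnn
    rw [ENNReal.ofReal_le_ofReal_iff hI] at hint
    linarith
  · intro k _
    refine Measurable.ennreal_tsum fun x => Measurable.mul ?_ ?_
    · exact measurable_one.indicator (hM.joint.VA_le _ _ (e05_A_meas hM k x))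
    · exact (e05_D_meas hM k n x).mono (hM.joint.VA_le _) (le_refl _)

end prob

theorem mean_gain {lam' lam : ℝ} (h0 : 0 < lam') (h1 : lam' < lam)
    (hs : Survives natAdj 0 lam') :
    ∃ c₀ : ℝ, 0 < c₀ ∧ ∀ (Ω : Type) [MeasurableSpace Ω] (P : Measure Ω)
      (M : Ω → ℤ × ℤ → Set ℝ), IsPoisson P M (cRate lam) →
      ∀ n : ℕ, c₀ * n ≤ ∫ ω, (rn M n ω : ℝ) ∂P := by
  refine ⟨e05_c lam' lam, e05_c_pos h1, ?_⟩
  intro Ω _ P M hP n
  obtain ⟨Ω', mΩ', P', M', hM⟩ := exists_coupling ℤ h0.le h1.le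
  have e1 := mean_transfer (h0.trans h1) hP hM.full n
  have e2 := mean_nonneg h0 hs hM.base n
  have e3 := e05_total h0 h1 hM n
  rw [e1]
  linarith

end CPM
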