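import Pool.Agent.Lib.MP_1a4724_pr.E05

/-!
# E06 : law of large numbers for the right edge

`α = lim E r_n / n = inf_{n ≥ 1} E r_n / n` (`Subadditive.tendsto_lim`, `mean_sub`), `α ≥ c₀ > 0`
(`exists_lower`, `mean_gain`); it does not depend on the realisation (`mean_transfer`,
`exists_poisson`).
`upper` : given `δ > 0` choose `k ≥ 1` with `E r_k < (α + δ/2) k`, `β = α + δ / 2`, `upper_exp` gives
`E exp (θ (r_m - β m)) ≤ C`; for `m ≤ n` :
`P (r_m ≥ α m + δ n) ≤ P (r_m - β m ≥ δ n / 2) ≤ C exp (- θ δ n / 2)`.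
`lower` : let `q_n = P (r_n < (α - δ) n)`, `ε > 0`, `β = α + ε`.  Then
`α n ≤ E r_n ≤ β n + E (r_n - β n)^+ - (δ + ε) n q_n` and
`E (r_n - β n)^+ ≤ E exp (θ (r_n - β n)) / θ ≤ C / θ`, hence
`limsup q_n ≤ ε / (δ + ε)`; let `ε → 0`.
-/

noncomputable section

open MeasureTheory Set Filter

namespace CPM

/-- probabilities of events of the edge are the same for all realisations -/
theorem e06_transfer {lam : ℝ} {Ω : Type*} [MeasurableSpace Ω] {P : Measure Ω}
    {M : Ω → ℤ × ℤ → Set ℝ} {Ω' : Type*} [MeasurableSpace Ω'] {P' : Measure Ω'}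
    {M' : Ω' → ℤ × ℤ → Set ℝ} (hP : IsPoisson P M (cRate lam))
    (hP' : IsPoisson P' M' (cRate lam)) (n : ℕ) (S : ℤ → Prop) :
    P.real {ω | S (rn M n ω)} = P'.real {ω | S (rn M' n ω)} := by
  have hv : VMeas (univ : Set ((ℤ × ℤ) × ℝ)) (fun m => S (redge m 0 0 n)) := by
    have h1 : VMeas (univ : Set ((ℤ × ℤ) × ℝ)) (fun m => ∃ y : ℤ, S y ∧ redge m 0 0 n = y) :=
      VMeas.exists fun y => (VMeas.const (S y)).and ((redge_vmeas 0 y 0 n).mono (subset_univ _))
    refine h1.congr fun m _ => ?_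
    constructor
    · rintro ⟨y, h2, h3⟩
      rw [h3]; exact h2
    · intro h2
      exact ⟨_, h2, rfl⟩
  exact transfer_real hP hP' hv

/-- the events of the edge are measurable -/
theorem e06_meas {lam : ℝ} {Ω : Type*} [MeasurableSpace Ω] {P : Measure Ω}
    {M : Ω → ℤ × ℤ → Set ℝ} (hP : IsPoisson P M (cRate lam)) (n : ℕ) :
    Measurable fun ω => (rn M n ω : ℝ) :=
  (measurable_from_top (f := fun z : ℤ => (z : ℝ))).comp (redge_measurable hP 0 0 n)

theorem edge_lln {lam : ℝ} (h : lambdaC < ENNReal.ofReal lam) :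
    ∃ α : ℝ, 0 < α ∧
      (∀ δ : ℝ, 0 < δ → ∀ ε : ℝ, 0 < ε → ∃ n₀ : ℕ, ∀ n : ℕ, n₀ ≤ n →
        ∀ (Ω : Type) [MeasurableSpace Ω] (P : Measure Ω) (M : Ω → ℤ × ℤ → Set ℝ),
          IsPoisson P M (cRate lam) → P.real {ω | (rn M n ω : ℝ) < (α - δ) * n} ≤ ε) ∧
      (∀ δ : ℝ, 0 < δ → ∃ C c : ℝ, 0 < C ∧ 0 < c ∧ ∀ m n : ℕ, m ≤ n →
        ∀ (Ω : Type) [MeasurableSpace Ω] (P : Measure Ω) (M : Ω → ℤ × ℤ → Set ℝ),
          IsPoisson P M (cRate lam) →
          P.real {ω | α * m + δ * n ≤ (rn M m ω : ℝ)} ≤ C * Real.exp (-c * n)) := by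
  obtain ⟨lam', h0, h1, hs⟩ := exists_lower h
  have hlam : 0 < lam := h0.trans h1
  obtain ⟨c₀, hc₀, hgain⟩ := mean_gain h0 h1 hs
  obtain ⟨Ω₀, mΩ₀, P₀, M₀, hP₀⟩ := exists_poisson (ℤ × ℤ) (cRate lam) (by
    intro e; unfold cRate; split_ifs
    · exact zero_le_one
    · exact hlam.le)
  have hpr : IsProbabilityMeasure P₀ := hP₀.prob
  set e : ℕ → ℝ := fun n => ∫ ω, (rn M₀ n ω : ℝ) ∂P₀ with he
  have hgain0 : ∀ n : ℕ, c₀ * n ≤ e n := fun n => hgain Ω₀ P₀ M₀ hP₀ n
  have hsub : Subadditive e := fun m n => mean_sub hlam hP₀ m n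
  have hdiv : ∀ n : ℕ, 0 ≤ e n / n := by
    intro n
    have h2 := hgain0 n
    have h3 : 0 ≤ e n := le_trans (by positivity) h2
    positivity
  have hbdd : BddBelow (range fun n : ℕ => e n / n) := by
    refine ⟨0, ?_⟩
    rintro _ ⟨n, rfl⟩
    exact hdiv n
  have hlim := hsub.tendsto_lim hbdd
  set α := hsub.lim with hα
  have hle : ∀ n : ℕ, α * n ≤ e n := by
    intro n
    rcases Nat.eq_zero_or_pos n with rfl | hn
    · have := hgain0 0
      simpa using this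
    · have h2 := hsub.lim_le_div hbdd hn.ne'
      rw [le_div_iff₀ (by exact_mod_cast hn)] at h2
      exact h2
  have hα0 : c₀ ≤ α := by
    refine ge_of_tendsto hlim ?_
    filter_upwards [eventually_ge_atTop 1] with n hn
    rw [le_div_iff₀ (by exact_mod_cast hn)]
    exact hgain0 n
  have hbeta : ∀ β : ℝ, α < β → ∃ θ C : ℝ, 0 < θ ∧ 0 < C ∧ ∀ n : ℕ,
      Integrable (fun ω => Real.exp (θ * (rn M₀ n ω - β * n))) P₀ ∧
      ∫ ω, Real.exp (θ * (rn M₀ n ω - β * n)) ∂P₀ ≤ C := by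
    intro β hβ
    have h2 : ∀ᶠ n : ℕ in atTop, e n / n < β := hlim.eventually_lt_const hβ
    obtain ⟨k, hk1, hk2⟩ := (h2.and (eventually_ge_atTop 1)).exists
    have hk3 : e k < β * k := by
      rw [div_lt_iff₀ (by exact_mod_cast hk2)] at hk1
      exact hk1
    obtain ⟨θ, C, ρ, hθ, -, hC, hρ0, hρ1, hexp⟩ := upper_exp hlam hP₀ hk2 hk3
    refine ⟨θ, C, hθ, hC, fun n => ⟨(hexp n).1, (hexp n).2.trans ?_⟩⟩
    calc C * ρ ^ n ≤ C * 1 := by
          refine mul_le_mul_of_nonneg_left ?_ hC.le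
          exact pow_le_one₀ hρ0.le hρ1.le
      _ = C := mul_one C
  refine ⟨α, hc₀.trans_le hα0, ?_, ?_⟩
  · -- lower bound
    intro δ hδ ε hε
    have hε' : 0 < δ * ε / 2 := by positivity
    obtain ⟨θ, C, hθ, hC, hexp⟩ := hbeta (α + δ * ε / 2) (by linarith)
    obtain ⟨n₀, hn₀⟩ := exists_nat_gt (2 * C / (θ * δ * ε))
    refine ⟨n₀ + 1, fun n hn Ω _ P M hP => ?_⟩
    have hn1 : 0 < n := by omega
    have hnR : (0 : ℝ) < n := by exact_mod_cast hn1
    have hn2 : 2 * C / (θ * δ * ε) < n := by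
      refine hn₀.trans ?_
      exact_mod_cast (by omega : n₀ < n)
    rw [e06_transfer hP hP₀ n (fun y : ℤ => (y : ℝ) < (α - δ) * n)]
    set A : Set Ω₀ := {ω | (rn M₀ n ω : ℝ) < (α - δ) * n} with hA
    have hAm : MeasurableSet A := measurableSet_lt (e06_meas hP₀ n) measurable_const
    obtain ⟨hint, hle2⟩ := hexp n
    set β := α + δ * ε / 2 with hβ
    have hrint : Integrable (fun ω => (rn M₀ n ω : ℝ)) P₀ :=
      redge_integrable hlam hP₀ 0 (Nat.cast_nonneg n)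
    have hpt : ∀ ω, (rn M₀ n ω : ℝ) - β * n ≤
        Real.exp (θ * (rn M₀ n ω - β * n)) / θ -
          A.indicator (fun _ => (δ + δ * ε / 2) * (n : ℝ)) ω := by
      intro ω
      have hE : ∀ x : ℝ, x ≤ Real.exp (θ * x) / θ := by
        intro x
        rw [le_div_iff₀ hθ]
        have := Real.add_one_le_exp (θ * x)
        linarith [mul_comm θ x]
      by_cases hω : ω ∈ A
      · rw [Set.indicator_of_mem hω]
        have h3 : (rn M₀ n ω : ℝ) < (α - δ) * n := hω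
        have h4 : 0 ≤ Real.exp (θ * (rn M₀ n ω - β * n)) / θ := by positivity
        have h5 : (rn M₀ n ω : ℝ) - β * n ≤ -((δ + δ * ε / 2) * n) := by
          rw [hβ]; nlinarith
        linarith
      · rw [Set.indicator_of_notMem hω]
        linarith [hE (rn M₀ n ω - β * n)]
    have hI : (∫ ω, ((rn M₀ n ω : ℝ) - β * n) ∂P₀) ≤
        ∫ ω, (Real.exp (θ * (rn M₀ n ω - β * n)) / θ -
          A.indicator (fun _ => (δ + δ * ε / 2) * (n : ℝ)) ω) ∂P₀ := by
      refine integral_mono (hrint.sub (integrable_const _)) ?_ hpt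
      exact (hint.div_const θ).sub ((integrable_const _).indicator hAm)
    rw [integral_sub hrint (integrable_const _), integral_sub (hint.div_const θ)
      ((integrable_const _).indicator hAm), integral_div, integral_indicator_const _ hAm] at hI
    simp only [integral_const, probReal_univ, smul_eq_mul, one_mul] at hI
    have h6 : α * n ≤ ∫ ω, (rn M₀ n ω : ℝ) ∂P₀ := hle n
    have h7 : (∫ ω, Real.exp (θ * (rn M₀ n ω - β * n)) ∂P₀) / θ ≤ C / θ :=
      div_le_div_of_nonneg_right hle2 hθ.le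
    have h8 : P₀.real A * ((δ + δ * ε / 2) * n) ≤ δ * ε / 2 * n + C / θ := by
      have : β * n = α * n + δ * ε / 2 * n := by rw [hβ]; ring
      linarith
    have h9 : C / θ < δ * ε / 2 * n := by
      rw [div_lt_iff₀ (by positivity)] at hn2
      rw [div_lt_iff₀ hθ]
      nlinarith
    have h10 : P₀.real A * (δ * n) ≤ ε * (δ * n) := by
      have h11 : 0 ≤ P₀.real A := measureReal_nonneg
      have h12 : 0 ≤ P₀.real A * (δ * ε / 2 * n) := by positivity
      nlinarith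
    exact le_of_mul_le_mul_right h10 (by positivity)
  · -- upper bound
    intro δ hδ
    obtain ⟨θ, C, hθ, hC, hexp⟩ := hbeta (α + δ / 2) (by linarith)
    refine ⟨C, θ * δ / 2, hC, by positivity, fun m n hmn Ω _ P M hP => ?_⟩
    rw [e06_transfer hP hP₀ m (fun y : ℤ => α * m + δ * n ≤ (y : ℝ))]
    obtain ⟨hint, hle2⟩ := hexp m
    have hmnR : (m : ℝ) ≤ n := by exact_mod_cast hmn
    have h1 : P₀.real {ω | α * m + δ * n ≤ (rn M₀ m ω : ℝ)} ≤
        P₀.real {ω | Real.exp (θ * δ / 2 * n) ≤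
          Real.exp (θ * (rn M₀ m ω - (α + δ / 2) * m))} := by
      refine measureReal_mono ?_ (measure_ne_top _ _)
      intro ω hω
      have hω' : α * m + δ * n ≤ (rn M₀ m ω : ℝ) := hω
      show Real.exp (θ * δ / 2 * n) ≤ Real.exp (θ * (rn M₀ m ω - (α + δ / 2) * m))
      apply Real.exp_le_exp.2
      have h2 : δ / 2 * n ≤ (rn M₀ m ω : ℝ) - (α + δ / 2) * m := by nlinarith
      nlinarith
    have h2 := mul_meas_ge_le_integral_of_nonneg (μ := P₀)
      (Filter.Eventually.of_forall fun ω =>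
        (Real.exp_pos (θ * (rn M₀ m ω - (α + δ / 2) * m))).le) hint (Real.exp (θ * δ / 2 * n))
    have h3 : Real.exp (θ * δ / 2 * n) * P₀.real {ω | α * m + δ * n ≤ (rn M₀ m ω : ℝ)} ≤ C :=
      (mul_le_mul_of_nonneg_left h1 (Real.exp_pos _).le).trans (h2.trans hle2)
    have h4 : Real.exp (-(θ * δ / 2) * n) * Real.exp (θ * δ / 2 * n) = 1 := by
      rw [← Real.exp_add]
      simp
    calc P₀.real {ω | α * m + δ * n ≤ (rn M₀ m ω : ℝ)}
        = Real.exp (-(θ * δ / 2) * n) * (Real.exp (θ * δ / 2 * n) *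
            P₀.real {ω | α * m + δ * n ≤ (rn M₀ m ω : ℝ)}) := by
          rw [← mul_assoc, h4, one_mul]
      _ ≤ Real.exp (-(θ * δ / 2) * n) * C :=
          mul_le_mul_of_nonneg_left h3 (Real.exp_pos _).le
      _ = C * Real.exp (-(θ * δ / 2) * n) := mul_comm _ _

end CPM
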