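import Pool.Agent.Lib.MP_1a4724_pr.E06

/-!
# E07 (120 min) : slanted pieces have high probability

Parameters `u` (time unit) and `μ` (space unit), `q = 8 μ`; `boxI μ i = [8μi - 8μ, 8μi + 72μ]`.
`pieceR i k` : an active path inside `boxI i` which is near `8μi` at time `k u`, near `8μi + 32μ` at
time `(k+1) u` and near `8μi + 64μ` at time `(k+2) u` (near: within `μ`).  `pieceL i k` the same from
right to left.

`pieces_whp`.  By translation in space and time (`IsPoisson.pull` with `z ↦ z + 8μi`,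
`IsPoisson.shiftT (k u)`, `conn_translate`, `Conn.shift`) `i = 0`, `k = 0`; `pieceL` is `pieceR` for
the reflected marks (`z ↦ 64μ - z`; `conn_reflect`, `conn_translate`).
Let `α` be the speed of `edge_lln`, `u` large, `μ = ⌊α u / 32⌋` (so `32μ ≤ αu < 32μ + 32` and
`64μ ≤ 2αu < 64μ + 64`), `n = 2u`, `δ > 0` small (`δ n ≤ μ / 8` for large `u`: `δ = α / 1000`).
Consider the marks; the following events have probability close to `1` when `u` is large :
 (a) `r_n ≥ (α - δ) n`;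
 (b) for all integers `0 ≤ s ≤ n` : `r_s < α s + δ n` (by `upper`, union bound over `n + 1` values);
 (c) for all integers `0 ≤ s ≤ n`, with `x_s = ⌊α s - 3 δ n⌋` : `redge x_s s n < (α - δ) n`
     (`redge_law` : `redge x_s s n - x_s` has the law of `r_{n-s}`, and
     `(α - δ) n - x_s ≥ α (n - s) + 2 δ n`);
 (d) for all integers `0 ≤ s < n` and all `y ∈ [-2αn, 2αn]` there is a site in `[y, y + μ/4]` without
     arrow to its right neighbour during `[s, s + 1]` and a site in `[y, y + μ/4]` without arrow to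
     its left neighbour during `[s, s + 1]` (probability of failure at most
     `(number) * (1 - exp (-lam))^(μ/4)`);
 (e) the regularity `Reg` for all pairs of integer times.
On these events let `(z, 0) → (r_n, n)`, `z ≤ 0`, be an active path (`Reg.mem`); at the integer times
`s` it is at a site `p_s` (`Conn.split`, successively) with `p_s ≤ r_s < α s + δ n` by (b) and
`p_s > x_s` by (c), `z > -3δn - 1`.  Between integer times it stays within `μ/4` of `[p_s, p_{s+1}]`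
by (d) (deterministic lemma : a path during `[s, s+1]` which goes from `≤ w` to `> w + μ/4` crosses
every edge to the right in between).  Hence the path stays inside `boxI 0` and passes at times
`0, u, 2u` within `μ` of `0`, `32μ`, `64μ`.
(`δ n` and the rounding errors are much smaller than `μ`.)
-/

noncomputable section

open MeasureTheory Set

namespace CPM

def boxI (μ : ℕ) (i : ℤ) : Set ℤ := Icc (8 * μ * i - 8 * μ) (8 * μ * i + 72 * μ)

def pieceR (m : ℤ × ℤ → Set ℝ) (u μ : ℕ) (i k : ℤ) : Prop :=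
  ∃ z₀ z₁ z₂ : ℤ, |z₀ - 8 * μ * i| ≤ μ ∧ |z₁ - (8 * μ * i + 32 * μ)| ≤ μ ∧
    |z₂ - (8 * μ * i + 64 * μ)| ≤ μ ∧
    Conn (adjOn (boxI μ i) intAdj) m (z₀, (k : ℝ) * u) (z₁, ((k : ℝ) + 1) * u) ∧
    Conn (adjOn (boxI μ i) intAdj) m (z₁, ((k : ℝ) + 1) * u) (z₂, ((k : ℝ) + 2) * u)

def pieceL (m : ℤ × ℤ → Set ℝ) (u μ : ℕ) (i k : ℤ) : Prop :=
  ∃ z₀ z₁ z₂ : ℤ, |z₀ - (8 * μ * i + 64 * μ)| ≤ μ ∧ |z₁ - (8 * μ * i + 32 * μ)| ≤ μ ∧
    |z₂ - 8 * μ * i| ≤ μ ∧
    Conn (adjOn (boxI μ i) intAdj) m (z₀, (k : ℝ) * u) (z₁, ((k : ℝ) + 1) * u) ∧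
    Conn (adjOn (boxI μ i) intAdj) m (z₁, ((k : ℝ) + 1) * u) (z₂, ((k : ℝ) + 2) * u)

/-- confinement between two barriers -/
theorem e07_confine {m : ℤ × ℤ → Set ℝ} {s s' : ℝ} {y₁ y₂ : ℤ}
    (h1 : ∀ t ∈ Icc s s', t ∉ m (y₁, y₁ + 1)) (h2 : ∀ t ∈ Icc s s', t ∉ m (y₂, y₂ - 1))
    {p q : ℤ × ℝ} (h : Conn intAdj m p q) (hp : p.1 ∈ Icc y₂ y₁) (hs : s ≤ p.2)
    (ht : q.2 ≤ s') : Conn (adjOn (Icc y₂ y₁) intAdj) m p q ∧ q.1 ∈ Icc y₂ y₁ := by
  unfold Conn at h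
  induction h with
  | refl => exact ⟨Conn.refl _, hp⟩
  | tail hb hs' ih =>
    have h3 := Conn.time_le hb
    have h4 := d01_step_le hs'
    obtain ⟨h5, h6⟩ := ih (h4.trans ht)
    cases hs' with
    | wait x a b hab hr => exact ⟨h5.trans (Relation.ReflTransGen.single (Step.wait x a b hab hr)), h6⟩
    | jump x z u hadj hne hu =>
      have h7 : x ∈ Icc y₂ y₁ := h6
      have h8 : z ∈ Icc y₂ y₁ := by
        have hadj' := hadj
        unfold intAdj at hadj'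
        constructor
        · by_contra hz
          have e1 : x = y₂ := by have := h7.1; omega
          have e2 : z = y₂ - 1 := by omega
          subst e1; subst e2
          exact h2 u ⟨hs.trans h3, ht⟩ hu
        · by_contra hz
          have e1 : x = y₁ := by have := h7.2; omega
          have e2 : z = y₁ + 1 := by omega
          subst e1; subst e2
          exact h1 u ⟨hs.trans h3, ht⟩ hu
      exact ⟨h5.trans (Relation.ReflTransGen.single (Step.jump x z u ⟨hadj, h7, h8⟩ hne hu)), h8⟩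

/-- positions at the integer times -/
theorem e07_split {m : ℤ × ℤ → Set ℝ} {z : ℤ} (n : ℕ) :
    ∀ y : ℤ, Conn intAdj m (z, 0) (y, (n : ℝ)) →
    ∃ p : ℕ → ℤ, Conn intAdj m (z, 0) (p 0, 0) ∧
      (∀ s : ℕ, s < n → Conn intAdj m (p s, (s : ℝ)) (p (s + 1), ((s + 1 : ℕ) : ℝ))) ∧ p n = y := by
  induction n with
  | zero =>
    intro y h
    refine ⟨fun _ => y, by simpa using h, fun s hs => absurd hs (Nat.not_lt_zero s), rfl⟩
  | succ n ih =>
    intro y h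
    obtain ⟨w, h1, h2⟩ := h.split (u := (n : ℝ)) (Nat.cast_nonneg n) (by push_cast; linarith)
    obtain ⟨p, hp1, hp2, hp3⟩ := ih w h1
    refine ⟨fun s => if s ≤ n then p s else y, ?_, fun s hs => ?_, ?_⟩
    · simpa using hp1
    · rcases Nat.lt_succ_iff_lt_or_eq.1 hs with h3 | h3
      · simp only [h3.le, if_true, Nat.succ_le_of_lt h3]
        exact hp2 s h3
      · subst h3
        simp only [le_refl, if_true, Nat.not_succ_le_self, if_false]
        rw [hp3]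
        exact h2
    · simp

theorem e07_chain {adj : ℤ → ℤ → Prop} {m : ℤ × ℤ → Set ℝ} {p : ℕ → ℤ} {n : ℕ}
    (h : ∀ s : ℕ, s < n → Conn adj m (p s, (s : ℝ)) (p (s + 1), ((s + 1 : ℕ) : ℝ))) {a b : ℕ}
    (hab : a ≤ b) (hb : b ≤ n) : Conn adj m (p a, (a : ℝ)) (p b, (b : ℝ)) := by
  induction b, hab using Nat.le_induction with
  | base => exact Conn.refl _
  | succ b hab ih => exact (ih (by omega)).trans (h b (by omega))

/-- the deterministic part -/
theorem e07_det {m : ℤ × ℤ → Set ℝ} {u μ : ℕ} {α δ : ℝ} (hα : 0 < α)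
    (hμ1 : 32 * (μ : ℝ) ≤ α * u) (hμ2 : α * u ≤ 32 * (μ : ℝ) + α)
    (hδ1 : 3 * δ * (2 * u) ≤ μ) (hδ2 : 2 * α + δ * (2 * u) ≤ μ)
    (he : ∀ s : ℕ, s ≤ 2 * u → Reg m 0 s ∧ Reg m s (2 * u : ℕ))
    (ha : (α - δ) * (2 * u) ≤ redge m 0 0 (2 * u : ℕ))
    (hb : ∀ s : ℕ, s ≤ 2 * u → (redge m 0 0 s : ℝ) < α * s + δ * (2 * u))
    (hc : ∀ s : ℕ, s ≤ 2 * u →
      (redge m ⌊α * s - 3 * δ * (2 * u)⌋ s (2 * u : ℕ) : ℝ) < (α - δ) * (2 * u))
    (hd1 : ∀ s : ℕ, s < 2 * u → ∃ j : ℕ, j < 7 * μ ∧ ∀ t ∈ Icc (s : ℝ) (s + 1),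
      t ∉ m (65 * μ + j, 65 * μ + j + 1))
    (hd2 : ∀ s : ℕ, s < 2 * u → ∃ j : ℕ, j < 7 * μ ∧ ∀ t ∈ Icc (s : ℝ) (s + 1),
      t ∉ m (-μ - j, -μ - j - 1)) :
    pieceR m u μ 0 0 := by
  obtain ⟨z, hz, hconn⟩ := (he (2 * u) le_rfl).1.mem 0
  obtain ⟨p, hp0, hp1, hp2⟩ := e07_split (2 * u) _ hconn
  -- the position at the integer times
  have hpre : ∀ s : ℕ, s ≤ 2 * u → Conn intAdj m (z, 0) (p s, (s : ℝ)) := by
    intro s hs
    have h1 := e07_chain hp1 (Nat.zero_le s) hs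
    refine hp0.trans ?_
    simpa using h1
  have hup : ∀ s : ℕ, s ≤ 2 * u → (p s : ℝ) < α * s + δ * (2 * u) := by
    intro s hs
    have h1 : p s ≤ redge m 0 0 s := (he s hs).1.le ⟨z, hz, hpre s hs⟩
    have h2 : (p s : ℝ) ≤ redge m 0 0 s := by exact_mod_cast h1
    exact h2.trans_lt (hb s hs)
  have hlo : ∀ s : ℕ, s ≤ 2 * u → α * s - 3 * δ * (2 * u) < p s := by
    intro s hs
    by_contra hcon
    have h1 : p s ≤ ⌊α * s - 3 * δ * (2 * u)⌋ := Int.le_floor.2 (not_lt.1 hcon)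
    have h2 : redge m 0 0 (2 * u : ℕ) ∈
        rset m ⌊α * s - 3 * δ * (2 * u)⌋ s (2 * u : ℕ) := by
      refine ⟨p s, h1, ?_⟩
      rw [← hp2]
      exact e07_chain hp1 hs le_rfl
    have h3 := (he s hs).2.le h2
    have h4 : (redge m 0 0 (2 * u : ℕ) : ℝ) ≤
        redge m ⌊α * s - 3 * δ * (2 * u)⌋ s (2 * u : ℕ) := by exact_mod_cast h3
    have h5 := hc s hs
    linarith
  have hu0 : (0 : ℝ) ≤ u := Nat.cast_nonneg u
  have hbox : ∀ s : ℕ, s ≤ 2 * u → -(μ : ℤ) ≤ p s ∧ p s ≤ 65 * μ := by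
    intro s hs
    have h1 := hup s hs
    have h2 := hlo s hs
    have hs0 : (0 : ℝ) ≤ s := Nat.cast_nonneg s
    have hs1 : (s : ℝ) ≤ 2 * u := by exact_mod_cast hs
    have h3 : α * s ≤ α * (2 * u) := mul_le_mul_of_nonneg_left hs1 hα.le
    have h4 : 0 ≤ α * s := mul_nonneg hα.le hs0
    constructor
    · have : (-(μ : ℝ)) ≤ p s := by linarith
      exact_mod_cast this
    · have : (p s : ℝ) ≤ 65 * μ := by linarith
      exact_mod_cast this
  -- confinement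
  have hin : ∀ s : ℕ, s < 2 * u → Conn (adjOn (boxI μ 0) intAdj) m (p s, (s : ℝ))
      (p (s + 1), ((s + 1 : ℕ) : ℝ)) := by
    intro s hs
    obtain ⟨j, hj, hj2⟩ := hd1 s hs
    obtain ⟨j', hj', hj2'⟩ := hd2 s hs
    obtain ⟨h1, h2⟩ := hbox s hs.le
    have h3 := (e07_confine (s := (s : ℝ)) (s' := (s : ℝ) + 1) (y₁ := 65 * μ + j)
      (y₂ := -μ - j') hj2 hj2' (hp1 s hs) (by constructor <;> simp only <;> omega) le_rfl
      (by simp)).1
    refine h3.mono_on ?_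
    unfold boxI
    intro w hw
    constructor
    · have := hw.1; omega
    · have := hw.2; omega
  have hc1 := e07_chain hin (Nat.zero_le u) (by omega)
  have hc2 := e07_chain hin (show u ≤ 2 * u by omega) le_rfl
  have b0 := hup 0 (Nat.zero_le _)
  have b0' := hlo 0 (Nat.zero_le _)
  have b1 := hup u (by omega)
  have b1' := hlo u (by omega)
  have b2 := hup (2 * u) le_rfl
  have b2' := hlo (2 * u) le_rfl
  push_cast at b0 b0' b1 b1' b2 b2'
  have key : ∀ (a b : ℤ), ((a : ℝ) ≤ b + μ) → ((b : ℝ) - μ ≤ a) → |a - b| ≤ (μ : ℤ) := by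
    intro a b h1 h2
    rw [abs_le]
    have h1' : a ≤ b + μ := by exact_mod_cast h1
    have h2' : b - μ ≤ a := by exact_mod_cast h2
    constructor <;> linarith
  refine ⟨p 0, p u, p (2 * u), key _ _ ?_ ?_, key _ _ ?_ ?_, key _ _ ?_ ?_, ?_, ?_⟩
  · push_cast; linarith
  · push_cast; linarith
  · push_cast; linarith
  · push_cast; linarith
  · push_cast; linarith
  · push_cast; linarith
  · simpa using hc1
  · simpa using hc2

/-- translation of the pieces -/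
theorem e07_trR {m : ℤ × ℤ → Set ℝ} {u μ : ℕ} {i k : ℤ}
    (h : pieceR (shiftT ((k : ℝ) * u) (pull (fun z : ℤ => z + 8 * μ * i) m)) u μ 0 0) :
    pieceR m u μ i k := by
  obtain ⟨z₀, z₁, z₂, h0, h1, h2, h3, h4⟩ := h
  have hB : {z : ℤ | z - 8 * μ * i ∈ boxI μ 0} = boxI μ i := by
    ext z
    simp only [boxI, mem_ofPred_eq, mem_Icc]
    constructor <;> rintro ⟨a, b⟩ <;> constructor <;> linarith
  rw [Conn.shift, conn_translate, hB] at h3 h4
  refine ⟨z₀ + 8 * μ * i, z₁ + 8 * μ * i, z₂ + 8 * μ * i, ?_, ?_, ?_, ?_, ?_⟩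
  · rw [abs_le] at h0 ⊢; constructor <;> linarith [h0.1, h0.2]
  · rw [abs_le] at h1 ⊢; constructor <;> linarith [h1.1, h1.2]
  · rw [abs_le] at h2 ⊢; constructor <;> linarith [h2.1, h2.2]
  · convert h3 using 3 <;> push_cast <;> ring
  · convert h4 using 3 <;> push_cast <;> ring

theorem e07_trL {m : ℤ × ℤ → Set ℝ} {u μ : ℕ} {i k : ℤ}
    (h : pieceR (shiftT ((k : ℝ) * u) (pull (fun z : ℤ => -z)
      (pull (fun z : ℤ => z + (8 * μ * i + 64 * μ)) m))) u μ 0 0) :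
    pieceL m u μ i k := by
  obtain ⟨z₀, z₁, z₂, h0, h1, h2, h3, h4⟩ := h
  have hB : {z : ℤ | z - (8 * μ * i + 64 * μ) ∈ {z : ℤ | -z ∈ boxI μ 0}} = boxI μ i := by
    ext z
    simp only [boxI, mem_ofPred_eq, mem_Icc]
    constructor <;> rintro ⟨a, b⟩ <;> constructor <;> linarith
  rw [Conn.shift, conn_reflect, conn_translate, hB] at h3 h4
  refine ⟨-z₀ + (8 * μ * i + 64 * μ), -z₁ + (8 * μ * i + 64 * μ), -z₂ + (8 * μ * i + 64 * μ),
    ?_, ?_, ?_, ?_, ?_⟩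
  · rw [abs_le] at h0 ⊢; constructor <;> linarith [h0.1, h0.2]
  · rw [abs_le] at h1 ⊢; constructor <;> linarith [h1.1, h1.2]
  · rw [abs_le] at h2 ⊢; constructor <;> linarith [h2.1, h2.2]
  · convert h3 using 3 <;> push_cast <;> ring
  · convert h4 using 3 <;> push_cast <;> ring

/-- law of the edge in the form of tails -/
theorem e07_law {Ω : Type*} [MeasurableSpace Ω] {P : Measure Ω} {M : Ω → ℤ × ℤ → Set ℝ} {lam : ℝ}
    (hlam : 0 < lam) (hP : IsPoisson P M (cRate lam)) (x : ℤ) {s t : ℕ} (hst : s ≤ t) (a : ℝ) :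
    P.real {ω | a ≤ ((redge (M ω) x s t - x : ℤ) : ℝ)} =
      P.real {ω | a ≤ (rn M (t - s) ω : ℝ)} := by
  have := hP.prob
  have hf : Measurable (fun ω => redge (M ω) x s t - x) :=
    (measurable_of_countable (fun z : ℤ => z - x)).comp (redge_measurable hP x s t)
  have hg : Measurable (fun ω => rn M (t - s) ω) := redge_measurable hP 0 0 _
  have hmap : Measure.map (fun ω => redge (M ω) x s t - x) P =
      Measure.map (fun ω => rn M (t - s) ω) P := by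
    refine Measure.ext_of_singleton (fun y => ?_)
    rw [Measure.map_apply hf (measurableSet_singleton y),
      Measure.map_apply hg (measurableSet_singleton y)]
    have h1 := redge_law hlam hP x y (s := (s : ℝ)) (t := (t : ℝ)) (by exact_mod_cast hst)
      (-(s : ℝ))
    have h2 : ((s : ℝ) + -(s : ℝ)) = 0 := by ring
    have h3 : ((t : ℝ) + -(s : ℝ)) = ((t - s : ℕ) : ℝ) := by
      rw [Nat.cast_sub hst]; ring
    rw [h2, h3] at h1
    have h4 := (ENNReal.toReal_eq_toReal_iff' (measure_ne_top _ _) (measure_ne_top _ _)).1 h1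
    exact h4
  have hm : MeasurableSet {z : ℤ | a ≤ (z : ℝ)} := MeasurableSet.of_discrete
  have h5 : (Measure.map (fun ω => redge (M ω) x s t - x) P) {z : ℤ | a ≤ (z : ℝ)} =
      (Measure.map (fun ω => rn M (t - s) ω) P) {z : ℤ | a ≤ (z : ℝ)} := by rw [hmap]
  rw [Measure.map_apply hf hm, Measure.map_apply hg hm] at h5
  unfold Measure.real
  exact congrArg ENNReal.toReal h5

theorem e07_down {Ω : Type*} [MeasurableSpace Ω] {P : Measure Ω} {M : Ω → ℤ × ℤ → Set ℝ} {lam : ℝ}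
    (hP : IsPoisson P M (cRate lam)) {s t : ℝ} (hst : s ≤ t) (x : ℤ) (k : ℕ) :
    P.real {ω | ∀ j < k, ¬ ∀ u ∈ Icc s t, u ∉ M ω (x - (j : ℤ), x - (j : ℤ) - 1)} =
      (1 - Real.exp (-(lam * (t - s)))) ^ k := by
  refine e01_prod hP hst (fun j : ℕ => (x - (j : ℤ), x - (j : ℤ) - 1)) ?_ ?_ k
  · intro i j hij
    have := (Prod.mk.inj hij).1
    omega
  · intro j
    unfold cRate
    rw [if_neg]
    simp only
    omega

/-- the probability estimate for the basic piece -/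
theorem e07_prob {Ω : Type*} [MeasurableSpace Ω] {P : Measure Ω} {M : Ω → ℤ × ℤ → Set ℝ} {lam : ℝ}
    (hlam : 0 < lam) (hP : IsPoisson P M (cRate lam)) {u μ : ℕ} {α δ : ℝ} (hα : 0 < α)
    (hδ : 0 < δ)
    (hμ1 : 32 * (μ : ℝ) ≤ α * u) (hμ2 : α * u ≤ 32 * (μ : ℝ) + α)
    (hδ1 : 3 * δ * (2 * u) ≤ μ) (hδ2 : 2 * α + δ * (2 * u) ≤ μ) {ε₁ ε₂ ε₃ : ℝ}
    (h1 : P.real {ω | (rn M (2 * u) ω : ℝ) < (α - δ) * (2 * u)} ≤ ε₁)
    (h2 : ∀ m : ℕ, m ≤ 2 * u → P.real {ω | α * m + δ * (2 * u) ≤ (rn M m ω : ℝ)} ≤ ε₂)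
    (h3 : (1 - Real.exp (-lam)) ^ (7 * μ) ≤ ε₃) :
    P.real {ω | ¬ pieceR (M ω) u μ 0 0} ≤ ε₁ + (2 * u + 1) * (2 * ε₂ + 2 * ε₃) := by
  have := hP.prob
  let A : Set Ω := {ω | (rn M (2 * u) ω : ℝ) < (α - δ) * (2 * u)}
  let B : ℕ → Set Ω := fun s => {ω | α * s + δ * (2 * u) ≤ (rn M s ω : ℝ)}
  let C : ℕ → Set Ω := fun s => {ω | α * ((2 * u - s : ℕ) : ℝ) + δ * (2 * u) ≤
    ((redge (M ω) ⌊α * s - 3 * δ * (2 * u)⌋ s (2 * u : ℕ) - ⌊α * s - 3 * δ * (2 * u)⌋ : ℤ) : ℝ)}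
  let D : ℕ → Set Ω := fun s => {ω | ∀ j < 7 * μ, ¬ ∀ t ∈ Icc (s : ℝ) (s + 1),
    t ∉ M ω (65 * μ + (j : ℤ), 65 * μ + (j : ℤ) + 1)}
  let E : ℕ → Set Ω := fun s => {ω | ∀ j < 7 * μ, ¬ ∀ t ∈ Icc (s : ℝ) (s + 1),
    t ∉ M ω (-μ - (j : ℤ), -μ - (j : ℤ) - 1)}
  have hB : ∀ s, s ≤ 2 * u → P.real (B s) ≤ ε₂ := fun s hs => h2 s hs
  have hC : ∀ s, s ≤ 2 * u → P.real (C s) ≤ ε₂ := by
    intro s hs
    have h4 := e07_law hlam hP ⌊α * s - 3 * δ * (2 * u)⌋ hs
      (α * ((2 * u - s : ℕ) : ℝ) + δ * (2 * u))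
    have h5 := h2 (2 * u - s) (Nat.sub_le _ _)
    exact (le_of_eq h4).trans h5
  have hlen : ∀ s : ℕ, lam * ((s : ℝ) + 1 - s) = lam := fun s => by ring
  have hD : ∀ s, P.real (D s) ≤ ε₃ := by
    intro s
    have h4 := e01_up hP (s := (s : ℝ)) (t := s + 1) (by linarith) (65 * μ) (7 * μ)
    rw [hlen] at h4
    exact (le_of_eq h4).trans h3
  have hE : ∀ s, P.real (E s) ≤ ε₃ := by
    intro s
    have h4 := e07_down hP (s := (s : ℝ)) (t := s + 1) (by linarith) (-μ) (7 * μ)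
    rw [hlen] at h4
    exact (le_of_eq h4).trans h3
  have hreg : ∀ᵐ ω ∂P, ∀ s : ℕ, s ≤ 2 * u → Reg (M ω) 0 s ∧ Reg (M ω) s (2 * u : ℕ) := by
    rw [ae_all_iff]
    intro s
    by_cases hs : s ≤ 2 * u
    · filter_upwards [ae_reg hlam hP (Nat.cast_nonneg s : (0 : ℝ) ≤ s),
        ae_reg hlam hP (show (s : ℝ) ≤ (2 * u : ℕ) by exact_mod_cast hs)] with ω e1 e2 _
      exact ⟨e1, e2⟩
    · exact Filter.Eventually.of_forall fun ω h => absurd h hs
  have hsub : {ω | ¬ pieceR (M ω) u μ 0 0} ≤ᵐ[P]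
      (A ∪ ⋃ s ∈ Finset.range (2 * u + 1), (B s ∪ C s) ∪ (D s ∪ E s) : Set Ω) := by
    filter_upwards [hreg] with ω hω
    intro hnot
    by_contra hcon
    apply hnot
    have hcon' : ω ∉ (A ∪ ⋃ s ∈ Finset.range (2 * u + 1), (B s ∪ C s) ∪ (D s ∪ E s) : Set Ω) :=
      hcon
    simp only [mem_union, mem_iUnion, not_or, not_exists, Finset.mem_range] at hcon'
    obtain ⟨k1, k2⟩ := hcon'
    have k3 : ∀ s : ℕ, s ≤ 2 * u → (ω ∉ B s ∧ ω ∉ C s) ∧ ω ∉ D s ∧ ω ∉ E s := fun s hs =>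
      k2 s (Nat.lt_succ_of_le hs)
    refine e07_det hα hμ1 hμ2 hδ1 hδ2 hω ?_ ?_ ?_ ?_ ?_
    · exact not_lt.1 k1
    · intro s hs
      exact not_le.1 (k3 s hs).1.1
    · intro s hs
      have k4 : ¬ (α * ((2 * u - s : ℕ) : ℝ) + δ * (2 * u) ≤
        ((redge (M ω) ⌊α * s - 3 * δ * (2 * u)⌋ s (2 * u : ℕ) -
          ⌊α * s - 3 * δ * (2 * u)⌋ : ℤ) : ℝ)) := (k3 s hs).1.2
      rw [not_le, Nat.cast_sub hs] at k4
      push_cast at k4 ⊢
      have k5 := Int.floor_le (α * s - 3 * δ * (2 * u))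
      have k6 : (0 : ℝ) ≤ u := Nat.cast_nonneg u
      have k7 : 0 ≤ δ * (2 * u) := by positivity
      nlinarith
    · intro s hs
      by_contra k4
      exact (k3 s hs.le).2.1 (fun j hj k5 => k4 ⟨j, hj, k5⟩)
    · intro s hs
      by_contra k4
      exact (k3 s hs.le).2.2 (fun j hj k5 => k4 ⟨j, hj, k5⟩)
  have hle : P.real {ω | ¬ pieceR (M ω) u μ 0 0} ≤
      P.real (A ∪ ⋃ s ∈ Finset.range (2 * u + 1), (B s ∪ C s) ∪ (D s ∪ E s) : Set Ω) := by
    unfold Measure.real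
    exact ENNReal.toReal_mono (measure_ne_top _ _) (measure_mono_ae hsub)
  have hsum : P.real (⋃ s ∈ Finset.range (2 * u + 1), (B s ∪ C s) ∪ (D s ∪ E s) : Set Ω) ≤
      ∑ s ∈ Finset.range (2 * u + 1), P.real ((B s ∪ C s) ∪ (D s ∪ E s)) :=
    measureReal_biUnion_finset_le _ _
  have hterm : ∀ s ∈ Finset.range (2 * u + 1), P.real ((B s ∪ C s) ∪ (D s ∪ E s)) ≤
      2 * ε₂ + 2 * ε₃ := by
    intro s hs
    have hs' : s ≤ 2 * u := Nat.lt_succ_iff.1 (Finset.mem_range.1 hs)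
    have g1 := measureReal_union_le (μ := P) (B s ∪ C s) (D s ∪ E s)
    have g2 := measureReal_union_le (μ := P) (B s) (C s)
    have g3 := measureReal_union_le (μ := P) (D s) (E s)
    have := hB s hs'
    have := hC s hs'
    have := hD s
    have := hE s
    linarith
  have hsum2 := hsum.trans (Finset.sum_le_card_nsmul _ _ _ hterm)
  rw [Finset.card_range, nsmul_eq_mul] at hsum2
  push_cast at hsum2
  have g4 := measureReal_union_le (μ := P) A
    (⋃ s ∈ Finset.range (2 * u + 1), (B s ∪ C s) ∪ (D s ∪ E s))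
  have g5 : P.real A ≤ ε₁ := h1
  linarith

theorem e07_lim {a b : ℝ} (ha0 : 0 ≤ a) (ha : a < 1) (hb0 : 0 ≤ b) (hb : b < 1) (K C : ℝ) {ε : ℝ}
    (hε : 0 < ε) :
    ∀ᶠ μ : ℕ in Filter.atTop, (K * μ + 4) * (2 * (C * a ^ μ) + 2 * b ^ μ) ≤ ε := by
  have h1 := tendsto_self_mul_const_pow_of_lt_one ha0 ha
  have h2 := tendsto_self_mul_const_pow_of_lt_one hb0 hb
  have h3 := tendsto_pow_atTop_nhds_zero_of_lt_one ha0 ha
  have h4 := tendsto_pow_atTop_nhds_zero_of_lt_one hb0 hb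
  have h5 := (((h1.const_mul (2 * K * C)).add (h2.const_mul (2 * K))).add
    (h3.const_mul (8 * C))).add (h4.const_mul 8)
  simp only [mul_zero, add_zero] at h5
  filter_upwards [h5.eventually (gt_mem_nhds hε)] with μ hμ
  refine le_of_eq_of_le ?_ hμ.le
  ring

theorem pieces_whp {lam : ℝ} (h : lambdaC < ENNReal.ofReal lam) (ε : ℝ) (hε : 0 < ε) :
    ∃ u μ : ℕ, 0 < u ∧ 0 < μ ∧
      ∀ (Ω : Type) [MeasurableSpace Ω] (P : Measure Ω) (M : Ω → ℤ × ℤ → Set ℝ),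
        IsPoisson P M (cRate lam) → ∀ i k : ℤ,
          P.real {ω | ¬ pieceR (M ω) u μ i k} ≤ ε ∧ P.real {ω | ¬ pieceL (M ω) u μ i k} ≤ ε := by
  have hlam : 0 < lam := by
    by_contra hcon
    rw [ENNReal.ofReal_of_nonpos (not_lt.1 hcon)] at h
    exact absurd h not_lt_zero
  obtain ⟨α, hα, hlow, hup⟩ := edge_lln h
  set δ : ℝ := α / 1000 with hδdef
  have hδ : 0 < δ := by positivity
  obtain ⟨n₀, hn₀⟩ := hlow δ hδ (ε / 2) (by positivity)
  obtain ⟨C, c, hC, hc, hupp⟩ := hup δ hδ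
  set r : ℝ := Real.exp (-c * (64 / α)) with hr
  have hr0 : 0 ≤ r := (Real.exp_pos _).le
  have hr1 : r < 1 := by
    rw [hr, Real.exp_lt_one_iff]
    have : 0 < c * (64 / α) := by positivity
    linarith
  set q : ℝ := 1 - Real.exp (-lam) with hq
  obtain ⟨hq0, hq1⟩ := e01_q hlam.le
  have ev1 := e07_lim hr0 hr1 hq0 hq1 (64 / α) C (show 0 < ε / 2 by positivity)
  have ev2 : ∀ᶠ μ : ℕ in Filter.atTop, 4 * α ≤ (μ : ℝ) :=
    tendsto_natCast_atTop_atTop.eventually_ge_atTop _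
  have ev3 : ∀ᶠ μ : ℕ in Filter.atTop, α * n₀ ≤ (μ : ℝ) :=
    tendsto_natCast_atTop_atTop.eventually_ge_atTop _
  obtain ⟨μ, hμ1, hμ2, hμ3, hμ0⟩ := (ev1.and (ev2.and (ev3.and
    (Filter.eventually_gt_atTop 0)))).exists
  have hμpos : (0 : ℝ) < μ := by exact_mod_cast hμ0
  set u : ℕ := ⌈32 * (μ : ℝ) / α⌉₊ with hu
  have hu1 : 32 * (μ : ℝ) / α ≤ u := Nat.le_ceil _
  have hu2 : (u : ℝ) < 32 * (μ : ℝ) / α + 1 := Nat.ceil_lt_add_one (by positivity)
  have hu1' : 32 * (μ : ℝ) ≤ α * u := by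
    rw [div_le_iff₀ hα] at hu1; linarith
  have hu2' : α * u ≤ 32 * (μ : ℝ) + α := by
    have h1 := mul_lt_mul_of_pos_left hu2 hα
    have h2 : α * (32 * (μ : ℝ) / α + 1) = 32 * μ + α := by field_simp
    linarith
  have hupos : 0 < u := by
    have h1 : (0 : ℝ) < u := lt_of_lt_of_le (by positivity) hu1
    exact_mod_cast h1
  have hbound : ∀ (Ω : Type) [MeasurableSpace Ω] (P : Measure Ω) (M : Ω → ℤ × ℤ → Set ℝ),
        IsPoisson P M (cRate lam) → P.real {ω | ¬ pieceR (M ω) u μ 0 0} ≤ ε := by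
    intro Ω _ P M hP
    have hn : n₀ ≤ 2 * u := by
      have h1 : (n₀ : ℝ) ≤ 2 * u := by
        have h2 : α * n₀ ≤ α * (2 * u) := by nlinarith
        exact le_of_mul_le_mul_left h2 hα
      exact_mod_cast h1
    have hexp : Real.exp (-c * (2 * u : ℕ)) ≤ r ^ μ := by
      rw [hr, ← Real.exp_nat_mul, Real.exp_le_exp]
      push_cast
      have h1 : (μ : ℝ) * (-c * (64 / α)) = -c * (2 * (32 * μ / α)) := by ring
      rw [h1]
      nlinarith
    have key := e07_prob hlam hP hα hδ hu1' hu2' (ε₁ := ε / 2) (ε₂ := C * r ^ μ) (ε₃ := q ^ μ)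
      (by rw [hδdef]; nlinarith) (by rw [hδdef]; nlinarith)
      (by have := hn₀ (2 * u) hn Ω P M hP; push_cast at this; exact this)
      (fun m hm => by
        have h1 := hupp m (2 * u) hm Ω P M hP
        push_cast at h1
        refine h1.trans ?_
        refine mul_le_mul_of_nonneg_left ?_ hC.le
        push_cast at hexp
        exact hexp)
      (pow_le_pow_of_le_one hq0 hq1.le (by omega))
    refine key.trans ?_
    have h1 : (2 * (u : ℝ) + 1) ≤ 64 / α * μ + 4 := by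
      have : 64 / α * (μ : ℝ) = 2 * (32 * μ / α) := by ring
      rw [this]
      linarith
    have h2 : 0 ≤ 2 * (C * r ^ μ) + 2 * q ^ μ := by positivity
    have h3 := mul_le_mul_of_nonneg_right h1 h2
    linarith
  refine ⟨u, μ, hupos, hμ0, fun Ω _ P M hP i k => ⟨?_, ?_⟩⟩
  · have := hP.prob
    have hinj : Function.Injective (fun z : ℤ => z + 8 * μ * i) := fun a b hab => by
      simpa using hab
    have h1 := hbound Ω P _ ((hP.pull hinj).shiftT ((k : ℝ) * u))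
    refine le_trans (measureReal_mono fun ω hω => ?_) h1
    exact fun hcon => hω (e07_trR hcon)
  · have := hP.prob
    have hinj : Function.Injective (fun z : ℤ => z + (8 * μ * i + 64 * μ)) := fun a b hab => by
      simpa using hab
    have hinj2 : Function.Injective (fun z : ℤ => -z) := neg_injective
    have h1 := hbound Ω P _ (((hP.pull hinj).pull hinj2).shiftT ((k : ℝ) * u))
    refine le_trans (measureReal_mono fun ω hω => ?_) h1
    exact fun hcon => hω (e07_trL hcon)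

end CPM
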