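import Pool.Agent.Lib.MP_1a4724_pr.D03

/-!
# F01 (60 min) : gluing on the common ray (deterministic)

`x = γ 0`, `z = γ' 0`; `γ (a + i) = R (b + i)`, `γ' (a' + i) = R (b' + i)`; `b, b' ≤ j₁`.
* `h1` : a path along `γ` from `(x, s₁)` to the position `z₁` at time `T`,
  `z₁ > a + (j₁ - b) + N`;
* `h2` : a path along `γ'` from the position `z₂` at time `T` to `(z, s₂)`,
  `z₂ > a' + (j₁ - b') + N`;
* `h3` : a crossing path inside the part `R j₁, ..., R (j₁ + N)` of the ray during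
  `[t₀, t₁] ⊇ [s₁, s₂]`.
Then `(x, s₁)` is connected to `(z, s₂)`.
Proof.  In the coordinates of `γ` the part of the ray is `[a + j₁ - b, a + j₁ - b + N]` :
`pull γ m (a + (j₁ - b) + i, ..) = pull (R (j₁ + ·)) m (i, ..)`, so the crossing path is a path for
`pull γ m` inside this interval (map the steps).  Let `c₁`, `c₂`, `c₃` be its positions (in `[0, N]`) at
the times `s₁`, `T`, `s₂` (`Conn.split`, `Conn.mem`).  In the coordinates of `γ` : path 1 from `0` to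
`z₁`, path 2 (crossing) from `a + j₁ - b + c₁ ≥ 0` to `a + j₁ - b + c₂ < z₁` : `switch` gives a path
from `(0, s₁)` to `(a + j₁ - b + c₂, T)`, mapped to `G` : `(x, s₁) → (R (j₁ + c₂), T)`.  In the
coordinates of `γ'` : path 1 (crossing) from `a' + j₁ - b' + c₂ < z₂` at time `T` to
`a' + j₁ - b' + c₃ ≥ 0` at time `s₂`, path 2 from `z₂` to `0` : `switch` gives
`(a' + j₁ - b' + c₂, T) → (0, s₂)`, mapped : `(R (j₁ + c₂), T) → (z, s₂)`.
-/

open Set

namespace CPM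

/-- the coordinates of the ray in terms of a path which ends in it -/
theorem f01_coord {V : Type*} {m : V × V → Set ℝ} {R γ : ℕ → V} {a b j₁ : ℕ}
    (e : ∀ i, γ (a + i) = R (b + i)) (hb : b ≤ j₁) :
    pull (fun i => R (j₁ + i)) m = pull (fun i => i + (a + (j₁ - b))) (pull γ m) := by
  have h : ∀ i, R (j₁ + i) = γ (i + (a + (j₁ - b))) := by
    intro i
    have h1 := e (j₁ - b + i)
    have h2 : b + (j₁ - b + i) = j₁ + i := by omega
    have h3 : i + (a + (j₁ - b)) = a + (j₁ - b + i) := by omega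
    rw [h2] at h1
    rw [h3]
    exact h1.symm
  funext p
  simp only [pull, h]

theorem f01_shift {V : Type*} {m : V × V → Set ℝ} {R γ : ℕ → V} {a b j₁ N : ℕ}
    (e : ∀ i, γ (a + i) = R (b + i)) (hb : b ≤ j₁) {c d : ℕ} {s t : ℝ}
    (h : Conn (adjOn (Iic N) natAdj) (pull (fun i => R (j₁ + i)) m) (c, s) (d, t)) :
    Conn (adjOn univ natAdj) (pull γ m) (c + (a + (j₁ - b)), s) (d + (a + (j₁ - b)), t) := by
  rw [f01_coord e hb] at h
  refine Conn.map_pull (γ := fun i => i + (a + (j₁ - b))) (fun x y hxy => by simpa using hxy) ?_ h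
  rintro i j ⟨hij, -, -⟩
  refine ⟨?_, mem_univ _, mem_univ _⟩
  unfold natAdj at *
  omega

theorem glue {V : Type*} {adj : V → V → Prop} (hsymm : ∀ x y, adj x y → adj y x)
    {m : V × V → Set ℝ} {R γ γ' : ℕ → V}
    (hγ : Function.Injective γ) (hγ' : Function.Injective γ')
    (aγ : ∀ i, adj (γ i) (γ (i + 1))) (aγ' : ∀ i, adj (γ' i) (γ' (i + 1)))
    {a b a' b' j₁ N z₁ z₂ : ℕ} (e : ∀ i, γ (a + i) = R (b + i))
    (e' : ∀ i, γ' (a' + i) = R (b' + i)) (hb : b ≤ j₁) (hb' : b' ≤ j₁)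
    {t₀ s₁ T s₂ t₁ : ℝ} (ht₀ : t₀ ≤ s₁) (hs₁ : s₁ ≤ T) (hs₂ : T ≤ s₂) (ht₁ : s₂ ≤ t₁)
    (hz₁ : a + (j₁ - b) + N < z₁) (hz₂ : a' + (j₁ - b') + N < z₂)
    (h1 : Conn natAdj (pull γ m) (0, s₁) (z₁, T))
    (h2 : Conn natAdj (pull γ' m) (z₂, T) (0, s₂))
    (h3 : ∃ c d : ℕ, c ≤ N ∧ d ≤ N ∧
      Conn (adjOn (Iic N) natAdj) (pull (fun i => R (j₁ + i)) m) (c, t₀) (d, t₁)) :
    Conn adj m (γ 0, s₁) (γ' 0, s₂) := by
  obtain ⟨c, d, hc, hd, h3⟩ := h3
  obtain ⟨c1, k1, k2⟩ := h3.split ht₀ (hs₁.trans (hs₂.trans ht₁))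
  obtain ⟨c2, k3, k4⟩ := k2.split hs₁ (hs₂.trans ht₁)
  obtain ⟨c3, k5, -⟩ := k4.split hs₂ ht₁
  have hc1 : c1 ≤ N := k1.mem (B := Iic N) hc
  have hc2 : c2 ≤ N := k3.mem (B := Iic N) hc1
  have hn : NoCross natAdj := noCross_nat
  have g1 := f01_shift e hb k3
  have g2 := f01_shift e' hb' k5
  have w1 := (switch hn (subset_univ univ) (subset_univ univ) (conn_univ.mpr h1) g1
    (Nat.zero_le _) (by omega)).1
  have w2 := (switch hn (subset_univ univ) (subset_univ univ) g2 (conn_univ.mpr h2)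
    (by omega) (Nat.zero_le _)).1
  have aγn : ∀ i j, natAdj i j → adj (γ i) (γ j) := by
    rintro i j (rfl | rfl)
    · exact aγ i
    · exact hsymm _ _ (aγ j)
  have aγn' : ∀ i j, natAdj i j → adj (γ' i) (γ' j) := by
    rintro i j (rfl | rfl)
    · exact aγ' i
    · exact hsymm _ _ (aγ' j)
  have v1 := Conn.map_pull hγ aγn w1.of_on
  have v2 := Conn.map_pull hγ' aγn' w2.of_on
  have e1 : γ (c2 + (a + (j₁ - b))) = R (j₁ + c2) := by
    have h4 := e (j₁ - b + c2)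
    rw [show b + (j₁ - b + c2) = j₁ + c2 by omega] at h4
    rw [show c2 + (a + (j₁ - b)) = a + (j₁ - b + c2) by omega, h4]
  have e2 : γ' (c2 + (a' + (j₁ - b'))) = R (j₁ + c2) := by
    have h4 := e' (j₁ - b' + c2)
    rw [show b' + (j₁ - b' + c2) = j₁ + c2 by omega] at h4
    rw [show c2 + (a' + (j₁ - b')) = a' + (j₁ - b' + c2) by omega, h4]
  rw [e1] at v1
  rw [e2] at v2
  exact v1.trans v2

end CPM
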