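import Pool.Agent.Lib.MP_1a4724_pr.D05
import Pool.Agent.Lib.MP_1a4724_pr.F01

/-! # F02a : the deterministic part of F02 -/

open Set

namespace CPM

/-- outside the exceptional events the target is infected in the stationary process -/
theorem f02_det {V : Type*} {G : SimpleGraph V} {m : V × V → Set ℝ} {R : ℕ → V} {γ : V → ℕ → V}
    {a b : V → ℕ} (hγ : ∀ x, Function.Injective (γ x) ∧ γ x 0 = x ∧
      ∀ i, G.Adj (γ x i) (γ x (i + 1)))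
    (he : ∀ x i, γ x (a x + i) = R (b x + i))
    {Δ : Finset V} {y : V} {ν K K' μ μ' N j₁ R₀ zs : ℕ} (hK : K + K' = ν) (hμ : μ ≤ K)
    (hμ' : μ' ≤ K')
    (hΔ : ∀ x ∈ Δ, b x ≤ j₁ ∧ a x + (j₁ - b x) + N < zs)
    (hball : ∀ x, G.dist y x < R₀ → b x ≤ j₁ ∧ a x + (j₁ - b x) + N < zs)
    (g0 : ∃ j : ℕ, j < μ ∧ ∃ x ∈ Δ, etaBar G.Adj m (2 * (j : ℝ)) x ∧
      aliveAt natAdj (pull (γ x) (shiftT (2 * (j : ℝ)) m)) 0 (2 * ((K : ℝ) - j)))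
    (g1 : ∀ x ∈ Δ, ∀ j : ℕ, j < μ →
      aliveAt natAdj (pull (γ x) (shiftT (2 * (j : ℝ)) m)) 0 (2 * ((K : ℝ) - j)) →
      ∃ z : ℕ, zs ≤ z ∧ Conn natAdj (pull (γ x) (shiftT (2 * (j : ℝ)) m)) (0, 0)
        (z, 2 * ((K : ℝ) - j)))
    (g2 : aliveAt G.Adj (revT (2 * (ν : ℝ)) m) y (2 * (μ' : ℝ)) →
      ∃ j : ℕ, j < μ' ∧ ∃ z, Conn G.Adj (revT (2 * (ν : ℝ)) m) (y, 0) (z, 2 * (j : ℝ)) ∧
        aliveAt natAdj (pull (γ z) (shiftT (2 * (j : ℝ)) (revT (2 * (ν : ℝ)) m))) 0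
          (2 * ((K' : ℝ) - j)))
    (g3 : ∀ j : ℕ, j < μ' → ∀ z, Conn G.Adj (revT (2 * (ν : ℝ)) m) (y, 0) (z, 2 * (j : ℝ)) →
      G.dist y z < R₀)
    (g4 : ∀ x, G.dist y x < R₀ → ∀ j : ℕ, j < μ' →
      aliveAt natAdj (pull (γ x) (shiftT (2 * (j : ℝ)) (revT (2 * (ν : ℝ)) m))) 0
        (2 * ((K' : ℝ) - j)) →
      ∃ z : ℕ, zs ≤ z ∧ Conn natAdj (pull (γ x) (shiftT (2 * (j : ℝ)) (revT (2 * (ν : ℝ)) m)))
        (0, 0) (z, 2 * ((K' : ℝ) - j)))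
    (g5 : ∃ c d : ℕ, c ≤ N ∧ d ≤ N ∧
      Conn (adjOn (Iic N) natAdj) (pull (fun i => R (j₁ + i)) m) (c, 0) (d, 2 * (ν : ℝ)))
    (hone : etaOne G.Adj m 0 (2 * (ν : ℝ)) y) : etaBar G.Adj m (2 * (ν : ℝ)) y := by
  have hνR : (ν : ℝ) = K + K' := by rw [← hK]; push_cast; ring
  have hμ'R : (μ' : ℝ) ≤ K' := by exact_mod_cast hμ'
  have hsymm : ∀ x y, G.Adj x y → G.Adj y x := fun x y h => h.symm
  -- the dual process is alive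
  have halive : aliveAt G.Adj (revT (2 * (ν : ℝ)) m) y (2 * (μ' : ℝ)) := by
    obtain ⟨w, hw⟩ := hone
    have h1 : Conn G.Adj (revT (2 * (ν : ℝ)) m) (y, 2 * (ν : ℝ) - 2 * (ν : ℝ))
        (w, 2 * (ν : ℝ) - 0) := (Conn.rev hsymm (2 * (ν : ℝ))).2 hw
    rw [sub_self, sub_zero] at h1
    have h0 : (0 : ℝ) ≤ 2 * (μ' : ℝ) := by positivity
    have h2 : 2 * (μ' : ℝ) ≤ 2 * (ν : ℝ) := by rw [hνR]; have : (0:ℝ) ≤ K := Nat.cast_nonneg _; linarith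
    obtain ⟨z, hz, -⟩ := h1.split h0 h2
    exact ⟨z, hz⟩
  obtain ⟨j', hj', z, hz, hzal⟩ := g2 halive
  have hdz : G.dist y z < R₀ := g3 j' hj' z hz
  obtain ⟨z₂, hz₂, hc₂⟩ := g4 z hdz j' hj' hzal
  obtain ⟨j, hj, x, hx, hxe, hxal⟩ := g0
  obtain ⟨z₁, hz₁, hc₁⟩ := g1 x hx j hj hxal
  have hjR : (j : ℝ) ≤ K := by exact_mod_cast (hj.le.trans hμ)
  have hj'R : (j' : ℝ) ≤ K' := by exact_mod_cast (hj'.le.trans hμ')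
  -- the forward path
  have F1 : Conn natAdj (pull (γ x) m) (0, 2 * (j : ℝ)) (z₁, 2 * (K : ℝ)) := by
    have h := (Conn.shift (adj := natAdj) (m := pull (γ x) m) (x := 0) (y := z₁) (s := 0)
      (t := 2 * ((K : ℝ) - j)) (2 * (j : ℝ))).1 hc₁
    have e1 : 2 * (j : ℝ) + 0 = 2 * (j : ℝ) := by ring
    have e2 : 2 * (j : ℝ) + 2 * ((K : ℝ) - j) = 2 * (K : ℝ) := by ring
    rwa [e1, e2] at h
  -- the dual path
  have F2 : Conn natAdj (pull (γ z) m) (z₂, 2 * (K : ℝ)) (0, 2 * (ν : ℝ) - 2 * (j' : ℝ)) := by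
    have h := (Conn.shift (adj := natAdj) (m := pull (γ z) (revT (2 * (ν : ℝ)) m)) (x := 0)
      (y := z₂) (s := 0) (t := 2 * ((K' : ℝ) - j')) (2 * (j' : ℝ))).1 hc₂
    have e1 : 2 * (j' : ℝ) + 0 = 2 * (ν : ℝ) - (2 * (ν : ℝ) - 2 * (j' : ℝ)) := by ring
    have e2 : 2 * (j' : ℝ) + 2 * ((K' : ℝ) - j') = 2 * (ν : ℝ) - 2 * (K : ℝ) := by
      rw [hνR]; ring
    rw [e1, e2] at h
    exact (Conn.rev natAdj_symm (m := pull (γ z) m) (x := z₂) (y := 0) (s := 2 * (K : ℝ))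
      (t := 2 * (ν : ℝ) - 2 * (j' : ℝ)) (2 * (ν : ℝ))).1 h
  obtain ⟨hbx, hax⟩ := hΔ x hx
  obtain ⟨hbz, haz⟩ := hball z hdz
  have hglue := glue hsymm (hγ x).1 (hγ z).1 (hγ x).2.2 (hγ z).2.2 (he x) (he z) hbx hbz
    (t₀ := 0) (s₁ := 2 * (j : ℝ)) (T := 2 * (K : ℝ)) (s₂ := 2 * (ν : ℝ) - 2 * (j' : ℝ))
    (t₁ := 2 * (ν : ℝ)) (by positivity) (by linarith) (by rw [hνR]; linarith)
    (by have : (0:ℝ) ≤ j' := Nat.cast_nonneg _; linarith)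
    (lt_of_lt_of_le hax hz₁) (lt_of_lt_of_le haz hz₂) F1 F2 g5
  rw [(hγ x).2.1, (hγ z).2.1] at hglue
  -- the last part of the path
  have F3 : Conn G.Adj m (z, 2 * (ν : ℝ) - 2 * (j' : ℝ)) (y, 2 * (ν : ℝ)) := by
    have e1 : (0 : ℝ) = 2 * (ν : ℝ) - 2 * (ν : ℝ) := by ring
    have e2 : 2 * (j' : ℝ) = 2 * (ν : ℝ) - (2 * (ν : ℝ) - 2 * (j' : ℝ)) := by ring
    rw [e1, e2] at hz
    exact (Conn.rev hsymm (2 * (ν : ℝ))).1 hz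
  exact etaBar_of_conn hxe (hglue.trans F3)

end CPM
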