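import Mathlib

/-!
# G01 (90 min) : geodesic ray, self-avoiding paths which end in the ray; size of balls

`exists_rays`.  Balls are finite (`ball_card`), the graph is infinite and connected, so for every
`n` there is a vertex at distance `n` from `y`.  Koenig : there is a ray `R` with `R 0 = y`,
`G.dist y (R i) = i`, consecutive vertices adjacent (choose `R (i + 1)` adjacent to `R i`, at distance
`i + 1` from `y`, such that `R (i + 1)` has infinitely many descendants: `z` is a descendant of `w` if
`dist y z = dist y w + dist w z`; finitely many neighbours, so one of them has infinitely many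
descendants).
For a vertex `x`, let `i₀` be such that `dist x (R i₀)` is the distance `a` from `x` to the ray,
`a ≤ dist x y`, and take a shortest walk `x = p 0, ..., p a = R i₀`.  It meets the ray only at its
end (otherwise the distance to the ray would be smaller).  `γ = p 0, ..., p a, R (i₀ + 1), ...` is
injective.  `i₀ = dist y (R i₀) ≤ dist y x + a ≤ 2 dist x y`.  Put `b = i₀` : `γ (a + i) = R (b + i)`.
`ball_card` : the number of vertices at distance `≤ r` from `x` is at most `(D + 1) ^ (r + 1)`
(induction; a vertex at distance `r + 1` is a neighbour of a vertex at distance `r`).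
-/

namespace CPM

theorem ball_card {V : Type*} (G : SimpleGraph V) (hconn : G.Connected) {D : ℕ}
    (hD : ∀ x, (G.neighborSet x).Finite ∧ (G.neighborSet x).ncard ≤ D) (x : V) (r : ℕ) :
    {y | G.dist x y ≤ r}.Finite ∧ {y | G.dist x y ≤ r}.ncard ≤ (D + 1) ^ (r + 1) := by
  classical
  induction r with
  | zero =>
    have h1 : {y | G.dist x y ≤ 0} = {x} := by
      ext y
      simp only [Set.mem_ofPred_eq, Nat.le_zero, Set.mem_singleton_iff]
      rw [hconn.dist_eq_zero_iff]
      exact eq_comm
    rw [h1]
    exact ⟨Set.finite_singleton x, by rw [Set.ncard_singleton]; exact Nat.one_le_pow _ _ (by omega)⟩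
  | succ r ih =>
    obtain ⟨hf, hc⟩ := ih
    set F := hf.toFinset with hF
    have hFc : F.card ≤ (D + 1) ^ (r + 1) := by
      rw [hF, ← Set.ncard_eq_toFinset_card _ hf]
      exact hc
    set T : Finset V := F ∪ F.biUnion (fun z => (hD z).1.toFinset) with hT
    have hsub : {y | G.dist x y ≤ r + 1} ⊆ (T : Set V) := by
      intro y hy
      rw [Set.mem_ofPred_eq] at hy
      rw [Finset.mem_coe, hT, Finset.mem_union]
      rcases Nat.lt_or_ge r (G.dist x y) with h | h
      · right
        obtain ⟨w, hw⟩ := hconn.exists_walk_length_eq_dist y x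
        cases w with
        | nil =>
          rw [SimpleGraph.dist_self] at h
          omega
        | cons hadj p =>
          rename_i z
          rw [Finset.mem_biUnion]
          refine ⟨z, ?_, ?_⟩
          · rw [hF, Set.Finite.mem_toFinset, Set.mem_ofPred_eq]
            have h1 := SimpleGraph.dist_le p
            rw [SimpleGraph.Walk.length_cons, SimpleGraph.dist_comm] at hw
            rw [SimpleGraph.dist_comm]
            omega
          · rw [Set.Finite.mem_toFinset]
            exact hadj.symm
      · left
        rw [hF, Set.Finite.mem_toFinset]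
        exact h
    refine ⟨T.finite_toSet.subset hsub, ?_⟩
    refine (Set.ncard_le_ncard hsub T.finite_toSet).trans ?_
    rw [Set.ncard_coe_finset]
    refine (Finset.card_union_le _ _).trans ?_
    have h2 : (F.biUnion (fun z => (hD z).1.toFinset)).card ≤ F.card * D := by
      refine Finset.card_biUnion_le_card_mul _ _ _ fun z _ => ?_
      rw [← Set.ncard_eq_toFinset_card _ (hD z).1]
      exact (hD z).2
    calc F.card + (F.biUnion (fun z => (hD z).1.toFinset)).card ≤ F.card + F.card * D := by omega
      _ = (D + 1) * F.card := by ring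
      _ ≤ (D + 1) * (D + 1) ^ (r + 1) := Nat.mul_le_mul_left _ hFc
      _ = (D + 1) ^ (r + 1 + 1) := by ring

/-- One step of the ray. -/
theorem g01_step {V : Type*} (G : SimpleGraph V) (hconn : G.Connected)
    (hfin : ∀ x, (G.neighborSet x).Finite) (y w : V)
    (hw : {z | G.dist y z = G.dist y w + G.dist w z}.Infinite) :
    ∃ w', G.Adj w w' ∧ G.dist y w' = G.dist y w + 1 ∧
      {z | G.dist y z = G.dist y w' + G.dist w' z}.Infinite := by
  by_contra hcon
  push Not at hcon
  have h1 : {z | G.dist y z = G.dist y w + G.dist w z} ⊆ {w} ∪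
      ⋃ w' ∈ {w' | w' ∈ G.neighborSet w ∧ G.dist y w' = G.dist y w + 1},
        {z | G.dist y z = G.dist y w' + G.dist w' z} := by
    intro z hz
    rw [Set.mem_ofPred_eq] at hz
    by_cases hzw : z = w
    · left
      exact hzw
    · right
      obtain ⟨p, hp⟩ := hconn.exists_walk_length_eq_dist w z
      cases p with
      | nil => exact absurd rfl hzw
      | cons hadj q =>
        rename_i w'
        rw [SimpleGraph.Walk.length_cons] at hp
        have h2 := SimpleGraph.dist_le q
        have h3 := hconn.dist_triangle (u := y) (v := w') (w := z)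
        have h4 := hconn.dist_triangle (u := y) (v := w) (w := w')
        have h5 : G.dist w w' = 1 := SimpleGraph.dist_eq_one_iff_adj.mpr hadj
        have h6 := hconn.dist_triangle (u := w) (v := w') (w := z)
        simp only [Set.mem_iUnion]
        refine ⟨w', ⟨hadj, by omega⟩, ?_⟩
        rw [Set.mem_ofPred_eq]
        omega
  apply hw
  refine Set.Finite.subset ((Set.finite_singleton w).union ?_) h1
  refine Set.Finite.biUnion ((hfin w).subset fun w' hw' => hw'.1) fun w' hw' => ?_
  exact hcon w' hw'.1 hw'.2

theorem exists_rays {V : Type*} [Infinite V] (G : SimpleGraph V) (hconn : G.Connected)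
    (hfin : ∀ x, (G.neighborSet x).Finite) (y : V) :
    ∃ R : ℕ → V, R 0 = y ∧ Function.Injective R ∧ (∀ i, G.Adj (R i) (R (i + 1))) ∧
      ∀ x, ∃ γ : ℕ → V, Function.Injective γ ∧ γ 0 = x ∧ (∀ i, G.Adj (γ i) (γ (i + 1))) ∧
        ∃ a b : ℕ, a ≤ G.dist x y ∧ b ≤ 2 * G.dist x y ∧ ∀ i, γ (a + i) = R (b + i) := by
  let P : V → Prop := fun w => {z | G.dist y z = G.dist y w + G.dist w z}.Infinite
  have hP0 : P y := by
    have : {z | G.dist y z = G.dist y y + G.dist y z} = Set.univ := by
      ext z
      simp [SimpleGraph.dist_self]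
    change Set.Infinite _
    rw [this]
    exact Set.infinite_univ
  choose f hf using fun w : {w // P w} => g01_step G hconn hfin y w.1 w.2
  let g : {w // P w} → {w // P w} := fun w => ⟨f w, (hf w).2.2⟩
  let Q : ℕ → {w // P w} := fun i => g^[i] ⟨y, hP0⟩
  have hQs : ∀ i, Q (i + 1) = g (Q i) := fun i => Function.iterate_succ_apply' g i _
  let R : ℕ → V := fun i => (Q i).1
  have hR0 : R 0 = y := rfl
  have hadj : ∀ i, G.Adj (R i) (R (i + 1)) := by
    intro i
    change G.Adj (Q i).1 (Q (i + 1)).1
    rw [hQs]
    exact (hf (Q i)).1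
  have hdist : ∀ i, G.dist y (R i) = i := by
    intro i
    induction i with
    | zero => rw [hR0, SimpleGraph.dist_self]
    | succ i ih =>
      change G.dist y (Q (i + 1)).1 = i + 1
      rw [hQs]
      have := (hf (Q i)).2.1
      change G.dist y (f (Q i)) = i + 1
      rw [this]
      exact congrArg (· + 1) ih
  have hinj : Function.Injective R := by
    intro i j hij
    rw [← hdist i, ← hdist j, hij]
  refine ⟨R, hR0, hinj, hadj, fun x => ?_⟩
  obtain ⟨i0, hi0⟩ : ∃ i0, ∀ i, G.dist x (R i0) ≤ G.dist x (R i) := by
    refine ⟨Function.argmin (fun i => G.dist x (R i)), fun i => ?_⟩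
    exact Function.argmin_le (fun i => G.dist x (R i)) i
  obtain ⟨p, hp⟩ := hconn.exists_walk_length_eq_dist x (R i0)
  have hpath := p.isPath_of_length_eq_dist hp
  set a := G.dist x (R i0) with ha
  let γ : ℕ → V := fun i => if i < a then p.getVert i else R (i0 + (i - a))
  have hγ1 : ∀ i, i < a → γ i = p.getVert i := fun i hi => if_pos hi
  have hγ2 : ∀ i, γ (a + i) = R (i0 + i) := by
    intro i
    change (if a + i < a then _ else _) = _
    rw [if_neg (by omega), Nat.add_sub_cancel_left]
  have hγa : p.getVert a = R i0 := by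
    rw [← hp]
    exact p.getVert_length
  have hvert : ∀ i, G.dist x (p.getVert i) ≤ i := by
    intro i
    have h1 := SimpleGraph.dist_le (p.take i)
    refine h1.trans ?_
    rw [SimpleGraph.Walk.take_length]
    exact min_le_left _ _
  refine ⟨γ, ?_, ?_, ?_, a, i0, ?_, ?_, hγ2⟩
  · intro i j hij
    wlog h : i ≤ j generalizing i j
    · exact (this hij.symm (by omega)).symm
    rcases Nat.lt_or_ge i a with hia | hia
    · rcases Nat.lt_or_ge j a with hja | hja
      · rw [hγ1 i hia, hγ1 j hja] at hij
        exact hpath.getVert_injOn (by rw [Set.mem_ofPred_eq, hp]; exact hia.le)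
          (by rw [Set.mem_ofPred_eq, hp]; exact hja.le) hij
      · exfalso
        obtain ⟨t, rfl⟩ := Nat.exists_eq_add_of_le hja
        rw [hγ1 i hia, hγ2] at hij
        have h1 := hvert i
        rw [hij] at h1
        have h2 := hi0 (i0 + t)
        omega
    · obtain ⟨t, rfl⟩ := Nat.exists_eq_add_of_le hia
      obtain ⟨t', rfl⟩ := Nat.exists_eq_add_of_le (hia.trans h)
      rw [hγ2, hγ2] at hij
      have := hinj hij
      omega
  · rcases Nat.eq_zero_or_pos a with h | h
    · have h1 := hγ2 0
      rw [h] at h1
      rw [show (0 : ℕ) = 0 + 0 from rfl, h1]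
      have h2 : G.dist x (R i0) = 0 := by rw [← ha, h]
      rw [hconn.dist_eq_zero_iff] at h2
      exact h2.symm
    · rw [hγ1 0 h, SimpleGraph.Walk.getVert_zero]
  · intro i
    rcases Nat.lt_or_ge (i + 1) a with h | h
    · rw [hγ1 i (by omega), hγ1 (i + 1) h]
      exact p.adj_getVert_succ (by omega)
    · rcases Nat.lt_or_ge i a with h' | h'
      · have h1 : i + 1 = a := by omega
        have h2 : γ (i + 1) = p.getVert (i + 1) := by
          have h3 := hγ2 0
          rw [Nat.add_zero, Nat.add_zero, ← hγa, ← h1] at h3
          exact h3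
        rw [hγ1 i h', h2]
        exact p.adj_getVert_succ (by omega)
      · obtain ⟨t, rfl⟩ := Nat.exists_eq_add_of_le h'
        rw [hγ2, Nat.add_assoc, hγ2]
        exact hadj (i0 + t)
  · have := hi0 0
    rw [hR0] at this
    exact this
  · have h1 := hi0 0
    rw [hR0] at h1
    have h2 := hdist i0
    have h3 := hconn.dist_triangle (u := y) (v := x) (w := R i0)
    rw [SimpleGraph.dist_comm (u := y) (v := x)] at h3
    omega

end CPM
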