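import Pool.Agent.Lib.MP_1a4724_pr.P01
import Pool.Agent.Lib.MP_1a4724_pr.D05
import Pool.Agent.Lib.MP_1a4724_pr.G01
import Pool.Agent.Lib.MP_1a4724_pr.P04

/-!
# G02 (120 min) : linear spread

`noRec m` : the marks without the recovery marks; `reach G m x y s t` : there is an active path for
`noRec m`, i.e. a chain of arrows in time order inside `[s, t]`.
`conn_reach` : an active path for `m` from `(x, s)` to `(y, u)`, `u ≤ t`, gives `reach .. x y s t`
(recovery marks are dropped; wait at `y` until `t`).
`reach_vmeas` : as `conn_vmeas_univ` (for good `m` the configuration `noRec m` is good, and the void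
indicators of `noRec m` are those of `m` or constantly true).
`spread` : for every `a > 0` (and `D`, `lam`) there is `K` with
`Σ_y P (reach x y s (s + n)) exp (a dist x y) ≤ exp (K n)`.
Proof.  Let `h = 1 / N` be small with `D lam h exp a ≤ 1/2`.  In a slot of length `h` : if
`reach x y s (s + h)`, there is a walk from `x` to `y` in `G` all of whose darts have a mark in the
slot, hence (`Walk.bypass`, `darts_bypass_subset`) a path (no repeated vertex) with this property; it
has some length `k ≥ dist x y`.  The darts of a path are distinct types, so for a given path the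
probability is at most `(1 - exp (-lam h))^k ≤ (lam h)^k`.  There are at most `D^k` walks of length
`k` from `x`.  Hence `Σ_y P (reach x y s (s+h)) exp (a dist x y) ≤ Σ_k D^k (lam h)^k exp (a k) ≤ 2`.
Independent increments : `reach x y s (s + (k+1) h) ⊆ ∪_z reach x z s (s + k h) ∩ reach z y (s + k h)
(s + (k+1) h)`, `dist x y ≤ dist x z + dist z y` : the sums are submultiplicative, so the sum for
time `n` is at most `2^(N n) = exp (K n)`, `K = N log 2`.
`spread_rev` : the same for `Σ_y P (reach y x s (s + n)) exp (a dist x y)` (reverse the walks, or use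
`revT`).
`spread_far` : Markov inequality.
-/

noncomputable section

open MeasureTheory Set
open scoped ENNReal

namespace CPM

def noRec {V : Type*} (m : V × V → Set ℝ) : V × V → Set ℝ := fun e => {t | t ∈ m e ∧ e.1 ≠ e.2}

def reach {V : Type*} (G : SimpleGraph V) (m : V × V → Set ℝ) (x y : V) (s t : ℝ) : Prop :=
  Conn G.Adj (noRec m) (x, s) (y, t)

theorem conn_reach {V : Type*} {G : SimpleGraph V} {m : V × V → Set ℝ} {x y : V} {s u t : ℝ}
    (h : Conn G.Adj m (x, s) (y, u)) (hu : u ≤ t) : reach G m x y s t := by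
  have h1 : ∀ q : V × ℝ, Conn G.Adj m (x, s) q → Conn G.Adj (noRec m) (x, s) q := by
    intro q hq
    unfold Conn at hq
    induction hq with
    | refl => exact Relation.ReflTransGen.refl
    | tail _ hstep ih =>
      refine ih.tail ?_
      cases hstep with
      | wait x a b hab hr => exact Step.wait x a b hab (fun t _ ht => ht.2 rfl)
      | jump x y t hadj hne ht => exact Step.jump x y t hadj hne ⟨ht, hne⟩
  exact (h1 _ h).trans (Conn.stay hu (fun t _ ht => ht.2 rfl))

theorem g02_good {V : Type*} {m : V × V → Set ℝ} (hm : Good m) : Good (noRec m) :=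
  ⟨fun e a b => (hm.1 e a b).subset (fun t ht => ⟨ht.1.1, ht.2⟩),
    fun e e' t h h' => hm.2 e e' t h.1 h'.1⟩

theorem g02_vmeas {V : Type*} {R : Set ((V × V) × ℝ)} {Q : (V × V → Set ℝ) → Prop}
    (hQ : VMeas R Q) : VMeas R (fun m => Q (noRec m)) := by
  obtain ⟨E, hE, hE'⟩ := hQ
  let F : ({b : (V × V) × ℝ × ℝ // boxOf b ⊆ R} → Prop) →
      ({b : (V × V) × ℝ × ℝ // boxOf b ⊆ R} → Prop) := fun c b => b.1.1.1 = b.1.1.2 ∨ c b
  have hF : Measurable F := by
    refine measurable_pi_iff.2 (fun b => ?_)
    by_cases hb : b.1.1.1 = b.1.1.2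
    · have : (fun c : ({b : (V × V) × ℝ × ℝ // boxOf b ⊆ R} → Prop) => F c b) = fun _ => True := by
        funext c
        exact propext ⟨fun _ => trivial, fun _ => Or.inl hb⟩
      rw [this]
      exact measurable_const
    · have : (fun c : ({b : (V × V) × ℝ × ℝ // boxOf b ⊆ R} → Prop) => F c b) = fun c => c b := by
        funext c
        exact propext ⟨fun h => h.resolve_left hb, fun h => Or.inr h⟩
      rw [this]
      exact measurable_pi_apply b
  refine ⟨F ⁻¹' E, hF hE, fun m hm => ?_⟩
  show Q (noRec m) ↔ _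
  rw [hE' _ (g02_good hm), mem_preimage]
  have : vcfg R (noRec m) = F (vcfg R m) := by
    funext b
    refine propext ?_
    show (∀ t ∈ Icc b.1.2.1 b.1.2.2, ¬ (t ∈ m b.1.1 ∧ b.1.1.1 ≠ b.1.1.2)) ↔
      (b.1.1.1 = b.1.1.2 ∨ ∀ t ∈ Icc b.1.2.1 b.1.2.2, t ∉ m b.1.1)
    constructor
    · intro h
      by_cases hb : b.1.1.1 = b.1.1.2
      · exact Or.inl hb
      · exact Or.inr (fun t ht h' => h t ht ⟨h', hb⟩)
    · rintro (h | h) t ht ⟨h1, h2⟩
      · exact h2 h
      · exact h t ht h1
  rw [this]

theorem reach_vmeas {V : Type*} [Countable V] (G : SimpleGraph V) (x y : V) (s t : ℝ) :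
    VMeas {p : (V × V) × ℝ | p.2 ∈ Icc s t} (fun m => reach G m x y s t) :=
  g02_vmeas (conn_vmeas_univ G.Adj x y s t)

/-- `(u, v)` has a mark in `[s, t]` -/
def g02_mk {V : Type*} (m : V × V → Set ℝ) (s t : ℝ) (u v : V) : Prop :=
  ∃ τ ∈ Icc s t, τ ∈ m (u, v)

theorem g02_rtg {V : Type*} {G : SimpleGraph V} {m : V × V → Set ℝ} {x : V} {s t : ℝ}
    {q : V × ℝ} (h : Conn G.Adj (noRec m) (x, s) q) (hq : q.2 ≤ t) :
    Relation.ReflTransGen (fun u v => G.Adj u v ∧ g02_mk m s t u v) x q.1 := by
  unfold Conn at h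
  induction h with
  | refl => exact Relation.ReflTransGen.refl
  | tail hc hstep ih =>
    cases hstep with
    | wait y a b hab hr => exact ih (hab.trans hq)
    | jump y z τ hadj hne ht =>
      have h1 := ih hq
      have h2 : s ≤ τ := Conn.time_le hc
      exact h1.tail ⟨hadj, τ, ⟨h2, hq⟩, ht.1⟩

/-- a self-avoiding chain -/
theorem g02_chain {V : Type*} {Rel : V → V → Prop} {x y : V}
    (h : Relation.ReflTransGen Rel x y) :
    ∃ l : List V, List.IsChain Rel (x :: l) ∧ (x :: l).Nodup ∧
      (x :: l).getLast (List.cons_ne_nil _ _) = y := by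
  classical
  induction h using Relation.ReflTransGen.head_induction_on with
  | refl => exact ⟨[], List.isChain_singleton _, List.nodup_singleton _, rfl⟩
  | @head a c hab _ ih =>
    obtain ⟨l, h1, h2, h3⟩ := ih
    by_cases ha : a ∈ c :: l
    · obtain ⟨l1, l2, h4⟩ := List.append_of_mem ha
      refine ⟨l2, ?_, ?_, ?_⟩
      · rw [h4] at h1
        exact h1.right_of_append
      · rw [h4] at h2
        exact (List.nodup_append.1 h2).2.1
      · rw [← h3]
        simp only [h4]
        rw [List.getLast_append_of_ne_nil]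
    · refine ⟨c :: l, ?_, List.nodup_cons.2 ⟨ha, h2⟩, ?_⟩
      · exact List.isChain_cons_cons.2 ⟨hab, h1⟩
      · rw [List.getLast_cons (List.cons_ne_nil _ _)]
        exact h3

theorem g02_dist {V : Type*} {G : SimpleGraph V} (hconn : G.Connected) (l : List V) :
    ∀ x : V, List.IsChain G.Adj (x :: l) →
      G.dist x ((x :: l).getLast (List.cons_ne_nil _ _)) ≤ l.length := by
  induction l with
  | nil => intro x _; simp
  | cons w l ih =>
    intro x hx
    rw [List.isChain_cons_cons] at hx
    have h1 := ih w hx.2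
    rw [List.getLast_cons (List.cons_ne_nil _ _)]
    have h2 := hconn.dist_triangle (u := x) (v := w) (w := (w :: l).getLast (List.cons_ne_nil _ _))
    have h3 : G.dist x w = 1 := SimpleGraph.dist_eq_one_iff_adj.2 hx.1
    rw [List.length_cons]
    omega

/-- the self-avoiding chains with marks -/
def g02_E {Ω V : Type*} (M : Ω → V × V → Set ℝ) (s t : ℝ) (x : V) (l : List V) : Set Ω :=
  {ω | List.IsChain (g02_mk (M ω) s t) (x :: l)}

theorem g02_E_meas {Ω V : Type*} (M : Ω → V × V → Set ℝ) (s t : ℝ) (l : List V) :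
    ∀ (x z : V), z ∉ x :: l →
      MeasurableSet[VA M {p : (V × V) × ℝ | p.1.1 ≠ z}] (g02_E M s t x l) := by
  induction l with
  | nil =>
    intro x z _
    have : g02_E M s t x [] = univ := by
      ext ω
      simp [g02_E]
    rw [this]
    exact MeasurableSet.univ
  | cons w l ih =>
    intro x z hz
    have h1 : g02_E M s t x (w :: l) = (voidEv M (x, w) s t)ᶜ ∩ g02_E M s t w l := by
      ext ω
      simp only [g02_E, mem_setOf_eq, List.isChain_cons_cons, mem_inter_iff, mem_compl_iff,
        voidEv, g02_mk]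
      push Not
      rfl
    rw [h1]
    have hzx : x ≠ z := fun h => hz (by rw [h]; exact List.mem_cons_self)
    refine MeasurableSet.inter ?_ (ih w z (fun h => hz (List.mem_cons_of_mem _ h)))
    refine MeasurableSet.compl ?_
    refine MeasurableSpace.measurableSet_generateFrom ⟨((x, w), s, t), ?_, rfl⟩
    rintro ⟨e, τ⟩ ⟨he, _⟩
    have he' : e = (x, w) := he
    show e.1 ≠ z
    rw [he']
    exact hzx

theorem g02_E_prob {Ω V : Type*} [MeasurableSpace Ω] {P : Measure Ω}
    {M : Ω → V × V → Set ℝ} {lam : ℝ} (hlam : 0 < lam) (hP : IsPoisson P M (cRate lam))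
    (s t : ℝ) (hst : s ≤ t) (l : List V) :
    ∀ x : V, (x :: l).Nodup → P.real (g02_E M s t x l) ≤ (lam * (t - s)) ^ l.length := by
  have hprob := hP.prob
  induction l with
  | nil =>
    intro x _
    rw [List.length_nil, pow_zero]
    exact measureReal_le_one
  | cons w l ih =>
    intro x hx
    have hx' := List.nodup_cons.1 hx
    have h1 : g02_E M s t x (w :: l) = (voidEv M (x, w) s t)ᶜ ∩ g02_E M s t w l := by
      ext ω
      simp only [g02_E, mem_setOf_eq, List.isChain_cons_cons, mem_inter_iff, mem_compl_iff,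
        voidEv, g02_mk]
      push Not
      rfl
    have hne : x ≠ w := fun h => hx'.1 (by rw [h]; exact List.mem_cons_self)
    have hA : MeasurableSet[VA M {p : (V × V) × ℝ | p.1.1 = x}] (voidEv M (x, w) s t)ᶜ := by
      refine MeasurableSet.compl ?_
      refine MeasurableSpace.measurableSet_generateFrom ⟨((x, w), s, t), ?_, rfl⟩
      rintro ⟨e, τ⟩ ⟨he, _⟩
      have he' : e = (x, w) := he
      show e.1 = x
      rw [he']
    have hB := g02_E_meas M s t l w x hx'.1
    have hmul := hP.mul {p : (V × V) × ℝ | p.1.1 = x} {p : (V × V) × ℝ | p.1.1 ≠ x} (by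
      intro e
      have : {t : ℝ | (e, t) ∈ {p : (V × V) × ℝ | p.1.1 = x} ∧
          (e, t) ∈ {p : (V × V) × ℝ | p.1.1 ≠ x}} = ∅ := by
        ext τ
        simp only [mem_setOf_eq, mem_empty_iff_false, iff_false, not_and]
        intro h h'
        exact h' h
      rw [this, measure_empty]) hA hB
    rw [h1, hmul, List.length_cons, pow_succ, mul_comm]
    have h2 : P.real (voidEv M (x, w) s t)ᶜ ≤ lam * (t - s) := by
      rw [measureReal_compl (hP.meas _ _ _), hP.void1 _ _ _ hst]
      have h3 : cRate lam (x, w) = lam := by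
        unfold cRate
        rw [if_neg hne]
      have h4 := Real.add_one_le_exp (-(lam * (t - s)))
      have h5 : P.real univ = 1 := by simp
      rw [h3, h5]
      linarith
    have h3 : 0 ≤ lam * (t - s) := mul_nonneg hlam.le (sub_nonneg.2 hst)
    exact mul_le_mul (ih w hx'.2) h2 measureReal_nonneg (pow_nonneg h3 _)

open Classical in
/-- the lists of length `k` which continue `x` to a chain of `G` -/
theorem g02_count {V : Type*} (G : SimpleGraph V) {D : ℕ}
    (hD : ∀ x, (G.neighborSet x).Finite ∧ (G.neighborSet x).ncard ≤ D) (k : ℕ) :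
    ∀ x : V, ∃ F : Finset (List V), F.card ≤ D ^ k ∧
      ∀ l : List V, l ∈ F ↔ l.length = k ∧ List.IsChain G.Adj (x :: l) := by
  induction k with
  | zero =>
    intro x
    refine ⟨{[]}, by simp, fun l => ?_⟩
    rw [Finset.mem_singleton, List.length_eq_zero_iff]
    constructor
    · rintro rfl
      exact ⟨rfl, List.isChain_singleton _⟩
    · exact fun h => h.1
  | succ k ih =>
    intro x
    choose F hF1 hF2 using ih
    refine ⟨(hD x).1.toFinset.biUnion (fun w => (F w).image (List.cons w)), ?_, ?_⟩
    · calc ((hD x).1.toFinset.biUnion (fun w => (F w).image (List.cons w))).card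
          ≤ ∑ w ∈ (hD x).1.toFinset, ((F w).image (List.cons w)).card := Finset.card_biUnion_le
        _ ≤ ∑ w ∈ (hD x).1.toFinset, D ^ k :=
            Finset.sum_le_sum (fun w _ => Finset.card_image_le.trans (hF1 w))
        _ = (hD x).1.toFinset.card * D ^ k := by rw [Finset.sum_const, smul_eq_mul]
        _ ≤ D * D ^ k := by
            refine Nat.mul_le_mul_right _ ?_
            rw [← Set.ncard_eq_toFinset_card _ (hD x).1]
            exact (hD x).2
        _ = D ^ (k + 1) := by rw [pow_succ, mul_comm]
    · intro l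
      rw [Finset.mem_biUnion]
      constructor
      · rintro ⟨w, hw, hl⟩
        obtain ⟨l', hl', rfl⟩ := Finset.mem_image.1 hl
        have h1 := (hF2 w l').1 hl'
        refine ⟨by rw [List.length_cons, h1.1], List.isChain_cons_cons.2 ⟨?_, h1.2⟩⟩
        exact (Set.Finite.mem_toFinset _).1 hw
      · rintro ⟨h1, h2⟩
        cases l with
        | nil => simp at h1
        | cons w l' =>
          rw [List.isChain_cons_cons] at h2
          refine ⟨w, (Set.Finite.mem_toFinset _).2 h2.1, Finset.mem_image.2 ⟨l', ?_, rfl⟩⟩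
          rw [hF2]
          rw [List.length_cons] at h1
          exact ⟨by omega, h2.2⟩

theorem g02_slot {V Ω : Type*} [Countable V] {G : SimpleGraph V} (hconn : G.Connected) {D : ℕ}
    (hD : ∀ x, (G.neighborSet x).Finite ∧ (G.neighborSet x).ncard ≤ D) [MeasurableSpace Ω]
    {P : Measure Ω} {M : Ω → V × V → Set ℝ} {lam : ℝ} (hlam : 0 < lam)
    (hP : IsPoisson P M (cRate lam)) {a h : ℝ} (ha : 0 < a) (hh : 0 ≤ h)
    (hsmall : D * (lam * h * Real.exp a) ≤ 1 / 2) (x : V) (s : ℝ) :
    ∑' y, P {ω | reach G (M ω) x y s (s + h)} * ENNReal.ofReal (Real.exp (a * G.dist x y)) ≤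
      2 := by
  classical
  have hprob := hP.prob
  choose F hF1 hF2 using fun k => g02_count G hD k x
  have hc : 0 ≤ lam * h * Real.exp a := by positivity
  -- the bound for one list
  have hE : ∀ k, ∀ l ∈ F k, (if (x :: l).Nodup then P (g02_E M s (s + h) x l) else 0) *
      ENNReal.ofReal (Real.exp (a * k)) ≤ ENNReal.ofReal ((lam * h * Real.exp a) ^ k) := by
    intro k l hl
    have hk := ((hF2 k l).1 hl).1
    split_ifs with hn
    · have h1 := g02_E_prob hlam hP s (s + h) (by linarith) l x hn
      rw [add_sub_cancel_left, hk] at h1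
      have h2 : P (g02_E M s (s + h) x l) ≤ ENNReal.ofReal ((lam * h) ^ k) := by
        rw [← ENNReal.ofReal_toReal (measure_ne_top P _)]
        exact ENNReal.ofReal_le_ofReal h1
      calc P (g02_E M s (s + h) x l) * ENNReal.ofReal (Real.exp (a * k))
          ≤ ENNReal.ofReal ((lam * h) ^ k) * ENNReal.ofReal (Real.exp (a * k)) := by gcongr
        _ = ENNReal.ofReal ((lam * h * Real.exp a) ^ k) := by
            rw [← ENNReal.ofReal_mul (by positivity)]
            congr 1
            rw [mul_pow (lam * h) (Real.exp a) k, ← Real.exp_nat_mul, mul_comm (k : ℝ) a]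
    · rw [zero_mul]; exact zero_le
  have hy : ∀ y, P {ω | reach G (M ω) x y s (s + h)} * ENNReal.ofReal (Real.exp (a * G.dist x y)) ≤
      ∑' k, ∑ l ∈ F k, (if (x :: l).getLast (List.cons_ne_nil _ _) = y then
        (if (x :: l).Nodup then P (g02_E M s (s + h) x l) else 0) *
        ENNReal.ofReal (Real.exp (a * k)) else 0) := by
    intro y
    have h1 : {ω | reach G (M ω) x y s (s + h)} ⊆
        ⋃ k, ⋃ l ∈ (F k).filter (fun l => (x :: l).Nodup ∧
          (x :: l).getLast (List.cons_ne_nil _ _) = y), g02_E M s (s + h) x l := by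
      intro ω hω
      obtain ⟨l, h2, h3, h4⟩ := g02_chain (g02_rtg hω le_rfl)
      simp only [mem_iUnion, Finset.mem_filter, exists_prop]
      refine ⟨l.length, l, ⟨(hF2 _ l).2 ⟨rfl, ?_⟩, h3, h4⟩, ?_⟩
      · exact h2.imp (fun _ _ h => h.1)
      · exact h2.imp (fun _ _ h => h.2)
    calc P {ω | reach G (M ω) x y s (s + h)} * ENNReal.ofReal (Real.exp (a * G.dist x y))
        ≤ (∑' k, ∑ l ∈ (F k).filter (fun l => (x :: l).Nodup ∧
          (x :: l).getLast (List.cons_ne_nil _ _) = y), P (g02_E M s (s + h) x l)) *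
          ENNReal.ofReal (Real.exp (a * G.dist x y)) := by
          refine mul_le_mul_left ?_ _
          refine (measure_mono h1).trans ((measure_iUnion_le _).trans ?_)
          exact ENNReal.tsum_le_tsum (fun k => measure_biUnion_finset_le _ _)
      _ = ∑' k, ∑ l ∈ (F k).filter (fun l => (x :: l).Nodup ∧
          (x :: l).getLast (List.cons_ne_nil _ _) = y), P (g02_E M s (s + h) x l) *
          ENNReal.ofReal (Real.exp (a * G.dist x y)) := by
          rw [← ENNReal.tsum_mul_right]
          refine tsum_congr (fun k => ?_)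
          rw [Finset.sum_mul]
      _ ≤ _ := by
          refine ENNReal.tsum_le_tsum (fun k => ?_)
          rw [Finset.sum_filter]
          refine Finset.sum_le_sum (fun l hl => ?_)
          have hk := (hF2 k l).1 hl
          by_cases h5 : (x :: l).getLast (List.cons_ne_nil _ _) = y
          · by_cases h6 : (x :: l).Nodup
            · rw [if_pos ⟨h6, h5⟩, if_pos h5, if_pos h6]
              gcongr
              rw [← h5, ← hk.1]
              exact_mod_cast g02_dist hconn l x hk.2
            · rw [if_neg (fun h7 => h6 h7.1)]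
              exact zero_le
          · rw [if_neg (fun h7 => h5 h7.2)]
            exact zero_le
  calc ∑' y, P {ω | reach G (M ω) x y s (s + h)} * ENNReal.ofReal (Real.exp (a * G.dist x y))
      ≤ ∑' y, ∑' k, ∑ l ∈ F k, (if (x :: l).getLast (List.cons_ne_nil _ _) = y then
        (if (x :: l).Nodup then P (g02_E M s (s + h) x l) else 0) *
        ENNReal.ofReal (Real.exp (a * k)) else 0) := ENNReal.tsum_le_tsum hy
    _ = ∑' k, ∑ l ∈ F k, ∑' y, (if (x :: l).getLast (List.cons_ne_nil _ _) = y then
        (if (x :: l).Nodup then P (g02_E M s (s + h) x l) else 0) *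
        ENNReal.ofReal (Real.exp (a * k)) else 0) := by
        rw [ENNReal.tsum_comm]
        refine tsum_congr (fun k => ?_)
        rw [Summable.tsum_finsetSum (fun _ _ => ENNReal.summable)]
    _ = ∑' k, ∑ l ∈ F k, (if (x :: l).Nodup then P (g02_E M s (s + h) x l) else 0) *
        ENNReal.ofReal (Real.exp (a * k)) := by
        refine tsum_congr (fun k => Finset.sum_congr rfl (fun l _ => ?_))
        rw [tsum_eq_single ((x :: l).getLast (List.cons_ne_nil _ _))]
        · rw [if_pos rfl]
        · intro y hy; rw [if_neg hy.symm]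
    _ ≤ ∑' k : ℕ, ENNReal.ofReal ((1 / 2 : ℝ) ^ k) := by
        refine ENNReal.tsum_le_tsum (fun k => ?_)
        calc ∑ l ∈ F k, (if (x :: l).Nodup then P (g02_E M s (s + h) x l) else 0) *
            ENNReal.ofReal (Real.exp (a * k))
            ≤ ∑ l ∈ F k, ENNReal.ofReal ((lam * h * Real.exp a) ^ k) := Finset.sum_le_sum (hE k)
          _ = (F k).card * ENNReal.ofReal ((lam * h * Real.exp a) ^ k) := by
              rw [Finset.sum_const, nsmul_eq_mul]
          _ ≤ ((D ^ k : ℕ) : ℝ≥0∞) * ENNReal.ofReal ((lam * h * Real.exp a) ^ k) := by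
              gcongr
              exact hF1 k
          _ = ENNReal.ofReal ((D * (lam * h * Real.exp a)) ^ k) := by
              rw [mul_pow (D : ℝ) (lam * h * Real.exp a) k, ENNReal.ofReal_mul (by positivity),
                ← ENNReal.ofReal_natCast]
              congr 2
              push_cast
              rfl
          _ ≤ ENNReal.ofReal ((1 / 2 : ℝ) ^ k) := by
              refine ENNReal.ofReal_le_ofReal ?_
              exact pow_le_pow_left₀ (by positivity) hsmall k
    _ = ENNReal.ofReal (∑' k : ℕ, (1 / 2 : ℝ) ^ k) := by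
        rw [ENNReal.ofReal_tsum_of_nonneg (fun k => by positivity)
          (summable_geometric_of_lt_one (by norm_num) (by norm_num))]
    _ = 2 := by
        rw [tsum_geometric_of_lt_one (by norm_num) (by norm_num)]
        norm_num

theorem g02_meas {V Ω : Type*} [Countable V] {G : SimpleGraph V} [MeasurableSpace Ω]
    {P : Measure Ω} {M : Ω → V × V → Set ℝ} {lam : ℝ}
    (hP : IsPoisson P M (cRate lam)) (x y : V) (s t : ℝ) :
    MeasurableSet[VA M {p : (V × V) × ℝ | p.2 ∈ Icc s t}] {ω | reach G (M ω) x y s t} :=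
  (reach_vmeas G x y s t).measurableSet (fun ω => hP.good ω)

theorem g02_slots {V Ω : Type*} [Countable V] {G : SimpleGraph V} (hconn : G.Connected) {D : ℕ}
    (hD : ∀ x, (G.neighborSet x).Finite ∧ (G.neighborSet x).ncard ≤ D) [MeasurableSpace Ω]
    {P : Measure Ω} {M : Ω → V × V → Set ℝ} {lam : ℝ} (hlam : 0 < lam)
    (hP : IsPoisson P M (cRate lam)) {a h : ℝ} (ha : 0 < a) (hh : 0 ≤ h)
    (hsmall : D * (lam * h * Real.exp a) ≤ 1 / 2) (x : V) (s : ℝ) (k : ℕ) :
    ∑' y, P {ω | reach G (M ω) x y s (s + k * h)} *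
      ENNReal.ofReal (Real.exp (a * G.dist x y)) ≤ 2 ^ k := by
  have hprob := hP.prob
  induction k with
  | zero =>
    rw [pow_zero, tsum_eq_single x]
    · rw [SimpleGraph.dist_self]
      simp only [Nat.cast_zero, mul_zero, Real.exp_zero, ENNReal.ofReal_one, mul_one]
      exact prob_le_one
    · intro y hy
      have hnull : P {ω | reach G (M ω) x y s (s + (0 : ℕ) * h)} = 0 := by
        have hsub : {ω | reach G (M ω) x y s (s + (0 : ℕ) * h)} ⊆
            ⋃ z : V, ⋃ _ : x ≠ z, (voidEv M (x, z) s s)ᶜ := by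
          intro ω hω
          have h1 : Conn G.Adj (noRec (M ω)) (x, s) (y, s + (0 : ℕ) * h) := hω
          have h2 := g02_rtg h1 (t := s) (by simp)
          rcases Relation.ReflTransGen.cases_head h2 with h3 | ⟨z, h3, _⟩
          · exact absurd h3.symm hy
          · obtain ⟨τ, hτ, hm⟩ := h3.2
            simp only [mem_iUnion]
            refine ⟨z, h3.1.ne, ?_⟩
            intro h4
            exact h4 τ hτ hm
        refine measure_mono_null hsub ?_
        rw [measure_iUnion_null_iff]
        intro z
        rw [measure_iUnion_null_iff]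
        intro _
        have h1 := hP.void1 (x, z) s s le_rfl
        rw [sub_self, mul_zero, neg_zero, Real.exp_zero] at h1
        rw [prob_compl_eq_zero_iff (hP.meas _ _ _)]
        have h2 : (P (voidEv M (x, z) s s)).toReal = 1 := h1
        rw [← ENNReal.ofReal_toReal (measure_ne_top P (voidEv M (x, z) s s)), h2,
          ENNReal.ofReal_one]
      rw [hnull, zero_mul]
  | succ k ih =>
    have hkh : (0 : ℝ) ≤ k * h := by positivity
    have hstep : ∀ y, P {ω | reach G (M ω) x y s (s + (k + 1 : ℕ) * h)} *
        ENNReal.ofReal (Real.exp (a * G.dist x y)) ≤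
        ∑' z, (P {ω | reach G (M ω) x z s (s + k * h)} *
          ENNReal.ofReal (Real.exp (a * G.dist x z))) *
          (P {ω | reach G (M ω) z y (s + k * h) (s + k * h + h)} *
          ENNReal.ofReal (Real.exp (a * G.dist z y))) := by
      intro y
      have h1 : {ω | reach G (M ω) x y s (s + (k + 1 : ℕ) * h)} ⊆
          ⋃ z, ({ω | reach G (M ω) x z s (s + k * h)} ∩
            {ω | reach G (M ω) z y (s + k * h) (s + k * h + h)}) := by
        intro ω hω
        have e1 : s + ((k + 1 : ℕ) : ℝ) * h = s + k * h + h := by push_cast; ring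
        have h2 : Conn G.Adj (noRec (M ω)) (x, s) (y, s + k * h + h) := by rw [← e1]; exact hω
        obtain ⟨z, h3, h4⟩ := h2.split (u := s + k * h) (by linarith) (by linarith)
        exact mem_iUnion.2 ⟨z, h3, h4⟩
      calc P {ω | reach G (M ω) x y s (s + (k + 1 : ℕ) * h)} *
          ENNReal.ofReal (Real.exp (a * G.dist x y))
          ≤ (∑' z, P ({ω | reach G (M ω) x z s (s + k * h)} ∩
            {ω | reach G (M ω) z y (s + k * h) (s + k * h + h)})) *
            ENNReal.ofReal (Real.exp (a * G.dist x y)) := by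
            refine mul_le_mul_left ?_ _
            exact (measure_mono h1).trans (measure_iUnion_le _)
        _ = ∑' z, P ({ω | reach G (M ω) x z s (s + k * h)} ∩
            {ω | reach G (M ω) z y (s + k * h) (s + k * h + h)}) *
            ENNReal.ofReal (Real.exp (a * G.dist x y)) := by rw [ENNReal.tsum_mul_right]
        _ ≤ _ := by
            refine ENNReal.tsum_le_tsum (fun z => ?_)
            have hmul := hP.mul {p : (V × V) × ℝ | p.2 ∈ Icc s (s + k * h)}
              {p : (V × V) × ℝ | p.2 ∈ Icc (s + k * h) (s + k * h + h)} (by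
                intro e
                refine measure_mono_null (t := {s + k * h}) ?_ Real.volume_singleton
                rintro t ⟨h5, h6⟩
                exact le_antisymm h5.2 h6.1)
              (g02_meas (G := G) hP x z s (s + k * h))
              (g02_meas (G := G) hP z y (s + k * h) (s + k * h + h))
            have hmul' : P ({ω | reach G (M ω) x z s (s + k * h)} ∩
                {ω | reach G (M ω) z y (s + k * h) (s + k * h + h)}) =
                P {ω | reach G (M ω) x z s (s + k * h)} *
                P {ω | reach G (M ω) z y (s + k * h) (s + k * h + h)} := by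
              rw [← ENNReal.toReal_eq_toReal_iff' (measure_ne_top _ _)
                (ENNReal.mul_ne_top (measure_ne_top _ _) (measure_ne_top _ _)), ENNReal.toReal_mul]
              exact hmul
            rw [hmul']
            have h7 : ENNReal.ofReal (Real.exp (a * G.dist x y)) ≤
                ENNReal.ofReal (Real.exp (a * G.dist x z)) *
                ENNReal.ofReal (Real.exp (a * G.dist z y)) := by
              rw [← ENNReal.ofReal_mul (Real.exp_pos _).le, ← Real.exp_add]
              refine ENNReal.ofReal_le_ofReal (Real.exp_le_exp.2 ?_)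
              have h8 : (G.dist x y : ℝ) ≤ G.dist x z + G.dist z y := by
                exact_mod_cast hconn.dist_triangle
              nlinarith
            calc _ ≤ P {ω | reach G (M ω) x z s (s + k * h)} *
                P {ω | reach G (M ω) z y (s + k * h) (s + k * h + h)} *
                (ENNReal.ofReal (Real.exp (a * G.dist x z)) *
                ENNReal.ofReal (Real.exp (a * G.dist z y))) := by gcongr
              _ = _ := by ring
    calc ∑' y, P {ω | reach G (M ω) x y s (s + (k + 1 : ℕ) * h)} *
        ENNReal.ofReal (Real.exp (a * G.dist x y))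
        ≤ ∑' y, ∑' z, (P {ω | reach G (M ω) x z s (s + k * h)} *
          ENNReal.ofReal (Real.exp (a * G.dist x z))) *
          (P {ω | reach G (M ω) z y (s + k * h) (s + k * h + h)} *
          ENNReal.ofReal (Real.exp (a * G.dist z y))) := ENNReal.tsum_le_tsum hstep
      _ = ∑' z, (P {ω | reach G (M ω) x z s (s + k * h)} *
          ENNReal.ofReal (Real.exp (a * G.dist x z))) *
          ∑' y, (P {ω | reach G (M ω) z y (s + k * h) (s + k * h + h)} *
          ENNReal.ofReal (Real.exp (a * G.dist z y))) := by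
          rw [ENNReal.tsum_comm]
          refine tsum_congr (fun z => ?_)
          rw [ENNReal.tsum_mul_left]
      _ ≤ ∑' z, (P {ω | reach G (M ω) x z s (s + k * h)} *
          ENNReal.ofReal (Real.exp (a * G.dist x z))) * 2 := by
          refine ENNReal.tsum_le_tsum (fun z => ?_)
          exact mul_le_mul_right (g02_slot hconn hD hlam hP ha hh hsmall z (s + k * h)) _
      _ = (∑' z, (P {ω | reach G (M ω) x z s (s + k * h)} *
          ENNReal.ofReal (Real.exp (a * G.dist x z)))) * 2 := by rw [ENNReal.tsum_mul_right]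
      _ ≤ 2 ^ k * 2 := mul_le_mul_left ih _
      _ = 2 ^ (k + 1) := by rw [pow_succ]

theorem spread (D : ℕ) {lam : ℝ} (hlam : 0 < lam) (a : ℝ) (ha : 0 < a) :
    ∃ K : ℝ, 0 < K ∧ ∀ (V : Type) [Countable V] (G : SimpleGraph V), G.Connected →
      (∀ x, (G.neighborSet x).Finite ∧ (G.neighborSet x).ncard ≤ D) →
      ∀ (Ω : Type) [MeasurableSpace Ω] (P : Measure Ω) (M : Ω → V × V → Set ℝ),
        IsPoisson P M (cRate lam) → ∀ (x : V) (s : ℝ) (n : ℕ),
          ∑' y, P {ω | reach G (M ω) x y s (s + n)} * ENNReal.ofReal (Real.exp (a * G.dist x y)) ≤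
            ENNReal.ofReal (Real.exp (K * n)) := by
  obtain ⟨N, hN⟩ := exists_nat_gt (2 * (D * (lam * Real.exp a)))
  have hN0 : (0 : ℝ) < N + 1 := by positivity
  refine ⟨(N + 1) * Real.log 2, mul_pos hN0 (Real.log_pos (by norm_num)), ?_⟩
  intro V _ G hconn hD Ω _ P M hP x s n
  have h1 := g02_slots hconn hD hlam hP (a := a) (h := 1 / (N + 1)) ha (by positivity) (by
    rw [show (D : ℝ) * (lam * (1 / (N + 1)) * Real.exp a) = (D * (lam * Real.exp a)) / (N + 1) by ring,
      div_le_div_iff₀ hN0 (by norm_num)]
    linarith) x s ((N + 1) * n)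
  have e1 : (((N + 1) * n : ℕ) : ℝ) * (1 / (N + 1)) = n := by
    push_cast
    field_simp
  rw [e1] at h1
  refine h1.trans (le_of_eq ?_)
  have e2 : Real.exp ((N + 1) * Real.log 2 * n) = 2 ^ ((N + 1) * n) := by
    rw [show ((N : ℝ) + 1) * Real.log 2 * n = (((N + 1) * n : ℕ) : ℝ) * Real.log 2 by push_cast; ring,
      Real.exp_nat_mul, Real.exp_log (by norm_num)]
  rw [e2, ENNReal.ofReal_pow (by norm_num)]
  norm_num

theorem g02_noRec_revT {V : Type*} (τ : ℝ) (m : V × V → Set ℝ) :
    noRec (revT τ m) = revT τ (noRec m) := by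
  funext e
  ext t
  show (τ - t ∈ m (e.2, e.1) ∧ e.1 ≠ e.2) ↔ (τ - t ∈ m (e.2, e.1) ∧ e.2 ≠ e.1)
  rw [ne_comm]

theorem spread_rev (D : ℕ) {lam : ℝ} (hlam : 0 < lam) (a : ℝ) (ha : 0 < a) :
    ∃ K : ℝ, 0 < K ∧ ∀ (V : Type) [Countable V] (G : SimpleGraph V), G.Connected →
      (∀ x, (G.neighborSet x).Finite ∧ (G.neighborSet x).ncard ≤ D) →
      ∀ (Ω : Type) [MeasurableSpace Ω] (P : Measure Ω) (M : Ω → V × V → Set ℝ),
        IsPoisson P M (cRate lam) → ∀ (x : V) (s : ℝ) (n : ℕ),
          ∑' y, P {ω | reach G (M ω) y x s (s + n)} * ENNReal.ofReal (Real.exp (a * G.dist x y)) ≤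
            ENNReal.ofReal (Real.exp (K * n)) := by
  obtain ⟨K, hK, h⟩ := spread D hlam a ha
  refine ⟨K, hK, ?_⟩
  intro V _ G hconn hD Ω _ P M hP x s n
  have h1 := h V G hconn hD Ω P (fun ω => revT (2 * s + n) (M ω)) (hP.revT _) x s n
  have e1 : ∀ y, {ω | reach G (revT (2 * s + n) (M ω)) x y s (s + n)} =
      {ω | reach G (M ω) y x s (s + n)} := by
    intro y
    ext ω
    simp only [mem_setOf_eq, reach]
    rw [g02_noRec_revT]
    have h2 := Conn.rev (adj := G.Adj) (m := noRec (M ω)) (x := y) (y := x) (s := s) (t := s + n)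
      (fun a b hab => hab.symm) (2 * s + n)
    rw [show 2 * s + (n : ℝ) - (s + n) = s by ring, show 2 * s + (n : ℝ) - s = s + n by ring] at h2
    exact h2
  simp only [e1] at h1
  exact h1

theorem spread_far (D : ℕ) {lam : ℝ} (hlam : 0 < lam) (a : ℝ) (ha : 0 < a) :
    ∃ K : ℝ, 0 < K ∧ ∀ (V : Type) [Countable V] (G : SimpleGraph V), G.Connected →
      (∀ x, (G.neighborSet x).Finite ∧ (G.neighborSet x).ncard ≤ D) →
      ∀ (Ω : Type) [MeasurableSpace Ω] (P : Measure Ω) (M : Ω → V × V → Set ℝ),
        IsPoisson P M (cRate lam) → ∀ (x : V) (s : ℝ) (n : ℕ) (R : ℕ),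
          P.real {ω | ∃ y, R ≤ G.dist x y ∧ reach G (M ω) x y s (s + n)} ≤
            Real.exp (K * n - a * R) := by
  obtain ⟨K, hK, h⟩ := spread D hlam a ha
  refine ⟨K, hK, ?_⟩
  intro V _ G hconn hD Ω _ P M hP x s n R
  have h1 := h V G hconn hD Ω P M hP x s n
  have h2 : P {ω | ∃ y, R ≤ G.dist x y ∧ reach G (M ω) x y s (s + n)} ≤
      ENNReal.ofReal (Real.exp (K * n - a * R)) := by
    have hsub : {ω | ∃ y, R ≤ G.dist x y ∧ reach G (M ω) x y s (s + n)} ⊆
        ⋃ y, {ω | R ≤ G.dist x y ∧ reach G (M ω) x y s (s + n)} := by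
      rintro ω ⟨y, hy⟩
      exact mem_iUnion.2 ⟨y, hy⟩
    calc P {ω | ∃ y, R ≤ G.dist x y ∧ reach G (M ω) x y s (s + n)}
        ≤ ∑' y, P {ω | R ≤ G.dist x y ∧ reach G (M ω) x y s (s + n)} :=
          (measure_mono hsub).trans (measure_iUnion_le _)
      _ ≤ ∑' y, ENNReal.ofReal (Real.exp (-(a * R))) * (P {ω | reach G (M ω) x y s (s + n)} *
          ENNReal.ofReal (Real.exp (a * G.dist x y))) := by
          refine ENNReal.tsum_le_tsum (fun y => ?_)
          by_cases hR : R ≤ G.dist x y
          · have h3 : {ω | R ≤ G.dist x y ∧ reach G (M ω) x y s (s + n)} =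
                {ω | reach G (M ω) x y s (s + n)} := by
              ext ω; simp [hR]
            rw [h3]
            have h4 : (1 : ℝ≥0∞) ≤ ENNReal.ofReal (Real.exp (-(a * R))) *
                ENNReal.ofReal (Real.exp (a * G.dist x y)) := by
              rw [← ENNReal.ofReal_mul (Real.exp_pos _).le, ← Real.exp_add, ENNReal.one_le_ofReal]
              refine Real.one_le_exp ?_
              have : (R : ℝ) ≤ G.dist x y := by exact_mod_cast hR
              nlinarith
            calc P {ω | reach G (M ω) x y s (s + n)} = P {ω | reach G (M ω) x y s (s + n)} * 1 := by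
                  rw [mul_one]
              _ ≤ P {ω | reach G (M ω) x y s (s + n)} * (ENNReal.ofReal (Real.exp (-(a * R))) *
                ENNReal.ofReal (Real.exp (a * G.dist x y))) := mul_le_mul_right h4 _
              _ = _ := by ring
          · have h3 : {ω | R ≤ G.dist x y ∧ reach G (M ω) x y s (s + n)} = ∅ := by
              ext ω; simp [hR]
            rw [h3, measure_empty]
            exact zero_le
      _ = ENNReal.ofReal (Real.exp (-(a * R))) * ∑' y, (P {ω | reach G (M ω) x y s (s + n)} *
          ENNReal.ofReal (Real.exp (a * G.dist x y))) := by rw [ENNReal.tsum_mul_left]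
      _ ≤ ENNReal.ofReal (Real.exp (-(a * R))) * ENNReal.ofReal (Real.exp (K * n)) :=
          mul_le_mul_right h1 _
      _ = ENNReal.ofReal (Real.exp (K * n - a * R)) := by
          rw [← ENNReal.ofReal_mul (Real.exp_pos _).le, ← Real.exp_add]
          congr 2
          ring
  exact ENNReal.toReal_le_of_le_ofReal (Real.exp_pos _).le h2

end CPM
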