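import Pool.Agent.Lib.MP_1a4724_pr.L08
import Pool.Agent.Lib.MP_1a4724_pr.G02
import Pool.Agent.Lib.MP_1a4724_pr.F01

/-! # F02b : measurability and independence of the exceptional events of F02 -/

noncomputable section

open MeasureTheory Set

namespace CPM

/-- marks at times in `[0, T]` -/
def f02_R (V : Type*) (T : ℝ) : Set ((V × V) × ℝ) := {p | p.2 ∈ Icc 0 T}

theorem f02_conn_vmeas {V : Type*} [Countable V] {γ : ℕ → V} (hγ : Function.Injective γ)
    {τ u T : ℝ} (h0 : 0 ≤ τ) (hT : τ + u ≤ T) (z : ℕ) :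
    VMeas (f02_R V T) (fun m => Conn natAdj (pull γ (shiftT τ m)) (0, 0) (z, u)) := by
  have h1 : VMeas {p : (ℕ × ℕ) × ℝ | p.2 ∈ Icc 0 u}
      (fun m => Conn natAdj m (0, 0) (z, u)) := conn_vmeas_univ natAdj 0 z 0 u
  have h2 : VMeas {p : (V × V) × ℝ | p.2 ∈ Icc 0 u}
      (fun m => Conn natAdj (pull γ m) (0, 0) (z, u)) :=
    VMeas.pull hγ h1 (fun x y t ht => ht)
  exact VMeas.shiftT τ h2 (fun e t ht => ⟨by have := ht.1; simp only at this ⊢; linarith,
    by have := ht.2; simp only at this ⊢; linarith⟩)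

theorem f02_alive_vmeas {V : Type*} [Countable V] {γ : ℕ → V} (hγ : Function.Injective γ)
    {τ u T : ℝ} (h0 : 0 ≤ τ) (hT : τ + u ≤ T) :
    VMeas (f02_R V T) (fun m => aliveAt natAdj (pull γ (shiftT τ m)) 0 u) :=
  VMeas.exists fun z => f02_conn_vmeas hγ h0 hT z

theorem f02_rev_vmeas {V : Type*} {T : ℝ} {Q : (V × V → Set ℝ) → Prop}
    (hQ : VMeas (f02_R V T) Q) : VMeas (f02_R V T) (fun m => Q (revT T m)) :=
  VMeas.revT T hQ (fun x y t ht => ⟨by have := ht.2; simp only at this ⊢; linarith,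
    by have := ht.1; simp only at this ⊢; linarith⟩)

/-- the speed event -/
theorem f02_edge_vmeas {V : Type*} [Countable V] {γ : ℕ → V} (hγ : Function.Injective γ)
    {τ u T : ℝ} (h0 : 0 ≤ τ) (hT : τ + u ≤ T) (zs : ℕ) :
    VMeas (f02_R V T) (fun m => aliveAt natAdj (pull γ (shiftT τ m)) 0 u →
      ∃ z : ℕ, zs ≤ z ∧ Conn natAdj (pull γ (shiftT τ m)) (0, 0) (z, u)) :=
  (f02_alive_vmeas hγ h0 hT).imp
    (VMeas.exists fun z => (VMeas.const _).and (f02_conn_vmeas hγ h0 hT z))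

theorem f02_conn_vmeas' {V : Type*} [Countable V] (G : SimpleGraph V) (y z : V)
    {u T : ℝ} (hT : u ≤ T) :
    VMeas (f02_R V T) (fun m => Conn G.Adj m (y, 0) (z, u)) :=
  (conn_vmeas_univ G.Adj y z 0 u).mono (fun p hp => ⟨hp.1, hp.2.trans hT⟩)

theorem f02_vmeas1 {V : Type*} [Countable V] {γ : V → ℕ → V}
    (hγ : ∀ x, Function.Injective (γ x)) (S : Set V) {μ K zs : ℕ} {T : ℝ}
    (hT : 2 * (K : ℝ) ≤ T) :
    VMeas (f02_R V T) (fun m => ∀ x ∈ S, ∀ j : ℕ, j < μ →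
      aliveAt natAdj (pull (γ x) (shiftT (2 * (j : ℝ)) m)) 0 (2 * ((K : ℝ) - j)) →
      ∃ z : ℕ, zs ≤ z ∧ Conn natAdj (pull (γ x) (shiftT (2 * (j : ℝ)) m)) (0, 0)
        (z, 2 * ((K : ℝ) - j))) :=
  VMeas.forall fun x => (VMeas.const _).imp (VMeas.forall fun j => (VMeas.const _).imp
    (f02_edge_vmeas (hγ x) (by positivity) (by linarith) zs))

theorem f02_vmeas2 {V : Type*} [Countable V] (G : SimpleGraph V) {γ : V → ℕ → V}
    (hγ : ∀ x, Function.Injective (γ x)) (y : V) {μ K : ℕ} {T : ℝ} (hμ : μ ≤ K)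
    (hT : 2 * (K : ℝ) ≤ T) :
    VMeas (f02_R V T) (fun m => aliveAt G.Adj m y (2 * (μ : ℝ)) ∧ ∀ j : ℕ, j < μ → ∀ z,
      Conn G.Adj m (y, 0) (z, 2 * (j : ℝ)) →
      ¬ aliveAt natAdj (pull (γ z) (shiftT (2 * (j : ℝ)) m)) 0 (2 * ((K : ℝ) - j))) := by
  have hμ' : (μ : ℝ) ≤ K := by exact_mod_cast hμ
  refine VMeas.and (VMeas.exists fun z => f02_conn_vmeas' G y z (by linarith)) ?_
  refine VMeas.forall fun j => ?_
  by_cases hj : j < μ
  · have hj' : (j : ℝ) ≤ μ := by exact_mod_cast hj.le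
    exact (VMeas.const _).imp (VMeas.forall fun z => (f02_conn_vmeas' G y z (by linarith)).imp
      (f02_alive_vmeas (hγ z) (by positivity) (by linarith)).not)
  · refine (VMeas.const True).congr fun m _ => ?_
    simp [hj]

theorem f02_vmeas3 {V : Type*} [Countable V] (G : SimpleGraph V) (y : V) (R₀ : ℕ) {u T : ℝ}
    (hT : u ≤ T) :
    VMeas (f02_R V T) (fun m => ∃ z, R₀ ≤ G.dist y z ∧ reach G m y z 0 u) :=
  VMeas.exists fun z => (VMeas.const _).and
    ((reach_vmeas G y z 0 u).mono (fun p hp => ⟨hp.1, hp.2.trans hT⟩))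

theorem f02_vmeas5 {V : Type*} [Countable V] {R : ℕ → V} (hR : Function.Injective R)
    (N : ℕ) {T : ℝ} :
    VMeas (f02_R V T) (fun m => ∃ c d : ℕ, c ≤ N ∧ d ≤ N ∧
      Conn (adjOn (Iic N) natAdj) (pull R m) (c, 0) (d, T)) := by
  refine VMeas.exists fun c => VMeas.exists fun d => ?_
  by_cases hc : c ≤ N
  · refine (VMeas.const _).and ((VMeas.const _).and ?_)
    have h1 : VMeas {p : (ℕ × ℕ) × ℝ | p.2 ∈ Icc 0 T}
        (fun m => Conn (adjOn (Iic N) natAdj) m (c, 0) (d, T)) :=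
      (conn_vmeas natAdj (Iic N) (x := c) hc d 0 T).mono (fun p hp => hp.2.2)
    exact VMeas.pull hR h1 (fun x y t ht => ht)
  · refine (VMeas.const False).congr fun m _ => ?_
    simp [hc]

/-- an event of the marks at times `≥ 0` is independent of the past -/
theorem f02_mul {V : Type} [Countable V] {adj : V → V → Prop} {lam : ℝ} {Ω : Type}
    [MeasurableSpace Ω] {P : Measure Ω} {M : Ω → V × V → Set ℝ} (hP : IsPoisson P M (cRate lam))
    {Δ : Set V} {A : Set Ω} (hA : MeasurableSet[projAlg adj M Δ (Iio 0)] A) {T : ℝ}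
    {Q : (V × V → Set ℝ) → Prop} (hQ : VMeas (f02_R V T) Q) :
    P.real (A ∩ {ω | Q (M ω)}) = P.real A * P.real {ω | Q (M ω)} := by
  have hgood := hP.good
  have hA' : MeasurableSet[VA M {p | p.2 ≤ 0}] A :=
    projAlg_le_VA hgood Δ (fun s hs => le_of_lt hs) A hA
  refine hP.mul {p | p.2 ≤ 0} (f02_R V T) (fun e => ?_) hA' (hQ.measurableSet hgood)
  refine measure_mono_null (t := {0}) ?_ (by simp)
  intro t ht
  exact le_antisymm ht.1 ht.2.1

end CPM
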