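import Pool.Agent.Lib.MP_1a4724_pr.S04
import Pool.Agent.Lib.MP_1a4724_pr.F02b

/-! # F02c : probabilities of the exceptional events of F02 -/

noncomputable section

open MeasureTheory Set

namespace CPM

/-- the conclusion of `nat_edge` for given constants -/
def f02_Edge (lam a₀ C c : ℝ) : Prop :=
  ∀ (Ω : Type) [MeasurableSpace Ω] (P : Measure Ω) (M : Ω → ℕ × ℕ → Set ℝ),
    IsPoisson P M (cRate lam) → ∀ t : ℕ,
      P.real {ω | aliveAt natAdj (M ω) 0 t ∧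
        ¬ ∃ z : ℕ, a₀ * t ≤ z ∧ Conn natAdj (M ω) (0, 0) (z, t)} ≤
        C * Real.exp (-c * t)

variable {lam a₀ C c : ℝ}

/-- one attempt with a shifted starting time -/
theorem f02_one (hE : f02_Edge lam a₀ C c) (hC : 0 < C) (hc : 0 < c) {V : Type} {Ω : Type}
    [MeasurableSpace Ω] {P : Measure Ω} {M : Ω → V × V → Set ℝ} (hP : IsPoisson P M (cRate lam))
    {γ : ℕ → V} (hγ : Function.Injective γ) (τ : ℝ) {t : ℕ} {u : ℝ} (hu : u = t) {zs : ℕ}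
    (hzs : (zs : ℝ) ≤ a₀ * t) {θ : ℝ} (hθ : θ ≤ t) :
    P.real {ω | ¬ (aliveAt natAdj (pull γ (shiftT τ (M ω))) 0 u →
      ∃ z : ℕ, zs ≤ z ∧ Conn natAdj (pull γ (shiftT τ (M ω))) (0, 0) (z, u))} ≤
      C * Real.exp (-c * θ) := by
  subst hu
  have hprob := hP.prob
  have h1 := hE Ω P (fun ω => pull γ (shiftT τ (M ω))) ((hP.shiftT τ).pull hγ) t
  refine (measureReal_mono (fun ω hω => ?_)).trans (h1.trans ?_)
  · obtain ⟨h2, h3⟩ := Classical.not_imp.1 hω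
    refine ⟨h2, fun ⟨z, hz, hc⟩ => h3 ⟨z, ?_, hc⟩⟩
    exact_mod_cast hzs.trans hz
  · exact mul_le_mul_of_nonneg_left (Real.exp_le_exp.2 (by nlinarith)) hC.le

/-- all the attempts from a finite set -/
theorem f02_many (hE : f02_Edge lam a₀ C c) (hC : 0 < C) (hc : 0 < c) (ha₀ : 0 < a₀) {V : Type}
    {Ω : Type} [MeasurableSpace Ω] {P : Measure Ω} {M : Ω → V × V → Set ℝ}
    (hP : IsPoisson P M (cRate lam)) {γ : V → ℕ → V} (hγ : ∀ x, Function.Injective (γ x))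
    (S : Finset V) {μ K zs : ℕ} (hμ : μ ≤ K) {θ : ℝ} (hθ : ∀ j : ℕ, j < μ → θ ≤ 2 * ((K : ℝ) - j))
    (hzs : (zs : ℝ) ≤ a₀ * θ) :
    P.real {ω | ¬ ∀ x ∈ (S : Set V), ∀ j : ℕ, j < μ →
      aliveAt natAdj (pull (γ x) (shiftT (2 * (j : ℝ)) (M ω))) 0 (2 * ((K : ℝ) - j)) →
      ∃ z : ℕ, zs ≤ z ∧ Conn natAdj (pull (γ x) (shiftT (2 * (j : ℝ)) (M ω))) (0, 0)
        (z, 2 * ((K : ℝ) - j))} ≤
      (S.card : ℝ) * μ * (C * Real.exp (-c * θ)) := by
  have hprob := hP.prob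
  set E : V → ℕ → Set Ω := fun x j => {ω | ¬ (
    aliveAt natAdj (pull (γ x) (shiftT (2 * (j : ℝ)) (M ω))) 0 (2 * ((K : ℝ) - j)) →
      ∃ z : ℕ, zs ≤ z ∧ Conn natAdj (pull (γ x) (shiftT (2 * (j : ℝ)) (M ω))) (0, 0)
        (z, 2 * ((K : ℝ) - j)))} with hEdef
  have hsub : {ω | ¬ ∀ x ∈ (S : Set V), ∀ j : ℕ, j < μ →
      aliveAt natAdj (pull (γ x) (shiftT (2 * (j : ℝ)) (M ω))) 0 (2 * ((K : ℝ) - j)) →
      ∃ z : ℕ, zs ≤ z ∧ Conn natAdj (pull (γ x) (shiftT (2 * (j : ℝ)) (M ω))) (0, 0)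
        (z, 2 * ((K : ℝ) - j))} ⊆ ⋃ x ∈ S, ⋃ j ∈ Finset.range μ, E x j := by
    intro ω hω
    simp only [mem_setOf_eq, not_forall] at hω
    obtain ⟨x, hx, j, hj, h1, h2⟩ := hω
    simp only [mem_iUnion]
    exact ⟨x, Finset.mem_coe.1 hx, j, Finset.mem_range.2 hj, fun h3 => h2 (h3 h1)⟩
  refine (measureReal_mono hsub (measure_ne_top P _)).trans ?_
  refine (measureReal_biUnion_finset_le _ _).trans ?_
  have h1 : ∀ x ∈ S, P.real (⋃ j ∈ Finset.range μ, E x j) ≤ μ * (C * Real.exp (-c * θ)) := by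
    intro x _
    refine (measureReal_biUnion_finset_le _ _).trans ?_
    have h2 : ∀ j ∈ Finset.range μ, P.real (E x j) ≤ C * Real.exp (-c * θ) := by
      intro j hj
      have hj' : j < μ := Finset.mem_range.1 hj
      have hjK : j ≤ K := hj'.le.trans hμ
      have hu : (2 * ((K : ℝ) - j)) = ((2 * (K - j) : ℕ) : ℝ) := by
        push_cast [Nat.cast_sub hjK]; ring
      have h3 := hθ j hj'
      rw [hu] at h3
      exact f02_one hE hC hc hP (hγ x) _ hu (hzs.trans (mul_le_mul_of_nonneg_left h3 ha₀.le)) h3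
    refine (Finset.sum_le_sum h2).trans ?_
    rw [Finset.sum_const, Finset.card_range, nsmul_eq_mul]
  refine (Finset.sum_le_sum h1).trans ?_
  rw [Finset.sum_const, nsmul_eq_mul]
  exact le_of_eq (by ring)

end CPM
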