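import Mathlib

/-! # F02d : the numerical estimates of F02 -/

noncomputable section

namespace CPM

theorem f02_exp_floor {κ x m : ℝ} (hκ : 0 ≤ κ) (h : x - 1 ≤ m) :
    Real.exp (-κ * m) ≤ Real.exp κ * Real.exp (-κ * x) := by
  rw [← Real.exp_add]
  exact Real.exp_le_exp.2 (by nlinarith)

theorem f02_poly {c ν : ℝ} (hc : 0 < c) (hν : 0 ≤ ν) :
    (1 + ν) * Real.exp (-c * ν) ≤ (1 + 2 / c) * Real.exp (-(c / 2) * ν) := by
  have h1 : Real.exp (-c * ν) = Real.exp (-(c / 2) * ν) * Real.exp (-(c / 2) * ν) := by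
    rw [← Real.exp_add]; congr 1; ring
  have h2 : c / 2 * ν + 1 ≤ Real.exp (c / 2 * ν) := Real.add_one_le_exp _
  have h3 : Real.exp (c / 2 * ν) * Real.exp (-(c / 2) * ν) = 1 := by
    rw [← Real.exp_add]; simp
  have h4 : 1 + ν ≤ (1 + 2 / c) * Real.exp (c / 2 * ν) := by
    have h5 : (1 + 2 / c) * (c / 2 * ν + 1) = 1 + ν + c / 2 * ν + 2 / c := by
      field_simp
      ring
    have h6 : 0 ≤ 2 / c := by positivity
    have h7 : 0 ≤ c / 2 * ν := by positivity
    nlinarith [mul_le_mul_of_nonneg_left h2 (by positivity : (0:ℝ) ≤ 1 + 2 / c)]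
  have h8 : 0 < Real.exp (-(c / 2) * ν) := Real.exp_pos _
  calc (1 + ν) * Real.exp (-c * ν)
      ≤ ((1 + 2 / c) * Real.exp (c / 2 * ν)) * Real.exp (-c * ν) :=
        mul_le_mul_of_nonneg_right h4 (Real.exp_pos _).le
    _ = (1 + 2 / c) * (Real.exp (c / 2 * ν) * Real.exp (-(c / 2) * ν)) *
          Real.exp (-(c / 2) * ν) := by rw [h1]; ring
    _ = _ := by rw [h3]; ring

theorem f02_real {Cf cf Cd cd a₀ Ce ce Cs cs K₀ : ℝ} (hCf : 0 < Cf) (hcf : 0 < cf)
    (hCd : 0 < Cd) (hcd : 0 < cd) (ha₀ : 0 < a₀) (hCe : 0 < Ce) (hce : 0 < ce) (hCs : 0 < Cs)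
    (hcs : 0 < cs) (hK₀ : 0 < K₀) (D : ℕ) :
    ∃ δ : ℝ, 0 < δ ∧ δ ≤ 1 / 8 ∧ (2 * K₀ + 1) * δ ≤ a₀ / 64 ∧ ∃ C c : ℝ, 0 < C ∧ 0 < c ∧
      ∀ (ν : ℕ) (n : ℝ), 1 ≤ n →
        (a₀ * ν < 64 → 1 ≤ C * n * Real.exp (-c * ν)) ∧
        ∀ μ μ' R₀ N : ℕ, μ = ν / 6 → μ' = ⌊δ * ν⌋₊ → R₀ = ⌈(2 * K₀ + 1) * (μ' : ℝ)⌉₊ →
          N = ⌊a₀ * ν / 8⌋₊ →
          Cf * Real.exp (-cf * μ) + n * μ * (Ce * Real.exp (-ce * ((ν : ℝ) / 2))) +
            Cd * Real.exp (-cd * μ') + Real.exp (K₀ * ((2 * μ' : ℕ) : ℝ) - 1 * R₀) +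
            (((D + 1) ^ (R₀ + 1) : ℕ) : ℝ) * μ' * (Ce * Real.exp (-ce * ((ν : ℝ) / 2))) +
            Cs * (((2 * ν : ℕ) : ℝ) + 1) * Real.exp (-cs * N) ≤ C * n * Real.exp (-c * ν) := by
  set L : ℝ := Real.log (D + 2) with hL
  have hLpos : 0 < L := Real.log_pos (by have : (0:ℝ) ≤ D := Nat.cast_nonneg _; linarith)
  set k : ℝ := 2 * K₀ + 1 with hk
  have hkpos : 0 < k := by positivity
  obtain ⟨δ, hδ, hδ1, hδ2, hδ3⟩ : ∃ δ : ℝ, 0 < δ ∧ δ ≤ 1 / 8 ∧ k * δ ≤ a₀ / 64 ∧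
      L * (k * δ) ≤ ce / 8 := by
    refine ⟨min (1 / 8) (min (a₀ / 64 / k) (ce / 8 / (L * k))), ?_, min_le_left _ _, ?_, ?_⟩
    · refine lt_min (by norm_num) (lt_min (by positivity) (by positivity))
    · have h1 : min (1 / 8 : ℝ) (min (a₀ / 64 / k) (ce / 8 / (L * k))) ≤ a₀ / 64 / k :=
        (min_le_right _ _).trans (min_le_left _ _)
      rw [le_div_iff₀ hkpos] at h1
      linarith
    · have h1 : min (1 / 8 : ℝ) (min (a₀ / 64 / k) (ce / 8 / (L * k))) ≤ ce / 8 / (L * k) :=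
        (min_le_right _ _).trans (min_le_right _ _)
      rw [le_div_iff₀ (by positivity)] at h1
      linarith
  obtain ⟨c₁, hc₁, e1, e2, e3, e4, e5⟩ : ∃ c₁ : ℝ, 0 < c₁ ∧ c₁ ≤ cf / 6 ∧ c₁ ≤ ce / 4 ∧
      c₁ ≤ cd * δ ∧ c₁ ≤ δ ∧ c₁ ≤ cs * a₀ / 8 := by
    refine ⟨min (cf / 6) (min (ce / 4) (min (cd * δ) (min δ (cs * a₀ / 8)))), ?_, ?_, ?_, ?_,
      ?_, ?_⟩
    · refine lt_min (by positivity) (lt_min (by positivity) (lt_min (by positivity)
        (lt_min hδ (by positivity))))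
    · exact min_le_left _ _
    · exact (min_le_right _ _).trans (min_le_left _ _)
    · exact (min_le_right _ _).trans ((min_le_right _ _).trans (min_le_left _ _))
    · exact (min_le_right _ _).trans ((min_le_right _ _).trans ((min_le_right _ _).trans
        (min_le_left _ _)))
    · exact (min_le_right _ _).trans ((min_le_right _ _).trans ((min_le_right _ _).trans
        (min_le_right _ _)))
  set S : ℝ := Cf * Real.exp cf + Ce + Cd * Real.exp cd + Real.exp 1 + Ce * Real.exp (2 * L) +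
    2 * (Cs * Real.exp cs) with hS
  have hSpos : 0 < S := by positivity
  refine ⟨δ, hδ, hδ1, hδ2, (1 + 2 / c₁) * S + Real.exp (c₁ / 2 * (64 / a₀)), c₁ / 2,
    by positivity, by positivity, ?_⟩
  intro ν n hn
  have hν : (0 : ℝ) ≤ ν := Nat.cast_nonneg ν
  have hn0 : 0 ≤ n := by linarith
  constructor
  · intro hsmall
    have h1 : (ν : ℝ) ≤ 64 / a₀ := by
      rw [le_div_iff₀ ha₀]; linarith
    have h2 : 1 ≤ Real.exp (c₁ / 2 * (64 / a₀)) * Real.exp (-(c₁ / 2) * ν) := by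
      rw [← Real.exp_add]
      apply Real.one_le_exp
      have : c₁ / 2 * ν ≤ c₁ / 2 * (64 / a₀) := mul_le_mul_of_nonneg_left h1 (by positivity)
      linarith
    have h3 : 0 < Real.exp (-(c₁ / 2) * ν) := Real.exp_pos _
    calc (1:ℝ) ≤ Real.exp (c₁ / 2 * (64 / a₀)) * Real.exp (-(c₁ / 2) * ν) := h2
      _ ≤ ((1 + 2 / c₁) * S + Real.exp (c₁ / 2 * (64 / a₀))) * Real.exp (-(c₁ / 2) * ν) := by
          apply mul_le_mul_of_nonneg_right _ h3.le
          have : 0 < (1 + 2 / c₁) * S := by positivity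
          linarith
      _ = ((1 + 2 / c₁) * S + Real.exp (c₁ / 2 * (64 / a₀))) * 1 *
            Real.exp (-(c₁ / 2) * ν) := by ring
      _ ≤ _ := by
          apply mul_le_mul_of_nonneg_right _ h3.le
          apply mul_le_mul_of_nonneg_left hn
          positivity
  · intro μ μ' R₀ N hμ hμ' hR₀ hN
    set E : ℝ := Real.exp (-c₁ * ν) with hE
    have hEpos : 0 < E := Real.exp_pos _
    have hmono : ∀ κ : ℝ, c₁ ≤ κ → Real.exp (-κ * ν) ≤ E := by
      intro κ h; exact Real.exp_le_exp.2 (by nlinarith)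
    -- (1)
    have hμR : (ν : ℝ) / 6 - 1 ≤ μ := by
      have h1 : ν < 6 * (μ + 1) := by rw [hμ]; omega
      have h2 : (ν : ℝ) < 6 * (μ + 1) := by exact_mod_cast h1
      linarith
    have hμν : (μ : ℝ) ≤ ν := by
      have : μ ≤ ν := by rw [hμ]; omega
      exact_mod_cast this
    have T1 : Cf * Real.exp (-cf * μ) ≤ Cf * Real.exp cf * ((1 + ν) * E) := by
      have h1 := f02_exp_floor hcf.le hμR
      have h2 : Real.exp (-cf * ((ν : ℝ) / 6)) ≤ E := by
        have := hmono (cf / 6) e1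
        have h3 : -cf * ((ν : ℝ) / 6) = -(cf / 6) * ν := by ring
        rwa [h3]
      calc Cf * Real.exp (-cf * μ) ≤ Cf * (Real.exp cf * Real.exp (-cf * ((ν : ℝ) / 6))) :=
            mul_le_mul_of_nonneg_left h1 hCf.le
        _ ≤ Cf * (Real.exp cf * E) := by gcongr
        _ ≤ Cf * (Real.exp cf * ((1 + ν) * E)) := by
            gcongr
            nlinarith
        _ = _ := by ring
    -- (2)
    have h2E : Real.exp (-ce * ((ν : ℝ) / 2)) ≤ E := by
      have := hmono (ce / 2) (by linarith)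
      have h3 : -ce * ((ν : ℝ) / 2) = -(ce / 2) * ν := by ring
      rwa [h3]
    have T2 : n * μ * (Ce * Real.exp (-ce * ((ν : ℝ) / 2))) ≤ n * (Ce * ((1 + ν) * E)) := by
      calc n * μ * (Ce * Real.exp (-ce * ((ν : ℝ) / 2))) ≤ n * (1 + ν) * (Ce * E) := by
            gcongr
            linarith
        _ = _ := by ring
    -- (3)
    have hδν : (0:ℝ) ≤ δ * ν := by positivity
    have hμ'1 : δ * ν - 1 ≤ μ' := by
      have := Nat.lt_floor_add_one (δ * ν)
      rw [← hμ'] at this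
      linarith
    have hμ'2 : (μ' : ℝ) ≤ δ * ν := by rw [hμ']; exact Nat.floor_le hδν
    have hμ'0 : (0:ℝ) ≤ μ' := Nat.cast_nonneg _
    have hμ'3 : (μ' : ℝ) ≤ ν := by nlinarith
    have T3 : Cd * Real.exp (-cd * μ') ≤ Cd * Real.exp cd * ((1 + ν) * E) := by
      have h1 := f02_exp_floor hcd.le hμ'1
      have h2 : Real.exp (-cd * (δ * ν)) ≤ E := by
        have := hmono (cd * δ) e3
        have h3 : -cd * (δ * ν) = -(cd * δ) * ν := by ring
        rwa [h3]
      calc Cd * Real.exp (-cd * μ') ≤ Cd * (Real.exp cd * Real.exp (-cd * (δ * ν))) :=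
            mul_le_mul_of_nonneg_left h1 hCd.le
        _ ≤ Cd * (Real.exp cd * E) := by gcongr
        _ ≤ Cd * (Real.exp cd * ((1 + ν) * E)) := by
            gcongr
            nlinarith
        _ = _ := by ring
    -- (4)
    have hR1 : k * μ' ≤ R₀ := by rw [hR₀]; exact Nat.le_ceil _
    have hR2 : (R₀ : ℝ) < k * μ' + 1 := by rw [hR₀]; exact Nat.ceil_lt_add_one (by positivity)
    have T4 : Real.exp (K₀ * ((2 * μ' : ℕ) : ℝ) - 1 * R₀) ≤ Real.exp 1 * ((1 + ν) * E) := by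
      have h1 : K₀ * ((2 * μ' : ℕ) : ℝ) - 1 * R₀ ≤ -1 * (μ' : ℝ) := by
        push_cast
        rw [hk] at hR1
        linarith
      have h2 : Real.exp (-1 * (δ * ν)) ≤ E := by
        have := hmono δ e4
        have h3 : -1 * (δ * ν) = -δ * ν := by ring
        rwa [h3]
      calc Real.exp (K₀ * ((2 * μ' : ℕ) : ℝ) - 1 * R₀) ≤ Real.exp (-1 * (μ' : ℝ)) :=
            Real.exp_le_exp.2 h1
        _ ≤ Real.exp 1 * Real.exp (-1 * (δ * ν)) := f02_exp_floor zero_le_one hμ'1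
        _ ≤ Real.exp 1 * E := by gcongr
        _ ≤ Real.exp 1 * ((1 + ν) * E) := by
            gcongr
            nlinarith
    -- (5)
    have T5 : (((D + 1) ^ (R₀ + 1) : ℕ) : ℝ) * μ' * (Ce * Real.exp (-ce * ((ν : ℝ) / 2))) ≤
        Ce * Real.exp (2 * L) * ((1 + ν) * E) := by
      have h1 : (((D + 1) ^ (R₀ + 1) : ℕ) : ℝ) ≤ Real.exp (2 * L + ce / 8 * ν) := by
        have h2 : (((D + 1) ^ (R₀ + 1) : ℕ) : ℝ) ≤ ((D : ℝ) + 2) ^ (R₀ + 1) := by
          push_cast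
          exact pow_le_pow_left₀ (by positivity) (by linarith) _
        have h3 : ((D : ℝ) + 2) ^ (R₀ + 1) = Real.exp (L * (R₀ + 1)) := by
          have h9 : L * ((R₀ : ℝ) + 1) = ((R₀ + 1 : ℕ) : ℝ) * L := by push_cast; ring
          rw [h9, Real.exp_nat_mul, hL, Real.exp_log (by positivity)]
        rw [h3] at h2
        refine h2.trans (Real.exp_le_exp.2 ?_)
        have h4 : (R₀ : ℝ) ≤ k * (δ * ν) + 1 := by nlinarith
        have h5 : L * (R₀ + 1) ≤ L * (k * (δ * ν) + 2) :=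
          mul_le_mul_of_nonneg_left (by linarith) hLpos.le
        have h6 : L * (k * δ) * ν ≤ ce / 8 * ν := mul_le_mul_of_nonneg_right hδ3 hν
        nlinarith
      have h7 : Real.exp (2 * L + ce / 8 * ν) * Real.exp (-ce * ((ν : ℝ) / 2)) ≤
          Real.exp (2 * L) * E := by
        rw [hE, ← Real.exp_add, ← Real.exp_add]
        apply Real.exp_le_exp.2
        nlinarith
      calc (((D + 1) ^ (R₀ + 1) : ℕ) : ℝ) * μ' * (Ce * Real.exp (-ce * ((ν : ℝ) / 2)))
          ≤ Real.exp (2 * L + ce / 8 * ν) * (1 + ν) * (Ce * Real.exp (-ce * ((ν : ℝ) / 2))) := by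
            gcongr
            linarith
        _ = Ce * (1 + ν) * (Real.exp (2 * L + ce / 8 * ν) * Real.exp (-ce * ((ν : ℝ) / 2))) := by
            ring
        _ ≤ Ce * (1 + ν) * (Real.exp (2 * L) * E) := by gcongr
        _ = _ := by ring
    -- (6)
    have hNR : a₀ * ν / 8 - 1 ≤ N := by
      have := Nat.lt_floor_add_one (a₀ * ν / 8)
      rw [← hN] at this
      linarith
    have T6 : Cs * (((2 * ν : ℕ) : ℝ) + 1) * Real.exp (-cs * N) ≤
        2 * (Cs * Real.exp cs) * ((1 + ν) * E) := by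
      have h1 := f02_exp_floor hcs.le hNR
      have h2 : Real.exp (-cs * (a₀ * ν / 8)) ≤ E := by
        have := hmono (cs * a₀ / 8) e5
        have h3 : -cs * (a₀ * ν / 8) = -(cs * a₀ / 8) * ν := by ring
        rwa [h3]
      calc Cs * (((2 * ν : ℕ) : ℝ) + 1) * Real.exp (-cs * N)
          ≤ Cs * (2 * (1 + ν)) * (Real.exp cs * Real.exp (-cs * (a₀ * ν / 8))) := by
            gcongr
            push_cast
            linarith
        _ ≤ Cs * (2 * (1 + ν)) * (Real.exp cs * E) := by gcongr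
        _ = _ := by ring
    have hX : (0:ℝ) ≤ (1 + ν) * E := by positivity
    have hsum : Cf * Real.exp cf * ((1 + ν) * E) + n * (Ce * ((1 + ν) * E)) +
        Cd * Real.exp cd * ((1 + ν) * E) + Real.exp 1 * ((1 + ν) * E) +
        Ce * Real.exp (2 * L) * ((1 + ν) * E) + 2 * (Cs * Real.exp cs) * ((1 + ν) * E) ≤
        n * (S * ((1 + ν) * E)) := by
      have g : ∀ z : ℝ, 0 ≤ z → z * ((1 + ν) * E) ≤ n * (z * ((1 + ν) * E)) := by
        intro z hz
        have : 0 ≤ z * ((1 + ν) * E) := mul_nonneg hz hX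
        nlinarith
      have g1 := g (Cf * Real.exp cf) (by positivity)
      have g2 := g (Cd * Real.exp cd) (by positivity)
      have g3 := g (Real.exp 1) (by positivity)
      have g4 := g (Ce * Real.exp (2 * L)) (by positivity)
      have g5 := g (2 * (Cs * Real.exp cs)) (by positivity)
      rw [hS]
      linarith
    have hfin : n * (S * ((1 + ν) * E)) ≤
        ((1 + 2 / c₁) * S + Real.exp (c₁ / 2 * (64 / a₀))) * n * Real.exp (-(c₁ / 2) * ν) := by
      have h1 := f02_poly hc₁ hν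
      rw [← hE] at h1
      calc n * (S * ((1 + ν) * E)) ≤ n * (S * ((1 + 2 / c₁) * Real.exp (-(c₁ / 2) * ν))) := by
            gcongr
        _ = ((1 + 2 / c₁) * S) * n * Real.exp (-(c₁ / 2) * ν) := by ring
        _ ≤ _ := by
            have : 0 < Real.exp (c₁ / 2 * (64 / a₀)) := Real.exp_pos _
            gcongr
            linarith
    linarith

end CPM
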