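import Pool.Agent.Lib.MP_1a4724_pr.S04
import Pool.Agent.Lib.MP_1a4724_pr.G02
import Pool.Agent.Lib.MP_1a4724_pr.F01
import Pool.Agent.Lib.MP_1a4724_pr.F02a
import Pool.Agent.Lib.MP_1a4724_pr.F02c
import Pool.Agent.Lib.MP_1a4724_pr.F02d

/-!
# F02 : discrepancies at one space-time point

Fix `y`; ray `R` from `y` and paths `γ x` (`exists_rays`), `a x ≤ dist x y`, `b x ≤ 2 dist x y`.
Target time `2ν`; `K = ν / 2` (floor), `K' = ν - K`, `μ = ν / 6`, `μ' = ⌊δ ν⌋`, `δ > 0` small;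
`M' = revT (2ν) (M ω)` (reversed marks, time `0` of `M'` is time `2ν`); `M'` is Poisson.
The exceptional events are
 (0) [depends on `A`] no attempt from an infected `(x, 2j)`, `x ∈ Δ`, `j < μ`, alive at time `2K` :
     `forward`;
 (1) for some `x ∈ Δ`, `j < μ` : `nat_edge` fails for `pull (γ x) (shiftT (2j) (M ω))` at time
     `2 (K - j) ≥ ν / 2`;
 (2) `dual` for `M'`, `y`, `μ'`, `K'`;
 (3) `spread_far` for `M'`, `y`, time `2μ'`, radius `R₀ = ⌈(2K₀ + 1) μ'⌉`;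
 (4) for some `z` with `dist y z < R₀`, `j < μ'` : `nat_edge` fails for
     `pull (γ z) (shiftT (2j) M')` at time `2 (K' - j) ≥ ν / 2`;
 (5) no crossing of `[0, N]`, `N = ⌊a₀ ν / 8⌋` (`a₀` the speed of `nat_edge`) for
     `pull (fun i => R (j₁ + i)) (M ω)` during `[0, 2ν]` (`nat_strip`), `j₁ = ⌊a₀ ν / 32⌋`.
The deterministic part is `f02_det` (F02a), the measurability and the independence of the events
(1)-(5) from `A` is in F02b, the union bounds in F02c and the choice of the constants in F02d.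
-/

noncomputable section

open MeasureTheory Set

namespace CPM

theorem disc {lam : ℝ} (h : lambdaC < ENNReal.ofReal lam) (D : ℕ) :
    ∃ α C c : ℝ, 0 < α ∧ 0 < C ∧ 0 < c ∧
      ∀ (V : Type) [Countable V] [Infinite V] (G : SimpleGraph V), G.Connected →
      (∀ x, (G.neighborSet x).Finite ∧ (G.neighborSet x).ncard ≤ D) →
      ∀ (Ω : Type) [MeasurableSpace Ω] (P : Measure Ω) (M : Ω → V × V → Set ℝ),
        IsPoisson P M (cRate lam) → ∀ (Δ : Finset V), Δ.Nonempty → ∀ (y : V) (ν : ℕ),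
        (∀ x ∈ Δ, α * (G.dist x y : ℝ) ≤ ν) →
        ∀ A : Set Ω, MeasurableSet[projAlg G.Adj M (Δ : Set V) (Iio 0)] A →
          P.real (A ∩ {ω | etaOne G.Adj (M ω) 0 (2 * (ν : ℝ)) y ∧
            ¬ etaBar G.Adj (M ω) (2 * (ν : ℝ)) y}) ≤
            C * (Δ.card : ℝ) * Real.exp (-c * ν) * P.real A := by
  have hlam : 0 < lam := ENNReal.ofReal_pos.1 (lt_of_le_of_lt bot_le h)
  obtain ⟨Cf, cf, hCf, hcf, hforward⟩ := forward h
  obtain ⟨Cd, cd, hCd, hcd, hdual⟩ := dual h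
  obtain ⟨a₀, Ce, ce, ha₀, hCe, hce, hedge⟩ := nat_edge h
  obtain ⟨Cs, cs, hCs, hcs, hstrip⟩ := nat_strip h
  obtain ⟨K₀, hK₀, hspread⟩ := spread_far D hlam 1 one_pos
  have hEdge : f02_Edge lam a₀ Ce ce := hedge
  obtain ⟨δ, hδ, hδ1, hδ2, C, c, hC, hc, hreal⟩ :=
    f02_real hCf hcf hCd hcd ha₀ hCe hce hCs hcs hK₀ D
  refine ⟨64 / a₀, C, c, by positivity, hC, hc, ?_⟩
  intro V _ _ G hconn hdeg Ω _ P M hP Δ hΔne y ν hdist A hA
  have hprob := hP.prob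
  have hcard : (1 : ℝ) ≤ Δ.card := by exact_mod_cast hΔne.card_pos
  obtain ⟨hsmall, hlarge⟩ := hreal ν Δ.card hcard
  have hPA : 0 ≤ P.real A := measureReal_nonneg
  by_cases hν : a₀ * ν < 64
  · have h1 := hsmall hν
    calc P.real (A ∩ {ω | etaOne G.Adj (M ω) 0 (2 * (ν : ℝ)) y ∧
            ¬ etaBar G.Adj (M ω) (2 * (ν : ℝ)) y}) ≤ 1 * P.real A := by
          rw [one_mul]; exact measureReal_mono inter_subset_left (measure_ne_top P _)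
      _ ≤ _ := mul_le_mul_of_nonneg_right h1 hPA
  rw [not_lt] at hν
  -- the parameters
  obtain ⟨μ, hμ⟩ : ∃ μ : ℕ, μ = ν / 6 := ⟨_, rfl⟩
  obtain ⟨μ', hμ'⟩ : ∃ μ' : ℕ, μ' = ⌊δ * ν⌋₊ := ⟨_, rfl⟩
  obtain ⟨R₀, hR₀⟩ : ∃ R₀ : ℕ, R₀ = ⌈(2 * K₀ + 1) * (μ' : ℝ)⌉₊ := ⟨_, rfl⟩
  obtain ⟨N, hN⟩ : ∃ N : ℕ, N = ⌊a₀ * ν / 8⌋₊ := ⟨_, rfl⟩
  obtain ⟨zs, hzs⟩ : ∃ zs : ℕ, zs = ⌊a₀ * ν / 2⌋₊ := ⟨_, rfl⟩
  obtain ⟨j₁, hj₁⟩ : ∃ j₁ : ℕ, j₁ = ⌊a₀ * ν / 32⌋₊ := ⟨_, rfl⟩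
  obtain ⟨K, hK⟩ : ∃ K : ℕ, K = ν / 2 := ⟨_, rfl⟩
  obtain ⟨K', hK'⟩ : ∃ K' : ℕ, K' = ν - K := ⟨_, rfl⟩
  have hbound := hlarge μ μ' R₀ N hμ hμ' hR₀ hN
  have hν0 : (0 : ℝ) ≤ ν := Nat.cast_nonneg ν
  have haν : 0 ≤ a₀ * ν := by positivity
  have hKK : K + K' = ν := by omega
  have hμK : μ ≤ K := by omega
  have hμ'R : (μ' : ℝ) ≤ δ * ν := by rw [hμ']; exact Nat.floor_le (by positivity)
  have hKR : (ν : ℝ) / 2 - 1 / 2 ≤ K := by
    have h1 : ν ≤ 2 * K + 1 := by omega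
    have h2 : (ν : ℝ) ≤ 2 * K + 1 := by exact_mod_cast h1
    linarith
  have hK'R : (ν : ℝ) / 2 ≤ K' := by
    have h1 : ν ≤ 2 * K' := by omega
    have h2 : (ν : ℝ) ≤ 2 * K' := by exact_mod_cast h1
    linarith
  have hKνR : (K : ℝ) + K' = ν := by exact_mod_cast hKK
  have hμ'K' : μ' ≤ K' := by
    have : (μ' : ℝ) ≤ K' := by nlinarith
    exact_mod_cast this
  have hμν : (μ : ℝ) ≤ ν / 6 := by
    have h1 : 6 * μ ≤ ν := by omega
    have h2 : (6 : ℝ) * μ ≤ ν := by exact_mod_cast h1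
    linarith
  -- lower bounds for the times
  have hθ1 : ∀ j : ℕ, j < μ → (ν : ℝ) / 2 ≤ 2 * ((K : ℝ) - j) := by
    intro j hj
    have h1 : (j : ℝ) + 1 ≤ μ := by exact_mod_cast hj
    linarith
  have hθ2 : ∀ j : ℕ, j < μ' → (ν : ℝ) / 2 ≤ 2 * ((K' : ℝ) - j) := by
    intro j hj
    have h1 : (j : ℝ) + 1 ≤ μ' := by exact_mod_cast hj
    nlinarith
  have hzs1 : (zs : ℝ) ≤ a₀ * ((ν : ℝ) / 2) := by
    have : (zs : ℝ) ≤ a₀ * ν / 2 := by rw [hzs]; exact Nat.floor_le (by positivity)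
    linarith
  have hzs2 : a₀ * ν / 2 - 1 < zs := by
    have := Nat.lt_floor_add_one (a₀ * ν / 2)
    rw [← hzs] at this
    linarith
  have hNR : (N : ℝ) ≤ a₀ * ν / 8 := by rw [hN]; exact Nat.floor_le (by positivity)
  have hj₁R : (j₁ : ℝ) ≤ a₀ * ν / 32 := by rw [hj₁]; exact Nat.floor_le (by positivity)
  -- the rays
  obtain ⟨R, -, hRinj, -, hγ0⟩ := exists_rays G hconn (fun x => (hdeg x).1) y
  choose γ hγinj hγ0' hγadj a b ha hb he using hγ0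
  have hgeo : ∀ x, (G.dist x y : ℝ) ≤ a₀ * ν / 64 → b x ≤ j₁ ∧ a x + (j₁ - b x) + N < zs := by
    intro x hx
    have h1 : (b x : ℝ) ≤ a₀ * ν / 32 := by
      have : (b x : ℝ) ≤ 2 * G.dist x y := by exact_mod_cast hb x
      linarith
    have h2 : (a x : ℝ) ≤ a₀ * ν / 64 := by
      have : (a x : ℝ) ≤ G.dist x y := by exact_mod_cast ha x
      linarith
    refine ⟨by rw [hj₁]; exact Nat.le_floor h1, ?_⟩
    have h3 : (a x : ℝ) + j₁ + N < zs := by linarith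
    have h4 : a x + j₁ + N < zs := by exact_mod_cast h3
    omega
  have hΔ : ∀ x ∈ Δ, b x ≤ j₁ ∧ a x + (j₁ - b x) + N < zs := by
    intro x hx
    apply hgeo
    have h1 := hdist x hx
    rw [div_mul_eq_mul_div, div_le_iff₀ ha₀] at h1
    linarith
  have hball : ∀ x, G.dist y x < R₀ → b x ≤ j₁ ∧ a x + (j₁ - b x) + N < zs := by
    intro x hx
    apply hgeo
    rw [SimpleGraph.dist_comm]
    have h1 : ((G.dist y x : ℕ) : ℝ) < (2 * K₀ + 1) * (μ' : ℝ) := by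
      rw [hR₀] at hx
      exact Nat.lt_ceil.1 hx
    have h2 : (2 * K₀ + 1) * (μ' : ℝ) ≤ (2 * K₀ + 1) * (δ * ν) := by gcongr
    have h3 : (2 * K₀ + 1) * δ * ν ≤ a₀ / 64 * ν := by gcongr
    linarith
  -- the ball
  obtain ⟨hBfin, hBcard⟩ := ball_card G hconn hdeg y R₀
  set S : Finset V := hBfin.toFinset with hS
  have hScard : S.card ≤ (D + 1) ^ (R₀ + 1) := by
    rw [hS, ← Set.ncard_eq_toFinset_card _ hBfin]; exact hBcard
  -- the events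
  set T : ℝ := 2 * (ν : ℝ) with hT
  have hT0 : 0 ≤ T := by positivity
  set B0 : Set Ω := {ω | ∀ j : ℕ, j < μ → ∀ x ∈ Δ, etaBar G.Adj (M ω) (2 * (j : ℝ)) x →
    ¬ aliveAt natAdj (pull (γ x) (shiftT (2 * (j : ℝ)) (M ω))) 0 (2 * ((K : ℝ) - j))} with hB0
  set Q1 : (V × V → Set ℝ) → Prop := fun m => ∀ x ∈ (Δ : Set V), ∀ j : ℕ, j < μ →
      aliveAt natAdj (pull (γ x) (shiftT (2 * (j : ℝ)) m)) 0 (2 * ((K : ℝ) - j)) →
      ∃ z : ℕ, zs ≤ z ∧ Conn natAdj (pull (γ x) (shiftT (2 * (j : ℝ)) m)) (0, 0)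
        (z, 2 * ((K : ℝ) - j)) with hQ1
  set Q2 : (V × V → Set ℝ) → Prop := fun m => aliveAt G.Adj m y (2 * (μ' : ℝ)) ∧
      ∀ j : ℕ, j < μ' → ∀ z, Conn G.Adj m (y, 0) (z, 2 * (j : ℝ)) →
      ¬ aliveAt natAdj (pull (γ z) (shiftT (2 * (j : ℝ)) m)) 0 (2 * ((K' : ℝ) - j)) with hQ2
  set Q3 : (V × V → Set ℝ) → Prop := fun m => ∃ z, R₀ ≤ G.dist y z ∧
      reach G m y z 0 (0 + ((2 * μ' : ℕ) : ℝ)) with hQ3
  set Q4 : (V × V → Set ℝ) → Prop := fun m => ∀ x ∈ (S : Set V), ∀ j : ℕ, j < μ' →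
      aliveAt natAdj (pull (γ x) (shiftT (2 * (j : ℝ)) m)) 0 (2 * ((K' : ℝ) - j)) →
      ∃ z : ℕ, zs ≤ z ∧ Conn natAdj (pull (γ x) (shiftT (2 * (j : ℝ)) m)) (0, 0)
        (z, 2 * ((K' : ℝ) - j)) with hQ4
  set Q5 : (V × V → Set ℝ) → Prop := fun m => ∃ c d : ℕ, c ≤ N ∧ d ≤ N ∧
      Conn (adjOn (Iic N) natAdj) (pull (fun i => R (j₁ + i)) m) (c, 0) (d, T) with hQ5
  have hRinj' : Function.Injective (fun i => R (j₁ + i)) := by
    intro i j hij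
    have := hRinj hij
    omega
  have hrev : IsPoisson P (fun ω => revT T (M ω)) (cRate lam) := hP.revT T
  -- inclusion
  have hincl : A ∩ {ω | etaOne G.Adj (M ω) 0 T y ∧ ¬ etaBar G.Adj (M ω) T y} ⊆
      ((A ∩ B0) ∪ (A ∩ {ω | ¬ Q1 (M ω)})) ∪ (A ∩ {ω | Q2 (revT T (M ω))}) ∪
        (A ∩ {ω | Q3 (revT T (M ω))}) ∪ (A ∩ {ω | ¬ Q4 (revT T (M ω))}) ∪
        (A ∩ {ω | ¬ Q5 (M ω)}) := by
    rintro ω ⟨hωA, hone, hnot⟩
    by_contra hcon
    simp only [mem_union, not_or, mem_inter_iff, hωA, true_and, mem_ofPred_eq, not_not] at hcon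
    obtain ⟨⟨⟨⟨⟨n0, n1⟩, n2⟩, n3⟩, n4⟩, n5⟩ := hcon
    refine hnot (f02_det (G := G) (fun x => ⟨hγinj x, hγ0' x, hγadj x⟩) he hKK hμK hμ'K' hΔ hball
      ?_ (fun x hx => n1 x (Finset.mem_coe.2 hx)) ?_ ?_ ?_ n5 hone)
    · rw [hB0] at n0
      simp only [mem_ofPred_eq, not_forall, not_not] at n0
      obtain ⟨j, hj, x, hx, h1, h2⟩ := n0
      exact ⟨j, hj, x, hx, h1, h2⟩
    · intro halive
      by_contra hno
      refine n2 ⟨halive, fun j hj z hz hal => hno ⟨j, hj, z, hz, hal⟩⟩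
    · intro j hj z hz
      by_contra hno
      rw [not_lt] at hno
      refine n3 ⟨z, hno, conn_reach hz ?_⟩
      have h1 : (j : ℝ) ≤ μ' := by exact_mod_cast hj.le
      push_cast
      linarith
    · intro x hx j hj
      refine n4 x ?_ j hj
      rw [hS, Set.Finite.coe_toFinset]
      exact hx.le
  -- probabilities
  have hKνR' : 2 * (K : ℝ) ≤ T := by
    have : (0:ℝ) ≤ K' := Nat.cast_nonneg _
    rw [hT, ← hKνR]; linarith
  have hK'νR' : 2 * (K' : ℝ) ≤ T := by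
    have : (0:ℝ) ≤ K := Nat.cast_nonneg _
    rw [hT, ← hKνR]; linarith
  have p0 : P.real (A ∩ B0) ≤ Cf * Real.exp (-cf * μ) * P.real A := by
    refine hforward V G.Adj (fun x y h => h.symm) (fun x => ?_) γ
      (fun x => ⟨hγinj x, hγ0' x, hγadj x⟩) Ω P M hP Δ hΔne μ K hμK A hA
    have h1 : {y | G.Adj y x} = G.neighborSet x := by
      ext z; exact ⟨fun h => h.symm, fun h => h.symm⟩
    rw [h1]; exact (hdeg x).1
  have v1 : VMeas (f02_R V T) (fun m => ¬ Q1 m) :=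
    (f02_vmeas1 hγinj (Δ : Set V) (μ := μ) (K := K) (zs := zs) hKνR').not
  have v2 : VMeas (f02_R V T) (fun m => Q2 (revT T m)) :=
    f02_rev_vmeas (f02_vmeas2 G hγinj y hμ'K' hK'νR')
  have v3 : VMeas (f02_R V T) (fun m => Q3 (revT T m)) := by
    refine f02_rev_vmeas (f02_vmeas3 G y R₀ ?_)
    have h1 : (μ' : ℝ) ≤ K' := by exact_mod_cast hμ'K'
    push_cast
    linarith
  have v4 : VMeas (f02_R V T) (fun m => ¬ Q4 (revT T m)) :=
    f02_rev_vmeas (f02_vmeas1 hγinj (S : Set V) (μ := μ') (K := K') (zs := zs) hK'νR').not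
  have v5 : VMeas (f02_R V T) (fun m => ¬ Q5 m) := (f02_vmeas5 hRinj' N).not
  have p1 : P.real {ω | ¬ Q1 (M ω)} ≤
      (Δ.card : ℝ) * μ * (Ce * Real.exp (-ce * ((ν : ℝ) / 2))) :=
    f02_many hEdge hCe hce ha₀ hP hγinj Δ hμK hθ1 hzs1
  have p2 : P.real {ω | Q2 (revT T (M ω))} ≤ Cd * Real.exp (-cd * μ') :=
    hdual V G.Adj γ (fun x => ⟨hγinj x, hγ0' x, hγadj x⟩) Ω P _ hrev y μ' K' hμ'K'
  have p3 : P.real {ω | Q3 (revT T (M ω))} ≤ Real.exp (K₀ * ((2 * μ' : ℕ) : ℝ) - 1 * R₀) :=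
    hspread V G hconn hdeg Ω P _ hrev y 0 (2 * μ') R₀
  have p4 : P.real {ω | ¬ Q4 (revT T (M ω))} ≤
      (((D + 1) ^ (R₀ + 1) : ℕ) : ℝ) * μ' * (Ce * Real.exp (-ce * ((ν : ℝ) / 2))) := by
    refine (f02_many hEdge hCe hce ha₀ hrev hγinj S hμ'K' hθ2 hzs1).trans ?_
    have h1 : (S.card : ℝ) ≤ (((D + 1) ^ (R₀ + 1) : ℕ) : ℝ) := by exact_mod_cast hScard
    gcongr
  have p5 : P.real {ω | ¬ Q5 (M ω)} ≤ Cs * (((2 * ν : ℕ) : ℝ) + 1) * Real.exp (-cs * N) := by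
    have h1 := hstrip Ω P (fun ω => pull (fun i => R (j₁ + i)) (M ω)) (hP.pull hRinj') N (2 * ν)
    have h2 : ((2 * ν : ℕ) : ℝ) = T := by push_cast; rfl
    rw [h2] at h1 ⊢
    exact h1
  have m1 := f02_mul hP hA v1
  have m2 := f02_mul hP hA v2
  have m3 := f02_mul hP hA v3
  have m4 := f02_mul hP hA v4
  have m5 := f02_mul hP hA v5
  have htot : P.real (A ∩ {ω | etaOne G.Adj (M ω) 0 T y ∧ ¬ etaBar G.Adj (M ω) T y}) ≤
      P.real (A ∩ B0) + P.real (A ∩ {ω | ¬ Q1 (M ω)}) + P.real (A ∩ {ω | Q2 (revT T (M ω))}) +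
        P.real (A ∩ {ω | Q3 (revT T (M ω))}) + P.real (A ∩ {ω | ¬ Q4 (revT T (M ω))}) +
        P.real (A ∩ {ω | ¬ Q5 (M ω)}) := by
    refine (measureReal_mono hincl (measure_ne_top P _)).trans ?_
    refine (measureReal_union_le _ _).trans (add_le_add_left ?_ _)
    refine (measureReal_union_le _ _).trans (add_le_add_left ?_ _)
    refine (measureReal_union_le _ _).trans (add_le_add_left ?_ _)
    refine (measureReal_union_le _ _).trans (add_le_add_left ?_ _)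
    exact measureReal_union_le _ _
  rw [m1, m2, m3, m4, m5] at htot
  have q1 := mul_le_mul_of_nonneg_left p1 hPA
  have q2 := mul_le_mul_of_nonneg_left p2 hPA
  have q3 := mul_le_mul_of_nonneg_left p3 hPA
  have q4 := mul_le_mul_of_nonneg_left p4 hPA
  have q5 := mul_le_mul_of_nonneg_left p5 hPA
  have q := mul_le_mul_of_nonneg_right hbound hPA
  refine htot.trans (le_trans ?_ q)
  linarith

end CPM
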