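import Pool.Agent.Lib.MP_1a4724_pr.F02

/-!
# F03 (120 min) : all later times

`α₁, C₁, c₁` the constants of `disc`, `K` the constant of `spread_rev` for `a = 1`, `δ = 1/(2α₁)`.
For `x ∈ Δ`, `ν : ℕ` let
`B ν x = ∪_y {reach y x (2ν) (2ν + 2)} ∩ Disc ν y`, `Disc ν y` = the event of `disc`.
`P (A ∩ B ν x) ≤ Σ_y P (reach y x (2ν) (2ν+2)) P (A ∩ Disc ν y)` (independence: the second event is
measurable for the marks at times `≤ 2ν`).  For `dist x y > δ ν` use
`P (A ∩ Disc) ≤ P A` and `Σ_{dist > δν} P (reach) ≤ exp (2K - δ ν)`; for `dist x y ≤ δ ν` and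
`α₁ diam ≤ ν / 2` : `α₁ dist x' y ≤ ν` for all `x' ∈ Δ`, `disc` applies, `Σ_y P (reach) ≤ exp (2K)`.
So `P (A ∩ B ν x) ≤ C₂ |Δ| exp (-c₂ ν) P A`.
`Bad = ∪_{ν ≥ ν₀} ∪_{x ∈ Δ} B ν x`, `ν₀ = ⌊t/2⌋` : `P (A ∩ Bad) ≤ C₃ |Δ|^2 exp (-c₂ ν₀) P A`.
For `t ≥ 4`, `ν₀ ≥ t / 4`.  `α = max (8 α₁) (8 log (D+1) / c₂)` : `diam ≤ t / α`, so
`α₁ diam ≤ t/8 ≤ ν/2`, and by `ball_card` `|Δ| ≤ (D+1)^(diam+1) ≤ (D+1) exp (c₂ t / 8)`, hence
`|Δ|^2 exp (-c₂ t/4) ≤ (D+1) |Δ| exp (-c₂ t / 8)`.  For `t < 4` take `Bad = univ` and `C` large.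
Outside `Bad` : let `s ≥ t`, `x ∈ Δ`, `etaOne 0 s x`; `ν = ⌊s / 2⌋ ≥ ν₀`, `s ∈ [2ν, 2ν+2)`; a path from
time `0` to `(x, s)` is at a site `y` at time `2ν` (`Conn.split`), so `etaOne 0 (2ν) y` and
`reach y x (2ν) (2ν+2)` (`conn_reach`); not in `B ν x`, so `etaBar (2ν) y`, and
`etaBar s x` by `etaBar_of_conn`.
-/

noncomputable section

open MeasureTheory Set

namespace CPM

section

variable {Ω V : Type*}

def f03_D (G : SimpleGraph V) (M : Ω → V × V → Set ℝ) (ν : ℕ) (y : V) : Set Ω :=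
  {ω | etaOne G.Adj (M ω) 0 (2 * (ν : ℝ)) y ∧ ¬ etaBar G.Adj (M ω) (2 * (ν : ℝ)) y}

def f03_R (G : SimpleGraph V) (M : Ω → V × V → Set ℝ) (ν : ℕ) (x y : V) : Set Ω :=
  {ω | reach G (M ω) y x (2 * (ν : ℝ)) (2 * (ν : ℝ) + ((2 : ℕ) : ℝ))}

def f03_B (G : SimpleGraph V) (M : Ω → V × V → Set ℝ) (ν : ℕ) (x : V) : Set Ω :=
  ⋃ y, f03_R G M ν x y ∩ f03_D G M ν y

variable [MeasurableSpace Ω] {P : Measure Ω} {M : Ω → V × V → Set ℝ} {lam : ℝ}

theorem f03_D_meas [Countable V] (G : SimpleGraph V) (hP : IsPoisson P M (cRate lam)) (ν : ℕ)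
    (y : V) : MeasurableSet[VA M {p | p.2 ≤ 2 * (ν : ℝ)}] (f03_D G M ν y) := by
  have h1 : VMeas {p : (V × V) × ℝ | p.2 ≤ 2 * (ν : ℝ)}
      (fun m => etaOne G.Adj m 0 (2 * (ν : ℝ)) y ∧ ¬ etaBar G.Adj m (2 * (ν : ℝ)) y) :=
    (VMeas.mono (fun _ h => h.2) (etaOne_vmeas G.Adj 0 (2 * (ν : ℝ)) y)).and
      (etaBar_vmeas G.Adj (2 * (ν : ℝ)) y).not
  exact h1.measurableSet hP.good

theorem f03_R_meas [Countable V] (G : SimpleGraph V) (hP : IsPoisson P M (cRate lam)) (ν : ℕ)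
    (x y : V) : MeasurableSet[VA M {p | 2 * (ν : ℝ) ≤ p.2}] (f03_R G M ν x y) :=
  (VMeas.mono (fun _ h => h.1) (reach_vmeas G y x (2 * (ν : ℝ))
    (2 * (ν : ℝ) + ((2 : ℕ) : ℝ)))).measurableSet hP.good

theorem f03_B_meas [Countable V] (G : SimpleGraph V) (hP : IsPoisson P M (cRate lam)) (ν : ℕ)
    (x : V) : MeasurableSet (f03_B G M ν x) := by
  apply MeasurableSet.iUnion
  intro y
  exact (hP.VA_le _ _ (f03_R_meas G hP ν x y)).inter (hP.VA_le _ _ (f03_D_meas G hP ν y))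

theorem f03_B_le [Countable V] (G : SimpleGraph V) (hP : IsPoisson P M (cRate lam)) (ν : ℕ)
    (x : V) {A : Set Ω} (hA : MeasurableSet[VA M {p | p.2 ≤ 2 * (ν : ℝ)}] A) {b K : ℝ}
    (hb : ∀ y, P.real (A ∩ f03_D G M ν y) ≤ Real.exp (1 * G.dist x y) * b)
    (hK : ∑' y, P (f03_R G M ν x y) * ENNReal.ofReal (Real.exp (1 * G.dist x y)) ≤
      ENNReal.ofReal (Real.exp (K * ((2 : ℕ) : ℝ)))) :
    P (A ∩ f03_B G M ν x) ≤ ENNReal.ofReal (Real.exp (K * ((2 : ℕ) : ℝ)) * b) := by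
  have := hP.prob
  have h1 : A ∩ f03_B G M ν x = ⋃ y, f03_R G M ν x y ∩ (A ∩ f03_D G M ν y) := by
    unfold f03_B
    rw [inter_iUnion]
    apply iUnion_congr
    intro y
    ext ω
    simp only [mem_inter_iff]
    tauto
  have hind := hP.indep {p | 2 * (ν : ℝ) ≤ p.2} {p | p.2 ≤ 2 * (ν : ℝ)} (by
    intro e
    apply measure_mono_null (t := ({2 * (ν : ℝ)} : Set ℝ))
    · rintro s ⟨h1, h2⟩
      exact le_antisymm h2 h1
    · simp)
  rw [ProbabilityTheory.Indep_iff] at hind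
  have h2 : ∀ y, P (f03_R G M ν x y ∩ (A ∩ f03_D G M ν y)) ≤
      P (f03_R G M ν x y) * ENNReal.ofReal (Real.exp (1 * G.dist x y)) * ENNReal.ofReal b := by
    intro y
    rw [hind _ _ (f03_R_meas G hP ν x y) (MeasurableSet.inter hA (f03_D_meas G hP ν y)), mul_assoc]
    refine mul_le_mul_right ?_ _
    rw [← ENNReal.ofReal_mul (Real.exp_pos _).le]
    have h3 : P (A ∩ f03_D G M ν y) = ENNReal.ofReal (P.real (A ∩ f03_D G M ν y)) := by
      rw [ofReal_measureReal]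
    rw [h3]
    exact ENNReal.ofReal_le_ofReal (hb y)
  rw [h1]
  calc P (⋃ y, f03_R G M ν x y ∩ (A ∩ f03_D G M ν y))
      ≤ ∑' y, P (f03_R G M ν x y ∩ (A ∩ f03_D G M ν y)) := measure_iUnion_le _
    _ ≤ ∑' y, P (f03_R G M ν x y) * ENNReal.ofReal (Real.exp (1 * G.dist x y)) *
        ENNReal.ofReal b := ENNReal.tsum_le_tsum h2
    _ = (∑' y, P (f03_R G M ν x y) * ENNReal.ofReal (Real.exp (1 * G.dist x y))) *
        ENNReal.ofReal b := ENNReal.tsum_mul_right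
    _ ≤ ENNReal.ofReal (Real.exp (K * ((2 : ℕ) : ℝ))) * ENNReal.ofReal b :=
        mul_le_mul_left hK _
    _ = ENNReal.ofReal (Real.exp (K * ((2 : ℕ) : ℝ)) * b) := by
        rw [← ENNReal.ofReal_mul (Real.exp_pos _).le]

def f03_Bad (G : SimpleGraph V) (M : Ω → V × V → Set ℝ) (Δ : Finset V) (ν₀ : ℕ) : Set Ω :=
  ⋃ j : ℕ, ⋃ x ∈ Δ, f03_B G M (ν₀ + j) x

theorem f03_Bad_meas [Countable V] (G : SimpleGraph V) (hP : IsPoisson P M (cRate lam))
    (Δ : Finset V) (ν₀ : ℕ) : MeasurableSet (f03_Bad G M Δ ν₀) := by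
  apply MeasurableSet.iUnion
  intro j
  apply Finset.measurableSet_biUnion
  intro x _
  exact f03_B_meas G hP _ x

theorem f03_Bad_le (G : SimpleGraph V) [IsFiniteMeasure P] (Δ : Finset V) (ν₀ : ℕ) {A : Set Ω}
    {q c : ℝ} (hq : 0 ≤ q) (hc : 0 < c)
    (h : ∀ j : ℕ, ∀ x ∈ Δ, P (A ∩ f03_B G M (ν₀ + j) x) ≤
      ENNReal.ofReal (q * Real.exp (-c * ((ν₀ + j : ℕ) : ℝ)))) :
    P.real (A ∩ f03_Bad G M Δ ν₀) ≤
      (Δ.card : ℝ) * (q * Real.exp (-c * ν₀) * (1 - Real.exp (-c))⁻¹) := by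
  have h0 : Real.exp (-c) < 1 := by
    rw [Real.exp_lt_one_iff]
    linarith
  have h1 : A ∩ f03_Bad G M Δ ν₀ = ⋃ j : ℕ, ⋃ x ∈ Δ, A ∩ f03_B G M (ν₀ + j) x := by
    unfold f03_Bad
    rw [inter_iUnion]
    apply iUnion_congr
    intro j
    rw [inter_iUnion₂]
  have h2 : ∀ j : ℕ, P (⋃ x ∈ Δ, A ∩ f03_B G M (ν₀ + j) x) ≤
      ENNReal.ofReal ((Δ.card : ℝ) * (q * Real.exp (-c * ν₀)) * Real.exp (-c) ^ j) := by
    intro j
    refine (measure_biUnion_finset_le _ _).trans ?_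
    refine (Finset.sum_le_card_nsmul _ _ _ (h j)).trans ?_
    rw [nsmul_eq_mul]
    have e1 : (Δ.card : ENNReal) = ENNReal.ofReal (Δ.card : ℝ) := by
      rw [ENNReal.ofReal_natCast]
    rw [e1, ← ENNReal.ofReal_mul (by positivity)]
    apply ENNReal.ofReal_le_ofReal
    apply le_of_eq
    have e2 : Real.exp (-c) ^ j = Real.exp (-c * j) := by
      rw [← Real.exp_nat_mul]
      congr 1
      ring
    have e3 : Real.exp (-c * ((ν₀ + j : ℕ) : ℝ)) = Real.exp (-c * ν₀) * Real.exp (-c * j) := by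
      rw [← Real.exp_add]
      congr 1
      push_cast
      ring
    rw [e2, e3]
    ring
  have h3 : P (A ∩ f03_Bad G M Δ ν₀) ≤ ENNReal.ofReal
      ((Δ.card : ℝ) * (q * Real.exp (-c * ν₀)) * (1 - Real.exp (-c))⁻¹) := by
    rw [h1]
    refine (measure_iUnion_le _).trans ((ENNReal.tsum_le_tsum h2).trans ?_)
    rw [← ENNReal.ofReal_tsum_of_nonneg (fun j => by positivity)
      ((summable_geometric_of_lt_one (Real.exp_pos _).le h0).mul_left _), tsum_mul_left,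
      tsum_geometric_of_lt_one (Real.exp_pos _).le h0]
  have h4 : 0 ≤ (1 - Real.exp (-c))⁻¹ := by
    rw [inv_nonneg]
    linarith
  have h5 := ENNReal.toReal_mono ENNReal.ofReal_ne_top h3
  rw [ENNReal.toReal_ofReal (by positivity)] at h5
  refine le_trans h5 (le_of_eq (by ring))

theorem f03_out {G : SimpleGraph V} {Δ : Finset V} {t : ℝ} (ht : 0 ≤ t) {ω : Ω}
    (hω : ω ∉ f03_Bad G M Δ ⌊t / 2⌋₊) {s : ℝ} (hs : t ≤ s) {x : V} (hx : x ∈ Δ)
    (h : etaOne G.Adj (M ω) 0 s x) : etaBar G.Adj (M ω) s x := by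
  obtain ⟨y₀, hy₀⟩ := h
  have hs0 : 0 ≤ s := ht.trans hs
  set ν : ℕ := ⌊s / 2⌋₊ with hν
  have h1 : (ν : ℝ) ≤ s / 2 := Nat.floor_le (by linarith)
  have h2 : s / 2 < ν + 1 := Nat.lt_floor_add_one _
  obtain ⟨z, hz1, hz2⟩ := Conn.split hy₀ (u := 2 * (ν : ℝ)) (by positivity) (by linarith)
  have hle : ⌊t / 2⌋₊ ≤ ν := Nat.floor_le_floor (by linarith)
  obtain ⟨j, hj⟩ := Nat.exists_eq_add_of_le hle
  by_contra hcon
  apply hω
  refine mem_iUnion.2 ⟨j, mem_iUnion₂.2 ⟨x, hx, ?_⟩⟩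
  rw [← hj]
  refine mem_iUnion.2 ⟨z, ?_, ⟨y₀, hz1⟩, ?_⟩
  · refine conn_reach hz2 ?_
    push_cast
    linarith
  · intro hbar
    exact hcon (etaBar_of_conn hbar hz2)

end

theorem f03_diam {V : Type*} (G : SimpleGraph V) {Δ : Finset V} {x y : V} (hx : x ∈ Δ)
    (hy : y ∈ Δ) : G.dist x y ≤ fdiam G Δ := by
  unfold fdiam
  exact (Finset.le_sup (f := fun y => G.dist x y) hy).trans
    (Finset.le_sup (f := fun x => Δ.sup fun y => G.dist x y) hx)

theorem f03_card {V : Type*} (G : SimpleGraph V) (hconn : G.Connected) {D : ℕ}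
    (hD : ∀ x, (G.neighborSet x).Finite ∧ (G.neighborSet x).ncard ≤ D) {Δ : Finset V}
    (hne : Δ.Nonempty) :
    (Δ.card : ℝ) ≤ ((D : ℝ) + 1) * Real.exp (fdiam G Δ * Real.log ((D : ℝ) + 1)) := by
  obtain ⟨x, hx⟩ := hne
  obtain ⟨h1, h2⟩ := ball_card G hconn hD x (fdiam G Δ)
  have h3 : (Δ : Set V) ⊆ {y | G.dist x y ≤ fdiam G Δ} := fun y hy => f03_diam G hx hy
  have h4 := Set.ncard_le_ncard h3 h1
  rw [Set.ncard_coe_finset] at h4
  have h5 : (Δ.card : ℝ) ≤ ((D : ℝ) + 1) ^ (fdiam G Δ + 1) := by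
    exact_mod_cast h4.trans h2
  refine h5.trans (le_of_eq ?_)
  rw [pow_succ, mul_comm, Real.exp_nat_mul, Real.exp_log (by positivity)]

theorem f03_dist_bound {d δ ν a1 c1 C1 N p q : ℝ} (hp : 0 ≤ p) (hqp : q ≤ p) (hC1 : 0 ≤ C1)
    (hN : 0 ≤ N) (hd : 0 ≤ d)
    (h : d ≤ δ * ν → q ≤ C1 * N * Real.exp (-c1 * ν) * p) :
    q ≤ Real.exp (1 * d) * ((Real.exp (-(δ * ν)) + C1 * N * Real.exp (-c1 * ν)) * p) := by
  have h1 : 1 ≤ Real.exp (1 * d) := by
    rw [Real.one_le_exp_iff]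
    linarith
  have h2 : 0 ≤ C1 * N * Real.exp (-c1 * ν) * p := by positivity
  have h3 : 0 ≤ Real.exp (1 * d) * (Real.exp (-(δ * ν)) * p) := by positivity
  have e : Real.exp (1 * d) * ((Real.exp (-(δ * ν)) + C1 * N * Real.exp (-c1 * ν)) * p) =
      Real.exp (1 * d) * (Real.exp (-(δ * ν)) * p) +
        Real.exp (1 * d) * (C1 * N * Real.exp (-c1 * ν) * p) := by ring
  rw [e]
  rcases le_or_gt d (δ * ν) with h4 | h4
  · have h5 := h h4
    have h6 := mul_le_mul_of_nonneg_right h1 h2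
    linarith
  · have h5 : 1 ≤ Real.exp (1 * d) * Real.exp (-(δ * ν)) := by
      rw [← Real.exp_add, Real.one_le_exp_iff]
      linarith
    have h6 := mul_le_mul_of_nonneg_right h5 hp
    have h7 : 0 ≤ Real.exp (1 * d) * (C1 * N * Real.exp (-c1 * ν) * p) := by positivity
    have e2 : Real.exp (1 * d) * Real.exp (-(δ * ν)) * p =
      Real.exp (1 * d) * (Real.exp (-(δ * ν)) * p) := by ring
    rw [e2] at h6
    linarith

theorem all_times {lam : ℝ} (h : lambdaC < ENNReal.ofReal lam) (D : ℕ) :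
    ∃ α C c : ℝ, 0 < α ∧ 0 < C ∧ 0 < c ∧
      ∀ (V : Type) [Countable V] [Infinite V] (G : SimpleGraph V), G.Connected →
      (∀ x, (G.neighborSet x).Finite ∧ (G.neighborSet x).ncard ≤ D) →
      ∀ (Ω : Type) [MeasurableSpace Ω] (P : Measure Ω) (M : Ω → V × V → Set ℝ),
        IsPoisson P M (cRate lam) → ∀ (Δ : Finset V), Δ.Nonempty → ∀ t : ℝ, 0 ≤ t →
        α * (fdiam G Δ : ℝ) ≤ t →
        ∃ Bad : Set Ω, MeasurableSet Bad ∧
          (∀ A : Set Ω, MeasurableSet[projAlg G.Adj M (Δ : Set V) (Iio 0)] A →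
            P.real (A ∩ Bad) ≤ C * (Δ.card : ℝ) * Real.exp (-c * t) * P.real A) ∧
          ∀ ω, ω ∉ Bad → ∀ s : ℝ, t ≤ s → ∀ x ∈ Δ,
            etaOne G.Adj (M ω) 0 s x → etaBar G.Adj (M ω) s x := by
  have hlam : 0 < lam := by
    by_contra hcon
    push Not at hcon
    rw [ENNReal.ofReal_of_nonpos hcon] at h
    exact not_lt_zero h
  obtain ⟨a1, C1, c1, ha1, hC1, hc1, Hd⟩ := disc h D
  obtain ⟨K, hK, Hs⟩ := spread_rev D hlam 1 one_pos
  set δ : ℝ := 1 / (2 * a1) with hδ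
  have hδ0 : 0 < δ := by positivity
  set c2 : ℝ := min δ c1 with hc2
  have hc20 : 0 < c2 := lt_min hδ0 hc1
  have hL : 0 ≤ Real.log ((D : ℝ) + 1) := Real.log_nonneg (by
    have : (0 : ℝ) ≤ D := Nat.cast_nonneg D
    linarith)
  have hg0 : Real.exp (-c2) < 1 := by
    rw [Real.exp_lt_one_iff]
    linarith
  have hg : 0 < (1 - Real.exp (-c2))⁻¹ := by
    rw [inv_pos]
    linarith
  set C2 : ℝ := Real.exp (K * ((2 : ℕ) : ℝ)) * (1 + C1) with hC2
  have hC20 : 0 < C2 := by positivity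
  refine ⟨8 * a1 + 8 * Real.log ((D : ℝ) + 1) / c2,
    C2 * (1 - Real.exp (-c2))⁻¹ * ((D : ℝ) + 1) + Real.exp (c2 / 8 * 4), c2 / 8,
    by positivity, by positivity, by positivity, ?_⟩
  intro V _ _ G hconn hD Ω _ P M hP Δ hne t ht hdiam
  have := hP.prob
  have hN1 : (1 : ℝ) ≤ (Δ.card : ℝ) := by
    exact_mod_cast hne.card_pos
  have hsum : 8 * a1 * (fdiam G Δ : ℝ) ≤ t ∧
      8 * Real.log ((D : ℝ) + 1) / c2 * (fdiam G Δ : ℝ) ≤ t := by
    have e1 : 0 ≤ 8 * a1 * (fdiam G Δ : ℝ) := by positivity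
    have e2 : 0 ≤ 8 * Real.log ((D : ℝ) + 1) / c2 * (fdiam G Δ : ℝ) := by positivity
    rw [add_mul] at hdiam
    constructor <;> linarith
  rcases lt_or_ge t 4 with ht4 | ht4
  · refine ⟨univ, MeasurableSet.univ, ?_, fun ω hω => absurd (mem_univ ω) hω⟩
    intro A _
    rw [inter_univ]
    have h1 : 1 ≤ Real.exp (c2 / 8 * 4) * Real.exp (-(c2 / 8) * t) := by
      rw [← Real.exp_add, Real.one_le_exp_iff]
      nlinarith
    have h2 : 0 ≤ C2 * (1 - Real.exp (-c2))⁻¹ * ((D : ℝ) + 1) := by positivity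
    have h3 : Real.exp (c2 / 8 * 4) * Real.exp (-(c2 / 8) * t) ≤
        (C2 * (1 - Real.exp (-c2))⁻¹ * ((D : ℝ) + 1) + Real.exp (c2 / 8 * 4)) * (Δ.card : ℝ) *
          Real.exp (-(c2 / 8) * t) := by
      apply mul_le_mul_of_nonneg_right _ (Real.exp_pos _).le
      have h4 : 0 < Real.exp (c2 / 8 * 4) := Real.exp_pos _
      nlinarith
    have h4 : 0 ≤ P.real A := measureReal_nonneg
    nlinarith
  · set ν₀ : ℕ := ⌊t / 2⌋₊ with hν₀
    have hν : t / 4 ≤ (ν₀ : ℝ) := by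
      have := Nat.lt_floor_add_one (t / 2)
      rw [← hν₀] at this
      linarith
    refine ⟨f03_Bad G M Δ ν₀, f03_Bad_meas G hP Δ ν₀, ?_, ?_⟩
    · intro A hA
      have hpA : 0 ≤ P.real A := measureReal_nonneg
      have hBj : ∀ j : ℕ, ∀ x ∈ Δ, P (A ∩ f03_B G M (ν₀ + j) x) ≤
          ENNReal.ofReal ((C2 * (Δ.card : ℝ) * P.real A) *
            Real.exp (-c2 * ((ν₀ + j : ℕ) : ℝ))) := by
        intro j x hx
        set ν : ℕ := ν₀ + j with hνj
        have hν1 : t / 4 ≤ (ν : ℝ) := by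
          have : (ν₀ : ℝ) ≤ ν := by
            rw [hνj]
            exact_mod_cast Nat.le_add_right _ _
          linarith
        have hAm : MeasurableSet[VA M {p | p.2 ≤ 2 * (ν : ℝ)}] A := by
          refine projAlg_le_VA hP.good (Δ : Set V) (fun s hs => ?_) A hA
          have h1 : s < 0 := hs
          have h2 : (0 : ℝ) ≤ 2 * (ν : ℝ) := by positivity
          linarith
        have hKK := Hs V G hconn hD Ω P M hP x (2 * (ν : ℝ)) 2
        have hb : ∀ y, P.real (A ∩ f03_D G M ν y) ≤ Real.exp (1 * G.dist x y) *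
            ((Real.exp (-(δ * ν)) + C1 * (Δ.card : ℝ) * Real.exp (-c1 * ν)) * P.real A) := by
          intro y
          refine f03_dist_bound (a1 := a1) hpA (measureReal_mono inter_subset_left
            (measure_ne_top _ _)) hC1.le (by positivity) (by positivity) ?_
          intro hd
          refine Hd V G hconn hD Ω P M hP Δ hne y ν ?_ A hA
          intro x' hx'
          have h1 : (G.dist x' y : ℝ) ≤ (fdiam G Δ : ℝ) + G.dist x y := by
            have h2 := hconn.dist_triangle (u := x') (v := x) (w := y)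
            have h3 := f03_diam G hx' hx
            exact_mod_cast h2.trans (Nat.add_le_add_right h3 _)
          have h2 : a1 * (G.dist x' y : ℝ) ≤ a1 * ((fdiam G Δ : ℝ) + G.dist x y) :=
            mul_le_mul_of_nonneg_left h1 ha1.le
          have h3 : a1 * (G.dist x y : ℝ) ≤ ν / 2 := by
            have h4 := mul_le_mul_of_nonneg_left hd ha1.le
            have h5 : a1 * (δ * ν) = ν / 2 := by
              rw [hδ]
              field_simp
            linarith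
          have h4 := hsum.1
          rw [mul_add] at h2
          linarith
        refine (f03_B_le G hP ν x hAm hb hKK).trans (ENNReal.ofReal_le_ofReal ?_)
        have h1 : Real.exp (-(δ * ν)) ≤ Real.exp (-c2 * ν) := by
          rw [Real.exp_le_exp]
          have : c2 * ν ≤ δ * ν := mul_le_mul_of_nonneg_right (min_le_left _ _) (by positivity)
          linarith
        have h2 : Real.exp (-c1 * ν) ≤ Real.exp (-c2 * ν) := by
          rw [Real.exp_le_exp]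
          have : c2 * ν ≤ c1 * ν := mul_le_mul_of_nonneg_right (min_le_right _ _) (by positivity)
          linarith
        have h3 : Real.exp (-(δ * ν)) + C1 * (Δ.card : ℝ) * Real.exp (-c1 * ν) ≤
            (1 + C1) * (Δ.card : ℝ) * Real.exp (-c2 * ν) := by
          have e1 : C1 * (Δ.card : ℝ) * Real.exp (-c1 * ν) ≤
              C1 * (Δ.card : ℝ) * Real.exp (-c2 * ν) :=
            mul_le_mul_of_nonneg_left h2 (by positivity)
          have e2 : Real.exp (-c2 * ν) ≤ (Δ.card : ℝ) * Real.exp (-c2 * ν) :=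
            le_mul_of_one_le_left (Real.exp_pos _).le hN1
          have e3 : (1 + C1) * (Δ.card : ℝ) * Real.exp (-c2 * ν) =
            (Δ.card : ℝ) * Real.exp (-c2 * ν) + C1 * (Δ.card : ℝ) * Real.exp (-c2 * ν) := by ring
          linarith
        have h4 : (Real.exp (-(δ * ν)) + C1 * (Δ.card : ℝ) * Real.exp (-c1 * ν)) * P.real A ≤
            (1 + C1) * (Δ.card : ℝ) * Real.exp (-c2 * ν) * P.real A :=
          mul_le_mul_of_nonneg_right h3 hpA
        have h5 := mul_le_mul_of_nonneg_left h4 (Real.exp_pos (K * ((2 : ℕ) : ℝ))).le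
        refine h5.trans (le_of_eq ?_)
        rw [hC2]
        ring
      have hmain := f03_Bad_le G Δ ν₀ (q := C2 * (Δ.card : ℝ) * P.real A) (by positivity) hc20 hBj
      refine hmain.trans ?_
      have hcard := f03_card G hconn hD hne
      have h1 : (fdiam G Δ : ℝ) * Real.log ((D : ℝ) + 1) ≤ c2 / 8 * t := by
        have h2 := hsum.2
        have h3 : 8 * Real.log ((D : ℝ) + 1) / c2 * (fdiam G Δ : ℝ) =
            (8 / c2) * ((fdiam G Δ : ℝ) * Real.log ((D : ℝ) + 1)) := by ring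
        rw [h3] at h2
        have h4 := mul_le_mul_of_nonneg_left h2 (by positivity : 0 ≤ c2 / 8)
        have h5 : c2 / 8 * ((8 / c2) * ((fdiam G Δ : ℝ) * Real.log ((D : ℝ) + 1))) =
            (fdiam G Δ : ℝ) * Real.log ((D : ℝ) + 1) := by
          field_simp
        linarith
      have h2 : (Δ.card : ℝ) * Real.exp (-c2 * ν₀) ≤
          ((D : ℝ) + 1) * Real.exp (-(c2 / 8) * t) := by
        have e1 : (Δ.card : ℝ) * Real.exp (-c2 * ν₀) ≤
            ((D : ℝ) + 1) * Real.exp (c2 / 8 * t) * Real.exp (-c2 * ν₀) := by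
          apply mul_le_mul_of_nonneg_right _ (Real.exp_pos _).le
          refine hcard.trans ?_
          apply mul_le_mul_of_nonneg_left _ (by positivity)
          rw [Real.exp_le_exp]
          exact h1
        refine e1.trans ?_
        rw [mul_assoc, ← Real.exp_add]
        apply mul_le_mul_of_nonneg_left _ (by positivity)
        rw [Real.exp_le_exp]
        nlinarith
      have h3 : 0 ≤ C2 * (1 - Real.exp (-c2))⁻¹ * (Δ.card : ℝ) * P.real A := by positivity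
      have h4 := mul_le_mul_of_nonneg_left h2 h3
      have h5 : 0 ≤ Real.exp (c2 / 8 * 4) * (Δ.card : ℝ) * Real.exp (-(c2 / 8) * t) * P.real A := by
        positivity
      have e1 : (Δ.card : ℝ) * (C2 * (Δ.card : ℝ) * P.real A * Real.exp (-c2 * ν₀) *
          (1 - Real.exp (-c2))⁻¹) = C2 * (1 - Real.exp (-c2))⁻¹ * (Δ.card : ℝ) * P.real A *
          ((Δ.card : ℝ) * Real.exp (-c2 * ν₀)) := by ring
      have e2 : (C2 * (1 - Real.exp (-c2))⁻¹ * ((D : ℝ) + 1) + Real.exp (c2 / 8 * 4)) *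
          (Δ.card : ℝ) * Real.exp (-(c2 / 8) * t) * P.real A =
          C2 * (1 - Real.exp (-c2))⁻¹ * (Δ.card : ℝ) * P.real A *
          (((D : ℝ) + 1) * Real.exp (-(c2 / 8) * t)) +
          Real.exp (c2 / 8 * 4) * (Δ.card : ℝ) * Real.exp (-(c2 / 8) * t) * P.real A := by ring
      rw [e1, e2]
      linarith
    · intro ω hω s hs x hx he
      exact f03_out ht hω hs hx he

end CPM
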