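import Pool.Agent.Lib.MP_1a4724_pr.F03

/-!
# F04 (90 min) : the main theorem

Constants of `all_times` : `α, 2C + 1, c`.
`Δ = ∅` : `projAlg` is the trivial sigma-algebra, `A = univ` (as `P A > 0`), `B = ∅` or `univ`, the
set in `mixCoeff` is `{0}` (or contained in it), `sSup ≤ 0`.
`Δ ≠ ∅` : let `A`, `B` be as in `mixCoeff`, `P A > 0`.  `B = (etaBar on Δ × [t, ∞))⁻¹ E`, `E`
measurable for the product sigma-algebra on `(Δ × Ici t) → Prop`; put
`B¹ = {ω | (fun p => etaOne 0 p.2 p.1) ∈ E}`; it is measurable for the marks at times `≥ 0`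
(`etaOne_vmeas`), hence independent of `A` (`projAlg_le_VA`, `IsPoisson.mul` with the regions
`time ≤ 0`, `time ≥ 0`).  Outside `Bad` (`all_times`) the two functions agree
(`etaBar s x → etaOne 0 s x` for `s > 0`; for `t = 0`, `s = 0` : also, `etaOne 0 0 x` holds by
`Conn.refl`).  So `|P (A ∩ B) - P A P B¹| ≤ P (A ∩ Bad) ≤ ε P A` and
`|P B - P B¹| ≤ P Bad ≤ ε` (`A = univ`), hence `|P (A ∩ B) / P A - P B| ≤ 2 ε`.
`csSup_le` (the set may be empty only if ... it contains the value for `A = B = univ`; otherwise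
`Real.sSup_le`).  `α (1 + ε') ≥ α`.
-/

noncomputable section

open MeasureTheory Set

namespace CPM

theorem f04_empty {Ω V : Type*} [MeasurableSpace Ω] {P : Measure Ω} [IsProbabilityMeasure P]
    (adj : V → V → Prop) (M : Ω → V × V → Set ℝ) (T : Set ℝ) {A B : Set Ω}
    (hB : MeasurableSet[projAlg adj M (∅ : Set V) T] B) (hA : 0 < P.real A) :
    |P.real (A ∩ B) / P.real A - P.real B| = 0 := by
  obtain ⟨E, _, rfl⟩ := hB
  have hsub : ∀ f g : ((∅ : Set V) × T) → Prop, f = g := by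
    intro f g
    funext p
    exact absurd p.1.2 (notMem_empty _)
  by_cases hE : E.Nonempty
  · obtain ⟨g, hg⟩ := hE
    have : (fun ω (p : (∅ : Set V) × T) => etaBar adj (M ω) (p.2 : ℝ) (p.1 : V)) ⁻¹' E = univ := by
      ext ω
      simp only [mem_preimage, mem_univ, iff_true]
      have := hsub (fun p => etaBar adj (M ω) (p.2 : ℝ) (p.1 : V)) g
      rw [this]
      exact hg
    rw [this, inter_univ, div_self hA.ne', probReal_univ]
    simp
  · rw [not_nonempty_iff_eq_empty] at hE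
    rw [hE, preimage_empty, inter_empty]
    simp

theorem f04_real {Ω : Type*} [MeasurableSpace Ω] {P : Measure Ω} [IsProbabilityMeasure P]
    {A B B1 Bad : Set Ω} {δ : ℝ} (hA : 0 < P.real A)
    (hAB : P.real (A ∩ B1) = P.real A * P.real B1)
    (hBad : P.real (A ∩ Bad) ≤ δ * P.real A) (hBad1 : P.real Bad ≤ δ)
    (hout : ∀ ω, ω ∉ Bad → (ω ∈ B ↔ ω ∈ B1)) :
    |P.real (A ∩ B) / P.real A - P.real B| ≤ 2 * δ := by
  have h1 : P.real (A ∩ B) ≤ P.real (A ∩ B1) + P.real (A ∩ Bad) := by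
    refine (measureReal_mono ?_ (measure_ne_top _ _)).trans (measureReal_union_le _ _)
    rintro ω ⟨ha, hb⟩
    by_cases h : ω ∈ Bad
    · exact Or.inr ⟨ha, h⟩
    · exact Or.inl ⟨ha, (hout ω h).1 hb⟩
  have h2 : P.real (A ∩ B1) ≤ P.real (A ∩ B) + P.real (A ∩ Bad) := by
    refine (measureReal_mono ?_ (measure_ne_top _ _)).trans (measureReal_union_le _ _)
    rintro ω ⟨ha, hb⟩
    by_cases h : ω ∈ Bad
    · exact Or.inr ⟨ha, h⟩
    · exact Or.inl ⟨ha, (hout ω h).2 hb⟩
  have h3 : P.real B ≤ P.real B1 + P.real Bad := by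
    refine (measureReal_mono ?_ (measure_ne_top _ _)).trans (measureReal_union_le _ _)
    intro ω hb
    by_cases h : ω ∈ Bad
    · exact Or.inr h
    · exact Or.inl ((hout ω h).1 hb)
  have h4 : P.real B1 ≤ P.real B + P.real Bad := by
    refine (measureReal_mono ?_ (measure_ne_top _ _)).trans (measureReal_union_le _ _)
    intro ω hb
    by_cases h : ω ∈ Bad
    · exact Or.inr h
    · exact Or.inl ((hout ω h).2 hb)
  rw [abs_le]
  have h5 : P.real (A ∩ B) / P.real A ≤ P.real B1 + δ := by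
    rw [div_le_iff₀ hA]
    nlinarith
  have h6 : P.real B1 - δ ≤ P.real (A ∩ B) / P.real A := by
    rw [le_div_iff₀ hA]
    nlinarith
  constructor <;> linarith

theorem main : MainStatement := by
  intro V G hV hVi hconn hD lam hlam ε hε
  obtain ⟨D, hD⟩ := hD
  obtain ⟨α, C, c, hα, hC, hc, H⟩ := all_times hlam D
  refine ⟨α, 2 * C + 1, c, hα, by positivity, hc, ?_⟩
  intro Ω _ P M hP Δ t ht hdist
  have := hP.prob
  have hgood : ∀ ω, Good (M ω) := hP.good
  unfold mixCoeff
  refine Real.sSup_le ?_ (by positivity)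
  rintro r ⟨A, B, hA, hB, hPA, rfl⟩
  rcases Δ.eq_empty_or_nonempty with rfl | hne
  · have h0 : |P.real (A ∩ B) / P.real A - P.real B| = 0 := by
      have hB' : MeasurableSet[projAlg G.Adj M (∅ : Set V) (Ici t)] B := by
        have : ((∅ : Finset V) : Set V) = ∅ := Finset.coe_empty
        rw [this] at hB
        exact hB
      exact f04_empty G.Adj M (Ici t) hB' hPA
    rw [h0]
    positivity
  · have hdiam : α * (fdiam G Δ : ℝ) ≤ t := by
      refine le_trans ?_ hdist
      have h1 : 0 ≤ α * (fdiam G Δ : ℝ) := by positivity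
      nlinarith
    obtain ⟨Bad, hBm, hBad, hout⟩ := H V G hconn hD Ω P M hP Δ hne t ht hdiam
    obtain ⟨E, hE, rfl⟩ := hB
    set B1 : Set Ω := {ω | (fun p : ↥(Δ : Set V) × ↥(Ici t) =>
      etaOne G.Adj (M ω) 0 (p.2 : ℝ) (p.1 : V)) ∈ E} with hB1
    have hB1m : MeasurableSet[VA M {p | 0 ≤ p.2}] B1 := by
      have hmeas : Measurable[VA M {p | 0 ≤ p.2}] (fun ω (p : ↥(Δ : Set V) × ↥(Ici t)) =>
          etaOne G.Adj (M ω) 0 (p.2 : ℝ) (p.1 : V)) := by
        let _ : MeasurableSpace Ω := VA M {p | 0 ≤ p.2}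
        rw [measurable_pi_iff]
        intro p
        apply measurableSet_setOfPred.1
        refine VMeas.measurableSet hgood (VMeas.mono ?_
          (etaOne_vmeas G.Adj 0 (p.2 : ℝ) (p.1 : V)))
        intro q hq
        exact hq.1
      exact hmeas hE
    have hAm : MeasurableSet[VA M {p | p.2 ≤ 0}] A :=
      projAlg_le_VA hgood (Δ : Set V) (fun s hs => le_of_lt hs) A hA
    have hmul : P.real (A ∩ B1) = P.real A * P.real B1 := by
      refine hP.mul {p | p.2 ≤ 0} {p | 0 ≤ p.2} ?_ hAm hB1m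
      intro e
      apply measure_mono_null (t := ({0} : Set ℝ))
      · rintro s ⟨h1, h2⟩
        exact le_antisymm h1 h2
      · simp
    have h1 := hBad A hA
    have h2 := hBad univ MeasurableSet.univ
    rw [univ_inter, probReal_univ, mul_one] at h2
    have h3 := f04_real (B := (fun ω (p : ↥(Δ : Set V) × ↥(Ici t)) =>
      etaBar G.Adj (M ω) (p.2 : ℝ) (p.1 : V)) ⁻¹' E) hPA hmul h1 h2 (by
        intro ω hω
        have hfun : (fun p : ↥(Δ : Set V) × ↥(Ici t) => etaBar G.Adj (M ω) (p.2 : ℝ) (p.1 : V)) =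
            (fun p : ↥(Δ : Set V) × ↥(Ici t) => etaOne G.Adj (M ω) 0 (p.2 : ℝ) (p.1 : V)) := by
          funext p
          apply propext
          constructor
          · intro h
            rcases (ht.trans p.2.2).lt_or_eq with h4 | h4
            · exact etaOne_of_etaBar h4 h
            · rw [← h4]
              exact ⟨_, Conn.refl _⟩
          · intro h
            exact hout ω hω (p.2 : ℝ) p.2.2 (p.1 : V) p.1.2 h
        change (fun p : ↥(Δ : Set V) × ↥(Ici t) => etaBar G.Adj (M ω) (p.2 : ℝ) (p.1 : V)) ∈ E ↔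
          (fun p : ↥(Δ : Set V) × ↥(Ici t) => etaOne G.Adj (M ω) 0 (p.2 : ℝ) (p.1 : V)) ∈ E
        rw [hfun])
    refine h3.trans ?_
    have h4 : 0 ≤ (Δ.card : ℝ) * Real.exp (-c * t) := by positivity
    nlinarith

end CPM
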