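import Pool.Agent.Lib.MP_1a4724_pr.Defs

/-!
# L01 (75 min) : a downward FKG type property preserved by elementary updates

`ι` finite, configurations are finsets `σ` (the set of the ones), a law is a weight `w`.
`ex w f = Σ_σ w σ * f σ`, `zr C σ = 1` if `σ ∩ C = ∅`, else `0`.
`RPw w` : for every monotone `φ ≥ 0` and `C ⊆ C'`
  `ex w (φ * zr C') * ex w (zr C) ≤ ex w (φ * zr C) * ex w (zr C')`
(the conditional law given zeros on `C` decreases with `C`).
Taking `φ = 1 - zr D` gives `h C' * h (C ∪ D) ≤ h (C' ∪ D) * h C` for `h C = ex w (zr C)`.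

Updates : infection `x → y` (`σ ↦ σ ∪ {y}` if `x ∈ σ`, else `σ`), recovery at `x`
(`σ ↦ σ \ {x}`), each performed with probability `q ∈ [0, 1]`.
Let `a C = ex w (φ * zr C)`, `h C = ex w (zr C)`, primes for the law after the update.

Infection, `T σ` : `zr C (T σ) = zr (C ∪ {x}) σ` if `y ∈ C`, `= zr C σ` if `y ∉ C`; and for `y ∈ C`
`φ (T σ) zr C (T σ) = φ σ zr (C ∪ {x}) σ`.
 * `y ∈ C ⊆ C'`.  `a' C = (1-q) a C + q a (Cx)`, `h' C = (1-q) h C + q h (Cx)`.  Expand
   `a' C' h' C ≤ a' C h' C'` : the terms `(1-q)^2` and `q^2` are `RPw`.  The cross term :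
   `a C' h Cx + a C'x h C ≤ a C h C'x + a Cx h C'`.  If one of the `h`'s vanishes it is easy
   (`0 ≤ a D ≤ K h D`, `h` antitone).  Otherwise with the ratios `r = a / h` (`r` antitone by
   `RPw`) and `h C h C'x ≥ h C' h Cx` :
   `RHS - LHS = h C h C'x (r C - r C'x) - h C' h Cx (r C' - r Cx)`, `r C - r C'x ≥ r C' - r Cx`,
   `r C - r C'x ≥ 0`.
 * `y ∉ C'` : apply `RPw` with `φ` and with the monotone function `φ ∘ T` (infection is monotone).
 * `y ∉ C`, `y ∈ C'` : `a' C = (1-q) a C + q ex (φ∘T zr C) ≥ a C` and `h' C = h C`;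
   `a' C' h C = (1-q) a C' h C + q a (C'x) h C ≤ a C ((1-q) h C' + q h C'x) ≤ a' C h' C'`.
Recovery, `T σ = σ \ {x}` : `zr C (T σ) = zr (C \ {x}) σ`.
 * `x ∉ C'` : `RPw` with `φ` and `φ ∘ T`.
 * `x ∈ C ⊆ C'` : `a' C = (1-q) a C + q b (C\x)` where `b D = ex (φ∘T zr D)` and for `x ∈ C`
   `a C = b C` (as `σ ∌ x`).  `φ∘T` is monotone, so with `b` in place of `a` : expand as before, the
   cross term is `b C' h (C\x) + b (C'\x) h C ≤ b C h (C'\x) + b (C\x) h C'`; with the ratios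
   `ρ = b / h` antitone and `h (C\x) h C' ≥ h C h (C'\x)` (again `RPw`) :
   `RHS - LHS = h (C\x) h C' (ρ (C\x) - ρ C') - h C h (C'\x) (ρ (C'\x) - ρ C)`.
 * `x ∉ C`, `x ∈ C'` : `a' C ≥ b C` (`φ ≥ φ∘T`), `h' C = h C`,
   `a' C' h C = (1-q) b C' h C + q b (C'\x) h C ≤ b C ((1-q) h C' + q h (C'\x)) ≤ a' C h' C'`.
-/

noncomputable section

open Set

namespace CPM

variable {ι : Type*} [Fintype ι] [DecidableEq ι]

def ex (w : Finset ι → ℝ) (f : Finset ι → ℝ) : ℝ := ∑ σ, w σ * f σ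

def zr (C σ : Finset ι) : ℝ := if Disjoint σ C then 1 else 0

def RPw (w : Finset ι → ℝ) : Prop :=
  ∀ φ : Finset ι → ℝ, Monotone φ → (∀ σ, 0 ≤ φ σ) → ∀ C C' : Finset ι, C ⊆ C' →
    ex w (fun σ => φ σ * zr C' σ) * ex w (zr C) ≤ ex w (fun σ => φ σ * zr C σ) * ex w (zr C')

def infect (x y : ι) (σ : Finset ι) : Finset ι := if x ∈ σ then insert y σ else σ

def recov (x : ι) (σ : Finset ι) : Finset ι := σ.erase x

/-- the law after the update `T`, performed with probability `q` -/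
def mixw (q : ℝ) (T : Finset ι → Finset ι) (w : Finset ι → ℝ) : Finset ι → ℝ :=
  fun σ' => (1 - q) * w σ' + q * ∑ σ ∈ Finset.univ.filter (fun σ => T σ = σ'), w σ

theorem ex_mixw (q : ℝ) (T : Finset ι → Finset ι) (w f : Finset ι → ℝ) :
    ex (mixw q T w) f = (1 - q) * ex w f + q * ex w (fun σ => f (T σ)) := by
  unfold ex mixw
  have h1 : ∑ σ', (∑ σ ∈ Finset.univ.filter (fun σ => T σ = σ'), w σ) * f σ' = ∑ σ, w σ * f (T σ) := by
    rw [← Finset.sum_fiberwise (Finset.univ : Finset (Finset ι)) T (fun σ => w σ * f (T σ))]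
    refine Finset.sum_congr rfl (fun σ' _ => ?_)
    rw [Finset.sum_mul]
    refine Finset.sum_congr rfl (fun σ hσ => ?_)
    rw [(Finset.mem_filter.1 hσ).2]
  rw [← h1, Finset.mul_sum, Finset.mul_sum, ← Finset.sum_add_distrib]
  refine Finset.sum_congr rfl (fun σ _ => ?_)
  ring

theorem l01_zr_nonneg (C σ : Finset ι) : 0 ≤ zr C σ := by
  unfold zr; split_ifs <;> norm_num

theorem l01_zr_le_one (C σ : Finset ι) : zr C σ ≤ 1 := by
  unfold zr; split_ifs <;> norm_num

theorem l01_zr_anti {C C' : Finset ι} (h : C ⊆ C') (σ : Finset ι) : zr C' σ ≤ zr C σ := by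
  unfold zr
  by_cases h1 : Disjoint σ C'
  · have : Disjoint σ C := h1.mono_right h
    simp [h1, this]
  · simp only [h1, if_false]
    split_ifs <;> norm_num

theorem l01_ex_nonneg {w f : Finset ι → ℝ} (hw : ∀ σ, 0 ≤ w σ) (hf : ∀ σ, 0 ≤ f σ) : 0 ≤ ex w f :=
  Finset.sum_nonneg (fun σ _ => mul_nonneg (hw σ) (hf σ))

theorem l01_ex_mono {w f g : Finset ι → ℝ} (hw : ∀ σ, 0 ≤ w σ) (hf : ∀ σ, f σ ≤ g σ) :
    ex w f ≤ ex w g :=
  Finset.sum_le_sum (fun σ _ => mul_le_mul_of_nonneg_left (hf σ) (hw σ))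

theorem l01_ex_congr {w f g : Finset ι → ℝ} (hf : ∀ σ, f σ = g σ) : ex w f = ex w g := by
  have : f = g := funext hf
  rw [this]

/-- the zeros are positively correlated in the strong sense -/
theorem l01_h {w : Finset ι → ℝ} (h : RPw w) {C C' : Finset ι} (hC : C ⊆ C') (D : Finset ι) :
    ex w (zr C') * ex w (zr (C ∪ D)) ≤ ex w (zr C) * ex w (zr (C' ∪ D)) := by
  have hz : ∀ (E σ : Finset ι), (1 - zr D σ) * zr E σ = zr E σ - zr (E ∪ D) σ := by
    intro E σ
    unfold zr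
    by_cases h1 : Disjoint σ E <;> by_cases h2 : Disjoint σ D <;>
      simp [h1, h2, Finset.disjoint_union_right]
  have key := h (fun σ => 1 - zr D σ) (fun σ τ hστ => by
      have : zr D τ ≤ zr D σ := by
        unfold zr
        by_cases h1 : Disjoint τ D
        · have : Disjoint σ D := h1.mono_left hστ
          simp [h1, this]
        · simp only [h1, if_false]
          split_ifs <;> norm_num
      simp only
      linarith) (fun σ => by
      have := l01_zr_le_one D σ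
      linarith) C C' hC
  have hsub : ∀ E : Finset ι, ex w (fun σ => (1 - zr D σ) * zr E σ) = ex w (zr E) - ex w (zr (E ∪ D)) := by
    intro E
    unfold ex
    rw [← Finset.sum_sub_distrib]
    refine Finset.sum_congr rfl (fun σ _ => ?_)
    beta_reduce
    rw [hz]
    ring
  rw [hsub, hsub] at key
  nlinarith [key]

/-- the algebra of the cross term -/
theorem l01_cross {a1 a2 a3 a4 h1 h2 h3 h4 K : ℝ} (p1 : 0 ≤ h1) (p2 : 0 ≤ h2) (p3 : 0 ≤ h3)
    (p4 : 0 ≤ h4) (q1 : 0 ≤ a1) (q2 : 0 ≤ a2) (q3 : 0 ≤ a3) (q4 : 0 ≤ a4)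
    (k1 : a1 ≤ K * h1) (k2 : a2 ≤ K * h2) (k3 : a3 ≤ K * h3) (k4 : a4 ≤ K * h4)
    (c12 : a2 * h1 ≤ a1 * h2) (c34 : a4 * h3 ≤ a3 * h4) (c14 : a4 * h1 ≤ a1 * h4)
    (l42 : h4 ≤ h2) (l43 : h4 ≤ h3) (l21 : h2 ≤ h1)
    (hh : h2 * h3 ≤ h1 * h4) : a2 * h3 + a4 * h1 ≤ a1 * h4 + a3 * h2 := by
  rcases eq_or_lt_of_le p4 with h40 | h4pos
  · have e4 : a4 = 0 := by
      apply le_antisymm _ q4
      rw [← h40] at k4
      simpa using k4
    rw [← h40] at hh
    have hz : h2 * h3 = 0 := le_antisymm (by simpa using hh) (mul_nonneg p2 p3)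
    rcases mul_eq_zero.1 hz with hz | hz
    · have e2 : a2 = 0 := by
        apply le_antisymm _ q2
        rw [hz] at k2
        simpa using k2
      rw [e4, e2, hz, ← h40]
      simp
    · rw [e4, hz, ← h40]
      simp only [mul_zero, zero_mul, add_zero, zero_add]
      exact mul_nonneg q3 p2
  · have h2pos : 0 < h2 := lt_of_lt_of_le h4pos l42
    have h3pos : 0 < h3 := lt_of_lt_of_le h4pos l43
    have h1pos : 0 < h1 := lt_of_lt_of_le h2pos l21
    have e1 : a1 = a1 / h1 * h1 := by field_simp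
    have e2 : a2 = a2 / h2 * h2 := by field_simp
    have e3 : a3 = a3 / h3 * h3 := by field_simp
    have e4 : a4 = a4 / h4 * h4 := by field_simp
    have r21 : a2 / h2 ≤ a1 / h1 := by
      rw [div_le_div_iff₀ h2pos h1pos]; exact c12
    have r43 : a4 / h4 ≤ a3 / h3 := by
      rw [div_le_div_iff₀ h4pos h3pos]; exact c34
    have r41 : a4 / h4 ≤ a1 / h1 := by
      rw [div_le_div_iff₀ h4pos h1pos]; exact c14
    set r1 := a1 / h1
    set r2 := a2 / h2
    set r3 := a3 / h3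
    set r4 := a4 / h4
    rw [e1, e2, e3, e4]
    have s1 : (r2 - r3) * (h2 * h3) ≤ (r1 - r4) * (h2 * h3) := by
      apply mul_le_mul_of_nonneg_right _ (mul_nonneg p2 p3)
      linarith
    have s2 : (r1 - r4) * (h2 * h3) ≤ (r1 - r4) * (h1 * h4) :=
      mul_le_mul_of_nonneg_left hh (by linarith)
    nlinarith [s1, s2]

/-- the quadratic inequality for a mixture -/
theorem l01_quad {a1 a2 a3 a4 h1 h2 h3 h4 q : ℝ} (hq0 : 0 ≤ q) (hq1 : q ≤ 1)
    (c12 : a2 * h1 ≤ a1 * h2) (c34 : a4 * h3 ≤ a3 * h4)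
    (hc : a2 * h3 + a4 * h1 ≤ a1 * h4 + a3 * h2) :
    ((1 - q) * a2 + q * a4) * ((1 - q) * h1 + q * h3) ≤
      ((1 - q) * a1 + q * a3) * ((1 - q) * h2 + q * h4) := by
  have t1 := mul_le_mul_of_nonneg_left c12 (mul_nonneg (sub_nonneg.2 hq1) (sub_nonneg.2 hq1))
  have t2 := mul_le_mul_of_nonneg_left c34 (mul_nonneg hq0 hq0)
  have t3 := mul_le_mul_of_nonneg_left hc (mul_nonneg hq0 (sub_nonneg.2 hq1))
  nlinarith [t1, t2, t3]

theorem l01_le_K {w φ : Finset ι → ℝ} (hw : ∀ σ, 0 ≤ w σ) (hφ : Monotone φ) (C : Finset ι) :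
    ex w (fun σ => φ σ * zr C σ) ≤ φ Finset.univ * ex w (zr C) := by
  unfold ex
  rw [Finset.mul_sum]
  refine Finset.sum_le_sum (fun σ _ => ?_)
  have h1 : φ σ ≤ φ Finset.univ := hφ (Finset.subset_univ σ)
  have h2 := mul_le_mul_of_nonneg_right h1 (mul_nonneg (hw σ) (l01_zr_nonneg C σ))
  nlinarith [h2]

/-- the cross term, `E ⊆ E'`, `D` arbitrary -/
theorem l01_cross' {w φ : Finset ι → ℝ} (hw : ∀ σ, 0 ≤ w σ) (h : RPw w) (hφ : Monotone φ)
    (hφ0 : ∀ σ, 0 ≤ φ σ) {C C' : Finset ι} (hC : C ⊆ C') (D : Finset ι) :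
    ex w (fun σ => φ σ * zr C' σ) * ex w (zr (C ∪ D)) +
      ex w (fun σ => φ σ * zr (C' ∪ D) σ) * ex w (zr C) ≤
    ex w (fun σ => φ σ * zr C σ) * ex w (zr (C' ∪ D)) +
      ex w (fun σ => φ σ * zr (C ∪ D) σ) * ex w (zr C') := by
  have hnn : ∀ E : Finset ι, 0 ≤ ex w (fun σ => φ σ * zr E σ) := fun E =>
    l01_ex_nonneg hw (fun σ => mul_nonneg (hφ0 σ) (l01_zr_nonneg E σ))
  have hhn : ∀ E : Finset ι, 0 ≤ ex w (zr E) := fun E => l01_ex_nonneg hw (l01_zr_nonneg E)
  exact l01_cross (K := φ Finset.univ) (hhn _) (hhn _) (hhn _) (hhn _) (hnn _) (hnn _) (hnn _) (hnn _)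
    (l01_le_K hw hφ _) (l01_le_K hw hφ _) (l01_le_K hw hφ _) (l01_le_K hw hφ _)
    (h φ hφ hφ0 _ _ hC) (h φ hφ hφ0 _ _ (Finset.union_subset_union_left hC))
    (h φ hφ hφ0 _ _ (hC.trans Finset.subset_union_left))
    (l01_ex_mono hw (l01_zr_anti Finset.subset_union_left))
    (l01_ex_mono hw (l01_zr_anti (Finset.union_subset_union_left hC)))
    (l01_ex_mono hw (l01_zr_anti hC)) (l01_h h hC D)

theorem l01_infect_mono (x y : ι) : Monotone (infect x y) := by
  intro σ τ h z hz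
  unfold infect at *
  by_cases h1 : x ∈ σ
  · have h2 : x ∈ τ := h h1
    simp only [h1, h2, if_true, Finset.mem_insert] at hz ⊢
    exact hz.imp_right (fun hz => h hz)
  · simp only [h1, if_false] at hz
    split_ifs
    · exact Finset.mem_insert_of_mem (h hz)
    · exact h hz

theorem l01_le_infect (x y : ι) (σ : Finset ι) : σ ≤ infect x y σ := by
  unfold infect
  split_ifs
  · exact Finset.subset_insert _ _
  · exact le_rfl

theorem l01_zr_infect_mem {x y : ι} {C : Finset ι} (hy : y ∈ C) (σ : Finset ι) :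
    zr C (infect x y σ) = zr (C ∪ {x}) σ := by
  unfold zr infect
  by_cases h1 : x ∈ σ
  · have h2 : ¬ Disjoint (insert y σ) C := by
      rw [Finset.not_disjoint_iff]
      exact ⟨y, Finset.mem_insert_self _ _, hy⟩
    have h3 : ¬ Disjoint σ (C ∪ {x}) := by
      rw [Finset.not_disjoint_iff]
      exact ⟨x, h1, by simp⟩
    simp only [h1, if_true, h2, h3, if_false]
  · have h3 : Disjoint σ (C ∪ {x}) ↔ Disjoint σ C := by
      rw [Finset.disjoint_union_right]
      simp [h1]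
    simp only [h1, if_false, h3]

theorem l01_zr_infect_notMem {x y : ι} {C : Finset ι} (hy : y ∉ C) (σ : Finset ι) :
    zr C (infect x y σ) = zr C σ := by
  unfold zr infect
  by_cases h1 : x ∈ σ
  · have h3 : Disjoint (insert y σ) C ↔ Disjoint σ C := by
      rw [Finset.disjoint_insert_left]
      simp [hy]
    simp only [h1, if_true, h3]
  · simp only [h1, if_false]

theorem l01_phi_infect {φ : Finset ι → ℝ} {x y : ι} {C : Finset ι} (hy : y ∈ C) (σ : Finset ι) :
    φ (infect x y σ) * zr C (infect x y σ) = φ σ * zr (C ∪ {x}) σ := by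
  rw [l01_zr_infect_mem hy]
  by_cases h1 : x ∈ σ
  · have h3 : ¬ Disjoint σ (C ∪ {x}) := by
      rw [Finset.not_disjoint_iff]
      exact ⟨x, h1, by simp⟩
    unfold zr
    simp only [h3, if_false, mul_zero]
  · unfold infect
    simp only [h1, if_false]

theorem rpw_infect {w : Finset ι → ℝ} (hw : ∀ σ, 0 ≤ w σ) (h : RPw w) {q : ℝ} (hq0 : 0 ≤ q)
    (hq1 : q ≤ 1) {x y : ι} (hxy : x ≠ y) : RPw (mixw q (infect x y) w) := by
  intro φ hφ hφ0 C C' hC
  simp only [ex_mixw]
  have hφT : Monotone (fun σ => φ (infect x y σ)) := fun σ τ hστ => hφ (l01_infect_mono x y hστ)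
  have hφT0 : ∀ σ, 0 ≤ φ (infect x y σ) := fun σ => hφ0 _
  by_cases hy : y ∈ C
  · have hy' : y ∈ C' := hC hy
    have e1 : ex w (fun σ => φ (infect x y σ) * zr C (infect x y σ)) =
        ex w (fun σ => φ σ * zr (C ∪ {x}) σ) := l01_ex_congr (l01_phi_infect hy)
    have e2 : ex w (fun σ => φ (infect x y σ) * zr C' (infect x y σ)) =
        ex w (fun σ => φ σ * zr (C' ∪ {x}) σ) := l01_ex_congr (l01_phi_infect hy')
    have e3 : ex w (fun σ => zr C (infect x y σ)) = ex w (zr (C ∪ {x})) :=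
      l01_ex_congr (l01_zr_infect_mem hy)
    have e4 : ex w (fun σ => zr C' (infect x y σ)) = ex w (zr (C' ∪ {x})) :=
      l01_ex_congr (l01_zr_infect_mem hy')
    rw [e1, e2, e3, e4]
    exact l01_quad hq0 hq1 (h φ hφ hφ0 _ _ hC) (h φ hφ hφ0 _ _ (Finset.union_subset_union_left hC))
      (l01_cross' hw h hφ hφ0 hC {x})
  · have e3 : ex w (fun σ => zr C (infect x y σ)) = ex w (zr C) :=
      l01_ex_congr (l01_zr_infect_notMem hy)
    have e1 : ex w (fun σ => φ (infect x y σ) * zr C (infect x y σ)) =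
        ex w (fun σ => φ (infect x y σ) * zr C σ) :=
      l01_ex_congr (fun σ => by rw [l01_zr_infect_notMem hy])
    have e5 : ∀ z : ℝ, (1 - q) * z + q * z = z := fun z => by ring
    by_cases hy' : y ∈ C'
    · have e2 : ex w (fun σ => φ (infect x y σ) * zr C' (infect x y σ)) =
          ex w (fun σ => φ σ * zr (C' ∪ {x}) σ) := l01_ex_congr (l01_phi_infect hy')
      have e4 : ex w (fun σ => zr C' (infect x y σ)) = ex w (zr (C' ∪ {x})) :=
        l01_ex_congr (l01_zr_infect_mem hy')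
      rw [e1, e2, e3, e4, e5]
      have i1 := h φ hφ hφ0 _ _ hC
      have i2 := h φ hφ hφ0 C (C' ∪ {x}) (hC.trans Finset.subset_union_left)
      have i3 : ex w (fun σ => φ σ * zr C σ) ≤ ex w (fun σ => φ (infect x y σ) * zr C σ) :=
        l01_ex_mono hw (fun σ => mul_le_mul_of_nonneg_right (hφ (l01_le_infect x y σ))
          (l01_zr_nonneg C σ))
      have j1 := mul_le_mul_of_nonneg_left i1 (sub_nonneg.2 hq1)
      have j2 := mul_le_mul_of_nonneg_left i2 hq0
      have hh : 0 ≤ (1 - q) * ex w (zr C') + q * ex w (zr (C' ∪ {x})) :=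
        add_nonneg (mul_nonneg (sub_nonneg.2 hq1) (l01_ex_nonneg hw (l01_zr_nonneg _)))
          (mul_nonneg hq0 (l01_ex_nonneg hw (l01_zr_nonneg _)))
      have i4 : ex w (fun σ => φ σ * zr C σ) ≤ (1 - q) * ex w (fun σ => φ σ * zr C σ) +
          q * ex w (fun σ => φ (infect x y σ) * zr C σ) := by
        nlinarith [mul_le_mul_of_nonneg_left i3 hq0]
      have j3 := mul_le_mul_of_nonneg_right i4 hh
      nlinarith [j1, j2, j3]
    · have e4 : ex w (fun σ => zr C' (infect x y σ)) = ex w (zr C') :=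
        l01_ex_congr (l01_zr_infect_notMem hy')
      have e2 : ex w (fun σ => φ (infect x y σ) * zr C' (infect x y σ)) =
          ex w (fun σ => φ (infect x y σ) * zr C' σ) :=
        l01_ex_congr (fun σ => by rw [l01_zr_infect_notMem hy'])
      rw [e1, e2, e3, e4, e5, e5]
      have i1 := h φ hφ hφ0 _ _ hC
      have i2 := h (fun σ => φ (infect x y σ)) hφT hφT0 _ _ hC
      have j1 := mul_le_mul_of_nonneg_left i1 (sub_nonneg.2 hq1)
      have j2 := mul_le_mul_of_nonneg_left i2 hq0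
      nlinarith [j1, j2]

theorem l01_zr_recov (x : ι) (C σ : Finset ι) : zr C (recov x σ) = zr (C.erase x) σ := by
  unfold zr recov
  have : Disjoint (σ.erase x) C ↔ Disjoint σ (C.erase x) := by
    rw [Finset.disjoint_left, Finset.disjoint_left]
    constructor
    · intro h a ha hc
      rw [Finset.mem_erase] at hc
      exact h (Finset.mem_erase.2 ⟨hc.1, ha⟩) hc.2
    · intro h a ha hc
      rw [Finset.mem_erase] at ha
      exact h ha.2 (Finset.mem_erase.2 ⟨ha.1, hc⟩)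
  simp only [this]

theorem l01_phi_recov {φ : Finset ι → ℝ} {x : ι} {C : Finset ι} (hx : x ∈ C) (σ : Finset ι) :
    φ σ * zr C σ = φ (recov x σ) * zr C σ := by
  by_cases h1 : x ∈ σ
  · have h3 : ¬ Disjoint σ C := by
      rw [Finset.not_disjoint_iff]
      exact ⟨x, h1, hx⟩
    unfold zr
    simp only [h3, if_false, mul_zero]
  · unfold recov
    rw [Finset.erase_eq_of_notMem h1]

theorem rpw_recov {w : Finset ι → ℝ} (hw : ∀ σ, 0 ≤ w σ) (h : RPw w) {q : ℝ} (hq0 : 0 ≤ q)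
    (hq1 : q ≤ 1) (x : ι) : RPw (mixw q (recov x) w) := by
  intro φ hφ hφ0 C C' hC
  simp only [ex_mixw, l01_zr_recov]
  have hle : ∀ σ : Finset ι, recov x σ ≤ σ := fun σ => Finset.erase_subset _ _
  have hφT : Monotone (fun σ => φ (recov x σ)) := fun σ τ hστ => hφ (Finset.erase_subset_erase x hστ)
  have hφT0 : ∀ σ, 0 ≤ φ (recov x σ) := fun σ => hφ0 _
  change ((1 - q) * ex w (fun σ => φ σ * zr C' σ) + q * ex w (fun σ => φ (recov x σ) * zr (C'.erase x) σ)) *
      ((1 - q) * ex w (zr C) + q * ex w (zr (C.erase x))) ≤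
    ((1 - q) * ex w (fun σ => φ σ * zr C σ) + q * ex w (fun σ => φ (recov x σ) * zr (C.erase x) σ)) *
      ((1 - q) * ex w (zr C') + q * ex w (zr (C'.erase x)))
  by_cases hx : x ∈ C
  · have hx' : x ∈ C' := hC hx
    have e1 : ex w (fun σ => φ σ * zr C σ) = ex w (fun σ => φ (recov x σ) * zr C σ) :=
      l01_ex_congr (l01_phi_recov hx)
    have e2 : ex w (fun σ => φ σ * zr C' σ) = ex w (fun σ => φ (recov x σ) * zr C' σ) :=
      l01_ex_congr (l01_phi_recov hx')
    rw [e1, e2]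
    have hCe : C.erase x ⊆ C'.erase x := Finset.erase_subset_erase x hC
    have hu : C.erase x ∪ {x} = C := by
      ext z
      simp only [Finset.mem_union, Finset.mem_erase, Finset.mem_singleton]
      by_cases hz : z = x
      · subst hz; simp [hx]
      · simp [hz]
    have hu' : C'.erase x ∪ {x} = C' := by
      ext z
      simp only [Finset.mem_union, Finset.mem_erase, Finset.mem_singleton]
      by_cases hz : z = x
      · subst hz; simp [hx']
      · simp [hz]
    have cr := l01_cross' hw h hφT hφT0 hCe {x}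
    rw [hu, hu'] at cr
    refine l01_quad hq0 hq1 (h _ hφT hφT0 _ _ hC) (h _ hφT hφT0 _ _ hCe) ?_
    linarith [cr]
  · have e3 : C.erase x = C := Finset.erase_eq_of_notMem hx
    rw [e3]
    have e5 : ∀ z : ℝ, (1 - q) * z + q * z = z := fun z => by ring
    by_cases hx' : x ∈ C'
    · have e2 : ex w (fun σ => φ σ * zr C' σ) = ex w (fun σ => φ (recov x σ) * zr C' σ) :=
        l01_ex_congr (l01_phi_recov hx')
      rw [e2, e5]
      have hCe : C ⊆ C'.erase x := by
        intro z hz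
        exact Finset.mem_erase.2 ⟨fun e => hx (e ▸ hz), hC hz⟩
      have i1 := h _ hφT hφT0 _ _ hC
      have i2 := h _ hφT hφT0 _ _ hCe
      have i3 : ex w (fun σ => φ (recov x σ) * zr C σ) ≤ ex w (fun σ => φ σ * zr C σ) :=
        l01_ex_mono hw (fun σ => mul_le_mul_of_nonneg_right (hφ (hle σ)) (l01_zr_nonneg C σ))
      have j1 := mul_le_mul_of_nonneg_left i1 (sub_nonneg.2 hq1)
      have j2 := mul_le_mul_of_nonneg_left i2 hq0
      have hh : 0 ≤ (1 - q) * ex w (zr C') + q * ex w (zr (C'.erase x)) :=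
        add_nonneg (mul_nonneg (sub_nonneg.2 hq1) (l01_ex_nonneg hw (l01_zr_nonneg _)))
          (mul_nonneg hq0 (l01_ex_nonneg hw (l01_zr_nonneg _)))
      have i4 : ex w (fun σ => φ (recov x σ) * zr C σ) ≤ (1 - q) * ex w (fun σ => φ σ * zr C σ) +
          q * ex w (fun σ => φ (recov x σ) * zr C σ) := by
        nlinarith [mul_le_mul_of_nonneg_left i3 (sub_nonneg.2 hq1)]
      have j3 := mul_le_mul_of_nonneg_right i4 hh
      nlinarith [j1, j2, j3]
    · have e4 : C'.erase x = C' := Finset.erase_eq_of_notMem hx'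
      rw [e4, e5, e5]
      have i1 := h φ hφ hφ0 _ _ hC
      have i2 := h (fun σ => φ (recov x σ)) hφT hφT0 _ _ hC
      have j1 := mul_le_mul_of_nonneg_left i1 (sub_nonneg.2 hq1)
      have j2 := mul_le_mul_of_nonneg_left i2 hq0
      nlinarith [j1, j2]

/-- point masses -/
theorem rpw_point (σ₀ : Finset ι) : RPw (fun σ => if σ = σ₀ then (1 : ℝ) else 0) := by
  intro φ hφ hφ0 C C' hC
  have e : ∀ f : Finset ι → ℝ, ex (fun σ => if σ = σ₀ then (1 : ℝ) else 0) f = f σ₀ := by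
    intro f
    unfold ex
    simp
  rw [e, e, e, e]
  apply le_of_eq
  ring

/-- limits -/
theorem rpw_tendsto {w : ℕ → Finset ι → ℝ} {w₀ : Finset ι → ℝ} (h : ∀ n, RPw (w n))
    (hlim : ∀ σ, Filter.Tendsto (fun n => w n σ) Filter.atTop (nhds (w₀ σ))) : RPw w₀ := by
  intro φ hφ hφ0 C C' hC
  have e : ∀ f : Finset ι → ℝ, Filter.Tendsto (fun n => ex (w n) f) Filter.atTop (nhds (ex w₀ f)) := by
    intro f
    unfold ex
    exact tendsto_finsetSum _ (fun σ _ => (hlim σ).mul_const _)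
  exact le_of_tendsto_of_tendsto' ((e _).mul (e _)) ((e _).mul (e _))
    (fun n => h n φ hφ hφ0 C C' hC)

end CPM
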