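import Pool.Agent.Lib.MP_1a4724_pr.L01

/-!
# L02 (40 min) : random configurations

The law of `S` is `lawOf P S σ = P.real {ω | S ω = σ}`.
`rp_step` : if the event `B` is independent of `S`, the law of `S' = T S` on `B`, `S` off `B` is
`mixw (P.real B) T (lawOf P S)` :
`P (S' = σ') = P (Bᶜ, S = σ') + Σ_{T σ = σ'} P (B, S = σ)`.
`rp_of_close` : if `S n` and `S` differ with probability tending to zero then the weights converge.
-/

noncomputable section

open MeasureTheory Set

namespace CPM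

variable {Ω ι : Type*} [MeasurableSpace Ω] [Fintype ι] [DecidableEq ι]

def lawOf (P : Measure Ω) (S : Ω → Finset ι) : Finset ι → ℝ := fun σ => P.real {ω | S ω = σ}

/-- the random configuration `S` has the property -/
def RP (P : Measure Ω) (S : Ω → Finset ι) : Prop := RPw (lawOf P S)

theorem l02_sum {P : Measure Ω} [IsProbabilityMeasure P] {S : Ω → Finset ι}
    (hS : ∀ σ, MeasurableSet {ω | S ω = σ}) {B : Set Ω} (hB : MeasurableSet B)
    (F : Finset (Finset ι)) :
    P.real ({ω | S ω ∈ F} ∩ B) = ∑ σ ∈ F, P.real ({ω | S ω = σ} ∩ B) := by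
  have h1 : {ω | S ω ∈ F} ∩ B = ⋃ σ ∈ F, ({ω | S ω = σ} ∩ B) := by
    ext ω
    simp only [mem_inter_iff, mem_setOf_eq, mem_iUnion, exists_prop]
    constructor
    · rintro ⟨h, hb⟩
      exact ⟨S ω, h, rfl, hb⟩
    · rintro ⟨σ, h, h', hb⟩
      exact ⟨h' ▸ h, hb⟩
  rw [h1, measureReal_biUnion_finset]
  · intro σ _ σ' _ hne
    refine Set.disjoint_left.2 ?_
    rintro ω ⟨h2, _⟩ ⟨h3, _⟩
    exact hne (h2.symm.trans h3)
  · intro σ _
    exact (hS σ).inter hB

open Classical in
theorem l02_ind {P : Measure Ω} [IsProbabilityMeasure P] {S : Ω → Finset ι}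
    (hS : ∀ σ, MeasurableSet {ω | S ω = σ}) (Q : Finset ι → Prop) :
    ex (lawOf P S) (fun σ => if Q σ then 1 else 0) = P.real {ω | Q (S ω)} := by
  have h := l02_sum (P := P) hS MeasurableSet.univ (Finset.univ.filter Q)
  simp only [inter_univ, Finset.mem_filter, Finset.mem_univ, true_and] at h
  rw [h]
  unfold ex lawOf
  rw [Finset.sum_filter]
  refine Finset.sum_congr rfl (fun σ _ => ?_)
  by_cases hq : Q σ
  · simp [hq]
  · simp [hq]

open Classical in
theorem l02_law_step {P : Measure Ω} [IsProbabilityMeasure P] {S : Ω → Finset ι}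
    (hS : ∀ σ, MeasurableSet {ω | S ω = σ}) {B : Set Ω} (hB : MeasurableSet B)
    (hind : ∀ σ, P.real ({ω | S ω = σ} ∩ B) = P.real {ω | S ω = σ} * P.real B)
    (T : Finset ι → Finset ι) :
    lawOf P (fun ω => if ω ∈ B then T (S ω) else S ω) = mixw (P.real B) T (lawOf P S) := by
  funext σ'
  unfold lawOf mixw
  have h1 : {ω | (if ω ∈ B then T (S ω) else S ω) = σ'} =
      ({ω | S ω = σ'} ∩ Bᶜ) ∪ ({ω | S ω ∈ Finset.univ.filter (fun σ => T σ = σ')} ∩ B) := by
    ext ω
    simp only [mem_setOf_eq, mem_union, mem_inter_iff, mem_compl_iff, Finset.mem_filter,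
      Finset.mem_univ, true_and]
    by_cases hb : ω ∈ B
    · simp [hb]
    · simp [hb]
  have hd : Disjoint ({ω | S ω = σ'} ∩ Bᶜ)
      ({ω | S ω ∈ Finset.univ.filter (fun σ => T σ = σ')} ∩ B) := by
    refine Set.disjoint_left.2 ?_
    rintro ω ⟨_, h2⟩ ⟨_, h3⟩
    exact h2 h3
  have hm : MeasurableSet ({ω | S ω ∈ Finset.univ.filter (fun σ => T σ = σ')} ∩ B) := by
    have h2 : {ω | S ω ∈ Finset.univ.filter (fun σ => T σ = σ')} =
        ⋃ σ ∈ Finset.univ.filter (fun σ => T σ = σ'), {ω | S ω = σ} := by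
      ext ω
      simp only [mem_setOf_eq, mem_iUnion, exists_prop]
      constructor
      · intro h; exact ⟨S ω, h, rfl⟩
      · rintro ⟨σ, h, h'⟩; exact h' ▸ h
    rw [h2]
    exact (Finset.measurableSet_biUnion _ (fun σ _ => hS σ)).inter hB
  rw [h1, measureReal_union hd hm, l02_sum hS hB]
  congr 1
  · have h3 : P.real ({ω | S ω = σ'} ∩ B) + P.real ({ω | S ω = σ'} ∩ Bᶜ) = P.real {ω | S ω = σ'} := by
      have := measureReal_inter_add_sdiff (μ := P) (s := {ω | S ω = σ'}) hB
      rwa [Set.diff_eq] at this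
    rw [hind] at h3
    linarith
  · rw [Finset.mul_sum]
    refine Finset.sum_congr rfl (fun σ _ => ?_)
    rw [hind, mul_comm]

open Classical in
theorem rp_step {P : Measure Ω} [IsProbabilityMeasure P] {S : Ω → Finset ι}
    (hS : ∀ σ, MeasurableSet {ω | S ω = σ}) (h : RP P S) {B : Set Ω} (hB : MeasurableSet B)
    (hind : ∀ σ, P.real ({ω | S ω = σ} ∩ B) = P.real {ω | S ω = σ} * P.real B)
    {T : Finset ι → Finset ι} (hT : (∃ x y, x ≠ y ∧ T = infect x y) ∨ ∃ x, T = recov x) :
    RP P (fun ω => if ω ∈ B then T (S ω) else S ω) := by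
  unfold RP
  rw [l02_law_step hS hB hind T]
  have hw : ∀ σ, 0 ≤ lawOf P S σ := fun σ => measureReal_nonneg
  have hq0 : 0 ≤ P.real B := measureReal_nonneg
  have hq1 : P.real B ≤ 1 := measureReal_le_one
  rcases hT with ⟨x, y, hxy, rfl⟩ | ⟨x, rfl⟩
  · exact rpw_infect hw h hq0 hq1 hxy
  · exact rpw_recov hw h hq0 hq1 x

/-- deterministic infection `x → y` (used to copy a coordinate to an unused coordinate) -/
theorem rp_copy {P : Measure Ω} [IsProbabilityMeasure P] {S : Ω → Finset ι}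
    (hS : ∀ σ, MeasurableSet {ω | S ω = σ}) (h : RP P S) {x y : ι} (hxy : x ≠ y) :
    RP P (fun ω => infect x y (S ω)) := by
  have := rp_step (P := P) hS h (B := univ) MeasurableSet.univ (by intro σ; simp)
    (T := infect x y) (Or.inl ⟨x, y, hxy, rfl⟩)
  simpa using this

theorem rp_const {P : Measure Ω} [IsProbabilityMeasure P] (σ₀ : Finset ι) :
    RP P (fun _ : Ω => σ₀) := by
  unfold RP
  have h1 : lawOf P (fun _ : Ω => σ₀) = fun σ => if σ = σ₀ then (1 : ℝ) else 0 := by
    funext σ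
    unfold lawOf
    by_cases h : σ = σ₀
    · subst h; simp
    · rw [if_neg h]
      have : {ω : Ω | σ₀ = σ} = ∅ := by
        ext ω
        simp only [mem_setOf_eq, mem_empty_iff_false, iff_false]
        exact fun h' => h h'.symm
      rw [this, measureReal_empty]
  rw [h1]
  exact rpw_point σ₀

theorem rp_congr_ae {P : Measure Ω} {S S' : Ω → Finset ι} (h : RP P S)
    (hS : ∀ᵐ ω ∂P, S ω = S' ω) : RP P S' := by
  have h1 : lawOf P S' = lawOf P S := by
    funext σ
    unfold lawOf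
    refine measureReal_congr ?_
    filter_upwards [hS] with ω hω
    show (S' ω = σ) = (S ω = σ)
    rw [hω]
  unfold RP
  rw [h1]
  exact h

theorem rp_of_close {P : Measure Ω} [IsProbabilityMeasure P] {S : ℕ → Ω → Finset ι}
    {S' : Ω → Finset ι} (h : ∀ n, RP P (S n))
    (hm : ∀ n σ, MeasurableSet {ω | S n ω = σ}) (hm' : ∀ σ, MeasurableSet {ω | S' ω = σ})
    (hclose : Filter.Tendsto (fun n => P.real {ω | S n ω ≠ S' ω}) Filter.atTop (nhds 0)) :
    RP P S' := by
  refine rpw_tendsto (w := fun n => lawOf P (S n)) h ?_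
  intro σ
  rw [tendsto_iff_dist_tendsto_zero]
  refine squeeze_zero (fun n => dist_nonneg) (fun n => ?_) hclose
  rw [Real.dist_eq, abs_sub_le_iff]
  unfold lawOf
  constructor
  · have h1 : {ω | S n ω = σ} ⊆ {ω | S' ω = σ} ∪ {ω | S n ω ≠ S' ω} := by
      intro ω hω
      by_cases h2 : S n ω = S' ω
      · left; exact h2.symm.trans hω
      · right; exact h2
    have h2 := (measureReal_mono (μ := P) h1).trans (measureReal_union_le _ _)
    linarith
  · have h1 : {ω | S' ω = σ} ⊆ {ω | S n ω = σ} ∪ {ω | S n ω ≠ S' ω} := by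
      intro ω hω
      by_cases h2 : S n ω = S' ω
      · left; exact h2.trans hω
      · right; exact h2
    have h2 := (measureReal_mono (μ := P) h1).trans (measureReal_union_le _ _)
    linarith

/-- the final form : ones on `S₁`, zeros on `C`, `C'` -/
theorem RP.ineq {P : Measure Ω} [IsProbabilityMeasure P] {S : Ω → Finset ι}
    (hm : ∀ σ, MeasurableSet {ω | S ω = σ}) (h : RP P S) {C C' S₁ : Finset ι} (hC : C ⊆ C') :
    P.real {ω | S₁ ⊆ S ω ∧ Disjoint (S ω) C'} * P.real {ω | Disjoint (S ω) C} ≤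
      P.real {ω | S₁ ⊆ S ω ∧ Disjoint (S ω) C} * P.real {ω | Disjoint (S ω) C'} := by
  classical
  have h1 := h (fun σ => if S₁ ⊆ σ then 1 else 0) (by
    intro σ σ' hσ
    show (if S₁ ⊆ σ then (1 : ℝ) else 0) ≤ if S₁ ⊆ σ' then 1 else 0
    by_cases h2 : S₁ ⊆ σ
    · rw [if_pos h2, if_pos (h2.trans hσ)]
    · rw [if_neg h2]
      split_ifs <;> norm_num) (by
    intro σ
    show (0 : ℝ) ≤ if S₁ ⊆ σ then 1 else 0
    split_ifs <;> norm_num) C C' hC
  have e1 : ∀ D : Finset ι, ex (lawOf P S) (fun σ => (if S₁ ⊆ σ then (1 : ℝ) else 0) * zr D σ) =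
      P.real {ω | S₁ ⊆ S ω ∧ Disjoint (S ω) D} := by
    intro D
    rw [← l02_ind hm (fun σ => S₁ ⊆ σ ∧ Disjoint σ D)]
    congr 1
    funext σ
    unfold zr
    by_cases a : S₁ ⊆ σ <;> by_cases b : Disjoint σ D <;> simp [a, b]
  have e2 : ∀ D : Finset ι, ex (lawOf P S) (zr D) = P.real {ω | Disjoint (S ω) D} := by
    intro D
    rw [← l02_ind hm (fun σ => Disjoint σ D)]
    congr 1
    funext σ
    unfold zr
    congr
  rw [e1, e1, e2, e2] at h1
  exact h1

end CPM
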