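import Pool.Agent.Lib.MP_1a4724_pr.P01
import Pool.Agent.Lib.MP_1a4724_pr.L02
import Pool.Agent.Lib.MP_1a4724_pr.D05

/-!
# L03 (120 min) : the property is preserved by the evolution in finite volume

Coordinates : `↥Λ ⊕ O` (`Λ` finite set of vertices, `O` = observation coordinates).
`evolve Λ adj m a b σ` : the observation part is unchanged; `y` is infected at time `b` iff some
`x ∈ Λ` infected in `σ` is connected to it inside `Λ` during `[a, b]`.

Proof of `rp_evolve`.  `a = b` : almost surely there is no mark at time `a`, so the evolution is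
the identity almost surely (`rp_congr_ae`).  `a < b` : `l03_chain` processes the `N` closed slots of
length `(b - a) / N` one after the other, in each slot the list of the updates of all types.  Each
update is governed by an event of `VA M (box)` with the box almost disjoint from the region used by
the current configuration (`l03_step`).  If in every slot at most one type has marks, the updates
of a slot are the true evolution (`l03_slot`), which is the case for all large `N` (`exists_mesh`),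
so the configurations differ with probability tending to zero (dominated convergence).
-/

noncomputable section

open MeasureTheory Set

namespace CPM

open Classical in
/-- evolution of the vertex part of the configuration during `[a, b]`, inside `Λ` -/
def evolve {V O : Type*} [Fintype O] (Λ : Finset V) (adj : V → V → Prop) (m : V × V → Set ℝ)
    (a b : ℝ) (σ : Finset (Λ ⊕ O)) : Finset (Λ ⊕ O) :=
  Finset.univ.filter fun c => match c with
    | Sum.inl y => ∃ x : Λ, Sum.inl x ∈ σ ∧ Conn (adjOn (Λ : Set V) adj) m ((x : V), a) ((y : V), b)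
    | Sum.inr o => Sum.inr o ∈ σ

theorem evolve_inl {V O : Type*} [Fintype O] {Λ : Finset V} {adj : V → V → Prop}
    {m : V × V → Set ℝ} {a b : ℝ} {σ : Finset (Λ ⊕ O)} {y : Λ} :
    Sum.inl y ∈ evolve Λ adj m a b σ ↔
      ∃ x : Λ, Sum.inl x ∈ σ ∧ Conn (adjOn (Λ : Set V) adj) m ((x : V), a) ((y : V), b) := by
  simp [evolve]

theorem evolve_inr {V O : Type*} [Fintype O] {Λ : Finset V} {adj : V → V → Prop}
    {m : V × V → Set ℝ} {a b : ℝ} {σ : Finset (Λ ⊕ O)} {o : O} :
    Sum.inr o ∈ evolve Λ adj m a b σ ↔ Sum.inr o ∈ σ := by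
  simp [evolve]

theorem l03_meas {Ω ι : Type*} [Fintype ι] [DecidableEq ι] {mm : MeasurableSpace Ω}
    {S : Ω → Finset ι} (hS : ∀ σ, MeasurableSet[mm] {ω | S ω = σ}) (p : Finset ι → Prop) :
    MeasurableSet[mm] {ω | p (S ω)} := by
  have : {ω | p (S ω)} = ⋃ σ ∈ {σ : Finset ι | p σ}, {ω | S ω = σ} := by
    ext ω
    simp
  rw [this]
  exact MeasurableSet.biUnion (Set.to_countable _) fun σ _ => hS σ

theorem l03_meas_iff {Ω ι : Type*} [Fintype ι] [DecidableEq ι] {mm : MeasurableSpace Ω}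
    {S : Ω → Finset ι} (hS : ∀ c, MeasurableSet[mm] {ω | c ∈ S ω}) (σ : Finset ι) :
    MeasurableSet[mm] {ω | S ω = σ} := by
  have : {ω | S ω = σ} = ⋂ c : ι, {ω | (c ∈ S ω ↔ c ∈ σ)} := by
    ext ω
    simp [Finset.ext_iff]
  rw [this]
  refine MeasurableSet.iInter fun c => ?_
  by_cases hc : c ∈ σ
  · simpa [hc] using hS c
  · have h2 : {ω | (c ∈ S ω ↔ c ∈ σ)} = {ω | c ∈ S ω}ᶜ := by
      ext ω
      simp [hc]
    rw [h2]
    exact (hS c).compl

/-- if the type `e` has a mark in `[u, v]` apply `T` -/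
def l03_upd {J ι : Type*} (m : J → Set ℝ) (u v : ℝ) (e : J) (T : Finset ι → Finset ι)
    (σ : Finset ι) : Finset ι := by
  classical
  exact if ∀ t ∈ Icc u v, t ∉ m e then σ else T σ

theorem l03_upd_pos {J ι : Type*} {m : J → Set ℝ} {u v : ℝ} {e : J} (T : Finset ι → Finset ι)
    (σ : Finset ι) (h : ∀ t ∈ Icc u v, t ∉ m e) : l03_upd m u v e T σ = σ := by
  unfold l03_upd
  exact if_pos h

theorem l03_upd_neg {J ι : Type*} {m : J → Set ℝ} {u v : ℝ} {e : J} (T : Finset ι → Finset ι)
    (σ : Finset ι) (h : ¬ ∀ t ∈ Icc u v, t ∉ m e) : l03_upd m u v e T σ = T σ := by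
  unfold l03_upd
  exact if_neg h

theorem l03_step {Ω J ι : Type*} [mΩ : MeasurableSpace Ω] [Fintype ι] [DecidableEq ι]
    {P : Measure Ω} {M : Ω → J → Set ℝ} {rate : J → ℝ} (hP : IsPoisson P M rate)
    {R : Set (J × ℝ)} {S : Ω → Finset ι} (hS : ∀ σ, MeasurableSet[VA M R] {ω | S ω = σ})
    (h : RP P S) (e : J) (u v : ℝ)
    (hR : ∀ e', volume {t : ℝ | (e', t) ∈ R ∧ (e', t) ∈ boxOf (e, u, v)} = 0)
    {T : Finset ι → Finset ι} (hT : (∃ x y, x ≠ y ∧ T = infect x y) ∨ ∃ x, T = recov x) :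
    RP P (fun ω => l03_upd (M ω) u v e T (S ω)) ∧
      ∀ σ, MeasurableSet[VA M (R ∪ boxOf (e, u, v))] {ω | l03_upd (M ω) u v e T (S ω) = σ} := by
  have hprob := hP.prob
  have hvoid : ∀ R' : Set (J × ℝ), boxOf (e, u, v) ⊆ R' →
      MeasurableSet[VA M R'] (voidEv M e u v) := fun R' hR' =>
    MeasurableSpace.measurableSet_generateFrom ⟨(e, u, v), hR', rfl⟩
  have hvc : MeasurableSet[VA M (boxOf (e, u, v))] (voidEv M e u v)ᶜ :=
    (hvoid _ subset_rfl).compl
  constructor
  · have h0 := rp_step (fun σ => hP.VA_le R _ (hS σ)) h (hP.VA_le _ _ hvc)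
      (fun σ => hP.mul R (boxOf (e, u, v)) hR (hS σ) hvc) hT
    have key : (fun ω => l03_upd (M ω) u v e T (S ω)) =
        (fun ω => @ite _ (ω ∈ (voidEv M e u v)ᶜ) (Classical.propDecidable _)
          (T (S ω)) (S ω)) := by
      funext ω
      by_cases hω : ∀ t ∈ Icc u v, t ∉ M ω e
      · have h1 : ω ∉ (voidEv M e u v)ᶜ := fun h2 => h2 hω
        rw [if_neg h1, l03_upd_pos _ _ hω]
      · have h1 : ω ∈ (voidEv M e u v)ᶜ := fun h2 => hω h2
        rw [if_pos h1, l03_upd_neg _ _ hω]
    rw [key]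
    exact h0
  · intro σ
    have h1 : {ω | l03_upd (M ω) u v e T (S ω) = σ} =
        ({ω | S ω = σ} ∩ voidEv M e u v) ∪ ({ω | T (S ω) = σ} ∩ (voidEv M e u v)ᶜ) := by
      ext ω
      by_cases hω : ω ∈ voidEv M e u v
      · have h2 : l03_upd (M ω) u v e T (S ω) = S ω := l03_upd_pos _ _ hω
        simp [h2, hω]
      · have h2 : l03_upd (M ω) u v e T (S ω) = T (S ω) := l03_upd_neg _ _ hω
        simp [h2, hω]
    rw [h1]
    have hv := hvoid (R ∪ boxOf (e, u, v)) subset_union_right
    have hle : VA M R ≤ VA M (R ∪ boxOf (e, u, v)) := VA_mono subset_union_left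
    refine MeasurableSet.union (MeasurableSet.inter (hle _ (hS σ)) hv)
      (MeasurableSet.inter (hle _ ?_) hv.compl)
    exact l03_meas hS (fun τ => T τ = σ)

/-- the updates of the types of the list `l`, in the slot `[u, v]` -/
def l03_run {J ι : Type*} (m : J → Set ℝ) (u v : ℝ) (T : J → Finset ι → Finset ι) :
    List J → Finset ι → Finset ι
  | [], σ => σ
  | e :: l, σ => l03_run m u v T l (l03_upd m u v e (T e) σ)

theorem l03_run_rp {Ω J ι : Type*} [mΩ : MeasurableSpace Ω] [Fintype ι] [DecidableEq ι]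
    {P : Measure Ω} {M : Ω → J → Set ℝ} {rate : J → ℝ} (hP : IsPoisson P M rate) {u v : ℝ}
    {T : J → Finset ι → Finset ι} (l : List J)
    (hT : ∀ e ∈ l, (∃ x y, x ≠ y ∧ T e = infect x y) ∨ ∃ x, T e = recov x)
    (hl : l.Nodup) {R : Set (J × ℝ)} {S : Ω → Finset ι}
    (hS : ∀ σ, MeasurableSet[VA M R] {ω | S ω = σ}) (h : RP P S)
    (hR : ∀ e ∈ l, volume {t : ℝ | (e, t) ∈ R ∧ t ∈ Icc u v} = 0) :
    RP P (fun ω => l03_run (M ω) u v T l (S ω)) ∧
      ∀ σ, MeasurableSet[VA M (R ∪ {p | p.1 ∈ l ∧ p.2 ∈ Icc u v})]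
        {ω | l03_run (M ω) u v T l (S ω) = σ} := by
  induction l generalizing R S with
  | nil =>
    refine ⟨h, fun σ => ?_⟩
    exact VA_mono subset_union_left _ (hS σ)
  | cons e l ih =>
    have hl' := List.nodup_cons.1 hl
    obtain ⟨h1, h2⟩ := l03_step hP hS h e u v (T := T e) (by
      intro e'
      by_cases he : e' = e
      · subst he
        refine measure_mono_null ?_ (hR e' (by simp))
        intro t ht
        exact ⟨ht.1, ht.2.2⟩
      · have : {t : ℝ | (e', t) ∈ R ∧ (e', t) ∈ boxOf (e, u, v)} = ∅ := by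
          ext t
          simp only [mem_ofPred_eq, mem_empty_iff_false, iff_false, not_and]
          intro _ h3
          exact he h3.1
        rw [this]
        exact measure_empty) (hT e (by simp))
    obtain ⟨h3, h4⟩ := ih (fun e' he' => hT e' (by simp [he'])) hl'.2 h2 h1 (by
      intro e' he'
      refine measure_mono_null ?_ (hR e' (by simp [he']))
      intro t ht
      refine ⟨?_, ht.2⟩
      rcases ht.1 with h5 | h5
      · exact h5
      · have h6 : e' = e := h5.1
        subst h6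
        exact absurd he' hl'.1)
    refine ⟨h3, fun σ => ?_⟩
    refine VA_mono ?_ _ (h4 σ)
    rintro ⟨e', t⟩ hp
    rcases hp with (hp | hp) | hp
    · exact Or.inl hp
    · refine Or.inr ⟨?_, hp.2⟩
      have : e' = e := hp.1
      simp [this]
    · exact Or.inr ⟨by simp [hp.1], hp.2⟩

theorem l03_run_none {J ι : Type*} {m : J → Set ℝ} {u v : ℝ} {T : J → Finset ι → Finset ι}
    {l : List J} (h : ∀ e ∈ l, ∀ t ∈ Icc u v, t ∉ m e) (σ : Finset ι) :
    l03_run m u v T l σ = σ := by
  induction l generalizing σ with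
  | nil => rfl
  | cons e l ih =>
    unfold l03_run
    have h1 : l03_upd m u v e (T e) σ = σ := l03_upd_pos _ _ (h e (by simp))
    rw [h1]
    exact ih (fun e' he' => h e' (by simp [he'])) σ

theorem l03_run_one {J ι : Type*} {m : J → Set ℝ} {u v : ℝ} {T : J → Finset ι → Finset ι}
    {l : List J} (hl : l.Nodup) {e : J} (he : e ∈ l) (h1 : ¬ ∀ t ∈ Icc u v, t ∉ m e)
    (h : ∀ e' ∈ l, e' ≠ e → ∀ t ∈ Icc u v, t ∉ m e') (σ : Finset ι) :
    l03_run m u v T l σ = T e σ := by
  induction l generalizing σ with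
  | nil => simp at he
  | cons e₁ l ih =>
    unfold l03_run
    have hl' := List.nodup_cons.1 hl
    by_cases h2 : e₁ = e
    · subst h2
      have h3 : l03_upd m u v e₁ (T e₁) σ = T e₁ σ := l03_upd_neg _ _ h1
      rw [h3]
      refine l03_run_none (fun e' he' => h e' (by simp [he']) ?_) _
      rintro rfl
      exact hl'.1 he'
    · have h3 : l03_upd m u v e₁ (T e₁) σ = σ := l03_upd_pos _ _ (h e₁ (by simp) h2)
      rw [h3]
      have h4 : e ∈ l := by
        rcases List.mem_cons.1 he with h5 | h5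
        · exact absurd h5.symm h2
        · exact h5
      exact ih hl'.2 h4 (fun e' he' => h e' (by simp [he'])) σ

/-- the updates -/
def l03_T {V O : Type*} [DecidableEq V] [DecidableEq O] (Λ : Finset V) (e : V × V)
    (σ : Finset (Λ ⊕ O)) : Finset (Λ ⊕ O) :=
  if h : e.1 ∈ Λ ∧ e.2 ∈ Λ then
    (if e.1 = e.2 then recov (Sum.inl ⟨e.1, h.1⟩) σ
      else infect (Sum.inl ⟨e.1, h.1⟩) (Sum.inl ⟨e.2, h.2⟩) σ)
  else σ

open Classical in
/-- the list of the types -/
def l03_L {V : Type*} (Λ : Finset V) (adj : V → V → Prop) : List (V × V) :=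
  ((Λ ×ˢ Λ).filter fun e => e.1 = e.2 ∨ adj e.1 e.2).toList

theorem l03_L_nodup {V : Type*} (Λ : Finset V) (adj : V → V → Prop) : (l03_L Λ adj).Nodup :=
  Finset.nodup_toList _

theorem l03_mem_L {V : Type*} {Λ : Finset V} {adj : V → V → Prop} {e : V × V} :
    e ∈ l03_L Λ adj ↔ (e.1 ∈ Λ ∧ e.2 ∈ Λ) ∧ (e.1 = e.2 ∨ adj e.1 e.2) := by
  unfold l03_L
  simp

theorem l03_slot {V O : Type*} [Fintype O] [DecidableEq V] [DecidableEq O] (Λ : Finset V)
    (adj : V → V → Prop) {m : V × V → Set ℝ} {u v : ℝ} (huv : u < v)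
    (h1 : OneType (Λ : Set V) m u v) (σ : Finset (Λ ⊕ O)) :
    l03_run m u v (l03_T Λ) (l03_L Λ adj) σ = evolve Λ adj m u v σ := by
  have hconn : ∀ x y : Λ, Conn (adjOn (Λ : Set V) adj) m ((x : V), u) ((y : V), v) ↔
      ((y : V) = x ∧ ∀ t ∈ Icc u v, t ∉ m ((x : V), (x : V))) ∨
      (adj x y ∧ (x : V) ≠ y ∧ (y : V) ∈ (Λ : Set V) ∧ (m ((x : V), (y : V)) ∩ Icc u v).Nonempty) :=
    fun x y => slot_conn huv h1 x.2
  by_cases hex : ∃ e ∈ l03_L Λ adj, ¬ ∀ t ∈ Icc u v, t ∉ m e
  · obtain ⟨⟨x₀, y₀⟩, he, hm⟩ := hex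
    have hmem := l03_mem_L.1 he
    simp only at hmem
    have hne : (m (x₀, y₀) ∩ Icc u v).Nonempty := by
      push Not at hm
      obtain ⟨t, ht, htm⟩ := hm
      exact ⟨t, htm, ht⟩
    have huniq : ∀ e' : V × V, e'.1 ∈ Λ → e'.2 ∈ Λ → e' ≠ (x₀, y₀) → ∀ t ∈ Icc u v, t ∉ m e' := by
      intro e' h2 h3 h4 t ht htm
      exact h4 (h1 e' (x₀, y₀) h2 h3 hmem.1.1 hmem.1.2 ⟨t, htm, ht⟩ hne)
    rw [l03_run_one (l03_L_nodup Λ adj) he hm (fun e' he' hne' =>
      huniq e' (l03_mem_L.1 he').1.1 (l03_mem_L.1 he').1.2 hne')]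
    have hx0 := hmem.1.1
    have hy0 := hmem.1.2
    by_cases hxy : x₀ = y₀
    · subst hxy
      have hT : l03_T (O := O) Λ (x₀, x₀) σ = recov (Sum.inl ⟨x₀, hx0⟩) σ := by
        unfold l03_T
        simp [hx0]
      rw [hT]
      ext c
      rcases c with y | o
      · rw [evolve_inl]
        unfold recov
        simp only [Finset.mem_erase, ne_eq, Sum.inl.injEq]
        constructor
        · rintro ⟨h2, h3⟩
          refine ⟨y, h3, (hconn y y).2 (Or.inl ⟨rfl, ?_⟩)⟩
          refine huniq _ y.2 y.2 ?_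
          intro h4
          apply h2
          apply Subtype.ext
          exact congrArg Prod.fst h4
        · rintro ⟨x, hx, hc⟩
          rcases (hconn x y).1 hc with ⟨h2, h3⟩ | ⟨h2, h3, h4, h5⟩
          · have h6 : y = x := Subtype.ext h2
            subst h6
            refine ⟨?_, hx⟩
            rintro rfl
            obtain ⟨t, ht1, ht2⟩ := hne
            exact h3 t ht2 ht1
          · exfalso
            obtain ⟨t, ht1, ht2⟩ := h5
            refine huniq ((x : V), (y : V)) x.2 y.2 ?_ t ht2 ht1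
            intro h6
            apply h3
            have h7 := congrArg Prod.fst h6
            have h8 := congrArg Prod.snd h6
            simp only at h7 h8
            rw [h7, h8]
      · rw [evolve_inr]
        unfold recov
        simp
    · have hadj : adj x₀ y₀ := by
        rcases hmem.2 with h2 | h2
        · exact absurd h2 hxy
        · exact h2
      have hT : l03_T (O := O) Λ (x₀, y₀) σ =
          infect (Sum.inl ⟨x₀, hx0⟩) (Sum.inl ⟨y₀, hy0⟩) σ := by
        unfold l03_T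
        simp [hx0, hy0, hxy]
      rw [hT]
      ext c
      rcases c with y | o
      · rw [evolve_inl]
        unfold infect
        constructor
        · intro h2
          have h3 : Sum.inl y ∈ σ ∨ (Sum.inl ⟨x₀, hx0⟩ ∈ σ ∧ (y : V) = y₀) := by
            by_cases h4 : (Sum.inl ⟨x₀, hx0⟩ : Λ ⊕ O) ∈ σ
            · rw [if_pos h4] at h2
              rcases Finset.mem_insert.1 h2 with h5 | h5
              · right
                refine ⟨h4, ?_⟩
                have h6 := Sum.inl.inj h5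
                rw [h6]
              · exact Or.inl h5
            · rw [if_neg h4] at h2
              exact Or.inl h2
          rcases h3 with h3 | ⟨h3, h4⟩
          · refine ⟨y, h3, (hconn y y).2 (Or.inl ⟨rfl, ?_⟩)⟩
            refine huniq _ y.2 y.2 ?_
            intro h4
            apply hxy
            have h7 := congrArg Prod.fst h4
            have h8 := congrArg Prod.snd h4
            simp only at h7 h8
            rw [← h7, ← h8]
          · refine ⟨⟨x₀, hx0⟩, h3, (hconn _ _).2 (Or.inr ?_)⟩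
            refine ⟨?_, ?_, y.2, ?_⟩
            · rw [h4]
              exact hadj
            · rw [h4]
              exact hxy
            · rw [h4]
              exact hne
        · rintro ⟨x, hx, hc⟩
          rcases (hconn x y).1 hc with ⟨h2, h3⟩ | ⟨h2, h3, h4, h5⟩
          · have h6 : y = x := Subtype.ext h2
            subst h6
            split_ifs
            · exact Finset.mem_insert_of_mem hx
            · exact hx
          · have h6 : ((x : V), (y : V)) = (x₀, y₀) := by
              by_contra h7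
              obtain ⟨t, ht1, ht2⟩ := h5
              exact huniq ((x : V), (y : V)) x.2 y.2 h7 t ht2 ht1
            have h7 := congrArg Prod.fst h6
            have h8 := congrArg Prod.snd h6
            simp only at h7 h8
            have h9 : x = ⟨x₀, hx0⟩ := Subtype.ext h7
            have h10 : y = ⟨y₀, hy0⟩ := Subtype.ext h8
            subst h9 h10
            rw [if_pos hx]
            exact Finset.mem_insert_self _ _
      · rw [evolve_inr]
        unfold infect
        split_ifs <;> simp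
  · push Not at hex
    rw [l03_run_none hex]
    have hrec : ∀ x : Λ, ∀ t ∈ Icc u v, t ∉ m ((x : V), (x : V)) := fun x =>
      hex _ (l03_mem_L.2 ⟨⟨x.2, x.2⟩, Or.inl rfl⟩)
    ext c
    rcases c with y | o
    · rw [evolve_inl]
      constructor
      · intro h2
        exact ⟨y, h2, (hconn y y).2 (Or.inl ⟨rfl, hrec y⟩)⟩
      · rintro ⟨x, hx, hc⟩
        rcases (hconn x y).1 hc with ⟨h2, h3⟩ | ⟨h2, h3, h4, h5⟩
        · have h6 : y = x := Subtype.ext h2
          rw [h6]
          exact hx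
        · exfalso
          obtain ⟨t, ht1, ht2⟩ := h5
          exact hex ((x : V), (y : V)) (l03_mem_L.2 ⟨⟨x.2, y.2⟩, Or.inr h2⟩) t ht2 ht1
    · rw [evolve_inr]

theorem l03_comp {V O : Type*} [Fintype O] (Λ : Finset V) (adj : V → V → Prop)
    {m : V × V → Set ℝ} {u v w : ℝ} (huv : u ≤ v) (hvw : v ≤ w) (σ : Finset (Λ ⊕ O)) :
    evolve Λ adj m v w (evolve Λ adj m u v σ) = evolve Λ adj m u w σ := by
  ext c
  rcases c with y | o
  · simp only [evolve_inl]
    constructor
    · rintro ⟨x, ⟨z, hz, hzx⟩, hxy⟩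
      exact ⟨z, hz, hzx.trans hxy⟩
    · rintro ⟨z, hz, hc⟩
      obtain ⟨x, h1, h2⟩ := hc.split huv hvw
      have hx : x ∈ (Λ : Set V) := h1.mem z.2
      exact ⟨⟨x, hx⟩, ⟨z, hz, h1⟩, h2⟩
  · simp only [evolve_inr]

theorem l03_evolve_self {V O : Type*} [Fintype O] (Λ : Finset V) (adj : V → V → Prop)
    {m : V × V → Set ℝ} {a : ℝ} (hm : ∀ e ∈ Λ ×ˢ Λ, ∀ t ∈ Icc a a, t ∉ m e)
    (σ : Finset (Λ ⊕ O)) : evolve Λ adj m a a σ = σ := by
  ext c
  rcases c with y | o
  · rw [evolve_inl]
    constructor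
    · rintro ⟨x, hx, hc⟩
      have h1 : Conn (adjOn (Λ : Set V) adj) (fun _ => ∅) ((x : V), a) ((y : V), a) := by
        refine (Conn.congr_marks (m := m) (m' := fun _ => ∅) (x := (x : V)) x.2 ?_).1 hc
        intro p hp q hq t ht
        constructor
        · intro h2
          exact absurd h2 (hm (p, q) (by simpa using ⟨hp, hq⟩) t ht)
        · intro h2
          exact absurd h2 (by simp)
      have h2 : Conn (adjOn (Λ : Set V) adj) (fun _ => ∅) ((x : V), a) ((y : V), a + 1) :=
        h1.trans (Conn.stay (by linarith) (by simp))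
      have h3 : OneType (Λ : Set V) (fun _ => ∅) a (a + 1) := by
        intro e e' _ _ _ _ h4
        exfalso
        obtain ⟨t, ht, _⟩ := h4
        simp at ht
      rcases (slot_conn (by linarith) h3 x.2).1 h2 with ⟨h4, _⟩ | ⟨_, _, _, h4⟩
      · have h6 : y = x := Subtype.ext h4
        rw [h6]
        exact hx
      · obtain ⟨t, ht, _⟩ := h4
        simp at ht
    · intro h
      exact ⟨y, h, Conn.refl _⟩
  · rw [evolve_inr]

/-- the configuration after `k` slots of length `h` -/
def l03_chain {V O : Type*} [DecidableEq V] [DecidableEq O] (Λ : Finset V)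
    (adj : V → V → Prop) (m : V × V → Set ℝ) (a h : ℝ) (σ : Finset (Λ ⊕ O)) :
    ℕ → Finset (Λ ⊕ O)
  | 0 => σ
  | k + 1 => l03_run m (a + k * h) (a + (k + 1) * h) (l03_T Λ) (l03_L Λ adj)
      (l03_chain Λ adj m a h σ k)

theorem l03_chain_eq {V O : Type*} [Fintype O] [DecidableEq V] [DecidableEq O] (Λ : Finset V)
    (adj : V → V → Prop) {m : V × V → Set ℝ} {a h : ℝ} (hh : 0 < h) (N : ℕ)
    (h1 : ∀ k < N, OneType (Λ : Set V) m (a + k * h) (a + (k + 1) * h)) (σ : Finset (Λ ⊕ O)) :
    ∀ k < N, l03_chain Λ adj m a h σ (k + 1) = evolve Λ adj m a (a + (k + 1) * h) σ := by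
  intro k
  induction k with
  | zero =>
    intro hk
    have h2 := h1 0 hk
    have h3 := l03_slot Λ adj (u := a + ((0 : ℕ) : ℝ) * h) (v := a + (((0 : ℕ) : ℝ) + 1) * h)
      (by push_cast; nlinarith) h2 σ
    have h4 : l03_chain Λ adj m a h σ (0 + 1) = l03_run m (a + ((0 : ℕ) : ℝ) * h)
      (a + (((0 : ℕ) : ℝ) + 1) * h) (l03_T Λ) (l03_L Λ adj) σ := rfl
    rw [h4, h3]
    simp
  | succ k ih =>
    intro hk
    have h2 := h1 (k + 1) hk
    have h3 := l03_slot Λ adj (u := a + ((k + 1 : ℕ) : ℝ) * h)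
      (v := a + (((k + 1 : ℕ) : ℝ) + 1) * h)
      (by push_cast; nlinarith) h2 (l03_chain Λ adj m a h σ (k + 1))
    have h4 : l03_chain Λ adj m a h σ (k + 1 + 1) = l03_run m (a + ((k + 1 : ℕ) : ℝ) * h)
      (a + (((k + 1 : ℕ) : ℝ) + 1) * h) (l03_T Λ) (l03_L Λ adj)
        (l03_chain Λ adj m a h σ (k + 1)) := rfl
    rw [h4, h3, ih (by omega)]
    have h5 : (a + (((k : ℕ) : ℝ) + 1) * h) = a + ((k + 1 : ℕ) : ℝ) * h := by push_cast; ring
    rw [h5, l03_comp]
    · have : 0 ≤ ((k + 1 : ℕ) : ℝ) * h := by positivity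
      linarith
    · push_cast
      nlinarith

theorem l03_chain_rp {Ω V O : Type*} [MeasurableSpace Ω] [Fintype O] [DecidableEq V]
    [DecidableEq O] {P : Measure Ω} {M : Ω → V × V → Set ℝ} {rate : V × V → ℝ}
    (hP : IsPoisson P M rate) (Λ : Finset V) (adj : V → V → Prop) {a h : ℝ} (hh : 0 < h)
    {S : Ω → Finset (Λ ⊕ O)} (hS : ∀ σ, MeasurableSet[VA M {p | p.2 ≤ a}] {ω | S ω = σ})
    (hRP : RP P S) (k : ℕ) :
    RP P (fun ω => l03_chain Λ adj (M ω) a h (S ω) k) ∧
      ∀ σ, MeasurableSet[VA M {p | p.2 ≤ a + k * h}]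
        {ω | l03_chain Λ adj (M ω) a h (S ω) k = σ} := by
  induction k with
  | zero =>
    refine ⟨hRP, fun σ => ?_⟩
    refine VA_mono ?_ _ (hS σ)
    intro p hp
    have : p.2 ≤ a := hp
    simpa using this
  | succ k ih =>
    obtain ⟨h1, h2⟩ := ih
    have hstep := l03_run_rp hP (u := a + k * h) (v := a + (k + 1) * h)
      (T := l03_T (O := O) Λ) (l03_L Λ adj) (by
        intro e he
        have hmem := l03_mem_L.1 he
        by_cases hxy : e.1 = e.2
        · right
          refine ⟨Sum.inl ⟨e.1, hmem.1.1⟩, ?_⟩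
          funext σ
          unfold l03_T
          rw [dif_pos hmem.1, if_pos hxy]
        · left
          refine ⟨Sum.inl ⟨e.1, hmem.1.1⟩, Sum.inl ⟨e.2, hmem.1.2⟩, ?_, ?_⟩
          · intro h3
            apply hxy
            have h4 := Sum.inl.inj h3
            exact congrArg Subtype.val h4
          · funext σ
            unfold l03_T
            rw [dif_pos hmem.1, if_neg hxy]) (l03_L_nodup Λ adj) h2 h1 (by
        intro e _
        refine measure_mono_null (t := {a + k * h}) ?_ (by simp)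
        intro t ht
        have h3 : t ≤ a + k * h := ht.1
        have h4 : a + k * h ≤ t := ht.2.1
        exact le_antisymm h3 h4)
    refine ⟨hstep.1, fun σ => ?_⟩
    refine VA_mono ?_ _ (hstep.2 σ)
    rintro ⟨e, t⟩ hp
    show t ≤ a + ((k + 1 : ℕ) : ℝ) * h
    rcases hp with hp | hp
    · have h3 : t ≤ a + k * h := hp
      push_cast
      nlinarith
    · have h3 : t ≤ a + (k + 1) * h := hp.2.2
      push_cast
      exact h3

theorem l03_evolve_meas {Ω V O : Type*} [MeasurableSpace Ω] [Fintype O] [DecidableEq V]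
    [DecidableEq O] {P : Measure Ω} {M : Ω → V × V → Set ℝ} {rate : V × V → ℝ}
    (hP : IsPoisson P M rate) (Λ : Finset V) (adj : V → V → Prop) {a b : ℝ} (hab : a ≤ b)
    {S : Ω → Finset (Λ ⊕ O)} (hS : ∀ σ, MeasurableSet[VA M {p | p.2 ≤ a}] {ω | S ω = σ})
    (σ : Finset (Λ ⊕ O)) :
    MeasurableSet[VA M {p | p.2 ≤ b}] {ω | evolve Λ adj (M ω) a b (S ω) = σ} := by
  have hle : VA M {p : (V × V) × ℝ | p.2 ≤ a} ≤ VA M {p | p.2 ≤ b} :=
    VA_mono fun p hp => le_trans hp hab
  have hS' : ∀ c, MeasurableSet[VA M {p : (V × V) × ℝ | p.2 ≤ b}] {ω | c ∈ S ω} := fun c =>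
    hle _ (l03_meas hS (fun τ => c ∈ τ))
  refine l03_meas_iff (fun c => ?_) σ
  rcases c with y | o
  · have : {ω | Sum.inl y ∈ evolve Λ adj (M ω) a b (S ω)} = ⋃ x : Λ, ({ω | Sum.inl x ∈ S ω} ∩
        {ω | Conn (adjOn (Λ : Set V) adj) (M ω) ((x : V), a) ((y : V), b)}) := by
      ext ω
      simp only [mem_ofPred_eq, evolve_inl, mem_iUnion, mem_inter_iff]
    rw [this]
    refine MeasurableSet.iUnion fun x => MeasurableSet.inter (hS' _) ?_
    have hvm : VMeas {p : (V × V) × ℝ | p.2 ≤ b}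
        (fun m => Conn (adjOn (Λ : Set V) adj) m ((x : V), a) ((y : V), b)) :=
      VMeas.mono (fun p hp => hp.2.2.2) (conn_vmeas_fin adj Λ x.2 y a b)
    exact hvm.measurableSet (fun ω => hP.good ω)
  · have : {ω | Sum.inr o ∈ evolve Λ adj (M ω) a b (S ω)} = {ω | Sum.inr o ∈ S ω} := by
      ext ω
      simp only [mem_ofPred_eq, evolve_inr]
    rw [this]
    exact hS' _

theorem rp_evolve {Ω V O : Type*} [MeasurableSpace Ω] [Fintype O] [DecidableEq V] [DecidableEq O]
    {P : Measure Ω} {M : Ω → V × V → Set ℝ} {lam : ℝ} (hlam : 0 ≤ lam)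
    (hP : IsPoisson P M (cRate lam)) (Λ : Finset V) (adj : V → V → Prop) {a b : ℝ} (hab : a ≤ b)
    {S : Ω → Finset (Λ ⊕ O)} (hS : ∀ σ, MeasurableSet[VA M {p | p.2 ≤ a}] {ω | S ω = σ})
    (h : RP P S) :
    RP P (fun ω => evolve Λ adj (M ω) a b (S ω)) ∧
      ∀ σ, MeasurableSet[VA M {p | p.2 ≤ b}] {ω | evolve Λ adj (M ω) a b (S ω) = σ} := by
  have hprob := hP.prob
  refine ⟨?_, l03_evolve_meas hP Λ adj hab hS⟩
  rcases eq_or_lt_of_le hab with hab' | hab'
  · subst hab'
    refine rp_congr_ae h ?_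
    have hnull : ∀ e : V × V, ∀ᵐ ω ∂P, ∀ t ∈ Icc a a, t ∉ M ω e := by
      intro e
      have h1 : P.real (voidEv M e a a) = 1 := by
        rw [hP.void1 e a a le_rfl]
        simp
      have h2 : P (voidEv M e a a)ᶜ = 0 := by
        rw [prob_compl_eq_zero_iff (hP.meas e a a)]
        have h3 : P (voidEv M e a a) = ENNReal.ofReal (P.real (voidEv M e a a)) := by
          simp [Measure.real]
        rw [h3, h1]
        simp
      exact h2
    have hall : ∀ᵐ ω ∂P, ∀ e ∈ Λ ×ˢ Λ, ∀ t ∈ Icc a a, t ∉ M ω e := by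
      rw [Filter.eventually_all_finset]
      intro e _
      exact hnull e
    filter_upwards [hall] with ω hω
    exact (l03_evolve_self Λ adj hω (S ω)).symm
  · have hN : ∀ n : ℕ, 0 < (b - a) / ((n + 1 : ℕ) : ℝ) := fun n => by
      apply div_pos
      · linarith
      · positivity
    refine rp_of_close
      (S := fun n ω => l03_chain Λ adj (M ω) a ((b - a) / ((n + 1 : ℕ) : ℝ)) (S ω) (n + 1))
      (fun n => (l03_chain_rp hP Λ adj (hN n) hS h (n + 1)).1)
      (fun n σ => hP.VA_le _ _ ((l03_chain_rp hP Λ adj (hN n) hS h (n + 1)).2 σ))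
      (fun σ => hP.VA_le _ _ (l03_evolve_meas hP Λ adj hab hS σ)) ?_
    have hmeasS : ∀ n, MeasurableSet {ω |
        l03_chain Λ adj (M ω) a ((b - a) / ((n + 1 : ℕ) : ℝ)) (S ω) (n + 1) ≠
          evolve Λ adj (M ω) a b (S ω)} := by
      intro n
      have h1 : {ω | l03_chain Λ adj (M ω) a ((b - a) / ((n + 1 : ℕ) : ℝ)) (S ω) (n + 1) ≠
          evolve Λ adj (M ω) a b (S ω)} = ⋃ σ : Finset (Λ ⊕ O),
          ({ω | l03_chain Λ adj (M ω) a ((b - a) / ((n + 1 : ℕ) : ℝ)) (S ω) (n + 1) = σ} ∩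
            {ω | evolve Λ adj (M ω) a b (S ω) = σ}ᶜ) := by
        ext ω
        simp only [mem_ofPred_eq, mem_iUnion, mem_inter_iff, mem_compl_iff, ne_eq]
        constructor
        · intro h2
          exact ⟨_, rfl, fun h3 => h2 h3.symm⟩
        · rintro ⟨σ, h2, h3⟩ h4
          exact h3 (h4 ▸ h2)
      rw [h1]
      refine MeasurableSet.iUnion fun σ => MeasurableSet.inter ?_ (MeasurableSet.compl ?_)
      · exact hP.VA_le _ _ ((l03_chain_rp hP Λ adj (hN n) hS h (n + 1)).2 σ)
      · exact hP.VA_le _ _ (l03_evolve_meas hP Λ adj hab hS σ)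
    have hlim : Filter.Tendsto (fun n : ℕ => P {ω |
        l03_chain Λ adj (M ω) a ((b - a) / ((n + 1 : ℕ) : ℝ)) (S ω) (n + 1) ≠
          evolve Λ adj (M ω) a b (S ω)}) Filter.atTop (nhds (P (∅ : Set Ω))) := by
      refine tendsto_measure_of_tendsto_indicator_of_isFiniteMeasure Filter.atTop P hmeasS ?_
      intro ω
      obtain ⟨N₀, hN₀⟩ := exists_mesh (hP.good ω) Λ hab'
      filter_upwards [Filter.eventually_ge_atTop N₀] with n hn
      have h2 : l03_chain Λ adj (M ω) a ((b - a) / ((n + 1 : ℕ) : ℝ)) (S ω) (n + 1) =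
          evolve Λ adj (M ω) a b (S ω) := by
        rw [l03_chain_eq Λ adj (hN n) (n + 1)
          (fun k hk => hN₀ (n + 1) (by omega) (by omega) k hk) (S ω) n (by omega)]
        congr 1
        push_cast
        field_simp
        ring
      simp only [h2, ne_eq, not_true_eq_false, mem_empty_iff_false]
    have h3 : Filter.Tendsto (fun n : ℕ => (P {ω |
        l03_chain Λ adj (M ω) a ((b - a) / ((n + 1 : ℕ) : ℝ)) (S ω) (n + 1) ≠
          evolve Λ adj (M ω) a b (S ω)}).toReal) Filter.atTop (nhds (P (∅ : Set Ω)).toReal) :=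
      (ENNReal.tendsto_toReal (measure_ne_top P _)).comp hlim
    simpa [Measure.real] using h3

end CPM
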