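import Pool.Agent.Lib.MP_1a4724_pr.L03

/-!
# L04 (75 min) : finite volume, several times

`D` finite set of space-time points `p` with `p.1 ∈ Λ`, `s ≤ p.2`.  Use the coordinates
`↥Λ ⊕ ↥D`.  Start at time `s` with all of `Λ` infected and no observation coordinate (`rp_const`).
Go through the finitely many times of `D` in increasing order (induction over the sorted list of
the times, or strong induction on the number of the times of `D` above the current time): evolve to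
the next time `t` (`rp_evolve`) and then for all `p ∈ D` with `p.2 = t` copy the coordinate
`p.1` to the coordinate `p` (`rp_copy`, the coordinate `p` is still zero before).  At the end
the observation coordinate `p` is one iff `∃ y ∈ Λ, Conn (adjOn Λ adj) m (y, s) p` (by
`Conn.split`/`Conn.trans` the evolutions compose), and the inequality is `RP.ineq` for
`C, C', S₁` in the observation coordinates.
-/

noncomputable section

open MeasureTheory Set

namespace CPM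

open Classical in
/-- the configuration at time `t`, with the observation coordinates of `O'` recorded -/
def l04_cfg {V O : Type*} [Fintype O] (Λ : Finset V) (adj : V → V → Prop) (m : V × V → Set ℝ)
    (pt : O → V × ℝ) (s : ℝ) (O' : Finset O) (t : ℝ) : Finset (Λ ⊕ O) :=
  Finset.univ.filter fun c => match c with
    | Sum.inl y => ∃ x ∈ Λ, Conn (adjOn (Λ : Set V) adj) m (x, s) ((y : V), t)
    | Sum.inr o => o ∈ O' ∧ ∃ x ∈ Λ, Conn (adjOn (Λ : Set V) adj) m (x, s) (pt o)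

theorem l04_cfg_inl {V O : Type*} [Fintype O] {Λ : Finset V} {adj : V → V → Prop}
    {m : V × V → Set ℝ} {pt : O → V × ℝ} {s : ℝ} {O' : Finset O} {t : ℝ} {y : Λ} :
    Sum.inl y ∈ l04_cfg Λ adj m pt s O' t ↔
      ∃ x ∈ Λ, Conn (adjOn (Λ : Set V) adj) m (x, s) ((y : V), t) := by
  simp [l04_cfg]

theorem l04_cfg_inr {V O : Type*} [Fintype O] {Λ : Finset V} {adj : V → V → Prop}
    {m : V × V → Set ℝ} {pt : O → V × ℝ} {s : ℝ} {O' : Finset O} {t : ℝ} {o : O} :
    Sum.inr o ∈ l04_cfg Λ adj m pt s O' t ↔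
      o ∈ O' ∧ ∃ x ∈ Λ, Conn (adjOn (Λ : Set V) adj) m (x, s) (pt o) := by
  simp [l04_cfg]

theorem l04_evolve {V O : Type*} [Fintype O] {Λ : Finset V} {adj : V → V → Prop}
    {m : V × V → Set ℝ} {pt : O → V × ℝ} {s : ℝ} {O' : Finset O} {a t : ℝ} (hsa : s ≤ a)
    (hat : a ≤ t) :
    evolve Λ adj m a t (l04_cfg Λ adj m pt s O' a) = l04_cfg Λ adj m pt s O' t := by
  ext c
  rcases c with y | o
  · rw [evolve_inl, l04_cfg_inl]
    constructor
    · rintro ⟨x, hx, hc⟩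
      obtain ⟨z, hz, hzc⟩ := l04_cfg_inl.1 hx
      exact ⟨z, hz, hzc.trans hc⟩
    · rintro ⟨z, hz, hc⟩
      obtain ⟨w, h1, h2⟩ := hc.split hsa hat
      have hw : w ∈ (Λ : Set V) := h1.mem (by exact_mod_cast hz)
      exact ⟨⟨w, by exact_mod_cast hw⟩, l04_cfg_inl.2 ⟨z, hz, h1⟩, h2⟩
  · rw [evolve_inr, l04_cfg_inr, l04_cfg_inr]

theorem l04_copy {V O : Type*} [Fintype O] [DecidableEq V] [DecidableEq O] {Λ : Finset V}
    {adj : V → V → Prop}
    {m : V × V → Set ℝ} {pt : O → V × ℝ} {s : ℝ} {O' : Finset O} {o : O} (ho : o ∉ O')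
    (hΛ : (pt o).1 ∈ Λ) :
    infect (Sum.inl ⟨(pt o).1, hΛ⟩) (Sum.inr o) (l04_cfg Λ adj m pt s O' (pt o).2) =
      l04_cfg Λ adj m pt s (insert o O') (pt o).2 := by
  have hpt : (((⟨(pt o).1, hΛ⟩ : Λ) : V), (pt o).2) = pt o := rfl
  unfold infect
  split_ifs with h
  · ext c
    rcases c with y | q
    · simp only [Finset.mem_insert, reduceCtorEq, false_or]
      rw [l04_cfg_inl, l04_cfg_inl]
    · rw [Finset.mem_insert, l04_cfg_inr, l04_cfg_inr, Finset.mem_insert]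
      have h2 := l04_cfg_inl.1 h
      rw [hpt] at h2
      constructor
      · rintro (h3 | ⟨h3, h4⟩)
        · have h5 : q = o := Sum.inr_injective h3
          subst h5
          exact ⟨Or.inl rfl, h2⟩
        · exact ⟨Or.inr h3, h4⟩
      · rintro ⟨h3 | h3, h4⟩
        · left; rw [h3]
        · right; exact ⟨h3, h4⟩
  · ext c
    rcases c with y | q
    · rw [l04_cfg_inl, l04_cfg_inl]
    · rw [l04_cfg_inr, l04_cfg_inr, Finset.mem_insert]
      constructor
      · rintro ⟨h3, h4⟩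
        exact ⟨Or.inr h3, h4⟩
      · rintro ⟨h3 | h3, h4⟩
        · exfalso
          apply h
          rw [l04_cfg_inl, hpt, ← h3]
          exact h4
        · exact ⟨h3, h4⟩

theorem l04_main {Ω V O : Type*} [MeasurableSpace Ω] [Fintype O] [DecidableEq V] [DecidableEq O]
    {P : Measure Ω} {M : Ω → V × V → Set ℝ} {lam : ℝ} (hlam : 0 ≤ lam)
    (hP : IsPoisson P M (cRate lam)) (Λ : Finset V) (adj : V → V → Prop) (s : ℝ)
    (pt : O → V × ℝ) (hpt : ∀ o, (pt o).1 ∈ Λ ∧ s ≤ (pt o).2) (O' : Finset O) :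
    ∀ t : ℝ, s ≤ t → (∀ o ∈ O', (pt o).2 ≤ t) →
      RP P (fun ω => l04_cfg Λ adj (M ω) pt s O' t) ∧
        ∀ σ, MeasurableSet[VA M {p | p.2 ≤ t}] {ω | l04_cfg Λ adj (M ω) pt s O' t = σ} := by
  have hprob := hP.prob
  refine Finset.induction_on_max_value (fun o => (pt o).2) O' ?_ ?_
  · intro t hst _
    have h0 : ∀ σ, MeasurableSet[VA M {p | p.2 ≤ s}] {ω : Ω |
        (fun _ : Ω => (Finset.univ.filter (fun c : Λ ⊕ O => c.isLeft = true))) ω = σ} := by
      intro σ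
      exact MeasurableSet.const _
    have h1 := rp_evolve hlam hP Λ adj hst
      (S := fun _ => (Finset.univ.filter (fun c : Λ ⊕ O => c.isLeft = true))) h0
      (rp_const _)
    have h2 : ∀ ω, evolve Λ adj (M ω) s t (Finset.univ.filter (fun c : Λ ⊕ O => c.isLeft = true)) =
        l04_cfg Λ adj (M ω) pt s ∅ t := by
      intro ω
      ext c
      rcases c with y | o
      · rw [evolve_inl, l04_cfg_inl]
        constructor
        · rintro ⟨x, _, hc⟩
          exact ⟨x, x.2, hc⟩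
        · rintro ⟨x, hx, hc⟩
          exact ⟨⟨x, hx⟩, by simp, hc⟩
      · rw [evolve_inr, l04_cfg_inr]
        simp
    simp only [h2] at h1
    exact h1
  · intro o O' ho hmax ih t hst hle
    obtain ⟨ih1, ih2⟩ := ih (pt o).2 (hpt o).2 hmax
    have hamb : ∀ σ, MeasurableSet {ω | l04_cfg Λ adj (M ω) pt s O' (pt o).2 = σ} :=
      fun σ => hP.VA_le _ _ (ih2 σ)
    have h1 : RP P (fun ω => l04_cfg Λ adj (M ω) pt s (insert o O') (pt o).2) := by
      have := rp_copy hamb ih1 (x := Sum.inl ⟨(pt o).1, (hpt o).1⟩) (y := Sum.inr o) (by simp)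
      simp only [l04_copy ho] at this
      exact this
    have h2 : ∀ σ, MeasurableSet[VA M {p | p.2 ≤ (pt o).2}]
        {ω | l04_cfg Λ adj (M ω) pt s (insert o O') (pt o).2 = σ} := by
      intro σ
      have h3 : {ω | l04_cfg Λ adj (M ω) pt s (insert o O') (pt o).2 = σ} =
          ⋃ τ ∈ Finset.univ.filter (fun τ : Finset (Λ ⊕ O) =>
            infect (Sum.inl ⟨(pt o).1, (hpt o).1⟩) (Sum.inr o) τ = σ),
            {ω | l04_cfg Λ adj (M ω) pt s O' (pt o).2 = τ} := by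
        ext ω
        simp only [mem_setOf_eq, mem_iUnion, Finset.mem_filter, Finset.mem_univ, true_and,
          exists_prop]
        rw [← l04_copy ho (hpt o).1]
        constructor
        · intro h; exact ⟨_, h, rfl⟩
        · rintro ⟨τ, h, h'⟩; rw [h']; exact h
      rw [h3]
      exact Finset.measurableSet_biUnion _ (fun τ _ => ih2 τ)
    have h4 : (pt o).2 ≤ t := hle o (Finset.mem_insert_self _ _)
    have h5 := rp_evolve hlam hP Λ adj h4
      (S := fun ω => l04_cfg Λ adj (M ω) pt s (insert o O') (pt o).2) h2 h1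
    simp only [l04_evolve (hpt o).2 h4] at h5
    exact h5

theorem dfkg_finite {Ω V : Type*} [MeasurableSpace Ω] {P : Measure Ω}
    {M : Ω → V × V → Set ℝ} {lam : ℝ} (hlam : 0 ≤ lam) (hP : IsPoisson P M (cRate lam))
    (Λ : Finset V) (adj : V → V → Prop) (s : ℝ) (C C' S₁ : Finset (V × ℝ)) (hC : C ⊆ C')
    (hC' : ∀ p ∈ C', p.1 ∈ Λ ∧ s ≤ p.2) (hS₁ : ∀ p ∈ S₁, p.1 ∈ Λ ∧ s ≤ p.2) :
    P.real {ω | (∀ p ∈ S₁, ∃ y ∈ Λ, Conn (adjOn (Λ : Set V) adj) (M ω) (y, s) p) ∧
        ∀ p ∈ C', ¬ ∃ y ∈ Λ, Conn (adjOn (Λ : Set V) adj) (M ω) (y, s) p} *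
      P.real {ω | ∀ p ∈ C, ¬ ∃ y ∈ Λ, Conn (adjOn (Λ : Set V) adj) (M ω) (y, s) p} ≤
    P.real {ω | (∀ p ∈ S₁, ∃ y ∈ Λ, Conn (adjOn (Λ : Set V) adj) (M ω) (y, s) p) ∧
        ∀ p ∈ C, ¬ ∃ y ∈ Λ, Conn (adjOn (Λ : Set V) adj) (M ω) (y, s) p} *
      P.real {ω | ∀ p ∈ C', ¬ ∃ y ∈ Λ, Conn (adjOn (Λ : Set V) adj) (M ω) (y, s) p} := by
  classical
  set D : Finset (V × ℝ) := C' ∪ S₁ with hD
  have hDp : ∀ p ∈ D, p.1 ∈ Λ ∧ s ≤ p.2 := by
    intro p hp
    rcases Finset.mem_union.1 hp with h | h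
    · exact hC' p h
    · exact hS₁ p h
  obtain ⟨T, hT⟩ := Finset.exists_le (insert s (D.image Prod.snd))
  have hsT : s ≤ T := hT s (Finset.mem_insert_self _ _)
  have hDT : ∀ p ∈ D, p.2 ≤ T := fun p hp =>
    hT p.2 (Finset.mem_insert_of_mem (Finset.mem_image_of_mem _ hp))
  have hprob := hP.prob
  obtain ⟨hRP, hmeas⟩ := l04_main (O := D) hlam hP Λ adj s (fun o => (o : V × ℝ))
    (fun o => hDp o o.2) Finset.univ T hsT (fun o _ => hDT o o.2)
  have hmeas' : ∀ σ, MeasurableSet {ω | l04_cfg Λ adj (M ω) (fun o : D => (o : V × ℝ)) s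
      Finset.univ T = σ} := fun σ => hP.VA_le _ _ (hmeas σ)
  let up : Finset (V × ℝ) → Finset (Λ ⊕ D) := fun E =>
    (Finset.univ.filter (fun o : D => (o : V × ℝ) ∈ E)).map ⟨Sum.inr, Sum.inr_injective⟩
  have hup : ∀ (E : Finset (V × ℝ)) (c : Λ ⊕ D), c ∈ up E ↔ ∃ o : D, (o : V × ℝ) ∈ E ∧ Sum.inr o = c := by
    intro E c
    simp [up]
  have hmono : up C ⊆ up C' := by
    intro c hc
    rw [hup] at hc ⊢
    obtain ⟨o, h1, h2⟩ := hc
    exact ⟨o, hC h1, h2⟩
  have key := RP.ineq hmeas' hRP (S₁ := up S₁) hmono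
  have eS : ∀ ω, up S₁ ⊆ l04_cfg Λ adj (M ω) (fun o : D => (o : V × ℝ)) s Finset.univ T ↔
      ∀ p ∈ S₁, ∃ y ∈ Λ, Conn (adjOn (Λ : Set V) adj) (M ω) (y, s) p := by
    intro ω
    constructor
    · intro h p hp
      have hpD : p ∈ D := Finset.mem_union_right _ hp
      exact (l04_cfg_inr.1 (h ((hup _ _).2 ⟨⟨p, hpD⟩, hp, rfl⟩))).2
    · intro h c hc
      obtain ⟨o, h1, h2⟩ := (hup _ _).1 hc
      rw [← h2, l04_cfg_inr]
      exact ⟨Finset.mem_univ _, h _ h1⟩
  have eC : ∀ (E : Finset (V × ℝ)), E ⊆ D → ∀ ω,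
      Disjoint (l04_cfg Λ adj (M ω) (fun o : D => (o : V × ℝ)) s Finset.univ T) (up E) ↔
      ∀ p ∈ E, ¬ ∃ y ∈ Λ, Conn (adjOn (Λ : Set V) adj) (M ω) (y, s) p := by
    intro E hE ω
    rw [Finset.disjoint_right]
    constructor
    · intro h p hp hex
      exact h ((hup _ _).2 ⟨⟨p, hE hp⟩, hp, rfl⟩) (l04_cfg_inr.2 ⟨Finset.mem_univ _, hex⟩)
    · intro h c hc hc'
      obtain ⟨o, h1, h2⟩ := (hup _ _).1 hc
      rw [← h2, l04_cfg_inr] at hc'
      exact h _ h1 hc'.2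
  have hC'D : C' ⊆ D := Finset.subset_union_left
  simp only [eS, eC C' hC'D, eC C (hC.trans hC'D)] at key
  exact key

end CPM
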