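import Pool.Agent.Lib.MP_1a4724_pr.L04

/-!
# L05 (60 min) : infinite volume, infinite past

Let `Λ n` be an increasing sequence of finite sets exhausting the countable set `V`.  For fixed
`s` and a point `p` with `s ≤ p.2` the events
`∃ y ∈ Λ n, Conn (adjOn (Λ n) adj) (M ω) (y, s) p` increase to `∃ y, Conn adj (M ω) (y, s) p`
(`Conn.finite_support`, `Conn.mono_on`), so the indicators converge pointwise and all the
probabilities converge (finitely many points; `tendsto_measure...` or dominated convergence, or: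
the probability that one of the finitely many indicators differs tends to zero).  Apply
`dfkg_finite` for `n` large and pass to the limit.  Then let `s = - n → -∞` : for `p.2 > s` the
events `∃ y, Conn adj (M ω) (y, s) p` decrease to `etaBar` (`etaBar_iff`, `Conn.split`).
`lsm` : from `dfkg` with one point after the other, or from the finite volume inequality with
`φ = 1 - zr D` : taking `S₁ = {q}` in `dfkg` gives
`(h C' - h (C' ∪ q)) h C ≤ (h C - h (C ∪ q)) h C'`, i.e. `h (C ∪ q) h C' ≤ h (C' ∪ q) h C` for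
`C ⊆ C'`, and induction on `D` gives `h (C ∪ D) h C' ≤ h (C' ∪ D) h C`.
-/

noncomputable section

open MeasureTheory Set

namespace CPM

/-- all points of `C` are healthy in the stationary process -/
def zeroOn {V : Type*} (adj : V → V → Prop) (m : V × V → Set ℝ) (C : Finset (V × ℝ)) : Prop :=
  ∀ p ∈ C, ¬ etaBar adj m p.2 p.1

/-- all points of `C` are infected in the stationary process -/
def oneOn {V : Type*} (adj : V → V → Prop) (m : V × V → Set ℝ) (C : Finset (V × ℝ)) : Prop :=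
  ∀ p ∈ C, etaBar adj m p.2 p.1

theorem l05_event {Ω ι : Type*} [DecidableEq ι] [MeasurableSpace Ω] {P : Measure Ω} [IsProbabilityMeasure P]
    (F G : Finset ι) (a : ℕ → ι → Ω → Prop) (b : ι → Ω → Prop)
    (hm : ∀ n, ∀ p ∈ F ∪ G, MeasurableSet {ω | a n p ω})
    (hl : ∀ ω, ∀ p ∈ F ∪ G, ∀ᶠ n in Filter.atTop, (a n p ω ↔ b p ω)) :
    Filter.Tendsto (fun n => P.real {ω | (∀ p ∈ F, a n p ω) ∧ ∀ p ∈ G, ¬ a n p ω}) Filter.atTop
      (nhds (P.real {ω | (∀ p ∈ F, b p ω) ∧ ∀ p ∈ G, ¬ b p ω})) := by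
  have h1 : Filter.Tendsto (fun n => P {ω | (∀ p ∈ F, a n p ω) ∧ ∀ p ∈ G, ¬ a n p ω}) Filter.atTop
      (nhds (P {ω | (∀ p ∈ F, b p ω) ∧ ∀ p ∈ G, ¬ b p ω})) := by
    refine tendsto_measure_of_tendsto_indicator_of_isFiniteMeasure Filter.atTop P ?_ ?_
    · intro n
      have e1 : {ω | (∀ p ∈ F, a n p ω) ∧ ∀ p ∈ G, ¬ a n p ω} =
          (⋂ p ∈ F, {ω | a n p ω}) ∩ ⋂ p ∈ G, {ω | a n p ω}ᶜ := by
        ext ω
        simp only [mem_setOf_eq, mem_inter_iff, mem_iInter, mem_compl_iff]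
      rw [e1]
      exact (Finset.measurableSet_biInter _ (fun p hp => hm n p (Finset.mem_union_left _ hp))).inter
        (Finset.measurableSet_biInter _ (fun p hp => (hm n p (Finset.mem_union_right _ hp)).compl))
    · intro ω
      have h2 : ∀ᶠ n in Filter.atTop, ∀ p ∈ F ∪ G, (a n p ω ↔ b p ω) := by
        rw [Filter.eventually_all_finset]
        exact hl ω
      filter_upwards [h2] with n hn
      show ((∀ p ∈ F, a n p ω) ∧ ∀ p ∈ G, ¬ a n p ω) ↔ ((∀ p ∈ F, b p ω) ∧ ∀ p ∈ G, ¬ b p ω)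
      constructor
      · rintro ⟨h3, h4⟩
        exact ⟨fun p hp => (hn p (Finset.mem_union_left _ hp)).1 (h3 p hp),
          fun p hp h5 => h4 p hp ((hn p (Finset.mem_union_right _ hp)).2 h5)⟩
      · rintro ⟨h3, h4⟩
        exact ⟨fun p hp => (hn p (Finset.mem_union_left _ hp)).2 (h3 p hp),
          fun p hp h5 => h4 p hp ((hn p (Finset.mem_union_right _ hp)).1 h5)⟩
  exact (ENNReal.tendsto_toReal (measure_ne_top _ _)).comp h1

theorem l05_lim {Ω ι : Type*} [DecidableEq ι] [MeasurableSpace Ω] {P : Measure Ω} [IsProbabilityMeasure P]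
    (C C' S₁ : Finset ι) (hC : C ⊆ C') (a : ℕ → ι → Ω → Prop) (b : ι → Ω → Prop)
    (hm : ∀ n, ∀ p ∈ C' ∪ S₁, MeasurableSet {ω | a n p ω})
    (hl : ∀ ω, ∀ p ∈ C' ∪ S₁, ∀ᶠ n in Filter.atTop, (a n p ω ↔ b p ω))
    (hI : ∀ᶠ n in Filter.atTop,
      P.real {ω | (∀ p ∈ S₁, a n p ω) ∧ ∀ p ∈ C', ¬ a n p ω} * P.real {ω | ∀ p ∈ C, ¬ a n p ω} ≤
      P.real {ω | (∀ p ∈ S₁, a n p ω) ∧ ∀ p ∈ C, ¬ a n p ω} *
        P.real {ω | ∀ p ∈ C', ¬ a n p ω}) :
    P.real {ω | (∀ p ∈ S₁, b p ω) ∧ ∀ p ∈ C', ¬ b p ω} * P.real {ω | ∀ p ∈ C, ¬ b p ω} ≤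
      P.real {ω | (∀ p ∈ S₁, b p ω) ∧ ∀ p ∈ C, ¬ b p ω} *
        P.real {ω | ∀ p ∈ C', ¬ b p ω} := by
  have e : ∀ (F G : Finset ι), F ∪ G ⊆ C' ∪ S₁ → Filter.Tendsto
      (fun n => P.real {ω | (∀ p ∈ F, a n p ω) ∧ ∀ p ∈ G, ¬ a n p ω}) Filter.atTop
      (nhds (P.real {ω | (∀ p ∈ F, b p ω) ∧ ∀ p ∈ G, ¬ b p ω})) := fun F G h =>
    l05_event F G a b (fun n p hp => hm n p (h hp)) (fun ω p hp => hl ω p (h hp))
  have e1 := e S₁ C' (by
    intro p hp
    rcases Finset.mem_union.1 hp with h | h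
    · exact Finset.mem_union_right _ h
    · exact Finset.mem_union_left _ h)
  have e2 := e S₁ C (by
    intro p hp
    rcases Finset.mem_union.1 hp with h | h
    · exact Finset.mem_union_right _ h
    · exact Finset.mem_union_left _ (hC h))
  have e3 := e ∅ C' (by
    intro p hp
    rcases Finset.mem_union.1 hp with h | h
    · exact absurd h (Finset.notMem_empty _)
    · exact Finset.mem_union_left _ h)
  have e4 := e ∅ C (by
    intro p hp
    rcases Finset.mem_union.1 hp with h | h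
    · exact absurd h (Finset.notMem_empty _)
    · exact Finset.mem_union_left _ (hC h))
  simp only [Finset.notMem_empty, false_imp_iff, implies_true, true_and] at e3 e4
  exact le_of_tendsto_of_tendsto (e1.mul e4) (e2.mul e3) hI

theorem l05_meas {Ω V : Type*} [MeasurableSpace Ω] [Countable V] {P : Measure Ω}
    {M : Ω → V × V → Set ℝ} {lam : ℝ} (hP : IsPoisson P M (cRate lam))
    (adj : V → V → Prop) (B : Set V) {x : V} (hx : x ∈ B) (s : ℝ) (p : V × ℝ) :
    MeasurableSet {ω | Conn (adjOn B adj) (M ω) (x, s) p} :=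
  hP.VA_le _ _ ((conn_vmeas adj B hx p.1 s p.2).measurableSet (fun ω => hP.good ω))

theorem l05_inf {Ω V : Type*} [MeasurableSpace Ω] [Countable V] {P : Measure Ω}
    {M : Ω → V × V → Set ℝ} {lam : ℝ} (hlam : 0 ≤ lam) (hP : IsPoisson P M (cRate lam))
    (adj : V → V → Prop) (C C' S₁ : Finset (V × ℝ)) (hC : C ⊆ C') (s : ℝ)
    (hC' : ∀ p ∈ C', s ≤ p.2) (hS₁ : ∀ p ∈ S₁, s ≤ p.2) :
    P.real {ω | (∀ p ∈ S₁, ∃ y, Conn adj (M ω) (y, s) p) ∧
        ∀ p ∈ C', ¬ ∃ y, Conn adj (M ω) (y, s) p} *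
      P.real {ω | ∀ p ∈ C, ¬ ∃ y, Conn adj (M ω) (y, s) p} ≤
    P.real {ω | (∀ p ∈ S₁, ∃ y, Conn adj (M ω) (y, s) p) ∧
        ∀ p ∈ C, ¬ ∃ y, Conn adj (M ω) (y, s) p} *
      P.real {ω | ∀ p ∈ C', ¬ ∃ y, Conn adj (M ω) (y, s) p} := by
  classical
  have hprob := hP.prob
  obtain ⟨e, he⟩ := Countable.exists_injective_nat V
  -- finite exhausting sets
  have hfin : ∀ n, {x : V | e x < n}.Finite := by
    intro n
    refine Set.Finite.of_injOn (f := e) (t := Set.Iio n) ?_ he.injOn (Set.finite_Iio n)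
    intro x hx; exact hx
  let Λ : ℕ → Finset V := fun n => (hfin n).toFinset ∪ (C' ∪ S₁).image Prod.fst
  have hmem : ∀ n x, e x < n → x ∈ Λ n := by
    intro n x hx
    refine Finset.mem_union_left _ ?_
    rw [Set.Finite.mem_toFinset]; exact hx
  have hmemp : ∀ n, ∀ p ∈ C' ∪ S₁, p.1 ∈ Λ n := by
    intro n p hp
    exact Finset.mem_union_right _ (Finset.mem_image_of_mem _ hp)
  refine l05_lim C C' S₁ hC
    (fun n p ω => ∃ y ∈ Λ n, Conn (adjOn (Λ n : Set V) adj) (M ω) (y, s) p)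
    (fun p ω => ∃ y, Conn adj (M ω) (y, s) p) ?_ ?_ ?_
  · intro n p hp
    have e1 : {ω | ∃ y ∈ Λ n, Conn (adjOn (Λ n : Set V) adj) (M ω) (y, s) p} =
        ⋃ y ∈ Λ n, {ω | Conn (adjOn (Λ n : Set V) adj) (M ω) (y, s) p} := by
      ext ω; simp only [mem_setOf_eq, mem_iUnion, exists_prop]
    rw [e1]
    exact Finset.measurableSet_biUnion _ (fun y hy => l05_meas hP adj _ (by exact_mod_cast hy) s p)
  · intro ω p hp
    by_cases h : ∃ y, Conn adj (M ω) (y, s) p
    · obtain ⟨y, hy⟩ := h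
      obtain ⟨Λ₀, h1, h2⟩ := (show Conn adj (M ω) (y, s) (p.1, p.2) from hy).finite_support
      have hb : ∃ N, ∀ x ∈ Λ₀, e x < N := by
        obtain ⟨N, hN⟩ := Finset.exists_le (Λ₀.image e)
        exact ⟨N + 1, fun x hx => Nat.lt_succ_of_le (hN _ (Finset.mem_image_of_mem _ hx))⟩
      obtain ⟨N, hN⟩ := hb
      filter_upwards [Filter.eventually_ge_atTop N] with n hn
      have hsub : (Λ₀ : Set V) ⊆ (Λ n : Set V) := by
        intro x hx
        exact hmem n x (lt_of_lt_of_le (hN x (by exact_mod_cast hx)) hn)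
      constructor
      · intro _; exact ⟨y, hy⟩
      · intro _
        exact ⟨y, by exact_mod_cast hsub (by exact_mod_cast h1), h2.mono_on hsub⟩
    · refine Filter.Eventually.of_forall (fun n => ?_)
      constructor
      · rintro ⟨y, _, hy⟩
        exact ⟨y, hy.of_on⟩
      · intro h'; exact absurd h' h
  · refine Filter.Eventually.of_forall (fun n => ?_)
    exact dfkg_finite hlam hP (Λ n) adj s C C' S₁ hC
      (fun p hp => ⟨hmemp n p (Finset.mem_union_left _ hp), hC' p hp⟩)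
      (fun p hp => ⟨hmemp n p (Finset.mem_union_right _ hp), hS₁ p hp⟩)

theorem dfkg {Ω V : Type*} [MeasurableSpace Ω] [Countable V] {P : Measure Ω}
    {M : Ω → V × V → Set ℝ} {lam : ℝ} (hlam : 0 ≤ lam) (hP : IsPoisson P M (cRate lam))
    (adj : V → V → Prop) (C C' S₁ : Finset (V × ℝ)) (hC : C ⊆ C') :
    P.real {ω | oneOn adj (M ω) S₁ ∧ zeroOn adj (M ω) C'} * P.real {ω | zeroOn adj (M ω) C} ≤
      P.real {ω | oneOn adj (M ω) S₁ ∧ zeroOn adj (M ω) C} *
        P.real {ω | zeroOn adj (M ω) C'} := by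
  classical
  have hprob := hP.prob
  refine l05_lim C C' S₁ hC (fun n p ω => ∃ y, Conn adj (M ω) (y, -(n : ℝ)) p)
    (fun p ω => etaBar adj (M ω) p.2 p.1) ?_ ?_ ?_
  · intro n p _
    have e1 : {ω | ∃ y, Conn adj (M ω) (y, -(n : ℝ)) p} =
        ⋃ y, {ω | Conn adj (M ω) (y, -(n : ℝ)) p} := by
      ext ω; simp only [mem_setOf_eq, mem_iUnion]
    rw [e1]
    refine MeasurableSet.iUnion (fun y => ?_)
    have := l05_meas hP adj Set.univ (mem_univ y) (-(n : ℝ)) p
    simp only [conn_univ] at this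
    exact this
  · intro ω p _
    by_cases h : etaBar adj (M ω) p.2 p.1
    · obtain ⟨N, hN⟩ := exists_nat_gt (-p.2)
      filter_upwards [Filter.eventually_ge_atTop N] with n hn
      have h1 : -(n : ℝ) < p.2 := by
        have : (N : ℝ) ≤ n := by exact_mod_cast hn
        linarith
      constructor
      · intro _; exact h
      · intro _; exact h _ h1
    · have h' : ∃ s < p.2, ¬ ∃ y, Conn adj (M ω) (y, s) (p.1, p.2) := by
        unfold etaBar at h
        push Not at h
        obtain ⟨s, hs, h2⟩ := h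
        exact ⟨s, hs, fun ⟨y, hy⟩ => h2 y hy⟩
      obtain ⟨s, hs, hno⟩ := h'
      obtain ⟨N, hN⟩ := exists_nat_gt (-s)
      filter_upwards [Filter.eventually_ge_atTop N] with n hn
      have h1 : -(n : ℝ) ≤ s := by
        have : (N : ℝ) ≤ n := by exact_mod_cast hn
        linarith
      constructor
      · rintro ⟨y, hy⟩
        exfalso
        obtain ⟨z, _, hz⟩ := (show Conn adj (M ω) (y, -(n : ℝ)) (p.1, p.2) from hy).split h1 hs.le
        exact hno ⟨z, hz⟩
      · intro h3; exact absurd h3 h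
  · obtain ⟨T, hT⟩ := Finset.exists_le ((C' ∪ S₁).image (fun p => -p.2))
    obtain ⟨N, hN⟩ := exists_nat_gt T
    filter_upwards [Filter.eventually_ge_atTop N] with n hn
    have h1 : ∀ p ∈ C' ∪ S₁, -(n : ℝ) ≤ p.2 := by
      intro p hp
      have h2 := hT _ (Finset.mem_image_of_mem _ hp)
      have : (N : ℝ) ≤ n := by exact_mod_cast hn
      linarith
    exact l05_inf hlam hP adj C C' S₁ hC (-(n : ℝ))
      (fun p hp => h1 p (Finset.mem_union_left _ hp))
      (fun p hp => h1 p (Finset.mem_union_right _ hp))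

theorem l05_zero_meas {Ω V : Type*} [MeasurableSpace Ω] [Countable V] {P : Measure Ω}
    {M : Ω → V × V → Set ℝ} {lam : ℝ} (hP : IsPoisson P M (cRate lam))
    (adj : V → V → Prop) (C : Finset (V × ℝ)) : MeasurableSet {ω | zeroOn adj (M ω) C} := by
  have e1 : {ω | zeroOn adj (M ω) C} = ⋂ p ∈ C, {ω | etaBar adj (M ω) p.2 p.1}ᶜ := by
    ext ω
    simp only [mem_setOf_eq, mem_iInter, mem_compl_iff]
    rfl
  rw [e1]
  exact Finset.measurableSet_biInter _ (fun p _ =>
    (hP.VA_le _ _ ((etaBar_vmeas adj p.2 p.1).measurableSet (fun ω => hP.good ω))).compl)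

open Classical in
theorem l05_one {Ω V : Type*} [MeasurableSpace Ω] [Countable V] {P : Measure Ω}
    {M : Ω → V × V → Set ℝ} {lam : ℝ} (hP : IsPoisson P M (cRate lam))
    (adj : V → V → Prop) (C : Finset (V × ℝ)) (q : V × ℝ) :
    P.real {ω | oneOn adj (M ω) {q} ∧ zeroOn adj (M ω) C} =
      P.real {ω | zeroOn adj (M ω) C} - P.real {ω | zeroOn adj (M ω) (insert q C)} := by
  have hprob := hP.prob
  have hsub : {ω | zeroOn adj (M ω) (insert q C)} ⊆ {ω | zeroOn adj (M ω) C} := by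
    intro ω h p hp
    exact h p (Finset.mem_insert_of_mem hp)
  rw [← measureReal_diff hsub (l05_zero_meas hP adj _)]
  congr 1
  ext ω
  simp only [mem_setOf_eq, mem_diff]
  constructor
  · rintro ⟨h1, h2⟩
    exact ⟨h2, fun h3 => h3 q (Finset.mem_insert_self _ _) (h1 q (Finset.mem_singleton_self _))⟩
  · rintro ⟨h1, h2⟩
    refine ⟨?_, h1⟩
    intro p hp
    rw [Finset.mem_singleton] at hp
    subst hp
    by_contra h3
    apply h2
    intro r hr
    rcases Finset.mem_insert.1 hr with rfl | hr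
    · exact h3
    · exact h1 r hr

open Classical in
theorem lsm {Ω V : Type*} [MeasurableSpace Ω] [Countable V] {P : Measure Ω}
    {M : Ω → V × V → Set ℝ} {lam : ℝ} (hlam : 0 ≤ lam) (hP : IsPoisson P M (cRate lam))
    (adj : V → V → Prop) (C C' D : Finset (V × ℝ)) (hC : C ⊆ C') :
    P.real {ω | zeroOn adj (M ω) (C ∪ D)} * P.real {ω | zeroOn adj (M ω) C'} ≤
      P.real {ω | zeroOn adj (M ω) (C' ∪ D)} * P.real {ω | zeroOn adj (M ω) C} := by
  have hprob := hP.prob
  have step : ∀ (C C' : Finset (V × ℝ)) (q : V × ℝ), C ⊆ C' →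
      P.real {ω | zeroOn adj (M ω) (insert q C)} * P.real {ω | zeroOn adj (M ω) C'} ≤
      P.real {ω | zeroOn adj (M ω) (insert q C')} * P.real {ω | zeroOn adj (M ω) C} := by
    intro C C' q hC
    have h1 := dfkg hlam hP adj C C' {q} hC
    rw [l05_one hP, l05_one hP] at h1
    nlinarith [h1]
  induction D using Finset.induction_on with
  | empty => simp only [Finset.union_empty]; rw [mul_comm]
  | insert q D hq ih =>
    have h1 := step (C ∪ D) (C' ∪ D) q (Finset.union_subset_union_left hC)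
    rw [Finset.union_insert, Finset.union_insert]
    have hle : P.real {ω | zeroOn adj (M ω) (insert q (C ∪ D))} ≤
        P.real {ω | zeroOn adj (M ω) (C ∪ D)} :=
      measureReal_mono (fun ω h p hp => h p (Finset.mem_insert_of_mem hp))
    have n1 : 0 ≤ P.real {ω | zeroOn adj (M ω) (insert q (C ∪ D))} := measureReal_nonneg
    have n2 : 0 ≤ P.real {ω | zeroOn adj (M ω) (insert q (C' ∪ D))} := measureReal_nonneg
    have n3 : 0 ≤ P.real {ω | zeroOn adj (M ω) C} := measureReal_nonneg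
    have n4 : 0 ≤ P.real {ω | zeroOn adj (M ω) C'} := measureReal_nonneg
    have n5 : 0 ≤ P.real {ω | zeroOn adj (M ω) (C' ∪ D)} := measureReal_nonneg
    rcases n5.eq_or_lt with h0 | hpos
    · rw [← h0, zero_mul] at ih
      have h3 : P.real {ω | zeroOn adj (M ω) (insert q (C ∪ D))} *
          P.real {ω | zeroOn adj (M ω) C'} ≤ 0 :=
        (mul_le_mul_of_nonneg_right hle n4).trans ih
      exact h3.trans (mul_nonneg n2 n3)
    · refine le_of_mul_le_mul_right ?_ hpos
      calc P.real {ω | zeroOn adj (M ω) (insert q (C ∪ D))} * P.real {ω | zeroOn adj (M ω) C'} *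
            P.real {ω | zeroOn adj (M ω) (C' ∪ D)}
          = (P.real {ω | zeroOn adj (M ω) (insert q (C ∪ D))} *
            P.real {ω | zeroOn adj (M ω) (C' ∪ D)}) * P.real {ω | zeroOn adj (M ω) C'} := by ring
        _ ≤ (P.real {ω | zeroOn adj (M ω) (insert q (C' ∪ D))} *
            P.real {ω | zeroOn adj (M ω) (C ∪ D)}) * P.real {ω | zeroOn adj (M ω) C'} :=
            mul_le_mul_of_nonneg_right h1 n4
        _ = P.real {ω | zeroOn adj (M ω) (insert q (C' ∪ D))} *
            (P.real {ω | zeroOn adj (M ω) (C ∪ D)} * P.real {ω | zeroOn adj (M ω) C'}) := by ring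
        _ ≤ P.real {ω | zeroOn adj (M ω) (insert q (C' ∪ D))} *
            (P.real {ω | zeroOn adj (M ω) (C' ∪ D)} * P.real {ω | zeroOn adj (M ω) C}) :=
            mul_le_mul_of_nonneg_left ih n2
        _ = P.real {ω | zeroOn adj (M ω) (insert q (C' ∪ D))} * P.real {ω | zeroOn adj (M ω) C} *
            P.real {ω | zeroOn adj (M ω) (C' ∪ D)} := by ring

end CPM
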