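import Pool.Agent.Lib.MP_1a4724_pr.L05
import Pool.Agent.Lib.MP_1a4724_pr.P03
import Pool.Agent.Lib.MP_1a4724_pr.P04

/-!
# L06 : the emptiness function

`hstar 𝒜` = infimum of `P (zeroOn F)` over the finite `F ⊆ 𝒜` (`𝒜` a set of space-time points).
`hstar_lsm` is the passage to the limit in `lsm`, `hstar_pos` says that the windows of the
finitely many sites have a positive emptiness probability, and `release` is the release
inequality.
-/

noncomputable section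

open MeasureTheory Set

namespace CPM

variable {Ω V : Type*} [MeasurableSpace Ω] {P : Measure Ω} {M : Ω → V × V → Set ℝ} {lam : ℝ}
  {adj : V → V → Prop}

def hstar (P : Measure Ω) (M : Ω → V × V → Set ℝ) (adj : V → V → Prop) (𝒜 : Set (V × ℝ)) : ℝ :=
  ⨅ F : {F : Finset (V × ℝ) // (F : Set (V × ℝ)) ⊆ 𝒜}, P.real {ω | zeroOn adj (M ω) F.1}

theorem hstar_nonneg (𝒜 : Set (V × ℝ)) : 0 ≤ hstar P M adj 𝒜 :=
  Real.iInf_nonneg fun _ => measureReal_nonneg

instance l06_nonempty (𝒜 : Set (V × ℝ)) :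
    Nonempty {F : Finset (V × ℝ) // (F : Set (V × ℝ)) ⊆ 𝒜} := ⟨⟨∅, by simp⟩⟩

theorem l06_bdd (𝒜 : Set (V × ℝ)) :
    BddBelow (Set.range fun F : {F : Finset (V × ℝ) // (F : Set (V × ℝ)) ⊆ 𝒜} =>
      P.real {ω | zeroOn adj (M ω) F.1}) :=
  ⟨0, by rintro _ ⟨F, rfl⟩; exact measureReal_nonneg⟩

theorem hstar_le {𝒜 : Set (V × ℝ)} {F : Finset (V × ℝ)} (hF : (F : Set (V × ℝ)) ⊆ 𝒜) :
    hstar P M adj 𝒜 ≤ P.real {ω | zeroOn adj (M ω) F} :=
  ciInf_le (l06_bdd (P := P) (M := M) (adj := adj) 𝒜)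
    (⟨F, hF⟩ : {F : Finset (V × ℝ) // (F : Set (V × ℝ)) ⊆ 𝒜})

theorem l06_le_hstar {𝒜 : Set (V × ℝ)} {c : ℝ}
    (h : ∀ F : Finset (V × ℝ), (F : Set (V × ℝ)) ⊆ 𝒜 → c ≤ P.real {ω | zeroOn adj (M ω) F}) :
    c ≤ hstar P M adj 𝒜 :=
  le_ciInf fun F => h F.1 F.2

theorem hstar_anti {𝒜 𝒜' : Set (V × ℝ)} (h : 𝒜 ⊆ 𝒜') :
    hstar P M adj 𝒜' ≤ hstar P M adj 𝒜 :=
  l06_le_hstar fun _ hF => hstar_le (hF.trans h)

theorem hstar_finset [IsFiniteMeasure P] (F : Finset (V × ℝ)) :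
    hstar P M adj (F : Set (V × ℝ)) = P.real {ω | zeroOn adj (M ω) F} := by
  refine le_antisymm (hstar_le (le_refl _)) (l06_le_hstar fun F' hF' => ?_)
  refine measureReal_mono (fun ω hω p hp => hω p (hF' hp)) (measure_ne_top _ _)

theorem hstar_lsm [Countable V] (hlam : 0 ≤ lam) (hP : IsPoisson P M (cRate lam))
    {𝒜 𝒜' : Set (V × ℝ)} (𝒟 : Set (V × ℝ)) (h : 𝒜 ⊆ 𝒜') :
    hstar P M adj (𝒜 ∪ 𝒟) * hstar P M adj 𝒜' ≤ hstar P M adj (𝒜' ∪ 𝒟) * hstar P M adj 𝒜 := by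
  classical
  haveI := hP.prob
  have key : ∀ F : Finset (V × ℝ), (F : Set (V × ℝ)) ⊆ 𝒜' ∪ 𝒟 → ∀ E : Finset (V × ℝ),
      (E : Set (V × ℝ)) ⊆ 𝒜 → hstar P M adj (𝒜 ∪ 𝒟) * hstar P M adj 𝒜' ≤
        P.real {ω | zeroOn adj (M ω) F} * P.real {ω | zeroOn adj (M ω) E} := by
    intro F hF E hE
    set F' := F.filter (fun p => p ∈ 𝒜') with hF'
    set FD := F.filter (fun p => p ∉ 𝒜') with hFD
    have h1 : ((E ∪ FD : Finset (V × ℝ)) : Set (V × ℝ)) ⊆ 𝒜 ∪ 𝒟 := by
      intro p hp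
      simp only [Finset.coe_union, Set.mem_union, Finset.mem_coe, hFD, Finset.mem_filter] at hp
      rcases hp with hp | ⟨hp, hn⟩
      · exact Or.inl (hE hp)
      · rcases hF hp with hp' | hp'
        · exact absurd hp' hn
        · exact Or.inr hp'
    have h2 : ((F' ∪ E : Finset (V × ℝ)) : Set (V × ℝ)) ⊆ 𝒜' := by
      intro p hp
      simp only [Finset.coe_union, Set.mem_union, Finset.mem_coe, hF', Finset.mem_filter] at hp
      rcases hp with ⟨_, hp⟩ | hp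
      · exact hp
      · exact h (hE hp)
    have h3 := lsm hlam hP adj E (F' ∪ E) FD Finset.subset_union_right
    calc hstar P M adj (𝒜 ∪ 𝒟) * hstar P M adj 𝒜'
        ≤ P.real {ω | zeroOn adj (M ω) (E ∪ FD)} * P.real {ω | zeroOn adj (M ω) (F' ∪ E)} :=
          mul_le_mul (hstar_le h1) (hstar_le h2) (hstar_nonneg _) measureReal_nonneg
      _ ≤ P.real {ω | zeroOn adj (M ω) ((F' ∪ E) ∪ FD)} * P.real {ω | zeroOn adj (M ω) E} := h3
      _ ≤ P.real {ω | zeroOn adj (M ω) F} * P.real {ω | zeroOn adj (M ω) E} := by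
          refine mul_le_mul_of_nonneg_right ?_ measureReal_nonneg
          refine measureReal_mono (fun ω hω p hp => hω p ?_) (measure_ne_top _ _)
          simp only [hF', hFD, Finset.mem_union, Finset.mem_filter]
          by_cases hpA : p ∈ 𝒜'
          · exact Or.inl (Or.inl ⟨hp, hpA⟩)
          · exact Or.inr ⟨hp, hpA⟩
  have e1 : hstar P M adj (𝒜' ∪ 𝒟) * hstar P M adj 𝒜 =
      ⨅ E : {F : Finset (V × ℝ) // (F : Set (V × ℝ)) ⊆ 𝒜},
        hstar P M adj (𝒜' ∪ 𝒟) * P.real {ω | zeroOn adj (M ω) E.1} := by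
    conv_lhs => rw [show hstar P M adj 𝒜 = ⨅ E : {F : Finset (V × ℝ) // (F : Set (V × ℝ)) ⊆ 𝒜},
      P.real {ω | zeroOn adj (M ω) E.1} from rfl]
    exact Real.mul_iInf_of_nonneg (hstar_nonneg _) _
  rw [e1]
  refine le_ciInf fun E => ?_
  have e2 : hstar P M adj (𝒜' ∪ 𝒟) * P.real {ω | zeroOn adj (M ω) E.1} =
      ⨅ F : {F : Finset (V × ℝ) // (F : Set (V × ℝ)) ⊆ 𝒜' ∪ 𝒟},
        P.real {ω | zeroOn adj (M ω) F.1} * P.real {ω | zeroOn adj (M ω) E.1} := by
    conv_lhs => rw [show hstar P M adj (𝒜' ∪ 𝒟) =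
      ⨅ E : {F : Finset (V × ℝ) // (F : Set (V × ℝ)) ⊆ 𝒜' ∪ 𝒟},
      P.real {ω | zeroOn adj (M ω) E.1} from rfl]
    exact Real.iInf_mul_of_nonneg measureReal_nonneg _
  rw [e2]
  exact le_ciInf fun F => key F.1 F.2 E.1 E.2

theorem l06_etaBar_shiftT {m : V × V → Set ℝ} (τ t : ℝ) (x : V) :
    etaBar adj (shiftT τ m) t x ↔ etaBar adj m (τ + t) x := by
  constructor
  · intro h s hs
    obtain ⟨y, hy⟩ := h (s - τ) (by linarith)
    refine ⟨y, ?_⟩
    have := (Conn.shift (adj := adj) (m := m) (x := y) (y := x) (s := s - τ) (t := t) τ).1 hy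
    rwa [show τ + (s - τ) = s by ring] at this
  · intro h s hs
    obtain ⟨y, hy⟩ := h (τ + s) (by linarith)
    exact ⟨y, (Conn.shift (adj := adj) (m := m) (x := y) (y := x) (s := s) (t := t) τ).2 hy⟩

theorem zero_shift [Countable V] (hP : IsPoisson P M (cRate lam)) (F : Finset (V × ℝ)) (τ : ℝ) :
    P.real {ω | ∀ p ∈ F, ¬ etaBar adj (M ω) (τ + p.2) p.1} =
      P.real {ω | zeroOn adj (M ω) F} := by
  have hQ : VMeas univ (fun m : V × V → Set ℝ => ∀ p ∈ F, ¬ etaBar adj m p.2 p.1) := by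
    have h1 : VMeas univ (fun m : V × V → Set ℝ => ∀ p : F, ¬ etaBar adj m p.1.2 p.1.1) :=
      VMeas.forall fun p => ((etaBar_vmeas adj p.1.2 p.1.1).mono (Set.subset_univ _)).not
    refine h1.congr fun m _ => ?_
    exact ⟨fun h p hp => h ⟨p, hp⟩, fun h p => h p.1 p.2⟩
  have := transfer_real (hP.shiftT τ) hP hQ
  rw [show {ω | zeroOn adj (M ω) F} = {ω | ∀ p ∈ F, ¬ etaBar adj (M ω) p.2 p.1} from rfl, ← this]
  congr 1
  ext ω
  simp only [Set.mem_setOf_eq, l06_etaBar_shiftT]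

theorem l06_hstar_shift_le [Countable V] (hP : IsPoisson P M (cRate lam)) (τ : ℝ)
    {𝒜 ℬ : Set (V × ℝ)} (h : ∀ p ∈ 𝒜, (p.1, τ + p.2) ∈ ℬ) :
    hstar P M adj ℬ ≤ hstar P M adj 𝒜 := by
  classical
  refine l06_le_hstar fun F hF => ?_
  rw [← zero_shift hP F τ]
  have h1 : hstar P M adj ℬ ≤
      P.real {ω | zeroOn adj (M ω) (F.image fun p => (p.1, τ + p.2))} := by
    refine hstar_le ?_
    intro q hq
    simp only [Finset.coe_image, Set.mem_image, Finset.mem_coe] at hq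
    obtain ⟨p, hp, rfl⟩ := hq
    exact h p (hF hp)
  refine h1.trans (le_of_eq ?_)
  congr 1
  ext ω
  simp only [zeroOn, Set.mem_setOf_eq, Finset.mem_image]
  constructor
  · intro h p hp
    exact h (p.1, τ + p.2) ⟨p, hp, rfl⟩
  · rintro h _ ⟨p, hp, rfl⟩
    exact h p hp

/-- a path whose end vertex receives no arrow is a waiting path -/
theorem l06_stay {m : V × V → Set ℝ} {x : V} {s₀ t : ℝ}
    (hno : ∀ y, adj y x → y ≠ x → ∀ u ∈ Icc s₀ t, u ∉ m (y, x)) {p : V × ℝ}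
    (h : Conn adj m p (x, t)) (hp : s₀ ≤ p.2) :
    p.1 = x ∧ (p.2 = t ∨ ∀ v ∈ Icc p.2 t, v ∉ m (x, x)) := by
  unfold Conn at h
  induction h using Relation.ReflTransGen.head_induction_on with
  | refl => exact ⟨rfl, Or.inl rfl⟩
  | head hstep hrest ih =>
    cases hstep with
    | wait z a b hab hr =>
      obtain ⟨h1, h2⟩ := ih (le_trans hp hab)
      simp only at h1 h2 hp ⊢
      subst h1
      refine ⟨rfl, Or.inr ?_⟩
      intro v hv
      rcases h2 with h2 | h2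
      · subst h2
        exact hr v hv
      · by_cases hvb : v ≤ b
        · exact hr v ⟨hv.1, hvb⟩
        · exact h2 v ⟨(not_le.1 hvb).le, hv.2⟩
    | jump z w u hadj hne hu =>
      exfalso
      have hle : u ≤ t := Conn.time_le (adj := adj) (m := m) hrest
      obtain ⟨h1, h2⟩ := ih hp
      simp only at h1
      subst h1
      exact hno z hadj hne u ⟨hp, hle⟩ hu

/-- the event that every site of `s` has a recovery mark in `[a, b]` -/
def l06_rec (M : Ω → V × V → Set ℝ) (s : Finset V) (a b : ℝ) : Set Ω :=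
  {ω | ∀ x ∈ s, ω ∉ voidEv M (x, x) a b}

theorem l06_rec_meas (M : Ω → V × V → Set ℝ) (s : Finset V) (a b : ℝ) :
    MeasurableSet[VA M {p | p.1.1 = p.1.2 ∧ p.1.1 ∈ s}] (l06_rec M s a b) := by
  have : l06_rec M s a b = ⋂ x : s, (voidEv M ((x : V), (x : V)) a b)ᶜ := by
    ext ω
    simp only [l06_rec, Set.mem_setOf_eq, Set.mem_iInter, Set.mem_compl_iff]
    exact ⟨fun h x => h x.1 x.2, fun h x hx => h ⟨x, hx⟩⟩
  rw [this]
  refine MeasurableSet.iInter fun x => MeasurableSet.compl ?_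
  refine MeasurableSpace.measurableSet_generateFrom ⟨(((x : V), (x : V)), a, b), ?_, rfl⟩
  rintro ⟨e, t⟩ ⟨he, _⟩
  simp only [Set.mem_singleton_iff] at he
  subst he
  exact ⟨rfl, x.2⟩

theorem l06_rec_pos (hP : IsPoisson P M (cRate lam)) (a b : ℝ) (hab : a < b) (s : Finset V) :
    0 < P.real (l06_rec M s a b) := by
  classical
  haveI := hP.prob
  induction s using Finset.induction_on with
  | empty => simp [l06_rec]
  | insert x s hx ih =>
    have e : l06_rec M (insert x s) a b = (voidEv M (x, x) a b)ᶜ ∩ l06_rec M s a b := by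
      ext ω
      simp only [l06_rec, Set.mem_setOf_eq, Set.mem_inter_iff, Set.mem_compl_iff,
        Finset.mem_insert, forall_eq_or_imp]
    have hmeas : MeasurableSet[VA M {p : (V × V) × ℝ | p.1 = (x, x)}]
        (voidEv M (x, x) a b)ᶜ := by
      refine MeasurableSet.compl ?_
      refine MeasurableSpace.measurableSet_generateFrom ⟨((x, x), a, b), ?_, rfl⟩
      rintro ⟨e, t⟩ ⟨he, _⟩
      simpa using he
    rw [e, hP.mul {p : (V × V) × ℝ | p.1 = (x, x)} {p | p.1.1 = p.1.2 ∧ p.1.1 ∈ s} ?_ hmeas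
      (l06_rec_meas M s a b)]
    · refine mul_pos ?_ ih
      rw [probReal_compl_eq_one_sub (hP.meas _ _ _), hP.void1 _ _ _ hab.le]
      have : cRate lam (x, x) = 1 := by simp [cRate]
      rw [this]
      have : Real.exp (-(1 * (b - a))) < 1 := by
        rw [Real.exp_lt_one_iff]; linarith
      linarith
    · intro e
      have : {t : ℝ | (e, t) ∈ {p : (V × V) × ℝ | p.1 = (x, x)} ∧
          (e, t) ∈ {p : (V × V) × ℝ | p.1.1 = p.1.2 ∧ p.1.1 ∈ s}} = ∅ := by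
        ext t
        simp only [Set.mem_setOf_eq, Set.mem_empty_iff_false, iff_false, not_and]
        rintro rfl _ h
        exact hx h
      rw [this]; simp

theorem hstar_pos [Countable V] (hlam : 0 ≤ lam) (hP : IsPoisson P M (cRate lam)) (Δ : Finset V)
    (hadj : ∀ x, {y | adj y x}.Finite) (a b : ℝ) :
    0 < hstar P M adj {p | p.1 ∈ Δ ∧ a ≤ p.2 ∧ p.2 ≤ b} := by
  classical
  haveI := hP.prob
  -- the types of the arrows into the sites
  set T : Finset (V × V) := Δ.biUnion fun x => ((hadj x).toFinset.erase x).image fun y => (y, x)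
    with hT
  have hTmem : ∀ e : V × V, e ∈ T ↔ e.2 ∈ Δ ∧ adj e.1 e.2 ∧ e.1 ≠ e.2 := by
    rintro ⟨y, x⟩
    simp only [hT, Finset.mem_biUnion, Finset.mem_image, Finset.mem_erase, Set.Finite.mem_toFinset,
      Set.mem_setOf_eq, Prod.mk.injEq]
    constructor
    · rintro ⟨x', hx', y', ⟨hne, hadj'⟩, rfl, rfl⟩
      exact ⟨hx', hadj', hne⟩
    · rintro ⟨hx, hadj', hne⟩
      exact ⟨x, hx, y, ⟨hne, hadj'⟩, rfl, rfl⟩
  set A : Finset ((V × V) × ℝ × ℝ) := T.image fun e => (e, a - 1, b) with hA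
  set G1 : Set Ω := voidFam M A with hG1
  set G2 : Set Ω := l06_rec M Δ (a - 1) a with hG2
  have hG1pos : 0 < P.real G1 := by
    rw [hG1, hP.void]
    exact Real.exp_pos _
  have hG2pos : 0 < P.real G2 := l06_rec_pos hP _ _ (by linarith) Δ
  have hG1meas : MeasurableSet[VA M {p : (V × V) × ℝ | p.1.1 ≠ p.1.2}] G1 := by
    have : G1 = ⋂ e : T, voidEv M (e : V × V) (a - 1) b := by
      ext ω
      simp only [hG1, voidFam, hA, Set.mem_setOf_eq, Set.mem_iInter, voidEv, Finset.mem_image]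
      constructor
      · intro h e t ht
        exact h (e.1, a - 1, b) ⟨e.1, e.2, rfl⟩ t ht
      · rintro h _ ⟨e, he, rfl⟩ t ht
        exact h ⟨e, he⟩ t ht
    rw [this]
    refine MeasurableSet.iInter fun e => ?_
    refine MeasurableSpace.measurableSet_generateFrom ⟨((e : V × V), a - 1, b), ?_, rfl⟩
    rintro ⟨e', t⟩ ⟨he, _⟩
    simp only [Set.mem_singleton_iff] at he
    subst he
    exact ((hTmem _).1 e.2).2.2
  have hpos : 0 < P.real (G1 ∩ G2) := by
    rw [hP.mul {p : (V × V) × ℝ | p.1.1 ≠ p.1.2} {p | p.1.1 = p.1.2 ∧ p.1.1 ∈ Δ} ?_ hG1meas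
      (l06_rec_meas M Δ _ _)]
    · exact mul_pos hG1pos hG2pos
    · intro e
      have : {t : ℝ | (e, t) ∈ {p : (V × V) × ℝ | p.1.1 ≠ p.1.2} ∧
          (e, t) ∈ {p : (V × V) × ℝ | p.1.1 = p.1.2 ∧ p.1.1 ∈ Δ}} = ∅ := by
        ext t
        simp only [Set.mem_setOf_eq, Set.mem_empty_iff_false, iff_false, not_and]
        intro h h'
        exact absurd h' h
      rw [this]; simp
  refine lt_of_lt_of_le hpos (l06_le_hstar fun F hF => ?_)
  refine measureReal_mono ?_ (measure_ne_top _ _)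
  rintro ω ⟨h1, h2⟩ ⟨x, t⟩ hp heta
  obtain ⟨hx, hat, htb⟩ := hF hp
  simp only at hx hat htb heta
  obtain ⟨y, hy⟩ := heta (a - 1) (by linarith)
  have hno : ∀ y, adj y x → y ≠ x → ∀ u ∈ Icc (a - 1) t, u ∉ M ω (y, x) := by
    intro y hyx hne u hu
    have hmem : (((y, x) : V × V), a - 1, b) ∈ A := by
      simp only [hA, Finset.mem_image]
      exact ⟨(y, x), (hTmem _).2 ⟨hx, hyx, hne⟩, rfl⟩
    exact h1 _ hmem u ⟨hu.1, hu.2.trans htb⟩
  obtain ⟨h3, h4⟩ := l06_stay hno hy (le_refl _)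
  simp only at h3 h4
  rcases h4 with h4 | h4
  · linarith
  · exact h2 x hx (fun v hv => h4 v ⟨hv.1, hv.2.trans hat⟩)

/-- a supermultiplicative type sequence with exponential decay has all ratios at most the
rate of decay -/
theorem l06_ratio {a : ℕ → ℝ} (hpos : ∀ k, 0 < a k) (hsq : ∀ k, a (k + 1) ^ 2 ≤ a (k + 2) * a k)
    {C κ : ℝ} (hdec : ∀ k : ℕ, a k ≤ C * Real.exp (-κ * k)) (k : ℕ) :
    a (k + 1) ≤ Real.exp (-κ) * a k := by
  by_contra hlt
  rw [not_le] at hlt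
  set r : ℝ := a (k + 1) / a k with hr
  have hr1 : Real.exp (-κ) < r := by
    rw [hr, lt_div_iff₀ (hpos k)]; exact hlt
  have hrpos : 0 < r := lt_trans (Real.exp_pos _) hr1
  have hrat : ∀ n, r * a (k + n) ≤ a (k + n + 1) := by
    intro n
    induction n with
    | zero =>
      rw [hr, add_zero, div_mul_cancel₀ _ (hpos k).ne']
    | succ n ih =>
      have h1 := hsq (k + n)
      have h2 : r * a (k + n) * a (k + n + 1) ≤ a (k + n + 1) ^ 2 := by
        rw [sq]; exact mul_le_mul_of_nonneg_right ih (hpos _).le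
      have h3 : a (k + n) * (r * a (k + n + 1)) ≤ a (k + n) * a (k + n + 2) := by
        nlinarith [h1, h2]
      have h4 := le_of_mul_le_mul_left h3 (hpos _)
      exact h4
  have hpow : ∀ n, r ^ n * a k ≤ a (k + n) := by
    intro n
    induction n with
    | zero => simp
    | succ n ih =>
      calc r ^ (n + 1) * a k = r * (r ^ n * a k) := by ring
        _ ≤ r * a (k + n) := mul_le_mul_of_nonneg_left ih hrpos.le
        _ ≤ a (k + n + 1) := hrat n
  have hq1 : 1 < r * Real.exp κ := by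
    have : Real.exp (-κ) * Real.exp κ = 1 := by rw [← Real.exp_add]; simp
    nlinarith [Real.exp_pos κ]
  obtain ⟨n, hn⟩ := pow_unbounded_of_one_lt (C * Real.exp (-κ * k) / a k) hq1
  have h5 : (r * Real.exp κ) ^ n * a k ≤ C * Real.exp (-κ * k) := by
    have h6 := (hpow n).trans (hdec (k + n))
    have h7 : Real.exp (-κ * ((k + n : ℕ) : ℝ)) = Real.exp (-κ * k) * Real.exp (-κ * n) := by
      rw [← Real.exp_add]; congr 1; push_cast; ring
    rw [h7] at h6
    have h8 : Real.exp κ ^ n * Real.exp (-κ * n) = 1 := by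
      rw [← Real.exp_nat_mul, ← Real.exp_add]
      have : (n : ℝ) * κ + -κ * n = 0 := by ring
      rw [this, Real.exp_zero]
    have h9 : 0 < Real.exp κ ^ n := pow_pos (Real.exp_pos _) _
    calc (r * Real.exp κ) ^ n * a k = (r ^ n * a k) * Real.exp κ ^ n := by rw [mul_pow]; ring
      _ ≤ (C * (Real.exp (-κ * k) * Real.exp (-κ * n))) * Real.exp κ ^ n :=
          mul_le_mul_of_nonneg_right h6 h9.le
      _ = C * Real.exp (-κ * k) * (Real.exp κ ^ n * Real.exp (-κ * n)) := by ring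
      _ = C * Real.exp (-κ * k) := by rw [h8, mul_one]
  rw [div_lt_iff₀ (hpos k)] at hn
  linarith

/-- the window `Δ × [u, v)` -/
def l06_win (Δ : Finset V) (u v : ℝ) : Set (V × ℝ) := {p | p.1 ∈ Δ ∧ u ≤ p.2 ∧ p.2 < v}

theorem l06_win_shift [Countable V] (hP : IsPoisson P M (cRate lam)) (Δ : Finset V) (τ u v : ℝ) :
    hstar P M adj (l06_win Δ (τ + u) (τ + v)) = hstar P M adj (l06_win Δ u v) := by
  apply le_antisymm
  · refine l06_hstar_shift_le hP τ ?_
    rintro p ⟨h1, h2, h3⟩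
    exact ⟨h1, by simp only; linarith, by simp only; linarith⟩
  · refine l06_hstar_shift_le hP (-τ) ?_
    rintro p ⟨h1, h2, h3⟩
    exact ⟨h1, by simp only; linarith, by simp only; linarith⟩

theorem l06_win_union (Δ : Finset V) {u v w : ℝ} (h1 : u ≤ v) (h2 : v ≤ w) :
    l06_win Δ u v ∪ l06_win Δ v w = l06_win Δ u w := by
  ext p
  simp only [l06_win, Set.mem_union, Set.mem_setOf_eq]
  constructor
  · rintro (⟨a, b, c⟩ | ⟨a, b, c⟩)
    · exact ⟨a, b, by linarith⟩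
    · exact ⟨a, by linarith, c⟩
  · rintro ⟨a, b, c⟩
    by_cases h : p.2 < v
    · exact Or.inl ⟨a, b, h⟩
    · exact Or.inr ⟨a, not_lt.1 h, c⟩

theorem l06_win_pos [Countable V] (hlam : 0 ≤ lam) (hP : IsPoisson P M (cRate lam))
    (Δ : Finset V) (hadj : ∀ x, {y | adj y x}.Finite) (u v : ℝ) :
    0 < hstar P M adj (l06_win Δ u v) :=
  lt_of_lt_of_le (hstar_pos hlam hP Δ hadj u v)
    (hstar_anti fun _ hp => ⟨hp.1, hp.2.1, hp.2.2.le⟩)

theorem l06_step [Countable V] (hlam : 0 ≤ lam) (hP : IsPoisson P M (cRate lam)) (Δ : Finset V)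
    (hadj : ∀ x, {y | adj y x}.Finite) {x : V} (hx : x ∈ Δ) {C κ : ℝ}
    (hdecay : ∀ N : ℕ, P.real {ω | ∀ j : ℕ, j < N → ¬ etaBar adj (M ω) (-((j : ℝ) + 1)) x} ≤
      C * Real.exp (-κ * N)) (k : ℕ) :
    hstar P M adj (l06_win Δ 0 ((k : ℝ) + 1)) ≤
      Real.exp (-κ) * hstar P M adj (l06_win Δ 0 (k : ℝ)) := by
  classical
  haveI := hP.prob
  have key := l06_ratio (a := fun k : ℕ => hstar P M adj (l06_win Δ 0 (k : ℝ))) (C := C) (κ := κ)
    (fun k => l06_win_pos hlam hP Δ hadj _ _) ?_ ?_ k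
  · have h := key
    simp only [Nat.cast_add, Nat.cast_one] at h
    exact h
  · intro k
    have h1 := hstar_lsm (adj := adj) hlam hP (𝒜 := l06_win Δ 1 ((k : ℝ) + 1))
      (𝒜' := l06_win Δ 0 ((k : ℝ) + 1)) (l06_win Δ ((k : ℝ) + 1) ((k : ℝ) + 2))
      (fun p hp => ⟨hp.1, by linarith [hp.2.1], hp.2.2⟩)
    have hk : (0 : ℝ) ≤ k := Nat.cast_nonneg k
    rw [l06_win_union Δ (by linarith) (by linarith), l06_win_union Δ (by linarith) (by linarith)]
      at h1
    have e1 : hstar P M adj (l06_win Δ 1 ((k : ℝ) + 2)) =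
        hstar P M adj (l06_win Δ 0 ((k : ℝ) + 1)) := by
      have := l06_win_shift (adj := adj) hP Δ 1 0 ((k : ℝ) + 1)
      rw [show (1 : ℝ) + 0 = 1 by ring, show (1 : ℝ) + ((k : ℝ) + 1) = k + 2 by ring] at this
      exact this
    have e2 : hstar P M adj (l06_win Δ 1 ((k : ℝ) + 1)) =
        hstar P M adj (l06_win Δ 0 (k : ℝ)) := by
      have := l06_win_shift (adj := adj) hP Δ 1 0 (k : ℝ)
      rw [show (1 : ℝ) + 0 = 1 by ring, show (1 : ℝ) + (k : ℝ) = k + 1 by ring] at this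
      exact this
    rw [e1, e2] at h1
    simp only [Nat.cast_add, Nat.cast_one, Nat.cast_ofNat]
    rw [sq]
    exact h1
  · intro N
    have e1 := l06_win_shift (adj := adj) hP Δ (-(N : ℝ)) 0 (N : ℝ)
    rw [show -(N : ℝ) + 0 = -N by ring, show -(N : ℝ) + N = 0 by ring] at e1
    rw [← e1]
    refine le_trans ?_ (hdecay N)
    set F : Finset (V × ℝ) := (Finset.range N).image fun j : ℕ => (x, -((j : ℝ) + 1)) with hF
    have hsub : (F : Set (V × ℝ)) ⊆ l06_win Δ (-(N : ℝ)) 0 := by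
      intro p hp
      simp only [hF, Finset.coe_image, Set.mem_image, Finset.mem_coe, Finset.mem_range] at hp
      obtain ⟨j, hj, rfl⟩ := hp
      have : ((j : ℝ) + 1) ≤ N := by exact_mod_cast hj
      have hj0 : (0 : ℝ) ≤ j := Nat.cast_nonneg j
      exact ⟨hx, by simp only; linarith, by simp only; linarith⟩
    refine (hstar_le hsub).trans ?_
    refine measureReal_mono ?_ (measure_ne_top _ _)
    intro ω hω j hj
    have := hω (x, -((j : ℝ) + 1)) (by
      simp only [hF, Finset.mem_image, Finset.mem_range]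
      exact ⟨j, hj, rfl⟩)
    exact this

/-- main result of the module -/
theorem release [Countable V] (hlam : 0 ≤ lam) (hP : IsPoisson P M (cRate lam)) (Δ : Finset V)
    (hadj : ∀ x, {y | adj y x}.Finite) {x : V} (hx : x ∈ Δ) {C κ : ℝ}
    (hdecay : ∀ N : ℕ, P.real {ω | ∀ j : ℕ, j < N → ¬ etaBar adj (M ω) (-((j : ℝ) + 1)) x} ≤
      C * Real.exp (-κ * N))
    (S : Finset (V × ℝ)) (hS : ∀ p ∈ S, p.1 ∈ Δ ∧ p.2 < 0) :
    hstar P M adj ((S : Set (V × ℝ)) ∪ {p | p.1 ∈ Δ ∧ 0 ≤ p.2 ∧ p.2 < 1}) ≤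
      Real.exp (-κ) * P.real {ω | zeroOn adj (M ω) S} := by
  classical
  haveI := hP.prob
  -- a window that contains `S`
  obtain ⟨k, hk⟩ : ∃ k : ℕ, ∀ p ∈ S, -(k : ℝ) ≤ p.2 := by
    obtain ⟨k, hk⟩ := exists_nat_ge (∑ p ∈ S, |p.2|)
    refine ⟨k, fun p hp => ?_⟩
    have h1 : |p.2| ≤ ∑ p ∈ S, |p.2| :=
      Finset.single_le_sum (f := fun p : V × ℝ => |p.2|) (fun _ _ => abs_nonneg _) hp
    have h2 := neg_abs_le p.2
    linarith
  have hsub : (S : Set (V × ℝ)) ⊆ l06_win Δ (-(k : ℝ)) 0 := fun p hp =>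
    ⟨(hS p hp).1, hk p hp, (hS p hp).2⟩
  have h1 := hstar_lsm (adj := adj) hlam hP (l06_win Δ 0 1) hsub
  have hk0 : (0 : ℝ) ≤ k := Nat.cast_nonneg k
  rw [l06_win_union Δ (by linarith) (by linarith), hstar_finset] at h1
  have e1 := l06_win_shift (adj := adj) hP Δ (-(k : ℝ)) 0 (k : ℝ)
  rw [show -(k : ℝ) + 0 = -k by ring, show -(k : ℝ) + k = 0 by ring] at e1
  have e2 := l06_win_shift (adj := adj) hP Δ (-(k : ℝ)) 0 ((k : ℝ) + 1)
  rw [show -(k : ℝ) + 0 = -k by ring, show -(k : ℝ) + (k + 1) = 1 by ring] at e2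
  rw [e1, e2] at h1
  have h2 := l06_step (adj := adj) hlam hP Δ hadj hx hdecay k
  have hpos := l06_win_pos (adj := adj) hlam hP Δ hadj 0 (k : ℝ)
  have hnn : 0 ≤ P.real {ω | zeroOn adj (M ω) S} := measureReal_nonneg
  have h3 : hstar P M adj ((S : Set (V × ℝ)) ∪ l06_win Δ 0 1) *
      hstar P M adj (l06_win Δ 0 (k : ℝ)) ≤
      (Real.exp (-κ) * P.real {ω | zeroOn adj (M ω) S}) *
        hstar P M adj (l06_win Δ 0 (k : ℝ)) := by
    calc _ ≤ _ := h1
      _ ≤ (Real.exp (-κ) * hstar P M adj (l06_win Δ 0 (k : ℝ))) *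
          P.real {ω | zeroOn adj (M ω) S} := mul_le_mul_of_nonneg_right h2 hnn
      _ = _ := by ring
  exact le_of_mul_le_mul_right h3 hpos

end CPM
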