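import Pool.Agent.Lib.MP_1a4724_pr.L06

/-!
# L07 (75 min) : from a continuous window to the time `1`; patterns

`rho κ = exp (-1) * (1 - exp (-κ))`.
`persist` : let `S ⊆ Δ × (-∞, 0)` and `F ⊆ Δ × [0, 1)` be finite, order the elements
`(x₁, t₁), (x₂, t₂), ...` of `F` with `t₁ ≤ t₂ ≤ ...`.  The events
`E i = {zeroOn S, (x_j, t_j) healthy for j < i, (x_i, t_i) infected}` are disjoint, their union is
`{zeroOn S} \ {zeroOn (S ∪ F)}`, `E i` is measurable for the marks at times `≤ t_i`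
(`etaBar_vmeas`), and if `x_i` has no recovery mark in `[t_i, 1]` then it is infected at time `1`.
By independence (`IsPoisson.mul`, regions `time ≤ t_i` and `{(x_i, x_i)} × [t_i, 1]`)
`P (zeroOn S, some point of Δ × {1} infected) ≥ Σ_i exp (-(1 - t_i)) P (E i)
 ≥ exp (-1) (h S - h (S ∪ F))`.  Let `F` vary : with `release`,
`P (zeroOn S, Δ × {1} not healthy) ≥ exp (-1) (1 - exp (-κ)) h S`.
`pattern` : `dfkg` with `C = S₀`, `C' = S₀ ∪ Z`, `Z = Δ × {1}`: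
`P (ones S₁, zero S₀ ∪ Z) h S₀ ≤ P (ones S₁, zero S₀) h (S₀ ∪ Z)`; `lsm` with `C = S₀`,
`C' = S₀ ∪ S₁`, `D = Z` : `h (S₀ ∪ Z) h (S₀ ∪ S₁) ≤ h (S₀ ∪ S₁ ∪ Z) h S₀`; the first part for
`S = S₀ ∪ S₁` : `h (S ∪ Z) ≤ (1 - rho) h S`.  Multiply and cancel `h S₀, h S > 0`
(`hstar_pos`, `hstar_le`).
-/

noncomputable section

open MeasureTheory Set

namespace CPM

variable {Ω V : Type*} [MeasurableSpace Ω] {P : Measure Ω} {M : Ω → V × V → Set ℝ} {lam : ℝ}
  {adj : V → V → Prop}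

def rho (κ : ℝ) : ℝ := Real.exp (-1) * (1 - Real.exp (-κ))

theorem l07_etaBar_meas [Countable V] (hM : ∀ ω, Good (M ω)) {t T : ℝ} (htT : t ≤ T) (x : V) :
    MeasurableSet[VA M {p | p.2 ≤ T}] {ω | etaBar adj (M ω) t x} := by
  have h1 : VMeas {p : (V × V) × ℝ | p.2 ≤ T} (fun m => etaBar adj m t x) :=
    (etaBar_vmeas adj t x).mono (fun p (hp : p.2 ≤ t) => hp.trans htT)
  exact h1.measurableSet hM

theorem l07_zeroOn_meas [Countable V] (hM : ∀ ω, Good (M ω)) (F : Finset (V × ℝ)) {T : ℝ}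
    (hF : ∀ p ∈ F, p.2 ≤ T) :
    MeasurableSet[VA M {p | p.2 ≤ T}] {ω | zeroOn adj (M ω) F} := by
  have h1 : {ω | zeroOn adj (M ω) F} = ⋂ p ∈ F, {ω | etaBar adj (M ω) p.2 p.1}ᶜ := by
    ext ω
    simp [zeroOn]
  rw [h1]
  refine @Finset.measurableSet_biInter _ _ (VA M {p | p.2 ≤ T}) _ F (fun p hp => ?_)
  exact @MeasurableSet.compl _ _ (VA M {p | p.2 ≤ T}) (l07_etaBar_meas hM (hF p hp) p.1)

theorem l07_zeroOn_measurable [Countable V] (hP : IsPoisson P M (cRate lam)) (F : Finset (V × ℝ)) :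
    MeasurableSet {ω | zeroOn adj (M ω) F} := by
  obtain ⟨T, hT⟩ : ∃ T : ℝ, ∀ p ∈ F, p.2 ≤ T := by
    obtain ⟨T, hT⟩ := (F.image Prod.snd).finite_toSet.bddAbove
    exact ⟨T, fun p hp => hT (by simpa using ⟨p.1, hp⟩)⟩
  exact hP.VA_le _ _ (l07_zeroOn_meas hP.good F hT)

theorem l07_etaBar_measurable [Countable V] (hP : IsPoisson P M (cRate lam)) (t : ℝ) (x : V) :
    MeasurableSet {ω | etaBar adj (M ω) t x} :=
  hP.VA_le _ _ (l07_etaBar_meas hP.good le_rfl x)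

/-- the last infected point of a finite set is still infected at time one with probability at
least `exp (-1)` -/
theorem l07_step [Countable V] (hP : IsPoisson P M (cRate lam)) (Δ : Finset V)
    (S : Finset (V × ℝ)) (hS : ∀ p ∈ S, p.1 ∈ Δ ∧ p.2 < 0) (F : Finset (V × ℝ))
    (hF : ∀ p ∈ F, p.1 ∈ Δ ∧ 0 ≤ p.2 ∧ p.2 < 1) :
    Real.exp (-1) * P.real {ω | zeroOn adj (M ω) S ∧ ¬ zeroOn adj (M ω) F} ≤
      P.real {ω | (zeroOn adj (M ω) S ∧ ¬ zeroOn adj (M ω) F) ∧ ∃ x ∈ Δ, etaBar adj (M ω) 1 x} := by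
  classical
  have := hP.prob
  revert hF
  refine Finset.induction_on_max_value (fun p : V × ℝ => p.2) F ?_ ?_
  · intro _
    have : {ω | zeroOn adj (M ω) S ∧ ¬ zeroOn adj (M ω) (∅ : Finset (V × ℝ))} = ∅ := by
      ext ω
      simp [zeroOn]
    rw [this]
    simp
  · intro a F haF hmax ih hF
    have hFF : ∀ p ∈ F, p.1 ∈ Δ ∧ 0 ≤ p.2 ∧ p.2 < 1 := fun p hp => hF p (Finset.mem_insert_of_mem hp)
    have ha := hF a (Finset.mem_insert_self _ _)
    have ih := ih hFF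
    set W : Set Ω := {ω | ∃ x ∈ Δ, etaBar adj (M ω) 1 x} with hW
    set A : Set Ω := {ω | zeroOn adj (M ω) S ∧ ¬ zeroOn adj (M ω) F} with hA
    set E : Set Ω := {ω | zeroOn adj (M ω) (S ∪ F)} ∩ {ω | etaBar adj (M ω) a.2 a.1} with hE
    have hzi : ∀ ω, zeroOn adj (M ω) (insert a F) ↔
        (¬ etaBar adj (M ω) a.2 a.1 ∧ zeroOn adj (M ω) F) := by
      intro ω
      simp [zeroOn]
    have hzu : ∀ ω, zeroOn adj (M ω) (S ∪ F) ↔ (zeroOn adj (M ω) S ∧ zeroOn adj (M ω) F) := by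
      intro ω
      simp only [zeroOn, Finset.mem_union]
      constructor
      · intro h
        exact ⟨fun p hp => h p (Or.inl hp), fun p hp => h p (Or.inr hp)⟩
      · rintro ⟨h1, h2⟩ p (hp | hp)
        · exact h1 p hp
        · exact h2 p hp
    have hdec : {ω | zeroOn adj (M ω) S ∧ ¬ zeroOn adj (M ω) (insert a F)} = A ∪ E := by
      ext ω
      simp only [hA, hE, mem_ofPred_eq, mem_union, mem_inter_iff, hzi, hzu]
      tauto
    have hdec2 : {ω | (zeroOn adj (M ω) S ∧ ¬ zeroOn adj (M ω) (insert a F)) ∧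
        ∃ x ∈ Δ, etaBar adj (M ω) 1 x} = (A ∩ W) ∪ (E ∩ W) := by
      have : {ω | (zeroOn adj (M ω) S ∧ ¬ zeroOn adj (M ω) (insert a F)) ∧
        ∃ x ∈ Δ, etaBar adj (M ω) 1 x} =
          {ω | zeroOn adj (M ω) S ∧ ¬ zeroOn adj (M ω) (insert a F)} ∩ W := rfl
      rw [this, hdec, union_inter_distrib_right]
    have hdisj : Disjoint A E := by
      rw [Set.disjoint_left]
      rintro ω ⟨_, h2⟩ ⟨h3, _⟩
      exact h2 ((hzu ω).1 h3).2
    have hSF : ∀ p ∈ S ∪ F, p.2 ≤ a.2 := by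
      intro p hp
      rcases Finset.mem_union.1 hp with hp | hp
      · exact (hS p hp).2.le.trans ha.2.1
      · exact hmax p hp
    have hEm : MeasurableSet[VA M {p | p.2 ≤ a.2}] E :=
      @MeasurableSet.inter _ (VA M {p | p.2 ≤ a.2}) _ _ (l07_zeroOn_meas hP.good _ hSF)
        (l07_etaBar_meas hP.good le_rfl a.1)
    have hEm' : MeasurableSet E := hP.VA_le _ _ hEm
    have hWm : MeasurableSet W := by
      have : W = ⋃ x ∈ Δ, {ω | etaBar adj (M ω) 1 x} := by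
        ext ω; simp [hW]
      rw [this]
      exact Finset.measurableSet_biUnion _ (fun x _ => l07_etaBar_measurable hP 1 x)
    rw [hdec, hdec2, measureReal_union hdisj hEm',
      measureReal_union (hdisj.mono inter_subset_left inter_subset_left) (hEm'.inter hWm), mul_add]
    refine add_le_add ih ?_
    -- the event E
    have hvoid : MeasurableSet[VA M {p | p.1 = (a.1, a.1) ∧ a.2 ≤ p.2}]
        (voidEv M (a.1, a.1) a.2 1) := by
      apply MeasurableSpace.measurableSet_generateFrom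
      refine ⟨((a.1, a.1), a.2, 1), ?_, rfl⟩
      rintro ⟨e, t⟩ ⟨h1, h2⟩
      simp only [mem_singleton_iff] at h1
      exact ⟨h1, h2.1⟩
    have hmul := hP.mul {p | p.2 ≤ a.2} {p | p.1 = (a.1, a.1) ∧ a.2 ≤ p.2} (by
      intro e
      have : {t : ℝ | (e, t) ∈ {p : (V × V) × ℝ | p.2 ≤ a.2} ∧
          (e, t) ∈ {p : (V × V) × ℝ | p.1 = (a.1, a.1) ∧ a.2 ≤ p.2}} ⊆ {a.2} := by
        rintro t ⟨h1, h2⟩
        exact le_antisymm h1 h2.2
      exact measure_mono_null this (by simp)) hEm hvoid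
    have hv1 := hP.void1 (a.1, a.1) a.2 1 ha.2.2.le
    have hrate : cRate lam (a.1, a.1) = 1 := by simp [cRate]
    rw [hrate, one_mul] at hv1
    have hsub : E ∩ voidEv M (a.1, a.1) a.2 1 ⊆ E ∩ W := by
      rintro ω ⟨h1, h2⟩
      refine ⟨h1, a.1, ha.1, ?_⟩
      exact etaBar_of_conn h1.2 (Conn.stay ha.2.2.le h2)
    calc Real.exp (-1) * P.real E ≤ P.real E * Real.exp (-(1 - a.2)) := by
          rw [mul_comm]
          apply mul_le_mul_of_nonneg_left _ measureReal_nonneg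
          apply Real.exp_le_exp.2
          linarith [ha.2.1]
      _ = P.real (E ∩ voidEv M (a.1, a.1) a.2 1) := by rw [hmul, hv1]
      _ ≤ P.real (E ∩ W) := measureReal_mono hsub

theorem persist [Countable V] (hlam : 0 ≤ lam) (hP : IsPoisson P M (cRate lam)) (Δ : Finset V)
    (hadj : ∀ x, {y | adj y x}.Finite) {x : V} (hx : x ∈ Δ) {C κ : ℝ}
    (hdecay : ∀ N : ℕ, P.real {ω | ∀ j : ℕ, j < N → ¬ etaBar adj (M ω) (-((j : ℝ) + 1)) x} ≤
      C * Real.exp (-κ * N))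
    (S : Finset (V × ℝ)) (hS : ∀ p ∈ S, p.1 ∈ Δ ∧ p.2 < 0) :
    P.real {ω | zeroOn adj (M ω) S ∧ ∀ x ∈ Δ, ¬ etaBar adj (M ω) 1 x} ≤
      (1 - rho κ) * P.real {ω | zeroOn adj (M ω) S} := by
  classical
  have := hP.prob
  set hS0 := P.real {ω | zeroOn adj (M ω) S} with hS0def
  set W : Set Ω := {ω | ∃ x ∈ Δ, etaBar adj (M ω) 1 x} with hW
  have hWm : MeasurableSet W := by
    have : W = ⋃ x ∈ Δ, {ω | etaBar adj (M ω) 1 x} := by
      ext ω; simp [hW]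
    rw [this]
    exact Finset.measurableSet_biUnion _ (fun x _ => l07_etaBar_measurable hP 1 x)
  have hZm := l07_zeroOn_measurable (adj := adj) hP S
  have hsplit : P.real {ω | zeroOn adj (M ω) S ∧ ∀ x ∈ Δ, ¬ etaBar adj (M ω) 1 x} +
      P.real ({ω | zeroOn adj (M ω) S} ∩ W) = hS0 := by
    have h1 := measureReal_sdiff_add_inter (μ := P) (s := {ω | zeroOn adj (M ω) S}) hWm
    have h2 : {ω | zeroOn adj (M ω) S} \ W =
        {ω | zeroOn adj (M ω) S ∧ ∀ x ∈ Δ, ¬ etaBar adj (M ω) 1 x} := by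
      ext ω
      simp [hW]
    rw [h2] at h1
    exact h1
  have hrel := release hlam hP Δ hadj hx hdecay S hS
  -- for every positive `ε`
  have key : ∀ ε : ℝ, 0 < ε → Real.exp (-1) * (hS0 - (Real.exp (-κ) * hS0 + ε)) ≤
      P.real ({ω | zeroOn adj (M ω) S} ∩ W) := by
    intro ε hε
    have hlt : hstar P M adj ((S : Set (V × ℝ)) ∪ {p | p.1 ∈ Δ ∧ 0 ≤ p.2 ∧ p.2 < 1}) <
        Real.exp (-κ) * hS0 + ε := by linarith
    unfold hstar at hlt
    have : Nonempty {F : Finset (V × ℝ) // (F : Set (V × ℝ)) ⊆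
        ((S : Set (V × ℝ)) ∪ {p | p.1 ∈ Δ ∧ 0 ≤ p.2 ∧ p.2 < 1})} := ⟨⟨∅, by simp⟩⟩
    obtain ⟨⟨G, hG⟩, hGlt⟩ := exists_lt_of_ciInf_lt hlt
    simp only at hGlt
    set F : Finset (V × ℝ) := G.filter (fun p => 0 ≤ p.2) with hFdef
    have hF : ∀ p ∈ F, p.1 ∈ Δ ∧ 0 ≤ p.2 ∧ p.2 < 1 := by
      intro p hp
      rw [hFdef, Finset.mem_filter] at hp
      rcases hG (Finset.mem_coe.2 hp.1) with h | h
      · exact absurd (hS p (by simpa using h)).2 (not_lt.2 hp.2)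
      · exact h
    have hGS : ∀ p ∈ G, p ∉ F → p ∈ S := by
      intro p hp hpF
      rcases hG (Finset.mem_coe.2 hp) with h | h
      · simpa using h
      · exact absurd (Finset.mem_filter.2 ⟨hp, h.2.1⟩) hpF
    have hstep := l07_step (adj := adj) hP Δ S hS F hF
    have h1 : P.real {ω | (zeroOn adj (M ω) S ∧ ¬ zeroOn adj (M ω) F) ∧
        ∃ x ∈ Δ, etaBar adj (M ω) 1 x} ≤ P.real ({ω | zeroOn adj (M ω) S} ∩ W) := by
      refine measureReal_mono ?_ (measure_ne_top _ _)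
      rintro ω ⟨⟨h1, _⟩, h3⟩
      exact ⟨h1, h3⟩
    have h2 : hS0 ≤ P.real {ω | zeroOn adj (M ω) S ∧ ¬ zeroOn adj (M ω) F} +
        P.real {ω | zeroOn adj (M ω) G} := by
      refine le_trans ?_ (measureReal_union_le _ _)
      refine measureReal_mono ?_ (measure_ne_top _ _)
      intro ω hω
      by_cases hz : zeroOn adj (M ω) F
      · right
        intro p hp
        by_cases hpF : p ∈ F
        · exact hz p hpF
        · exact hω p (hGS p hp hpF)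
      · left
        exact ⟨hω, hz⟩
    have hexp : 0 < Real.exp (-1) := Real.exp_pos _
    calc Real.exp (-1) * (hS0 - (Real.exp (-κ) * hS0 + ε))
        ≤ Real.exp (-1) * P.real {ω | zeroOn adj (M ω) S ∧ ¬ zeroOn adj (M ω) F} := by
          apply mul_le_mul_of_nonneg_left _ hexp.le
          linarith
      _ ≤ _ := hstep.trans h1
  have key2 : Real.exp (-1) * (hS0 - Real.exp (-κ) * hS0) ≤
      P.real ({ω | zeroOn adj (M ω) S} ∩ W) := by
    apply le_of_forall_pos_le_add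
    intro ε hε
    have h1 := key ε hε
    have h2 : Real.exp (-1) ≤ 1 := Real.exp_le_one_iff.2 (by norm_num)
    have h3 : Real.exp (-1) * ε ≤ ε := by
      have := mul_le_mul_of_nonneg_right h2 hε.le
      linarith
    nlinarith
  unfold rho
  nlinarith [hsplit]

theorem pattern [Countable V] (hlam : 0 ≤ lam) (hP : IsPoisson P M (cRate lam)) (Δ : Finset V)
    (hadj : ∀ x, {y | adj y x}.Finite) {x : V} (hx : x ∈ Δ) {C κ : ℝ}
    (hdecay : ∀ N : ℕ, P.real {ω | ∀ j : ℕ, j < N → ¬ etaBar adj (M ω) (-((j : ℝ) + 1)) x} ≤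
      C * Real.exp (-κ * N))
    (S₀ S₁ : Finset (V × ℝ)) (hS₀ : ∀ p ∈ S₀, p.1 ∈ Δ ∧ p.2 < 0)
    (hS₁ : ∀ p ∈ S₁, p.1 ∈ Δ ∧ p.2 < 0) :
    P.real {ω | (oneOn adj (M ω) S₁ ∧ zeroOn adj (M ω) S₀) ∧ ∀ x ∈ Δ, ¬ etaBar adj (M ω) 1 x} ≤
      (1 - rho κ) * P.real {ω | oneOn adj (M ω) S₁ ∧ zeroOn adj (M ω) S₀} := by
  classical
  have := hP.prob
  have _hS₁ := hS₁
  set Z : Finset (V × ℝ) := Δ.image (fun x => (x, (1 : ℝ))) with hZ
  have hzu : ∀ ω, zeroOn adj (M ω) (S₀ ∪ Z) ↔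
      (zeroOn adj (M ω) S₀ ∧ ∀ x ∈ Δ, ¬ etaBar adj (M ω) 1 x) := by
    intro ω
    simp only [zeroOn, Finset.mem_union, hZ, Finset.mem_image]
    constructor
    · intro h
      exact ⟨fun p hp => h p (Or.inl hp), fun x hx => h (x, 1) (Or.inr ⟨x, hx, rfl⟩)⟩
    · rintro ⟨h1, h2⟩ p (hp | ⟨x, hx, rfl⟩)
      · exact h1 p hp
      · exact h2 x hx
  have h1 := dfkg hlam hP adj S₀ (S₀ ∪ Z) S₁ Finset.subset_union_left
  have e1 : {ω | oneOn adj (M ω) S₁ ∧ zeroOn adj (M ω) (S₀ ∪ Z)} =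
      {ω | (oneOn adj (M ω) S₁ ∧ zeroOn adj (M ω) S₀) ∧ ∀ x ∈ Δ, ¬ etaBar adj (M ω) 1 x} := by
    ext ω
    simp only [mem_ofPred_eq, hzu]
    tauto
  have e2 : {ω | zeroOn adj (M ω) (S₀ ∪ Z)} =
      {ω | zeroOn adj (M ω) S₀ ∧ ∀ x ∈ Δ, ¬ etaBar adj (M ω) 1 x} := by
    ext ω
    simp only [mem_ofPred_eq, hzu]
  rw [e1, e2] at h1
  have h2 := persist hlam hP Δ hadj hx hdecay S₀ hS₀
  have hpos : 0 < P.real {ω | zeroOn adj (M ω) S₀} := by
    obtain ⟨a, ha⟩ : ∃ a : ℝ, ∀ p ∈ S₀, a ≤ p.2 := by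
      obtain ⟨a, ha⟩ := (S₀.image Prod.snd).finite_toSet.bddBelow
      exact ⟨a, fun p hp => ha (by simpa using ⟨p.1, hp⟩)⟩
    refine lt_of_lt_of_le (hstar_pos (adj := adj) hlam hP Δ hadj a 0) (hstar_le ?_)
    intro p hp
    have hp' : p ∈ S₀ := by simpa using hp
    exact ⟨(hS₀ p hp').1, ha p hp', (hS₀ p hp').2.le⟩
  set a' := P.real {ω | (oneOn adj (M ω) S₁ ∧ zeroOn adj (M ω) S₀) ∧
    ∀ x ∈ Δ, ¬ etaBar adj (M ω) 1 x}
  set a := P.real {ω | oneOn adj (M ω) S₁ ∧ zeroOn adj (M ω) S₀}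
  set h0 := P.real {ω | zeroOn adj (M ω) S₀}
  set hz := P.real {ω | zeroOn adj (M ω) S₀ ∧ ∀ x ∈ Δ, ¬ etaBar adj (M ω) 1 x}
  have ha0 : 0 ≤ a := measureReal_nonneg
  have h3 : a' * h0 ≤ ((1 - rho κ) * a) * h0 := by
    calc a' * h0 ≤ a * hz := h1
      _ ≤ a * ((1 - rho κ) * h0) := mul_le_mul_of_nonneg_left h2 ha0
      _ = _ := by ring
  exact le_of_mul_le_mul_right h3 hpos

end CPM
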