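import Pool.Agent.Lib.MP_1a4724_pr.L07

/-!
# L08 (75 min) : arbitrary histories

`history` (`τ = 0`).  Let `Z` be the event that all of `Δ` is healthy at time `1`, `θ = 1 - rho κ`.
The sigma-algebra `projAlg adj M Δ (Iio 0)` is generated by the coordinates
`etaBar (t, x)`, `x ∈ Δ`, `t < 0`.  The algebra of the cylinder events (finite boolean
combinations of finitely many coordinates) consists of finite disjoint unions of patterns, so
`P (A ∩ Z) ≤ θ P A` for `A` in it, by `pattern`.  For general `A` : an event of the generated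
sigma-algebra can be approximated in `P`-measure by cylinder events (standard; e.g. the class of
the `A` that can be approximated is a sigma-algebra, or
`MeasureTheory.exists_measure_symmDiff_lt_of_generateFrom_isSetRing`, or Levy's upward theorem),
and both sides are continuous.  Alternative without approximation : the set function
`A ↦ θ P A - P (A ∩ Z)`; monotone class argument.
`history_shift` : apply `history` to the marks `shiftT τ (M ω)` (`IsPoisson.shiftT`,
`Conn.shift` : `etaBar adj (shiftT τ m) t x ↔ etaBar adj m (τ + t) x`).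
-/

noncomputable section

open MeasureTheory Set

namespace CPM

variable {Ω V : Type*} [MeasurableSpace Ω] {P : Measure Ω} {M : Ω → V × V → Set ℝ} {lam : ℝ}
  {adj : V → V → Prop}

theorem etaBar_shiftT {m : V × V → Set ℝ} (τ t : ℝ) (x : V) :
    etaBar adj (shiftT τ m) t x ↔ etaBar adj m (τ + t) x := by
  unfold etaBar
  constructor
  · intro h s hs
    obtain ⟨y, hy⟩ := h (s - τ) (by linarith)
    rw [Conn.shift, add_sub_cancel] at hy
    exact ⟨y, hy⟩
  · intro h s hs
    obtain ⟨y, hy⟩ := h (τ + s) (by linarith)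
    exact ⟨y, (Conn.shift τ).2 hy⟩

theorem projAlg_le_VA [Countable V] (hM : ∀ ω, Good (M ω)) (Δ : Set V) {T : Set ℝ} {t : ℝ}
    (hT : ∀ s ∈ T, s ≤ t) : projAlg adj M Δ T ≤ VA M {p | p.2 ≤ t} := by
  unfold projAlg
  rw [← measurable_iff_comap_le]
  refine @measurable_pi_lambda _ _ _ (VA M {p | p.2 ≤ t}) _ _ (fun p => ?_)
  exact (@measurableSet_setOfPred _ (VA M {p | p.2 ≤ t}) _).1
    (l07_etaBar_meas (adj := adj) hM (hT _ p.2.2) (p.1 : V))

/-- the coordinates -/
def l08_X (adj : V → V → Prop) (M : Ω → V × V → Set ℝ) (Δ : Finset V) (ω : Ω)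
    (p : ↥(Δ : Set V) × ↥(Iio (0 : ℝ))) : Prop :=
  etaBar adj (M ω) (p.2 : ℝ) (p.1 : V)

open Classical in
theorem l08_atom [Countable V] (hlam : 0 ≤ lam) (hP : IsPoisson P M (cRate lam)) (Δ : Finset V)
    (hadj : ∀ x, {y | adj y x}.Finite) {x : V} (hx : x ∈ Δ) {C κ : ℝ}
    (hdecay : ∀ N : ℕ, P.real {ω | ∀ j : ℕ, j < N → ¬ etaBar adj (M ω) (-((j : ℝ) + 1)) x} ≤
      C * Real.exp (-κ * N))
    (F : Finset (↥(Δ : Set V) × ↥(Iio (0 : ℝ)))) (f : F → Prop) :
    P.real ({ω | ∀ p : F, (l08_X adj M Δ ω p ↔ f p)} ∩ {ω | ∀ x ∈ Δ, ¬ etaBar adj (M ω) 1 x}) ≤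
      (1 - rho κ) * P.real {ω | ∀ p : F, (l08_X adj M Δ ω p ↔ f p)} := by
  set g : F → V × ℝ := fun p => ((p.1.1 : V), (p.1.2 : ℝ)) with hg
  set S₁ : Finset (V × ℝ) := (Finset.univ.filter f).image g with hS₁
  set S₀ : Finset (V × ℝ) := (Finset.univ.filter (fun p => ¬ f p)).image g with hS₀
  have hgΔ : ∀ p : F, (g p).1 ∈ Δ ∧ (g p).2 < 0 := fun p => ⟨p.1.1.2, p.1.2.2⟩
  have e1 : {ω | ∀ p : F, (l08_X adj M Δ ω p ↔ f p)} =
      {ω | oneOn adj (M ω) S₁ ∧ zeroOn adj (M ω) S₀} := by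
    ext ω
    constructor
    · intro h
      constructor
      · intro q hq
        rw [hS₁, Finset.mem_image] at hq
        obtain ⟨p, hp, rfl⟩ := hq
        exact (h p).2 (Finset.mem_filter.1 hp).2
      · intro q hq
        rw [hS₀, Finset.mem_image] at hq
        obtain ⟨p, hp, rfl⟩ := hq
        intro hc
        exact (Finset.mem_filter.1 hp).2 ((h p).1 hc)
    · rintro ⟨h1, h0⟩ p
      constructor
      · intro hc
        by_contra hf
        exact h0 (g p) (Finset.mem_image_of_mem g (Finset.mem_filter.2 ⟨Finset.mem_univ _, hf⟩)) hc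
      · intro hf
        exact h1 (g p) (Finset.mem_image_of_mem g (Finset.mem_filter.2 ⟨Finset.mem_univ _, hf⟩))
  have h := pattern hlam hP Δ hadj hx hdecay S₀ S₁ (by
      intro q hq
      rw [hS₀, Finset.mem_image] at hq
      obtain ⟨p, _, rfl⟩ := hq
      exact hgΔ p) (by
      intro q hq
      rw [hS₁, Finset.mem_image] at hq
      obtain ⟨p, _, rfl⟩ := hq
      exact hgΔ p)
  rw [e1]
  exact h

theorem l08_cylinder [Countable V] (hlam : 0 ≤ lam) (hP : IsPoisson P M (cRate lam))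
    (Δ : Finset V) (hadj : ∀ x, {y | adj y x}.Finite) {x : V} (hx : x ∈ Δ) {C κ : ℝ}
    (hdecay : ∀ N : ℕ, P.real {ω | ∀ j : ℕ, j < N → ¬ etaBar adj (M ω) (-((j : ℝ) + 1)) x} ≤
      C * Real.exp (-κ * N))
    (F : Finset (↥(Δ : Set V) × ↥(Iio (0 : ℝ)))) (S : Set (F → Prop)) :
    P.real (l08_X adj M Δ ⁻¹' (cylinder F S) ∩ {ω | ∀ x ∈ Δ, ¬ etaBar adj (M ω) 1 x}) ≤
      (1 - rho κ) * P.real (l08_X adj M Δ ⁻¹' (cylinder F S)) := by
  classical
  have := hP.prob
  set Z : Set Ω := {ω | ∀ x ∈ Δ, ¬ etaBar adj (M ω) 1 x} with hZ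
  have hZm : MeasurableSet Z := by
    have : Z = ⋂ x ∈ Δ, {ω | etaBar adj (M ω) 1 x}ᶜ := by
      ext ω; simp [hZ]
    rw [this]
    exact Finset.measurableSet_biInter _ (fun x _ => (l07_etaBar_measurable hP 1 x).compl)
  set B : (F → Prop) → Set Ω := fun f => {ω | ∀ p : F, (l08_X adj M Δ ω p ↔ f p)} with hB
  have hBm : ∀ f, MeasurableSet (B f) := by
    intro f
    have : B f = ⋂ p : F, {ω | l08_X adj M Δ ω p ↔ f p} := by
      ext ω; simp [hB]
    rw [this]
    refine MeasurableSet.iInter (fun p => ?_)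
    have hm : MeasurableSet {ω | l08_X adj M Δ ω p} :=
      l07_etaBar_measurable hP _ _
    by_cases hf : f p
    · have h1 : {ω | l08_X adj M Δ ω p ↔ f p} = {ω | l08_X adj M Δ ω p} := by
        ext ω
        simp [hf]
      rw [h1]
      exact hm
    · have h1 : {ω | l08_X adj M Δ ω p ↔ f p} = {ω | l08_X adj M Δ ω p}ᶜ := by
        ext ω
        simp [hf]
      rw [h1]
      exact hm.compl
  have hBd : ∀ f f', f ≠ f' → Disjoint (B f) (B f') := by
    intro f f' hff
    rw [Set.disjoint_left]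
    intro ω h1 h2
    apply hff
    funext p
    exact propext ((h1 p).symm.trans (h2 p))
  have hpre : l08_X adj M Δ ⁻¹' (cylinder F S) = ⋃ f ∈ S.toFinset, B f := by
    ext ω
    simp only [mem_preimage, mem_cylinder, mem_iUnion, Set.mem_toFinset, exists_prop, hB]
    constructor
    · intro h
      exact ⟨_, h, fun p => Iff.rfl⟩
    · rintro ⟨f, hf, h⟩
      have : F.restrict (l08_X adj M Δ ω) = f := by
        funext p
        exact propext (h p)
      rw [this]
      exact hf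
  rw [hpre, iUnion₂_inter, measureReal_biUnion_finset, measureReal_biUnion_finset, Finset.mul_sum]
  · exact Finset.sum_le_sum (fun f _ => l08_atom hlam hP Δ hadj hx hdecay F f)
  · exact fun f _ f' _ hff => hBd f f' hff
  · exact fun f _ => hBm f
  · exact fun f _ f' _ hff => (hBd f f' hff).mono inter_subset_left inter_subset_left
  · exact fun f _ => (hBm f).inter hZm

theorem l08_rho {κ : ℝ} (hκ : 0 ≤ κ) : 0 ≤ rho κ ∧ rho κ ≤ 1 := by
  unfold rho
  have h1 : Real.exp (-κ) ≤ 1 := Real.exp_le_one_iff.2 (by linarith)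
  have h2 : 0 < Real.exp (-κ) := Real.exp_pos _
  have h3 : Real.exp (-1) ≤ 1 := Real.exp_le_one_iff.2 (by norm_num)
  have h4 : 0 < Real.exp (-1) := Real.exp_pos _
  constructor
  · exact mul_nonneg h4.le (by linarith)
  · nlinarith

theorem history [Countable V] (hlam : 0 ≤ lam) (hP : IsPoisson P M (cRate lam)) (Δ : Finset V)
    (hadj : ∀ x, {y | adj y x}.Finite) {x : V} (hx : x ∈ Δ) {C κ : ℝ} (hκ : 0 ≤ κ)
    (hdecay : ∀ N : ℕ, P.real {ω | ∀ j : ℕ, j < N → ¬ etaBar adj (M ω) (-((j : ℝ) + 1)) x} ≤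
      C * Real.exp (-κ * N))
    {A : Set Ω} (hA : MeasurableSet[projAlg adj M (Δ : Set V) (Iio 0)] A) :
    P.real (A ∩ {ω | ∀ x ∈ Δ, ¬ etaBar adj (M ω) 1 x}) ≤ (1 - rho κ) * P.real A := by
  classical
  have := hP.prob
  obtain ⟨hr0, hr1⟩ := l08_rho hκ
  set Z : Set Ω := {ω | ∀ x ∈ Δ, ¬ etaBar adj (M ω) 1 x} with hZ
  have hXm : Measurable (l08_X adj M Δ) := by
    refine measurable_pi_lambda _ (fun p => ?_)
    exact measurableSet_setOfPred.1 (l07_etaBar_measurable (adj := adj) hP (p.2 : ℝ) (p.1 : V))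
  obtain ⟨A', hA', rfl⟩ := hA
  change P.real (l08_X adj M Δ ⁻¹' A' ∩ Z) ≤ (1 - rho κ) * P.real (l08_X adj M Δ ⁻¹' A')
  have hfin : IsFiniteMeasure (P.map (l08_X adj M Δ)) := by infer_instance
  apply le_of_forall_pos_le_add
  intro ε hε
  obtain ⟨t, ht, htA⟩ := exists_measure_symmDiff_lt_of_generateFrom_isSetRing
    (μ := P.map (l08_X adj M Δ)) (C := measurableCylinders (fun _ => Prop))
    isSetRing_measurableCylinders
    ⟨{univ}, Set.countable_singleton _, by
      intro s hs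
      rw [mem_singleton_iff] at hs
      rw [hs]
      exact univ_mem_measurableCylinders _, by simp⟩
    generateFrom_measurableCylinders.symm hA' (ε := ENNReal.ofReal (ε / 2))
    (by rw [ENNReal.ofReal_pos]; linarith)
  obtain ⟨F, S, _, hteq⟩ := (mem_measurableCylinders t).1 ht
  have htm : MeasurableSet t := MeasurableSet.of_mem_measurableCylinders ht
  rw [Measure.map_apply hXm (htm.symmDiff hA')] at htA
  have hsd : P.real (l08_X adj M Δ ⁻¹' (symmDiff t A')) ≤ ε / 2 := by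
    rw [measureReal_def]
    exact ENNReal.toReal_le_of_le_ofReal (by linarith) htA.le
  have h1 : P.real (l08_X adj M Δ ⁻¹' A' ∩ Z) ≤
      P.real (l08_X adj M Δ ⁻¹' t ∩ Z) +
        P.real (l08_X adj M Δ ⁻¹' (symmDiff t A')) := by
    refine le_trans (measureReal_mono ?_ (measure_ne_top _ _)) (measureReal_union_le _ _)
    rintro ω ⟨h1, h2⟩
    by_cases hc : l08_X adj M Δ ω ∈ t
    · exact Or.inl ⟨hc, h2⟩
    · exact Or.inr (Or.inr ⟨h1, hc⟩)
  have h2 : P.real (l08_X adj M Δ ⁻¹' t) ≤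
      P.real (l08_X adj M Δ ⁻¹' A') +
        P.real (l08_X adj M Δ ⁻¹' (symmDiff t A')) := by
    refine le_trans (measureReal_mono ?_ (measure_ne_top _ _)) (measureReal_union_le _ _)
    intro ω h1
    by_cases hc : l08_X adj M Δ ω ∈ A'
    · exact Or.inl hc
    · exact Or.inr (Or.inl ⟨h1, hc⟩)
  have h3 := l08_cylinder hlam hP Δ hadj hx hdecay F S
  rw [← hteq] at h3
  have h4 : (1 - rho κ) * P.real (l08_X adj M Δ ⁻¹' t) ≤
      (1 - rho κ) * P.real (l08_X adj M Δ ⁻¹' A') + ε / 2 := by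
    have h5 : (1 - rho κ) * P.real (l08_X adj M Δ ⁻¹' t) ≤
        (1 - rho κ) * (P.real (l08_X adj M Δ ⁻¹' A') + ε / 2) :=
      mul_le_mul_of_nonneg_left (h2.trans (by linarith)) (by linarith)
    have h6 : (1 - rho κ) * (ε / 2) ≤ ε / 2 := by nlinarith
    linarith
  linarith

theorem history_shift [Countable V] (hlam : 0 ≤ lam) (hP : IsPoisson P M (cRate lam))
    (Δ : Finset V) (hadj : ∀ x, {y | adj y x}.Finite) {x : V} (hx : x ∈ Δ) {C κ : ℝ} (hκ : 0 ≤ κ)
    (hdecay : ∀ N : ℕ, P.real {ω | ∀ j : ℕ, j < N → ¬ etaBar adj (M ω) (-((j : ℝ) + 1)) x} ≤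
      C * Real.exp (-κ * N)) (τ : ℝ)
    {A : Set Ω} (hA : MeasurableSet[projAlg adj M (Δ : Set V) (Iio τ)] A) :
    P.real (A ∩ {ω | ∀ x ∈ Δ, ¬ etaBar adj (M ω) (τ + 1) x}) ≤ (1 - rho κ) * P.real A := by
  classical
  have hP' := hP.shiftT τ
  have hdecay' : ∀ N : ℕ, P.real {ω | ∀ j : ℕ, j < N →
      ¬ etaBar adj (shiftT τ (M ω)) (-((j : ℝ) + 1)) x} ≤ C * Real.exp (-κ * N) := by
    intro N
    refine le_of_eq_of_le ?_ (hdecay N)
    have h1 := zero_shift (adj := adj) hP
      ((Finset.range N).image (fun j : ℕ => (x, (-((j : ℝ) + 1))))) τ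
    have e1 : {ω | ∀ j : ℕ, j < N → ¬ etaBar adj (shiftT τ (M ω)) (-((j : ℝ) + 1)) x} =
        {ω | ∀ p ∈ (Finset.range N).image (fun j : ℕ => (x, (-((j : ℝ) + 1)))),
          ¬ etaBar adj (M ω) (τ + p.2) p.1} := by
      ext ω
      constructor
      · intro h p hp
        rw [Finset.mem_image] at hp
        obtain ⟨j, hj, rfl⟩ := hp
        have := h j (Finset.mem_range.1 hj)
        rwa [etaBar_shiftT] at this
      · intro h j hj
        rw [etaBar_shiftT]
        exact h (x, (-((j : ℝ) + 1))) (Finset.mem_image_of_mem _ (Finset.mem_range.2 hj))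
    have e2 : {ω | ∀ j : ℕ, j < N → ¬ etaBar adj (M ω) (-((j : ℝ) + 1)) x} =
        {ω | zeroOn adj (M ω) ((Finset.range N).image (fun j : ℕ => (x, (-((j : ℝ) + 1)))))} := by
      ext ω
      constructor
      · intro h p hp
        rw [Finset.mem_image] at hp
        obtain ⟨j, hj, rfl⟩ := hp
        exact h j (Finset.mem_range.1 hj)
      · intro h j hj
        exact h (x, (-((j : ℝ) + 1))) (Finset.mem_image_of_mem _ (Finset.mem_range.2 hj))
    rw [e1, e2, h1]
  have hA' : MeasurableSet[projAlg adj (fun ω => shiftT τ (M ω)) (Δ : Set V) (Iio 0)] A := by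
    refine (?_ : projAlg adj M (Δ : Set V) (Iio τ) ≤
      projAlg adj (fun ω => shiftT τ (M ω)) (Δ : Set V) (Iio 0)) _ hA
    have hle : (projAlg adj M (Δ : Set V) (Iio τ)) =
      MeasurableSpace.comap (fun ω (p : ↥(Δ : Set V) × ↥(Iio τ)) =>
        etaBar adj (M ω) (p.2 : ℝ) (p.1 : V)) MeasurableSpace.pi := rfl
    rw [hle, ← measurable_iff_comap_le]
    refine @measurable_pi_lambda _ _ _
      (projAlg adj (fun ω => shiftT τ (M ω)) (Δ : Set V) (Iio 0)) _ _ (fun p => ?_)
    have hlt : (p.2 : ℝ) - τ ∈ Iio (0 : ℝ) := by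
      have := p.2.2
      rw [mem_Iio] at this ⊢
      linarith
    have h1 : (fun ω => etaBar adj (M ω) (p.2 : ℝ) (p.1 : V)) =
        (fun c : (↥(Δ : Set V) × ↥(Iio (0 : ℝ))) → Prop => c (p.1, ⟨(p.2 : ℝ) - τ, hlt⟩)) ∘
        (fun ω (q : ↥(Δ : Set V) × ↥(Iio (0 : ℝ))) =>
          etaBar adj (shiftT τ (M ω)) (q.2 : ℝ) (q.1 : V)) := by
      funext ω
      simp only [Function.comp_apply]
      rw [etaBar_shiftT, add_sub_cancel]
    rw [h1]
    exact (measurable_pi_apply _).comp (comap_measurable _)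
  have h := history hlam hP' Δ hadj hx hκ hdecay' hA'
  have e3 : {ω | ∀ x ∈ Δ, ¬ etaBar adj (shiftT τ (M ω)) 1 x} =
      {ω | ∀ x ∈ Δ, ¬ etaBar adj (M ω) (τ + 1) x} := by
    ext ω
    constructor
    · intro h x hx
      have := h x hx
      rwa [etaBar_shiftT] at this
    · intro h x hx
      rw [etaBar_shiftT]
      exact h x hx
  rw [e3] at h
  exact h

end CPM
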