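import Pool.Agent.Lib.MP_1a4724_pr.Defs

/-!
# P01 : independence over regions
-/

noncomputable section

open MeasureTheory Set ProbabilityTheory
open scoped ENNReal

namespace CPM

variable {Ω J : Type*} [mΩ : MeasurableSpace Ω] {P : Measure Ω} {M : Ω → J → Set ℝ}
  {rate : J → ℝ}

theorem IsPoisson.good (h : IsPoisson P M rate) (ω : Ω) : Good (M ω) :=
  ⟨fun e a b => h.locFin ω e a b, fun e e' t => h.distinct ω e e' t⟩

theorem VA_mono {R R' : Set (J × ℝ)} (hR : R ⊆ R') : VA M R ≤ VA M R' := by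
  apply MeasurableSpace.generateFrom_mono
  rintro s ⟨b, hb, rfl⟩
  exact ⟨b, hb.trans hR, rfl⟩

theorem IsPoisson.VA_le (h : IsPoisson P M rate) (R : Set (J × ℝ)) : VA M R ≤ mΩ := by
  apply MeasurableSpace.generateFrom_le
  rintro s ⟨b, _, rfl⟩
  exact h.meas _ _ _

omit mΩ in
theorem p01_voidFam_singleton (b : J × ℝ × ℝ) : voidFam M {b} = voidEv M b.1 b.2.1 b.2.2 := by
  ext ω; simp [voidFam, voidEv]

omit mΩ in
theorem p01_voidFam_union [DecidableEq (J × ℝ × ℝ)] (A B : Finset (J × ℝ × ℝ)) :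
    voidFam M (A ∪ B) = voidFam M A ∩ voidFam M B := by
  ext ω
  simp only [voidFam, Finset.mem_union, Set.mem_inter_iff]
  constructor
  · intro h
    exact ⟨fun b hb => h b (Or.inl hb), fun b hb => h b (Or.inr hb)⟩
  · rintro ⟨h1, h2⟩ b (hb | hb)
    · exact h1 b hb
    · exact h2 b hb

theorem p01_slice_singleton (e : J) (a b : ℝ) : slice {(e, a, b)} e = Icc a b := by
  ext t; simp [slice]

theorem p01_slice_singleton_ne {e e' : J} (he : e' ≠ e) (a b : ℝ) :
    slice {(e, a, b)} e' = ∅ := by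
  ext t
  simp only [slice, Finset.mem_singleton, Set.mem_empty_iff_false, iff_false]
  rintro ⟨c, rfl, hc, _⟩
  exact he hc.symm

theorem p01_slice_union [DecidableEq (J × ℝ × ℝ)] (A B : Finset (J × ℝ × ℝ)) (e : J) :
    slice (A ∪ B) e = slice A e ∪ slice B e := by
  ext t
  simp only [slice, Finset.mem_union, Set.mem_union]
  constructor
  · rintro ⟨b, hb | hb, h1, h2⟩
    · exact Or.inl ⟨b, hb, h1, h2⟩
    · exact Or.inr ⟨b, hb, h1, h2⟩
  · rintro (⟨b, hb, h1, h2⟩ | ⟨b, hb, h1, h2⟩)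
    · exact ⟨b, Or.inl hb, h1, h2⟩
    · exact ⟨b, Or.inr hb, h1, h2⟩

theorem p01_slice_eq (A : Finset (J × ℝ × ℝ)) (e : J) :
    slice A e = ⋃ b ∈ {b ∈ (A : Set (J × ℝ × ℝ)) | b.1 = e}, Icc b.2.1 b.2.2 := by
  ext t
  simp only [slice, Set.mem_iUnion]
  constructor
  · rintro ⟨b, hb, h1, h2⟩
    exact ⟨b, ⟨hb, h1⟩, h2⟩
  · rintro ⟨b, ⟨hb, h1⟩, h2⟩
    exact ⟨b, hb, h1, h2⟩

theorem p01_slice_meas (A : Finset (J × ℝ × ℝ)) (e : J) : MeasurableSet (slice A e) := by
  rw [p01_slice_eq]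
  apply Set.Finite.measurableSet_biUnion
  · exact (Finset.finite_toSet A).subset (fun b hb => hb.1)
  · intro b _
    exact measurableSet_Icc

theorem p01_slice_lt_top (A : Finset (J × ℝ × ℝ)) (e : J) : volume (slice A e) ≠ ∞ := by
  rw [p01_slice_eq]
  have hfin : ({b ∈ (A : Set (J × ℝ × ℝ)) | b.1 = e}).Finite :=
    (Finset.finite_toSet A).subset (fun b hb => hb.1)
  apply ne_of_lt
  apply (measure_biUnion_lt_top hfin)
  intro b _
  simp

theorem p01_slice_empty {A : Finset (J × ℝ × ℝ)} {e : J} (he : ∀ b ∈ A, b.1 ≠ e) :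
    slice A e = ∅ := by
  ext t
  simp only [slice, Set.mem_empty_iff_false, iff_false]
  rintro ⟨b, hb, h1, _⟩
  exact he b hb h1

theorem p01_support_finite (A : Finset (J × ℝ × ℝ)) (rate : J → ℝ) :
    (Function.support (fun e => rate e * volume.real (slice A e))).Finite := by
  classical
  apply ((A.image Prod.fst).finite_toSet).subset
  intro e he
  by_contra hne
  apply he
  have : slice A e = ∅ := by
    apply p01_slice_empty
    intro b hb hbe
    exact hne (by simpa using ⟨b.2.1, b.2.2, by rw [← hbe]; exact hb⟩)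
  simp [this]

theorem IsPoisson.void1 (h : IsPoisson P M rate) (e : J) (a b : ℝ) (hab : a ≤ b) :
    P.real (voidEv M e a b) = Real.exp (-(rate e * (b - a))) := by
  have h1 := h.void {(e, a, b)}
  rw [p01_voidFam_singleton] at h1
  rw [h1, finsum_eq_single _ e]
  · rw [p01_slice_singleton]
    simp [Measure.real, hab]
  · intro e' he'
    rw [p01_slice_singleton_ne he']
    simp

omit mΩ in
theorem p01_isPiSystem (M : Ω → J → Set ℝ) (R : Set (J × ℝ)) :
    IsPiSystem {s : Set Ω | ∃ A : Finset (J × ℝ × ℝ), (∀ b ∈ A, boxOf b ⊆ R) ∧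
      s = voidFam M A} := by
  classical
  rintro _ ⟨A, hA, rfl⟩ _ ⟨B, hB, rfl⟩ _
  refine ⟨A ∪ B, ?_, (p01_voidFam_union A B).symm⟩
  intro b hb
  rcases Finset.mem_union.1 hb with hb | hb
  · exact hA b hb
  · exact hB b hb

omit mΩ in
theorem p01_voidFam_eq (M : Ω → J → Set ℝ) (A : Finset (J × ℝ × ℝ)) :
    voidFam M A = ⋂ b ∈ A, voidEv M b.1 b.2.1 b.2.2 := by
  ext ω; simp [voidFam, voidEv]

omit mΩ in
theorem p01_voidFam_meas (M : Ω → J → Set ℝ) {R : Set (J × ℝ)} {A : Finset (J × ℝ × ℝ)}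
    (hA : ∀ b ∈ A, boxOf b ⊆ R) : MeasurableSet[VA M R] (voidFam M A) := by
  rw [p01_voidFam_eq]
  let _ : MeasurableSpace Ω := VA M R
  apply Finset.measurableSet_biInter
  intro b hb
  exact MeasurableSpace.measurableSet_generateFrom ⟨b, hA b hb, rfl⟩

omit mΩ in
theorem p01_generate (M : Ω → J → Set ℝ) (R : Set (J × ℝ)) :
    VA M R = MeasurableSpace.generateFrom {s : Set Ω | ∃ A : Finset (J × ℝ × ℝ),
      (∀ b ∈ A, boxOf b ⊆ R) ∧ s = voidFam M A} := by
  apply le_antisymm
  · apply MeasurableSpace.generateFrom_mono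
    rintro s ⟨b, hb, rfl⟩
    refine ⟨{b}, ?_, (p01_voidFam_singleton b).symm⟩
    intro c hc
    rw [Finset.mem_singleton] at hc
    rw [hc]; exact hb
  · apply MeasurableSpace.generateFrom_le
    rintro s ⟨A, hA, rfl⟩
    exact p01_voidFam_meas M hA

/-- marks in regions without common mass are independent -/
theorem IsPoisson.indep (h : IsPoisson P M rate) (R₁ R₂ : Set (J × ℝ))
    (hR : ∀ e, volume {t : ℝ | (e, t) ∈ R₁ ∧ (e, t) ∈ R₂} = 0) :
    Indep (VA M R₁) (VA M R₂) P := by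
  classical
  have := h.prob
  refine ProbabilityTheory.IndepSets.indep (h.VA_le R₁) (h.VA_le R₂) (p01_isPiSystem M R₁)
    (p01_isPiSystem M R₂) (p01_generate M R₁) (p01_generate M R₂) ?_
  rw [IndepSets_iff]
  rintro _ _ ⟨A, hA, rfl⟩ ⟨B, hB, rfl⟩
  rw [← p01_voidFam_union]
  have key : P.real (voidFam M (A ∪ B)) = P.real (voidFam M A) * P.real (voidFam M B) := by
    rw [h.void, h.void, h.void, ← Real.exp_add]
    congr 1
    rw [← neg_add, ← finsum_add_distrib (p01_support_finite A rate) (p01_support_finite B rate)]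
    congr 1
    apply finsum_congr
    intro e
    rw [← mul_add, p01_slice_union]
    congr 1
    have hnull : volume (slice A e ∩ slice B e) = 0 := by
      apply measure_mono_null _ (hR e)
      rintro t ⟨⟨b, hb, h1, h2⟩, ⟨c, hc, h3, h4⟩⟩
      refine ⟨hA b hb ?_, hB c hc ?_⟩
      · exact ⟨h1.symm, h2⟩
      · exact ⟨h3.symm, h4⟩
    have h5 := measure_union_add_inter (μ := (volume : Measure ℝ)) (slice A e)
      (p01_slice_meas B e)
    rw [hnull, add_zero] at h5
    simp only [Measure.real]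
    rw [h5, ENNReal.toReal_add (p01_slice_lt_top A e) (p01_slice_lt_top B e)]
  have h6 : P (voidFam M (A ∪ B)) = ENNReal.ofReal (P.real (voidFam M (A ∪ B))) := by
    rw [ofReal_measureReal]
  rw [h6, key, ENNReal.ofReal_mul measureReal_nonneg, ofReal_measureReal, ofReal_measureReal]

theorem IsPoisson.mul (h : IsPoisson P M rate) (R₁ R₂ : Set (J × ℝ))
    (hR : ∀ e, volume {t : ℝ | (e, t) ∈ R₁ ∧ (e, t) ∈ R₂} = 0) {A B : Set Ω}
    (hA : MeasurableSet[VA M R₁] A) (hB : MeasurableSet[VA M R₂] B) :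
    P.real (A ∩ B) = P.real A * P.real B := by
  have h1 := (h.indep R₁ R₂ hR)
  rw [Indep_iff] at h1
  have h2 := h1 A B hA hB
  simp only [Measure.real]
  rw [h2, ENNReal.toReal_mul]

theorem IsPoisson.iIndep_void (h : IsPoisson P M rate) {ι : Type*} (b : ι → J × ℝ × ℝ)
    (hb : ∀ i j, i ≠ j → (b i).1 = (b j).1 → (b i).2.2 ≤ (b j).2.1 ∨ (b j).2.2 ≤ (b i).2.1) :
    iIndepSet (fun i => voidEv M (b i).1 (b i).2.1 (b i).2.2) P := by
  classical
  have := h.prob
  rw [iIndepSet_iff_meas_biInter (fun i => h.meas _ _ _)]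
  intro s
  induction s using Finset.induction_on with
  | empty => simp
  | insert i s hi ih =>
    rw [Finset.set_biInter_insert, Finset.prod_insert hi, ← ih]
    have h1 := h.indep (boxOf (b i)) (⋃ j ∈ s, boxOf (b j)) (by
      intro e
      apply measure_mono_null (t := ({(b i).2.2, (b i).2.1} : Set ℝ))
      · rintro t ⟨⟨h1, h2⟩, h3⟩
        simp only [Set.mem_iUnion] at h3
        obtain ⟨j, hj, h4, h5⟩ := h3
        have hij : i ≠ j := by rintro rfl; exact hi hj
        have h1' : e = (b i).1 := h1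
        have h4' : e = (b j).1 := h4
        have h2' : t ∈ Icc (b i).2.1 (b i).2.2 := h2
        have h5' : t ∈ Icc (b j).2.1 (b j).2.2 := h5
        rcases hb i j hij (h1'.symm.trans h4') with h6 | h6
        · left
          exact le_antisymm h2'.2 (h6.trans h5'.1)
        · right
          exact le_antisymm (h5'.2.trans h6) h2'.1
      · exact (Set.toFinite _).measure_zero _)
    rw [Indep_iff] at h1
    apply h1
    · exact MeasurableSpace.measurableSet_generateFrom ⟨b i, Subset.rfl, rfl⟩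
    · apply MeasurableSet.biInter (Set.to_countable _)
      intro j hj
      refine MeasurableSpace.measurableSet_generateFrom ⟨b j, ?_, rfl⟩
      exact Set.subset_biUnion_of_mem (u := fun j => boxOf (b j)) hj

end CPM
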