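import Pool.Agent.Lib.MP_1a4724_pr.Defs

/-!
# P02 (50 min) : calculus of `VMeas`

`VMeas R Q` says that `Q m` (for good `m`) is a measurable function of the void indicators of the
boxes contained in `R`.  Proofs : take complements, intersections, countable unions of the sets
`E`.  `mono` : the restriction map from the functions on the boxes in `R'` to the functions on the
boxes in `R` is measurable.  `reindex` : with `σ = 1` the box `(e, a, b)` becomes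
`(φ e, c + a, c + b)`, with `σ = -1` it becomes `(φ e, c - b, c - a)`; the map of the void
configurations is measurable (each coordinate is a coordinate).  `Good` is preserved by `reindex`
when `φ` is injective.  `measurableSet` : the set is the preimage of `E` under
`ω ↦ vcfg R (M ω)`, which is measurable for `VA M R` since each coordinate is
(`measurable_pi_iff`; a `Prop` valued function is measurable iff the set where it is true is:
`measurableSet_setOf`).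
-/

noncomputable section

open MeasureTheory Set
open scoped ENNReal

namespace CPM

/-- reindexed marks -/
def reindex {J J' : Type*} (φ : J' → J) (σ c : ℝ) (m : J → Set ℝ) : J' → Set ℝ :=
  fun e => {t | c + σ * t ∈ m (φ e)}

variable {Ω J J' : Type*} {R R' : Set (J × ℝ)} {Q Q' : (J → Set ℝ) → Prop}

theorem VMeas.measurableSet {M : Ω → J → Set ℝ} (hM : ∀ ω, Good (M ω)) (hQ : VMeas R Q) :
    MeasurableSet[VA M R] {ω | Q (M ω)} := by
  obtain ⟨E, hE, h⟩ := hQ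
  have h1 : {ω | Q (M ω)} = (fun ω => vcfg R (M ω)) ⁻¹' E := by
    ext ω; exact h _ (hM ω)
  rw [h1]
  have hm : @Measurable _ _ (VA M R) _ (fun ω => vcfg R (M ω)) := by
    refine @measurable_pi_lambda _ _ _ (VA M R) _ _ ?_
    intro b
    refine (@measurableSet_setOfPred _ (VA M R) _).1 ?_
    exact MeasurableSpace.measurableSet_generateFrom ⟨b.1, b.2, rfl⟩
  exact hm hE

theorem VMeas.mono (hR : R ⊆ R') (hQ : VMeas R Q) : VMeas R' Q := by
  obtain ⟨E, hE, h⟩ := hQ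
  let r : ({b : J × ℝ × ℝ // boxOf b ⊆ R'} → Prop) → ({b : J × ℝ × ℝ // boxOf b ⊆ R} → Prop) :=
    fun c b => c ⟨b.1, b.2.trans hR⟩
  have hr : Measurable r := measurable_pi_lambda _ fun b => measurable_pi_apply _
  exact ⟨r ⁻¹' E, hr hE, fun m hm => h m hm⟩

theorem VMeas.congr (h : ∀ m, Good m → (Q m ↔ Q' m)) (hQ : VMeas R Q) : VMeas R Q' := by
  obtain ⟨E, hE, h1⟩ := hQ
  exact ⟨E, hE, fun m hm => (h m hm).symm.trans (h1 m hm)⟩

theorem VMeas.const (p : Prop) : VMeas R (fun _ => p) := by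
  by_cases hp : p
  · exact ⟨univ, MeasurableSet.univ, fun m _ => by simp [hp]⟩
  · exact ⟨∅, MeasurableSet.empty, fun m _ => by simp [hp]⟩

theorem VMeas.not (hQ : VMeas R Q) : VMeas R (fun m => ¬ Q m) := by
  obtain ⟨E, hE, h⟩ := hQ
  exact ⟨Eᶜ, hE.compl, fun m hm => not_congr (h m hm)⟩

theorem VMeas.and (hQ : VMeas R Q) (hQ' : VMeas R Q') : VMeas R (fun m => Q m ∧ Q' m) := by
  obtain ⟨E, hE, h⟩ := hQ
  obtain ⟨E', hE', h'⟩ := hQ'
  exact ⟨E ∩ E', hE.inter hE', fun m hm => and_congr (h m hm) (h' m hm)⟩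

theorem VMeas.or (hQ : VMeas R Q) (hQ' : VMeas R Q') : VMeas R (fun m => Q m ∨ Q' m) := by
  obtain ⟨E, hE, h⟩ := hQ
  obtain ⟨E', hE', h'⟩ := hQ'
  exact ⟨E ∪ E', hE.union hE', fun m hm => or_congr (h m hm) (h' m hm)⟩

theorem VMeas.imp (hQ : VMeas R Q) (hQ' : VMeas R Q') : VMeas R (fun m => Q m → Q' m) :=
  (hQ.not.or hQ').congr fun m _ => by tauto

theorem VMeas.exists {ι : Sort*} [Countable ι] {F : ι → (J → Set ℝ) → Prop}
    (h : ∀ i, VMeas R (F i)) : VMeas R (fun m => ∃ i, F i m) := by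
  choose E hE h1 using h
  exact ⟨⋃ i, E i, MeasurableSet.iUnion hE, fun m hm => by
    rw [mem_iUnion]; exact exists_congr fun i => h1 i m hm⟩

theorem VMeas.forall {ι : Sort*} [Countable ι] {F : ι → (J → Set ℝ) → Prop}
    (h : ∀ i, VMeas R (F i)) : VMeas R (fun m => ∀ i, F i m) := by
  choose E hE h1 using h
  exact ⟨⋂ i, E i, MeasurableSet.iInter hE, fun m hm => by
    rw [mem_iInter]; exact forall_congr' fun i => h1 i m hm⟩

theorem vmeas_void (e : J) (a b : ℝ) (h : boxOf (e, a, b) ⊆ R) :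
    VMeas R (fun m => ∀ t ∈ Icc a b, t ∉ m e) := by
  refine ⟨{c | c ⟨(e, a, b), h⟩}, ?_, fun m _ => Iff.rfl⟩
  exact measurableSet_setOfPred.2 (measurable_pi_apply _)

theorem p02_inv {σ : ℝ} (hσ : σ = 1 ∨ σ = -1) (c u : ℝ) : c + σ * (σ * (u - c)) = u := by
  rcases hσ with rfl | rfl <;> ring

/-- the image of a box -/
theorem p02_box (φ : J' → J) {σ : ℝ} (hσ : σ = 1 ∨ σ = -1) (c : ℝ) :
    ∃ ψ : J' × ℝ × ℝ → J × ℝ × ℝ, ∀ b, (ψ b).1 = φ b.1 ∧
      ∀ t, (c + σ * t ∈ Icc (ψ b).2.1 (ψ b).2.2 ↔ t ∈ Icc b.2.1 b.2.2) := by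
  rcases hσ with rfl | rfl
  · refine ⟨fun b => (φ b.1, c + b.2.1, c + b.2.2), fun b => ⟨rfl, fun t => ?_⟩⟩
    simp only [mem_Icc]
    constructor <;> rintro ⟨h1, h2⟩ <;> constructor <;> linarith
  · refine ⟨fun b => (φ b.1, c - b.2.2, c - b.2.1), fun b => ⟨rfl, fun t => ?_⟩⟩
    simp only [mem_Icc]
    constructor <;> rintro ⟨h1, h2⟩ <;> constructor <;> linarith

theorem p02_box_sub {φ : J' → J} {σ : ℝ} (hσ : σ = 1 ∨ σ = -1) {c : ℝ}
    {R' : Set (J' × ℝ)} (hR : ∀ e t, (e, t) ∈ R' → (φ e, c + σ * t) ∈ R)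
    {b : J' × ℝ × ℝ} {b' : J × ℝ × ℝ} (h1 : b'.1 = φ b.1)
    (h2 : ∀ t, (c + σ * t ∈ Icc b'.2.1 b'.2.2 ↔ t ∈ Icc b.2.1 b.2.2)) (hb : boxOf b ⊆ R') :
    boxOf b' ⊆ R := by
  rintro ⟨e, u⟩ ⟨he, hu⟩
  simp only [mem_singleton_iff] at he hu
  subst he
  have h3 := p02_inv hσ c u
  rw [← h3] at hu ⊢
  rw [h1]
  exact hR _ _ (hb ⟨rfl, (h2 _).1 hu⟩)

theorem p02_void {φ : J' → J} {σ : ℝ} (hσ : σ = 1 ∨ σ = -1) {c : ℝ} (m : J → Set ℝ)
    {b : J' × ℝ × ℝ} {b' : J × ℝ × ℝ} (h1 : b'.1 = φ b.1)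
    (h2 : ∀ t, (c + σ * t ∈ Icc b'.2.1 b'.2.2 ↔ t ∈ Icc b.2.1 b.2.2)) :
    (∀ t ∈ Icc b.2.1 b.2.2, t ∉ reindex φ σ c m b.1) ↔ ∀ t ∈ Icc b'.2.1 b'.2.2, t ∉ m b'.1 := by
  constructor
  · intro h u hu hm
    have h3 := p02_inv hσ c u
    rw [← h3] at hu hm
    rw [h1] at hm
    exact h _ ((h2 _).1 hu) hm
  · intro h t ht hm
    refine h _ ((h2 t).2 ht) ?_
    rw [h1]; exact hm

theorem Good.reindex {φ : J' → J} (hφ : Function.Injective φ) {σ : ℝ} (hσ : σ = 1 ∨ σ = -1)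
    (c : ℝ) {m : J → Set ℝ} (hm : Good m) : Good (reindex φ σ c m) := by
  refine ⟨fun e a b => ?_, fun e e' t h h' => hφ (hm.2 _ _ _ h h')⟩
  obtain ⟨ψ, hψ⟩ := p02_box φ hσ c
  obtain ⟨h1, h2⟩ := hψ (e, a, b)
  have hf := hm.1 (φ e) (ψ (e, a, b)).2.1 (ψ (e, a, b)).2.2
  have hinj : Function.Injective (fun t : ℝ => c + σ * t) := by
    intro t t' h
    rcases hσ with rfl | rfl <;> simpa using h
  refine (hf.preimage (f := fun t : ℝ => c + σ * t) hinj.injOn).subset ?_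
  rintro t ⟨ht1, ht2⟩
  exact ⟨ht1, (h2 t).2 ht2⟩

theorem VMeas.reindex {φ : J' → J} (hφ : Function.Injective φ) {σ : ℝ} (hσ : σ = 1 ∨ σ = -1)
    (c : ℝ) {R' : Set (J' × ℝ)} {Q : (J' → Set ℝ) → Prop} (hQ : VMeas R' Q)
    (hR : ∀ e t, (e, t) ∈ R' → (φ e, c + σ * t) ∈ R) :
    VMeas R (fun m => Q (reindex φ σ c m)) := by
  obtain ⟨E, hE, h⟩ := hQ
  obtain ⟨ψ, hψ⟩ := p02_box φ hσ c
  let r : ({b : J × ℝ × ℝ // boxOf b ⊆ R} → Prop) → ({b : J' × ℝ × ℝ // boxOf b ⊆ R'} → Prop) :=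
    fun d b => d ⟨ψ b.1, p02_box_sub hσ hR (hψ b.1).1 (hψ b.1).2 b.2⟩
  have hr : Measurable r := measurable_pi_lambda _ fun b => measurable_pi_apply _
  refine ⟨r ⁻¹' E, hr hE, fun m hm => ?_⟩
  refine (h _ (Good.reindex hφ hσ c hm)).trans ?_
  have h3 : vcfg R' (CPM.reindex φ σ c m) = r (vcfg R m) := by
    funext b
    exact propext (p02_void hσ m (hψ b.1).1 (hψ b.1).2)
  rw [h3]
  rfl

/-- events of the reindexed marks -/
theorem VA_reindex_le {M : Ω → J → Set ℝ} {φ : J' → J} {σ : ℝ} (hσ : σ = 1 ∨ σ = -1) (c : ℝ)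
    {R' : Set (J' × ℝ)} (hR : ∀ e t, (e, t) ∈ R' → (φ e, c + σ * t) ∈ R) :
    VA (fun ω => reindex φ σ c (M ω)) R' ≤ VA M R := by
  refine MeasurableSpace.generateFrom_le ?_
  rintro s ⟨b, hb, rfl⟩
  obtain ⟨ψ, hψ⟩ := p02_box φ hσ c
  refine MeasurableSpace.measurableSet_generateFrom
    ⟨ψ b, p02_box_sub hσ hR (hψ b).1 (hψ b).2 hb, ?_⟩
  ext ω
  exact p02_void hσ (M ω) (hψ b).1 (hψ b).2

end CPM
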