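import Pool.Agent.Lib.MP_1a4724_pr.D03
import Pool.Agent.Lib.MP_1a4724_pr.E07

/-!
# R01 (60 min) : propagation along open sites (deterministic)

`openS m u μ i n` : the piece `pieceR i (2n)` and the piece `pieceL i (2n - 1)` exist.
`wetS m u μ S B i n` : there are `x ∈ S`, `w ∈ boxI i`, `z₁`, `z₂` with active paths
`(x, 0) → (w, 2nu)` inside `B`, `(w, 2nu) → (z₁, (2n+1)u) → (z₂, (2n+2)u)` inside `boxI i`, `z₁` near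
`8μi + 32μ`, `z₂` near `8μi + 64μ`.

`wet_start` : `pieceR i 0` with its starting point `w = x = z₀` in `S`.
`wet_step` : `wetS .. j n`, `|i - j| ≤ 3`, `openS i (n + 1)` imply `wetS .. i (n + 1)`.
Proof.  Write `q = 8μ`, times `T₁ = (2n+1)u`, `T₂ = (2n+2)u`, `T₃ = (2n+3)u`, `T₄ = (2n+4)u`.
From `wetS j n` : source → `(z₁, T₁)`, `(z₁, T₁) → (z₂, T₂)`, `|z₁ - (jq + 4q)| ≤ μ`,
`|z₂ - (jq + 8q)| ≤ μ`.  From `pieceL i (2n + 1)` : `(w₀, T₁) → (w₁, T₂) → (w₂, T₃)` near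
`iq + 8q, iq + 4q, iq`.  As `|i - j| ≤ 3` : `z₁ ≤ jq + 4q + μ ≤ iq + 8q - μ ≤ w₀` and
`w₁ ≤ iq + 4q + μ ≤ jq + 8q - μ ≤ z₂` (`q = 8μ`), so `switch` gives `(z₁, T₁) → (w₁, T₂)` inside
`boxI i ∪ boxI j`.  From `pieceR i (2n + 2)` : `(v₀, T₂) → (v₁, T₃) → (v₂, T₄)` near
`iq, iq + 4q, iq + 8q` : `v₀ ≤ iq + μ ≤ iq + 4q - μ ≤ w₁` and `w₂ ≤ iq + μ ≤ v₁`, so `switch` gives
`(w₁, T₂) → (v₁, T₃)` inside `boxI i`.  The new `w` is `w₁`.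
-/

noncomputable section

open MeasureTheory Set

namespace CPM

def openS (m : ℤ × ℤ → Set ℝ) (u μ : ℕ) (i n : ℤ) : Prop :=
  pieceR m u μ i (2 * n) ∧ pieceL m u μ i (2 * n - 1)

def wetS (m : ℤ × ℤ → Set ℝ) (u μ : ℕ) (S B : Set ℤ) (i n : ℤ) : Prop :=
  ∃ x w z₁ z₂ : ℤ, x ∈ S ∧ w ∈ boxI μ i ∧ |z₁ - (8 * μ * i + 32 * μ)| ≤ μ ∧
    |z₂ - (8 * μ * i + 64 * μ)| ≤ μ ∧
    Conn (adjOn B intAdj) m (x, 0) (w, 2 * (n : ℝ) * u) ∧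
    Conn (adjOn (boxI μ i) intAdj) m (w, 2 * (n : ℝ) * u) (z₁, (2 * (n : ℝ) + 1) * u) ∧
    Conn (adjOn (boxI μ i) intAdj) m (z₁, (2 * (n : ℝ) + 1) * u) (z₂, (2 * (n : ℝ) + 2) * u)

theorem wet_start {m : ℤ × ℤ → Set ℝ} {u μ : ℕ} {S B : Set ℤ} {i : ℤ}
    (h : pieceR m u μ i 0) (hS : ∀ z : ℤ, |z - 8 * μ * i| ≤ μ → z ∈ S) :
    wetS m u μ S B i 0 := by
  obtain ⟨z₀, z₁, z₂, h0, h1, h2, h3, h4⟩ := h
  have hμ : (0 : ℤ) ≤ μ := Int.natCast_nonneg μ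
  refine ⟨z₀, z₀, z₁, z₂, hS z₀ h0, ?_, h1, h2, ?_, ?_, ?_⟩
  · rw [abs_le] at h0
    constructor <;> linarith [h0.1, h0.2]
  · simp only [Int.cast_zero, mul_zero, zero_mul]
    exact Conn.refl _
  · simpa using h3
  · simpa using h4

theorem r01_time (n : ℤ) (u : ℕ) :
    (((2 * (n + 1) - 1 : ℤ) : ℝ) * u = (2 * (n : ℝ) + 1) * u) ∧
    ((((2 * (n + 1) - 1 : ℤ) : ℝ) + 1) * u = (2 * (n : ℝ) + 2) * u) ∧
    ((((2 * (n + 1) - 1 : ℤ) : ℝ) + 2) * u = (2 * (n : ℝ) + 3) * u) ∧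
    (((2 * (n + 1) : ℤ) : ℝ) * u = (2 * (n : ℝ) + 2) * u) ∧
    ((((2 * (n + 1) : ℤ) : ℝ) + 1) * u = (2 * (n : ℝ) + 3) * u) ∧
    ((((2 * (n + 1) : ℤ) : ℝ) + 2) * u = (2 * (n : ℝ) + 4) * u) ∧
    (2 * ((n + 1 : ℤ) : ℝ) * u = (2 * (n : ℝ) + 2) * u) ∧
    ((2 * ((n + 1 : ℤ) : ℝ) + 1) * u = (2 * (n : ℝ) + 3) * u) ∧
    ((2 * ((n + 1 : ℤ) : ℝ) + 2) * u = (2 * (n : ℝ) + 4) * u) := by
  push_cast
  refine ⟨?_, ?_, ?_, ?_, ?_, ?_, ?_, ?_, ?_⟩ <;> ring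

theorem wet_step {m : ℤ × ℤ → Set ℝ} {u μ : ℕ} {S B : Set ℤ} {i j n : ℤ}
    (hw : wetS m u μ S B j n) (ho : openS m u μ i (n + 1)) (hij : |i - j| ≤ 3)
    (hi : boxI μ i ⊆ B) (hj : boxI μ j ⊆ B) : wetS m u μ S B i (n + 1) := by
  obtain ⟨x, w, z₁, z₂, hx, hw, hz1, hz2, c1, c2, c3⟩ := hw
  obtain ⟨⟨v₀, v₁, v₂, hv0, hv1, hv2, d1, d2⟩, ⟨w₀, w₁, w₂, hw0, hw1, hw2, e1, e2⟩⟩ := ho
  obtain ⟨t1, t2, t3, t4, t5, t6, t7, t8, t9⟩ := r01_time n u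
  rw [t1, t2] at e1
  rw [t2, t3] at e2
  rw [t4, t5] at d1
  rw [t5, t6] at d2
  have hμ : (0 : ℤ) ≤ μ := Int.natCast_nonneg μ
  rw [abs_le] at hz1 hz2 hv0 hv1 hv2 hw0 hw1 hw2 hij
  -- products
  have p1 : (μ : ℤ) * (i - j) ≤ μ * 3 := mul_le_mul_of_nonneg_left hij.2 hμ
  have p2 : (μ : ℤ) * (-3) ≤ μ * (i - j) := mul_le_mul_of_nonneg_left hij.1 hμ
  have s1 := (switch (noCross_int) (B₁ := boxI μ j) (B₂ := boxI μ i) (B := B) hj hi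
    c3 e1 (by nlinarith) (by nlinarith)).1
  have s2 := (switch (noCross_int) (B₁ := boxI μ i) (B₂ := boxI μ i) (B := boxI μ i)
    subset_rfl subset_rfl d1 e2 (by nlinarith) (by nlinarith)).2
  refine ⟨x, w₁, v₁, v₂, hx, ?_, ?_, ?_, ?_, ?_, ?_⟩
  · constructor <;> nlinarith
  · rw [abs_le]; constructor <;> linarith
  · rw [abs_le]; constructor <;> linarith
  · rw [t7]
    exact (c1.trans (Conn.mono_on hj c2)).trans s1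
  · rw [t7, t8]
    exact s2
  · rw [t8, t9]
    exact d2

theorem r01_vmeas_conn2 (μ : ℕ) (i : ℤ) (s t r : ℝ) (hst : s ≤ t) (htr : t ≤ r)
    (A₀ A₁ A₂ : ℤ → Prop) (hA : ∀ z, A₀ z → z ∈ boxI μ i) (hA₁ : ∀ z, A₁ z → z ∈ boxI μ i) :
    VMeas {p : (ℤ × ℤ) × ℝ | p.1.1 ∈ boxI μ i ∧ p.1.2 ∈ boxI μ i ∧ p.2 ∈ Icc s r}
      (fun m => ∃ z₀ z₁ z₂ : ℤ, A₀ z₀ ∧ A₁ z₁ ∧ A₂ z₂ ∧
        Conn (adjOn (boxI μ i) intAdj) m (z₀, s) (z₁, t) ∧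
        Conn (adjOn (boxI μ i) intAdj) m (z₁, t) (z₂, r)) := by
  refine VMeas.exists fun z₀ => VMeas.exists fun z₁ => VMeas.exists fun z₂ => ?_
  by_cases h0 : A₀ z₀
  · by_cases h1 : A₁ z₁
    · refine (VMeas.const _).and ((VMeas.const _).and ((VMeas.const _).and (VMeas.and ?_ ?_)))
      · refine (conn_vmeas intAdj (boxI μ i) (hA _ h0) z₁ s t).mono ?_
        rintro ⟨⟨a, b⟩, v⟩ ⟨h2, h3, h4⟩
        exact ⟨h2, h3, h4.1, h4.2.trans htr⟩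
      · refine (conn_vmeas intAdj (boxI μ i) (hA₁ _ h1) z₂ t r).mono ?_
        rintro ⟨⟨a, b⟩, v⟩ ⟨h2, h3, h4⟩
        exact ⟨h2, h3, hst.trans h4.1, h4.2⟩
    · exact (VMeas.const False).congr fun m _ => by simp [h1]
  · exact (VMeas.const False).congr fun m _ => by simp [h0]

/-- measurability and range of dependence -/
theorem openS_vmeas (u μ : ℕ) (i n : ℤ) :
    VMeas {p : (ℤ × ℤ) × ℝ | p.1.1 ∈ boxI μ i ∧ p.1.2 ∈ boxI μ i ∧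
      p.2 ∈ Icc ((2 * (n : ℝ) - 1) * u) ((2 * (n : ℝ) + 2) * u)} (fun m => openS m u μ i n) := by
  have hμ : (0 : ℤ) ≤ μ := Int.natCast_nonneg μ
  have hu : (0 : ℝ) ≤ u := Nat.cast_nonneg u
  unfold openS pieceR pieceL
  refine VMeas.and ?_ ?_
  · refine (r01_vmeas_conn2 μ i (((2 * n : ℤ) : ℝ) * u) ((((2 * n : ℤ) : ℝ) + 1) * u)
      ((((2 * n : ℤ) : ℝ) + 2) * u) (by nlinarith) (by nlinarith)
      (fun z => |z - 8 * μ * i| ≤ μ) (fun z => |z - (8 * μ * i + 32 * μ)| ≤ μ)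
      (fun z => |z - (8 * μ * i + 64 * μ)| ≤ μ) ?_ ?_).mono ?_
    · intro z hz
      rw [abs_le] at hz
      constructor <;> linarith [hz.1, hz.2]
    · intro z hz
      rw [abs_le] at hz
      constructor <;> linarith [hz.1, hz.2]
    · rintro ⟨⟨a, b⟩, v⟩ ⟨h2, h3, h4, h5⟩
      refine ⟨h2, h3, ?_, ?_⟩
      · push_cast at h4; simp only at h4 ⊢; nlinarith
      · push_cast at h5; simp only at h5 ⊢; nlinarith
  · refine (r01_vmeas_conn2 μ i (((2 * n - 1 : ℤ) : ℝ) * u) ((((2 * n - 1 : ℤ) : ℝ) + 1) * u)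
      ((((2 * n - 1 : ℤ) : ℝ) + 2) * u) (by nlinarith) (by nlinarith)
      (fun z => |z - (8 * μ * i + 64 * μ)| ≤ μ) (fun z => |z - (8 * μ * i + 32 * μ)| ≤ μ)
      (fun z => |z - 8 * μ * i| ≤ μ) ?_ ?_).mono ?_
    · intro z hz
      rw [abs_le] at hz
      constructor <;> linarith [hz.1, hz.2]
    · intro z hz
      rw [abs_le] at hz
      constructor <;> linarith [hz.1, hz.2]
    · rintro ⟨⟨a, b⟩, v⟩ ⟨h2, h3, h4, h5⟩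
      refine ⟨h2, h3, ?_, ?_⟩
      · push_cast at h4; simp only at h4 ⊢; nlinarith
      · push_cast at h5; simp only at h5 ⊢; nlinarith

end CPM
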