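import Mathlib

/-!
# R02 (90 min) : the walk certificate (deterministic, pure combinatorics)

Strip of width `W`, levels `0, 1, 2, ...`; `op i n` : the site `(i, n)` is open.
`wetP op W n i` : there is an open path from level `0` to `(i, n)` inside the strip `0 ≤ i < W`, with
steps `|i - j| ≤ 1` to the next level.
Certificate walk `WStep op W n` on `ℤ × ℤ` (position, level) :
 R : `(i, l) → (i + 1, l)` if `0 ≤ i < W`, `0 ≤ l ≤ n` and `(i, l)` is closed;
 D : `(i, l) → (i - 1, l - 1)` free;  U : `(i, l) → (i - 1, l + 1)` free.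

Theorem `certificate` : `1 ≤ W`; if no site of level `n` is wet then for some `0 ≤ k ≤ n` and some
`l` there is a walk from `(0, k)` to `(W, l)`.

Proof.  Say that `a < b` is a gap of level `l` if `(a, l)`, `(b, l)` are wet and nothing in between
is wet; similarly left gap `(wall, b)` : `b` is the least wet site, right gap `(a, wall)`.
(P) Progress.  Let `c ≤ c''` be wet at level `l - 1`, `j ∈ [c-1, c+2]`, `b ∈ [c''-1, c''+2]`,
`0 ≤ j ≤ b ≤ W`, all sites of `[j, b)` not wet at level `l`.  Then there is a walk `(j, l) → (b, l)`.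
Induction on `c'' - c` using (A) for level `l - 1`.  A site within distance `1` of a wet site of
level `l - 1` which is not wet at level `l` is closed (R steps).  If `b ≤ c + 2` : R steps only.  If
`b > c + 2` : then `c < c''` (since `b ≤ c'' + 2`); R steps from `j` to `c + 2`.  Let `c'` be the next
wet site of level `l - 1` after `c`, `c' ≤ c''`.  If `c' ≤ c + 3` : apply the induction to `c'`,
`j = c + 2`.  If `c' ≥ c + 4` : D step `(c + 2, l) → (c + 1, l - 1)`, gap walk (A)
`(c + 1, l - 1) → (c', l - 1)`, U step `→ (c' - 1, l)`, and induction for `c'`, `j = c' - 1`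
(note `c' - 1 ≤ c'' - 1 ≤ b`).
(A) Gap : if `a < b` is a gap of level `l` there is a walk `(a + 1, l) → (b, l)`.  Level `0` : the
sites in between are closed.  Level `l ≥ 1` : `a` has a wet neighbour `c` of level `l - 1` and `b`
has a wet neighbour `c''` of level `l - 1`; if `c ≤ c''` apply (P) with `j = a + 1`
(`c - 1 ≤ a + 1 ≤ c + 2`, and `b ∈ [c''-1, c''+1]`); if `c'' < c`, then
`c ≤ a + 1 ≤ b ≤ c'' + 1 ≤ c`, so `b = a + 1` and there is nothing to do.
(W) Left gap : if `b` is the least wet site of level `l` then for some `k ≤ l` there is a walk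
`(0, k) → (b, l)`.  Level `0` or the least wet site `c` of level `l - 1` satisfies `c ≤ 1` : start at
`k = l` : (P) with this `c`, `j = 0`, `c''` a wet neighbour of `b` (level `0`: R steps).  If `c ≥ 2` :
induction gives `(0, k) → (c, l - 1)`, U step to `(c - 1, l)`, then (P) from `j = c - 1`.
(E) Right gap : if `a` is the greatest wet site of level `l` there is a walk from `(a + 1, l)` to
some `(W, l')`.  Level `0` : R steps.  Level `l ≥ 1` : let `c''` be the greatest wet site of level
`l - 1`; `c` a wet neighbour of `a`, `c ≤ c''`.  If `c'' + 2 ≥ W` : (P) with `b = W`.  Otherwise (P)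
with `b = c'' + 2` (then `a + 1 ≤ c'' + 2`), D step to `(c'' + 1, l - 1)`, induction.
Conclusion : let `n` be minimal with no wet site at level `n` (monotone: if level `n` has no wet
site, neither has level `n + 1`).  `n = 0` : R steps from `(0, 0)` to `(W, 0)`.  `n ≥ 1` : let `c`, `c''`
be the least and the greatest wet site of level `n - 1`.  If `c ≤ 1` start at `(0, n)`, else (W) for
level `n - 1` and a U step to `(c - 1, n)`; then (P) to `min (c'' + 2, W)`; if this is `W` we are
done, else D step to `(c'' + 1, n - 1)` and (E) for level `n - 1`.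
-/

namespace CPM

/-- wet sites -/
def wetP (op : ℤ → ℤ → Prop) (W : ℕ) : ℕ → ℤ → Prop
  | 0, i => 0 ≤ i ∧ i < W ∧ op i 0
  | n + 1, i => 0 ≤ i ∧ i < W ∧ op i (n + 1) ∧ ∃ j, |i - j| ≤ 1 ∧ wetP op W n j

/-- steps of the certificate walk -/
inductive WStep (op : ℤ → ℤ → Prop) (W n : ℕ) : ℤ × ℤ → ℤ × ℤ → Prop
  | R (i l : ℤ) (h0 : 0 ≤ i) (h1 : i < W) (h2 : 0 ≤ l) (h3 : l ≤ n) (hc : ¬ op i l) :
      WStep op W n (i, l) (i + 1, l)
  | D (i l : ℤ) : WStep op W n (i, l) (i - 1, l - 1)
  | U (i l : ℤ) : WStep op W n (i, l) (i - 1, l + 1)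

theorem r02_range {op : ℤ → ℤ → Prop} {W l : ℕ} {i : ℤ} (h : wetP op W l i) : 0 ≤ i ∧ i < W := by
  cases l with
  | zero => exact ⟨h.1, h.2.1⟩
  | succ l => exact ⟨h.1, h.2.1⟩

theorem r02_closed {op : ℤ → ℤ → Prop} {W l : ℕ} {i j : ℤ} (hj : wetP op W l j)
    (hij : |i - j| ≤ 1) (h0 : 0 ≤ i) (h1 : i < W) (h : ¬ wetP op W (l + 1) i) :
    ¬ op i ((l : ℤ) + 1) := fun ho => h ⟨h0, h1, ho, j, hij, hj⟩

theorem r02_closed0 {op : ℤ → ℤ → Prop} {W : ℕ} {i : ℤ} (h0 : 0 ≤ i) (h1 : i < W)
    (h : ¬ wetP op W 0 i) : ¬ op i 0 := fun ho => h ⟨h0, h1, ho⟩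

theorem r02_rsteps (op : ℤ → ℤ → Prop) (W n : ℕ) (l : ℤ) (hl0 : 0 ≤ l) (hln : l ≤ n) (m : ℕ) :
    ∀ a b : ℤ, b - a = m → 0 ≤ a → b ≤ W → (∀ i, a ≤ i → i < b → ¬ op i l) →
      Relation.ReflTransGen (WStep op W n) (a, l) (b, l) := by
  induction m with
  | zero =>
    intro a b h _ _ _
    have : a = b := by push_cast at h; omega
    rw [this]
  | succ m ih =>
    intro a b h ha hb hc
    push_cast at h
    have h1 := ih (a + 1) b (by omega) (by omega) hb (fun i hi hi' => hc i (by omega) hi')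
    exact Relation.ReflTransGen.head
      (WStep.R a l ha (by omega) hl0 hln (hc a le_rfl (by omega))) h1

theorem r02_rsteps' (op : ℤ → ℤ → Prop) (W n : ℕ) (l : ℤ) (hl0 : 0 ≤ l) (hln : l ≤ n)
    (a b : ℤ) (hab : a ≤ b) (ha : 0 ≤ a) (hb : b ≤ W) (hc : ∀ i, a ≤ i → i < b → ¬ op i l) :
      Relation.ReflTransGen (WStep op W n) (a, l) (b, l) :=
  r02_rsteps op W n l hl0 hln (b - a).toNat a b (by omega) ha hb hc

/-- least element of a set of integers bounded below -/
theorem r02_least (p : ℤ → Prop) (z : ℤ) (hz : ∀ i, p i → z ≤ i) (hex : ∃ i, p i) :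
    ∃ c, p c ∧ ∀ i, p i → c ≤ i := by
  obtain ⟨c, hc, hm⟩ := Int.exists_least_of_bdd (P := p) ⟨z, hz⟩ hex
  exact ⟨c, hc, hm⟩

theorem r02_greatest (p : ℤ → Prop) (z : ℤ) (hz : ∀ i, p i → i ≤ z) (hex : ∃ i, p i) :
    ∃ c, p c ∧ ∀ i, p i → i ≤ c := by
  obtain ⟨c, hc, hm⟩ := Int.exists_greatest_of_bdd (P := p) ⟨z, hz⟩ hex
  exact ⟨c, hc, hm⟩

/-- gap walks of level `l` -/
def r02_A (op : ℤ → ℤ → Prop) (W n l : ℕ) : Prop :=
  ∀ a b : ℤ, wetP op W l a → wetP op W l b → a < b →
    (∀ i, a < i → i < b → ¬ wetP op W l i) →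
    Relation.ReflTransGen (WStep op W n) (a + 1, (l : ℤ)) (b, (l : ℤ))

theorem r02_P (op : ℤ → ℤ → Prop) (W n l : ℕ) (hln : l + 1 ≤ n) (hA : r02_A op W n l) (m : ℕ) :
    ∀ c c' j b : ℤ, wetP op W l c → wetP op W l c' → c ≤ c' → c' - c ≤ m →
      c - 1 ≤ j → j ≤ c + 2 → c' - 1 ≤ b → b ≤ c' + 2 → 0 ≤ j → j ≤ b → b ≤ W →
      (∀ i, j ≤ i → i < b → ¬ wetP op W (l + 1) i) →
      Relation.ReflTransGen (WStep op W n) (j, (l : ℤ) + 1) (b, (l : ℤ) + 1) := by
  induction m with
  | zero =>
    intro c c' j b hc hc' hcc hm h1 h2 h3 h4 h5 h6 h7 hw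
    push_cast at hm
    have : c' = c := by omega
    subst this
    refine r02_rsteps' op W n _ (by omega) (by omega) j b h6 h5 h7 ?_
    intro i hi hi'
    exact r02_closed hc (abs_le.2 ⟨by omega, by omega⟩) (by omega) (by omega) (hw i hi hi')
  | succ m ih =>
    intro c c' j b hc hc' hcc hm h1 h2 h3 h4 h5 h6 h7 hw
    push_cast at hm
    by_cases hb : b ≤ c + 2
    · refine r02_rsteps' op W n _ (by omega) (by omega) j b h6 h5 h7 ?_
      intro i hi hi'
      exact r02_closed hc (abs_le.2 ⟨by omega, by omega⟩) (by omega) (by omega) (hw i hi hi')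
    push Not at hb
    have hcr := r02_range hc
    have hR : Relation.ReflTransGen (WStep op W n) (j, (l : ℤ) + 1) (c + 2, (l : ℤ) + 1) := by
      refine r02_rsteps' op W n _ (by omega) (by omega) j (c + 2) h2 h5 (by omega) ?_
      intro i hi hi'
      exact r02_closed hc (abs_le.2 ⟨by omega, by omega⟩) (by omega) (by omega)
        (hw i hi (by omega))
    obtain ⟨d, ⟨hd, hcd⟩, hdm⟩ := r02_least (fun i => wetP op W l i ∧ c < i) c
      (fun i hi => hi.2.le) ⟨c', hc', by omega⟩
    have hdc' : d ≤ c' := hdm c' ⟨hc', by omega⟩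
    by_cases hd3 : d ≤ c + 3
    · refine hR.trans ?_
      exact ih d c' (c + 2) b hd hc' hdc' (by omega) (by omega) (by omega) h3 h4 (by omega)
        (by omega) h7 (fun i hi hi' => hw i (by omega) hi')
    · push Not at hd3
      have hgap := hA c d hc hd hcd (fun i hi hi' hwi => by
        have := hdm i ⟨hwi, hi⟩
        omega)
      have hD : WStep op W n (c + 2, (l : ℤ) + 1) (c + 1, (l : ℤ)) := by
        have := WStep.D (op := op) (W := W) (n := n) (c + 2) ((l : ℤ) + 1)
        have e1 : c + 2 - 1 = c + 1 := by ring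
        have e2 : (l : ℤ) + 1 - 1 = l := by ring
        rwa [e1, e2] at this
      have hU : WStep op W n (d, (l : ℤ)) (d - 1, (l : ℤ) + 1) := WStep.U d l
      have hlast := ih d c' (d - 1) b hd hc' hdc' (by omega) (by omega) (by omega) h3 h4
        (by omega) (by omega) h7 (fun i hi hi' => hw i (by omega) hi')
      exact ((hR.tail hD).trans (hgap.tail hU)).trans hlast

theorem r02_P' (op : ℤ → ℤ → Prop) (W n l : ℕ) (hln : l + 1 ≤ n) (hA : r02_A op W n l)
    (c c' j b : ℤ) (hc : wetP op W l c) (hc' : wetP op W l c') (hcc : c ≤ c')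
      (h1 : c - 1 ≤ j) (h2 : j ≤ c + 2) (h3 : c' - 1 ≤ b) (h4 : b ≤ c' + 2) (h5 : 0 ≤ j)
      (h6 : j ≤ b) (h7 : b ≤ W)
      (hw : ∀ i, j ≤ i → i < b → ¬ wetP op W (l + 1) i) :
      Relation.ReflTransGen (WStep op W n) (j, (l : ℤ) + 1) (b, (l : ℤ) + 1) :=
  r02_P op W n l hln hA (c' - c).toNat c c' j b hc hc' hcc (by omega) h1 h2 h3 h4 h5 h6 h7 hw

theorem r02_nb {op : ℤ → ℤ → Prop} {W l : ℕ} {i : ℤ} (h : wetP op W (l + 1) i) :
    ∃ j, wetP op W l j ∧ i - 1 ≤ j ∧ j ≤ i + 1 := by
  obtain ⟨_, _, _, j, hj, hw⟩ := h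
  have := abs_le.1 hj
  exact ⟨j, hw, by omega, by omega⟩

theorem r02_Aall (op : ℤ → ℤ → Prop) (W n : ℕ) (l : ℕ) : l ≤ n → r02_A op W n l := by
  induction l with
  | zero =>
    intro _ a b ha hb hab hw
    have h1 := r02_range ha
    have h2 := r02_range hb
    refine r02_rsteps' op W n _ (by simp) (by simp) (a + 1) b (by omega) (by omega) (by omega) ?_
    intro i hi hi'
    exact r02_closed0 (by omega) (by omega) (hw i (by omega) hi')
  | succ l ih =>
    intro hl a b ha hb hab hw
    have h1 := r02_range ha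
    have h2 := r02_range hb
    obtain ⟨c, hc, hc1, hc2⟩ := r02_nb ha
    obtain ⟨c', hc', hc'1, hc'2⟩ := r02_nb hb
    push_cast
    by_cases hcc : c ≤ c'
    · exact r02_P' op W n l hl (ih (by omega)) c c' (a + 1) b hc hc' hcc (by omega) (by omega)
        (by omega) (by omega) (by omega) (by omega) (by omega)
        (fun i hi hi' => hw i (by omega) hi')
    · have : b = a + 1 := by omega
      rw [this]

theorem r02_W (op : ℤ → ℤ → Prop) (W n : ℕ) (l : ℕ) : l ≤ n → ∀ b : ℤ, wetP op W l b →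
    (∀ i, i < b → ¬ wetP op W l i) →
    ∃ k : ℤ, 0 ≤ k ∧ k ≤ l ∧ Relation.ReflTransGen (WStep op W n) (0, k) (b, (l : ℤ)) := by
  induction l with
  | zero =>
    intro _ b hb hw
    have h2 := r02_range hb
    refine ⟨0, le_rfl, by simp, ?_⟩
    refine r02_rsteps' op W n _ (by simp) (by simp) 0 b (by omega) (by omega) (by omega) ?_
    intro i hi hi'
    exact r02_closed0 (by omega) (by omega) (hw i (by omega))
  | succ l ih =>
    intro hl b hb hw
    have h2 := r02_range hb
    obtain ⟨c', hc', hc'1, hc'2⟩ := r02_nb hb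
    obtain ⟨c, hc, hcm⟩ := r02_least (fun i => wetP op W l i) 0
      (fun i hi => (r02_range hi).1) ⟨c', hc'⟩
    have hcc := hcm c' hc'
    have hcr := r02_range hc
    have hA := r02_Aall op W n l (by omega)
    by_cases hc1 : c ≤ 1
    · refine ⟨(l : ℤ) + 1, by omega, by push_cast; omega, ?_⟩
      push_cast
      exact r02_P' op W n l hl hA c c' 0 b hc hc' hcc (by omega) (by omega)
        (by omega) (by omega) (by omega) (by omega) (by omega)
        (fun i hi hi' => hw i (by omega))
    · obtain ⟨k, hk0, hkl, hk⟩ := ih (by omega) c hc (fun i hi hwi => by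
        have := hcm i hwi
        omega)
      refine ⟨k, hk0, by push_cast; omega, ?_⟩
      have hU : WStep op W n (c, (l : ℤ)) (c - 1, (l : ℤ) + 1) := WStep.U c l
      push_cast
      refine (hk.tail hU).trans ?_
      exact r02_P' op W n l hl hA c c' (c - 1) b hc hc' hcc (by omega) (by omega)
        (by omega) (by omega) (by omega) (by omega) (by omega)
        (fun i hi hi' => hw i (by omega))

theorem r02_E (op : ℤ → ℤ → Prop) (W n : ℕ) (l : ℕ) : l ≤ n → ∀ a : ℤ, wetP op W l a →
    (∀ i, a < i → ¬ wetP op W l i) →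
    ∃ k : ℤ, Relation.ReflTransGen (WStep op W n) (a + 1, (l : ℤ)) ((W : ℤ), k) := by
  induction l with
  | zero =>
    intro _ a ha hw
    have h2 := r02_range ha
    refine ⟨0, ?_⟩
    refine r02_rsteps' op W n _ (by simp) (by simp) (a + 1) W (by omega) (by omega) (by omega) ?_
    intro i hi hi'
    exact r02_closed0 (by omega) (by omega) (hw i (by omega))
  | succ l ih =>
    intro hl a ha hw
    have h2 := r02_range ha
    obtain ⟨c, hc, hc1, hc2⟩ := r02_nb ha
    obtain ⟨c', hc', hcm⟩ := r02_greatest (fun i => wetP op W l i) W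
      (fun i hi => (r02_range hi).2.le) ⟨c, hc⟩
    have hcc := hcm c hc
    have hcr := r02_range hc'
    have hA := r02_Aall op W n l (by omega)
    by_cases hc1 : (W : ℤ) ≤ c' + 2
    · refine ⟨(l : ℤ) + 1, ?_⟩
      push_cast
      exact r02_P' op W n l hl hA c c' (a + 1) W hc hc' hcc (by omega) (by omega)
        (by omega) (by omega) (by omega) (by omega) (by omega)
        (fun i hi hi' => hw i (by omega))
    · obtain ⟨k, hk⟩ := ih (by omega) c' hc' (fun i hi hwi => by
        have := hcm i hwi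
        omega)
      refine ⟨k, ?_⟩
      have hD : WStep op W n (c' + 2, (l : ℤ) + 1) (c' + 1, (l : ℤ)) := by
        have := WStep.D (op := op) (W := W) (n := n) (c' + 2) ((l : ℤ) + 1)
        have e1 : c' + 2 - 1 = c' + 1 := by ring
        have e2 : (l : ℤ) + 1 - 1 = l := by ring
        rwa [e1, e2] at this
      push_cast
      refine Relation.ReflTransGen.trans ?_ (Relation.ReflTransGen.head hD hk)
      exact r02_P' op W n l hl hA c c' (a + 1) (c' + 2) hc hc' hcc (by omega) (by omega)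
        (by omega) (by omega) (by omega) (by omega) (by omega)
        (fun i hi hi' => hw i (by omega))

theorem certificate (op : ℤ → ℤ → Prop) (W n : ℕ) (hW : 1 ≤ W) (h : ∀ i, ¬ wetP op W n i) :
    ∃ k l : ℤ, 0 ≤ k ∧ k ≤ n ∧ Relation.ReflTransGen (WStep op W n) (0, k) (W, l) := by
  classical
  have hex : ∃ n' : ℕ, ∀ i, ¬ wetP op W n' i := ⟨n, h⟩
  set N := Nat.find hex with hN
  have hNs : ∀ i, ¬ wetP op W N i := Nat.find_spec hex
  have hNn : N ≤ n := Nat.find_min' hex h
  have hmin : ∀ m, m < N → ∃ i, wetP op W m i := by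
    intro m hm
    have := Nat.find_min hex hm
    push Not at this
    exact this
  clear_value N
  cases N with
  | zero =>
    refine ⟨0, 0, le_rfl, by omega, ?_⟩
    refine r02_rsteps' op W n _ (by simp) (by simp) 0 W (by omega) (by omega) (by omega) ?_
    intro i hi hi'
    exact r02_closed0 (by omega) (by omega) (hNs i)
  | succ m =>
    obtain ⟨i0, hi0⟩ := hmin m (by omega)
    obtain ⟨c, hc, hcm⟩ := r02_least (fun i => wetP op W m i) 0
      (fun i hi => (r02_range hi).1) ⟨i0, hi0⟩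
    obtain ⟨c', hc', hcm'⟩ := r02_greatest (fun i => wetP op W m i) W
      (fun i hi => (r02_range hi).2.le) ⟨i0, hi0⟩
    have hcc := hcm c' hc'
    have hcr := r02_range hc
    have hcr' := r02_range hc'
    have hA := r02_Aall op W n m (by omega)
    -- first part of the walk
    have hfirst : ∃ k j : ℤ, 0 ≤ k ∧ k ≤ n ∧ c - 1 ≤ j ∧ j ≤ c + 2 ∧ 0 ≤ j ∧ j ≤ c' ∧
        Relation.ReflTransGen (WStep op W n) (0, k) (j, (m : ℤ) + 1) := by
      by_cases hc1 : c ≤ 1
      · exact ⟨(m : ℤ) + 1, 0, by omega, by omega, by omega, by omega, by omega, by omega,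
          Relation.ReflTransGen.refl⟩
      · obtain ⟨k, hk0, hkl, hk⟩ := r02_W op W n m (by omega) c hc (fun i hi hwi => by
          have := hcm i hwi
          omega)
        have hU : WStep op W n (c, (m : ℤ)) (c - 1, (m : ℤ) + 1) := WStep.U c m
        exact ⟨k, c - 1, hk0, by omega, by omega, by omega, by omega, by omega, hk.tail hU⟩
    obtain ⟨k, j, hk0, hkn, hj1, hj2, hj0, hjc, hwalk⟩ := hfirst
    by_cases hb : (W : ℤ) ≤ c' + 2
    · refine ⟨k, (m : ℤ) + 1, hk0, hkn, hwalk.trans ?_⟩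
      exact r02_P' op W n m hNn hA c c' j W hc hc' hcc (by omega) (by omega)
        (by omega) (by omega) (by omega) (by omega) (by omega)
        (fun i hi hi' => hNs i)
    · obtain ⟨l, hl⟩ := r02_E op W n m (by omega) c' hc' (fun i hi hwi => by
        have := hcm' i hwi
        omega)
      have hD : WStep op W n (c' + 2, (m : ℤ) + 1) (c' + 1, (m : ℤ)) := by
        have := WStep.D (op := op) (W := W) (n := n) (c' + 2) ((m : ℤ) + 1)
        have e1 : c' + 2 - 1 = c' + 1 := by ring
        have e2 : (m : ℤ) + 1 - 1 = m := by ring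
        rwa [e1, e2] at this
      refine ⟨k, l, hk0, hkn, (hwalk.trans ?_).trans (Relation.ReflTransGen.head hD hl)⟩
      exact r02_P' op W n m hNn hA c c' j (c' + 2) hc hc' hcc (by omega) (by omega)
        (by omega) (by omega) (by omega) (by omega) (by omega)
        (fun i hi hi' => hNs i)

end CPM
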