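import Pool.Agent.Lib.MP_1a4724_pr.R02

/-!
# R03 (90 min) : counting the certificates

`cl i l` events (site `(i, l)` closed) with `P (all sites of S closed) ≤ ε ^ |S|` for every finite
set `S`, `0 < ε`, `3 √ε ≤ 1/2`.  Then `P (no wet site at level n) ≤ 2 (n + 1) (3 √ε)^W`.

Proof.  By `certificate` there is a walk from `(0, k)`, `0 ≤ k ≤ n`, to position `W`.  Take such a
walk (for this `k`) with the least number `N` of steps; it visits no site twice (otherwise cut the
loop).  Code a walk by its starting level and its word in `{R, D, U}^N`.  The displacement gives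
`#R - #D - #U = W`, so `N = 2 #R - W ≤ 2 #R`, `#R = (N + W) / 2 ≥ W`, `N ≥ W`.  The `#R` sites from which
the R steps start are distinct and closed.  For a given word the probability that all these sites
are closed is at most `ε ^ #R ≤ (√ε)^N` (as `#R ≥ N / 2`, `ε ≤ 1`).  There are `3^N` words.  Sum over
`k` and over `N ≥ W` : `(n + 1) Σ_{N ≥ W} (3 √ε)^N ≤ 2 (n + 1) (3 √ε)^W`.
(Measurability of the event is assumed in the form of the null-safe statement with `P.real` of the
set; the union bound `measure_iUnion_le` needs no measurability.)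
-/

noncomputable section

open MeasureTheory Set

namespace CPM

/-- one step of the walk -/
def r03_step (a : Fin 3) (p : ℤ × ℤ) : ℤ × ℤ :=
  if a = 0 then (p.1 + 1, p.2) else if a = 1 then (p.1 - 1, p.2 - 1) else (p.1 - 1, p.2 + 1)

/-- the end of the walk with a given word -/
def r03_end : ℤ × ℤ → List (Fin 3) → ℤ × ℤ
  | p, [] => p
  | p, a :: w => r03_end (r03_step a p) w

/-- the sites from which the R steps start -/
def r03_sites : ℤ × ℤ → List (Fin 3) → List (ℤ × ℤ)
  | _, [] => []
  | p, a :: w => if a = 0 then p :: r03_sites (r03_step a p) w else r03_sites (r03_step a p) w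

theorem r03_word {op : ℤ → ℤ → Prop} {W n : ℕ} {p q : ℤ × ℤ}
    (h : Relation.ReflTransGen (WStep op W n) p q) :
    ∃ w, r03_end p w = q ∧ ∀ s ∈ r03_sites p w, ¬ op s.1 s.2 := by
  induction h using Relation.ReflTransGen.head_induction_on with
  | refl => exact ⟨[], rfl, by simp [r03_sites]⟩
  | head hs _ ih =>
    obtain ⟨w, hw1, hw2⟩ := ih
    cases hs with
    | R i l h0 h1 h2 h3 hc =>
      refine ⟨0 :: w, hw1, ?_⟩
      intro s hs
      simp only [r03_sites, if_true, List.mem_cons] at hs
      rcases hs with rfl | hs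
      · exact hc
      · exact hw2 s hs
    | D i l =>
      refine ⟨1 :: w, hw1, ?_⟩
      intro s hs
      exact hw2 s hs
    | U i l =>
      refine ⟨2 :: w, hw1, ?_⟩
      intro s hs
      exact hw2 s hs

theorem r03_cut (w : List (Fin 3)) : ∀ (p s : ℤ × ℤ), s ∈ r03_sites p w →
    ∃ w2, r03_end s (0 :: w2) = r03_end p w ∧ (r03_sites s (0 :: w2)).Sublist (r03_sites p w) := by
  induction w with
  | nil => intro p s hs; simp [r03_sites] at hs
  | cons a w ih =>
    intro p s hs
    by_cases ha : a = 0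
    · subst ha
      by_cases hsp : s = p
      · subst hsp
        exact ⟨w, rfl, List.Sublist.refl _⟩
      · have hs' : s ∈ r03_sites (r03_step 0 p) w := by
          simp only [r03_sites, if_true, List.mem_cons] at hs
          exact hs.resolve_left hsp
        obtain ⟨w2, h1, h2⟩ := ih _ _ hs'
        refine ⟨w2, h1, h2.trans ?_⟩
        simp only [r03_sites, if_true]
        exact List.sublist_cons_self _ _
    · have hs' : s ∈ r03_sites (r03_step a p) w := by
        simpa only [r03_sites, if_neg ha] using hs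
      obtain ⟨w2, h1, h2⟩ := ih _ _ hs'
      refine ⟨w2, h1, ?_⟩
      simpa only [r03_sites, if_neg ha] using h2

theorem r03_nodup (w : List (Fin 3)) : ∀ (p : ℤ × ℤ),
    ∃ w', r03_end p w' = r03_end p w ∧ (∀ s ∈ r03_sites p w', s ∈ r03_sites p w) ∧
      (r03_sites p w').Nodup := by
  induction w with
  | nil => intro p; exact ⟨[], rfl, fun s hs => hs, by simp [r03_sites]⟩
  | cons a w ih =>
    intro p
    obtain ⟨u, h1, h2, h3⟩ := ih (r03_step a p)
    by_cases ha : a = 0
    · subst ha
      by_cases hp : p ∈ r03_sites (r03_step 0 p) u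
      · obtain ⟨w2, k1, k2⟩ := r03_cut u _ _ hp
        refine ⟨0 :: w2, k1.trans h1, ?_, h3.sublist k2⟩
        intro s hs
        have := h2 s (k2.subset hs)
        simp only [r03_sites, if_true, List.mem_cons]
        exact Or.inr this
      · refine ⟨0 :: u, h1, ?_, ?_⟩
        · intro s hs
          simp only [r03_sites, if_true, List.mem_cons] at hs ⊢
          exact hs.imp_right (h2 s)
        · simp only [r03_sites, if_true, List.nodup_cons]
          exact ⟨hp, h3⟩
    · refine ⟨a :: u, h1, ?_, ?_⟩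
      · simpa only [r03_sites, if_neg ha] using h2
      · simpa only [r03_sites, if_neg ha] using h3

theorem r03_disp (w : List (Fin 3)) : ∀ (p : ℤ × ℤ),
    (r03_end p w).1 = p.1 + 2 * ((r03_sites p w).length : ℤ) - (w.length : ℤ) := by
  induction w with
  | nil => intro p; simp [r03_end, r03_sites]
  | cons a w ih =>
    intro p
    simp only [r03_end, ih, r03_sites]
    by_cases ha : a = 0
    · subst ha
      simp only [r03_step, if_true, List.length_cons]
      push_cast
      ring
    · have h1 : (r03_step a p).1 = p.1 - 1 := by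
        unfold r03_step
        rw [if_neg ha]
        split_ifs <;> rfl
      simp only [if_neg ha, h1, List.length_cons]
      push_cast
      ring

theorem r03_len (w : List (Fin 3)) : ∀ (p : ℤ × ℤ), (r03_sites p w).length ≤ w.length := by
  induction w with
  | nil => intro p; simp [r03_sites]
  | cons a w ih =>
    intro p
    simp only [r03_sites]
    split_ifs
    · simp only [List.length_cons]
      exact Nat.succ_le_succ (ih _)
    · simp only [List.length_cons]
      exact (ih _).trans (Nat.le_succ _)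

theorem strip_bound {Ω : Type*} [MeasurableSpace Ω] {P : Measure Ω} [IsProbabilityMeasure P]
    (op : Ω → ℤ → ℤ → Prop) {ε : ℝ} (hε : 0 < ε) (hε' : 3 * Real.sqrt ε ≤ 1 / 2)
    (h : ∀ S : Finset (ℤ × ℤ), P.real {ω | ∀ p ∈ S, ¬ op ω p.1 p.2} ≤ ε ^ S.card)
    (W n : ℕ) :
    P.real {ω | ∀ i, ¬ wetP (op ω) W n i} ≤ 2 * (n + 1) * (3 * Real.sqrt ε) ^ W := by
  classical
  rcases Nat.eq_zero_or_pos W with hW0 | hWpos
  · subst hW0
    have h1 : P.real {ω | ∀ i, ¬ wetP (op ω) 0 n i} ≤ 1 := measureReal_le_one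
    have h2 : (0 : ℝ) ≤ (n : ℝ) := Nat.cast_nonneg n
    rw [pow_zero]
    linarith
  set r : ℝ := 3 * Real.sqrt ε with hr
  have hs0 : 0 ≤ Real.sqrt ε := Real.sqrt_nonneg ε
  have hs1 : Real.sqrt ε ≤ 1 := by linarith
  have hr0 : 0 ≤ r := by positivity
  -- the events
  set G : ℕ → (M : ℕ) → (Fin (W + M) → Fin 3) → Set Ω := fun k M w =>
    {ω | ((r03_end (0, (k : ℤ)) (List.ofFn w)).1 = (W : ℤ) ∧
      (r03_sites (0, (k : ℤ)) (List.ofFn w)).Nodup) ∧
      ∀ s ∈ r03_sites (0, (k : ℤ)) (List.ofFn w), ¬ op ω s.1 s.2} with hG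
  have hGb : ∀ k M w, P (G k M w) ≤ ENNReal.ofReal (Real.sqrt ε ^ (W + M)) := by
    intro k M w
    by_cases hc : (r03_end (0, (k : ℤ)) (List.ofFn w)).1 = (W : ℤ) ∧
      (r03_sites (0, (k : ℤ)) (List.ofFn w)).Nodup
    · set L := r03_sites (0, (k : ℤ)) (List.ofFn w) with hL
      have h1 : G k M w ⊆ {ω | ∀ p ∈ L.toFinset, ¬ op ω p.1 p.2} := by
        intro ω hω p hp
        exact hω.2 p (List.mem_toFinset.1 hp)
      have h2 : P.real (G k M w) ≤ ε ^ L.toFinset.card :=
        (measureReal_mono h1).trans (h L.toFinset)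
      rw [List.toFinset_card_of_nodup hc.2] at h2
      have h3 := r03_disp (List.ofFn w) (0, (k : ℤ))
      rw [hc.1, ← hL, List.length_ofFn] at h3
      have h4 : 2 * L.length = (W + M) + W := by
        push_cast at h3
        have : (2 : ℤ) * (L.length : ℤ) = (W + M : ℤ) + W := by linarith
        exact_mod_cast this
      have h5 : ε ^ L.length = Real.sqrt ε ^ ((W + M) + W) := by
        rw [← h4, pow_mul, Real.sq_sqrt hε.le]
      have h6 : Real.sqrt ε ^ ((W + M) + W) ≤ Real.sqrt ε ^ (W + M) :=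
        pow_le_pow_of_le_one hs0 hs1 (by omega)
      rw [← ENNReal.ofReal_toReal (measure_ne_top P (G k M w))]
      apply ENNReal.ofReal_le_ofReal
      rw [h5] at h2
      exact h2.trans h6
    · have : G k M w = ∅ := by
        ext ω
        simp only [hG, Set.mem_ofPred_eq, mem_empty_iff_false, iff_false]
        exact fun hω => hc hω.1
      rw [this, measure_empty]
      exact zero_le
  have hsub : {ω | ∀ i, ¬ wetP (op ω) W n i} ⊆
      ⋃ k ∈ Finset.range (n + 1), ⋃ M, ⋃ w, G k M w := by
    intro ω hω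
    obtain ⟨k, l, hk0, hkn, hwalk⟩ := certificate (op ω) W n hWpos hω
    obtain ⟨w, hw1, hw2⟩ := r03_word hwalk
    obtain ⟨u, hu1, hu2, hu3⟩ := r03_nodup w (0, k)
    have hkk : ((k.toNat : ℕ) : ℤ) = k := Int.toNat_of_nonneg hk0
    have hd := r03_disp u (0, k)
    have hl := r03_len u (0, k)
    have hend : (r03_end (0, k) u).1 = (W : ℤ) := by rw [hu1, hw1]
    rw [hend] at hd
    have hlen : W ≤ u.length := by
      have h1 : ((r03_sites (0, k) u).length : ℤ) ≤ (u.length : ℤ) := by exact_mod_cast hl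
      have h2 : (W : ℤ) = 0 + 2 * ((r03_sites (0, k) u).length : ℤ) - (u.length : ℤ) := hd
      have h3 : (W : ℤ) ≤ (u.length : ℤ) := by linarith
      exact_mod_cast h3
    obtain ⟨M, hM⟩ := Nat.exists_eq_add_of_le hlen
    simp only [mem_iUnion]
    refine ⟨k.toNat, Finset.mem_range.2 (by omega), M, fun i => u.get (i.cast hM.symm), ?_⟩
    have hof : List.ofFn (fun i : Fin (W + M) => u.get (i.cast hM.symm)) = u := by
      apply List.ext_get
      · rw [List.length_ofFn, hM]
      · intro j h1 h2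
        simp
    change ((r03_end (0, ((k.toNat : ℕ) : ℤ)) (List.ofFn _)).1 = (W : ℤ) ∧
      (r03_sites (0, ((k.toNat : ℕ) : ℤ)) (List.ofFn _)).Nodup) ∧
      ∀ s ∈ r03_sites (0, ((k.toNat : ℕ) : ℤ)) (List.ofFn _), ¬ op ω s.1 s.2
    rw [hof, hkk]
    exact ⟨⟨hend, hu3⟩, fun s hs => hw2 s (hu2 s hs)⟩
  -- the sum
  have hM : ∀ k M, P (⋃ w, G k M w) ≤ ENNReal.ofReal (r ^ (W + M)) := by
    intro k M
    calc P (⋃ w, G k M w) ≤ ∑ w, P (G k M w) := measure_iUnion_fintype_le _ _
      _ ≤ ∑ _w : Fin (W + M) → Fin 3, ENNReal.ofReal (Real.sqrt ε ^ (W + M)) :=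
        Finset.sum_le_sum (fun w _ => hGb k M w)
      _ = ENNReal.ofReal (r ^ (W + M)) := by
        rw [Finset.sum_const, Finset.card_univ, Fintype.card_fun, Fintype.card_fin, Fintype.card_fin,
          nsmul_eq_mul, hr, mul_pow, ENNReal.ofReal_mul (by positivity)]
        congr 1
        rw [← ENNReal.ofReal_natCast]
        push_cast
        rfl
  have hr1 : r ≤ 1 / 2 := hε'
  have hsumm : Summable (fun M : ℕ => r ^ (W + M)) := by
    simp_rw [pow_add]
    exact (summable_geometric_of_lt_one hr0 (by linarith)).mul_left _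
  have htsum : ∑' M : ℕ, r ^ (W + M) ≤ 2 * r ^ W := by
    simp_rw [pow_add]
    rw [tsum_mul_left, tsum_geometric_of_lt_one hr0 (by linarith)]
    have h1 : (1 - r)⁻¹ ≤ 2 := by
      rw [inv_le_comm₀ (by linarith) (by norm_num)]
      linarith
    have h2 : 0 ≤ r ^ W := pow_nonneg hr0 _
    nlinarith
  have hk : ∀ k, P (⋃ M, ⋃ w, G k M w) ≤ ENNReal.ofReal (2 * r ^ W) := by
    intro k
    calc P (⋃ M, ⋃ w, G k M w) ≤ ∑' M, P (⋃ w, G k M w) := measure_iUnion_le _
      _ ≤ ∑' M, ENNReal.ofReal (r ^ (W + M)) := ENNReal.tsum_le_tsum (fun M => hM k M)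
      _ = ENNReal.ofReal (∑' M, r ^ (W + M)) :=
        (ENNReal.ofReal_tsum_of_nonneg (fun M => pow_nonneg hr0 _) hsumm).symm
      _ ≤ ENNReal.ofReal (2 * r ^ W) := ENNReal.ofReal_le_ofReal htsum
  have hall : P {ω | ∀ i, ¬ wetP (op ω) W n i} ≤ ENNReal.ofReal (2 * (n + 1) * r ^ W) := by
    calc P {ω | ∀ i, ¬ wetP (op ω) W n i}
        ≤ P (⋃ k ∈ Finset.range (n + 1), ⋃ M, ⋃ w, G k M w) := measure_mono hsub
      _ ≤ ∑ k ∈ Finset.range (n + 1), P (⋃ M, ⋃ w, G k M w) := measure_biUnion_finset_le _ _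
      _ ≤ ∑ _k ∈ Finset.range (n + 1), ENNReal.ofReal (2 * r ^ W) :=
        Finset.sum_le_sum (fun k _ => hk k)
      _ = ENNReal.ofReal (2 * (n + 1) * r ^ W) := by
        rw [Finset.sum_const, Finset.card_range, nsmul_eq_mul, ← ENNReal.ofReal_natCast,
          ← ENNReal.ofReal_mul (by positivity)]
        congr 1
        push_cast
        ring
  have hnn : 0 ≤ 2 * ((n : ℝ) + 1) * r ^ W := by positivity
  exact ENNReal.toReal_le_of_le_ofReal hnn hall

end CPM
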