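import Pool.Agent.Lib.MP_1a4724_pr.R01
import Pool.Agent.Lib.MP_1a4724_pr.R03

/-!
# R04 (75 min) : finite range of dependence

Suppose each piece fails with probability at most `ε₀` (`pieces_whp`).  The event `openS i n`
(fails with probability `≤ 2 ε₀`) depends on the marks of the types in `boxI i × boxI i` (sites
`[8μi - 8μ, 8μi + 72μ]`) at the times in `[(2n-1)u, (2n+2)u]` (`openS_vmeas`).  For `|i - i'| ≥ 11`
the boxes are disjoint, for `|n - n'| ≥ 2` the time intervals are disjoint.  Colour the sites by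
`(i mod 11, n mod 2)` : 22 classes; for a finite set `S` of sites some class contains at least
`|S| / 22` elements of `S`; within a class the events are independent (`IsPoisson.mul`, induction
over the finite set : the event of one site against the intersection over the others, whose regions
are disjoint).  So `P (openS fails on S) ≤ (2ε₀)^(|S|/22) ≤ ε^|S|` with
`ε = (2ε₀)^(1/22)` (real power; `2 ε₀ ≤ 1`).
`strip_perc` : choose `ε₀` with `3 √ε ≤ 1/2` for `ε = (2 ε₀)^(1/22)`; take `u, μ` from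
`pieces_whp ε₀`.  For `v ∈ {0, 1}` and `i₀ : ℤ` put `op ω i l = openS (M ω) u μ (i₀ + i + v l) l`; the
map `(i, l) ↦ (i₀ + i + v l, l)` is injective, so `strip_bound` applies.
-/

noncomputable section

open MeasureTheory Set

namespace CPM

/-- the region on which the site depends -/
def r04_R (u μ : ℕ) (p : ℤ × ℤ) : Set ((ℤ × ℤ) × ℝ) :=
  {q | q.1.1 ∈ boxI μ p.1 ∧ q.1.2 ∈ boxI μ p.1 ∧
    q.2 ∈ Icc ((2 * (p.2 : ℝ) - 1) * u) ((2 * (p.2 : ℝ) + 2) * u)}

theorem r04_disj_box {μ : ℕ} (hμ : 0 < μ) {i j x : ℤ} (hij : i + 11 ≤ j) (h1 : x ∈ boxI μ i)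
    (h2 : x ∈ boxI μ j) : False := by
  unfold boxI at h1 h2
  rw [mem_Icc] at h1 h2
  have hμ' : (0 : ℤ) < (μ : ℤ) := by exact_mod_cast hμ
  have h3 := h1.2
  have h4 := h2.1
  nlinarith [mul_le_mul_of_nonneg_left hij hμ'.le]

theorem r04_disj_time {u : ℕ} (hu : 0 < u) {i j : ℤ} {t : ℝ} (hij : i + 2 ≤ j)
    (h1 : t ∈ Icc ((2 * (i : ℝ) - 1) * u) ((2 * (i : ℝ) + 2) * u))
    (h2 : t ∈ Icc ((2 * (j : ℝ) - 1) * u) ((2 * (j : ℝ) + 2) * u)) : False := by
  rw [mem_Icc] at h1 h2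
  have hu' : (0 : ℝ) < (u : ℝ) := by exact_mod_cast hu
  have hij' : (i : ℝ) + 2 ≤ (j : ℝ) := by exact_mod_cast hij
  have h3 := h1.2
  have h4 := h2.1
  nlinarith [mul_le_mul_of_nonneg_left hij' hu'.le]

theorem r04_disj {u μ : ℕ} (hu : 0 < u) (hμ : 0 < μ) {p q : ℤ × ℤ}
    (h : 11 ≤ |p.1 - q.1| ∨ 2 ≤ |p.2 - q.2|) (x : (ℤ × ℤ) × ℝ) (h1 : x ∈ r04_R u μ p)
    (h2 : x ∈ r04_R u μ q) : False := by
  rcases h with h | h
  · rcases le_abs.1 h with h | h
    · exact r04_disj_box hμ (i := q.1) (j := p.1) (by linarith) h2.1 h1.1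
    · exact r04_disj_box hμ (i := p.1) (j := q.1) (by linarith) h1.1 h2.1
  · rcases le_abs.1 h with h | h
    · exact r04_disj_time hu (i := q.2) (j := p.2) (by linarith) h2.2.2 h1.2.2
    · exact r04_disj_time hu (i := p.2) (j := q.2) (by linarith) h1.2.2 h2.2.2

theorem r04_class {Ω : Type} [MeasurableSpace Ω] {P : Measure Ω} {M : Ω → ℤ × ℤ → Set ℝ}
    {lam : ℝ} (hP : IsPoisson P M (cRate lam)) {u μ : ℕ} (hu : 0 < u) (hμ : 0 < μ) {η : ℝ}
    (hη : ∀ i n : ℤ, P.real {ω | ¬ openS (M ω) u μ i n} ≤ η) (T : Finset (ℤ × ℤ)) :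
    (∀ p ∈ T, ∀ q ∈ T, p ≠ q → (11 ≤ |p.1 - q.1| ∨ 2 ≤ |p.2 - q.2|)) →
    P.real {ω | ∀ p ∈ T, ¬ openS (M ω) u μ p.1 p.2} ≤ η ^ T.card := by
  classical
  have := hP.prob
  have hη0 : 0 ≤ η := le_trans measureReal_nonneg (hη 0 0)
  induction T using Finset.induction_on with
  | empty => intro _; simp
  | insert a T ha ih =>
    intro hT
    have ih' := ih (fun p hp q hq => hT p (Finset.mem_insert_of_mem hp) q (Finset.mem_insert_of_mem hq))
    have hset : {ω | ∀ p ∈ insert a T, ¬ openS (M ω) u μ p.1 p.2} =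
        {ω | ¬ openS (M ω) u μ a.1 a.2} ∩ {ω | ∀ p ∈ T, ¬ openS (M ω) u μ p.1 p.2} := by
      ext ω
      constructor
      · intro h
        exact ⟨h a (Finset.mem_insert_self _ _), fun p hp => h p (Finset.mem_insert_of_mem hp)⟩
      · rintro ⟨h1, h2⟩ p hp
        rcases Finset.mem_insert.1 hp with rfl | hp
        · exact h1
        · exact h2 p hp
    have hA : MeasurableSet[VA M (r04_R u μ a)] {ω | ¬ openS (M ω) u μ a.1 a.2} :=
      ((openS_vmeas u μ a.1 a.2).not).measurableSet (M := M) hP.good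
    have hBv : VMeas (⋃ p ∈ T, r04_R u μ p) (fun m : ℤ × ℤ → Set ℝ => ∀ p : {p // p ∈ T},
        ¬ openS m u μ p.1.1 p.1.2) := by
      refine VMeas.forall (fun p => ((openS_vmeas u μ p.1.1 p.1.2).not).mono ?_)
      intro x hx
      simp only [mem_iUnion]
      exact ⟨p.1, p.2, hx⟩
    have hB : MeasurableSet[VA M (⋃ p ∈ T, r04_R u μ p)]
        {ω | ∀ p ∈ T, ¬ openS (M ω) u μ p.1 p.2} := by
      have h1 := hBv.measurableSet (M := M) hP.good
      have h2 : {ω | ∀ p ∈ T, ¬ openS (M ω) u μ p.1 p.2} =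
          {ω | ∀ p : {p // p ∈ T}, ¬ openS (M ω) u μ p.1.1 p.1.2} := by
        ext ω
        exact ⟨fun h p => h p.1 p.2, fun h p hp => h ⟨p, hp⟩⟩
      rw [h2]
      exact h1
    have hmul := hP.mul (r04_R u μ a) (⋃ p ∈ T, r04_R u μ p) (fun e => by
      have : {t : ℝ | (e, t) ∈ r04_R u μ a ∧ (e, t) ∈ ⋃ p ∈ T, r04_R u μ p} = ∅ := by
        ext t
        simp only [mem_empty_iff_false, iff_false]
        rintro ⟨h1, h2⟩
        simp only [mem_iUnion] at h2
        obtain ⟨p, hp, h2⟩ := h2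
        refine r04_disj hu hμ (hT a (Finset.mem_insert_self _ _) p (Finset.mem_insert_of_mem hp) ?_)
          (e, t) h1 h2
        rintro rfl
        exact ha hp
      rw [this, measure_empty]) hA hB
    rw [hset, hmul, Finset.card_insert_of_notMem ha, pow_succ']
    exact mul_le_mul (hη _ _) ih' measureReal_nonneg hη0

theorem r04_all {Ω : Type} [MeasurableSpace Ω] {P : Measure Ω} {M : Ω → ℤ × ℤ → Set ℝ}
    {lam : ℝ} (hP : IsPoisson P M (cRate lam)) {u μ : ℕ} (hu : 0 < u) (hμ : 0 < μ) {ε : ℝ}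
    (hε0 : 0 ≤ ε) (hε1 : ε ≤ 1)
    (hη : ∀ i n : ℤ, P.real {ω | ¬ openS (M ω) u μ i n} ≤ ε ^ 22) (S : Finset (ℤ × ℤ)) :
    P.real {ω | ∀ p ∈ S, ¬ openS (M ω) u μ p.1 p.2} ≤ ε ^ S.card := by
  classical
  have := hP.prob
  set c : ℤ × ℤ → ℤ × ℤ := fun p => (p.1 % 11, p.2 % 2) with hc
  set K : Finset (ℤ × ℤ) := (Finset.Ico (0 : ℤ) 11) ×ˢ (Finset.Ico (0 : ℤ) 2) with hK
  have hKc : K.card = 22 := by simp [hK]
  have hmap : ∀ p ∈ S, c p ∈ K := by
    intro p _
    simp only [hc, hK, Finset.mem_product, Finset.mem_Ico]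
    refine ⟨⟨?_, ?_⟩, ⟨?_, ?_⟩⟩ <;> omega
  obtain ⟨k, hk, hcard⟩ : ∃ k ∈ K, S.card ≤ 22 * (S.filter (fun p => c p = k)).card := by
    by_contra hno
    push Not at hno
    have h1 := Finset.card_eq_sum_card_fiberwise hmap
    have hKne : K.Nonempty := by
      rw [← Finset.card_pos, hKc]; norm_num
    have h2 : ∑ k ∈ K, 22 * (S.filter (fun p => c p = k)).card < ∑ _k ∈ K, S.card :=
      Finset.sum_lt_sum_of_nonempty hKne (fun k hk => hno k hk)
    rw [← Finset.mul_sum, ← h1, Finset.sum_const, hKc, smul_eq_mul] at h2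
    exact lt_irrefl _ h2
  have h3 := r04_class hP hu hμ hη (S.filter (fun p => c p = k)) (by
    intro p hp q hq hpq
    have hp' := (Finset.mem_filter.1 hp).2
    have hq' := (Finset.mem_filter.1 hq).2
    rw [← hq'] at hp'
    have e1 : p.1 % 11 = q.1 % 11 := congrArg Prod.fst hp'
    have e2 : p.2 % 2 = q.2 % 2 := congrArg Prod.snd hp'
    by_cases h1 : p.1 = q.1
    · right
      have h2 : p.2 ≠ q.2 := fun h2 => hpq (Prod.ext h1 h2)
      rw [le_abs]
      omega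
    · left
      rw [le_abs]
      omega)
  calc P.real {ω | ∀ p ∈ S, ¬ openS (M ω) u μ p.1 p.2}
      ≤ P.real {ω | ∀ p ∈ S.filter (fun p => c p = k), ¬ openS (M ω) u μ p.1 p.2} :=
        measureReal_mono (fun ω hω p hp => hω p (Finset.mem_filter.1 hp).1)
    _ ≤ (ε ^ 22) ^ (S.filter (fun p => c p = k)).card := h3
    _ = ε ^ (22 * (S.filter (fun p => c p = k)).card) := by rw [← pow_mul]
    _ ≤ ε ^ S.card := pow_le_pow_of_le_one hε0 hε1 hcard

theorem strip_perc {lam : ℝ} (h : lambdaC < ENNReal.ofReal lam) :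
    ∃ u μ : ℕ, 0 < u ∧ 0 < μ ∧
      ∀ (Ω : Type) [MeasurableSpace Ω] (P : Measure Ω) (M : Ω → ℤ × ℤ → Set ℝ),
        IsPoisson P M (cRate lam) → ∀ v : ℤ, v = 0 ∨ v = 1 → ∀ i₀ : ℤ, ∀ W n : ℕ,
          P.real {ω | ∀ i, ¬ wetP (fun i l => openS (M ω) u μ (i₀ + i + v * l) l) W n i} ≤
            2 * (n + 1) * (1 / 2) ^ W := by
  classical
  obtain ⟨u, μ, hu, hμ, hp⟩ := pieces_whp h ((1 / 36 : ℝ) ^ 22 / 2) (by positivity)
  refine ⟨u, μ, hu, hμ, ?_⟩
  intro Ω _ P M hP v hv i₀ W n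
  have := hP.prob
  have hη : ∀ i n : ℤ, P.real {ω | ¬ openS (M ω) u μ i n} ≤ (1 / 36 : ℝ) ^ 22 := by
    intro i n
    have h1 := (hp Ω P M hP i (2 * n)).1
    have h2 := (hp Ω P M hP i (2 * n - 1)).2
    have h3 : {ω | ¬ openS (M ω) u μ i n} ⊆
        {ω | ¬ pieceR (M ω) u μ i (2 * n)} ∪ {ω | ¬ pieceL (M ω) u μ i (2 * n - 1)} := by
      intro ω hω
      by_contra hcon
      simp only [mem_union, not_or] at hcon
      apply hω
      exact ⟨not_not.1 hcon.1, not_not.1 hcon.2⟩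
    have h4 : P.real {ω | ¬ openS (M ω) u μ i n} ≤
        P.real {ω | ¬ pieceR (M ω) u μ i (2 * n)} + P.real {ω | ¬ pieceL (M ω) u μ i (2 * n - 1)} :=
      (measureReal_mono h3).trans (measureReal_union_le _ _)
    linarith
  have hall := r04_all hP hu hμ (ε := 1 / 36) (by norm_num) (by norm_num) hη
  have hsq : Real.sqrt (1 / 36 : ℝ) = 1 / 6 := by
    rw [show (1 / 36 : ℝ) = (1 / 6) ^ 2 by norm_num]
    exact Real.sqrt_sq (by norm_num)
  have hS : ∀ S : Finset (ℤ × ℤ), P.real {ω | ∀ p ∈ S,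
      ¬ (fun i l : ℤ => openS (M ω) u μ (i₀ + i + v * l) l) p.1 p.2} ≤ (1 / 36 : ℝ) ^ S.card := by
    intro S
    set g : ℤ × ℤ → ℤ × ℤ := fun p => (i₀ + p.1 + v * p.2, p.2) with hg
    have hginj : Function.Injective g := by
      intro p q hpq
      have e2 : p.2 = q.2 := (Prod.mk.inj hpq).2
      have e1 : i₀ + p.1 + v * p.2 = i₀ + q.1 + v * q.2 := (Prod.mk.inj hpq).1
      rw [e2] at e1
      exact Prod.ext (by linarith) e2
    have h1 := hall (S.image g)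
    rw [Finset.card_image_of_injective _ hginj] at h1
    have h2 : {ω | ∀ p ∈ S, ¬ (fun i l : ℤ => openS (M ω) u μ (i₀ + i + v * l) l) p.1 p.2} ⊆
        {ω | ∀ p ∈ S.image g, ¬ openS (M ω) u μ p.1 p.2} := by
      intro ω hω p hp
      obtain ⟨q, hq, rfl⟩ := Finset.mem_image.1 hp
      exact hω q hq
    exact le_trans (measureReal_mono h2) h1
  have hfin := strip_bound (P := P) (fun ω i l => openS (M ω) u μ (i₀ + i + v * l) l)
    (ε := 1 / 36) (by norm_num) (by rw [hsq]; norm_num) hS W n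
  rw [hsq] at hfin
  refine hfin.trans (le_of_eq ?_)
  norm_num

end CPM
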