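import Pool.Agent.Lib.MP_1a4724_pr.R04

/-!
# R05 (90 min) : vertical crossings of an interval, slanted crossings

`wetP_wetS` (deterministic) : if `wetP (fun i l => openS m u μ (i₀ + i + v l) l) W n i`, `v ∈ {0, 1}`,
then `wetS m u μ S B (i₀ + i + v n) n`, where `S ⊇` all `z` with `|z - 8μ i'| ≤ μ` for some
`i' ∈ [i₀, i₀ + W)` and `B ⊇ boxI i'` for all `i' = i₀ + j + v l`, `0 ≤ j < W`, `0 ≤ l ≤ n`.
Induction on `n` : `wet_start`, `wet_step` (consecutive box indices differ by `i - j + v`, of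
absolute value `≤ 2`).
Consequence : for every time `t ∈ [2nu, (2n+2)u]` the path from `S` is at time `t` at a site of
`boxI (i₀ + i + v n)` (`Conn.split`, `Conn.mem`).
`cross_strip` (`v = 0`) : interval `[0, N]`, time `t`.  `i₀ = 1`, `W = N / (8μ) - 9` (natural
numbers) so that `boxI i' ⊆ [0, N]` for `1 ≤ i' ≤ W`; `n = t / (2u)` (floor), so `t ∈ [2nu, (2n+2)u]`,
`n ≤ t`.  Everything happens inside `B = [0, N]`; the starting points are within `μ` of `8μi'`, in
`[0, N]`.  Probability of failure `≤ 2 (t + 1) (1/2)^W` (for `W = 0` the bound is trivial if `C` is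
large : `C exp (-c N) ≥ 1` for `N < 80 μ`).
`cross_slanted` (`v = 1`, `B = univ`) : `n = t / (2u)`, `W = n / 2 + 1`, `i₀ = - W - 1` : the starting
points are `≤ 8μ (i₀ + W - 1) + μ ≤ 0`; at time `t` the path is at a site
`≥ 8μ (i₀ + i + n) - 8μ ≥ 8μ (n - W - 2) ≥ 8μ (n / 2 - 3)`, which is `≥ a t` for a suitable `a > 0` and
`t` large; for small `t` choose `C` large.  Failure probability `2 (n + 1) (1/2)^W ≤ C exp (-c t)`.
-/

noncomputable section

open MeasureTheory Set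

namespace CPM

theorem r05_wetP_range {op : ℤ → ℤ → Prop} {W n : ℕ} {i : ℤ} (h : wetP op W n i) :
    0 ≤ i ∧ i < W := by
  cases n with
  | zero => exact ⟨h.1, h.2.1⟩
  | succ n => exact ⟨h.1, h.2.1⟩

theorem r05_wetS {m : ℤ × ℤ → Set ℝ} {u μ : ℕ} {S B : Set ℤ} {i₀ v : ℤ} (hv : v = 0 ∨ v = 1)
    {W n : ℕ} (hS : ∀ i' z : ℤ, i₀ ≤ i' → i' < i₀ + W → |z - 8 * μ * i'| ≤ μ → z ∈ S)
    (hB : ∀ j l : ℤ, 0 ≤ j → j < W → 0 ≤ l → l ≤ n → boxI μ (i₀ + j + v * l) ⊆ B) :
    ∀ k : ℕ, k ≤ n → ∀ i, wetP (fun i l => openS m u μ (i₀ + i + v * l) l) W k i →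
      wetS m u μ S B (i₀ + i + v * k) k := by
  intro k
  induction k with
  | zero =>
    intro _ i hi
    obtain ⟨h0, h1, h2⟩ := hi
    have h3 : pieceR m u μ (i₀ + i + v * 0) 0 := by
      have := h2.1
      simpa using this
    have h4 := wet_start (S := S) (B := B) h3 (fun z hz => by
      refine hS (i₀ + i + v * 0) z ?_ ?_ hz
      · simp [h0]
      · simp [h1])
    simpa using h4
  | succ k ih =>
    intro hk i hi
    obtain ⟨h0, h1, h2, j, hij, hj⟩ := hi
    have h3 := ih (by omega) j hj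
    have hjr := r05_wetP_range hj
    have h4 : openS m u μ (i₀ + i + v * (k + 1)) ((k : ℤ) + 1) := h2
    have h5 := wet_step h3 h4 (by
      rw [abs_le] at hij ⊢
      rcases hv with hv | hv
      · subst hv
        constructor <;> linarith [hij.1, hij.2]
      · subst hv
        constructor <;> linarith [hij.1, hij.2])
      (hB i (k + 1) h0 h1 (by positivity) (by exact_mod_cast hk))
      (hB j k hjr.1 hjr.2 (by positivity) (by
        have : k ≤ n := by omega
        exact_mod_cast this))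
    push_cast
    exact h5

theorem r05_at {m : ℤ × ℤ → Set ℝ} {u μ : ℕ} {S B : Set ℤ} {i : ℤ} {n : ℕ}
    (h : wetS m u μ S B i n) (hB : boxI μ i ⊆ B) {t : ℝ} (h1 : 2 * (n : ℝ) * u ≤ t)
    (h2 : t ≤ (2 * (n : ℝ) + 2) * u) :
    ∃ x ∈ S, ∃ y ∈ boxI μ i, Conn (adjOn B intAdj) m (x, 0) (y, t) := by
  obtain ⟨x, w, z₁, z₂, hx, hw, _, _, c1, c2, c3⟩ := h
  have c4 := c2.trans c3
  have h1' : 2 * (((n : ℕ) : ℤ) : ℝ) * u ≤ t := by exact_mod_cast h1
  have h2' : t ≤ (2 * (((n : ℕ) : ℤ) : ℝ) + 2) * u := by exact_mod_cast h2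
  obtain ⟨y, c5, _⟩ := c4.split h1' h2'
  exact ⟨x, hx, y, c5.mem hw, c1.trans (c5.mono_on hB)⟩

theorem r05_time {u : ℕ} (hu : 0 < u) (t : ℕ) :
    2 * ((t / (2 * u) : ℕ) : ℝ) * u ≤ t ∧ (t : ℝ) ≤ (2 * ((t / (2 * u) : ℕ) : ℝ) + 2) * u := by
  have h1 : 2 * u * (t / (2 * u)) ≤ t := Nat.mul_div_le t (2 * u)
  have h2 : t < 2 * u * (t / (2 * u) + 1) := Nat.lt_mul_div_succ t (by omega)
  have h3 : ((2 * u * (t / (2 * u)) : ℕ) : ℝ) ≤ t := by exact_mod_cast h1
  have h4 : (t : ℝ) < ((2 * u * (t / (2 * u) + 1) : ℕ) : ℝ) := by exact_mod_cast h2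
  push_cast at h3 h4
  constructor <;> linarith

theorem r05_half_pow (W : ℕ) : ((1 : ℝ) / 2) ^ W = Real.exp (-(Real.log 2 * W)) := by
  rw [Real.exp_neg, mul_comm, Real.exp_nat_mul, Real.exp_log (by norm_num)]
  simp

theorem cross_strip {lam : ℝ} (h : lambdaC < ENNReal.ofReal lam) :
    ∃ C c : ℝ, 0 < C ∧ 0 < c ∧
      ∀ (Ω : Type) [MeasurableSpace Ω] (P : Measure Ω) (M : Ω → ℤ × ℤ → Set ℝ),
        IsPoisson P M (cRate lam) → ∀ N t : ℕ,
          P.real {ω | ¬ ∃ x y : ℤ, x ∈ Icc (0 : ℤ) N ∧ y ∈ Icc (0 : ℤ) N ∧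
            Conn (adjOn (Icc (0 : ℤ) N) intAdj) (M ω) (x, 0) (y, t)} ≤
            C * (t + 1) * Real.exp (-c * N) := by
  obtain ⟨u, μ, hu, hμ, hperc⟩ := strip_perc h
  have hlog : 0 < Real.log 2 := Real.log_pos (by norm_num)
  have hμ' : (0 : ℝ) < μ := by exact_mod_cast hμ
  refine ⟨2048, Real.log 2 / (8 * μ), by norm_num, by positivity, ?_⟩
  intro Ω _ P M hP N t
  have hprob := hP.prob
  set W : ℕ := N / (8 * μ) - 9 with hW
  set n : ℕ := t / (2 * u) with hn
  have hb := hperc Ω P M hP 0 (Or.inl rfl) 1 W n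
  have htime := r05_time hu t
  rw [← hn] at htime
  have hsub : {ω | ¬ ∃ x y : ℤ, x ∈ Icc (0 : ℤ) N ∧ y ∈ Icc (0 : ℤ) N ∧
      Conn (adjOn (Icc (0 : ℤ) N) intAdj) (M ω) (x, 0) (y, t)} ⊆
      {ω | ∀ i, ¬ wetP (fun i l => openS (M ω) u μ (1 + i + 0 * l) l) W n i} := by
    intro ω hω i hi
    apply hω
    have hr := r05_wetP_range hi
    have hWN : 8 * μ * (W + 9) ≤ N := by
      have h1 : 0 < W := by
        have : (0 : ℤ) < W := by linarith [hr.1, hr.2]
        exact_mod_cast this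
      have h2 : W + 9 = N / (8 * μ) := by omega
      rw [h2]
      exact Nat.mul_div_le N (8 * μ)
    have hWN' : 8 * (μ : ℤ) * (W + 9) ≤ N := by exact_mod_cast hWN
    have hμz : (0 : ℤ) < μ := by exact_mod_cast hμ
    have hbox : ∀ j l : ℤ, 0 ≤ j → j < W → 0 ≤ l → l ≤ n →
        boxI μ (1 + j + 0 * l) ⊆ Icc (0 : ℤ) N := by
      intro j l hj0 hj1 _ _ z hz
      obtain ⟨hz1, hz2⟩ := hz
      have h3 : j ≤ W - 1 := by linarith
      have h4 : (μ : ℤ) * j ≤ μ * (W - 1) := mul_le_mul_of_nonneg_left h3 hμz.le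
      have h5 : 0 ≤ (μ : ℤ) * j := mul_nonneg hμz.le hj0
      constructor
      · nlinarith
      · nlinarith
    have hwet := r05_wetS (m := M ω) (u := u) (μ := μ) (S := Icc (0 : ℤ) N)
      (B := Icc (0 : ℤ) N) (i₀ := 1) (v := 0) (Or.inl rfl) (W := W) (n := n) (by
        intro i' z h3 h4 h5
        rw [abs_le] at h5
        have h6 : i' ≤ W := by linarith
        have h7 : (μ : ℤ) * i' ≤ μ * W := mul_le_mul_of_nonneg_left h6 hμz.le
        have h8 : (μ : ℤ) * 1 ≤ μ * i' := mul_le_mul_of_nonneg_left h3 hμz.le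
        constructor
        · nlinarith [h5.1]
        · nlinarith [h5.2]) hbox n le_rfl i hi
    obtain ⟨x, hx, y, hy, hc⟩ := r05_at hwet
      (hbox i n hr.1 hr.2 (by positivity) le_rfl) htime.1 htime.2
    exact ⟨x, y, hx, hbox i n hr.1 hr.2 (by positivity) le_rfl hy, hc⟩
  have h1 : P.real {ω | ¬ ∃ x y : ℤ, x ∈ Icc (0 : ℤ) N ∧ y ∈ Icc (0 : ℤ) N ∧
      Conn (adjOn (Icc (0 : ℤ) N) intAdj) (M ω) (x, 0) (y, t)} ≤ 2 * (n + 1) * (1 / 2) ^ W :=
    (measureReal_mono hsub).trans hb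
  refine h1.trans ?_
  have hnt : (n : ℝ) ≤ t := by
    have : n ≤ t := Nat.div_le_self t (2 * u)
    exact_mod_cast this
  have hWr : (N : ℝ) / (8 * μ) - 10 ≤ W := by
    have h2 : N < 8 * μ * (N / (8 * μ) + 1) := Nat.lt_mul_div_succ N (by omega)
    have h3 : N / (8 * μ) ≤ W + 9 := by omega
    have h4 : N < 8 * μ * (W + 10) :=
      lt_of_lt_of_le h2 (Nat.mul_le_mul_left _ (by omega))
    have h5 : (N : ℝ) < 8 * μ * (W + 10) := by exact_mod_cast h4
    have h6 : (N : ℝ) / (8 * μ) < W + 10 := by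
      rw [div_lt_iff₀ (by positivity)]
      linarith
    linarith
  have hpow : ((1 : ℝ) / 2) ^ W ≤ 1024 * Real.exp (-(Real.log 2 / (8 * μ)) * N) := by
    rw [r05_half_pow]
    have h2 : (1024 : ℝ) = Real.exp (Real.log 2 * 10) := by
      rw [mul_comm, show (10 : ℝ) = ((10 : ℕ) : ℝ) by norm_num, Real.exp_nat_mul,
        Real.exp_log (by norm_num)]
      norm_num
    rw [h2, ← Real.exp_add]
    apply Real.exp_le_exp.2
    have h3 : Real.log 2 * ((N : ℝ) / (8 * μ) - 10) ≤ Real.log 2 * W :=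
      mul_le_mul_of_nonneg_left hWr hlog.le
    have h4 : -(Real.log 2 / (8 * μ)) * N = -(Real.log 2 * ((N : ℝ) / (8 * μ))) := by ring
    rw [h4]
    linarith
  calc 2 * ((n : ℝ) + 1) * (1 / 2) ^ W
      ≤ 2 * ((t : ℝ) + 1) * (1024 * Real.exp (-(Real.log 2 / (8 * μ)) * N)) := by
        apply mul_le_mul _ hpow (by positivity) (by positivity)
        linarith
    _ = 2048 * (t + 1) * Real.exp (-(Real.log 2 / (8 * μ)) * N) := by ring

theorem cross_slanted {lam : ℝ} (h : lambdaC < ENNReal.ofReal lam) :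
    ∃ a C c : ℝ, 0 < a ∧ 0 < C ∧ 0 < c ∧
      ∀ (Ω : Type) [MeasurableSpace Ω] (P : Measure Ω) (M : Ω → ℤ × ℤ → Set ℝ),
        IsPoisson P M (cRate lam) → ∀ t : ℕ,
          P.real {ω | ¬ ∃ x y : ℤ, x ≤ 0 ∧ a * t ≤ y ∧ Conn intAdj (M ω) (x, 0) (y, t)} ≤
            C * Real.exp (-c * t) := by
  obtain ⟨u, μ, hu, hμ, hperc⟩ := strip_perc h
  have hlog : 0 < Real.log 2 := Real.log_pos (by norm_num)
  have hμ' : (0 : ℝ) < μ := by exact_mod_cast hμ
  have hu' : (0 : ℝ) < u := by exact_mod_cast hu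
  refine ⟨μ / u, 8 / Real.log 2 + 16, Real.log 2 / (8 * u), by positivity, by positivity,
    by positivity, ?_⟩
  intro Ω _ P M hP t
  have hprob := hP.prob
  by_cases ht : t < 28 * u
  · have ht' : (t : ℝ) < 28 * u := by exact_mod_cast ht
    have h1 : P.real {ω | ¬ ∃ x y : ℤ, x ≤ 0 ∧ (μ / u : ℝ) * t ≤ y ∧
        Conn intAdj (M ω) (x, 0) (y, t)} ≤ 1 := measureReal_le_one
    have h2 : (1 : ℝ) ≤ 16 * Real.exp (-(Real.log 2 / (8 * u)) * t) := by
      have h3 : (16 : ℝ) = Real.exp (Real.log 2 * 4) := by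
        rw [mul_comm, show (4 : ℝ) = ((4 : ℕ) : ℝ) by norm_num, Real.exp_nat_mul,
          Real.exp_log (by norm_num)]
        norm_num
      rw [h3, ← Real.exp_add]
      apply Real.one_le_exp
      have h4 : Real.log 2 / (8 * u) * t ≤ Real.log 2 / (8 * u) * (28 * u) :=
        mul_le_mul_of_nonneg_left ht'.le (by positivity)
      have h5 : Real.log 2 / (8 * u) * (28 * u) = Real.log 2 * (7 / 2) := by
        field_simp
        ring
      rw [h5] at h4
      nlinarith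
    have h3 : 0 ≤ 8 / Real.log 2 * Real.exp (-(Real.log 2 / (8 * u)) * t) := by positivity
    calc _ ≤ (1 : ℝ) := h1
      _ ≤ _ := by
        rw [add_mul]
        linarith
  · have ht' : (28 : ℝ) * u ≤ t := by
      have : 28 * u ≤ t := by omega
      exact_mod_cast this
    set n : ℕ := t / (2 * u) with hn
    set W : ℕ := n / 2 + 1 with hW
    have hb := hperc Ω P M hP 1 (Or.inr rfl) (-W - 1) W n
    have htime := r05_time hu t
    rw [← hn] at htime
    have hW2 : 2 * W ≤ n + 2 := by omega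
    have hW2' : n + 1 ≤ 2 * W := by omega
    have hsub : {ω | ¬ ∃ x y : ℤ, x ≤ 0 ∧ (μ / u : ℝ) * t ≤ y ∧
        Conn intAdj (M ω) (x, 0) (y, t)} ⊆
        {ω | ∀ i, ¬ wetP (fun i l => openS (M ω) u μ (-W - 1 + i + 1 * l) l) W n i} := by
      intro ω hω i hi
      apply hω
      have hr := r05_wetP_range hi
      have hμz : (0 : ℤ) < μ := by exact_mod_cast hμ
      have hwet := r05_wetS (m := M ω) (u := u) (μ := μ) (S := {x : ℤ | x ≤ 0})
        (B := univ) (i₀ := -W - 1) (v := 1) (Or.inr rfl) (W := W) (n := n) (by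
          intro i' z h3 h4 h5
          rw [abs_le] at h5
          have h6 : i' ≤ -2 := by linarith
          have h7 : (μ : ℤ) * i' ≤ μ * (-2) := mul_le_mul_of_nonneg_left h6 hμz.le
          show z ≤ 0
          nlinarith [h5.2]) (fun _ _ _ _ _ _ => subset_univ _) n le_rfl i hi
      obtain ⟨x, hx, y, hy, hc⟩ := r05_at hwet (subset_univ _) htime.1 htime.2
      refine ⟨x, y, hx, ?_, conn_univ.1 hc⟩
      have hy1 : 8 * (μ : ℤ) * (-W - 1 + i + 1 * n) - 8 * μ ≤ y := hy.1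
      have hy2 : 8 * (μ : ℝ) * (-W - 1 + i + 1 * n) - 8 * μ ≤ y := by exact_mod_cast hy1
      have hi0 : (0 : ℝ) ≤ i := by exact_mod_cast hr.1
      have hWn : 2 * (W : ℝ) ≤ n + 2 := by exact_mod_cast hW2
      have h3 : (n : ℝ) / 2 - 3 ≤ -W - 1 + i + 1 * n - 1 := by linarith
      have h4 : 8 * (μ : ℝ) * ((n : ℝ) / 2 - 3) ≤ 8 * μ * (-W - 1 + i + 1 * n - 1) :=
        mul_le_mul_of_nonneg_left h3 (by positivity)
      have h5 : 8 * (μ : ℝ) * ((n : ℝ) / 2 - 3) ≤ y := by linarith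
      refine le_trans ?_ h5
      rw [div_mul_eq_mul_div, div_le_iff₀ hu']
      have h6 : (t : ℝ) ≤ 2 * n * u + 2 * u := by linarith [htime.2]
      have h7 : (t : ℝ) ≤ 8 * ((n : ℝ) / 2 - 3) * u := by linarith
      calc (μ : ℝ) * t ≤ μ * (8 * ((n : ℝ) / 2 - 3) * u) :=
            mul_le_mul_of_nonneg_left h7 hμ'.le
        _ = 8 * μ * ((n : ℝ) / 2 - 3) * u := by ring
    have hb' : P.real {ω | ∀ i, ¬ wetP (fun i l => openS (M ω) u μ (-W - 1 + i + 1 * l) l) W n i} ≤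
        2 * (n + 1) * (1 / 2) ^ W := hb
    refine ((measureReal_mono hsub).trans hb').trans ?_
    rw [r05_half_pow]
    have hWr : ((n : ℝ) + 1) / 2 ≤ W := by
      have : ((n + 1 : ℕ) : ℝ) ≤ ((2 * W : ℕ) : ℝ) := by exact_mod_cast hW2'
      push_cast at this
      linarith
    have h3 : Real.exp (-(Real.log 2 * W)) ≤ Real.exp (-(Real.log 2 * (((n : ℝ) + 1) / 2))) := by
      apply Real.exp_le_exp.2
      have := mul_le_mul_of_nonneg_left hWr hlog.le
      linarith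
    have h4 : ((n : ℝ) + 1) ≤ 4 / Real.log 2 * Real.exp (Real.log 2 * (((n : ℝ) + 1) / 4)) := by
      have h5 : Real.log 2 * (((n : ℝ) + 1) / 4) ≤ Real.exp (Real.log 2 * (((n : ℝ) + 1) / 4)) := by
        have := Real.add_one_le_exp (Real.log 2 * (((n : ℝ) + 1) / 4))
        linarith
      rw [div_mul_eq_mul_div, le_div_iff₀ hlog]
      linarith
    have h5 : 2 * ((n : ℝ) + 1) * Real.exp (-(Real.log 2 * W)) ≤
        8 / Real.log 2 * Real.exp (-(Real.log 2 * (((n : ℝ) + 1) / 4))) := by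
      calc 2 * ((n : ℝ) + 1) * Real.exp (-(Real.log 2 * W))
          ≤ 2 * (4 / Real.log 2 * Real.exp (Real.log 2 * (((n : ℝ) + 1) / 4))) *
            Real.exp (-(Real.log 2 * (((n : ℝ) + 1) / 2))) := by
            apply mul_le_mul _ h3 (by positivity) (by positivity)
            linarith
        _ = 8 / Real.log 2 * (Real.exp (Real.log 2 * (((n : ℝ) + 1) / 4)) *
            Real.exp (-(Real.log 2 * (((n : ℝ) + 1) / 2)))) := by ring
        _ = 8 / Real.log 2 * Real.exp (-(Real.log 2 * (((n : ℝ) + 1) / 4))) := by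
            rw [← Real.exp_add]
            congr 2
            ring
    refine h5.trans ?_
    have h6 : Real.exp (-(Real.log 2 * (((n : ℝ) + 1) / 4))) ≤
        Real.exp (-(Real.log 2 / (8 * u)) * t) := by
      apply Real.exp_le_exp.2
      have h7 : (t : ℝ) / (8 * u) ≤ ((n : ℝ) + 1) / 4 := by
        rw [div_le_iff₀ (by positivity)]
        linarith [htime.2]
      have h8 := mul_le_mul_of_nonneg_left h7 hlog.le
      have h9 : -(Real.log 2 / (8 * u)) * t = -(Real.log 2 * ((t : ℝ) / (8 * u))) := by ring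
      rw [h9]
      linarith
    rw [add_mul]
    have h7 := mul_le_mul_of_nonneg_left h6 (show 0 ≤ 8 / Real.log 2 by positivity)
    have h8 : 0 ≤ 16 * Real.exp (-(Real.log 2 / (8 * u)) * t) := by positivity
    linarith

end CPM
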