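import Pool.Agent.Lib.MP_1a4724_pr.R05

/-!
# R06 (75 min) : the contact process on the half line

All the statements are for every realisation of the marks on `ℕ`.  The events are measurable
functions of the marks on `ℕ`, and both a realisation on `ℕ` and the pull back to `ℕ` of a
realisation on `ℤ` (`exists_poisson`, `IsPoisson.pull`) are Poisson, so by `transfer_real` we may
assume that the marks are pulled back from marks `m` on `ℤ` (`conn_nat_int`).
`nat_strip` : `cross_strip`.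
`nat_edge` : with `a` of `cross_slanted` : if there is a path `(x, 0) → (y, t)` on `ℤ`, `x ≤ 0`,
`y ≥ a t`, and the infection from `(0, 0)` inside `[0, ∞)` is alive at time `t` (at a site `z`), then
it reaches a site `≥ a t` at time `t` : if `z ≥ a t` take `z`; otherwise `z < y` and `rightmost`
(`B = [0, ∞)`) gives a path inside `[0, ∞)` from `(0, 0)` to `(y, t)`.
`nat_die` : if the infection from `(0, 0)` in `ℕ` is alive at time `t` and not alive at time
`t + 1`, then either `nat_edge` fails at time `t`, or there is no crossing of the interval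
`[0, N]`, `N = ⌈a t⌉ - 1` (for `t ≥ 1`), during `[0, t + 1]` : otherwise the infection is at a site
`z ≥ a t > N` at time `t` and the crossing path starts at `c₀ ≥ 0`, is at `c ≤ N < z` at time `t`;
`switch` (paths `(0,0) → (z, t)` and `(c₀, 0) → (c, t)`) gives `(0, 0) → (c, t)`, and then
`→ (c₂, t + 1)`.  Probability `≤ C exp (-c t) + C (t + 2) exp (-c N)`.  Sum over the times
`≥ t` : `{alive at t, not alive for ever} ⊆ ∪_{s ≥ t} {alive at s, not alive at s + 1}`.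
-/

noncomputable section

open MeasureTheory Set

namespace CPM

theorem r06_pos {lam : ℝ} (h : lambdaC < ENNReal.ofReal lam) : 0 < lam := by
  have h1 : 0 < ENNReal.ofReal lam := lt_of_le_of_lt zero_le h
  exact ENNReal.ofReal_pos.1 h1

theorem r06_exists {lam : ℝ} (h : lambdaC < ENNReal.ofReal lam) :
    ∃ (Ω : Type) (_ : MeasurableSpace Ω) (P : Measure Ω) (M : Ω → ℤ × ℤ → Set ℝ),
      IsPoisson P M (cRate lam) := by
  refine exists_poisson (ℤ × ℤ) (cRate lam) (fun e => ?_)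
  have h1 := r06_pos h
  unfold cRate
  split_ifs
  · exact zero_le_one
  · exact h1.le

/-- transfer to marks pulled back from the line -/
theorem r06_transfer {lam : ℝ} (h : lambdaC < ENNReal.ofReal lam)
    {Q : (ℕ × ℕ → Set ℝ) → Prop} (hQ : VMeas univ Q) {Q' : (ℤ × ℤ → Set ℝ) → Prop}
    (hQQ : ∀ m : ℤ × ℤ → Set ℝ, Q (pull (fun n : ℕ => (n : ℤ)) m) → Q' m) {b : ℝ}
    (hb : ∀ (Ω : Type) [MeasurableSpace Ω] (P : Measure Ω) (M : Ω → ℤ × ℤ → Set ℝ),
        IsPoisson P M (cRate lam) → P.real {ω | Q' (M ω)} ≤ b)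
    {Ω : Type} [MeasurableSpace Ω] {P : Measure Ω} {M : Ω → ℕ × ℕ → Set ℝ}
    (hP : IsPoisson P M (cRate lam)) : P.real {ω | Q (M ω)} ≤ b := by
  obtain ⟨Ω', mΩ', P', M', hP'⟩ := r06_exists h
  have := hP'.prob
  have hpull : IsPoisson P' (fun ω => pull (fun n : ℕ => (n : ℤ)) (M' ω)) (cRate lam) :=
    hP'.pull Nat.cast_injective
  rw [transfer_real hP hpull hQ]
  refine le_trans (measureReal_mono ?_) (hb Ω' P' M' hP')
  intro ω hω
  exact hQQ _ hω

/-- connections of the pulled back marks -/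
theorem r06_conn {m : ℤ × ℤ → Set ℝ} {B : Set ℕ} {B' : Set ℤ}
    (hB : ∀ z : ℤ, z ∈ B' → 0 ≤ z ∧ z.toNat ∈ B) {i j : ℤ} {s t : ℝ} (hi : i ∈ B')
    (h : Conn (adjOn B' intAdj) m (i, s) (j, t)) :
    Conn (adjOn B natAdj) (pull (fun n : ℕ => (n : ℤ)) m) (i.toNat, s) (j.toNat, t) := by
  have hj : j ∈ B' := h.mem hi
  have hi' := hB i hi
  have hj' := hB j hj
  have ei : ((i.toNat : ℕ) : ℤ) = i := Int.toNat_of_nonneg hi'.1
  have ej : ((j.toNat : ℕ) : ℤ) = j := Int.toNat_of_nonneg hj'.1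
  rw [conn_nat_int hi'.2, ei, ej]
  exact h.mono_on (fun z hz => hB z hz)

theorem r06_vconn (B : Set ℕ) (x y : ℕ) (hx : x ∈ B) (s t : ℝ) :
    VMeas univ (fun m : ℕ × ℕ → Set ℝ => Conn (adjOn B natAdj) m (x, s) (y, t)) :=
  (conn_vmeas natAdj B hx y s t).mono (subset_univ _)

theorem r06_vconn' (x y : ℕ) (s t : ℝ) :
    VMeas univ (fun m : ℕ × ℕ → Set ℝ => Conn natAdj m (x, s) (y, t)) :=
  (conn_vmeas_univ natAdj x y s t).mono (subset_univ _)

theorem r06_alive_anti {m : ℕ × ℕ → Set ℝ} {s t : ℝ} (hs : 0 ≤ s) (hst : s ≤ t)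
    (h : aliveAt natAdj m 0 t) : aliveAt natAdj m 0 s := by
  obtain ⟨y, hy⟩ := h
  obtain ⟨z, hz, -⟩ := hy.split hs hst
  exact ⟨z, hz⟩

theorem nat_strip {lam : ℝ} (h : lambdaC < ENNReal.ofReal lam) :
    ∃ C c : ℝ, 0 < C ∧ 0 < c ∧
      ∀ (Ω : Type) [MeasurableSpace Ω] (P : Measure Ω) (M : Ω → ℕ × ℕ → Set ℝ),
        IsPoisson P M (cRate lam) → ∀ N t : ℕ,
          P.real {ω | ¬ ∃ x y : ℕ, x ≤ N ∧ y ≤ N ∧
            Conn (adjOn (Iic N) natAdj) (M ω) (x, 0) (y, t)} ≤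
            C * (t + 1) * Real.exp (-c * N) := by
  obtain ⟨C, c, hC, hc, hb⟩ := cross_strip h
  refine ⟨C, c, hC, hc, ?_⟩
  intro Ω _ P M hP N t
  refine r06_transfer h (Q := fun m : ℕ × ℕ → Set ℝ => ¬ ∃ x y : ℕ, x ≤ N ∧ y ≤ N ∧
      Conn (adjOn (Iic N) natAdj) m (x, 0) (y, t))
    (Q' := fun m : ℤ × ℤ → Set ℝ => ¬ ∃ x y : ℤ, x ∈ Icc (0 : ℤ) N ∧ y ∈ Icc (0 : ℤ) N ∧
            Conn (adjOn (Icc (0 : ℤ) N) intAdj) m (x, 0) (y, t)) ?_ ?_
    (fun Ω _ P M hP => hb Ω P M hP N t) hP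
  · refine VMeas.not (VMeas.exists (fun x => VMeas.exists (fun y => ?_)))
    by_cases hx : x ≤ N
    · exact (VMeas.const _).and ((VMeas.const _).and (r06_vconn (Iic N) x y hx 0 t))
    · exact VMeas.congr (Q := fun _ => False) (fun m _ => ⟨False.elim, fun h => hx h.1⟩)
        (VMeas.const _)
  · intro m hm hex
    apply hm
    obtain ⟨x, y, hx, hy, hc⟩ := hex
    refine ⟨x.toNat, y.toNat, ?_, ?_, r06_conn (B := Iic N) (fun z hz => ?_) hx hc⟩
    · rw [mem_Icc] at hx; omega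
    · rw [mem_Icc] at hy; omega
    · rw [mem_Icc] at hz
      refine ⟨hz.1, ?_⟩
      rw [mem_Iic]
      omega

theorem nat_edge {lam : ℝ} (h : lambdaC < ENNReal.ofReal lam) :
    ∃ a C c : ℝ, 0 < a ∧ 0 < C ∧ 0 < c ∧
      ∀ (Ω : Type) [MeasurableSpace Ω] (P : Measure Ω) (M : Ω → ℕ × ℕ → Set ℝ),
        IsPoisson P M (cRate lam) → ∀ t : ℕ,
          P.real {ω | aliveAt natAdj (M ω) 0 t ∧
            ¬ ∃ z : ℕ, a * t ≤ z ∧ Conn natAdj (M ω) (0, 0) (z, t)} ≤
            C * Real.exp (-c * t) := by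
  obtain ⟨a, C, c, ha, hC, hc, hb⟩ := cross_slanted h
  refine ⟨a, C, c, ha, hC, hc, ?_⟩
  intro Ω _ P M hP t
  refine r06_transfer h (Q := fun m : ℕ × ℕ → Set ℝ => aliveAt natAdj m 0 t ∧
            ¬ ∃ z : ℕ, a * t ≤ z ∧ Conn natAdj m (0, 0) (z, t))
    (Q' := fun m : ℤ × ℤ → Set ℝ =>
      ¬ ∃ x y : ℤ, x ≤ 0 ∧ a * t ≤ y ∧ Conn intAdj m (x, 0) (y, t)) ?_ ?_
    (fun Ω _ P M hP => hb Ω P M hP t) hP
  · refine ((aliveAt_vmeas natAdj 0 (t : ℝ)).mono (subset_univ _)).and (VMeas.not ?_)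
    exact VMeas.exists (fun z => (VMeas.const _).and (r06_vconn' 0 z 0 t))
  · rintro m ⟨⟨z, hz⟩, hno⟩ ⟨x, y, hx, hy, hc'⟩
    apply hno
    by_cases hza : a * t ≤ z
    · exact ⟨z, hza, hz⟩
    push Not at hza
    have hzy : (z : ℤ) ≤ y := by
      have h1 : ((z : ℤ) : ℝ) < (y : ℝ) := by
        push_cast
        exact lt_of_lt_of_le hza hy
      exact_mod_cast h1.le
    have h1 : Conn (adjOn (Ici (0 : ℤ)) intAdj) m (0, 0) ((z : ℤ), (t : ℝ)) := by
      rw [← conn_univ] at hz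
      have h2 := (conn_nat_int (B := univ) (mem_univ (0 : ℕ))).1 hz
      simp only [Nat.cast_zero] at h2
      exact h2.mono_on (fun w hw => hw.1)
    have h2 := rightmost noCross_int (isUpperSet_Ici (0 : ℤ)) (mem_Ici.2 le_rfl) h1 hc' hx hzy
    have h3 := r06_conn (B := univ) (B' := Ici (0 : ℤ)) (fun w hw => ⟨hw, mem_univ _⟩)
      (mem_Ici.2 le_rfl) h2
    have hy0 : 0 ≤ y := le_trans (Int.natCast_nonneg z) hzy
    refine ⟨y.toNat, ?_, ?_⟩
    · have e : ((y.toNat : ℕ) : ℤ) = y := Int.toNat_of_nonneg hy0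
      have e' : ((y.toNat : ℕ) : ℝ) = (y : ℝ) := by
        rw [← e]
        push_cast
        rw [e]
      rw [e']
      exact hy
    · simpa using h3.of_on

theorem nat_die {lam : ℝ} (h : lambdaC < ENNReal.ofReal lam) :
    ∃ C c : ℝ, 0 < C ∧ 0 < c ∧
      ∀ (Ω : Type) [MeasurableSpace Ω] (P : Measure Ω) (M : Ω → ℕ × ℕ → Set ℝ),
        IsPoisson P M (cRate lam) → ∀ t : ℕ,
          P.real {ω | aliveAt natAdj (M ω) 0 t ∧ ¬ ∀ n : ℕ, aliveAt natAdj (M ω) 0 n} ≤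
            C * Real.exp (-c * t) := by
  obtain ⟨C₂, c₂, hC₂, hc₂, hstrip⟩ := nat_strip h
  obtain ⟨a, C₁, c₁, ha, hC₁, hc₁, hedge⟩ := nat_edge h
  -- the constants
  set d : ℝ := min c₁ (a * c₂) with hd
  have hdpos : 0 < d := lt_min hc₁ (mul_pos ha hc₂)
  set K : ℝ := C₁ + C₂ * Real.exp c₂ + 1 with hK
  have hKpos : 0 < K := by positivity
  -- `(s + 2) exp (- d s) ≤ L exp (- (d / 2) s)`
  set L : ℝ := 2 / d + 2 with hL
  have hLpos : 0 < L := by positivity
  have hexp : ∀ s : ℝ, 0 ≤ s → (s + 2) * Real.exp (-d * s) ≤ L * Real.exp (-(d / 2) * s) := by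
    intro s hs
    have h1 : Real.exp (-d * s) = Real.exp (-(d / 2) * s) * Real.exp (-(d / 2) * s) := by
      rw [← Real.exp_add]; congr 1; ring
    have h2 : (s + 2) * Real.exp (-(d / 2) * s) ≤ L := by
      have h3 : 1 + d / 2 * s ≤ Real.exp (d / 2 * s) := by
        have := Real.add_one_le_exp (d / 2 * s)
        linarith
      have h4 : Real.exp (-(d / 2) * s) * Real.exp (d / 2 * s) = 1 := by
        rw [← Real.exp_add]
        have : -(d / 2) * s + d / 2 * s = 0 := by ring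
        rw [this, Real.exp_zero]
      have h5 : s + 2 ≤ L * Real.exp (d / 2 * s) := by
        have h6 : L * (1 + d / 2 * s) ≤ L * Real.exp (d / 2 * s) :=
          mul_le_mul_of_nonneg_left h3 hLpos.le
        have h7 : s + 2 ≤ L * (1 + d / 2 * s) := by
          rw [hL]
          have h8 : (2 / d + 2) * (1 + d / 2 * s) = 2 / d + 2 + (1 + d) * s := by
            field_simp
          rw [h8]
          have h9 : 0 < 2 / d := by positivity
          nlinarith [mul_nonneg hdpos.le hs]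
        linarith
      have h10 : (s + 2) * Real.exp (-(d / 2) * s) ≤
          (L * Real.exp (d / 2 * s)) * Real.exp (-(d / 2) * s) :=
        mul_le_mul_of_nonneg_right h5 (Real.exp_pos _).le
      calc (s + 2) * Real.exp (-(d / 2) * s)
          ≤ (L * Real.exp (d / 2 * s)) * Real.exp (-(d / 2) * s) := h10
        _ = L * (Real.exp (-(d / 2) * s) * Real.exp (d / 2 * s)) := by ring
        _ = L := by rw [h4, mul_one]
    rw [h1, ← mul_assoc]
    exact mul_le_mul_of_nonneg_right h2 (Real.exp_pos _).le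
  set ρ : ℝ := Real.exp (-(d / 2)) with hρ
  have hρ0 : 0 < ρ := Real.exp_pos _
  have hρ1 : ρ < 1 := by
    rw [hρ, Real.exp_lt_one_iff]
    linarith
  have hρs : ∀ s : ℕ, Real.exp (-(d / 2) * s) = ρ ^ s := by
    intro s
    rw [hρ, ← Real.exp_nat_mul]
    congr 1
    ring
  refine ⟨K * L / (1 - ρ), d / 2, div_pos (mul_pos hKpos hLpos) (by linarith), by positivity, ?_⟩
  intro Ω _ P M hP t
  have := hP.prob
  -- one step
  have hstep : ∀ s : ℕ, P.real {ω | aliveAt natAdj (M ω) 0 (s : ℕ) ∧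
      ¬ aliveAt natAdj (M ω) 0 ((s + 1 : ℕ) : ℝ)} ≤ K * L * ρ ^ s := by
    intro s
    have hs0 : (0 : ℝ) ≤ (s : ℝ) := Nat.cast_nonneg s
    have hgoal : K * ((s + 2) * Real.exp (-d * s)) ≤ K * L * ρ ^ s := by
      rw [← hρs, mul_assoc]
      exact mul_le_mul_of_nonneg_left (hexp s hs0) hKpos.le
    refine le_trans ?_ hgoal
    rcases Nat.eq_zero_or_pos s with hs | hs
    · subst hs
      have h1 : P.real {ω | aliveAt natAdj (M ω) 0 ((0 : ℕ) : ℝ) ∧
          ¬ aliveAt natAdj (M ω) 0 ((0 + 1 : ℕ) : ℝ)} ≤ 1 := measureReal_le_one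
      refine h1.trans ?_
      simp only [Nat.cast_zero, zero_add, mul_zero, Real.exp_zero, mul_one]
      have h2 : 0 < C₂ * Real.exp c₂ := by positivity
      linarith
    · have hs' : (1 : ℝ) ≤ (s : ℝ) := by exact_mod_cast hs
      set N : ℕ := ⌈a * s⌉₊ - 1 with hN
      have hceil : 0 < ⌈a * (s : ℝ)⌉₊ := Nat.ceil_pos.2 (by positivity)
      have hN1 : (N : ℝ) < a * s := by
        have h1 : (⌈a * (s : ℝ)⌉₊ : ℝ) < a * s + 1 := Nat.ceil_lt_add_one (by positivity)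
        have h2 : (N : ℝ) + 1 = (⌈a * (s : ℝ)⌉₊ : ℝ) := by
          rw [hN]
          have : ⌈a * (s : ℝ)⌉₊ - 1 + 1 = ⌈a * (s : ℝ)⌉₊ := by omega
          exact_mod_cast this
        linarith
      have hN2 : a * s - 1 ≤ (N : ℝ) := by
        have h1 : a * (s : ℝ) ≤ (⌈a * (s : ℝ)⌉₊ : ℝ) := Nat.le_ceil _
        have h2 : (N : ℝ) + 1 = (⌈a * (s : ℝ)⌉₊ : ℝ) := by
          rw [hN]
          have : ⌈a * (s : ℝ)⌉₊ - 1 + 1 = ⌈a * (s : ℝ)⌉₊ := by omega
          exact_mod_cast this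
        linarith
      have hsub : {ω | aliveAt natAdj (M ω) 0 (s : ℕ) ∧ ¬ aliveAt natAdj (M ω) 0 ((s + 1 : ℕ) : ℝ)} ⊆
          {ω | aliveAt natAdj (M ω) 0 (s : ℕ) ∧
            ¬ ∃ z : ℕ, a * (s : ℕ) ≤ z ∧ Conn natAdj (M ω) (0, 0) (z, (s : ℕ))} ∪
          {ω | ¬ ∃ x y : ℕ, x ≤ N ∧ y ≤ N ∧
            Conn (adjOn (Iic N) natAdj) (M ω) (x, 0) (y, ((s + 1 : ℕ) : ℝ))} := by
        rintro ω ⟨h1, h2⟩
        by_contra hcon
        simp only [mem_union, not_or] at hcon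
        obtain ⟨hc1, hc2⟩ := hcon
        have h3 : ∃ z : ℕ, a * (s : ℕ) ≤ z ∧ Conn natAdj (M ω) (0, 0) (z, (s : ℕ)) := by
          by_contra hno
          exact hc1 ⟨h1, hno⟩
        have h4 : ∃ x y : ℕ, x ≤ N ∧ y ≤ N ∧
            Conn (adjOn (Iic N) natAdj) (M ω) (x, 0) (y, ((s + 1 : ℕ) : ℝ)) := not_not.1 hc2
        obtain ⟨z, hz1, hz2⟩ := h3
        obtain ⟨x, y, hx, hy, hc⟩ := h4
        obtain ⟨w, hw1, hw2⟩ := hc.split (u := (s : ℝ)) hs0 (by push_cast; linarith)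
        have hwN : w ≤ N := hw1.mem (B := Iic N) hx
        have hwz : w ≤ z := by
          have : (w : ℝ) < (z : ℝ) := by
            have : (w : ℝ) ≤ (N : ℝ) := by exact_mod_cast hwN
            linarith
          exact_mod_cast this.le
        rw [← conn_univ] at hz2
        have h5 := (switch noCross_nat (B₁ := univ) (B₂ := Iic N) (B := univ) (subset_univ _)
          (subset_univ _) hz2 hw1 (Nat.zero_le x) hwz).1
        exact h2 ⟨y, h5.of_on.trans hw2.of_on⟩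
      have hb := (measureReal_mono (μ := P) hsub).trans (measureReal_union_le _ _)
      refine hb.trans ?_
      have hb1 := hedge Ω P M hP s
      have hb2 := hstrip Ω P M hP N (s + 1)
      have hd1 : Real.exp (-c₁ * s) ≤ Real.exp (-d * s) := by
        apply Real.exp_le_exp.2
        have : d ≤ c₁ := min_le_left _ _
        nlinarith
      have hd2 : Real.exp (-c₂ * N) ≤ Real.exp c₂ * Real.exp (-d * s) := by
        rw [← Real.exp_add]
        apply Real.exp_le_exp.2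
        have h1 : d ≤ a * c₂ := min_le_right _ _
        have h2 : c₂ * (a * s - 1) ≤ c₂ * N := mul_le_mul_of_nonneg_left hN2 hc₂.le
        have h3 : d * s ≤ a * c₂ * s := mul_le_mul_of_nonneg_right h1 hs0
        nlinarith
      have hE : 0 < Real.exp (-d * s) := Real.exp_pos _
      have hb1' : P.real {ω | aliveAt natAdj (M ω) 0 (s : ℕ) ∧
            ¬ ∃ z : ℕ, a * (s : ℕ) ≤ z ∧ Conn natAdj (M ω) (0, 0) (z, (s : ℕ))} ≤
          C₁ * Real.exp (-d * s) := hb1.trans (mul_le_mul_of_nonneg_left hd1 hC₁.le)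
      have hb2' : P.real {ω | ¬ ∃ x y : ℕ, x ≤ N ∧ y ≤ N ∧
            Conn (adjOn (Iic N) natAdj) (M ω) (x, 0) (y, ((s + 1 : ℕ) : ℝ))} ≤
          C₂ * (s + 2) * (Real.exp c₂ * Real.exp (-d * s)) := by
        refine hb2.trans ?_
        have e : ((s + 1 : ℕ) : ℝ) + 1 = s + 2 := by push_cast; ring
        rw [e]
        exact mul_le_mul_of_nonneg_left hd2 (by positivity)
      have hb3 : C₁ * Real.exp (-d * s) ≤ C₁ * ((s + 2) * Real.exp (-d * s)) := by
        apply mul_le_mul_of_nonneg_left _ hC₁.le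
        nlinarith
      have hb4 : 0 ≤ (s + 2) * Real.exp (-d * s) := by positivity
      rw [hK]
      nlinarith [hb1', hb2', hb3, hb4]
  -- the sum
  have hsub : {ω | aliveAt natAdj (M ω) 0 t ∧ ¬ ∀ n : ℕ, aliveAt natAdj (M ω) 0 n} ⊆
      ⋃ j : ℕ, {ω | aliveAt natAdj (M ω) 0 ((t + j : ℕ) : ℝ) ∧
        ¬ aliveAt natAdj (M ω) 0 ((t + j + 1 : ℕ) : ℝ)} := by
    rintro ω ⟨h1, h2⟩
    by_contra hcon
    simp only [mem_iUnion, not_exists] at hcon
    have h3 : ∀ j : ℕ, aliveAt natAdj (M ω) 0 ((t + j : ℕ) : ℝ) := by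
      intro j
      induction j with
      | zero => exact h1
      | succ j ih =>
        by_contra hno
        exact hcon j ⟨ih, hno⟩
    apply h2
    intro n
    have h4 := h3 n
    refine r06_alive_anti (Nat.cast_nonneg n) ?_ h4
    push_cast
    have : (0 : ℝ) ≤ (t : ℝ) := Nat.cast_nonneg t
    linarith
  have hKL : 0 < K * L := mul_pos hKpos hLpos
  have hsumm : Summable (fun j : ℕ => K * L * ρ ^ (t + j)) := by
    simp_rw [pow_add]
    exact ((summable_geometric_of_lt_one hρ0.le hρ1).mul_left _).mul_left _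
  have htsum : ∑' j : ℕ, K * L * ρ ^ (t + j) = K * L / (1 - ρ) * Real.exp (-(d / 2) * t) := by
    simp_rw [pow_add]
    rw [tsum_mul_left, tsum_mul_left, tsum_geometric_of_lt_one hρ0.le hρ1, hρs]
    field_simp
  have hmain : P {ω | aliveAt natAdj (M ω) 0 t ∧ ¬ ∀ n : ℕ, aliveAt natAdj (M ω) 0 n} ≤
      ENNReal.ofReal (K * L / (1 - ρ) * Real.exp (-(d / 2) * t)) := by
    calc P {ω | aliveAt natAdj (M ω) 0 t ∧ ¬ ∀ n : ℕ, aliveAt natAdj (M ω) 0 n}
        ≤ P (⋃ j : ℕ, {ω | aliveAt natAdj (M ω) 0 ((t + j : ℕ) : ℝ) ∧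
        ¬ aliveAt natAdj (M ω) 0 ((t + j + 1 : ℕ) : ℝ)}) := measure_mono hsub
      _ ≤ ∑' j : ℕ, P {ω | aliveAt natAdj (M ω) 0 ((t + j : ℕ) : ℝ) ∧
        ¬ aliveAt natAdj (M ω) 0 ((t + j + 1 : ℕ) : ℝ)} := measure_iUnion_le _
      _ ≤ ∑' j : ℕ, ENNReal.ofReal (K * L * ρ ^ (t + j)) := by
        refine ENNReal.tsum_le_tsum (fun j => ?_)
        rw [← ENNReal.ofReal_toReal (measure_ne_top P _)]
        exact ENNReal.ofReal_le_ofReal (hstep (t + j))
      _ = ENNReal.ofReal (∑' j : ℕ, K * L * ρ ^ (t + j)) :=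
        (ENNReal.ofReal_tsum_of_nonneg (fun j => by positivity) hsumm).symm
      _ = _ := by rw [htsum]
  have h1ρ : 0 < 1 - ρ := by linarith
  exact ENNReal.toReal_le_of_le_ofReal (by positivity) hmain

theorem nat_survive {lam : ℝ} (h : lambdaC < ENNReal.ofReal lam) :
    ∃ p₀ : ℝ, 0 < p₀ ∧
      ∀ (Ω : Type) [MeasurableSpace Ω] (P : Measure Ω) (M : Ω → ℕ × ℕ → Set ℝ),
        IsPoisson P M (cRate lam) →
          p₀ ≤ P.real {ω | ∀ n : ℕ, aliveAt natAdj (M ω) 0 n} := by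
  obtain ⟨lam', h0, h1, hs⟩ := exists_lower h
  obtain ⟨p₀, hp0, -, hall⟩ := survive_all (survive_mono h0 h1.le hs)
  exact ⟨p₀, hp0, fun Ω _ P M hP => (hall Ω P M hP).ge⟩

end CPM
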