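import Mathlib

/-!
# S01 (90 min) : abstract restart lemma

`𝒜 j` increasing sigma-algebras, `sel j x ∈ 𝒜 j` (at time `j` the attempt from `x` is started),
for fixed `j` the events `sel j x` (`x` in a countable set) are pairwise disjoint;
`L j x l ∈ 𝒜 (j + l)` (the attempt started at time `j` from `x` has lifetime exactly `l`), and for
`A ∈ 𝒜 j`, `P (A ∩ L j x l) ≤ P A * q l`, where `Σ_{l=1}^{K} exp (θ l) q l ≤ 1`.
`badEv j s` : every attempt started at a time in `[j, m)` dies before time `K` (lifetime `l ≥ 1`,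
`i + l ≤ K`), and the number of times in `[j, m)` at which an attempt can be started is `≥ s`.
Claim : `P (A ∩ badEv j s) ≤ exp (-θ s) P A` for `A ∈ 𝒜 j`, `j ≤ m`.
Induction downwards on `j` (strong).  `j = m` : `s = 0` trivial, `s > 0` empty.  `j < m` : split `A`.
On `A ∩ (no sel j x)` : `badEv j s ⊆ badEv (j + 1) s`.  On `A ∩ sel j x` : the attempt dies with a
lifetime `l`, `1 ≤ l`, `j + l ≤ K`.  If `j + l ≤ m` : `badEv j s ⊆ badEv (j + l) (s - l)` (at most `l`
of the times lie in `[j, j + l)`), `A ∩ sel j x ∩ L j x l ∈ 𝒜 (j + l)`, so the probability is at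
most `exp (-θ (s - l)) P (A ∩ sel j x ∩ L j x l) ≤ exp (-θ s) exp (θ l) q l P (A ∩ sel j x)`.
If `j + l > m` : the count is at most `m - j < l`, so `s ≤ l` (else the event is empty) and
`P (A ∩ sel j x ∩ L j x l) ≤ q l P (..) ≤ exp (-θ s) exp (θ l) q l P (..)`.  Sum over `l`, then over
`x` and the complement.  (Natural subtraction `s - l` is fine: if `s ≤ l` use `badEv j s ⊆ univ`.)
-/

noncomputable section

open MeasureTheory Set

namespace CPM

open Classical in
def badEv {Ω V : Type*} (sel : ℕ → V → Set Ω) (L : ℕ → V → ℕ → Set Ω) (m K j s : ℕ) : Set Ω :=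
  {ω | (∀ i, j ≤ i → i < m → ∀ x, ω ∈ sel i x → ∃ l, 1 ≤ l ∧ i + l ≤ K ∧ ω ∈ L i x l) ∧
    s ≤ ((Finset.Ico j m).filter fun i => ∃ x, ω ∈ sel i x).card}

open Classical in
theorem s01_count {Ω V : Type*} (sel : ℕ → V → Set Ω) (ω : Ω) (m j l : ℕ) :
    ((Finset.Ico j m).filter fun i => ∃ x, ω ∈ sel i x).card ≤
      l + ((Finset.Ico (j + l) m).filter fun i => ∃ x, ω ∈ sel i x).card := by
  have h : ((Finset.Ico j m).filter fun i => ∃ x, ω ∈ sel i x) ⊆
      Finset.Ico j (j + l) ∪ ((Finset.Ico (j + l) m).filter fun i => ∃ x, ω ∈ sel i x) := by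
    intro i hi
    rw [Finset.mem_filter, Finset.mem_Ico] at hi
    rw [Finset.mem_union, Finset.mem_filter, Finset.mem_Ico, Finset.mem_Ico]
    by_cases h : i < j + l
    · exact Or.inl ⟨hi.1.1, h⟩
    · exact Or.inr ⟨⟨by omega, hi.1.2⟩, hi.2⟩
  have h1 := Finset.card_le_card h
  have h2 := Finset.card_union_le (Finset.Ico j (j + l))
    ((Finset.Ico (j + l) m).filter fun i => ∃ x, ω ∈ sel i x)
  rw [Nat.card_Ico] at h2
  omega

open Classical in
theorem s01_main {Ω V : Type*} [mΩ : MeasurableSpace Ω] [Countable V] {P : Measure Ω}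
    [IsProbabilityMeasure P] {𝒜 : ℕ → MeasurableSpace Ω} (hmono : Monotone 𝒜)
    (hle : ∀ j, 𝒜 j ≤ mΩ) {sel : ℕ → V → Set Ω} {L : ℕ → V → ℕ → Set Ω} {q : ℕ → ℝ}
    (hq : ∀ l, 0 ≤ q l) {θ : ℝ} (hθ : 0 ≤ θ) {m K : ℕ} (hmK : m ≤ K)
    (hsum : ∑ l ∈ Finset.Icc 1 K, Real.exp (θ * l) * q l ≤ 1)
    (hsel : ∀ j x, MeasurableSet[𝒜 j] (sel j x))
    (hdisj : ∀ j x y, x ≠ y → Disjoint (sel j x) (sel j y))
    (hL : ∀ j x l, MeasurableSet[𝒜 (j + l)] (L j x l))
    (hLq : ∀ j x l, ∀ A, MeasurableSet[𝒜 j] A →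
      P (A ∩ L j x l) ≤ ENNReal.ofReal (q l) * P A) (d : ℕ) :
    ∀ j, m - j = d → j ≤ m → ∀ (s : ℕ) (A : Set Ω), MeasurableSet[𝒜 j] A →
      P (A ∩ badEv sel L m K j s) ≤ ENNReal.ofReal (Real.exp (-θ * s)) * P A := by
  induction d using Nat.strong_induction_on with
  | _ d ih =>
  intro j hjd hjm s A hA
  rcases Nat.eq_or_lt_of_le hjm with hjm' | hjm'
  · -- j = m
    subst hjm'
    rcases Nat.eq_zero_or_pos s with hs | hs
    · subst hs
      simp only [CharP.cast_eq_zero, mul_zero, Real.exp_zero, ENNReal.ofReal_one, one_mul]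
      exact measure_mono inter_subset_left
    · have : A ∩ badEv sel L j K j s = ∅ := by
        ext ω
        simp only [mem_inter_iff, mem_empty_iff_false, iff_false, not_and]
        intro _ hω
        have h2 := hω.2
        simp only [Finset.Ico_self, Finset.filter_empty, Finset.card_empty] at h2
        omega
      rw [this]
      simp
  -- the attempts from x
  have hx : ∀ x, P (A ∩ sel j x ∩ badEv sel L m K j s) ≤
      ENNReal.ofReal (Real.exp (-θ * s)) * P (A ∩ sel j x) := by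
    intro x
    have hA' : MeasurableSet[𝒜 j] (A ∩ sel j x) := MeasurableSet.inter hA (hsel j x)
    have hsub : A ∩ sel j x ∩ badEv sel L m K j s ⊆
        ⋃ l ∈ Finset.Icc 1 K, (A ∩ sel j x ∩ L j x l ∩ badEv sel L m K j s) := by
      intro ω hω
      obtain ⟨l, hl1, hlK, hlL⟩ := hω.2.1 j le_rfl hjm' x hω.1.2
      rw [mem_iUnion₂]
      exact ⟨l, Finset.mem_Icc.2 ⟨hl1, by omega⟩, ⟨hω.1, hlL⟩, hω.2⟩
    have hl : ∀ l ∈ Finset.Icc 1 K, P (A ∩ sel j x ∩ L j x l ∩ badEv sel L m K j s) ≤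
        ENNReal.ofReal (Real.exp (θ * l) * q l) *
          (ENNReal.ofReal (Real.exp (-θ * s)) * P (A ∩ sel j x)) := by
      intro l hl
      rw [Finset.mem_Icc] at hl
      by_cases hjl : j + l ≤ m
      · have hsub2 : A ∩ sel j x ∩ L j x l ∩ badEv sel L m K j s ⊆
            (A ∩ sel j x ∩ L j x l) ∩ badEv sel L m K (j + l) (s - l) := by
          intro ω hω
          refine ⟨hω.1, fun i hi hi' y hy => hω.2.1 i (by omega) hi' y hy, ?_⟩
          have h1 := hω.2.2
          have h2 := s01_count sel ω m j l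
          omega
        have hA2 : MeasurableSet[𝒜 (j + l)] (A ∩ sel j x ∩ L j x l) :=
          MeasurableSet.inter (hmono (Nat.le_add_right j l) _ hA') (hL j x l)
        have h3 := ih (m - (j + l)) (by omega) (j + l) rfl hjl (s - l) _ hA2
        refine (measure_mono hsub2).trans (h3.trans ?_)
        refine (mul_le_mul_right (hLq j x l _ hA') _).trans ?_
        rw [← mul_assoc, ← mul_assoc, ← ENNReal.ofReal_mul (Real.exp_pos _).le,
          ← ENNReal.ofReal_mul (mul_nonneg (Real.exp_pos _).le (hq l))]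
        refine mul_le_mul_left (ENNReal.ofReal_le_ofReal ?_) _
        have h4 : Real.exp (-θ * ((s - l : ℕ) : ℝ)) ≤ Real.exp (θ * l) * Real.exp (-θ * s) := by
          rw [← Real.exp_add]
          refine Real.exp_le_exp.2 ?_
          have h5 : (s : ℝ) - l ≤ ((s - l : ℕ) : ℝ) := by
            have : (s : ℝ) ≤ ((s - l + l : ℕ) : ℝ) := by
              exact_mod_cast (by omega : s ≤ s - l + l)
            push_cast at this
            linarith
          nlinarith
        calc Real.exp (-θ * ((s - l : ℕ) : ℝ)) * q l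
            ≤ (Real.exp (θ * l) * Real.exp (-θ * s)) * q l :=
              mul_le_mul_of_nonneg_right h4 (hq l)
          _ = Real.exp (θ * l) * q l * Real.exp (-θ * s) := by ring
      · by_cases hs : s ≤ m - j
        · refine (measure_mono (t := A ∩ sel j x ∩ L j x l) inter_subset_left).trans ?_
          refine (hLq j x l _ hA').trans ?_
          rw [← mul_assoc, ← ENNReal.ofReal_mul (mul_nonneg (Real.exp_pos _).le (hq l))]
          refine mul_le_mul_left (ENNReal.ofReal_le_ofReal ?_) _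
          have h4 : 1 ≤ Real.exp (θ * l) * Real.exp (-θ * s) := by
            rw [← Real.exp_add]
            refine Real.one_le_exp ?_
            have h5 : (s : ℝ) ≤ l := by exact_mod_cast (by omega : s ≤ l)
            nlinarith
          calc q l = 1 * q l := (one_mul _).symm
            _ ≤ (Real.exp (θ * l) * Real.exp (-θ * s)) * q l :=
              mul_le_mul_of_nonneg_right h4 (hq l)
            _ = Real.exp (θ * l) * q l * Real.exp (-θ * s) := by ring
        · have : A ∩ sel j x ∩ L j x l ∩ badEv sel L m K j s = ∅ := by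
            ext ω
            simp only [mem_empty_iff_false, iff_false]
            intro hω
            have h1 := hω.2.2
            have h2 := Finset.card_filter_le (Finset.Ico j m) (fun i => ∃ x, ω ∈ sel i x)
            rw [Nat.card_Ico] at h2
            omega
          rw [this]
          simp
    refine (measure_mono hsub).trans ((measure_biUnion_finset_le _ _).trans ?_)
    refine (Finset.sum_le_sum hl).trans ?_
    rw [← Finset.sum_mul]
    have h6 : ∑ l ∈ Finset.Icc 1 K, ENNReal.ofReal (Real.exp (θ * l) * q l) ≤ 1 := by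
      rw [← ENNReal.ofReal_sum_of_nonneg
        (fun l _ => mul_nonneg (Real.exp_pos _).le (hq l))]
      rw [← ENNReal.ofReal_one]
      exact ENNReal.ofReal_le_ofReal hsum
    calc _ ≤ 1 * (ENNReal.ofReal (Real.exp (-θ * s)) * P (A ∩ sel j x)) :=
          mul_le_mul_left h6 _
      _ = _ := one_mul _
  -- no attempt
  set N : Set Ω := (⋃ x, sel j x)ᶜ with hN
  have hNm : MeasurableSet[𝒜 j] (⋃ x, sel j x) := MeasurableSet.iUnion fun x => hsel j x
  have hN0 : P (A ∩ N ∩ badEv sel L m K j s) ≤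
      ENNReal.ofReal (Real.exp (-θ * s)) * P (A ∩ N) := by
    have hAN : MeasurableSet[𝒜 (j + 1)] (A ∩ N) :=
      hmono (Nat.le_add_right j 1) _ (MeasurableSet.inter hA (MeasurableSet.compl hNm))
    have h3 := ih (m - (j + 1)) (by omega) (j + 1) rfl (by omega) s _ hAN
    refine (measure_mono ?_).trans h3
    intro ω hω
    refine ⟨hω.1, fun i hi hi' y hy => hω.2.1 i (by omega) hi' y hy, ?_⟩
    refine hω.2.2.trans (Finset.card_le_card ?_)
    intro i hi
    rw [Finset.mem_filter, Finset.mem_Ico] at hi ⊢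
    refine ⟨⟨?_, hi.1.2⟩, hi.2⟩
    rcases Nat.eq_or_lt_of_le hi.1.1 with h | h
    · exfalso
      obtain ⟨x, hx'⟩ := hi.2
      rw [← h] at hx'
      exact hω.1.2 (mem_iUnion.2 ⟨x, hx'⟩)
    · omega
  -- sum up
  have hsplit : A ∩ badEv sel L m K j s ⊆
      (A ∩ N ∩ badEv sel L m K j s) ∪ ⋃ x, (A ∩ sel j x ∩ badEv sel L m K j s) := by
    intro ω hω
    by_cases h : ω ∈ ⋃ x, sel j x
    · obtain ⟨x, hx'⟩ := mem_iUnion.1 h
      exact Or.inr (mem_iUnion.2 ⟨x, ⟨hω.1, hx'⟩, hω.2⟩)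
    · exact Or.inl ⟨⟨hω.1, h⟩, hω.2⟩
  have hPA : P (A ∩ N) + ∑' x, P (A ∩ sel j x) = P A := by
    rw [← measure_iUnion]
    · rw [← inter_iUnion, hN, ← diff_eq]
      have := measure_inter_add_diff A (hle j _ hNm) (μ := P)
      rw [add_comm]
      exact this
    · intro x y hxy
      exact (hdisj j x y hxy).mono inter_subset_right inter_subset_right
    · intro x
      exact hle j _ (MeasurableSet.inter hA (hsel j x))
  calc P (A ∩ badEv sel L m K j s)
      ≤ P ((A ∩ N ∩ badEv sel L m K j s) ∪ ⋃ x, (A ∩ sel j x ∩ badEv sel L m K j s)) :=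
        measure_mono hsplit
    _ ≤ P (A ∩ N ∩ badEv sel L m K j s) + P (⋃ x, (A ∩ sel j x ∩ badEv sel L m K j s)) :=
        measure_union_le _ _
    _ ≤ ENNReal.ofReal (Real.exp (-θ * s)) * P (A ∩ N) +
        ∑' x, ENNReal.ofReal (Real.exp (-θ * s)) * P (A ∩ sel j x) :=
        add_le_add hN0 ((measure_iUnion_le _).trans (ENNReal.tsum_le_tsum hx))
    _ = ENNReal.ofReal (Real.exp (-θ * s)) * P A := by
        rw [ENNReal.tsum_mul_left, ← mul_add, hPA]

theorem restart {Ω V : Type*} [mΩ : MeasurableSpace Ω] [Countable V] {P : Measure Ω}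
    [IsProbabilityMeasure P] {𝒜 : ℕ → MeasurableSpace Ω} (hmono : Monotone 𝒜)
    (hle : ∀ j, 𝒜 j ≤ mΩ) {sel : ℕ → V → Set Ω} {L : ℕ → V → ℕ → Set Ω} {q : ℕ → ℝ}
    (hq : ∀ l, 0 ≤ q l) {θ : ℝ} (hθ : 0 ≤ θ) {m K : ℕ} (hmK : m ≤ K)
    (hsum : ∑ l ∈ Finset.Icc 1 K, Real.exp (θ * l) * q l ≤ 1)
    (hsel : ∀ j x, MeasurableSet[𝒜 j] (sel j x))
    (hdisj : ∀ j x y, x ≠ y → Disjoint (sel j x) (sel j y))
    (hL : ∀ j x l, MeasurableSet[𝒜 (j + l)] (L j x l))
    (hLq : ∀ j x l, ∀ A, MeasurableSet[𝒜 j] A → P.real (A ∩ L j x l) ≤ P.real A * q l)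
    {A : Set Ω} (hA : MeasurableSet[𝒜 0] A) (s : ℕ) :
    P.real (A ∩ badEv sel L m K 0 s) ≤ Real.exp (-θ * s) * P.real A := by
  have hLq' : ∀ j x l, ∀ A, MeasurableSet[𝒜 j] A →
      P (A ∩ L j x l) ≤ ENNReal.ofReal (q l) * P A := by
    intro j x l B hB
    have h1 := hLq j x l B hB
    rw [← ofReal_measureReal (μ := P) (s := B ∩ L j x l), ← ofReal_measureReal (μ := P) (s := B),
      ← ENNReal.ofReal_mul (hq l), mul_comm (q l)]
    exact ENNReal.ofReal_le_ofReal h1
  have h := s01_main hmono hle hq hθ hmK hsum hsel hdisj hL hLq' (m - 0) 0 rfl (Nat.zero_le m)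
    s A hA
  rw [← ofReal_measureReal (μ := P) (s := A ∩ badEv sel L m K 0 s),
    ← ofReal_measureReal (μ := P) (s := A), ← ENNReal.ofReal_mul (Real.exp_pos _).le] at h
  exact (ENNReal.ofReal_le_ofReal_iff
    (mul_nonneg (Real.exp_pos _).le measureReal_nonneg)).1 h

end CPM
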