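import Pool.Agent.Lib.MP_1a4724_pr.R06
import Pool.Agent.Lib.MP_1a4724_pr.S01

/-!
# S02 (60 min) : lifetimes of the attempts

`lifeEq l m` (`l ≥ 1`) : the infection of the half line from `(0, 0)` is alive at time `2 (l - 1)` and
not alive at time `2 l`.  `q l` = its probability for one realisation (`exists_poisson`), the same
for all realisations (`transfer_real`; `aliveAt_vmeas`).
The events are disjoint for different `l ≥ 1` (alive at a time implies alive at all earlier times)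
and disjoint from the survival event, so `Σ_{l ≤ K} q l ≤ 1 - p₀` (`nat_survive`), and
`q l ≤ C exp (-2 c (l - 1))` (`nat_die`).  Choose `L₀` with
`Σ_{l > L₀} exp (c l) C exp (-2 c (l - 1)) ≤ p₀ / 2` and then `0 < θ ≤ c` with
`exp (θ L₀) (1 - p₀) ≤ 1 - p₀ / 2` : `Σ_{l ≤ K} exp (θ l) q l ≤ 1` for every `K`.
-/

noncomputable section

open MeasureTheory Set

namespace CPM

def lifeEq (l : ℕ) (m : ℕ × ℕ → Set ℝ) : Prop :=
  aliveAt natAdj m 0 (2 * ((l : ℝ) - 1)) ∧ ¬ aliveAt natAdj m 0 (2 * (l : ℝ))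

theorem s02_alive_anti {m : ℕ × ℕ → Set ℝ} {o : ℕ} {s t : ℝ} (hs : 0 ≤ s) (hst : s ≤ t)
    (h : aliveAt natAdj m o t) : aliveAt natAdj m o s := by
  obtain ⟨y, hy⟩ := h
  obtain ⟨z, hz, _⟩ := hy.split hs hst
  exact ⟨z, hz⟩

theorem s02_alive_zero (m : ℕ × ℕ → Set ℝ) (o : ℕ) : aliveAt natAdj m o 0 :=
  ⟨o, Conn.refl _⟩

/-- an attempt which is not alive at time `2 K` has a lifetime `l ≤ K` -/
theorem exists_lifeEq {m : ℕ × ℕ → Set ℝ} {K : ℕ} (h : ¬ aliveAt natAdj m 0 (2 * (K : ℝ))) :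
    ∃ l, 1 ≤ l ∧ l ≤ K ∧ lifeEq l m := by
  classical
  have hex : ∃ l : ℕ, ¬ aliveAt natAdj m 0 (2 * (l : ℝ)) := ⟨K, h⟩
  have h1 := Nat.find_spec hex
  have h2 := Nat.find_min' hex h
  have h3 : Nat.find hex ≠ 0 := by
    intro h0
    rw [h0] at h1
    apply h1
    simpa using s02_alive_zero m 0
  refine ⟨Nat.find hex, by omega, h2, ?_, h1⟩
  have h4 := Nat.find_min hex (m := Nat.find hex - 1) (by omega)
  rw [not_not, Nat.cast_sub (by omega)] at h4
  simpa using h4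

theorem lifeEq_vmeas (l : ℕ) (hl : 1 ≤ l) :
    VMeas {p : (ℕ × ℕ) × ℝ | p.2 ∈ Icc 0 (2 * (l : ℝ))} (fun m => lifeEq l m) := by
  have _ := hl
  refine VMeas.and ?_ (VMeas.not (aliveAt_vmeas natAdj 0 (2 * (l : ℝ))))
  refine (aliveAt_vmeas natAdj 0 (2 * ((l : ℝ) - 1))).mono ?_
  rintro p ⟨h1, h2⟩
  exact ⟨h1, by linarith⟩

theorem s02_tail {C c p : ℝ} (hC : 0 < C) (hc : 0 < c) (hp : 0 < p) :
    ∃ L : ℕ, ∀ K : ℕ, ∑ l ∈ Finset.Ico (L + 1) (K + 1),
      Real.exp (c * l) * (C * Real.exp (-c * (2 * ((l : ℝ) - 1)))) ≤ p := by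
  set r : ℝ := Real.exp (-c) with hr
  have hr0 : 0 < r := Real.exp_pos _
  have hr1 : r < 1 := Real.exp_lt_one_iff.2 (by linarith)
  set D : ℝ := C * Real.exp (2 * c) with hD
  have hD0 : 0 < D := mul_pos hC (Real.exp_pos _)
  obtain ⟨L, hL⟩ := exists_pow_lt_of_lt_one (show 0 < p * (1 - r) / D by
    have : 0 < 1 - r := by linarith
    positivity) hr1
  refine ⟨L, fun K => ?_⟩
  have h1 : ∀ l : ℕ, Real.exp (c * l) * (C * Real.exp (-c * (2 * ((l : ℝ) - 1)))) = D * r ^ l := by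
    intro l
    rw [hD, hr, ← Real.exp_nat_mul]
    rw [show Real.exp (c * l) * (C * Real.exp (-c * (2 * ((l : ℝ) - 1)))) =
      C * (Real.exp (c * l) * Real.exp (-c * (2 * ((l : ℝ) - 1)))) by ring, ← Real.exp_add,
      mul_assoc, ← Real.exp_add]
    congr 2
    ring
  rw [Finset.sum_congr rfl (fun l _ => h1 l), ← Finset.mul_sum]
  have h2 := geom_sum_Ico_le_of_lt_one (m := L + 1) (n := K + 1) hr0.le hr1
  have h3 : r ^ (L + 1) ≤ r ^ L := pow_le_pow_of_le_one hr0.le hr1.le (by omega)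
  have h1r : 0 < 1 - r := by linarith
  calc D * ∑ i ∈ Finset.Ico (L + 1) (K + 1), r ^ i ≤ D * (r ^ (L + 1) / (1 - r)) :=
        mul_le_mul_of_nonneg_left h2 hD0.le
    _ ≤ D * ((p * (1 - r) / D) / (1 - r)) := by
        apply mul_le_mul_of_nonneg_left _ hD0.le
        apply div_le_div_of_nonneg_right _ h1r.le
        exact h3.trans hL.le
    _ = p := by field_simp

theorem s02_exp {x : ℝ} (h0 : 0 ≤ x) (h1 : x ≤ 1 / 2) : Real.exp x ≤ 1 + 2 * x := by
  have h2 : 1 - x ≤ Real.exp (-x) := by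
    have := Real.add_one_le_exp (-x)
    linarith
  have h3 : Real.exp x * Real.exp (-x) = 1 := by
    rw [← Real.exp_add]; simp
  have h4 : 0 < Real.exp x := Real.exp_pos _
  have h5 : Real.exp x * (1 - x) ≤ 1 := by
    calc Real.exp x * (1 - x) ≤ Real.exp x * Real.exp (-x) :=
          mul_le_mul_of_nonneg_left h2 h4.le
      _ = 1 := h3
  have h6 : 1 ≤ (1 + 2 * x) * (1 - x) := by nlinarith
  have h7 : 0 < 1 - x := by linarith
  exact le_of_mul_le_mul_right (h5.trans h6) h7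

theorem lifetime {lam : ℝ} (h : lambdaC < ENNReal.ofReal lam) :
    ∃ (θ : ℝ) (q : ℕ → ℝ), 0 < θ ∧ (∀ l, 0 ≤ q l) ∧
      (∀ K : ℕ, ∑ l ∈ Finset.Icc 1 K, Real.exp (θ * l) * q l ≤ 1) ∧
      ∀ (Ω : Type) [MeasurableSpace Ω] (P : Measure Ω) (M : Ω → ℕ × ℕ → Set ℝ),
        IsPoisson P M (cRate lam) → ∀ l : ℕ, 1 ≤ l → P.real {ω | lifeEq l (M ω)} ≤ q l := by
  classical
  have hlam : 0 < lam := by
    by_contra hc
    rw [ENNReal.ofReal_of_nonpos (not_lt.1 hc)] at h
    exact absurd h (not_lt.2 bot_le)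
  obtain ⟨Ω₀, m₀, P₀, M₀, hP₀⟩ := exists_poisson (ℕ × ℕ) (cRate lam) (by
    intro e
    unfold cRate
    split_ifs
    · norm_num
    · exact hlam.le)
  obtain ⟨C, c, hC, hc, hdie⟩ := nat_die h
  obtain ⟨p₀, hp₀, hsurv⟩ := nat_survive h
  have hdie := hdie Ω₀ P₀ M₀ hP₀
  have hsurv := hsurv Ω₀ P₀ M₀ hP₀
  have := hP₀.prob
  set q : ℕ → ℝ := fun l => P₀.real {ω | lifeEq l (M₀ ω)} with hq
  have hq0 : ∀ l, 0 ≤ q l := fun l => measureReal_nonneg
  have hmeas : ∀ l : ℕ, 1 ≤ l → MeasurableSet {ω | lifeEq l (M₀ ω)} := fun l hl =>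
    hP₀.VA_le _ _ ((lifeEq_vmeas l hl).measurableSet hP₀.good)
  -- the sum of the probabilities
  have hsum : ∀ K : ℕ, ∑ l ∈ Finset.Icc 1 K, q l ≤ 1 - p₀ := by
    intro K
    have hsurvm : MeasurableSet {ω | ∀ n : ℕ, aliveAt natAdj (M₀ ω) 0 n} := by
      have : {ω | ∀ n : ℕ, aliveAt natAdj (M₀ ω) 0 n} =
          ⋂ n : ℕ, {ω | aliveAt natAdj (M₀ ω) 0 n} := by
        ext ω; simp
      rw [this]
      exact MeasurableSet.iInter fun n =>
        hP₀.VA_le _ _ ((aliveAt_vmeas natAdj 0 (n : ℝ)).measurableSet hP₀.good)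
    have hd : ∀ l l' : ℕ, 1 ≤ l → l < l' → ∀ ω, lifeEq l (M₀ ω) → lifeEq l' (M₀ ω) → False := by
      intro l l' _ hll' ω h1 h2
      apply h1.2
      refine s02_alive_anti (by positivity) ?_ h2.1
      have : (l : ℝ) + 1 ≤ l' := by exact_mod_cast hll'
      linarith
    have hdis : (Finset.Icc 1 K : Set ℕ).PairwiseDisjoint (fun l => {ω | lifeEq l (M₀ ω)}) := by
      intro l hl l' hl' hne
      rw [Finset.mem_coe, Finset.mem_Icc] at hl hl'
      rw [Function.onFun, Set.disjoint_left]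
      intro ω h1 h2
      rcases lt_or_gt_of_ne hne with h | h
      · exact hd l l' hl.1 h ω h1 h2
      · exact hd l' l hl'.1 h ω h2 h1
    have h1 : ∑ l ∈ Finset.Icc 1 K, q l = P₀.real (⋃ l ∈ Finset.Icc 1 K, {ω | lifeEq l (M₀ ω)}) := by
      rw [measureReal_biUnion_finset hdis]
      intro l hl
      exact hmeas l (Finset.mem_Icc.1 hl).1
    have h2 : Disjoint (⋃ l ∈ Finset.Icc 1 K, {ω | lifeEq l (M₀ ω)})
        {ω | ∀ n : ℕ, aliveAt natAdj (M₀ ω) 0 n} := by
      rw [Set.disjoint_left]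
      intro ω h3 h4
      rw [mem_iUnion₂] at h3
      obtain ⟨l, _, h5⟩ := h3
      apply h5.2
      have := h4 (2 * l)
      push_cast at this
      exact this
    have h3 := measureReal_union (μ := P₀) h2 hsurvm (measure_ne_top _ _) (measure_ne_top _ _)
    have h4 : P₀.real ((⋃ l ∈ Finset.Icc 1 K, {ω | lifeEq l (M₀ ω)}) ∪
        {ω | ∀ n : ℕ, aliveAt natAdj (M₀ ω) 0 n}) ≤ 1 := measureReal_le_one
    rw [h1]
    linarith
  have hp1 : p₀ ≤ 1 := hsurv.trans measureReal_le_one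
  have hqb : ∀ l : ℕ, 1 ≤ l → q l ≤ C * Real.exp (-c * (2 * ((l : ℝ) - 1))) := by
    intro l hl
    have h1 := hdie (2 * (l - 1))
    have h2 : ((2 * (l - 1) : ℕ) : ℝ) = 2 * ((l : ℝ) - 1) := by
      push_cast [Nat.cast_sub hl]
      ring
    rw [h2] at h1
    refine le_trans (measureReal_mono ?_ (measure_ne_top _ _)) h1
    intro ω hω
    refine ⟨hω.1, fun hall => hω.2 ?_⟩
    have := hall (2 * l)
    push_cast at this
    exact this
  obtain ⟨L, hL⟩ := s02_tail hC hc (half_pos hp₀)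
  set θ : ℝ := min c (p₀ / 4 / (L + 1)) with hθ
  have hL1 : (0 : ℝ) < L + 1 := by positivity
  have hθ0 : 0 < θ := lt_min hc (by positivity)
  have hθc : θ ≤ c := min_le_left _ _
  have hθL : θ * L ≤ p₀ / 4 := by
    have h1 : θ ≤ p₀ / 4 / (L + 1) := min_le_right _ _
    calc θ * L ≤ (p₀ / 4 / (L + 1)) * (L + 1) := by
          apply mul_le_mul h1 (by linarith) (by positivity) (by positivity)
      _ = p₀ / 4 := by field_simp
  refine ⟨θ, q, hθ0, hq0, ?_, ?_⟩
  · intro K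
    have hsplit : ∑ l ∈ Finset.Icc 1 K, Real.exp (θ * l) * q l ≤
        ∑ l ∈ Finset.Icc 1 L, Real.exp (θ * l) * q l +
          ∑ l ∈ Finset.Ico (L + 1) (K + 1), Real.exp (θ * l) * q l := by
      rw [← Finset.sum_union]
      · apply Finset.sum_le_sum_of_subset_of_nonneg
        · intro l hl
          rw [Finset.mem_Icc] at hl
          rw [Finset.mem_union, Finset.mem_Icc, Finset.mem_Ico]
          omega
        · intro l _ _
          exact mul_nonneg (Real.exp_pos _).le (hq0 l)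
      · rw [Finset.disjoint_left]
        intro l h1 h2
        rw [Finset.mem_Icc] at h1
        rw [Finset.mem_Ico] at h2
        omega
    have h1 : ∑ l ∈ Finset.Icc 1 L, Real.exp (θ * l) * q l ≤ 1 - p₀ / 2 := by
      have h2 : ∀ l ∈ Finset.Icc 1 L, Real.exp (θ * l) * q l ≤ (1 + p₀ / 2) * q l := by
        intro l hl
        rw [Finset.mem_Icc] at hl
        apply mul_le_mul_of_nonneg_right _ (hq0 l)
        have h3 : θ * l ≤ p₀ / 4 := by
          have : (l : ℝ) ≤ L := by exact_mod_cast hl.2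
          calc θ * l ≤ θ * L := mul_le_mul_of_nonneg_left this hθ0.le
            _ ≤ _ := hθL
        have h4 := s02_exp (x := θ * l) (by positivity) (by linarith)
        linarith
      refine (Finset.sum_le_sum h2).trans ?_
      rw [← Finset.mul_sum]
      calc (1 + p₀ / 2) * ∑ l ∈ Finset.Icc 1 L, q l ≤ (1 + p₀ / 2) * (1 - p₀) :=
            mul_le_mul_of_nonneg_left (hsum L) (by positivity)
        _ ≤ 1 - p₀ / 2 := by nlinarith
    have h5 : ∑ l ∈ Finset.Ico (L + 1) (K + 1), Real.exp (θ * l) * q l ≤ p₀ / 2 := by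
      refine (Finset.sum_le_sum ?_).trans (hL K)
      intro l hl
      rw [Finset.mem_Ico] at hl
      apply mul_le_mul _ (hqb l (by omega)) (hq0 l) (Real.exp_pos _).le
      apply Real.exp_le_exp.2
      exact mul_le_mul_of_nonneg_right hθc (Nat.cast_nonneg l)
    linarith
  · intro Ω _ P M hP l hl
    apply le_of_eq
    exact transfer_real hP hP₀ ((lifeEq_vmeas l hl).mono (subset_univ _))

end CPM
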