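import Pool.Agent.Lib.MP_1a4724_pr.S02
import Pool.Agent.Lib.MP_1a4724_pr.L08

/-!
# S03 (75 min) : decay of the emptiness probability, uniform bound for all histories

`decay` : `x = γ 0`, `γ` a self-avoiding path.  Reverse the time at `0` : `M' = revT 0 (M ω)` (Poisson
with the same rates).  If for some `k ≥ 1` the attempt from `(x, 2k)` for the marks
`pull γ M'` (i.e. the marks `pull γ (shiftT (2k) M')`) is alive for ever, then `etaBar` holds at
`(x, -2k)` for `M ω` : for every `s < -2k` the reversed path (`Conn.rev`, `Conn.shift`,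
`Conn.map_pull`) from `(x, 2k)` to time `-s` is an active path of `M` from time `s` to `(x, -2k)`.
By `restart` (start always possible: `sel j x' = univ` for one label `x'`, e.g. `V = Unit`; `𝒜 j` =
marks `M'` at times `≤ 2 (j+1)`; the attempt number `j` starts at time `2 (j + 1)`; `A = univ`;
lifetimes `lifeEq`, `lifetime`) the probability that all the attempts started at the times
`2, 4, ..., 2m` die before `2 K` is at most `exp (-θ m)`; let `K → ∞` (increasing union) : the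
probability that all of them die is `≤ exp (-θ m)`.  If `etaBar` fails at all the times
`-1, ..., -N` of `x`, all the attempts with `2 (j+1) ≤ N` die: `m = N / 2`,
`exp (-θ m) ≤ exp θ exp (-θ N / 2)`.
`uniform_history` : `history_shift` with `κ` of `decay`, `ρ = rho κ`.
-/

noncomputable section

open MeasureTheory Set

namespace CPM

theorem s03_lam {lam : ℝ} (h : lambdaC < ENNReal.ofReal lam) : 0 < lam := by
  by_contra hc
  rw [ENNReal.ofReal_of_nonpos (not_lt.1 hc)] at h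
  exact absurd h (not_lt.2 bot_le)

/-- an attempt alive for a long time gives an active path from the past -/
theorem s03_path {V : Type} {adj : V → V → Prop} (hsymm : ∀ x y, adj x y → adj y x)
    {γ : ℕ → V} (hγ : Function.Injective γ) (hadj : ∀ i, adj (γ i) (γ (i + 1)))
    {m : V × V → Set ℝ} {τ u s : ℝ} (hs : s ≤ -τ) (hu : -τ - s ≤ u)
    (h : aliveAt natAdj (pull γ (shiftT τ (revT 0 m))) 0 u) : ∃ y, Conn adj m (y, s) (γ 0, -τ) := by
  obtain ⟨y, hy⟩ := h
  have h1 : Conn adj (shiftT τ (revT 0 m)) (γ 0, 0) (γ y, u) := by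
    refine Conn.map_pull hγ ?_ hy
    intro i j hij
    rcases hij with rfl | rfl
    · exact hadj i
    · exact hsymm _ _ (hadj j)
  rw [Conn.shift] at h1
  have h2 : Conn adj (revT 0 m) (γ 0, 0 - (-τ)) (γ y, 0 - (-τ - u)) := by
    have e1 : (0 : ℝ) - (-τ) = τ + 0 := by ring
    have e2 : (0 : ℝ) - (-τ - u) = τ + u := by ring
    rw [e1, e2]
    exact h1
  rw [Conn.rev hsymm] at h2
  obtain ⟨z, _, hz⟩ := h2.split (u := s) (by linarith) hs
  exact ⟨z, hz⟩

theorem decay {lam : ℝ} (h : lambdaC < ENNReal.ofReal lam) :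
    ∃ C κ : ℝ, 0 < C ∧ 0 < κ ∧ ∀ (V : Type) [Countable V] (adj : V → V → Prop),
      (∀ x y, adj x y → adj y x) → ∀ (γ : ℕ → V), Function.Injective γ →
      (∀ i, adj (γ i) (γ (i + 1))) →
      ∀ (Ω : Type) [MeasurableSpace Ω] (P : Measure Ω) (M : Ω → V × V → Set ℝ),
        IsPoisson P M (cRate lam) → ∀ N : ℕ,
          P.real {ω | ∀ j : ℕ, j < N → ¬ etaBar adj (M ω) (-((j : ℝ) + 1)) (γ 0)} ≤
            C * Real.exp (-κ * N) := by
  classical
  obtain ⟨θ, q, hθ, hq, hsum, hlife⟩ := lifetime h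
  refine ⟨Real.exp θ, θ / 2, Real.exp_pos _, by linarith, ?_⟩
  intro V _ adj hsymm γ hγ hadj Ω mΩ P M hP N
  have hprob := hP.prob
  have hP' := hP.revT 0
  set M' : Ω → V × V → Set ℝ := fun ω => revT 0 (M ω) with hM'
  set m : ℕ := N / 2 with hm
  set 𝒜 : ℕ → MeasurableSpace Ω := fun j => VA M' {p | p.2 ≤ 2 * ((j : ℝ) + 1)} with h𝒜
  set sel : ℕ → Unit → Set Ω := fun _ _ => univ with hsel
  set L : ℕ → Unit → ℕ → Set Ω := fun j _ l =>
    if l = 0 then ∅ else {ω | lifeEq l (pull γ (shiftT (2 * ((j : ℝ) + 1)) (M' ω)))} with hL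
  have hvm : ∀ j l : ℕ, 1 ≤ l → VMeas {p : (V × V) × ℝ | 2 * ((j : ℝ) + 1) ≤ p.2 ∧
      p.2 ≤ 2 * ((j : ℝ) + 1) + 2 * l}
      (fun mm => lifeEq l (pull γ (shiftT (2 * ((j : ℝ) + 1)) mm))) := by
    intro j l hl
    have h1 : VMeas {p : (V × V) × ℝ | p.2 ∈ Icc 0 (2 * (l : ℝ))} (fun mm => lifeEq l (pull γ mm)) :=
      VMeas.pull hγ (lifeEq_vmeas l hl) (fun x y t ht => ht)
    refine VMeas.shiftT (2 * ((j : ℝ) + 1)) h1 ?_
    rintro e t ⟨h2, h3⟩
    simp only at h2 h3
    exact ⟨by simp only; linarith, by simp only; linarith⟩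
  have hLm : ∀ j x l, MeasurableSet[𝒜 (j + l)] (L j x l) := by
    intro j x l
    simp only [hL]
    split_ifs with hl
    · exact @MeasurableSet.empty _ (𝒜 (j + l))
    · refine ((hvm j l (by omega)).mono ?_).measurableSet hP'.good
      rintro p ⟨_, h2⟩
      change p.2 ≤ 2 * (((j + l : ℕ) : ℝ) + 1)
      push_cast
      linarith
  have hLq : ∀ j x l, ∀ A, MeasurableSet[𝒜 j] A → P.real (A ∩ L j x l) ≤ P.real A * q l := by
    intro j x l A hA
    simp only [hL]
    split_ifs with hl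
    · rw [inter_empty, measureReal_empty]
      exact mul_nonneg measureReal_nonneg (hq l)
    · have h1 := hP'.mul {p | p.2 ≤ 2 * ((j : ℝ) + 1)} {p : (V × V) × ℝ | 2 * ((j : ℝ) + 1) ≤ p.2 ∧
        p.2 ≤ 2 * ((j : ℝ) + 1) + 2 * l} (by
        intro e
        refine measure_mono_null (t := {2 * ((j : ℝ) + 1)}) ?_ (by simp)
        rintro t ⟨h2, h3, _⟩
        exact le_antisymm h2 h3) hA ((hvm j l (by omega)).measurableSet hP'.good)
      refine h1.le.trans ?_
      apply mul_le_mul_of_nonneg_left _ measureReal_nonneg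
      exact hlife Ω P _ ((hP'.shiftT (2 * ((j : ℝ) + 1))).pull hγ) l (by omega)
  have hmono : Monotone 𝒜 := by
    intro i j hij
    apply VA_mono
    intro p (hp : p.2 ≤ 2 * ((i : ℝ) + 1))
    have : (i : ℝ) ≤ j := by exact_mod_cast hij
    change p.2 ≤ 2 * ((j : ℝ) + 1)
    linarith
  -- all the attempts die before time `2 K`
  set D : ℕ → Set Ω := fun K => {ω | ∀ i : ℕ, i < m →
    ¬ aliveAt natAdj (pull γ (shiftT (2 * ((i : ℝ) + 1)) (M' ω))) 0 (2 * ((m + K - i : ℕ) : ℝ))}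
    with hD
  have hDP : ∀ K, P (D K) ≤ ENNReal.ofReal (Real.exp (-θ * m)) := by
    intro K
    have h1 := restart (P := P) hmono (fun j => hP'.VA_le _) (sel := sel) (L := L) hq hθ.le
      (m := m) (K := m + K) (by omega) (hsum (m + K)) (fun j x => MeasurableSet.univ)
      (fun j x y hxy => (hxy (Subsingleton.elim x y)).elim) hLm hLq
      (A := univ) MeasurableSet.univ m
    have h2 : D K ⊆ univ ∩ badEv sel L m (m + K) 0 m := by
      intro ω hω
      refine ⟨mem_univ _, ?_, ?_⟩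
      · intro i _ hi x _
        obtain ⟨l, hl1, hl2, hl3⟩ := exists_lifeEq (hω i hi)
        refine ⟨l, hl1, by omega, ?_⟩
        simp only [hL]
        rw [if_neg (by omega)]
        exact hl3
      · simp [hsel]
    have h3 : P.real (D K) ≤ Real.exp (-θ * m) := by
      refine (measureReal_mono h2 (measure_ne_top _ _)).trans ?_
      refine h1.trans ?_
      rw [probReal_univ, mul_one]
    rw [← ofReal_measureReal (μ := P) (s := D K)]
    exact ENNReal.ofReal_le_ofReal h3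
  have hDmono : Monotone D := by
    intro K K' hKK ω hω i hi hc
    refine hω i hi (s02_alive_anti (by positivity) ?_ hc)
    have : ((m + K - i : ℕ) : ℝ) ≤ ((m + K' - i : ℕ) : ℝ) := by
      exact_mod_cast (by omega : m + K - i ≤ m + K' - i)
    linarith
  have hsub : {ω | ∀ j : ℕ, j < N → ¬ etaBar adj (M ω) (-((j : ℝ) + 1)) (γ 0)} ⊆ ⋃ K, D K := by
    intro ω hω
    have h1 : ∀ i : ℕ, i < m → ∃ K : ℕ, ∀ K' : ℕ, K ≤ K' →
        ¬ aliveAt natAdj (pull γ (shiftT (2 * ((i : ℝ) + 1)) (M' ω))) 0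
          (2 * ((m + K' - i : ℕ) : ℝ)) := by
      intro i hi
      have h2 := hω (2 * i + 1) (by omega)
      unfold etaBar at h2
      push Not at h2
      obtain ⟨s, hs, hno⟩ := h2
      have e1 : (-(((2 * i + 1 : ℕ) : ℝ) + 1)) = -(2 * ((i : ℝ) + 1)) := by push_cast; ring
      rw [e1] at hs hno
      obtain ⟨K, hK⟩ := exists_nat_ge (-(2 * ((i : ℝ) + 1)) - s)
      refine ⟨K, fun K' hK' hc => ?_⟩
      have h3 : (K : ℝ) ≤ ((m + K' - i : ℕ) : ℝ) := by
        exact_mod_cast (by omega : K ≤ m + K' - i)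
      have h4 : (0 : ℝ) ≤ ((m + K' - i : ℕ) : ℝ) := Nat.cast_nonneg _
      obtain ⟨y, hy⟩ := s03_path hsymm hγ hadj hs.le (by linarith) hc
      exact hno y hy
    choose! K hK using h1
    rw [mem_iUnion]
    refine ⟨(Finset.range m).sup K, fun i hi => hK i hi _ ?_⟩
    exact Finset.le_sup (f := K) (Finset.mem_range.2 hi)
  have hfin : P {ω | ∀ j : ℕ, j < N → ¬ etaBar adj (M ω) (-((j : ℝ) + 1)) (γ 0)} ≤
      ENNReal.ofReal (Real.exp (-θ * m)) := by
    refine (measure_mono hsub).trans ?_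
    rw [hDmono.measure_iUnion]
    exact iSup_le hDP
  have hfin2 : P.real {ω | ∀ j : ℕ, j < N → ¬ etaBar adj (M ω) (-((j : ℝ) + 1)) (γ 0)} ≤
      Real.exp (-θ * m) := by
    rw [measureReal_def]
    exact ENNReal.toReal_le_of_le_ofReal (Real.exp_pos _).le hfin
  refine hfin2.trans ?_
  rw [← Real.exp_add]
  apply Real.exp_le_exp.2
  have h5 : (N : ℝ) ≤ 2 * m + 1 := by exact_mod_cast (by omega : N ≤ 2 * m + 1)
  nlinarith

theorem uniform_history {lam : ℝ} (h : lambdaC < ENNReal.ofReal lam) :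
    ∃ ρ : ℝ, 0 < ρ ∧ ρ ≤ 1 ∧ ∀ (V : Type) [Countable V] (adj : V → V → Prop),
      (∀ x y, adj x y → adj y x) → (∀ x, {y | adj y x}.Finite) →
      (∀ x, ∃ γ : ℕ → V, Function.Injective γ ∧ γ 0 = x ∧ ∀ i, adj (γ i) (γ (i + 1))) →
      ∀ (Ω : Type) [MeasurableSpace Ω] (P : Measure Ω) (M : Ω → V × V → Set ℝ),
        IsPoisson P M (cRate lam) → ∀ (Δ : Finset V), Δ.Nonempty → ∀ (τ : ℝ) (A : Set Ω),
          MeasurableSet[projAlg adj M (Δ : Set V) (Iio τ)] A →
          P.real (A ∩ {ω | ∀ x ∈ Δ, ¬ etaBar adj (M ω) (τ + 1) x}) ≤ (1 - ρ) * P.real A := by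
  obtain ⟨C, κ, hC, hκ, hdec⟩ := decay h
  have hlam := s03_lam h
  refine ⟨rho κ, ?_, (l08_rho hκ.le).2, ?_⟩
  · unfold rho
    have h1 : Real.exp (-κ) < 1 := Real.exp_lt_one_iff.2 (by linarith)
    exact mul_pos (Real.exp_pos _) (by linarith)
  · intro V _ adj hsymm hfin hpath Ω _ P M hP Δ hΔ τ A hA
    obtain ⟨x, hx⟩ := hΔ
    obtain ⟨γ, hγ, hγ0, hγadj⟩ := hpath x
    have h1 := hdec V adj hsymm γ hγ hγadj Ω P M hP
    rw [hγ0] at h1
    exact history_shift hlam.le hP Δ hfin hx hκ.le h1 τ hA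

end CPM
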