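import Pool.Agent.Lib.MP_1a4724_pr.S03

/-!
# S04 (90 min) : forward attempts from the infected sites of `Δ`

`X j` = some vertex of `Δ` is infected (`etaBar`) at time `2 j`.
(1) Counting : for `A ∈ projAlg Δ (Iio 0)` and `ρ' = ρ (1 - exp (-1)) / 2`,
`P (A ∩ {#{1 ≤ j < m : X j} ≤ ρ' m}) ≤ C exp (-ρ' m) P A` : by `uniform_history` with `τ = 2j - 1`, for an
event `A'` depending on `A` and on `X 1, ..., X (j-1)` : `P (A' ∩ {not X j}) ≤ (1 - ρ) P A'`; so
`E (1_A exp (- #)) ≤ (1 - ρ (1 - exp (-1)))^(m-1) P A ≤ exp (-2ρ' (m - 1)) P A`, Markov.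
(2) Restart : `𝒜 j = VA M {time ≤ 2 j}`; `sel j x` : `x` is the first (for a fixed injection
`V → ℕ`) vertex of `Δ` infected at time `2 j`; `L j x l` : `lifeEq l (pull (γ x) (shiftT (2j) (M ω)))`
for `l ≥ 1` (empty for `l = 0`); `q, θ` from `lifetime` (the marks
`pull (γ x) (shiftT (2j) M)` are Poisson on `ℕ`, and they are independent of `𝒜 j` on the times
`[0, 2l]`).  If no attempt from an infected `(x, 2j)`, `j < m`, is alive at time `2K` then all of them
have a lifetime `l` with `j + l ≤ K` (`exists_lifeEq`), so we are in `badEv 0 s` with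
`s = #{j < m : X j}`.  `restart` with `s = ⌈ρ' m⌉` : probability `≤ exp (-θ ρ' m) P A`.
-/

noncomputable section

open MeasureTheory Set

namespace CPM

/-- the restart lemma for the attempts `pull (γ x) (shiftT (2 j) M)` -/
theorem s04_restart {lam θ : ℝ} {q : ℕ → ℝ} (hθ : 0 < θ) (hq : ∀ l, 0 ≤ q l)
    (hsum : ∀ K : ℕ, ∑ l ∈ Finset.Icc 1 K, Real.exp (θ * l) * q l ≤ 1)
    (hlife : ∀ (Ω : Type) [MeasurableSpace Ω] (P : Measure Ω) (M : Ω → ℕ × ℕ → Set ℝ),
        IsPoisson P M (cRate lam) → ∀ l : ℕ, 1 ≤ l → P.real {ω | lifeEq l (M ω)} ≤ q l)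
    {V : Type} [Countable V] {γ : V → ℕ → V} (hγ : ∀ x, Function.Injective (γ x))
    {Ω : Type} [MeasurableSpace Ω] {P : Measure Ω} {M : Ω → V × V → Set ℝ}
    (hP : IsPoisson P M (cRate lam)) {m K : ℕ} (hmK : m ≤ K) (X : ℕ → V → Set Ω)
    (hX : ∀ (j : ℕ) (x : V), MeasurableSet[VA M {p | p.2 ≤ 2 * (j : ℝ)}] (X j x))
    {A : Set Ω} (hA : MeasurableSet[VA M {p | p.2 ≤ 0}] A) (s : ℕ)
    (B : Set Ω) (hB : ∀ ω ∈ B, ∀ j < m, ∀ x, ω ∈ X j x →
      ¬ aliveAt natAdj (pull (γ x) (shiftT (2 * (j : ℝ)) (M ω))) 0 (2 * ((K : ℝ) - j)))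
    (hBs : ∀ ω ∈ B, ∃ S : Finset ℕ, s ≤ S.card ∧ ∀ i ∈ S, i < m ∧ ∃ x, ω ∈ X i x) :
    P.real (A ∩ B) ≤ Real.exp (-θ * s) * P.real A := by
  classical
  have hprob := hP.prob
  obtain ⟨e, he⟩ := exists_injective_nat V
  set 𝒜 : ℕ → MeasurableSpace Ω := fun j => VA M {p | p.2 ≤ 2 * (j : ℝ)} with h𝒜
  set sel : ℕ → V → Set Ω := fun j x => X j x \ ⋃ y ∈ {y | e y < e x}, X j y with hsel
  set L : ℕ → V → ℕ → Set Ω := fun j x l =>
    if l = 0 then ∅ else {ω | lifeEq l (pull (γ x) (shiftT (2 * (j : ℝ)) (M ω)))} with hL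
  have hvm : ∀ (j : ℕ) (x : V) (l : ℕ), 1 ≤ l → VMeas {p : (V × V) × ℝ | 2 * (j : ℝ) ≤ p.2 ∧
      p.2 ≤ 2 * (j : ℝ) + 2 * l}
      (fun mm => lifeEq l (pull (γ x) (shiftT (2 * (j : ℝ)) mm))) := by
    intro j x l hl
    have h1 : VMeas {p : (V × V) × ℝ | p.2 ∈ Icc 0 (2 * (l : ℝ))}
        (fun mm => lifeEq l (pull (γ x) mm)) :=
      VMeas.pull (hγ x) (lifeEq_vmeas l hl) (fun x y t ht => ht)
    refine VMeas.shiftT (2 * (j : ℝ)) h1 ?_
    rintro e t ⟨h2, h3⟩
    simp only at h2 h3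
    exact ⟨by simp only; linarith, by simp only; linarith⟩
  have hLm : ∀ j x l, MeasurableSet[𝒜 (j + l)] (L j x l) := by
    intro j x l
    simp only [hL]
    split_ifs with hl
    · exact @MeasurableSet.empty _ (𝒜 (j + l))
    · refine ((hvm j x l (by omega)).mono ?_).measurableSet hP.good
      rintro p ⟨_, h2⟩
      change p.2 ≤ 2 * ((j + l : ℕ) : ℝ)
      push_cast
      linarith
  have hLq : ∀ j x l, ∀ A, MeasurableSet[𝒜 j] A → P.real (A ∩ L j x l) ≤ P.real A * q l := by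
    intro j x l A hA
    simp only [hL]
    split_ifs with hl
    · rw [inter_empty, measureReal_empty]
      exact mul_nonneg measureReal_nonneg (hq l)
    · have h1 := hP.mul {p | p.2 ≤ 2 * (j : ℝ)} {p : (V × V) × ℝ | 2 * (j : ℝ) ≤ p.2 ∧
        p.2 ≤ 2 * (j : ℝ) + 2 * l} (by
        intro e
        refine measure_mono_null (t := {2 * (j : ℝ)}) ?_ (by simp)
        rintro t ⟨h2, h3, _⟩
        exact le_antisymm h2 h3) hA ((hvm j x l (by omega)).measurableSet hP.good)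
      refine h1.le.trans ?_
      apply mul_le_mul_of_nonneg_left _ measureReal_nonneg
      exact hlife Ω P _ ((hP.shiftT (2 * (j : ℝ))).pull (hγ x)) l (by omega)
  have hmono : Monotone 𝒜 := by
    intro i j hij
    apply VA_mono
    intro p (hp : p.2 ≤ 2 * (i : ℝ))
    have : (i : ℝ) ≤ j := by exact_mod_cast hij
    change p.2 ≤ 2 * (j : ℝ)
    linarith
  have hselm : ∀ j x, MeasurableSet[𝒜 j] (sel j x) := by
    intro j x
    exact MeasurableSet.diff (hX j x)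
      (MeasurableSet.biUnion (Set.to_countable _) (fun y _ => hX j y))
  have hdisj : ∀ j x y, x ≠ y → Disjoint (sel j x) (sel j y) := by
    have key : ∀ j x y, e x < e y → Disjoint (sel j x) (sel j y) := by
      intro j x y hxy
      rw [Set.disjoint_left]
      intro ω h1 h2
      exact h2.2 (mem_iUnion₂.2 ⟨x, hxy, h1.1⟩)
    intro j x y hxy
    rcases lt_or_gt_of_ne (fun h => hxy (he h)) with h | h
    · exact key j x y h
    · exact (key j y x h).symm
  have hex : ∀ ω j, (∃ x, ω ∈ X j x) → ∃ x, ω ∈ sel j x := by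
    intro ω j h
    obtain ⟨x, hx, hmin⟩ := WellFounded.has_min (measure e).wf {x | ω ∈ X j x} h
    refine ⟨x, hx, ?_⟩
    intro hc
    obtain ⟨y, hy, hy'⟩ := mem_iUnion₂.1 hc
    exact hmin y hy' hy
  have hA0 : MeasurableSet[𝒜 0] A := by
    have e0 : (2 * ((0 : ℕ) : ℝ)) = 0 := by simp
    change MeasurableSet[VA M {p | p.2 ≤ 2 * ((0 : ℕ) : ℝ)}] A
    rw [e0]
    exact hA
  have h1 := restart (P := P) hmono (fun j => hP.VA_le _) (sel := sel) (L := L) hq hθ.le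
      (m := m) (K := K) hmK (hsum K) hselm hdisj hLm hLq hA0 s
  refine (measureReal_mono ?_ (measure_ne_top _ _)).trans h1
  rintro ω ⟨hωA, hωB⟩
  refine ⟨hωA, ?_, ?_⟩
  · intro i _ hi x hx
    have h2 := hB ω hωB i hi x hx.1
    have e1 : (K : ℝ) - i = ((K - i : ℕ) : ℝ) := by
      rw [Nat.cast_sub (by omega)]
    rw [e1] at h2
    obtain ⟨l, hl1, hl2, hl3⟩ := exists_lifeEq h2
    refine ⟨l, hl1, by omega, ?_⟩
    simp only [hL]
    rw [if_neg (by omega)]
    exact hl3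
  · obtain ⟨S, hS1, hS2⟩ := hBs ω hωB
    refine hS1.trans (Finset.card_le_card ?_)
    intro i hi
    obtain ⟨h3, h4⟩ := hS2 i hi
    rw [Finset.mem_filter, Finset.mem_Ico]
    exact ⟨⟨Nat.zero_le _, h3⟩, hex ω i h4⟩

theorem s04_projAlg_mono {Ω V : Type*} {adj : V → V → Prop} {M : Ω → V × V → Set ℝ} {Δ : Set V}
    {T T' : Set ℝ} (hT : T ⊆ T') : projAlg adj M Δ T ≤ projAlg adj M Δ T' := by
  have hle : (projAlg adj M Δ T) =
    MeasurableSpace.comap (fun ω (p : ↥Δ × ↥T) =>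
      etaBar adj (M ω) (p.2 : ℝ) (p.1 : V)) MeasurableSpace.pi := rfl
  rw [hle, ← measurable_iff_comap_le]
  refine @measurable_pi_lambda _ _ _ (projAlg adj M Δ T') _ _ (fun p => ?_)
  have h1 : (fun ω => etaBar adj (M ω) (p.2 : ℝ) (p.1 : V)) =
      (fun c : (↥Δ × ↥T') → Prop => c (p.1, ⟨(p.2 : ℝ), hT p.2.2⟩)) ∘
      (fun ω (q : ↥Δ × ↥T') => etaBar adj (M ω) (q.2 : ℝ) (q.1 : V)) := rfl
  rw [h1]
  exact (measurable_pi_apply _).comp (comap_measurable _)

theorem s04_etaBar_proj {Ω V : Type*} {adj : V → V → Prop} {M : Ω → V × V → Set ℝ} {Δ : Set V}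
    {T : Set ℝ} {x : V} (hx : x ∈ Δ) {t : ℝ} (ht : t ∈ T) :
    MeasurableSet[projAlg adj M Δ T] {ω | etaBar adj (M ω) t x} := by
  refine (@measurableSet_setOfPred _ (projAlg adj M Δ T) _).2 ?_
  have h1 : (fun ω => etaBar adj (M ω) t x) =
      (fun c : (↥Δ × ↥T) → Prop => c (⟨x, hx⟩, ⟨t, ht⟩)) ∘
      (fun ω (q : ↥Δ × ↥T) => etaBar adj (M ω) (q.2 : ℝ) (q.1 : V)) := rfl
  rw [h1]
  exact (measurable_pi_apply _).comp (comap_measurable _)

/-- `Δ` is nowhere infected at time `2 j` -/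
def s04_N {Ω V : Type*} (adj : V → V → Prop) (M : Ω → V × V → Set ℝ) (Δ : Finset V) (j : ℕ) :
    Set Ω := {ω | ∀ x ∈ Δ, ¬ etaBar adj (M ω) (2 * (j : ℝ)) x}

theorem s04_N_meas {Ω V : Type*} {adj : V → V → Prop} {M : Ω → V × V → Set ℝ} {Δ : Finset V}
    {T : Set ℝ} (j : ℕ) (hj : 2 * (j : ℝ) ∈ T) :
    MeasurableSet[projAlg adj M (Δ : Set V) T] (s04_N adj M Δ j) := by
  have h1 : s04_N adj M Δ j = ⋂ x ∈ Δ, {ω | etaBar adj (M ω) (2 * (j : ℝ)) x}ᶜ := by
    ext ω
    simp [s04_N]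
  rw [h1]
  exact Finset.measurableSet_biInter _ fun x hx =>
    (s04_etaBar_proj (Finset.mem_coe.2 hx) hj).compl

open Classical in
/-- number of times in `[j, j + n)` at which `Δ` is infected -/
def s04_cnt {Ω V : Type*} (adj : V → V → Prop) (M : Ω → V × V → Set ℝ) (Δ : Finset V)
    (j n : ℕ) (ω : Ω) : ℕ :=
  ((Finset.Ico j (j + n)).filter fun i => ω ∉ s04_N adj M Δ i).card

open Classical in
theorem s04_cnt_succ {Ω V : Type*} (adj : V → V → Prop) (M : Ω → V × V → Set ℝ) (Δ : Finset V)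
    (j n : ℕ) (ω : Ω) : s04_cnt adj M Δ j (n + 1) ω =
      (if ω ∉ s04_N adj M Δ j then 1 else 0) + s04_cnt adj M Δ (j + 1) n ω := by
  unfold s04_cnt
  have h1 : Finset.Ico j (j + (n + 1)) = insert j (Finset.Ico (j + 1) (j + 1 + n)) := by
    ext i
    simp only [Finset.mem_Ico, Finset.mem_insert]
    omega
  rw [h1, Finset.filter_insert]
  by_cases h : ω ∈ s04_N adj M Δ j
  · rw [if_neg (not_not.2 h), if_neg (not_not.2 h), zero_add]
  · rw [if_pos h, if_pos h, Finset.card_insert_of_notMem (by simp), add_comm]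

theorem s04_count {V : Type} {adj : V → V → Prop} {Ω : Type} [MeasurableSpace Ω]
    {P : Measure Ω} {M : Ω → V × V → Set ℝ} [IsProbabilityMeasure P] {Δ : Finset V}
    {ρ : ℝ} (hle : ∀ T : Set ℝ, projAlg adj M (Δ : Set V) T ≤ ‹MeasurableSpace Ω›)
    (hhist : ∀ (τ : ℝ) (A : Set Ω), MeasurableSet[projAlg adj M (Δ : Set V) (Iio τ)] A →
      P.real (A ∩ {ω | ∀ x ∈ Δ, ¬ etaBar adj (M ω) (τ + 1) x}) ≤ (1 - ρ) * P.real A)
    (hρ0 : 0 < ρ) (hρ1 : ρ ≤ 1) (n : ℕ) : ∀ (s j : ℕ) (A : Set Ω),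
      MeasurableSet[projAlg adj M (Δ : Set V) (Iio (2 * (j : ℝ) - 1))] A →
      P.real (A ∩ {ω | s04_cnt adj M Δ j n ω < s}) ≤
        Real.exp s * (1 - ρ * (1 - Real.exp (-1))) ^ n * P.real A := by
  have hE0 : 0 < Real.exp (-1) := Real.exp_pos _
  have hE1 : Real.exp (-1) < 1 := Real.exp_lt_one_iff.2 (by norm_num)
  set r : ℝ := 1 - ρ * (1 - Real.exp (-1)) with hr
  have hr0 : 0 < r := by nlinarith
  induction n with
  | zero =>
    intro s j A _
    rw [pow_zero, mul_one]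
    refine (measureReal_mono inter_subset_left (measure_ne_top _ _)).trans ?_
    have : (1 : ℝ) ≤ Real.exp s := Real.one_le_exp (Nat.cast_nonneg s)
    nlinarith [measureReal_nonneg (μ := P) (s := A)]
  | succ n ih =>
    intro s j A hA
    rcases s with _ | s
    · have h0 : A ∩ {ω | s04_cnt adj M Δ j (n + 1) ω < 0} = ∅ := by
        ext ω
        simp
      rw [h0, measureReal_empty]
      exact mul_nonneg (mul_nonneg (Real.exp_pos _).le (pow_nonneg hr0.le _)) measureReal_nonneg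
    · set N := s04_N adj M Δ j with hN
      have hNm : MeasurableSet[projAlg adj M (Δ : Set V)
          (Iio (2 * ((j + 1 : ℕ) : ℝ) - 1))] N := by
        apply s04_N_meas
        rw [mem_Iio]
        push_cast
        linarith
      have hAm : MeasurableSet[projAlg adj M (Δ : Set V)
          (Iio (2 * ((j + 1 : ℕ) : ℝ) - 1))] A := by
        refine s04_projAlg_mono ?_ _ hA
        intro t ht
        rw [mem_Iio] at ht ⊢
        push_cast
        linarith
      have h1 := ih (s + 1) (j + 1) (A ∩ N) (MeasurableSet.inter hAm hNm)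
      have h2 := ih s (j + 1) (A ∩ Nᶜ) (MeasurableSet.inter hAm (MeasurableSet.compl hNm))
      have hsub : A ∩ {ω | s04_cnt adj M Δ j (n + 1) ω < s + 1} ⊆
          (A ∩ N ∩ {ω | s04_cnt adj M Δ (j + 1) n ω < s + 1}) ∪
          (A ∩ Nᶜ ∩ {ω | s04_cnt adj M Δ (j + 1) n ω < s}) := by
        rintro ω ⟨hωA, hω⟩
        rw [mem_ofPred_eq, s04_cnt_succ] at hω
        by_cases hωN : ω ∈ N
        · left
          refine ⟨⟨hωA, hωN⟩, ?_⟩
          rw [if_neg (not_not.2 hωN)] at hω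
          change s04_cnt adj M Δ (j + 1) n ω < s + 1
          omega
        · right
          refine ⟨⟨hωA, hωN⟩, ?_⟩
          rw [if_pos hωN] at hω
          change s04_cnt adj M Δ (j + 1) n ω < s
          omega
      have h3 : P.real (A ∩ {ω | s04_cnt adj M Δ j (n + 1) ω < s + 1}) ≤
          Real.exp ((s + 1 : ℕ) : ℝ) * r ^ n * P.real (A ∩ N) +
          Real.exp s * r ^ n * P.real (A ∩ Nᶜ) :=
        (measureReal_mono hsub (measure_ne_top _ _)).trans
          ((measureReal_union_le _ _).trans (add_le_add h1 h2))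
      refine h3.trans ?_
      have h4 : P.real (A ∩ N) + P.real (A ∩ Nᶜ) = P.real A := by
        rw [← sdiff_eq]
        exact measureReal_inter_add_sdiff (hle _ _ hNm) (measure_ne_top _ _)
      have h5 : P.real (A ∩ N) ≤ (1 - ρ) * P.real A := by
        have h6 := hhist (2 * (j : ℝ) - 1) A hA
        rw [sub_add_cancel] at h6
        exact h6
      have h7 : Real.exp (s : ℝ) = Real.exp ((s + 1 : ℕ) : ℝ) * Real.exp (-1) := by
        rw [← Real.exp_add]
        congr 1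
        push_cast
        ring
      have h8 : 0 < Real.exp ((s + 1 : ℕ) : ℝ) * r ^ n :=
        mul_pos (Real.exp_pos _) (pow_pos hr0 _)
      have h9 : P.real (A ∩ N) + Real.exp (-1) * P.real (A ∩ Nᶜ) ≤ r * P.real A := by
        have : P.real (A ∩ Nᶜ) = P.real A - P.real (A ∩ N) := by linarith
        rw [this]
        have h10 : (1 - Real.exp (-1)) * P.real (A ∩ N) ≤
            (1 - Real.exp (-1)) * ((1 - ρ) * P.real A) :=
          mul_le_mul_of_nonneg_left h5 (by linarith)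
        have h11 : r * P.real A = Real.exp (-1) * P.real A +
          (1 - Real.exp (-1)) * ((1 - ρ) * P.real A) := by rw [hr]; ring
        linarith
      calc Real.exp ((s + 1 : ℕ) : ℝ) * r ^ n * P.real (A ∩ N) +
          Real.exp s * r ^ n * P.real (A ∩ Nᶜ)
          = Real.exp ((s + 1 : ℕ) : ℝ) * r ^ n *
            (P.real (A ∩ N) + Real.exp (-1) * P.real (A ∩ Nᶜ)) := by rw [h7]; ring
        _ ≤ Real.exp ((s + 1 : ℕ) : ℝ) * r ^ n * (r * P.real A) :=
            mul_le_mul_of_nonneg_left h9 h8.le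
        _ = Real.exp ((s + 1 : ℕ) : ℝ) * r ^ (n + 1) * P.real A := by ring

theorem forward {lam : ℝ} (h : lambdaC < ENNReal.ofReal lam) :
    ∃ C c : ℝ, 0 < C ∧ 0 < c ∧ ∀ (V : Type) [Countable V] (adj : V → V → Prop),
      (∀ x y, adj x y → adj y x) → (∀ x, {y | adj y x}.Finite) →
      ∀ γ : V → ℕ → V, (∀ x, Function.Injective (γ x) ∧ γ x 0 = x ∧
        ∀ i, adj (γ x i) (γ x (i + 1))) →
      ∀ (Ω : Type) [MeasurableSpace Ω] (P : Measure Ω) (M : Ω → V × V → Set ℝ),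
        IsPoisson P M (cRate lam) → ∀ (Δ : Finset V), Δ.Nonempty → ∀ (m K : ℕ), m ≤ K →
        ∀ A : Set Ω, MeasurableSet[projAlg adj M (Δ : Set V) (Iio 0)] A →
          P.real (A ∩ {ω | ∀ j : ℕ, j < m → ∀ x ∈ Δ, etaBar adj (M ω) (2 * (j : ℝ)) x →
            ¬ aliveAt natAdj (pull (γ x) (shiftT (2 * (j : ℝ)) (M ω))) 0 (2 * ((K : ℝ) - j))}) ≤
            C * Real.exp (-c * m) * P.real A := by
  classical
  obtain ⟨θ, q, hθ, hq, hsum, hlife⟩ := lifetime h
  obtain ⟨ρ, hρ0, hρ1, hhist⟩ := uniform_history h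
  have hE0 : 0 < Real.exp (-1) := Real.exp_pos _
  have hE1 : Real.exp (-1) < 1 := Real.exp_lt_one_iff.2 (by norm_num)
  set ρ' : ℝ := ρ * (1 - Real.exp (-1)) / 2 with hρ'
  have hρ'0 : 0 < ρ' := by
    rw [hρ']
    exact div_pos (mul_pos hρ0 (by linarith)) (by norm_num)
  have hc0 : 0 < min (θ * ρ') ρ' := lt_min (mul_pos hθ hρ'0) hρ'0
  refine ⟨1 + Real.exp (1 + 2 * ρ'), min (θ * ρ') ρ', by positivity, hc0, ?_⟩
  intro V _ adj hsymm hfin γ hγ Ω mΩ P M hP Δ hΔ m K hmK A hA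
  have hprob := hP.prob
  have hc1 : min (θ * ρ') ρ' ≤ θ * ρ' := min_le_left _ _
  have hc2 : min (θ * ρ') ρ' ≤ ρ' := min_le_right _ _
  set c : ℝ := min (θ * ρ') ρ' with hc
  have hm0 : (0 : ℝ) ≤ m := Nat.cast_nonneg m
  have hPA : 0 ≤ P.real A := measureReal_nonneg
  set B : Set Ω := {ω | ∀ j : ℕ, j < m → ∀ x ∈ Δ, etaBar adj (M ω) (2 * (j : ℝ)) x →
            ¬ aliveAt natAdj (pull (γ x) (shiftT (2 * (j : ℝ)) (M ω))) 0 (2 * ((K : ℝ) - j))}
    with hB
  set s : ℕ := ⌈ρ' * m⌉₊ with hs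
  have hs1 : ρ' * m ≤ s := Nat.le_ceil _
  have hs2 : (s : ℝ) < ρ' * m + 1 := Nat.ceil_lt_add_one (mul_nonneg hρ'0.le hm0)
  -- restart part
  have hle : ∀ T : Set ℝ, projAlg adj M (Δ : Set V) T ≤ mΩ := by
    intro T
    have h1 : projAlg adj M (Δ : Set V) T ≤ projAlg adj M (Δ : Set V) univ :=
      s04_projAlg_mono (subset_univ _)
    refine h1.trans ?_
    have hle : (projAlg adj M (Δ : Set V) univ) =
      MeasurableSpace.comap (fun ω (p : ↥(Δ : Set V) × ↥(univ : Set ℝ)) =>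
        etaBar adj (M ω) (p.2 : ℝ) (p.1 : V)) MeasurableSpace.pi := rfl
    rw [hle, ← measurable_iff_comap_le]
    refine measurable_pi_lambda _ (fun p => ?_)
    exact measurableSet_setOfPred.1 (l07_etaBar_measurable hP (p.2 : ℝ) (p.1 : V))
  have h1 : P.real (A ∩ (B ∩ {ω | s ≤ s04_cnt adj M Δ 0 m ω})) ≤
      Real.exp (-θ * s) * P.real A := by
    refine s04_restart hθ hq hsum hlife (γ := γ) (fun x => (hγ x).1) hP hmK
      (fun j x => {ω | x ∈ Δ ∧ etaBar adj (M ω) (2 * (j : ℝ)) x}) ?_ ?_ s _ ?_ ?_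
    · intro j x
      by_cases hx : x ∈ Δ
      · simp only [hx, true_and]
        exact l07_etaBar_meas hP.good le_rfl x
      · simp only [hx, false_and, ofPred_false]
        exact @MeasurableSet.empty _ (VA M {p | p.2 ≤ 2 * (j : ℝ)})
    · exact projAlg_le_VA hP.good (Δ : Set V) (T := Iio 0) (t := 0) (fun t ht => (mem_Iio.1 ht).le)
        _ hA
    · rintro ω ⟨hω, _⟩ j hj x ⟨hx, hx'⟩
      exact hω j hj x hx hx'
    · rintro ω ⟨_, hω⟩
      refine ⟨(Finset.Ico 0 (0 + m)).filter fun i => ω ∉ s04_N adj M Δ i, hω, ?_⟩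
      intro i hi
      rw [Finset.mem_filter, Finset.mem_Ico, zero_add] at hi
      refine ⟨hi.1.2, ?_⟩
      have h2 := hi.2
      unfold s04_N at h2
      rw [mem_ofPred_eq] at h2
      push Not at h2
      exact h2
  have h2 : P.real (A ∩ {ω | s04_cnt adj M Δ 0 m ω < s}) ≤
      Real.exp (1 + 2 * ρ') * Real.exp (-ρ' * m) * P.real A := by
    rcases Nat.eq_zero_or_pos m with hm | hm
    · have h3 : s = 0 := by
        rw [hs, hm]
        simp
      rw [h3]
      have h0 : A ∩ {ω | s04_cnt adj M Δ 0 m ω < 0} = ∅ := by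
        ext ω
        simp
      rw [h0, measureReal_empty]
      positivity
    · obtain ⟨n, rfl⟩ : ∃ n, m = n + 1 := ⟨m - 1, by omega⟩
      have hA1 : MeasurableSet[projAlg adj M (Δ : Set V) (Iio (2 * ((1 : ℕ) : ℝ) - 1))] A := by
        refine s04_projAlg_mono ?_ _ hA
        intro t ht
        rw [mem_Iio] at ht ⊢
        push_cast
        linarith
      have h3 := s04_count (ρ := ρ) hle (hhist V adj hsymm hfin
        (fun x => ⟨γ x, (hγ x).1, (hγ x).2.1, (hγ x).2.2⟩) Ω P M hP Δ hΔ) hρ0 hρ1 n s 1 A hA1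
      have h4 : A ∩ {ω | s04_cnt adj M Δ 0 (n + 1) ω < s} ⊆
          A ∩ {ω | s04_cnt adj M Δ 1 n ω < s} := by
        rintro ω ⟨hωA, hω⟩
        refine ⟨hωA, ?_⟩
        rw [mem_ofPred_eq, s04_cnt_succ, zero_add] at hω
        rw [mem_ofPred_eq]
        omega
      refine (measureReal_mono h4 (measure_ne_top _ _)).trans (h3.trans ?_)
      refine mul_le_mul_of_nonneg_right ?_ hPA
      have h5 : 1 - ρ * (1 - Real.exp (-1)) ≤ Real.exp (-(2 * ρ')) := by
        have := Real.add_one_le_exp (-(2 * ρ'))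
        have e1 : 2 * ρ' = ρ * (1 - Real.exp (-1)) := by rw [hρ']; ring
        linarith
      have h5' : 0 ≤ 1 - ρ * (1 - Real.exp (-1)) := by nlinarith
      have h6 : (1 - ρ * (1 - Real.exp (-1))) ^ n ≤ Real.exp (-(2 * ρ') * n) := by
        refine (pow_le_pow_left₀ h5' h5 n).trans ?_
        rw [← Real.exp_nat_mul, mul_comm]
      calc Real.exp s * (1 - ρ * (1 - Real.exp (-1))) ^ n
          ≤ Real.exp (ρ' * ((n + 1 : ℕ) : ℝ) + 1) * Real.exp (-(2 * ρ') * n) :=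
            mul_le_mul (Real.exp_le_exp.2 hs2.le) h6 (pow_nonneg h5' _) (Real.exp_pos _).le
        _ = Real.exp (1 + 2 * ρ') * Real.exp (-ρ' * ((n + 1 : ℕ) : ℝ)) := by
            rw [← Real.exp_add, ← Real.exp_add]
            congr 1
            push_cast
            ring
  have h3 : A ∩ B ⊆ (A ∩ (B ∩ {ω | s ≤ s04_cnt adj M Δ 0 m ω})) ∪
      (A ∩ {ω | s04_cnt adj M Δ 0 m ω < s}) := by
    rintro ω ⟨hωA, hωB⟩
    rcases le_or_gt s (s04_cnt adj M Δ 0 m ω) with h4 | h4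
    · exact Or.inl ⟨hωA, hωB, h4⟩
    · exact Or.inr ⟨hωA, h4⟩
  refine (measureReal_mono h3 (measure_ne_top _ _)).trans
    ((measureReal_union_le _ _).trans ((add_le_add h1 h2).trans ?_))
  have h4 : Real.exp (-θ * s) ≤ Real.exp (-c * m) := by
    apply Real.exp_le_exp.2
    have h5 : c * m ≤ θ * ρ' * m := mul_le_mul_of_nonneg_right hc1 hm0
    have h6 : θ * (ρ' * m) ≤ θ * s := mul_le_mul_of_nonneg_left hs1 hθ.le
    linarith
  have h5 : Real.exp (-ρ' * m) ≤ Real.exp (-c * m) := by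
    apply Real.exp_le_exp.2
    have h5 : c * m ≤ ρ' * m := mul_le_mul_of_nonneg_right hc2 hm0
    linarith
  have h6 : Real.exp (1 + 2 * ρ') * Real.exp (-ρ' * m) ≤
      Real.exp (1 + 2 * ρ') * Real.exp (-c * m) :=
    mul_le_mul_of_nonneg_left h5 (Real.exp_pos _).le
  calc Real.exp (-θ * s) * P.real A + Real.exp (1 + 2 * ρ') * Real.exp (-ρ' * m) * P.real A
      = (Real.exp (-θ * s) + Real.exp (1 + 2 * ρ') * Real.exp (-ρ' * m)) * P.real A := by ring
    _ ≤ (Real.exp (-c * m) + Real.exp (1 + 2 * ρ') * Real.exp (-c * m)) * P.real A :=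
        mul_le_mul_of_nonneg_right (add_le_add h4 h6) hPA
    _ = (1 + Real.exp (1 + 2 * ρ')) * Real.exp (-c * m) * P.real A := by ring

/-- attempts of the process started from one vertex -/
theorem dual {lam : ℝ} (h : lambdaC < ENNReal.ofReal lam) :
    ∃ C c : ℝ, 0 < C ∧ 0 < c ∧ ∀ (V : Type) [Countable V] (adj : V → V → Prop),
      ∀ γ : V → ℕ → V, (∀ x, Function.Injective (γ x) ∧ γ x 0 = x ∧
        ∀ i, adj (γ x i) (γ x (i + 1))) →
      ∀ (Ω : Type) [MeasurableSpace Ω] (P : Measure Ω) (M : Ω → V × V → Set ℝ),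
        IsPoisson P M (cRate lam) → ∀ (y : V) (m K : ℕ), m ≤ K →
          P.real {ω | aliveAt adj (M ω) y (2 * (m : ℝ)) ∧ ∀ j : ℕ, j < m → ∀ z,
            Conn adj (M ω) (y, 0) (z, 2 * (j : ℝ)) →
            ¬ aliveAt natAdj (pull (γ z) (shiftT (2 * (j : ℝ)) (M ω))) 0 (2 * ((K : ℝ) - j))} ≤
            C * Real.exp (-c * m) := by
  classical
  obtain ⟨θ, q, hθ, hq, hsum, hlife⟩ := lifetime h
  refine ⟨1, θ, one_pos, hθ, ?_⟩
  intro V _ adj γ hγ Ω mΩ P M hP y m K hmK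
  have hprob := hP.prob
  set B : Set Ω := {ω | aliveAt adj (M ω) y (2 * (m : ℝ)) ∧ ∀ j : ℕ, j < m → ∀ z,
            Conn adj (M ω) (y, 0) (z, 2 * (j : ℝ)) →
            ¬ aliveAt natAdj (pull (γ z) (shiftT (2 * (j : ℝ)) (M ω))) 0 (2 * ((K : ℝ) - j))}
    with hB
  have h1 : P.real (univ ∩ B) ≤ Real.exp (-θ * m) * P.real (univ : Set Ω) := by
    refine s04_restart hθ hq hsum hlife (γ := γ) (fun x => (hγ x).1) hP hmK
      (fun j x => {ω | Conn adj (M ω) (y, 0) (x, 2 * (j : ℝ))}) ?_ ?_ m _ ?_ ?_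
    · intro j x
      exact ((conn_vmeas_univ adj y x 0 (2 * (j : ℝ))).mono (fun p hp => hp.2)).measurableSet
        hP.good
    · exact MeasurableSet.univ
    · rintro ω ⟨_, hω⟩ j hj x hx
      exact hω j hj x hx
    · rintro ω ⟨⟨z, hz⟩, _⟩
      refine ⟨Finset.range m, by rw [Finset.card_range], ?_⟩
      intro i hi
      rw [Finset.mem_range] at hi
      have hi' : (i : ℝ) ≤ m := by exact_mod_cast hi.le
      refine ⟨hi, ?_⟩
      obtain ⟨w, hw, _⟩ := hz.split (u := 2 * (i : ℝ)) (by positivity) (by linarith)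
      exact ⟨w, hw⟩
  rw [univ_inter, probReal_univ, mul_one] at h1
  rw [one_mul]
  exact h1

end CPM
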